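import Mathlib

set_option autoImplicit false

namespace Pool.Agent.P.MP_3d25f3_gt

open Set

/-- The point of the unit circle at position `x`, the circle having total length `L`. -/
noncomputable def bd (L : ℕ) (x : ℝ) : ℂ := Complex.exp (2 * Real.pi * Complex.I * x / L)

/-- The solid torus: closed unit disc times the circle `ℝ / ℤ`. -/
abbrev Solid : Type := Metric.closedBall (0 : ℂ) 1 × AddCircle (1 : ℝ)

/-- The boundary circle of the disc is cut into `4 g + 2 (r + 1)` unit arcs, `r` the length of `S`.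
The first `4 g` arcs are glued as `a b a⁻¹ b⁻¹` (fibre coordinate unchanged).  The remaining arcs
form `r + 1` adjacent pairs `c c⁻¹`; the pair number `i` is folded at its middle vertex, the fibre
coordinate being rotated by `s β / α` at parameter `s`, where `(α, β)` is the pair number `i` of
`S`, and is `(1, 0)` for the last pair. -/
def Glue (g : ℕ) (S : List (ℕ × ℤ)) (x y : Solid) : Prop :=
  ∃ s ∈ Icc (0 : ℝ) 1,
    (∃ k < g, ∃ e < (2 : ℕ), (x.1 : ℂ) = bd (4 * g + 2 * (S.length + 1)) (4 * k + e + s) ∧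
      (y.1 : ℂ) = bd (4 * g + 2 * (S.length + 1)) (4 * k + e + 3 - s) ∧ y.2 = x.2) ∨
    (∃ i ≤ S.length, (x.1 : ℂ) = bd (4 * g + 2 * (S.length + 1)) (4 * g + 2 * i + s) ∧
      (y.1 : ℂ) = bd (4 * g + 2 * (S.length + 1)) (4 * g + 2 * i + 2 - s) ∧
      y.2 = x.2 + ((s * (S.getD i (1, 0)).2 / (S.getD i (1, 0)).1 : ℝ) : AddCircle (1 : ℝ)))

/-- The Seifert manifold `M(g; S)`, with the quotient topology. -/
abbrev Seifert (g : ℕ) (S : List (ℕ × ℤ)) : Type := Quot (Glue g S)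

/-- `M` has a topological locally flat embedding of codimension one in the 4-sphere. -/
def EmbedsFlat (M : Type) [TopologicalSpace M] : Prop :=
  ∃ e : M → Metric.sphere (0 : EuclideanSpace ℝ (Fin 5)) 1, Topology.IsEmbedding e ∧
    ∀ x, ∃ φ : OpenPartialHomeomorph (Metric.sphere (0 : EuclideanSpace ℝ (Fin 5)) 1) (Fin 4 → ℝ),
      e x ∈ φ.source ∧ ∀ y ∈ φ.source, (y ∈ range e ↔ φ y 0 = 0)

/-- Seifert data with Euler number zero. -/
def Data (S : List (ℕ × ℤ)) : Prop :=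
  (∀ p ∈ S, 1 ≤ p.1 ∧ Int.gcd p.1 p.2 = 1) ∧ (S.map fun p => (p.2 : ℚ) / p.1).sum = 0

/-- The three moves on Seifert data. -/
def Move (S T : List (ℕ × ℤ)) : Prop :=
  T = (1, 0) :: S ∨
  (∃ c : List ℤ, c.length = S.length ∧ c.sum = 0 ∧
    T = List.zipWith (fun (p : ℕ × ℤ) (c : ℤ) => (p.1, p.2 + c * p.1)) S c) ∨ S.Perm T

/-- Skew-symmetric Seifert data. -/
def Skew (S : List (ℕ × ℤ)) : Prop :=
  ∃ P : List (ℕ × ℤ), Relation.EqvGen Move S (P.flatMap fun p => [p, (p.1, -p.2)])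

/-- The sawtooth function. -/
def saw (x : ℚ) : ℚ := if Int.fract x = 0 then 0 else Int.fract x - 1 / 2

/-- `J_k = 2 ∑ ((k β_i / α_i))`. -/
def jmp (S : List (ℕ × ℤ)) (k : ℤ) : ℚ := 2 * (S.map fun p => saw (k * p.2 / p.1)).sum

end Pool.Agent.P.MP_3d25f3_gt
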