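import Pool.Agent.P.MP_3d25f3_gt.Bas

set_option autoImplicit false

open Set Filter Topology

namespace Pool.Agent.P.MP_3d25f3_gt

variable {Z W : Type} {R R' : Type} [CommRing R] [CommRing R']

lemma d0_congr {a b : List Z → R} {U : Set Z} {k : ℕ}
    (h : ∀ l' : List Z, l'.length = k → (∀ y ∈ l', y ∈ U) → a l' = b l') {l : List Z}
    (hl : l.length = k + 1) (hU : ∀ y ∈ l, y ∈ U) : d0 a l = d0 b l := by
  induction l generalizing a b k with
  | nil => rfl
  | cons x l ih =>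
    have hk : l.length = k := by simpa using hl
    have hx : x ∈ U := hU x (by simp)
    have hl' : ∀ y ∈ l, y ∈ U := fun y hy => hU y (by simp [hy])
    simp only [d0]
    rw [h l hk hl']
    congr 1
    cases k with
    | zero => rw [List.length_eq_zero_iff.1 hk]; rfl
    | succ k =>
      refine ih (fun l' h1 h2 => h _ (by simp [h1]) fun y hy => ?_) hk hl'
      rcases List.mem_cons.1 hy with rfl | hy
      exacts [hx, h2 y hy]

lemma d0_d0 (c : List Z → R) (l : List Z) : d0 (d0 c) l = 0 := by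
  induction l generalizing c with
  | nil => rfl
  | cons x l ih =>
    have e : (fun l' => d0 c (x :: l')) = c + (-1 : R) • d0 fun l' => c (x :: l') := by
      funext l'
      simp only [d0, Pi.add_apply, Pi.smul_apply, smul_eq_mul]
      ring
    rw [d0, e, d0_add, d0_smul, ih]
    ring

lemma D_congr (τ : Z → Z → R) {a b : List Z → R} {U : Set Z} {k : ℕ}
    (h : ∀ l' : List Z, l'.length = k → (∀ y ∈ l', y ∈ U) → a l' = b l') {l : List Z}
    (hl : l.length = k + 1) (hU : ∀ y ∈ l, y ∈ U) : D τ a l = D τ b l := by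
  match l, hl, hU with
  | [], _, _ => rfl
  | [_], _, _ => rfl
  | x :: y :: l, hl, hU =>
    have hk : k = l.length + 1 := by simpa using hl.symm
    have hl' : ∀ w ∈ y :: l, w ∈ U := fun w hw => hU w (List.mem_cons_of_mem _ hw)
    rw [D_cons, D_cons, h (y :: l) (by simp [hk]) hl']
    congr 1
    refine d0_congr (k := l.length) (fun l' h1 h2 => h _ (by simp [h1, hk]) fun w hw => ?_) rfl hl'
    rcases List.mem_cons.1 hw with rfl | hw
    exacts [hU _ (by simp), h2 w hw]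

/-- on a set where `τ` is a cocycle the twisted coboundary is the ordinary one -/
lemma D_gauge {τ : Z → Z → R} {U : Set Z} (hτ : CocOn τ U) {z : Z} (hz : z ∈ U) (c : List Z → R)
    (x : Z) (l : List Z) (hl : ∀ w ∈ x :: l, w ∈ U) :
    τ z x * D τ c (x :: l) = d0 (pull id (τ z) c) (x :: l) := by
  cases l with
  | nil => simp [d0]
  | cons y l =>
    have e : (fun l' => pull id (τ z) c (x :: l')) = τ z x • fun l' => c (x :: l') := by
      funext l'; simp
    have h := (hτ z hz).2 x (hl x (by simp)) y (hl y (by simp))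
    have e2 : d0 (pull id (τ z) c) (x :: y :: l) = pull id (τ z) c (y :: l) -
      d0 (fun l' => pull id (τ z) c (x :: l')) (y :: l) := rfl
    rw [D_cons, e2, e, d0_smul, pull_cons, ← h]
    simp only [id, List.map_id]
    ring

lemma DD_eq {τ : Z → Z → R} {U : Set Z} (hτ : CocOn τ U) (c : List Z → R) (l : List Z)
    (hl : ∀ w ∈ l, w ∈ U) : D τ (D τ c) l = 0 := by
  cases l with
  | nil => rfl
  | cons x l =>
    have hx : x ∈ U := hl x (by simp)
    have h := D_gauge hτ hx (D τ c) x l hl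
    rw [(hτ x hx).1, one_mul] at h
    rw [h, ← d0_d0 (pull id (τ x) c) (x :: l)]
    refine d0_congr (k := l.length) (fun l' _ h2 => ?_) rfl hl
    cases l' with
    | nil => rfl
    | cons y l' => simpa using D_gauge hτ hx c y l' h2

lemma alg_cf_d0 (φ : R →+* R') (c : List Z → R) (l : List Z) :
    φ (d0 c l) = d0 (fun l' => φ (c l')) l := by
  induction l generalizing c with
  | nil => simp [d0]
  | cons x l ih => simp only [d0, map_sub, ih]

lemma alg_d0_map (f : W → Z) (c : List Z → R) (l : List W) :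
    d0 (fun l' => c (l'.map f)) l = d0 c (l.map f) := by
  induction l generalizing c with
  | nil => rfl
  | cons x l ih => simp only [d0, List.map_cons, ← ih]

lemma cf_D (φ : R →+* R') {τ : Z → Z → R} {τ' : Z → Z → R'} (h : ∀ x y, φ (τ x y) = τ' x y)
    (c : List Z → R) : cf φ (D τ c) = D τ' (cf φ c) := by
  funext l
  match l with
  | [] => simp
  | [_] => simp
  | x :: y :: l => simp only [cf_apply, D_cons, map_sub, map_mul, h, alg_cf_d0]

lemma cf_cup (φ : R →+* R') {τ : Z → Z → R} {τ' : Z → Z → R'} (h : ∀ x y, φ (τ x y) = τ' x y)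
    (p : ℕ) (a b : List Z → R) : cf φ (cup τ p a b) = cup τ' p (cf φ a) (cf φ b) := by
  funext l
  cases l <;> simp [cup, h]

lemma pull_pull {V : Type} (f : V → W) (g : W → Z) (ν : V → R) (μ : W → R) (c : List Z → R) :
    pull f ν (pull g μ c) = pull (g ∘ f) (fun x => ν x * μ (f x)) c := by
  funext l
  cases l <;> simp [mul_assoc]

lemma pull_D_eq (τ : Z → Z → R) (f : W → Z) (c : List Z → R) :
    D (fun a b => τ (f a) (f b)) (pull f 1 c) = pull f 1 (D τ c) := by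
  funext l
  match l with
  | [] => rfl
  | [_] => simp
  | x :: y :: l =>
    simp only [D_cons, pull_cons, List.map_cons, Pi.one_apply, one_mul]
    rw [alg_d0_map f (fun l' => c (f x :: l')) (y :: l)]
    rfl

lemma pull_cup (τ : Z → Z → R) (f : W → Z) (p : ℕ) (a b : List Z → R) (l : List W)
    (hl : p < l.length) : pull f 1 (cup τ p a b) l
      = cup (fun x y => τ (f x) (f y)) p (pull f 1 a) (pull f 1 b) l := by
  have e : ∀ l' : List W, l' ≠ [] → pull f 1 b l' = b (l'.map f) := fun l' h => by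
    cases l' with
    | nil => exact absurd rfl h
    | cons y l' => simp
  cases l with
  | nil => simp at hl
  | cons x l =>
    simp only [cup, pull_cons, Pi.one_apply, one_mul]
    rw [e _ (by simpa using hl), ← List.map_cons, List.getD_map, List.map_drop, List.map_take]

lemma tw_one (n : Z → Z → ℤ) : tw (1 : Rˣ) n = 1 := by
  funext x y; simp [tw]

lemma tw_map (φ : R →+* R') {t : Rˣ} {t' : R'ˣ} (h : φ t = t') (n : Z → Z → ℤ) (x y : Z) :
    φ (tw t n x y) = tw t' n x y := by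
  have e : Units.map (φ : R →* R') t = t' := Units.ext h
  simp only [tw, ← e, ← map_zpow]
  rfl

variable [TopologicalSpace Z] [TopologicalSpace W]

lemma D_Null (τ : Z → Z → R) {k : ℕ} {F : Set Z} {c : List Z → R} (hc : c ∈ Null R k F) :
    D τ c ∈ Null R (k + 1) F := by
  intro x hx
  obtain ⟨U, hU, h⟩ := hc x hx
  refine ⟨U, hU, fun l hl h1 => ?_⟩
  rw [D_congr τ (b := 0) h hl h1, map_zero]
  rfl

lemma D_Null_zero (τ : Z → Z → R) (F : Set Z) (c : List Z → R) : D τ c ∈ Null R 0 F := by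
  refine fun x _ => ⟨univ, univ_mem, fun l hl _ => ?_⟩
  obtain ⟨y, rfl⟩ := List.length_eq_one_iff.1 hl
  rfl

lemma D_Null' (τ : Z → Z → R) {k : ℕ} {F : Set Z} {c : List Z → R} (hc : c ∈ Null R (k - 1) F) :
    D τ c ∈ Null R k F := by
  cases k with
  | zero => exact D_Null_zero τ F c
  | succ k => exact D_Null τ hc

lemma DD_Null {τ : Z → Z → R} {k : ℕ} {F F' : Set Z} (hτ : Coc τ (F \ F')) {c : List Z → R}
    (hc : c ∈ Null R (k - 1) F') : D τ (D τ c) ∈ Null R (k + 1) F := by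
  intro x hx
  by_cases h : x ∈ F'
  · exact D_Null τ (D_Null' τ hc) x h
  · obtain ⟨U, hU, h1⟩ := hτ x ⟨hx, h⟩
    exact ⟨U, hU, fun l _ h2 => DD_eq h1 c l h2⟩

lemma Bc_le_Zc {τ : Z → Z → R} {k : ℕ} {F F' : Set Z} (hτ : Coc τ (F \ F')) (h : F' ⊆ F) :
    Bc τ k F F' ≤ Zc τ k F F' := by
  intro c hc
  obtain ⟨b, hb, h1⟩ := mem_Bc.1 hc
  refine ⟨?_, ?_⟩
  · simpa using add_mem (Null_mono k h h1) (D_Null' τ hb)
  · have := add_mem (D_Null τ h1) (DD_Null hτ hb)
    rw [map_sub, sub_add_cancel] at this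
    exact this

lemma Bc_zero (τ : Z → Z → R) (F F' : Set Z) : Bc τ 0 F F' = Null R 0 F := by
  refine le_antisymm (sup_le ?_ le_rfl) le_sup_right
  rintro _ ⟨b, -, rfl⟩
  exact D_Null_zero τ F b

lemma Null_union (k : ℕ) (F G : Set Z) : Null R k (F ∪ G) = Null R k F ⊓ Null R k G := by
  ext c
  exact ⟨fun h => ⟨fun x hx => h x (Or.inl hx), fun x hx => h x (Or.inr hx)⟩,
    fun h x hx => hx.elim (h.1 x) (h.2 x)⟩

lemma Null_inter [NormalSpace Z] {k : ℕ} {F G : Set Z} (hF : IsClosed F) (hG : IsClosed G)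
    {c : List Z → R} (hc : c ∈ Null R k (F ∩ G)) : ∃ b ∈ Null R k G, c - b ∈ Null R k F := by
  classical
  let O : Set Z := {x | ∃ U ∈ 𝓝 x, ∀ l : List Z, l.length = k + 1 → (∀ y ∈ l, y ∈ U) → c l = 0}
  have hO : IsOpen O := isOpen_iff_mem_nhds.2 fun x ⟨U, hU, h⟩ =>
    mem_of_superset (eventually_mem_nhds_iff.2 hU) fun y hy => ⟨U, hy, h⟩
  obtain ⟨A, B, hA, hB, h1, h2, hd⟩ := normal_separation (hF.sdiff hO) (hG.sdiff hO)
    (Set.disjoint_left.2 fun x h1 h2 => h1.2 (hc x ⟨h1.1, h2.1⟩))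
  let b : List Z → R := fun l => if ∀ y ∈ l.head?, y ∈ A then c l else 0
  refine ⟨b, fun x hx => ?_, fun x hx => ?_⟩
  · by_cases h : x ∈ O
    · obtain ⟨U, hU, h3⟩ := h
      exact ⟨U, hU, fun l hl h4 => by simp only [b, h3 l hl h4, ite_self]⟩
    · refine ⟨B, hB.mem_nhds (h2 ⟨hx, h⟩), fun l hl h4 => ?_⟩
      cases l with
      | nil => simp at hl
      | cons y l =>
        exact if_neg fun h5 => Set.disjoint_left.1 hd (h5 y rfl) (h4 y (by simp))
  · by_cases h : x ∈ O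
    · obtain ⟨U, hU, h3⟩ := h
      exact ⟨U, hU, fun l hl h4 => by simp only [b, Pi.sub_apply, h3 l hl h4, ite_self, sub_zero]⟩
    · refine ⟨A, hA.mem_nhds (h1 ⟨hx, h⟩), fun l _ h4 => ?_⟩
      have : b l = c l := if_pos fun y hy => h4 y (List.mem_of_mem_head? hy)
      rw [Pi.sub_apply, this, sub_self]

lemma cf_Null (φ : R →+* R') {k : ℕ} {F : Set Z} {c : List Z → R} (hc : c ∈ Null R k F) :
    cf φ c ∈ Null R' k F := by
  intro x hx
  obtain ⟨U, hU, h⟩ := hc x hx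
  exact ⟨U, hU, fun l hl h1 => by rw [cf_apply, h l hl h1, map_zero]⟩

lemma cf_Zc (φ : R →+* R') {τ : Z → Z → R} {τ' : Z → Z → R'} (h : ∀ x y, φ (τ x y) = τ' x y)
    {k : ℕ} {F F' : Set Z} {c : List Z → R} (hc : c ∈ Zc τ k F F') : cf φ c ∈ Zc τ' k F F' := by
  refine ⟨cf_Null φ hc.1, ?_⟩
  have := cf_Null φ (mem_Zc.1 hc).2
  rwa [cf_D φ h] at this

lemma cf_Bc (φ : R →+* R') {τ : Z → Z → R} {τ' : Z → Z → R'} (h : ∀ x y, φ (τ x y) = τ' x y)
    {k : ℕ} {F F' : Set Z} {c : List Z → R} (hc : c ∈ Bc τ k F F') : cf φ c ∈ Bc τ' k F F' := by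
  obtain ⟨b, hb, h1⟩ := mem_Bc.1 hc
  refine mem_Bc.2 ⟨_, cf_Null φ hb, ?_⟩
  have := cf_Null φ h1
  rwa [map_sub, cf_D φ h] at this

lemma pull_Null {f : W → Z} (ν : W → R) {k : ℕ} {F : Set Z} {G : Set W}
    (hf : ∀ x ∈ G, ContinuousAt f x) (hm : MapsTo f G F) {c : List Z → R} (hc : c ∈ Null R k F) :
    pull f ν c ∈ Null R k G := by
  intro x hx
  obtain ⟨U, hU, h⟩ := hc (f x) (hm hx)
  refine ⟨f ⁻¹' U, hf x hx hU, fun l hl h1 => ?_⟩
  cases l with
  | nil => rfl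
  | cons y l =>
    rw [pull_cons, ← List.map_cons, h _ (by simpa using hl), mul_zero]
    intro w hw
    obtain ⟨v, hv, rfl⟩ := List.mem_map.1 hw
    exact h1 v hv

lemma pull_D {τ₀ : W → W → R} {τ : Z → Z → R} {f : W → Z} {ν : W → R} {G : Set W}
    (h : Itw τ₀ τ f ν G) (k : ℕ) (c : List Z → R) :
    D τ₀ (pull f ν c) - pull f ν (D τ c) ∈ Null R k G := by
  intro x hx
  obtain ⟨U, hU, h1⟩ := h x hx
  refine ⟨U, hU, fun l _ h2 => ?_⟩
  match l, h2 with
  | [], _ => simp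
  | [_], _ => simp
  | a :: b :: l, h2 =>
    have e : (fun l' => pull f ν c (a :: l')) = ν a • fun l' : List W => c (f a :: l'.map f) := by
      funext l'; simp
    have h3 := h1 a (h2 a (by simp)) b (h2 b (by simp))
    rw [Pi.sub_apply, D_cons, e, d0_smul, alg_d0_map f (fun l' => c (f a :: l')) (b :: l)]
    simp only [pull_cons, List.map_cons, D_cons]
    linear_combination c (f b :: l.map f) * h3

lemma pull_Zc {τ₀ : W → W → R} {τ : Z → Z → R} {f : W → Z} {ν : W → R} {k : ℕ} {F F' : Set Z}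
    {G G' : Set W} (h : Itw τ₀ τ f ν G) (hf : ∀ x ∈ G, ContinuousAt f x) (hG : G' ⊆ G)
    (hm : MapsTo f G F) (hm' : MapsTo f G' F') {c : List Z → R} (hc : c ∈ Zc τ k F F') :
    pull f ν c ∈ Zc τ₀ k G G' := by
  refine ⟨pull_Null ν (fun x hx => hf x (hG hx)) hm' hc.1, ?_⟩
  have := add_mem (pull_D h (k + 1) c) (pull_Null ν hf hm (mem_Zc.1 hc).2)
  rwa [sub_add_cancel] at this

lemma pull_Bc {τ₀ : W → W → R} {τ : Z → Z → R} {f : W → Z} {ν : W → R} {k : ℕ} {F F' : Set Z}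
    {G G' : Set W} (h : Itw τ₀ τ f ν G) (hf : ∀ x ∈ G, ContinuousAt f x) (hG : G' ⊆ G)
    (hm : MapsTo f G F) (hm' : MapsTo f G' F') {c : List Z → R} (hc : c ∈ Bc τ k F F') :
    pull f ν c ∈ Bc τ₀ k G G' := by
  obtain ⟨b, hb, h1⟩ := mem_Bc.1 hc
  refine mem_Bc.2 ⟨_, pull_Null ν (fun x hx => hf x (hG hx)) hm' hb, ?_⟩
  have := sub_mem (pull_Null ν hf hm h1) (pull_D h k b)
  rwa [map_sub, sub_sub, add_sub_cancel] at this

lemma pull_id_Null {ν : Z → R} (k : ℕ) {F : Set Z} (h : ∀ x ∈ F, ∀ᶠ a in 𝓝 x, ν a = 1)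
    (c : List Z → R) : pull id ν c - c ∈ Null R k F := by
  refine fun x hx => ⟨_, h x hx, fun l hl h1 => ?_⟩
  cases l with
  | nil => simp at hl
  | cons y l =>
    have : ν y = 1 := h1 y (by simp)
    simp [this]

omit [TopologicalSpace Z] in
lemma Itw_comp (τ : Z → Z → R) (f : W → Z) (G : Set W) :
    Itw (fun a b => τ (f a) (f b)) τ f 1 G :=
  fun _ _ => ⟨univ, univ_mem, fun _ _ _ _ => by simp⟩

lemma Coc_one (F : Set Z) : Coc (1 : Z → Z → R) F :=
  fun _ _ => ⟨univ, univ_mem, fun _ _ => ⟨rfl, fun _ _ _ _ => by simp⟩⟩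

lemma Coc.mono {τ : Z → Z → R} {F G : Set Z} (h : Coc τ F) (hG : G ⊆ F) : Coc τ G :=
  fun x hx => h x (hG hx)

lemma CocZ.mono {n : Z → Z → ℤ} {F G : Set Z} (h : CocZ n F) (hG : G ⊆ F) : CocZ n G :=
  fun x hx => h x (hG hx)

lemma Coc.comp {τ : Z → Z → R} {F : Set Z} (h : Coc τ F) {f : W → Z} {G : Set W}
    (hf : ∀ x ∈ G, ContinuousAt f x) (hm : MapsTo f G F) :
    Coc (fun a b => τ (f a) (f b)) G := by
  intro x hx
  obtain ⟨U, hU, h1⟩ := h (f x) (hm hx)
  exact ⟨f ⁻¹' U, hf x hx hU, fun a ha => ⟨(h1 _ ha).1, fun b hb c hc => (h1 _ ha).2 _ hb _ hc⟩⟩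

lemma CocZ.comp {n : Z → Z → ℤ} {F : Set Z} (h : CocZ n F) {f : W → Z} {G : Set W}
    (hf : ∀ x ∈ G, ContinuousAt f x) (hm : MapsTo f G F) :
    CocZ (fun a b => n (f a) (f b)) G := by
  intro x hx
  obtain ⟨U, hU, h1⟩ := h (f x) (hm hx)
  exact ⟨f ⁻¹' U, hf x hx hU, fun a ha b hb c hc => h1 _ ha _ hb _ hc⟩

lemma CocZ.tw {n : Z → Z → ℤ} {F : Set Z} (h : CocZ n F) (t : Rˣ) : Coc (tw t n) F := by
  intro x hx
  obtain ⟨U, hU, h1⟩ := h x hx
  refine ⟨U, hU, fun a ha => ⟨?_, fun b hb c hc => ?_⟩⟩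
  · have : n a a = 0 := by linarith [h1 a ha a ha a ha]
    simp [MP_3d25f3_gt.tw, this]
  · simp only [MP_3d25f3_gt.tw, ← h1 a ha b hb c hc, zpow_add, Units.val_mul]

lemma Mu_tw (t : Rˣ) (n : Z → Z → ℤ) (F : Set Z) : Mu (tw t n) (tw t⁻¹ n) 1 F := by
  refine fun x _ => ⟨univ, univ_mem, fun a _ b _ => ?_⟩
  simp only [tw, ← Units.val_mul, inv_zpow, mul_inv_cancel, Units.val_one, Pi.one_apply]

lemma CocZ.nbhd {n : Z → Z → ℤ} {F : Set Z} (h : CocZ n F) :
    ∃ N, IsOpen N ∧ F ⊆ N ∧ CocZ n N := by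
  refine ⟨{x | ∃ U ∈ 𝓝 x, ∀ a ∈ U, ∀ b ∈ U, ∀ c ∈ U, n a b + n b c = n a c}, ?_, h, fun _ hx => hx⟩
  exact isOpen_iff_mem_nhds.2 fun x ⟨U, hU, h⟩ =>
    mem_of_superset (eventually_mem_nhds_iff.2 hU) fun y hy => ⟨U, hy, h⟩

lemma CocZ.co1 {n : Z → Z → ℤ} {F : Set Z} (h : CocZ n F) :
    co1 (fun a b => (n a b : R)) ∈ Zc (1 : Z → Z → R) 1 F ∅ := by
  refine ⟨by simp, fun x hx => ?_⟩
  obtain ⟨U, hU, h1⟩ := h x hx
  refine ⟨U, hU, fun l hl h2 => ?_⟩
  obtain ⟨a, b, c, rfl⟩ := List.length_eq_three.1 hl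
  rw [D_three]
  simp only [MP_3d25f3_gt.co1, Pi.one_apply, one_mul,
    ← h1 a (h2 a (by simp)) b (h2 b (by simp)) c (h2 c (by simp))]
  push_cast
  ring

lemma CocZ_of_Zc {c : List Z → ℤ} {F : Set Z} (h : c ∈ Zc (1 : Z → Z → ℤ) 1 F ∅) :
    CocZ (fun a b => c [a, b]) F := by
  intro x hx
  obtain ⟨U, hU, h1⟩ := (mem_Zc.1 h).2 x hx
  refine ⟨U, hU, fun a ha b hb e he => ?_⟩
  have := h1 [a, b, e] rfl (by simp [ha, hb, he])
  rw [D_three] at this
  simp only [Pi.one_apply, one_mul] at this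
  linarith

end Pool.Agent.P.MP_3d25f3_gt
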