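import Pool.Agent.P.MP_3d25f3_gt.Alg

set_option autoImplicit false

open Set Filter Topology

namespace Pool.Agent.P.MP_3d25f3_gt

variable {Z : Type} {R : Type} [CommRing R]

lemma cup_add_left (τ' : Z → Z → R) (p : ℕ) (a a' b : List Z → R) :
    cup τ' p (a + a') b = cup τ' p a b + cup τ' p a' b := by
  funext l; cases l <;> simp [cup, add_mul]

lemma cup_add_right (τ' : Z → Z → R) (p : ℕ) (a b b' : List Z → R) :
    cup τ' p a (b + b') = cup τ' p a b + cup τ' p a b' := by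
  funext l; cases l <;> simp [cup, mul_add]

lemma cup_smul_left (τ' : Z → Z → R) (p : ℕ) (r : R) (a b : List Z → R) :
    cup τ' p (r • a) b = r • cup τ' p a b := by
  funext l; cases l <;> simp [cup, mul_assoc]

lemma cup_smul_right (τ' : Z → Z → R) (p : ℕ) (r : R) (a b : List Z → R) :
    cup τ' p a (r • b) = r • cup τ' p a b := by
  funext l; cases l <;> simp [cup, mul_left_comm]

/-- the cup product as a bilinear map -/
def cupL (τ' : Z → Z → R) (p : ℕ) : (List Z → R) →ₗ[R] (List Z → R) →ₗ[R] (List Z → R) :=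
  LinearMap.mk₂ R (cup τ' p) (cup_add_left τ' p) (cup_smul_left τ' p) (cup_add_right τ' p)
    (cup_smul_right τ' p)

@[simp] lemma cupL_apply (τ' : Z → Z → R) (p : ℕ) (a b : List Z → R) :
    cupL τ' p a b = cup τ' p a b := rfl

lemma cup_sub_left (τ' : Z → Z → R) (p : ℕ) (a a' b : List Z → R) :
    cup τ' p (a - a') b = cup τ' p a b - cup τ' p a' b := by
  funext l; cases l <;> simp [cup, sub_mul]

lemma cup_sub_right (τ' : Z → Z → R) (p : ℕ) (a b b' : List Z → R) :
    cup τ' p a (b - b') = cup τ' p a b - cup τ' p a b' := by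
  funext l; cases l <;> simp [cup, mul_sub]

lemma cup_d0 (p : ℕ) (a b : List Z → R) (l : List Z) (hl : p + 2 ≤ l.length) :
    d0 (fun m => a (m.take (p + 1)) * b (m.drop p)) l = d0 a (l.take (p + 2)) * b (l.drop (p + 1))
      + (-1) ^ p * (a (l.take (p + 1)) * d0 b (l.drop p)) := by
  induction p generalizing a l with
  | zero =>
    match l, hl with
    | x :: y :: l, _ =>
      have e := d0_smul (a [x]) (fun m => b (x :: m)) (y :: l)
      have e1 : d0 (fun m => a (m.take (0 + 1)) * b (m.drop 0)) (x :: y :: l) =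
          a [y] * b (y :: l) - d0 (a [x] • fun m => b (x :: m)) (y :: l) := rfl
      have e2 : d0 a ((x :: y :: l).take (0 + 2)) = a [y] - (a [x] - 0) := rfl
      have e3 : d0 b ((x :: y :: l).drop 0) = b (y :: l) - d0 (fun m => b (x :: m)) (y :: l) := rfl
      rw [e1, e, e2, e3]
      simp only [zero_add, List.drop_succ_cons, List.drop_zero, List.take_succ_cons, List.take_zero]
      ring
  | succ p ih =>
    match l, hl with
    | x :: l, hl =>
      have e := ih (fun m => a (x :: m)) l (by simpa using hl)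
      have e1 : d0 (fun m => a (m.take (p + 1 + 1)) * b (m.drop (p + 1))) (x :: l) =
          a (l.take (p + 2)) * b (l.drop (p + 1)) -
            d0 (fun m => a (x :: m.take (p + 1)) * b (m.drop p)) l := rfl
      have e2 : d0 a ((x :: l).take (p + 1 + 2)) =
          a (l.take (p + 2)) - d0 (fun m => a (x :: m)) (l.take (p + 2)) := rfl
      rw [e1, e, e2]
      simp only [List.drop_succ_cons, List.take_succ_cons]
      ring

lemma cup_drop (l : List Z) {p : ℕ} (hp : p < l.length) (x : Z) :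
    l.drop p = l.getD p x :: l.drop (p + 1) := by
  rw [List.getD_eq_getElem _ _ hp, List.drop_eq_getElem_cons hp]

lemma cup_pull_drop (ν : Z → R) (c : List Z → R) (l : List Z) {p : ℕ} (hp : p < l.length) (x : Z) :
    pull id ν c (l.drop p) = ν (l.getD p x) * c (l.drop p) := by
  rw [cup_drop l hp x, pull_cons, List.map_id, id]

lemma cup_getD_mem (l : List Z) {p : ℕ} (hp : p < l.length) (x : Z) : l.getD p x ∈ l := by
  rw [List.getD_eq_getElem _ _ hp]; exact List.getElem_mem hp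

lemma cup_D_five (τ : Z → Z → R) (c : List Z → R) (x y z w v : Z) :
    D τ c [x, y, z, w, v] = τ x y * c [y, z, w, v] - c [x, z, w, v] + c [x, y, w, v]
      - c [x, y, z, v] + c [x, y, z, w] := by
  simp [D_cons, d0]; ring

lemma cup_ring {t t' t2 t2' s a012 a013 a014 a023 a024 a034 a124 a134 a234 b012 b013 b014 b023 b024
    b034 b123 b124 b134 b234 : R} (h1 : t * t' = 1) (h2 : t' * s = t2')
    (e1 : t * a134 - a034 + a014 - a013 = 0) (e2 : t * a124 - a024 + a014 - a012 = 0)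
    (e3 : t2 * a234 - a034 + a024 - a023 = 0) (f1 : t' * b123 - b023 + b013 - b012 = 0)
    (f2 : t' * b124 - b024 + b014 - b012 = 0) (f3 : t' * b134 - b034 + b014 - b013 = 0)
    (f4 : t2' * b234 - b034 + b024 - b023 = 0) :
    a012 * (t2' * b234) - b012 * (t2 * a234) -
      (1 * (a124 * (s * b234) - a134 * b123) - (a024 * (t2' * b234) - a034 * b023) +
        (a014 * (t' * b134) - a034 * b013) - (a014 * (t' * b124) - a024 * b012) +
        (a013 * (t' * b123) - a023 * b012)) = 0 := by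
  have k1 : a134 * b123 = (t * a134) * (t' * b123) := by
    linear_combination (-(a134 * b123)) * h1
  have k2 : a124 * (s * b234) = (t * a124) * (t2' * b234) := by
    rw [← h2]; linear_combination (-(a124 * s * b234)) * h1
  rw [k1, k2, show t * a134 = a034 - a014 + a013 by linear_combination e1,
    show t * a124 = a024 - a014 + a012 by linear_combination e2,
    show t2 * a234 = a034 - a024 + a023 by linear_combination e3,
    show t' * b123 = b023 - b013 + b012 by linear_combination f1,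
    show t' * b124 = b024 - b014 + b012 by linear_combination f2,
    show t' * b134 = b034 - b014 + b013 by linear_combination f3,
    show t2' * b234 = b034 - b024 + b023 by linear_combination f4]
  ring

lemma cup_alg_left (τ τ' τ'' : Z → Z → R) (p : ℕ) (a b c : List Z → R) :
    cup τ' (p + 1) a b - D τ'' (cup τ' p c b) = cup τ' (p + 1) (a - D τ c) b -
      (D τ'' (cup τ' p c b) - (cup τ' (p + 1) (D τ c) b + (-1 : R) ^ p • cup τ' p c (D τ' b))) -
      (-1 : R) ^ p • cup τ' p c (D τ' b) := by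
  rw [cup_sub_left]
  abel

lemma cup_alg_right (τ τ' τ'' : Z → Z → R) (p : ℕ) (a b c : List Z → R) :
    cup τ' p a b - D τ'' ((-1 : R) ^ p • cup τ' p a c) = cup τ' p a (b - D τ' c) - (-1 : R) ^ p •
      (D τ'' (cup τ' p a c) - (cup τ' (p + 1) (D τ a) c + (-1 : R) ^ p • cup τ' p a (D τ' c))) -
      (-1 : R) ^ p • cup τ' (p + 1) (D τ a) c := by
  have e : (-1 : R) ^ p * (-1) ^ p = 1 := by rw [← mul_pow]; simp
  rw [cup_sub_right, map_smul, smul_sub, smul_add, smul_smul, e, one_smul]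
  abel

/-- Leibniz rule -/
lemma leibniz {τ τ' τ'' : Z → Z → R} {U : Set Z} (h : CocOn τ U) (h' : CocOn τ' U)
    (hm : ∀ a ∈ U, ∀ b ∈ U, τ a b * τ' a b = τ'' a b) (p : ℕ) (a b : List Z → R) (l : List Z)
    (hl : p + 2 ≤ l.length) (hU : ∀ y ∈ l, y ∈ U) :
    D τ'' (cup τ' p a b) l = cup τ' (p + 1) (D τ a) b l + (-1) ^ p * cup τ' p a (D τ' b) l := by
  have h'' : CocOn τ'' U := fun u hu => ⟨by rw [← hm u hu u hu, (h u hu).1, (h' u hu).1, one_mul],
    fun v hv w hw => by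
      rw [← hm u hu v hv, ← hm v hv w hw, ← hm u hu w hw, ← (h u hu).2 v hv w hw,
        ← (h' u hu).2 v hv w hw]
      ring⟩
  match l, hl, hU with
  | x :: l, hl, hU =>
    have hx : x ∈ U := hU x List.mem_cons_self
    have hl' : p + 1 ≤ l.length := by simpa using hl
    have e1 := D_gauge h'' hx (cup τ' p a b) x l hU
    have e2 : d0 (pull id (τ'' x) (cup τ' p a b)) (x :: l) = d0 (fun m =>
        pull id (τ x) a (m.take (p + 1)) * pull id (τ' x) b (m.drop p)) (x :: l) := by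
      refine d0_congr (U := U) (k := l.length) (fun m hm1 hm2 => ?_) rfl hU
      match m, hm1, hm2 with
      | [], hm1, _ => exact absurd hm1 (by simp only [List.length_nil]; omega)
      | y :: m, hm1, hm2 =>
        have hp : p < (y :: m).length := by omega
        have hy : y ∈ U := hm2 y List.mem_cons_self
        rw [cup_pull_drop _ _ _ hp y, List.take_succ_cons, pull_cons, pull_cons, List.map_id,
          List.map_id, id, cup, ← hm x hx y hy,
          ← (h' x hx).2 y hy _ (hm2 _ (cup_getD_mem _ hp y))]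
        ring
    have e3 := D_gauge h hx a x (l.take (p + 1)) fun w hw =>
      hU w (List.mem_of_mem_take (i := p + 2) hw)
    have hp : p < (x :: l).length := by omega
    have e4 := D_gauge h' hx b ((x :: l).getD p x) ((x :: l).drop (p + 1)) fun w hw =>
      hU w (List.mem_of_mem_drop (i := p) (by rwa [cup_drop _ hp x]))
    rw [← cup_drop _ hp x] at e4
    rw [(h'' x hx).1, one_mul] at e1
    rw [(h x hx).1, one_mul] at e3
    rw [e1, e2, cup_d0 p _ _ _ hl, ← e4, cup_pull_drop _ _ _ (by omega) x, List.take_succ_cons,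
      List.take_succ_cons, ← e3, pull_cons, List.map_id, id, (h x hx).1, one_mul, cup, cup]

variable [TopologicalSpace Z]

lemma cup_Null_left (τ' : Z → Z → R) {p k : ℕ} (hk : p ≤ k) {F : Set Z} {a : List Z → R}
    (ha : a ∈ Null R p F) (b : List Z → R) : cup τ' p a b ∈ Null R k F := by
  intro x hx
  obtain ⟨U, hU, h⟩ := ha x hx
  refine ⟨U, hU, fun l hl hl' => ?_⟩
  match l, hl, hl' with
  | y :: l, hl, hl' =>
    have e : a (y :: l.take p) = 0 := h _ (by simp at hl ⊢; omega)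
      fun w hw => hl' w (List.mem_of_mem_take (i := p + 1) hw)
    rw [cup, e, zero_mul]

lemma cup_Null_right (τ' : Z → Z → R) {p q k : ℕ} (hk : p + q = k) {F : Set Z} (a : List Z → R)
    {b : List Z → R} (hb : b ∈ Null R q F) : cup τ' p a b ∈ Null R k F := by
  intro x hx
  obtain ⟨U, hU, h⟩ := hb x hx
  refine ⟨U, hU, fun l hl hl' => ?_⟩
  match l, hl, hl' with
  | y :: l, hl, hl' =>
    have e : b ((y :: l).drop p) = 0 := h _ (by rw [List.length_drop]; omega)
      fun w hw => hl' w (List.mem_of_mem_drop hw)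
    rw [cup, e, mul_zero, mul_zero]

lemma leibniz_Null {τ τ' τ'' : Z → Z → R} {F : Set Z} (h : Coc τ F) (h' : Coc τ' F)
    (hm : Mu τ τ' τ'' F) {p k : ℕ} (hk : p + 1 ≤ k) (a b : List Z → R) :
    D τ'' (cup τ' p a b) - (cup τ' (p + 1) (D τ a) b + (-1 : R) ^ p • cup τ' p a (D τ' b))
      ∈ Null R k F := by
  intro x hx
  obtain ⟨U, hU, g⟩ := h x hx
  obtain ⟨V, hV, g'⟩ := h' x hx
  obtain ⟨W, hW, gm⟩ := hm x hx
  refine ⟨U ∩ V ∩ W, inter_mem (inter_mem hU hV) hW, fun l hl hl' => ?_⟩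
  have := leibniz (U := U ∩ V ∩ W) (τ := τ) (τ' := τ') (τ'' := τ'')
    (fun u hu => ⟨(g u hu.1.1).1, fun v hv w hw => (g u hu.1.1).2 v hv.1.1 w hw.1.1⟩)
    (fun u hu => ⟨(g' u hu.1.2).1, fun v hv w hw => (g' u hu.1.2).2 v hv.1.2 w hw.1.2⟩)
    (fun u hu v hv => gm u hu.2 v hv.2) p a b l (by omega) hl'
  rw [Pi.sub_apply, Pi.add_apply, Pi.smul_apply, smul_eq_mul, this, sub_self]

/-- product of two absolute cocycles -/
lemma cup_Zc_abs {τ τ' τ'' : Z → Z → R} {F : Set Z} (h : Coc τ F) (h' : Coc τ' F)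
    (hm : Mu τ τ' τ'' F) {p q k : ℕ} (hk : p + q = k) {a b : List Z → R} (ha : a ∈ Zc τ p F ∅)
    (hb : b ∈ Zc τ' q F ∅) : cup τ' p a b ∈ Zc τ'' k F ∅ := by
  refine ⟨by simp, ?_⟩
  have h1 := leibniz_Null h h' hm (p := p) (k := k + 1) (by omega) a b
  exact (Submodule.sub_mem_iff_left _ (add_mem (cup_Null_left τ' (by omega) ha.2 b)
    (Submodule.smul_mem _ _ (cup_Null_right τ' (by omega) a hb.2)))).1 h1

lemma cup_Bc_abs_left {τ τ' τ'' : Z → Z → R} {F : Set Z} (h : Coc τ F) (h' : Coc τ' F)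
    (hm : Mu τ τ' τ'' F) {p q k : ℕ} (hk : p + q = k) {a b : List Z → R} (ha : a ∈ Bc τ p F ∅)
    (hb : b ∈ Zc τ' q F ∅) : cup τ' p a b ∈ Bc τ'' k F ∅ := by
  rcases p with _ | p
  · rw [Bc_zero] at ha
    exact Null_le_Bc _ _ _ _ (cup_Null_left τ' (by omega) ha b)
  · obtain ⟨c, -, hc⟩ := mem_Bc.1 ha
    refine mem_Bc.2 ⟨cup τ' p c b, by simp, ?_⟩
    rw [cup_alg_left τ]
    exact sub_mem (sub_mem (cup_Null_left τ' (by omega) hc b) (leibniz_Null h h' hm (by omega) c b))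
      (Submodule.smul_mem _ _ (cup_Null_right τ' (by omega) c hb.2))

lemma cup_Bc_abs_right {τ τ' τ'' : Z → Z → R} {F : Set Z} (h : Coc τ F) (h' : Coc τ' F)
    (hm : Mu τ τ' τ'' F) {p q k : ℕ} (hk : p + q = k) {a b : List Z → R} (ha : a ∈ Zc τ p F ∅)
    (hb : b ∈ Bc τ' q F ∅) : cup τ' p a b ∈ Bc τ'' k F ∅ := by
  rcases q with _ | q
  · rw [Bc_zero] at hb
    exact Null_le_Bc _ _ _ _ (cup_Null_right τ' hk a hb)
  · obtain ⟨c, -, hc⟩ := mem_Bc.1 hb
    refine mem_Bc.2 ⟨(-1 : R) ^ p • cup τ' p a c, by simp, ?_⟩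
    rw [cup_alg_right τ]
    exact sub_mem (sub_mem (cup_Null_right τ' hk a hc)
      (Submodule.smul_mem _ _ (leibniz_Null h h' hm (by omega) a c)))
      (Submodule.smul_mem _ _ (cup_Null_left τ' (by omega) ha.2 c))

/-- the data under which `H(A, A') × H(K, K') → H(univ, O)` is defined -/
structure POK (τ τ' : Z → Z → R) (O A A' K K' : Set Z) : Prop where
  out : O ⊆ A'
  c1 : A ∪ K' = univ
  c2 : A' ∪ K = univ
  coc : Coc τ K
  coc' : Coc τ' K
  mu : Mu τ τ' 1 K

variable {τ τ' : Z → Z → R} {O A A' K K' : Set Z}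

lemma cup_univ {k : ℕ} {F G : Set Z} (h : F ∪ G = univ) {c : List Z → R} (h1 : c ∈ Null R k F)
    (h2 : c ∈ Null R k G) : c ∈ Null R k (univ : Set Z) := by
  rw [← h, Null_union]
  exact ⟨h1, h2⟩

lemma cup_leib (ok : POK τ τ' O A A' K K') {i k : ℕ} (hk : i + 1 ≤ k) {a : List Z → R}
    (ha : a ∈ Null R i A') (b : List Z → R) :
    D 1 (cup τ' i a b) - (cup τ' (i + 1) (D τ a) b + (-1 : R) ^ i • cup τ' i a (D τ' b))
      ∈ Null R k (univ : Set Z) :=
  cup_univ ok.c2 (sub_mem (D_Null' _ (cup_Null_left τ' (by omega) ha b))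
    (add_mem (cup_Null_left τ' hk (D_Null τ ha) b)
      (Submodule.smul_mem _ _ (cup_Null_left τ' (by omega) ha _))))
    (leibniz_Null ok.coc ok.coc' ok.mu hk a b)

lemma cup_Zc (ok : POK τ τ' O A A' K K') {i j k : ℕ} (hk : i + j = k) {a b : List Z → R}
    (ha : a ∈ Zc τ i A A') (hb : b ∈ Zc τ' j K K') : cup τ' i a b ∈ Zc 1 k univ O := by
  refine ⟨Null_mono k ok.out (cup_Null_left τ' (by omega) ha.1 b), ?_⟩
  have h1 := cup_leib ok (k := k + 1) (by omega) ha.1 b
  exact (Submodule.sub_mem_iff_left _ (add_mem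
    (cup_univ ok.c1 (cup_Null_left τ' (by omega) ha.2 b) (cup_Null_right τ' (by omega) _ hb.1))
    (Submodule.smul_mem _ _ (cup_univ ok.c2 (cup_Null_left τ' (by omega) ha.1 _)
      (cup_Null_right τ' (by omega) a hb.2))))).1 h1

lemma cup_Bc_left (ok : POK τ τ' O A A' K K') {i j k : ℕ} (hk : i + j = k) {a b : List Z → R}
    (ha : a ∈ Zc τ i A A') (ha' : a ∈ Bc τ i A A') (hb : b ∈ Zc τ' j K K') :
    cup τ' i a b ∈ Bc 1 k univ O := by
  rcases i with _ | i
  · rw [Bc_zero] at ha'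
    exact Null_le_Bc _ _ _ _ (cup_univ ok.c1 (cup_Null_left τ' (by omega) ha' b)
      (cup_Null_right τ' hk a hb.1))
  · obtain ⟨c, hc', hc⟩ := mem_Bc.1 ha'
    have hc0 : c ∈ Null R i A' := hc'
    refine mem_Bc.2 ⟨cup τ' i c b, Null_mono _ ok.out (cup_Null_left τ' (by omega) hc0 b), ?_⟩
    rw [cup_alg_left τ]
    exact sub_mem (sub_mem (cup_univ ok.c1 (cup_Null_left τ' (by omega) hc b)
      (cup_Null_right τ' hk _ hb.1)) (cup_leib ok (by omega) hc0 b))
      (Submodule.smul_mem _ _ (cup_univ ok.c2 (cup_Null_left τ' (by omega) hc0 _)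
        (cup_Null_right τ' (by omega) c hb.2)))

lemma cup_Bc_right (ok : POK τ τ' O A A' K K') {i j k : ℕ} (hk : i + j = k) {a b : List Z → R}
    (ha : a ∈ Zc τ i A A') (hb : b ∈ Zc τ' j K K') (hb' : b ∈ Bc τ' j K K') :
    cup τ' i a b ∈ Bc 1 k univ O := by
  rcases j with _ | j
  · rw [Bc_zero] at hb'
    exact Null_le_Bc _ _ _ _ (cup_univ ok.c2 (cup_Null_left τ' (by omega) ha.1 b)
      (cup_Null_right τ' hk a hb'))
  · obtain ⟨c, hc', hc⟩ := mem_Bc.1 hb'
    have hc0 : c ∈ Null R j K' := hc'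
    refine mem_Bc.2 ⟨(-1 : R) ^ i • cup τ' i a c, Submodule.smul_mem _ _
      (Null_mono _ ok.out (cup_Null_left τ' (by omega) ha.1 c)), ?_⟩
    rw [cup_alg_right τ]
    exact sub_mem (sub_mem (cup_univ ok.c2 (cup_Null_left τ' (by omega) ha.1 _)
      (cup_Null_right τ' hk a hc)) (Submodule.smul_mem _ _ (cup_leib ok (by omega) ha.1 c)))
      (Submodule.smul_mem _ _ (cup_univ ok.c1 (cup_Null_left τ' (by omega) ha.2 c)
        (cup_Null_right τ' (by omega) _ hc0)))

/-- the connecting maps are adjoint up to sign -/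
lemma cup_del (ok : POK τ τ' O A A' K K') {i j k : ℕ} (hk : i + j + 1 = k) {a b : List Z → R}
    (ha : a ∈ Null R i A') :
    cup τ' (i + 1) (D τ a) b + (-1 : R) ^ i • cup τ' i a (D τ' b) ∈ Bc 1 k univ O := by
  refine mem_Bc.2 ⟨cup τ' i a b, Null_mono _ ok.out (cup_Null_left τ' (by omega) ha b), ?_⟩
  rw [← neg_sub]
  exact neg_mem (cup_leib ok (by omega) ha b)

/-- commutativity in degrees two and two -/
lemma cup_comm (ok : POK τ τ' O univ A' K ∅) {a b : List Z → R} (ha : a ∈ Zc τ 2 univ A')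
    (hb : b ∈ Zc τ' 2 univ A') : cup τ' 2 a b - cup τ 2 b a ∈ Bc 1 4 univ O := by
  obtain ⟨c, hc⟩ : ∃ c : List Z → R, ∀ x0 x1 x2 x3, c [x0, x1, x2, x3] =
      a [x0, x1, x3] * (τ' x0 x1 * b [x1, x2, x3]) - a [x0, x2, x3] * b [x0, x1, x2] :=
    ⟨fun l => match l with
      | [x0, x1, x2, x3] =>
        a [x0, x1, x3] * (τ' x0 x1 * b [x1, x2, x3]) - a [x0, x2, x3] * b [x0, x1, x2]
      | _ => 0, fun _ _ _ _ => rfl⟩
  have hcn : c ∈ Null R 3 A' := fun x hx => by
    obtain ⟨U, hU, h⟩ := ha.1 x hx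
    refine ⟨U, hU, fun l hl hl' => ?_⟩
    match l, hl, hl' with
    | [x0, x1, x2, x3], _, hl' =>
      simp only [List.mem_cons, List.not_mem_nil, or_false, forall_eq_or_imp, forall_eq] at hl'
      rw [hc, h [x0, x1, x3] rfl (by simp [hl']), h [x0, x2, x3] rfl (by simp [hl'])]
      ring
  refine mem_Bc.2 ⟨c, Null_mono _ ok.out hcn, cup_univ ok.c2 (sub_mem (sub_mem
    (cup_Null_left τ' (by omega) ha.1 b) (cup_Null_left τ (by omega) hb.1 a)) (D_Null 1 hcn))
    fun x hx => ?_⟩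
  obtain ⟨U1, hU1, g1⟩ := ha.2 x trivial
  obtain ⟨U2, hU2, g2⟩ := hb.2 x trivial
  obtain ⟨U3, hU3, g3⟩ := ok.coc' x hx
  obtain ⟨U4, hU4, g4⟩ := ok.mu x hx
  refine ⟨U1 ∩ U2 ∩ (U3 ∩ U4), inter_mem (inter_mem hU1 hU2) (inter_mem hU3 hU4),
    fun l hl hl' => ?_⟩
  match l, hl, hl' with
  | [x0, x1, x2, x3, x4], _, hl' =>
    simp only [List.mem_cons, List.not_mem_nil, or_false, forall_eq_or_imp, forall_eq,
      mem_inter_iff] at hl'
    have ea : ∀ u v w, u ∈ U1 → v ∈ U1 → w ∈ U1 → τ x0 u * a [u, v, w] - a [x0, v, w] +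
        a [x0, u, w] - a [x0, u, v] = 0 := fun u v w hu hv hw => by
      rw [← D_four]; exact g1 _ rfl (by simp [hl', hu, hv, hw])
    have eb : ∀ u v w, u ∈ U2 → v ∈ U2 → w ∈ U2 → τ' x0 u * b [u, v, w] - b [x0, v, w] +
        b [x0, u, w] - b [x0, u, v] = 0 := fun u v w hu hv hw => by
      rw [← D_four]; exact g2 _ rfl (by simp [hl', hu, hv, hw])
    obtain ⟨⟨⟨-, -⟩, p0, q0⟩, ⟨⟨m1, n1⟩, p1, q1⟩, ⟨⟨m2, n2⟩, p2, -⟩, ⟨⟨m3, n3⟩, -⟩, ⟨m4, n4⟩, -⟩ := hl'
    rw [Pi.sub_apply, Pi.sub_apply, cup_D_five, hc, hc, hc, hc, hc]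
    exact cup_ring (g4 x0 q0 x1 q1) ((g3 x0 p0).2 x1 p1 x2 p2) (ea x1 x3 x4 m1 m3 m4)
      (ea x1 x2 x4 m1 m2 m4) (ea x2 x3 x4 m2 m3 m4) (eb x1 x2 x3 n1 n2 n3) (eb x1 x2 x4 n1 n2 n4)
      (eb x1 x3 x4 n1 n3 n4) (eb x2 x3 x4 n2 n3 n4)

end Pool.Agent.P.MP_3d25f3_gt
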