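import Pool.Agent.P.MP_3d25f3_gt.Prism

set_option autoImplicit false

open Set Filter Topology

namespace Pool.Agent.P.MP_3d25f3_gt

variable {Z W : Type} [TopologicalSpace W] [TopologicalSpace Z] {R : Type} [CommRing R]

/-- locally constant along a preconnected set -/
lemma const_of_loc {A : Type} {f : Z → A} {K : Set Z} (hK : IsPreconnected K)
    (h : ∀ x ∈ K, ∀ᶠ y in 𝓝[K] x, f y = f x) {x y : Z} (hx : x ∈ K) (hy : y ∈ K) : f x = f y := by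
  exact hK.induction₂' (fun a b => f a = f b) (fun x hx => (h x hx).mono fun _ e => ⟨e.symm, e⟩)
    (fun _ _ _ _ _ _ => Eq.trans) hx hy

lemma hi_unif {G : Set W} (hG : IsCompact G) {s : ℝ} (Q : Set W → Set ℝ → Prop)
    (hQ : ∀ U J J', J' ⊆ J → Q U J → Q U J') (h : ∀ x ∈ G, ∃ U ∈ 𝓝 x, ∃ J ∈ 𝓝 s, Q U J) :
    ∃ J ∈ 𝓝 s, ∀ x ∈ G, ∃ U ∈ 𝓝 x, Q U J := by
  refine hG.induction_on (p := fun K => ∃ J ∈ 𝓝 s, ∀ x ∈ K, ∃ U ∈ 𝓝 x, Q U J)
    ⟨univ, univ_mem, fun _ hx => hx.elim⟩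
    (fun _ _ hst ⟨J, hJ, h1⟩ => ⟨J, hJ, fun x hx => h1 x (hst hx)⟩) ?_ fun x hx => ?_
  · rintro K K' ⟨J, hJ, h1⟩ ⟨J', hJ', h2⟩
    refine ⟨J ∩ J', inter_mem hJ hJ', fun x hx => ?_⟩
    rcases hx with hx | hx
    · exact (h1 x hx).imp fun U hU => ⟨hU.1, hQ _ _ _ inter_subset_left hU.2⟩
    · exact (h2 x hx).imp fun U hU => ⟨hU.1, hQ _ _ _ inter_subset_right hU.2⟩
  · obtain ⟨U, hU, J, hJ, h1⟩ := h x hx
    exact ⟨interior U, mem_nhdsWithin_of_mem_nhds (interior_mem_nhds.2 hU), J, hJ,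
      fun y hy => ⟨U, mem_interior_iff_mem_nhds.1 hy, h1⟩⟩

lemma hi_tube {h : W → ℝ → Z} {G : Set W} (hG : IsCompact G) (hh : Continuous (Function.uncurry h))
    {s : ℝ} (P : Set Z → Prop) (hP : ∀ x ∈ G, ∃ V ∈ 𝓝 (h x s), P V) :
    ∃ J ∈ 𝓝 s, ∀ x ∈ G, ∃ U ∈ 𝓝 x, ∃ V, (∀ r ∈ J, MapsTo (fun a => h a r) U V) ∧ P V := by
  refine hi_unif hG (fun U J => ∃ V, (∀ r ∈ J, MapsTo (fun a => h a r) U V) ∧ P V)
    (fun _ _ _ hJ ⟨V, h1, h2⟩ => ⟨V, fun r hr => h1 r (hJ hr), h2⟩) fun x hx => ?_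
  obtain ⟨V, hV, h1⟩ := hP x hx
  obtain ⟨U, hU, J, hJ, h2⟩ := mem_nhds_prod_iff.1 (hh.continuousAt (x := (x, s)) hV)
  exact ⟨U, hU, J, hJ, V, fun r hr a ha => h2 (mk_mem_prod ha hr), h1⟩

lemma hi_prism {τ : Z → Z → R} {h : W → ℝ → Z} {k : ℕ} {F F' : Set Z} {G G' : Set W}
    (hG : IsCompact G) (hG' : IsCompact G') (hh : Continuous (Function.uncurry h))
    (hτ : Coc τ F) {s : ℝ} (hm : ∀ x ∈ G, h x s ∈ F) (hm' : ∀ x ∈ G', h x s ∈ F')
    {c : List Z → R} (hc : c ∈ Zc τ k F F') :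
    ∃ J ∈ 𝓝 s, ∀ r ∈ J, ∀ r' ∈ J,
      (∀ (τ₀ : W → W → R) (ν : W → R), Itw τ₀ τ (fun x => h x r) ν G →
        pull (fun x => h x r') (fun a => ν a * τ (h a r) (h a r')) c - pull (fun x => h x r) ν c
          ∈ Bc τ₀ k G G') ∧
      Itw (fun a b => τ (h a r) (h b r)) (fun a b => τ (h a r') (h b r')) id
        (fun a => τ (h a r) (h a r')) G := by
  obtain ⟨J, hJ, h1⟩ := hi_tube hG hh (fun V => CocOn τ V ∧
    ∀ l : List Z, l.length = k + 2 → (∀ y ∈ l, y ∈ V) → D τ c l = 0) (s := s) fun x hx => by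
      obtain ⟨U, hU, a⟩ := hτ _ (hm x hx)
      obtain ⟨V, hV, b⟩ := hc.2 _ (hm x hx)
      exact ⟨U ∩ V, inter_mem hU hV, fun y hy => ⟨(a y hy.1).1,
        fun z hz w hw => (a y hy.1).2 z hz.1 w hw.1⟩, fun l hl e => b l hl fun y hy => (e y hy).2⟩
  obtain ⟨J', hJ', h2⟩ := hi_tube hG' hh (fun V =>
    ∀ l : List Z, l.length = k + 1 → (∀ y ∈ l, y ∈ V) → c l = 0) (s := s)
    fun x hx => hc.1 _ (hm' x hx)
  refine ⟨J ∩ J', inter_mem hJ hJ', fun r hr r' hr' => ⟨fun τ₀ ν hν => prism c hν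
    (fun x hx => ?_) fun x hx => ?_, fun x hx => ?_⟩⟩
  · obtain ⟨U, hU, V, a, b⟩ := h1 x hx
    exact ⟨U, hU, V, a r hr.1, a r' hr'.1, b⟩
  · obtain ⟨U, hU, V, a, b⟩ := h2 x hx
    exact ⟨U, hU, V, a r hr.2, a r' hr'.2, b⟩
  · obtain ⟨U, hU, V, a, b, -⟩ := h1 x hx
    exact ⟨U, hU, fun y hy z hz => ((b _ (a r hr.1 hy)).2 _ (a r hr.1 hz) _ (a r' hr'.1 hz)).trans
      ((b _ (a r hr.1 hy)).2 _ (a r' hr'.1 hy) _ (a r' hr'.1 hz)).symm⟩

/-- homotopy invariance, one small step -/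
lemma hi_step {τ : Z → Z → R} {h : W → ℝ → Z} {k : ℕ} {F F' : Set Z} {G G' : Set W}
    (hG : IsCompact G) (hG' : IsCompact G') (hh : Continuous (Function.uncurry h))
    (hτ : Coc τ F) {s : ℝ} (hm : ∀ x ∈ G, h x s ∈ F) (hm' : ∀ x ∈ G', h x s ∈ F')
    {c : List Z → R} (hc : c ∈ Zc τ k F F') :
    ∃ J ∈ 𝓝 s, ∀ r ∈ J, ∀ r' ∈ J,
      pull (fun x => h x r') (fun a => τ (h a r) (h a r')) c - pull (fun x => h x r) 1 c
        ∈ Bc (fun a b => τ (h a r) (h b r)) k G G' ∧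
      Itw (fun a b => τ (h a r) (h b r)) (fun a b => τ (h a r') (h b r')) id
        (fun a => τ (h a r) (h a r')) G := by
  obtain ⟨J, hJ, h1⟩ := hi_prism hG hG' hh hτ hm hm' hc
  refine ⟨J, hJ, fun r hr r' hr' => ⟨?_, (h1 r hr r' hr').2⟩⟩
  simpa only [Pi.one_apply, one_mul] using (h1 r hr r' hr').1 _ _ (Itw_comp τ _ G)

/-- homotopy invariance with a family of gauges -/
lemma hi_gauge {τ₀ : W → W → R} {τ : Z → Z → R} {h : W → ℝ → Z} {ν : W → ℝ → R} {k : ℕ}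
    {F F' : Set Z} {G G' : Set W} (hG : IsCompact G) (hG' : IsCompact G') (hGG : G' ⊆ G)
    (hh : Continuous (Function.uncurry h)) (hτ : Coc τ F)
    (hm : ∀ x ∈ G, ∀ s ∈ Icc (0 : ℝ) 1, h x s ∈ F) (hm' : ∀ x ∈ G', ∀ s ∈ Icc (0 : ℝ) 1, h x s ∈ F')
    (hI : ∀ s ∈ Icc (0 : ℝ) 1, Itw τ₀ τ (fun x => h x s) (fun x => ν x s) G)
    (hν : ∀ x ∈ G, ∀ s ∈ Icc (0 : ℝ) 1, ∃ U ∈ 𝓝 x, ∃ J ∈ 𝓝 s, ∀ a ∈ U, ∀ r ∈ J, ∀ r' ∈ J,
      ν a r * τ (h a r) (h a r') = ν a r')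
    {c : List Z → R} (hc : c ∈ Zc τ k F F') :
    pull (fun x => h x 1) (fun x => ν x 1) c - pull (fun x => h x 0) (fun x => ν x 0) c
      ∈ Bc τ₀ k G G' := by
  refine (Submodule.Quotient.eq _).1 (const_of_loc (f := fun s => (Submodule.Quotient.mk
    (pull (fun x => h x s) (fun x => ν x s) c) : _ ⧸ Bc τ₀ k G G')) isPreconnected_Icc
    (fun s hs => ?_) (right_mem_Icc.2 zero_le_one) (left_mem_Icc.2 zero_le_one))
  obtain ⟨J, hJ, h1⟩ := hi_prism hG hG' hh hτ (fun x hx => hm x hx s hs)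
    (fun x hx => hm' x hx s hs) hc
  obtain ⟨J', hJ', h2⟩ := hi_unif hG (fun U J => ∀ a ∈ U, ∀ r ∈ J, ∀ r' ∈ J,
    ν a r * τ (h a r) (h a r') = ν a r') (fun _ _ _ e h a ha r hr r' hr' =>
      h a ha r (e hr) r' (e hr')) fun x hx => hν x hx s hs
  filter_upwards [mem_nhdsWithin_of_mem_nhds hJ, mem_nhdsWithin_of_mem_nhds hJ'] with r hr hr'
  have h3 := (h1 s (mem_of_mem_nhds hJ) r hr).1 _ _ (hI s hs)
  have h4 : pull (fun x => h x r) (fun x => ν x r) c -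
      pull (fun x => h x r) (fun a => ν a s * τ (h a s) (h a r)) c ∈ Null R k G := fun x hx => by
    obtain ⟨U, hU, e⟩ := h2 x hx
    refine ⟨U, hU, fun l hl hl' => ?_⟩
    cases l with
    | nil => simp
    | cons a l => simp [e a (hl' a (by simp)) s (mem_of_mem_nhds hJ') r hr']
  exact (Submodule.Quotient.eq _).2
    (sub_add_sub_cancel (G := List W → R) _ _ _ ▸ add_mem (Null_le_Bc _ _ _ _ h4) h3)

/-- homotopy invariance of vanishing -/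
lemma hi_van {τ : Z → Z → R} {h : W → ℝ → Z} {k : ℕ} {F F' : Set Z} {G G' : Set W}
    (hG : IsCompact G) (hG' : IsCompact G') (hGG : G' ⊆ G) (hh : Continuous (Function.uncurry h))
    (hτ : Coc τ F) (hm : ∀ x ∈ G, ∀ s ∈ Icc (0 : ℝ) 1, h x s ∈ F)
    (hm' : ∀ x ∈ G', ∀ s ∈ Icc (0 : ℝ) 1, h x s ∈ F') {c : List Z → R} (hc : c ∈ Zc τ k F F')
    (h1 : pull (fun x => h x 1) 1 c ∈ Bc (fun a b => τ (h a 1) (h b 1)) k G G') :
    pull (fun x => h x 0) 1 c ∈ Bc (fun a b => τ (h a 0) (h b 0)) k G G' := by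
  refine (const_of_loc (f := fun s => pull (fun x => h x s) 1 c ∈
    Bc (fun a b => τ (h a s) (h b s)) k G G') isPreconnected_Icc
    (fun s hs => ?_) (right_mem_Icc.2 zero_le_one) (left_mem_Icc.2 zero_le_one)).mp h1
  obtain ⟨J, hJ, h2⟩ := hi_step hG hG' hh hτ (fun x hx => hm x hx s hs)
    (fun x hx => hm' x hx s hs) hc
  have h3 : ∀ r ∈ J, ∀ r' ∈ J, pull (fun x => h x r') 1 c ∈
      Bc (fun a b => τ (h a r') (h b r')) k G G' → pull (fun x => h x r) 1 c ∈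
      Bc (fun a b => τ (h a r) (h b r)) k G G' := fun r hr r' hr' h4 => by
    have h5 := pull_Bc (h2 r hr r' hr').2 (fun _ _ => continuousAt_id) hGG (mapsTo_id _)
      (mapsTo_id _) h4
    rw [pull_pull] at h5
    simp only [Pi.one_apply, mul_one] at h5
    exact (Submodule.sub_mem_iff_right _ h5).1 (h2 r hr r' hr').1
  filter_upwards [mem_nhdsWithin_of_mem_nhds hJ] with r hr
  exact propext ⟨h3 _ (mem_of_mem_nhds hJ) _ hr, h3 _ hr _ (mem_of_mem_nhds hJ)⟩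

/-- the same for a homotopy that starts at the identity -/
lemma hi_van_id {τ : Z → Z → R} {h : Z → ℝ → Z} {k : ℕ} {F F' G G' : Set Z}
    (hG : IsCompact G) (hG' : IsCompact G') (hGG : G' ⊆ G) (hh : Continuous (Function.uncurry h))
    (h0 : ∀ x, h x 0 = x) (hτ : Coc τ F) (hm : ∀ x ∈ G, ∀ s ∈ Icc (0 : ℝ) 1, h x s ∈ F)
    (hm' : ∀ x ∈ G', ∀ s ∈ Icc (0 : ℝ) 1, h x s ∈ F') {c : List Z → R} (hc : c ∈ Zc τ k F F')
    (h1 : pull (fun x => h x 1) 1 c ∈ Bc (fun a b => τ (h a 1) (h b 1)) k G G') :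
    c ∈ Bc τ k G G' := by
  have h2 := hi_van hG hG' hGG hh hτ hm hm' hc h1
  simp only [h0] at h2
  exact (Submodule.sub_mem_iff_right _ h2).1 (Null_le_Bc _ _ _ _
    (pull_id_Null (ν := 1) k (fun _ _ => Eventually.of_forall fun _ => rfl) c))

/-- a pair that deforms into its second member -/
lemma van_deform {τ : Z → Z → R} {h : Z → ℝ → Z} (k : ℕ) {G G' : Set Z}
    (hG : IsCompact G) (hG' : IsCompact G') (hGG : G' ⊆ G) (hh : Continuous (Function.uncurry h))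
    (h0 : ∀ x, h x 0 = x) (hτ : Coc τ G) (hm : ∀ x ∈ G, ∀ s ∈ Icc (0 : ℝ) 1, h x s ∈ G)
    (hm' : ∀ x ∈ G', ∀ s ∈ Icc (0 : ℝ) 1, h x s ∈ G') (h1 : ∀ x ∈ G, h x 1 ∈ G') :
    Van τ k G G' := by
  exact fun c hc => hi_van_id hG hG' hGG hh h0 hτ hm hm' hc (Null_le_Bc _ _ _ _
    (pull_Null 1 (fun _ _ => (hh.uncurry_right 1).continuousAt) h1 hc.1))

omit [TopologicalSpace Z] in
lemma hi_d0 (a : R) (p : Z) (l : List Z) :
    d0 (fun _ => a) l = d0 (fun _ => a) (List.replicate l.length p) := by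
  induction l with
  | nil => rfl
  | cons x l ih => exact congrArg (a - ·) ih

/-- a compact set that contracts to a point -/
lemma van_contr {τ : Z → Z → R} {h : Z → ℝ → Z} (k : ℕ) {G : Set Z} (hG : IsCompact G)
    (hh : Continuous (Function.uncurry h)) (h0 : ∀ x, h x 0 = x) (hτ : Coc τ G)
    (hm : ∀ x ∈ G, ∀ s ∈ Icc (0 : ℝ) 1, h x s ∈ G) {p : Z} (h1 : ∀ x, h x 1 = p) :
    Van τ (k + 1) G ∅ := by
  intro c hc
  refine hi_van_id hG isCompact_empty (empty_subset _) hh h0 hτ hm (fun _ hx => hx.elim) hc ?_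
  simp only [h1]
  refine mem_Bc.2 ⟨fun _ => c (List.replicate (k + 2) p), by simp, fun x hx => ?_⟩
  have hp : p ∈ G := h1 x ▸ hm x hx 1 (right_mem_Icc.2 zero_le_one)
  obtain ⟨U, hU, h2⟩ := hτ p hp
  obtain ⟨V, hV, h3⟩ := hc.2 p hp
  have h4 := (h2 p (mem_of_mem_nhds hU)).1
  have h5 := h3 (List.replicate (k + 3) p) (by simp) fun y hy =>
    List.eq_of_mem_replicate hy ▸ mem_of_mem_nhds hV
  rw [D_congr τ (b := fun _ => c (List.replicate (k + 2) p)) (U := {p}) (k := k + 2)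
    (fun l hl e => congrArg c (List.eq_replicate_iff.2 ⟨hl, e⟩)) (by simp)
    fun y hy => List.eq_of_mem_replicate hy] at h5
  have h6 : τ p p * c (List.replicate (k + 2) p) - (c (List.replicate (k + 2) p) -
    d0 (fun _ => c (List.replicate (k + 2) p)) (List.replicate (k + 1) p)) = 0 := h5
  refine ⟨univ, univ_mem, fun l hl _ => ?_⟩
  match l, hl with
  | a :: b :: l, hl =>
    have h7 : (b :: l).length = k + 1 := Nat.succ_injective hl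
    rw [Pi.sub_apply, pull_cons, D_cons, hi_d0 _ p, List.map_const', h7, Pi.one_apply,
      ← List.replicate_succ]
    rw [h4] at h6 ⊢
    linear_combination h6

lemma van_convex {E : Type} [NormedAddCommGroup E] [NormedSpace ℝ E] {τ : E → E → R} (k : ℕ)
    {K : Set E} (hK : IsCompact K) (hc : Convex ℝ K) (hτ : Coc τ K) : Van τ (k + 1) K ∅ := by
  rcases K.eq_empty_or_nonempty with rfl | ⟨p, hp⟩
  · exact fun c _ => Null_le_Bc _ _ _ _ (by simp)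
  · exact van_contr (h := fun x s => x + s • (p - x)) (p := p) k hK (by fun_prop) (by simp) hτ
      (fun x hx s hs => hc.add_smul_sub_mem hx hp hs) (by simp)

lemma one_mem_Zc (F : Set Z) : (fun _ => (1 : R)) ∈ Zc (1 : Z → Z → R) 0 F ∅ := by
  refine ⟨by simp, fun _ _ => ⟨univ, univ_mem, fun l hl _ => ?_⟩⟩
  match l, hl with
  | [a, b], _ => simp [D_two]

lemma h0_const {K : Set Z} (hK : IsPreconnected K) {c : List Z → R}
    (hc : c ∈ Zc (1 : Z → Z → R) 0 K ∅) {x : Z} (hx : x ∈ K) :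
    c - (fun _ => c [x]) ∈ Null R 0 K := by
  have h1 : ∀ y ∈ K, ∀ᶠ z in 𝓝 y, c [z] = c [y] := fun y hy => by
    obtain ⟨U, hU, h⟩ := hc.2 y hy
    filter_upwards [hU] with z hz
    have h2 := h [y, z] rfl (by simp [hz, mem_of_mem_nhds hU])
    rwa [D_two, Pi.one_apply, Pi.one_apply, one_mul, sub_eq_zero] at h2
  refine fun y hy => ⟨_, h1 y hy, fun l hl h => ?_⟩
  match l, hl with
  | [a], _ =>
    exact sub_eq_zero.2 (Eq.trans (h a (by simp)) (const_of_loc (f := fun z => c [z]) hK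
      (fun z hz => (h1 z hz).filter_mono nhdsWithin_le_nhds) hy hx))

lemma triv_one (F : Set Z) : Triv (1 : Z → Z → R) F :=
  ⟨1, 1, fun _ _ => ⟨univ, univ_mem, fun _ _ => ⟨by simp, fun _ _ => by simp⟩⟩⟩

lemma triv_tw {E : Type} [NormedAddCommGroup E] [NormedSpace ℝ E] {n : E → E → ℤ} {K : Set E}
    (hK : IsCompact K) (hc : Convex ℝ K) (hn : CocZ n K) (t : Rˣ) : Triv (tw t n) K := by
  obtain ⟨b, -, h⟩ := mem_Bc.1 (van_convex 0 hK hc (Coc_one K) (hn.co1 (R := ℤ)))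
  refine ⟨fun a => (t ^ (-b [a]) : Rˣ), fun a => (t ^ b [a] : Rˣ), fun x hx => ?_⟩
  obtain ⟨U, hU, h1⟩ := h x hx
  refine ⟨U, hU, fun a ha => ⟨by simp, fun a' ha' => ?_⟩⟩
  have h2 := h1 [a, a'] rfl (by simp [ha, ha'])
  rw [Pi.sub_apply, D_two, Pi.one_apply, Pi.one_apply, one_mul, sub_eq_zero] at h2
  have h3 : n a a' + -b [a'] = -b [a] := by
    have h4 : n a a' = b [a'] - b [a] := h2
    omega
  show ((t ^ n a a' : Rˣ) : R) * (t ^ (-b [a']) : Rˣ) = (t ^ (-b [a]) : Rˣ)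
  rw [← Units.val_mul, ← zpow_add, h3]

end Pool.Agent.P.MP_3d25f3_gt
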