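import Pool.Agent.P.MP_3d25f3_gt.Mod
import Pool.Agent.P.MP_3d25f3_gt.Hi

set_option autoImplicit false

open Set Filter Topology

namespace Pool.Agent.P.MP_3d25f3_gt

variable {g : ℕ} {S : List (ℕ × ℤ)} {R : Type} [CommRing R] {n : Seifert g S → Seifert g S → ℤ}
  {A : Cov → ℤ} {N : ℤ} {ne : ℕ → ℤ} {t : Rˣ} {v : List (Seifert g S) → R} {E : Cov → R}

lemma cov_prim {c : List Cov → R} (hc : c ∈ Zc (1 : Cov → Cov → R) 1 univ ∅) :
    ∃ E : Cov → R, ∀ y, ∃ U ∈ 𝓝 y, ∀ a ∈ U, ∀ b ∈ U, c [a, b] = E b - E a := by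
  let r : ℝ → ℝ := fun s => max 0 (min 1 (1 - s))
  have hr0 : ∀ s, 0 ≤ r s := fun s => le_max_left _ _
  have hr1 : ∀ s, r s ≤ 1 := fun s => max_le zero_le_one (min_le_left _ _)
  have hrc : Continuous r := by fun_prop
  have hmem : ∀ (y : Disc) (s : ℝ), ((r s : ℝ) : ℂ) * (y : ℂ) ∈ Metric.closedBall (0 : ℂ) 1 := by
    intro y s
    have hy := y.2
    simp only [Metric.mem_closedBall, dist_zero_right] at hy ⊢
    rw [norm_mul, Complex.norm_real, Real.norm_eq_abs, abs_of_nonneg (hr0 s)]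
    exact mul_le_one₀ (hr1 s) (norm_nonneg _) hy
  let h : Cov → ℝ → Cov := fun y s => (⟨((r s : ℝ) : ℂ) * (y.1 : ℂ), hmem y.1 s⟩, r s * y.2)
  have hh : Continuous (Function.uncurry h) := by
    refine Continuous.prodMk (Continuous.subtype_mk ?_ _) ?_
    · exact (Complex.continuous_ofReal.comp (hrc.comp continuous_snd)).mul
        (continuous_subtype_val.comp (continuous_fst.comp continuous_fst))
    · exact (hrc.comp continuous_snd).mul (continuous_snd.comp continuous_fst)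
  have h0 : ∀ x, h x 0 = x := by
    intro x
    have : r 0 = 1 := by simp [r]
    ext <;> simp [h, this]
  let p : Cov := (⟨0, by simp⟩, 0)
  have h1 : ∀ x, h x 1 = p := by
    intro x
    have : r 1 = 0 := by simp [r]
    ext <;> simp [h, p, this]
  let K : ℕ → Set Cov := fun m => univ ×ˢ Icc (-(m : ℝ)) m
  have hKm : ∀ m (y : Cov), y ∈ K m ↔ |y.2| ≤ m := fun m y => by simp [K, abs_le]
  have hex : ∀ m, ∃ b : List Cov → R, c - D 1 b ∈ Null R 1 (K m) := by
    intro m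
    have hv : Van (1 : Cov → Cov → R) (0 + 1) (K m) ∅ := by
      refine van_contr 0 (isCompact_univ.prod isCompact_Icc) hh h0 (Coc_one _) ?_ h1
      intro x hx s _
      rw [hKm] at hx ⊢
      show |r s * x.2| ≤ m
      rw [abs_mul, abs_of_nonneg (hr0 s)]
      exact (mul_le_of_le_one_left (abs_nonneg _) (hr1 s)).trans hx
    obtain ⟨b, -, hb⟩ := mem_Bc.1 (hv (Zc_mono _ _ (subset_univ _) subset_rfl hc))
    exact ⟨b, hb⟩
  choose b hb using hex
  have hloc : ∀ m, ∀ x ∈ K m, ∃ U ∈ 𝓝 x, ∀ a ∈ U, ∀ a' ∈ U, c [a, a'] = b m [a'] - b m [a] := by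
    intro m x hx
    obtain ⟨U, hU, hUb⟩ := hb m x hx
    refine ⟨U, hU, fun a ha a' ha' => ?_⟩
    have := hUb [a, a'] rfl (by simp [ha, ha'])
    rw [Pi.sub_apply, D_two, sub_eq_zero] at this
    simpa using this
  have hagree : ∀ m m', m ≤ m' → ∀ x ∈ K m, b m [x] - b m [p] = b m' [x] - b m' [p] := by
    intro m m' hm x hx
    have hp : p ∈ K m := by rw [hKm]; simp [p]
    have := const_of_loc (f := fun y => b m [y] - b m' [y]) (K := K m)
      (isPreconnected_univ.prod isPreconnected_Icc) (fun y hy => ?_) hx hp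
    · linear_combination this
    · obtain ⟨U, hU, h1⟩ := hloc m y hy
      have hy' : y ∈ K m' := by
        rw [hKm] at hy ⊢
        exact hy.trans (by exact_mod_cast hm)
      obtain ⟨U', hU', h2⟩ := hloc m' y hy'
      filter_upwards [mem_nhdsWithin_of_mem_nhds (inter_mem hU hU')] with a ha
      have e1 := h1 y (mem_of_mem_nhds hU) a ha.1
      have e2 := h2 y (mem_of_mem_nhds hU') a ha.2
      linear_combination e2 - e1
  refine ⟨fun y => b ⌈|y.2|⌉₊ [y] - b ⌈|y.2|⌉₊ [p], fun y => ?_⟩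
  obtain ⟨m, hm⟩ := exists_nat_gt |y.2|
  obtain ⟨U, hU, hUb⟩ := hloc m y ((hKm _ _).2 hm.le)
  have hV : {a : Cov | |a.2| < m} ∈ 𝓝 y :=
    (isOpen_lt (continuous_abs.comp continuous_snd) continuous_const).mem_nhds hm
  refine ⟨_, inter_mem hU hV, fun a ha a' ha' => ?_⟩
  have e1 := hagree _ m (Nat.ceil_le.2 (le_of_lt ha.2)) a ((hKm _ _).2 (Nat.le_ceil _))
  have e2 := hagree _ m (Nat.ceil_le.2 (le_of_lt ha'.2)) a' ((hKm _ _).2 (Nat.le_ceil _))
  have e3 := hUb a ha.1 a' ha'.1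
  linear_combination e3 + e1 - e2

/-- a locally constant function on a preconnected space -/
lemma const_of_nhds {Z B : Type} [TopologicalSpace Z] [PreconnectedSpace Z] {f : Z → B}
    (h : ∀ y, ∃ U ∈ 𝓝 y, ∀ a ∈ U, ∀ b ∈ U, f a = f b) (a b : Z) : f a = f b := by
  refine IsLocallyConstant.apply_eq_of_preconnectedSpace
    ((IsLocallyConstant.iff_eventually_eq f).2 fun y => ?_) a b
  obtain ⟨U, hU, hf⟩ := h y
  filter_upwards [hU] with x hx
  exact hf x hx y (mem_of_mem_nhds hU)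

/-- two lifts of one map change a primitive by a constant -/
lemma per_two {X B : Type} [TopologicalSpace X] [PreconnectedSpace X] {f f' : X → Cov}
    (hf : Continuous f) (hf' : Continuous f') {P : Cov → Cov → Prop}
    (hP : ∀ y, ∃ U ∈ 𝓝 y, ∀ a ∈ U, ∀ b ∈ U, P a b) {u : X → B}
    (hu : ∀ a b, P (f a) (f b) → P (f' a) (f' b) → u a = u b) (a b : X) : u a = u b := by
  refine const_of_nhds (fun x => ?_) a b
  obtain ⟨U, hU, h1⟩ := hP (f x)
  obtain ⟨U', hU', h2⟩ := hP (f' x)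
  exact ⟨_, inter_mem (hf.continuousAt hU) (hf'.continuousAt hU'), fun a ha b hb =>
    hu a b (h1 _ ha.1 _ hb.1) (h2 _ ha.2 _ hb.2)⟩

lemma per_shift : Continuous (fun y : Cov => ((y.1, y.2 + 1) : Cov)) := by fun_prop

lemma per_pp (y : Disc) (z : ℝ) : pp g S (y, z + 1) = pp g S (y, z) := by
  simpa using pp_per (g := g) (S := S) y z 1

lemma per_ga (e : ℕ) : Continuous (fun p : Icc (0 : ℝ) 1 × ℝ => ga g S e p.1 p.2) :=
  (continuous_ga e).comp ((continuous_subtype_val.comp continuous_fst).prodMk continuous_snd)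

lemma per_gb (e : ℕ) : Continuous (fun p : Icc (0 : ℝ) 1 × ℝ => gb g S e p.1 p.2) :=
  (continuous_gb e).comp ((continuous_subtype_val.comp continuous_fst).prodMk continuous_snd)

lemma per_conn : PreconnectedSpace (Icc (0 : ℝ) 1) :=
  isPreconnected_iff_preconnectedSpace.1 isPreconnected_Icc

/-- pull back a local property of pairs -/
lemma per_pull {P : Seifert g S → Seifert g S → Prop}
    (hP : ∀ x, ∃ U ∈ 𝓝 x, ∀ a ∈ U, ∀ b ∈ U, P a b) (y : Cov) :
    ∃ U ∈ 𝓝 y, ∀ a ∈ U, ∀ b ∈ U, P (pp g S a) (pp g S b) := by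
  obtain ⟨U, hU, h⟩ := hP (pp g S y)
  exact ⟨_, continuous_pp.continuousAt hU, fun a ha b hb => h _ ha _ hb⟩

lemma per_and {X : Type} [TopologicalSpace X] {P Q : X → X → Prop}
    (hP : ∀ x, ∃ U ∈ 𝓝 x, ∀ a ∈ U, ∀ b ∈ U, P a b) (hQ : ∀ x, ∃ U ∈ 𝓝 x, ∀ a ∈ U, ∀ b ∈ U, Q a b)
    (x : X) : ∃ U ∈ 𝓝 x, ∀ a ∈ U, ∀ b ∈ U, P a b ∧ Q a b := by
  obtain ⟨U, hU, h1⟩ := hP x
  obtain ⟨U', hU', h2⟩ := hQ x
  exact ⟨_, inter_mem hU hU', fun a ha b hb => ⟨h1 a ha.1 b hb.1, h2 a ha.2 b hb.2⟩⟩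

lemma per_null {X : Type} [TopologicalSpace X] {c : List X → R} (hc : c ∈ Null R 1 univ) (x : X) :
    ∃ U ∈ 𝓝 x, ∀ a ∈ U, ∀ b ∈ U, c [a, b] = 0 := by
  obtain ⟨U, hU, h⟩ := hc x (mem_univ _)
  exact ⟨U, hU, fun a ha b hb => h [a, b] rfl (by simp [ha, hb])⟩

lemma per_zpow (t : Rˣ) (a b : ℤ) :
    ((t ^ (a + b) : Rˣ) : R) = ((t ^ a : Rˣ) : R) * ((t ^ b : Rˣ) : R) := by
  rw [zpow_add, Units.val_mul]

theorem exists_per (hn : CocZ n univ) : ∃ A N ne, Per g S n A N ne := by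
  have h1 : CocZ (fun a b => n (pp g S a) (pp g S b)) univ :=
    hn.comp (fun _ _ => continuous_pp.continuousAt) (mapsTo_univ _ _)
  obtain ⟨A, hA⟩ := cov_prim (h1.co1 (R := ℤ))
  have hA' : ∀ y, ∃ U ∈ 𝓝 y, ∀ a ∈ U, ∀ b ∈ U, n (pp g S a) (pp g S b) = A b - A a := by
    intro y
    obtain ⟨U, hU, h⟩ := hA y
    exact ⟨U, hU, fun a ha b hb => by simpa [co1] using h a ha b hb⟩
  have := per_conn
  let p : Cov := (⟨0, by simp⟩, 0)
  refine ⟨A, A (p.1, p.2 + 1) - A p, fun e => A (gb g S e 0 0) - A (ga g S e 0 0), hA',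
    fun y z => ?_, fun e he s hs z => ?_⟩
  · have := per_two continuous_id per_shift hA' (u := fun y => A (y.1, y.2 + 1) - A y)
      (fun a b h1 h2 => by
        rw [per_pp, per_pp] at h2
        simp only [id] at h1
        linear_combination h2 - h1) (y, z) p
    linear_combination this
  · have := per_two (per_ga e) (per_gb e) hA'
      (u := fun q => A (gb g S e q.1 q.2) - A (ga g S e q.1 q.2))
      (fun a b h1 h2 => by
        rw [pp_glue he a.1.2, pp_glue he b.1.2] at h2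
        linear_combination h2 - h1) (⟨s, hs⟩, z) (⟨0, by simp⟩, 0)
    linear_combination this

lemma Per.per_int (h : Per g S n A N ne) (y : Disc) (z : ℝ) (k : ℤ) :
    A (y, z + k) = A (y, z) + k * N := by
  induction k using Int.induction_on with
  | zero => simp
  | succ k ih =>
    have := h.per y (z + ((k : ℤ) : ℝ))
    rw [show z + (((k : ℤ) + 1 : ℤ) : ℝ) = z + ((k : ℤ) : ℝ) + 1 by push_cast; ring, this, ih]
    ring
  | pred k ih =>
    have := h.per y (z + ((-(k : ℤ) - 1 : ℤ) : ℝ))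
    rw [show z + ((-(k : ℤ) - 1 : ℤ) : ℝ) + 1 = z + ((-(k : ℤ) : ℤ) : ℝ) by push_cast; ring,
      ih] at this
    linear_combination -this

lemma Per.slit (h : Per g S n A N ne) (hS : Data S) {e : ℕ} (h1 : 2 * g ≤ e) (h2 : e < NE g S) :
    (pr g S e).1 * ne e = (pr g S e).2 * N := by
  have hw : wd g e = 2 := by simp [wd, not_lt.2 h1]
  have key : ∀ z, A (bp (LL g S) (st g e + 1), z + sh g S e)
      = A (bp (LL g S) (st g e + 1), z) + ne e := by
    intro z
    have := h.arc e h2 1 (by simp) z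
    simp only [ga, gb, hw, one_mul] at this
    rwa [show ((st g e : ℝ) + ((2 : ℕ) : ℝ) - 1) = st g e + 1 by push_cast; ring] at this
  have it : ∀ k : ℕ, A (bp (LL g S) (st g e + 1), k * sh g S e)
      = A (bp (LL g S) (st g e + 1), 0) + k * ne e := by
    intro k
    induction k with
    | zero => simp
    | succ k ih =>
      rw [show ((k + 1 : ℕ) : ℝ) * sh g S e = k * sh g S e + sh g S e by push_cast; ring, key, ih]
      push_cast
      ring
  have hα : ((pr g S e).1 : ℝ) ≠ 0 := by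
    have := (pr_data (g := g) hS e).1
    positivity
  have e1 := it (pr g S e).1
  have e2 := h.per_int (bp (LL g S) (st g e + 1)) 0 (pr g S e).2
  rw [show ((pr g S e).1 : ℝ) * sh g S e = 0 + ((pr g S e).2 : ℝ) by
    rw [sh]; field_simp; ring, e2] at e1
  linear_combination -e1

lemma Per.dvd (h : Per g S n A N ne) (hS : Data S) {p : ℕ × ℤ} (hp : p ∈ S) : (p.1 : ℤ) ∣ N := by
  obtain ⟨i, hi, rfl⟩ := List.getElem_of_mem hp
  have hs := h.slit hS (e := 2 * g + i) (by omega) (by unfold NE; omega)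
  have hpr : pr g S (2 * g + i) = S[i] := by
    simp [pr, List.getD_eq_getElem?_getD, hi]
  rw [hpr] at hs
  have hc : IsCoprime ((S[i]).1 : ℤ) (S[i]).2 := Int.isCoprime_iff_gcd_eq_one.2 (hS.1 _ hp).2
  exact hc.dvd_of_dvd_mul_left ⟨_, hs.symm⟩

/-- periods are linear in the class -/
lemma Per.lin {n₁ n₂ : Seifert g S → Seifert g S → ℤ} {A₁ A₂ : Cov → ℤ} {N₁ N₂ : ℤ}
    {ne₁ ne₂ : ℕ → ℤ} (h : Per g S n A N ne) (h₁ : Per g S n₁ A₁ N₁ ne₁) (h₂ : Per g S n₂ A₂ N₂ ne₂)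
    {c₁ c₂ : ℤ} {a : Seifert g S → ℤ}
    (he : ∀ x, ∃ U ∈ 𝓝 x, ∀ y ∈ U, ∀ z ∈ U, n y z = c₁ * n₁ y z + c₂ * n₂ y z + (a z - a y)) :
    N = c₁ * N₁ + c₂ * N₂ ∧ ∀ e < NE g S, ne e = c₁ * ne₁ e + c₂ * ne₂ e := by
  have hc := const_of_nhds (f := fun y => A y - c₁ * A₁ y - c₂ * A₂ y - a (pp g S y)) fun y => by
    obtain ⟨U, hU, hh⟩ := per_and (per_and h.prim h₁.prim) (per_and h₂.prim (per_pull he)) y
    refine ⟨U, hU, fun x hx x' hx' => ?_⟩
    obtain ⟨⟨e1, e2⟩, e3, e4⟩ := hh x hx x' hx'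
    rw [e1, e2, e3] at e4
    linear_combination -e4
  refine ⟨?_, fun e he' => ?_⟩
  · have := hc (⟨0, by simp⟩, 0 + 1) (⟨0, by simp⟩, 0)
    simp only [h.per, h₁.per, h₂.per, per_pp] at this
    linear_combination this
  · have h0 : (0 : ℝ) ∈ Icc (0 : ℝ) 1 := by simp
    have := hc (gb g S e 0 0) (ga g S e 0 0)
    simp only [h.arc e he' 0 h0, h₁.arc e he' 0 h0, h₂.arc e he' 0 h0, pp_glue he' h0] at this
    linear_combination this

theorem exists_prim (h : Per g S n A N ne) (hv : v ∈ Zc (tw t n) 1 univ ∅) :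
    ∃ E, Prim g S t A v E := by
  have hI : Itw (1 : Cov → Cov → R) (tw t n) (pp g S) (fun y => ((t ^ A y : Rˣ) : R)) univ := by
    intro y _
    obtain ⟨U, hU, hh⟩ := h.prim y
    refine ⟨U, hU, fun a ha b hb => ?_⟩
    simp only [tw, hh a ha b hb, ← per_zpow, Pi.one_apply, one_mul, add_sub_cancel]
  obtain ⟨E, hE⟩ := cov_prim (pull_Zc hI (fun _ _ => continuous_pp.continuousAt)
    (empty_subset _) (mapsTo_univ _ _) (mapsTo_empty _ _) hv)
  exact ⟨E, fun y => by simpa using hE y⟩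

lemma Prim.data (h : Per g S n A N ne) (hE : Prim g S t A v E) : ∃ (vh : R) (ve : ℕ → R),
    (∀ y z, E (y, z + 1) = ((t ^ N : Rˣ) : R) * E (y, z) + vh) ∧
    ∀ e < NE g S, ∀ s ∈ Icc (0 : ℝ) 1, ∀ z,
      E (gb g S e s z) = ((t ^ ne e : Rˣ) : R) * E (ga g S e s z) + ve e := by
  have := per_conn
  let p : Cov := (⟨0, by simp⟩, 0)
  refine ⟨E (p.1, p.2 + 1) - ((t ^ N : Rˣ) : R) * E p,
    fun e => E (gb g S e 0 0) - ((t ^ ne e : Rˣ) : R) * E (ga g S e 0 0),
    fun y z => ?_, fun e he s hs z => ?_⟩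
  · have := per_two continuous_id per_shift hE
      (u := fun y => E (y.1, y.2 + 1) - ((t ^ N : Rˣ) : R) * E y)
      (fun a b h1 h2 => by
        rw [per_pp, per_pp, h.per, per_zpow] at h2
        simp only [id] at h1
        linear_combination h2 - ((t ^ N : Rˣ) : R) * h1) (y, z) p
    linear_combination this
  · have := per_two (per_ga e) (per_gb e) hE
      (u := fun q => E (gb g S e q.1 q.2) - ((t ^ ne e : Rˣ) : R) * E (ga g S e q.1 q.2))
      (fun a b h1 h2 => by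
        rw [pp_glue he a.1.2, pp_glue he b.1.2, h.arc e he _ a.1.2, per_zpow] at h2
        linear_combination h2 - ((t ^ ne e : Rˣ) : R) * h1) (⟨s, hs⟩, z) (⟨0, by simp⟩, 0)
    linear_combination this

lemma Prim.sub {v' : List (Seifert g S) → R} {E' : Cov → R} (hE : Prim g S t A v E)
    (hE' : Prim g S t A v' E') (a b : R) :
    Prim g S t A (a • v + b • v') (fun y => a * E y + b * E' y) := by
  intro y
  obtain ⟨U, hU, hh⟩ := per_and hE hE' y
  refine ⟨U, hU, fun x hx x' hx' => ?_⟩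
  obtain ⟨e1, e2⟩ := hh x hx x' hx'
  simp only [Pi.add_apply, Pi.smul_apply, smul_eq_mul]
  linear_combination a * e1 + b * e2

/-- a cocycle without periods is a coboundary -/
theorem Prim.mem_Bc [T2Space (Seifert g S)] (hn : CocZ n univ) (h : Per g S n A N ne)
    (hv : v ∈ Zc (tw t n) 1 univ ∅) (hE : Prim g S t A v E)
    (h1 : ∀ y z, E (y, z + 1) = ((t ^ N : Rˣ) : R) * E (y, z))
    (h2 : ∀ e < NE g S, ∀ s ∈ Icc (0 : ℝ) 1, ∀ z,
      E (gb g S e s z) = ((t ^ ne e : Rˣ) : R) * E (ga g S e s z)) : v ∈ Bc (tw t n) 1 univ ∅ := by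
  obtain ⟨b, hb⟩ := desc_cov (g := g) (S := S) (fun y => ((t ^ (-A y) : Rˣ) : R) * E y)
    (fun y z => by
      rw [h1, h.per, ← mul_assoc, ← per_zpow]
      congr 4
      ring)
    (fun e he s hs z => by
      rw [h2 e he s hs, h.arc e he s hs, ← mul_assoc, ← per_zpow]
      congr 4
      ring)
  let B : List (Seifert g S) → R := fun l => match l with
    | [x] => b x
    | _ => 0
  have hτ : Coc (tw t n) univ := hn.tw t
  refine MP_3d25f3_gt.mem_Bc.2 ⟨B, by simp, null_of_pull isClosedMap_pm pm_surj hτ ?_ fun y _ => ?_⟩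
  · rw [map_sub]
    exact sub_mem hv.2 (DD_Null (k := 1) (F' := ∅) (hτ.mono sdiff_subset) (by simp))
  · obtain ⟨a, rfl⟩ := pc_surj y
    rw [← isOpenMap_pc.map_nhds_eq continuous_pc.continuousAt, eventually_map]
    obtain ⟨U, hU, hh⟩ := per_and h.prim hE a
    filter_upwards [hU] with a' ha'
    obtain ⟨e1, e2⟩ := hh a (mem_of_mem_nhds hU) a' ha'
    show (v - D (tw t n) B) [pp g S a, pp g S a'] = 0
    rw [Pi.sub_apply, D_two]
    show v [pp g S a, pp g S a'] - (tw t n (pp g S a) (pp g S a') * b (pp g S a') - b (pp g S a)) = 0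
    rw [hb, hb, tw, e1, ← mul_assoc, ← per_zpow, show A a' - A a + -A a' = -A a by ring, ← mul_sub,
      ← e2, ← mul_assoc, ← per_zpow]
    simp

theorem Prim.of_Bc (h : Per g S n A N ne) (hv : v ∈ Bc (tw t n) 1 univ ∅) (hE : Prim g S t A v E) :
    ∃ C : R, (∀ y z, E (y, z + 1) - C = ((t ^ N : Rˣ) : R) * (E (y, z) - C)) ∧
      ∀ e < NE g S, ∀ s ∈ Icc (0 : ℝ) 1, ∀ z,
        E (gb g S e s z) - C = ((t ^ ne e : Rˣ) : R) * (E (ga g S e s z) - C) := by
  obtain ⟨B, -, hB⟩ := MP_3d25f3_gt.mem_Bc.1 hv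
  have hc := const_of_nhds (f := fun y => E y - ((t ^ A y : Rˣ) : R) * B [pp g S y]) fun y => by
    obtain ⟨U, hU, hh⟩ := per_and (per_and h.prim hE) (per_pull (per_null hB)) y
    refine ⟨U, hU, fun x hx x' hx' => ?_⟩
    obtain ⟨⟨e1, e2⟩, e3⟩ := hh x hx x' hx'
    rw [Pi.sub_apply, D_two, tw, e1] at e3
    have e4 := per_zpow t (A x) (A x' - A x)
    rw [add_sub_cancel] at e4
    rw [e4]
    linear_combination e2 - ((t ^ A x : Rˣ) : R) * e3
  let p : Cov := (⟨0, by simp⟩, 0)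
  refine ⟨E p - ((t ^ A p : Rˣ) : R) * B [pp g S p], fun y z => ?_, fun e he s hs z => ?_⟩
  · have e1 := hc (y, z + 1) p
    have e2 := hc (y, z) p
    simp only [h.per, per_pp, per_zpow] at e1 e2
    linear_combination e1 - ((t ^ N : Rˣ) : R) * e2
  · have e1 := hc (gb g S e s z) p
    have e2 := hc (ga g S e s z) p
    simp only [h.arc e he s hs, pp_glue he hs, per_zpow] at e1 e2
    linear_combination e1 - ((t ^ ne e : Rˣ) : R) * e2

lemma Per.h0 [IsDomain R] (h : Per g S n A N ne) {e : ℕ} (he : e < NE g S) (ht : t ^ ne e ≠ 1)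
    {c : List (Seifert g S) → R} (hc : c ∈ Zc (tw t n) 0 univ ∅) (x : Seifert g S) : c [x] = 0 := by
  have hk := const_of_nhds (f := fun y => ((t ^ A y : Rˣ) : R) * c [pp g S y]) fun y => by
    obtain ⟨U, hU, hh⟩ := per_and h.prim (per_pull (per_null hc.2)) y
    refine ⟨U, hU, fun x hx x' hx' => ?_⟩
    obtain ⟨e1, e3⟩ := hh x hx x' hx'
    rw [D_two, tw, e1] at e3
    have e4 := per_zpow t (A x) (A x' - A x)
    rw [add_sub_cancel] at e4
    rw [e4]
    linear_combination -((t ^ A x : Rˣ) : R) * e3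
  have h0 : (0 : ℝ) ∈ Icc (0 : ℝ) 1 := by simp
  obtain ⟨y, rfl⟩ := pp_surj x
  have e1 := hk (gb g S e 0 0) y
  have e2 := hk (ga g S e 0 0) y
  simp only [h.arc e he 0 h0, pp_glue he h0, per_zpow] at e1 e2
  have e3 : (((t ^ ne e : Rˣ) : R) - 1) * (((t ^ A y : Rˣ) : R) * c [pp g S y]) = 0 := by
    linear_combination e1 - ((t ^ ne e : Rˣ) : R) * e2
  rcases mul_eq_zero.1 e3 with e4 | e4
  · exact absurd (Units.ext (sub_eq_zero.1 e4)) ht
  · exact (mul_eq_zero.1 e4).resolve_left (Units.ne_zero _)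

lemma per_cast (h : Per g S n A N ne) :
    Prim g S (1 : Rˣ) A (co1 fun a b => (n a b : R)) (fun y => (A y : R)) := by
  intro y
  obtain ⟨U, hU, hh⟩ := h.prim y
  exact ⟨U, hU, fun a ha b hb => by simp [co1, hh a ha b hb]⟩

lemma Per.cast_eq_zero (h : Per g S n A N ne)
    (hB : co1 (fun a b => (n a b : R)) ∈ Bc (1 : Seifert g S → Seifert g S → R) 1 univ ∅) :
    (N : R) = 0 := by
  rw [← tw_one n] at hB
  obtain ⟨C, hC, -⟩ := Prim.of_Bc h hB (per_cast h)
  have := hC ⟨0, by simp⟩ 0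
  rw [h.per] at this
  simpa using this

lemma Per.cast_mem_Bc [T2Space (Seifert g S)] (hn : CocZ n univ) (h : Per g S n A N ne)
    (h1 : (N : R) = 0) (h2 : ∀ e < NE g S, (ne e : R) = 0) :
    co1 (fun a b => (n a b : R)) ∈ Bc (1 : Seifert g S → Seifert g S → R) 1 univ ∅ := by
  have hZ := hn.co1 (R := R)
  rw [← tw_one n] at hZ ⊢
  refine Prim.mem_Bc hn h hZ (per_cast h) (fun y z => ?_) (fun e he s hs z => ?_)
  · simp [h.per, h1]
  · simp [h.arc e he s hs, h2 e he]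

end Pool.Agent.P.MP_3d25f3_gt
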