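import Pool.Agent.P.MP_3d25f3_gt.PolD
import Pool.Agent.P.MP_3d25f3_gt.Per
import Pool.Agent.P.MP_3d25f3_gt.Cup

set_option autoImplicit false

open Set Filter Topology

namespace Pool.Agent.P.MP_3d25f3_gt

variable {g : ℕ} {S : List (ℕ × ℤ)}

def sqr {Z : Type} (b : List Z → ℂ) (u : ℕ → ℕ → Z) (a c : ℕ) : ℂ :=
  b [u a c, u (a + 1) c, u (a + 1) (c + 1)] - b [u a c, u a (c + 1), u (a + 1) (c + 1)]

noncomputable def uA (g : ℕ) (S : List (ℕ × ℤ)) (e m a c : ℕ) : Cov := ga g S e (a / m) (c / m)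

noncomputable def uB (g : ℕ) (S : List (ℕ × ℤ)) (e m a c : ℕ) : Cov := gb g S e (a / m) (c / m)

/-- value of a cochain on a fine triangulation of the boundary torus -/
noncomputable def evT (g : ℕ) (S : List (ℕ × ℤ)) (b : List Solid → ℂ) (m : ℕ) : ℂ :=
  ∑ e ∈ Finset.range (NE g S), ∑ a ∈ Finset.range m, ∑ c ∈ Finset.range m,
    (sqr b (fun a c => pc (uA g S e m a c)) a c - sqr b (fun a c => pc (uB g S e m a c)) a c)

def Ev (g : ℕ) (S : List (ℕ × ℤ)) (w : List (Seifert g S) → ℂ) (s : ℂ) : Prop :=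
  ∃ b : List Solid → ℂ, D 1 b - pull (pm g S) 1 w ∈ Null ℂ 3 univ ∧
    ∃ m₀, ∀ m ≥ m₀, (∀ e < NE g S, (pr g S e).1 ∣ m) → evT g S b m = s

/-- the triple product of `v`, `n` and the conjugate of `v'` -/
noncomputable def wf {Z : Type} (ω : ℂˣ) (n : Z → Z → ℤ) (v v' : List Z → ℂ) : List Z → ℂ :=
  cup (tw ω⁻¹ n) 1 v (cf (starRingEnd ℂ) (cup (tw ω n) 1 (co1 fun a b => (n a b : ℂ)) v'))

lemma anna_fine {P : Set Cov → Prop} (h : ∀ y, ∃ U ∈ 𝓝 y, P U) {f : ℝ × ℝ → Cov}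
    (hf : Continuous f) : ∀ᶠ m : ℕ in atTop, ∀ a ≤ m, ∀ c ≤ m,
      ∃ U, P U ∧ ∀ i ≤ 1, ∀ j ≤ 1, f (((a + i : ℕ) : ℝ) / m, ((c + j : ℕ) : ℝ) / m) ∈ U := by
  choose U hU hP using h
  obtain ⟨δ, hδ, h1⟩ := lebesgue_number_lemma_of_metric
    (s := Icc ((0 : ℝ), (0 : ℝ)) (1, 1)) (c := fun x => interior (f ⁻¹' U (f x))) isCompact_Icc
    (fun _ => isOpen_interior) (fun x _ => mem_iUnion.2
      ⟨x, mem_interior_iff_mem_nhds.2 (hf.continuousAt.preimage_mem_nhds (hU _))⟩)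
  obtain ⟨n, hn⟩ := exists_nat_one_div_lt hδ
  filter_upwards [eventually_ge_atTop (n + 1)] with m hm a ha c hc
  have hm0 : (0 : ℝ) < m := by exact_mod_cast (show 0 < m by omega)
  have key : ∀ a ≤ m, (0 : ℝ) ≤ (a : ℝ) / m ∧ (a : ℝ) / m ≤ 1 := fun a ha =>
    ⟨by positivity, (div_le_one hm0).2 (by exact_mod_cast ha)⟩
  have key2 : ∀ a i : ℕ, i ≤ 1 → dist (((a + i : ℕ) : ℝ) / m) ((a : ℝ) / m) < δ := by
    intro a i hi
    rw [Real.dist_eq, show ((a + i : ℕ) : ℝ) / m - a / m = i / m by push_cast; ring,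
      abs_of_nonneg (by positivity)]
    refine lt_of_le_of_lt ?_ hn
    have h2 : (i : ℝ) ≤ 1 := by exact_mod_cast hi
    have h3 : (n : ℝ) + 1 ≤ m := by exact_mod_cast hm
    exact div_le_div₀ zero_le_one h2 (by positivity) h3
  obtain ⟨y, hy⟩ := h1 ((a : ℝ) / m, (c : ℝ) / m)
    ⟨⟨(key a ha).1, (key c hc).1⟩, ⟨(key a ha).2, (key c hc).2⟩⟩
  refine ⟨_, hP (f y), fun i hi j hj => (hy.trans interior_subset) ?_⟩
  rw [Metric.mem_ball, Prod.dist_eq]
  exact max_lt (key2 a i hi) (key2 c j hj)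

lemma anna_shift {G : ℤ → ℂ} {m : ℕ} (h : ∀ c, G (c + m) = G c) (k : ℤ) :
    ∑ c ∈ Finset.range m, G (c + k) = ∑ c ∈ Finset.range m, G c := by
  have step : ∀ k : ℤ, ∑ c ∈ Finset.range m, G (c + (k + 1)) =
      ∑ c ∈ Finset.range m, G (c + k) := by
    intro k
    rw [← sub_eq_zero, ← Finset.sum_sub_distrib]
    have h1 := Finset.sum_range_sub (fun c : ℕ => G (c + k)) m
    simp only [Nat.cast_add, Nat.cast_one, Nat.cast_zero, zero_add] at h1
    rw [add_comm (m : ℤ) k, h, sub_self] at h1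
    rw [← h1]
    refine Finset.sum_congr rfl fun c _ => ?_
    rw [show (c : ℤ) + (k + 1) = c + 1 + k by ring]
  induction k using Int.induction_on with
  | zero => simp
  | succ k ih => rw [step, ih]
  | pred k ih => rw [← ih, ← step, sub_add_cancel]

lemma anna_pc (y : Disc) (z : ℝ) (k : ℤ) : pc (y, z + k) = pc (y, z) :=
  ((pc_eq_iff (y, z) (y, z + k)).2 ⟨rfl, k, rfl⟩).symm

lemma anna_pc1 (y : Disc) (z : ℝ) : pc (y, 1 + z) = pc (y, 0 + z) := by
  have := anna_pc y z 1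
  rw [Int.cast_one] at this
  rw [add_comm, zero_add, this]

/-- sum over a fibre -/
noncomputable def annaF (a₁ : List Solid → ℂ) (m : ℕ) (y : Disc) (z : ℝ) : ℂ :=
  ∑ c ∈ Finset.range m, a₁ [pc (y, (c : ℝ) / m + z), pc (y, ((c + 1 : ℕ) : ℝ) / m + z)]

lemma annaF_shift (a₁ : List Solid → ℂ) {m : ℕ} (hm : 0 < m) (y : Disc) (k : ℤ) :
    annaF a₁ m y (k / m) = annaF a₁ m y 0 := by
  have hm0 : (m : ℝ) ≠ 0 := by exact_mod_cast hm.ne'
  have h1 := anna_shift (m := m)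
    (G := fun c => a₁ [pc (y, (c : ℝ) / m), pc (y, ((c : ℝ) + 1) / m)]) (fun c => by
      have e1 : (((c + m : ℤ) : ℝ)) / m = c / m + (1 : ℤ) := by push_cast; field_simp
      have e2 : (((c + m : ℤ) : ℝ) + 1) / m = (c + 1) / m + (1 : ℤ) := by
        push_cast; field_simp; ring
      rw [e1, e2, anna_pc, anna_pc]) k
  unfold annaF
  refine Eq.trans ?_ (h1.trans ?_)
  · refine Finset.sum_congr rfl fun c _ => ?_
    have e1 : (c : ℝ) / m + k / m = (((c : ℤ) + k : ℤ) : ℝ) / m := by push_cast; ring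
    have e2 : ((c + 1 : ℕ) : ℝ) / m + k / m = ((((c : ℤ) + k : ℤ) : ℝ) + 1) / m := by
      push_cast; ring
    rw [e1, e2]
  · refine Finset.sum_congr rfl fun c _ => ?_
    simp

lemma fine {P : Set Cov → Prop} (h : ∀ y, ∃ U ∈ 𝓝 y, P U) : ∃ m₀, ∀ m ≥ m₀, ∀ e < NE g S,
    ∀ a ≤ m, ∀ c ≤ m,
      (∃ U, P U ∧ ∀ i ≤ 1, ∀ j ≤ 1, uA g S e m (a + i) (c + j) ∈ U) ∧
      ∃ U, P U ∧ ∀ i ≤ 1, ∀ j ≤ 1, uB g S e m (a + i) (c + j) ∈ U := by
  have h1 : ∀ᶠ m : ℕ in atTop, ∀ e ∈ Finset.range (NE g S), (∀ a ≤ m, ∀ c ≤ m,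
      ∃ U, P U ∧ ∀ i ≤ 1, ∀ j ≤ 1, uA g S e m (a + i) (c + j) ∈ U) ∧ ∀ a ≤ m, ∀ c ≤ m,
      ∃ U, P U ∧ ∀ i ≤ 1, ∀ j ≤ 1, uB g S e m (a + i) (c + j) ∈ U :=
    (eventually_all_finset _).2 fun e _ =>
      (anna_fine h (continuous_ga e)).and (anna_fine h (continuous_gb e))
  obtain ⟨m₀, h2⟩ := eventually_atTop.1 h1
  exact ⟨m₀, fun m hm e he a ha c hc => ⟨(h2 m hm e (Finset.mem_range.2 he)).1 a ha c hc,
    (h2 m hm e (Finset.mem_range.2 he)).2 a ha c hc⟩⟩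

lemma sum_sqr_D {Z : Type} (a₁ : List Z → ℂ) (u : ℕ → ℕ → Z) (m : ℕ) (hu : ∀ a, u a m = u a 0) :
    ∑ a ∈ Finset.range m, ∑ c ∈ Finset.range m, sqr (D 1 a₁) u a c
      = ∑ c ∈ Finset.range m, a₁ [u m c, u m (c + 1)]
        - ∑ c ∈ Finset.range m, a₁ [u 0 c, u 0 (c + 1)] := by
  rw [← Finset.sum_range_sub (fun a => ∑ c ∈ Finset.range m, a₁ [u a c, u a (c + 1)])]
  refine Finset.sum_congr rfl fun a _ => ?_
  have h1 := Finset.sum_range_sub (fun c => a₁ [u a c, u (a + 1) c]) m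
  simp only [hu, sub_self] at h1
  rw [← Finset.sum_sub_distrib, ← sub_zero (∑ c ∈ Finset.range m, (_ - _)), ← h1,
    ← Finset.sum_sub_distrib]
  refine Finset.sum_congr rfl fun c _ => ?_
  simp only [sqr, D_three, Pi.one_apply]
  ring

lemma evT_D (hS : Data S) (a₁ : List Solid → ℂ) {m : ℕ} (hm : 0 < m)
    (h : ∀ e < NE g S, (pr g S e).1 ∣ m) : evT g S (D 1 a₁) m = 0 := by
  have hm0 : (m : ℝ) ≠ 0 := by exact_mod_cast hm.ne'
  have h0 : annaF a₁ m (bp (LL g S) ((LL g S : ℕ) : ℝ)) 0 = annaF a₁ m (bp (LL g S) ((0 : ℕ) : ℝ)) 0 := by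
    rw [(bp_eq_iff (NeZero.ne _) ((0 : ℕ) : ℝ) ((LL g S : ℕ) : ℝ)).2 ⟨1, by simp⟩]
  have h1 := tel (g := g) (S := S) fun j : ℕ => annaF a₁ m (bp (LL g S) j) 0
  simp only [h0, sub_self] at h1
  rw [← h1, evT]
  refine Finset.sum_congr rfl fun e he => ?_
  simp only [Finset.sum_sub_distrib]
  rw [sum_sqr_D a₁ (fun a c => pc (uA g S e m a c)) m, sum_sqr_D a₁ (fun a c => pc (uB g S e m a c)) m]
  · obtain ⟨k, hk⟩ := h e (Finset.mem_range.1 he)
    have hα : (((pr g S e).1 : ℕ) : ℝ) ≠ 0 := by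
      intro h2
      have h3 : (pr g S e).1 = 0 := by exact_mod_cast h2
      rw [h3, zero_mul] at hk
      omega
    have hk0 : (k : ℝ) ≠ 0 := by
      intro h2
      have h3 : k = 0 := by exact_mod_cast h2
      rw [h3, mul_zero] at hk
      omega
    have hsh : sh g S e = (((pr g S e).2 * k : ℤ) : ℝ) / m := by
      have h2 : (m : ℝ) = (pr g S e).1 * k := by exact_mod_cast hk
      rw [sh, h2]
      push_cast
      field_simp
    have hw : ((st g e + wd g e - 1 : ℕ) : ℝ) = st g e + wd g e - 1 := by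
      have := wd_ge (g := g) e
      rw [Nat.cast_sub (by omega)]
      push_cast
      ring
    have h2 := annaF_shift a₁ hm (bp (LL g S) (st g e + wd g e - 1)) ((pr g S e).2 * k)
    rw [← hsh] at h2
    rw [hw, ← h2]
    simp only [annaF, uA, uB, ga, gb, div_self hm0, Nat.cast_zero, zero_div, add_zero, sub_zero,
      zero_mul, one_mul, Nat.cast_add, Nat.cast_one]
    ring
  · intro a
    simp only [uB, gb, div_self hm0, Nat.cast_zero, zero_div, anna_pc1]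
  · intro a
    have := anna_pc1 (bp (LL g S) (st g e + a / m)) 0
    simp only [uA, ga, div_self hm0, Nat.cast_zero, zero_div]
    simpa using this

lemma evT_pull (c : List (Seifert g S) → ℂ) (m : ℕ) : evT g S (pull (pm g S) 1 c) m = 0 := by
  refine Finset.sum_eq_zero fun e he => Finset.sum_eq_zero fun a ha =>
    Finset.sum_eq_zero fun c' _ => ?_
  have ha' := Finset.mem_range.1 ha
  have hm0 : (0 : ℝ) < m := by exact_mod_cast (show 0 < m by omega)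
  have key : ∀ a ≤ m, ∀ c', pm g S (pc (uB g S e m a c')) = pm g S (pc (uA g S e m a c')) :=
    fun a ha c' => pp_glue (Finset.mem_range.1 he)
      ⟨by positivity, (div_le_one hm0).2 (by exact_mod_cast ha)⟩ _
  simp only [sqr, pull_cons, List.map_cons, List.map_nil, key a ha'.le, key (a + 1) ha',
    Pi.one_apply, sub_self]

lemma evT_lin (a b : ℂ) (c c' : List Solid → ℂ) (m : ℕ) :
    evT g S (a • c + b • c') m = a * evT g S c m + b * evT g S c' m := by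
  simp only [evT, Finset.mul_sum, ← Finset.sum_add_distrib]
  refine Finset.sum_congr rfl fun e _ => Finset.sum_congr rfl fun i _ =>
    Finset.sum_congr rfl fun j _ => ?_
  simp only [sqr, Pi.add_apply, Pi.smul_apply, smul_eq_mul]
  ring

lemma evT_Null {c : List Solid → ℂ} (hc : c ∈ Null ℂ 2 (univ : Set Solid)) :
    ∃ m₀, ∀ m ≥ m₀, evT g S c m = 0 := by
  obtain ⟨m₀, h⟩ := fine (g := g) (S := S) (P := fun U => ∀ x ∈ U, ∀ y ∈ U, ∀ z ∈ U,
      c [pc x, pc y, pc z] = 0) fun y => by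
    obtain ⟨U, hU, h⟩ := hc (pc y) (mem_univ _)
    refine ⟨pc ⁻¹' U, continuous_pc.continuousAt.preimage_mem_nhds hU,
      fun x hx y hy z hz => h _ rfl ?_⟩
    simp only [List.mem_cons, List.not_mem_nil, or_false]
    rintro _ (rfl | rfl | rfl)
    exacts [hx, hy, hz]
  refine ⟨m₀, fun m hm => Finset.sum_eq_zero fun e he => Finset.sum_eq_zero fun a ha =>
    Finset.sum_eq_zero fun c' hc' => ?_⟩
  obtain ⟨⟨U, hU, h1⟩, V, hV, h2⟩ := h m hm e (Finset.mem_range.1 he) a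
    (Finset.mem_range.1 ha).le c' (Finset.mem_range.1 hc').le
  have a1 := hU _ (h1 0 zero_le_one 0 zero_le_one) _ (h1 1 le_rfl 0 zero_le_one) _
    (h1 1 le_rfl 1 le_rfl)
  have a2 := hU _ (h1 0 zero_le_one 0 zero_le_one) _ (h1 0 zero_le_one 1 le_rfl) _
    (h1 1 le_rfl 1 le_rfl)
  have a3 := hV _ (h2 0 zero_le_one 0 zero_le_one) _ (h2 1 le_rfl 0 zero_le_one) _
    (h2 1 le_rfl 1 le_rfl)
  have a4 := hV _ (h2 0 zero_le_one 0 zero_le_one) _ (h2 0 zero_le_one 1 le_rfl) _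
    (h2 1 le_rfl 1 le_rfl)
  simp only [add_zero] at a1 a2 a3 a4
  simp only [sqr, a1, a2, a3, a4, sub_self]

lemma Ev.lin {w w' : List (Seifert g S) → ℂ} {s s' : ℂ} (h : Ev g S w s) (h' : Ev g S w' s')
    (a b : ℂ) : Ev g S (a • w + b • w') (a * s + b * s') := by
  obtain ⟨c, hc, m, hm⟩ := h
  obtain ⟨c', hc', m', hm'⟩ := h'
  refine ⟨a • c + b • c', ?_, max m m', fun n hn hd => ?_⟩
  · have := add_mem (Submodule.smul_mem _ a hc) (Submodule.smul_mem _ b hc')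
    rw [map_add, map_add, map_smul, map_smul, map_smul, map_smul]
    rw [smul_sub, smul_sub] at this
    rwa [add_sub_add_comm]
  · rw [evT_lin, hm n (le_of_max_le_left hn) hd, hm' n (le_of_max_le_right hn) hd]

lemma Ev.congr {w w' : List (Seifert g S) → ℂ} {s : ℂ} (h : Ev g S w s)
    (hw : w - w' ∈ Bc (1 : Seifert g S → Seifert g S → ℂ) 3 univ ∅) : Ev g S w' s := by
  obtain ⟨c, hc, m, hm⟩ := h
  obtain ⟨d, -, hd⟩ := mem_Bc.1 hw
  have h1 := pull_Null (f := pm g S) (1 : Solid → ℂ) (G := univ)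
    (fun _ _ => continuous_pm.continuousAt) (mapsTo_univ _ _) hd
  have h2 : D 1 (pull (pm g S) 1 d) = pull (pm g S) 1 (D 1 d) :=
    pull_D_eq (1 : Seifert g S → Seifert g S → ℂ) (pm g S) d
  refine ⟨(1 : ℂ) • c + (-1 : ℂ) • pull (pm g S) 1 d, ?_, m, fun n hn hd => ?_⟩
  · have h3 := add_mem hc h1
    rw [map_sub, map_sub] at h3
    rw [map_add, map_smul, map_smul, h2, one_smul, neg_one_smul]
    have e : ∀ x y z t : List Solid → ℂ, x + -t - z = x - y + (y - z - t) := fun x y z t => by abel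
    rwa [e _ (pull (pm g S) 1 w)]
  · rw [evT_lin, hm n hn hd, evT_pull]
    ring

end Pool.Agent.P.MP_3d25f3_gt
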