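import Pool.Agent.P.MP_3d25f3_gt.Alg

set_option autoImplicit false

open Set Filter Topology

namespace Pool.Agent.P.MP_3d25f3_gt

variable {Z : Type} [TopologicalSpace Z] {R : Type} [CommRing R] {τ : Z → Z → R}
  {F F' F'' : Set Z}

/-- connecting map of the triple `F ⊇ F' ⊇ F''` -/
def del (k : ℕ) (hτ : Coc τ (F \ F'')) : H τ k F' F'' →ₗ[R] H τ (k + 1) F F' :=
  hmap (D τ) (fun _ hc => ⟨hc.2, DD_Null (k := k + 1) hτ hc.1⟩) (fun c _ hc => by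
    obtain ⟨b, hb, h⟩ := mem_Bc.1 hc
    refine mem_Bc.2 ⟨c - D τ b, h, ?_⟩
    simpa using DD_Null hτ hb)

lemma del_cl (k : ℕ) (hτ : Coc τ (F \ F'')) (c : List Z → R) (hc : c ∈ Zc τ k F' F'') :
    del k hτ (cl c hc) = cl (D τ c) (⟨hc.2, DD_Null (k := k + 1) hτ hc.1⟩ :
      D τ c ∈ Zc τ (k + 1) F F') := rfl

lemma exact_res_res (k : ℕ) (hτ : Coc τ (F \ F'')) (h : F' ⊆ F) (h' : F'' ⊆ F') :
    Function.Exact (res τ k (F := F) (F' := F') subset_rfl h')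
      (res τ k (F := F) (F' := F'') h subset_rfl) := by
  intro y
  obtain ⟨c, hc, rfl⟩ := cl_surj y
  constructor
  · intro h0
    rw [res_cl, cl_eq_zero] at h0
    obtain ⟨b, hb, h1⟩ := mem_Bc.1 h0
    have h2 : c - D τ b ∈ Zc τ k F F' := by
      refine mem_Zc.2 ⟨h1, ?_⟩
      rw [map_sub]
      exact sub_mem hc.2 (DD_Null hτ hb)
    refine ⟨cl _ h2, ?_⟩
    rw [res_cl, cl_eq]
    refine mem_Bc.2 ⟨-b, neg_mem hb, ?_⟩
    simp
  · rintro ⟨x, hx⟩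
    obtain ⟨a, ha, rfl⟩ := cl_surj x
    rw [← hx, res_cl, res_cl, cl_eq_zero]
    exact Null_le_Bc τ k F' F'' ha.1

lemma exact_res_del (k : ℕ) (hτ : Coc τ (F \ F'')) (h : F' ⊆ F) (h' : F'' ⊆ F') :
    Function.Exact (res τ k (F := F) (F' := F'') h subset_rfl) (del k hτ) := by
  intro y
  obtain ⟨c, hc, rfl⟩ := cl_surj y
  constructor
  · intro h0
    rw [del_cl] at h0
    obtain ⟨b, hb, h1⟩ := mem_Bc.1 ((cl_eq_zero _).1 h0)
    have hb' : b ∈ Null R k F' := hb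
    have h2 : c - b ∈ Zc τ k F F'' := by
      refine mem_Zc.2 ⟨sub_mem hc.1 (Null_mono k h' hb'), ?_⟩
      rw [map_sub]
      exact h1
    refine ⟨cl _ h2, ?_⟩
    rw [res_cl, cl_eq]
    refine Null_le_Bc τ k F' F'' ?_
    simpa using hb'
  · rintro ⟨x, hx⟩
    obtain ⟨a, ha, rfl⟩ := cl_surj x
    rw [← hx, res_cl, del_cl]
    exact (cl_eq_zero _).2 (Null_le_Bc τ (k + 1) F F' ha.2)

lemma exact_del_res (k : ℕ) (hτ : Coc τ (F \ F'')) (h : F' ⊆ F) (h' : F'' ⊆ F') :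
    Function.Exact (del (F' := F') k hτ) (res τ (k + 1) (F := F) (F' := F') subset_rfl h') := by
  intro y
  obtain ⟨c, hc, rfl⟩ := cl_surj y
  constructor
  · intro h0
    rw [res_cl, cl_eq_zero] at h0
    obtain ⟨b, hb, h1⟩ := mem_Bc.1 h0
    have hb' : b ∈ Null R k F'' := hb
    have h2 : b ∈ Zc τ k F' F'' := by
      refine mem_Zc.2 ⟨hb', ?_⟩
      have h3 := sub_mem hc.1 (Null_mono (k + 1) h h1)
      simpa using h3
    refine ⟨cl _ h2, ?_⟩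
    rw [del_cl]
    refine (cl_eq _ _).2 (Null_le_Bc τ (k + 1) F F' ?_)
    have h4 := neg_mem h1
    rwa [neg_sub] at h4
  · rintro ⟨x, hx⟩
    obtain ⟨a, ha, rfl⟩ := cl_surj x
    rw [← hx, del_cl]
    refine (res_cl τ (k + 1) _ _ _ _).trans ((cl_eq_zero _).2 (mem_Bc.2 ⟨a, ha.1, ?_⟩))
    simp

lemma res_zero_inj (h' : F'' ⊆ F') :
    Function.Injective (res τ 0 (F := F) (F' := F') subset_rfl h') := by
  intro x y hxy
  obtain ⟨a, ha, rfl⟩ := cl_surj x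
  obtain ⟨b, hb, rfl⟩ := cl_surj y
  rw [res_cl, res_cl, cl_eq, Bc_zero] at hxy
  rw [cl_eq, Bc_zero]
  exact hxy

lemma van_iff (k : ℕ) : Van τ k F F' ↔ Subsingleton (H τ k F F') := by
  constructor
  · intro hv
    refine ⟨fun x y => ?_⟩
    obtain ⟨a, ha, rfl⟩ := cl_surj x
    obtain ⟨b, hb, rfl⟩ := cl_surj y
    rw [cl_eq]
    exact hv (sub_mem ha hb)
  · intro hs c hc
    exact (cl_eq_zero hc).1 (Subsingleton.elim _ _)

lemma van_self (k : ℕ) : Van τ k F F := fun _ hc => Null_le_Bc τ k F F hc.1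

/-- vanishing in the middle of a triple -/
lemma van_mid (k : ℕ) (h1 : Van τ k F F') (h2 : Van τ k F' F'') (hτ : Coc τ (F \ F''))
    (h : F' ⊆ F) (h' : F'' ⊆ F') : Van τ k F F'' := by
  intro c hc
  obtain ⟨b, hb, h3⟩ := mem_Bc.1 (h2 (Zc_mono τ k h subset_rfl hc))
  have h4 : c - D τ b ∈ Zc τ k F F' := by
    refine mem_Zc.2 ⟨h3, ?_⟩
    rw [map_sub]
    exact sub_mem hc.2 (DD_Null hτ hb)
  have h5 : c - D τ b ∈ Bc τ k F F'' := Bc_mono τ k subset_rfl h' (h1 h4)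
  have h6 : D τ b ∈ Bc τ k F F'' := mem_Bc.2 ⟨b, hb, by simp⟩
  simpa using add_mem h5 h6

lemma van_left (k : ℕ) (h1 : Van τ k F' F'') (h2 : Van τ (k + 1) F F'') (hτ : Coc τ (F \ F''))
    (h : F' ⊆ F) (h' : F'' ⊆ F') : Van τ (k + 1) F F' := by
  intro c hc
  obtain ⟨b, hb, h3⟩ := mem_Bc.1 (h2 (Zc_mono τ (k + 1) subset_rfl h' hc))
  have hb' : b ∈ Null R k F'' := hb
  have h4 : b ∈ Zc τ k F' F'' := by
    refine mem_Zc.2 ⟨hb', ?_⟩
    have h5 := sub_mem hc.1 (Null_mono (k + 1) h h3)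
    simpa using h5
  obtain ⟨b', hb2, h6⟩ := mem_Bc.1 (h1 h4)
  refine mem_Bc.2 ⟨b - D τ b', h6, ?_⟩
  have h7 := add_mem h3 (DD_Null hτ hb2)
  rw [map_sub, ← sub_add]
  exact h7

lemma finite_of_exact [IsNoetherianRing R] {A B C : Type} [AddCommGroup A] [AddCommGroup B]
    [AddCommGroup C] [Module R A] [Module R B] [Module R C] [Module.Finite R A]
    [Module.Finite R C] {f : A →ₗ[R] B} {g : B →ₗ[R] C} (h : Function.Exact f g) :
    Module.Finite R B := by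
  refine ⟨Submodule.fg_of_fg_map_of_fg_inf_ker g (IsNoetherian.noetherian _) ?_⟩
  rw [top_inf_eq, h.linearMap_ker_eq, LinearMap.range_eq_map]
  exact Module.Finite.fg_top.map f

variable [NormalSpace Z] {A B : Set Z}

lemma exc_surj (k : ℕ) (hA : IsClosed A) (hB : IsClosed B) {c : List Z → R}
    (hc : c ∈ Zc τ k A (A ∩ B)) : ∃ c' ∈ Zc τ k (A ∪ B) B, c - c' ∈ Null R k A := by
  obtain ⟨b, hb, h1⟩ := Null_inter hA hB hc.1
  refine ⟨b, mem_Zc.2 ⟨hb, ?_⟩, h1⟩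
  rw [Null_union]
  refine Submodule.mem_inf.2 ⟨?_, D_Null τ hb⟩
  have h2 := sub_mem hc.2 (D_Null τ h1)
  simpa using h2

lemma exc_inj (k : ℕ) (hA : IsClosed A) (hB : IsClosed B) {c : List Z → R}
    (hc : c ∈ Null R k B) (h : c ∈ Bc τ k A (A ∩ B)) : c ∈ Bc τ k (A ∪ B) B := by
  obtain ⟨b, hb, h1⟩ := mem_Bc.1 h
  obtain ⟨b', hb', h2⟩ := Null_inter hA hB hb
  refine mem_Bc.2 ⟨b', hb', ?_⟩
  rw [Null_union]
  refine Submodule.mem_inf.2 ⟨?_, sub_mem hc (D_Null' τ hb')⟩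
  have h3 := add_mem h1 (D_Null' τ h2)
  simpa using h3

/-- excision -/
lemma exc_bij (k : ℕ) (hA : IsClosed A) (hB : IsClosed B) {U I : Set Z} (hU : U = A ∪ B)
    (hI : I = A ∩ B) (h : A ⊆ U) (h' : I ⊆ B) :
    Function.Bijective (res τ k (F := U) (F' := B) h h') := by
  subst hU hI
  constructor
  · intro x y hxy
    obtain ⟨a, ha, rfl⟩ := cl_surj x
    obtain ⟨b, hb, rfl⟩ := cl_surj y
    rw [res_cl, res_cl, cl_eq] at hxy
    rw [cl_eq]
    exact exc_inj k hA hB (sub_mem ha.1 hb.1) hxy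
  · intro y
    obtain ⟨c, hc, rfl⟩ := cl_surj y
    obtain ⟨c', hc', h1⟩ := exc_surj k hA hB hc
    refine ⟨cl c' hc', ?_⟩
    rw [res_cl, cl_eq]
    refine Null_le_Bc τ k _ _ ?_
    have h2 := neg_mem h1
    rwa [neg_sub] at h2

lemma van_exc (k : ℕ) (hA : IsClosed A) (hB : IsClosed B) :
    Van τ k (A ∪ B) B ↔ Van τ k A (A ∩ B) := by
  rw [van_iff, van_iff]
  have h := exc_bij (τ := τ) k hA hB rfl rfl subset_union_left inter_subset_right
  exact ⟨fun _ => h.2.subsingleton, fun _ => h.1.subsingleton⟩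

end Pool.Agent.P.MP_3d25f3_gt
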