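import Pool.Agent.P.MP_3d25f3_gt.Mod
import Pool.Agent.P.MP_3d25f3_gt.Hi
import Pool.Agent.P.MP_3d25f3_gt.Les

set_option autoImplicit false

open Set Filter Topology

namespace Pool.Agent.P.MP_3d25f3_gt

/-- a slab of the solid torus -/
def solhS (a b : ℝ) : Set Solid := pc '' (univ ×ˢ Icc a b)

lemma solh_compact (a b : ℝ) : IsCompact (univ ×ˢ Icc a b : Set Cov) :=
  isCompact_univ.prod isCompact_Icc

lemma solh_closed (a b : ℝ) : IsClosed (solhS a b) :=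
  ((solh_compact a b).image continuous_pc).isClosed

lemma solh_cov (k : ℕ) (a b : ℝ) :
    Van (1 : Cov → Cov → ℂ) (k + 1) (univ ×ˢ Icc a b) ∅ := by
  let σ : ℝ → ℝ := fun s => max 0 (min 1 (1 - s))
  have h0 : ∀ s, 0 ≤ σ s := fun s => le_max_left _ _
  have h1 : ∀ s, σ s ≤ 1 := fun s => max_le zero_le_one (min_le_left _ _)
  have hσ : Continuous σ := by fun_prop
  have hm : ∀ (y : Disc) (s : ℝ), ((σ s : ℂ) * y) ∈ Metric.closedBall (0 : ℂ) 1 := by
    intro y s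
    rw [mem_closedBall_zero_iff, norm_mul, Complex.norm_real, Real.norm_of_nonneg (h0 s)]
    exact mul_le_one₀ (h1 s) (norm_nonneg _) (mem_closedBall_zero_iff.1 y.2)
  refine van_contr (h := fun x s => (⟨_, hm x.1 s⟩, a + σ s * (x.2 - a))) k (solh_compact a b)
    ?_ ?_ (Coc_one _) ?_ (p := (⟨0, by simp⟩, a)) ?_
  · refine Continuous.prodMk (Continuous.subtype_mk ?_ _) ?_
    · fun_prop
    · fun_prop
  · intro x
    simp [σ]
  · rintro x ⟨-, h2, h3⟩ s -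
    have := h0 s
    have := h1 s
    exact ⟨trivial, by nlinarith, by nlinarith⟩
  · intro x
    simp [σ]

lemma solh_van (k : ℕ) {a b : ℝ} (hab : b - a < 1) :
    Van (1 : Solid → Solid → ℂ) (k + 1) (solhS a b) ∅ := by
  intro c hc
  rw [← image_empty pc] at hc ⊢
  refine emb_inj (solh_compact a b) (empty_subset _) continuous_pc ?_ (Coc_one _) hc
    (solh_cov k a b (pull_Zc (Itw_comp (1 : Solid → Solid → ℂ) pc _)
      (fun _ _ => continuous_pc.continuousAt) (empty_subset _) (mapsTo_image _ _)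
      (mapsTo_image _ _) hc))
  rintro x ⟨-, h1, h2⟩ y ⟨-, h3, h4⟩ e
  obtain ⟨e1, n, e2⟩ := (pc_eq_iff x y).1 e
  have h5 : (n : ℝ) < 1 := by linarith
  have h6 : (-1 : ℝ) < n := by linarith
  have h7 : n = 0 := by
    have : n < 1 := by exact_mod_cast h5
    have : -1 < n := by exact_mod_cast h6
    omega
  exact Prod.ext e1 (by rw [e2, h7]; simp)

lemma solh_union : solhS 0 (1 / 2) ∪ solhS (1 / 2) 1 = univ := by
  refine eq_univ_of_forall fun x => ?_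
  obtain ⟨⟨y, z⟩, rfl⟩ := pc_surj x
  have e : pc (y, Int.fract z) = pc (y, z) :=
    (pc_eq_iff _ _).2 ⟨rfl, ⌊z⌋, (Int.fract_add_floor z).symm⟩
  rcases le_total (Int.fract z) (1 / 2) with h | h
  · exact Or.inl ⟨_, ⟨trivial, Int.fract_nonneg z, h⟩, e⟩
  · exact Or.inr ⟨_, ⟨trivial, h, (Int.fract_lt_one z).le⟩, e⟩

lemma solh_inter : solhS 0 (1 / 2) ∩ solhS (1 / 2) 1 = solhS 0 0 ∪ solhS (1 / 2) (1 / 2) := by
  apply Subset.antisymm
  · rintro _ ⟨⟨x, ⟨-, h1, h2⟩, rfl⟩, y, ⟨-, h3, h4⟩, e⟩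
    obtain ⟨-, n, e2⟩ := (pc_eq_iff y x).1 e
    rcases le_or_gt 0 n with h | h
    · have : (0 : ℝ) ≤ n := by exact_mod_cast h
      exact Or.inr ⟨x, ⟨trivial, by linarith, h2⟩, rfl⟩
    · have : (n : ℝ) ≤ -1 := by exact_mod_cast (show n ≤ -1 by omega)
      exact Or.inl ⟨x, ⟨trivial, h1, by linarith⟩, rfl⟩
  · rintro _ (⟨x, ⟨-, h1, h2⟩, rfl⟩ | ⟨x, ⟨-, h1, h2⟩, rfl⟩)
    · refine ⟨⟨x, ⟨trivial, h1, by linarith⟩, rfl⟩, (x.1, 1), ⟨trivial, by norm_num, le_rfl⟩,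
        (pc_eq_iff _ _).2 ⟨rfl, -1, ?_⟩⟩
      rw [le_antisymm h2 h1]
      simp
    · exact ⟨⟨x, ⟨trivial, by linarith, h2⟩, rfl⟩, x, ⟨trivial, h1, by linarith⟩, rfl⟩

lemma solh_disj : solhS 0 0 ∩ solhS (1 / 2) (1 / 2) = ∅ := by
  refine eq_empty_of_forall_notMem ?_
  rintro _ ⟨⟨x, ⟨-, h1, h2⟩, rfl⟩, y, ⟨-, h3, h4⟩, e⟩
  obtain ⟨-, n, e2⟩ := (pc_eq_iff y x).1 e
  have h5 : (2 * n : ℝ) = -1 := by linarith
  have : 2 * n = -1 := by exact_mod_cast h5
  omega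

theorem van_solid : Van (1 : Solid → Solid → ℂ) 2 univ ∅ := by
  have h1 : Van (1 : Solid → Solid → ℂ) 1 (solhS 0 0 ∪ solhS (1 / 2) (1 / 2)) ∅ := by
    refine van_mid 1 ((van_exc 1 (solh_closed _ _) (solh_closed _ _)).2 ?_)
      (solh_van 0 (by norm_num)) (Coc_one _) subset_union_right (empty_subset _)
    rw [solh_disj]
    exact solh_van 0 (by norm_num)
  rw [← solh_inter] at h1
  rw [← solh_union]
  exact van_mid 2 ((van_exc 2 (solh_closed _ _) (solh_closed _ _)).2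
    (van_left 1 h1 (solh_van 1 (by norm_num)) (Coc_one _) inter_subset_left (empty_subset _)))
    (solh_van 1 (by norm_num)) (Coc_one _) subset_union_right (empty_subset _)

end Pool.Agent.P.MP_3d25f3_gt
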