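import Pool.Agent.P.MP_3d25f3_gt.AnnA
import Pool.Agent.P.MP_3d25f3_gt.SolH

set_option autoImplicit false

open Set Filter Topology

namespace Pool.Agent.P.MP_3d25f3_gt

variable {g : ℕ} {S : List (ℕ × ℤ)}

lemma annb_pullD (c : List (Seifert g S) → ℂ) :
    D (1 : Solid → Solid → ℂ) (pull (pm g S) 1 c) = pull (pm g S) 1 (D 1 c) :=
  pull_D_eq (1 : Seifert g S → Seifert g S → ℂ) (pm g S) c

lemma annb_exists_m (hS : Data S) (m₀ : ℕ) :
    ∃ m ≥ m₀, 0 < m ∧ ∀ e < NE g S, (pr g S e).1 ∣ m := by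
  have hp : 0 < ∏ e ∈ Finset.range (NE g S), (pr g S e).1 :=
    Finset.prod_pos fun e _ => (pr_data hS e).1
  refine ⟨(m₀ + 1) * ∏ e ∈ Finset.range (NE g S), (pr g S e).1, ?_, by positivity, ?_⟩
  · calc m₀ ≤ (m₀ + 1) * 1 := by omega
      _ ≤ _ := Nat.mul_le_mul_left _ hp
  · intro e he
    exact Dvd.dvd.mul_left (Finset.dvd_prod_of_mem _ (Finset.mem_range.2 he)) _

theorem Ev.zero (hS : Data S) {w : List (Seifert g S) → ℂ} {s : ℂ} (h : Ev g S w s)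
    (hw : w ∈ Bc (1 : Seifert g S → Seifert g S → ℂ) 3 univ ∅) : s = 0 := by
  obtain ⟨b, hb, m₀, hm₀⟩ := h
  obtain ⟨c, -, hc⟩ := mem_Bc.1 hw
  have h1 : pull (pm g S) 1 (w - D 1 c) ∈ Null ℂ 3 (univ : Set Solid) :=
    pull_Null 1 (fun x _ => continuous_pm.continuousAt) (mapsTo_univ _ _) hc
  have h2 : b - pull (pm g S) 1 c ∈ Zc (1 : Solid → Solid → ℂ) 2 univ ∅ := by
    refine mem_Zc.2 ⟨by simp, ?_⟩
    have h3 := add_mem hb h1
    have h4 : D 1 (b - pull (pm g S) 1 c)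
        = D 1 b - pull (pm g S) 1 w + pull (pm g S) 1 (w - D 1 c) := by
      rw [map_sub, map_sub, annb_pullD]
      abel
    rw [h4]
    exact h3
  obtain ⟨a, -, ha⟩ := mem_Bc.1 (van_solid h2)
  obtain ⟨m₁, hm₁⟩ := evT_Null (g := g) (S := S) ha
  obtain ⟨m, hm, hpos, hd⟩ := annb_exists_m (g := g) hS (max m₀ m₁)
  have e1 := hm₀ m (le_trans (le_max_left _ _) hm) hd
  have e2 := hm₁ m (le_trans (le_max_right _ _) hm)
  have e3 := evT_D hS a hpos hd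
  have e4 := evT_pull (g := g) (S := S) c m
  have e5 := evT_lin (g := g) (S := S) 1 (-1) b (pull (pm g S) 1 c) m
  have e6 := evT_lin (g := g) (S := S) 1 (-1) (b - pull (pm g S) 1 c) (D 1 a) m
  have r5 : (1 : ℂ) • b + (-1 : ℂ) • pull (pm g S) 1 c = b - pull (pm g S) 1 c := by
    rw [one_smul, neg_one_smul, sub_eq_add_neg]
  have r6 : (1 : ℂ) • (b - pull (pm g S) 1 c) + (-1 : ℂ) • D 1 a
      = b - pull (pm g S) 1 c - D 1 a := by
    rw [one_smul, neg_one_smul, ← sub_eq_add_neg]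
  rw [r5] at e5
  rw [r6, e2, e3, e5, e4, e1] at e6
  linear_combination -e6

/-- the primitive of the triple product -/
noncomputable def annb_b (g : ℕ) (S : List (ℕ × ℤ)) (n : Seifert g S → Seifert g S → ℤ)
    (E E' : Disc → ℂ) : List Solid → ℂ
  | [y0, y1, y2] => E y0.1 * (n (pm g S y0) (pm g S y1) : ℂ) * starRingEnd ℂ (E' y2.1 - E' y1.1)
  | _ => 0

lemma annb_b_apply (n : Seifert g S → Seifert g S → ℤ) (E E' : Disc → ℂ) (y0 y1 y2 : Solid) :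
    annb_b g S n E E' [y0, y1, y2]
      = E y0.1 * (n (pm g S y0) (pm g S y1) : ℂ) * starRingEnd ℂ (E' y2.1 - E' y1.1) := rfl

lemma annb_unit {ω : ℂˣ} (hω : ‖(ω : ℂ)‖ = 1) (k : ℤ) :
    ((ω ^ k : ℂˣ) : ℂ) * starRingEnd ℂ ((ω ^ k : ℂˣ) : ℂ) = 1 := by
  rw [Complex.mul_conj, Complex.normSq_eq_norm_sq, Units.val_zpow_eq_zpow_val, norm_zpow, hω]
  simp

lemma annb_wf {Z : Type} (ω : ℂˣ) (n : Z → Z → ℤ) (v v' : List Z → ℂ) (x0 x1 x2 x3 : Z) :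
    wf ω n v v' [x0, x1, x2, x3] = v [x0, x1] * (((ω⁻¹ ^ n x0 x1 : ℂˣ) : ℂ) *
      starRingEnd ℂ ((n x1 x2 : ℂ) * (((ω ^ n x1 x2 : ℂˣ) : ℂ) * v' [x2, x3]))) := rfl

lemma annb_key {ω : ℂˣ} (hω : ‖(ω : ℂ)‖ = 1) {A0 A1 A2 : ℤ} {p q P Q : ℂ}
    (hp : ((ω ^ A0 : ℂˣ) : ℂ) * p = P) (hq : ((ω ^ A2 : ℂˣ) : ℂ) * q = Q) (r : ℤ) :
    p * (((ω⁻¹ ^ (A1 - A0) : ℂˣ) : ℂ) *
      starRingEnd ℂ ((r : ℂ) * (((ω ^ (A2 - A1) : ℂˣ) : ℂ) * q))) = P * r * starRingEnd ℂ Q := by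
  have h1 : ((ω⁻¹ ^ (A1 - A0) : ℂˣ) : ℂ) = ((ω ^ A0 : ℂˣ) : ℂ) * ((ω ^ (-A1) : ℂˣ) : ℂ) := by
    rw [← Units.val_mul, ← zpow_add, inv_zpow', neg_sub, sub_eq_add_neg]
  have h2 : ((ω ^ (A2 - A1) : ℂˣ) : ℂ) = ((ω ^ A2 : ℂˣ) : ℂ) * ((ω ^ (-A1) : ℂˣ) : ℂ) := by
    rw [← Units.val_mul, ← zpow_add, sub_eq_add_neg]
  have h3 := annb_unit hω (-A1)
  rw [h1, h2, ← hp, ← hq]
  simp only [map_mul, map_intCast]
  linear_combination (p * ((ω ^ A0 : ℂˣ) : ℂ) * (r : ℂ) * starRingEnd ℂ ((ω ^ A2 : ℂˣ) : ℂ)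
    * starRingEnd ℂ q) * h3

lemma annb_null {n : Seifert g S → Seifert g S → ℤ} {A : Cov → ℤ} {N : ℤ} {ne : ℕ → ℤ}
    (h : Per g S n A N ne) {ω : ℂˣ} (hω : ‖(ω : ℂ)‖ = 1)
    {v v' : List (Seifert g S) → ℂ} {E E' : Disc → ℂ} (hr : Prim g S ω A v fun y => E y.1)
    (hr' : Prim g S ω A v' fun y => E' y.1) :
    D 1 (annb_b g S n E E') - pull (pm g S) 1 (wf ω n v v') ∈ Null ℂ 3 (univ : Set Solid) := by
  intro y _
  obtain ⟨z, rfl⟩ := pc_surj y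
  obtain ⟨U1, hU1, h1⟩ := h.prim z
  obtain ⟨U2, hU2, h2⟩ := hr z
  obtain ⟨U3, hU3, h3⟩ := hr' z
  refine ⟨pc '' (U1 ∩ U2 ∩ U3), isOpenMap_pc.image_mem_nhds (inter_mem (inter_mem hU1 hU2) hU3), ?_⟩
  intro l hl hU
  match l, hl, hU with
  | [y0, y1, y2, y3], _, hU =>
    obtain ⟨a0, ha0, rfl⟩ := hU y0 (by simp)
    obtain ⟨a1, ha1, rfl⟩ := hU y1 (by simp)
    obtain ⟨a2, ha2, rfl⟩ := hU y2 (by simp)
    obtain ⟨a3, ha3, rfl⟩ := hU y3 (by simp)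
    have n01 : n (pm g S (pc a0)) (pm g S (pc a1)) = A a1 - A a0 := h1 a0 ha0.1.1 a1 ha1.1.1
    have n12 : n (pm g S (pc a1)) (pm g S (pc a2)) = A a2 - A a1 := h1 a1 ha1.1.1 a2 ha2.1.1
    have n02 : n (pm g S (pc a0)) (pm g S (pc a2)) = A a2 - A a0 := h1 a0 ha0.1.1 a2 ha2.1.1
    have p01 := h2 a0 ha0.1.2 a1 ha1.1.2
    have q23 := h3 a2 ha2.2 a3 ha3.2
    have hw : pull (pm g S) 1 (wf ω n v v') [pc a0, pc a1, pc a2, pc a3]
        = (E a1.1 - E a0.1) * ((A a2 - A a1 : ℤ) : ℂ) * starRingEnd ℂ (E' a3.1 - E' a2.1) := by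
      rw [pull_cons, Pi.one_apply, one_mul]
      show wf ω n v v' [pm g S (pc a0), pm g S (pc a1), pm g S (pc a2), pm g S (pc a3)] = _
      rw [annb_wf, n01, n12]
      exact annb_key hω p01 q23 _
    rw [Pi.sub_apply, hw, D_four, annb_b_apply, annb_b_apply, annb_b_apply, annb_b_apply,
      n01, n12, n02]
    simp only [pc, Pi.one_apply, map_sub]
    push_cast
    ring

lemma annb_mem {a m : ℕ} (ha : a ≤ m) : (a : ℝ) / m ∈ Icc (0 : ℝ) 1 :=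
  ⟨by positivity, div_le_one_of_le₀ (by exact_mod_cast ha) (by positivity)⟩

lemma annb_sq {n : Seifert g S → Seifert g S → ℤ} {A : Cov → ℤ} {ne : ℕ → ℤ}
    {ω : ℂˣ} (hω : ‖(ω : ℂ)‖ = 1) {x x' : ZMod (LL g S) → ℂ}
    {v v' : List (Seifert g S) → ℂ} {E E' : Disc → ℂ} (hr : IsRep g S ω A ne x v E)
    (hr' : IsRep g S ω A ne x' v' E') {e m a c : ℕ} (he : e < NE g S) (ha : a < m) :
    sqr (annb_b g S n E E') (fun a c => pc (uA g S e m a c)) a c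
      - sqr (annb_b g S n E E') (fun a c => pc (uB g S e m a c)) a c
      = vv g (fun e => ((ω ^ ne e : ℂˣ) : ℂ)) x e * starRingEnd ℂ ((ω ^ ne e : ℂˣ) : ℂ) *
        ((n (pp g S (uA g S e m a c)) (pp g S (uA g S e m a (c + 1))) : ℂ) *
          starRingEnd ℂ (E' (bp (LL g S) (st g e + ((a + 1 : ℕ) : ℝ) / m))
            - E' (bp (LL g S) (st g e + (a : ℝ) / m)))) := by
  have m0 := annb_mem ha.le
  have m1 : ((a + 1 : ℕ) : ℝ) / m ∈ Icc (0 : ℝ) 1 := annb_mem ha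
  have gl : ∀ c' : ℕ, pm g S (pc (uB g S e m a c')) = pp g S (uA g S e m a c') :=
    fun c' => pp_glue he m0 _
  have gA : ∀ c' : ℕ, pm g S (pc (uA g S e m a c')) = pp g S (uA g S e m a c') := fun _ => rfl
  have fA : ∀ a' c' : ℕ, (pc (uA g S e m a' c')).1 = bp (LL g S) (st g e + (a' : ℝ) / m) :=
    fun _ _ => rfl
  have fB : ∀ a' c' : ℕ,
      (pc (uB g S e m a' c')).1 = bp (LL g S) (st g e + wd g e - (a' : ℝ) / m) := fun _ _ => rfl
  have hu := annb_unit hω (ne e)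
  simp only [sqr, annb_b_apply, fA, fB, gl, gA, sub_self, map_zero, mul_zero]
  rw [hr.arc e he _ m0, hr'.arc e he _ m0, hr'.arc e he _ m1]
  simp only [map_sub, map_add, map_mul]
  linear_combination (E (bp (LL g S) (st g e + (a : ℝ) / m)) *
    (n (pp g S (uA g S e m a c)) (pp g S (uA g S e m a (c + 1))) : ℂ) *
    (starRingEnd ℂ (E' (bp (LL g S) (st g e + ((a + 1 : ℕ) : ℝ) / m)))
      - starRingEnd ℂ (E' (bp (LL g S) (st g e + (a : ℝ) / m))))) * hu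

theorem ev_wf {n : Seifert g S → Seifert g S → ℤ} {A : Cov → ℤ} {N : ℤ} {ne : ℕ → ℤ}
    (h : Per g S n A N ne) {ω : ℂˣ} (hω : ‖(ω : ℂ)‖ = 1) {x x' : ZMod (LL g S) → ℂ}
    {v v' : List (Seifert g S) → ℂ} {E E' : Disc → ℂ} (hr : IsRep g S ω A ne x v E)
    (hr' : IsRep g S ω A ne x' v' E') :
    Ev g S (wf ω n v v') (-Complex.I * N * area g S (fun e => ((ω ^ ne e : ℂˣ) : ℂ)) x x') := by
  refine ⟨annb_b g S n E E', annb_null h hω hr.prim hr'.prim, ?_⟩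
  obtain ⟨m₀, hm₀⟩ := fine (g := g) (S := S)
    (P := fun U => ∀ a ∈ U, ∀ b ∈ U, n (pp g S a) (pp g S b) = A b - A a) h.prim
  refine ⟨max m₀ 1, fun m hm _ => ?_⟩
  have hm1 : 0 < m := le_trans (le_max_right _ _) hm
  have hmR : (m : ℝ) ≠ 0 := by positivity
  have hcol : ∀ e < NE g S, ∀ a < m, ∑ c ∈ Finset.range m,
      (n (pp g S (uA g S e m a c)) (pp g S (uA g S e m a (c + 1))) : ℂ) = N := by
    intro e he a ha
    have h1 : ∀ c ∈ Finset.range m,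
        (n (pp g S (uA g S e m a c)) (pp g S (uA g S e m a (c + 1))) : ℂ)
          = (A (uA g S e m a (c + 1)) : ℂ) - A (uA g S e m a c) := by
      intro c hc
      obtain ⟨⟨U, hU, hmem⟩, -⟩ := hm₀ m (le_trans (le_max_left _ _) hm) e he a ha.le c
        (Finset.mem_range.1 hc).le
      have := hU _ (hmem 0 (by omega) 0 (by omega)) _ (hmem 0 (by omega) 1 (by omega))
      simp only [add_zero] at this
      rw [this]
      push_cast
      ring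
    rw [Finset.sum_congr rfl h1, Finset.sum_range_sub (fun c => (A (uA g S e m a c) : ℂ))]
    have h2 := h.per (bp (LL g S) (st g e + (a : ℝ) / m)) 0
    have h3 : uA g S e m a m = (bp (LL g S) (st g e + (a : ℝ) / m), 0 + 1) := by
      simp [uA, ga, div_self hmR]
    have h4 : uA g S e m a 0 = (bp (LL g S) (st g e + (a : ℝ) / m), 0) := by
      simp [uA, ga]
    rw [h3, h4, h2]
    push_cast
    ring
  have harc : ∀ e ∈ Finset.range (NE g S), ∑ a ∈ Finset.range m, ∑ c ∈ Finset.range m,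
      (sqr (annb_b g S n E E') (fun a c => pc (uA g S e m a c)) a c
        - sqr (annb_b g S n E E') (fun a c => pc (uB g S e m a c)) a c)
      = N * (vv g (fun e => ((ω ^ ne e : ℂˣ) : ℂ)) x e * starRingEnd ℂ ((ω ^ ne e : ℂˣ) : ℂ) *
        starRingEnd ℂ (x' ((st g e + 1 : ℕ) : ZMod _) - x' ((st g e : ℕ) : ZMod _))) := by
    intro e he
    have he' := Finset.mem_range.1 he
    have h1 : ∀ a ∈ Finset.range m, ∑ c ∈ Finset.range m,
        (sqr (annb_b g S n E E') (fun a c => pc (uA g S e m a c)) a c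
          - sqr (annb_b g S n E E') (fun a c => pc (uB g S e m a c)) a c)
        = N * (vv g (fun e => ((ω ^ ne e : ℂˣ) : ℂ)) x e * starRingEnd ℂ ((ω ^ ne e : ℂˣ) : ℂ)) *
          (starRingEnd ℂ (E' (bp (LL g S) (st g e + ((a + 1 : ℕ) : ℝ) / m)))
            - starRingEnd ℂ (E' (bp (LL g S) (st g e + (a : ℝ) / m)))) := by
      intro a ha
      have ha' := Finset.mem_range.1 ha
      rw [Finset.sum_congr rfl fun c _ => annb_sq hω hr hr' he' ha', ← Finset.mul_sum,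
        ← Finset.sum_mul, hcol e he' a ha', map_sub]
      ring
    rw [Finset.sum_congr rfl h1, ← Finset.mul_sum, Finset.sum_range_sub
      (fun a : ℕ => starRingEnd ℂ (E' (bp (LL g S) (st g e + (a : ℝ) / m)))), div_self hmR,
      map_sub, ← hr'.vert, ← hr'.vert]
    push_cast
    rw [zero_div, add_zero]
    ring
  unfold evT
  rw [Finset.sum_congr rfl harc, ← Finset.mul_sum, area_apply]
  linear_combination (-(N : ℂ) * ∑ e ∈ Finset.range (NE g S),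
    vv g (fun e => ((ω ^ ne e : ℂˣ) : ℂ)) x e * starRingEnd ℂ ((ω ^ ne e : ℂˣ) : ℂ) *
      starRingEnd ℂ (x' ((st g e + 1 : ℕ) : ZMod _) - x' ((st g e : ℕ) : ZMod _)))
    * (-Complex.I_mul_I)

end Pool.Agent.P.MP_3d25f3_gt
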