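import Pool.Agent.P.MP_3d25f3_gt.Stmt

set_option autoImplicit false

open Set Filter Topology

namespace Pool.Agent.P.MP_3d25f3_gt

variable {Z W : Type} {R R' : Type} [CommRing R] [CommRing R']

/-- augmented coboundary -/
def d0 : (List Z → R) → List Z → R
  | _, [] => 0
  | c, x :: l => c l - d0 (fun l' => c (x :: l')) l

lemma d0_add (a b : List Z → R) (l : List Z) : d0 (a + b) l = d0 a l + d0 b l := by
  induction l generalizing a b with
  | nil => simp [d0]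
  | cons x l ih =>
    have := ih (fun l' => a (x :: l')) (fun l' => b (x :: l'))
    simp only [d0, Pi.add_apply]
    rw [show (fun l' => a (x :: l') + b (x :: l'))
      = (fun l' => a (x :: l')) + (fun l' => b (x :: l')) from rfl, this]
    ring

lemma d0_smul (r : R) (a : List Z → R) (l : List Z) : d0 (r • a) l = r * d0 a l := by
  induction l generalizing a with
  | nil => simp [d0]
  | cons x l ih =>
    have := ih (fun l' => a (x :: l'))
    simp only [d0, Pi.smul_apply, smul_eq_mul]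
    rw [show (fun l' => r * a (x :: l')) = r • (fun l' => a (x :: l')) from rfl, this]
    ring

def Df (τ : Z → Z → R) (c : List Z → R) : List Z → R
  | x :: y :: l => τ x y * c (y :: l) - d0 (fun l' => c (x :: l')) (y :: l)
  | _ => 0

/-- twisted coboundary -/
def D (τ : Z → Z → R) : (List Z → R) →ₗ[R] (List Z → R) where
  toFun := Df τ
  map_add' a b := by
    funext l
    match l with
    | [] => simp [Df]
    | [_] => simp [Df]
    | x :: y :: l =>
      simp only [Df, Pi.add_apply]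
      rw [show (fun l' => a (x :: l') + b (x :: l'))
        = (fun l' => a (x :: l')) + (fun l' => b (x :: l')) from rfl, d0_add]
      ring
  map_smul' r a := by
    funext l
    match l with
    | [] => simp [Df]
    | [_] => simp [Df]
    | x :: y :: l =>
      simp only [Df, Pi.smul_apply, smul_eq_mul, RingHom.id_apply]
      rw [show (fun l' => r * a (x :: l')) = r • (fun l' => a (x :: l')) from rfl, d0_smul]
      ring

@[simp] lemma D_nil (τ : Z → Z → R) (c : List Z → R) : D τ c [] = 0 := rfl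
@[simp] lemma D_one (τ : Z → Z → R) (c : List Z → R) (x : Z) : D τ c [x] = 0 := rfl
lemma D_cons (τ : Z → Z → R) (c : List Z → R) (x y : Z) (l : List Z) :
    D τ c (x :: y :: l) = τ x y * c (y :: l) - d0 (fun l' => c (x :: l')) (y :: l) := rfl
lemma D_two (τ : Z → Z → R) (c : List Z → R) (x y : Z) :
    D τ c [x, y] = τ x y * c [y] - c [x] := by simp [D_cons, d0]
lemma D_three (τ : Z → Z → R) (c : List Z → R) (x y z : Z) :
    D τ c [x, y, z] = τ x y * c [y, z] - c [x, z] + c [x, y] := by simp [D_cons, d0]; ring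
lemma D_four (τ : Z → Z → R) (c : List Z → R) (x y z w : Z) :
    D τ c [x, y, z, w] = τ x y * c [y, z, w] - c [x, z, w] + c [x, y, w] - c [x, y, z] := by
  simp [D_cons, d0]; ring

/-- pull-back along `f` with gauge `ν` -/
def pull (f : W → Z) (ν : W → R) : (List Z → R) →ₗ[R] (List W → R) where
  toFun c := fun l => match l with
    | [] => 0
    | x :: l => ν x * c (f x :: l.map f)
  map_add' a b := by
    funext l
    cases l <;> simp [mul_add]
  map_smul' r a := by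
    funext l
    cases l <;> simp [mul_left_comm]

@[simp] lemma pull_nil (f : W → Z) (ν : W → R) (c : List Z → R) : pull f ν c [] = 0 := rfl
@[simp] lemma pull_cons (f : W → Z) (ν : W → R) (c : List Z → R) (x : W) (l : List W) :
    pull f ν c (x :: l) = ν x * c (f x :: l.map f) := rfl

/-- cup product, `a` of degree `p`, `τ'` the twisting of `b` -/
def cup (τ' : Z → Z → R) (p : ℕ) (a b : List Z → R) : List Z → R
  | [] => 0
  | x :: l => a (x :: l.take p) * (τ' x ((x :: l).getD p x) * b ((x :: l).drop p))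

/-- change of coefficients -/
def cf (φ : R →+* R') : (List Z → R) →ₛₗ[φ] (List Z → R') where
  toFun c := fun l => φ (c l)
  map_add' a b := by funext l; simp
  map_smul' r a := by funext l; simp

@[simp] lemma cf_apply (φ : R →+* R') (c : List Z → R) (l : List Z) : cf φ c l = φ (c l) := rfl

/-- a function of two points as a cochain of degree one -/
def co1 (n : Z → Z → R) : List Z → R
  | [a, b] => n a b
  | _ => 0

/-- twisting by powers of a unit -/
def tw (t : Rˣ) (n : Z → Z → ℤ) : Z → Z → R := fun x y => ((t ^ n x y : Rˣ) : R)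

/-- `τ` is a cocycle on `U` -/
def CocOn (τ : Z → Z → R) (U : Set Z) : Prop :=
  ∀ a ∈ U, τ a a = 1 ∧ ∀ b ∈ U, ∀ c ∈ U, τ a b * τ b c = τ a c

variable [TopologicalSpace Z] [TopologicalSpace W]

/-- cochains of degree `k` that vanish on small lists near every point of `F` -/
def Null (R : Type) [CommRing R] (k : ℕ) (F : Set Z) : Submodule R (List Z → R) where
  carrier := {c | ∀ x ∈ F, ∃ U ∈ 𝓝 x, ∀ l : List Z, l.length = k + 1 → (∀ y ∈ l, y ∈ U) → c l = 0}
  zero_mem' := fun _ _ => ⟨univ, univ_mem, fun _ _ _ => rfl⟩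
  add_mem' := by
    intro a b ha hb x hx
    obtain ⟨U, hU, h1⟩ := ha x hx
    obtain ⟨V, hV, h2⟩ := hb x hx
    exact ⟨U ∩ V, inter_mem hU hV, fun l hl h => by
      rw [Pi.add_apply, h1 l hl fun y hy => (h y hy).1, h2 l hl fun y hy => (h y hy).2, add_zero]⟩
  smul_mem' := by
    intro r a ha x hx
    obtain ⟨U, hU, h1⟩ := ha x hx
    exact ⟨U, hU, fun l hl h => by rw [Pi.smul_apply, h1 l hl h, smul_zero]⟩

lemma mem_Null {k : ℕ} {F : Set Z} {c : List Z → R} : c ∈ Null R k F ↔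
    ∀ x ∈ F, ∃ U ∈ 𝓝 x, ∀ l : List Z, l.length = k + 1 → (∀ y ∈ l, y ∈ U) → c l = 0 := Iff.rfl

lemma Null_mono (k : ℕ) {F G : Set Z} (h : G ⊆ F) : Null R k F ≤ Null R k G :=
  fun _ hc x hx => hc x (h hx)

@[simp] lemma Null_empty (k : ℕ) : Null R k (∅ : Set Z) = ⊤ :=
  eq_top_iff.2 fun _ _ _ hx => hx.elim

def Coc (τ : Z → Z → R) (F : Set Z) : Prop := ∀ x ∈ F, ∃ U ∈ 𝓝 x, CocOn τ U

def CocZ (n : Z → Z → ℤ) (F : Set Z) : Prop :=
  ∀ x ∈ F, ∃ U ∈ 𝓝 x, ∀ a ∈ U, ∀ b ∈ U, ∀ c ∈ U, n a b + n b c = n a c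

/-- the product of two twistings is `τ''` near the diagonal -/
def Mu (τ τ' τ'' : Z → Z → R) (F : Set Z) : Prop :=
  ∀ x ∈ F, ∃ U ∈ 𝓝 x, ∀ a ∈ U, ∀ b ∈ U, τ a b * τ' a b = τ'' a b

/-- `ν` intertwines `τ₀` with the pull-back of `τ` -/
def Itw (τ₀ : W → W → R) (τ : Z → Z → R) (f : W → Z) (ν : W → R) (F : Set W) : Prop :=
  ∀ x ∈ F, ∃ U ∈ 𝓝 x, ∀ a ∈ U, ∀ b ∈ U, τ₀ a b * ν b = ν a * τ (f a) (f b)

/-- `τ` has an invertible section near `F` -/
def Triv (τ : Z → Z → R) (F : Set Z) : Prop :=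
  ∃ ν ν' : Z → R, ∀ x ∈ F, ∃ U ∈ 𝓝 x, ∀ a ∈ U, ν a * ν' a = 1 ∧ ∀ b ∈ U, τ a b * ν b = ν a

def Zc (τ : Z → Z → R) (k : ℕ) (F F' : Set Z) : Submodule R (List Z → R) :=
  Null R k F' ⊓ (Null R (k + 1) F).comap (D τ)

def Bc (τ : Z → Z → R) (k : ℕ) (F F' : Set Z) : Submodule R (List Z → R) :=
  (Null R (k - 1) F').map (D τ) ⊔ Null R k F

lemma mem_Zc {τ : Z → Z → R} {k : ℕ} {F F' : Set Z} {c : List Z → R} :
    c ∈ Zc τ k F F' ↔ c ∈ Null R k F' ∧ D τ c ∈ Null R (k + 1) F := Iff.rfl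

lemma mem_Bc {τ : Z → Z → R} {k : ℕ} {F F' : Set Z} {c : List Z → R} :
    c ∈ Bc τ k F F' ↔ ∃ b ∈ Null R (k - 1) F', c - D τ b ∈ Null R k F := by
  constructor
  · intro h
    obtain ⟨_, ⟨b, hb, rfl⟩, n, hn, rfl⟩ := Submodule.mem_sup.1 h
    exact ⟨b, hb, by simpa using hn⟩
  · rintro ⟨b, hb, h⟩
    exact Submodule.mem_sup.2 ⟨_, ⟨b, hb, rfl⟩, _, h, by simp⟩

lemma Null_le_Bc (τ : Z → Z → R) (k : ℕ) (F F' : Set Z) : Null R k F ≤ Bc τ k F F' := le_sup_right

lemma Zc_mono (τ : Z → Z → R) (k : ℕ) {F F' G G' : Set Z} (h : G ⊆ F) (h' : G' ⊆ F') :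
    Zc τ k F F' ≤ Zc τ k G G' := fun _ hc => ⟨Null_mono k h' hc.1, Null_mono (k + 1) h hc.2⟩

lemma Bc_mono (τ : Z → Z → R) (k : ℕ) {F F' G G' : Set Z} (h : G ⊆ F) (h' : G' ⊆ F') :
    Bc τ k F F' ≤ Bc τ k G G' :=
  sup_le_sup (Submodule.map_mono (Null_mono _ h')) (Null_mono _ h)

/-- twisted Alexander-Spanier cohomology of germs -/
abbrev H (τ : Z → Z → R) (k : ℕ) (F F' : Set Z) : Type :=
  Zc τ k F F' ⧸ (Bc τ k F F').submoduleOf (Zc τ k F F')

/-- class of a cocycle -/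
def cl {τ : Z → Z → R} {k : ℕ} {F F' : Set Z} (c : List Z → R) (h : c ∈ Zc τ k F F') :
    H τ k F F' := Submodule.Quotient.mk ⟨c, h⟩

lemma cl_eq {τ : Z → Z → R} {k : ℕ} {F F' : Set Z} {a b : List Z → R} (ha : a ∈ Zc τ k F F')
    (hb : b ∈ Zc τ k F F') : cl a ha = cl b hb ↔ a - b ∈ Bc τ k F F' := Submodule.Quotient.eq _

lemma cl_eq_zero {τ : Z → Z → R} {k : ℕ} {F F' : Set Z} {a : List Z → R} (ha : a ∈ Zc τ k F F') :
    cl a ha = 0 ↔ a ∈ Bc τ k F F' := Submodule.Quotient.mk_eq_zero _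

lemma cl_surj {τ : Z → Z → R} {k : ℕ} {F F' : Set Z} (x : H τ k F F') : ∃ a ha, cl a ha = x := by
  obtain ⟨⟨a, ha⟩, h⟩ := Submodule.Quotient.mk_surjective _ x
  exact ⟨a, ha, h⟩

lemma cl_add {τ : Z → Z → R} {k : ℕ} {F F' : Set Z} {a b : List Z → R} (ha : a ∈ Zc τ k F F')
    (hb : b ∈ Zc τ k F F') : cl (a + b) (add_mem ha hb) = cl a ha + cl b hb := rfl

lemma cl_sub {τ : Z → Z → R} {k : ℕ} {F F' : Set Z} {a b : List Z → R} (ha : a ∈ Zc τ k F F')
    (hb : b ∈ Zc τ k F F') : cl (a - b) (sub_mem ha hb) = cl a ha - cl b hb := rfl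

lemma cl_smul {τ : Z → Z → R} {k : ℕ} {F F' : Set Z} (r : R) {a : List Z → R}
    (ha : a ∈ Zc τ k F F') : cl (r • a) (Submodule.smul_mem _ r ha) = r • cl a ha := rfl

/-- map induced by a semilinear map of cochains -/
def hmap {φ : R →+* R'} {τ : Z → Z → R} {τ' : W → W → R'} {k k' : ℕ} {F F' : Set Z}
    {G G' : Set W} (f : (List Z → R) →ₛₗ[φ] (List W → R'))
    (hZ : ∀ c ∈ Zc τ k F F', f c ∈ Zc τ' k' G G')
    (hB : ∀ c ∈ Zc τ k F F', c ∈ Bc τ k F F' → f c ∈ Bc τ' k' G G') :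
    H τ k F F' →ₛₗ[φ] H τ' k' G G' :=
  Submodule.mapQ _ _ ((f.domRestrict _).codRestrict _ fun c => hZ c.1 c.2)
    fun c hc => hB c.1 c.2 hc

lemma hmap_cl {φ : R →+* R'} {τ : Z → Z → R} {τ' : W → W → R'} {k k' : ℕ} {F F' : Set Z}
    {G G' : Set W} (f : (List Z → R) →ₛₗ[φ] (List W → R'))
    (hZ : ∀ c ∈ Zc τ k F F', f c ∈ Zc τ' k' G G')
    (hB : ∀ c ∈ Zc τ k F F', c ∈ Bc τ k F F' → f c ∈ Bc τ' k' G G') (c : List Z → R)
    (hc : c ∈ Zc τ k F F') : hmap f hZ hB (cl c hc) = cl (f c) (hZ c hc) := rfl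

/-- restriction -/
def res (τ : Z → Z → R) (k : ℕ) {F F' G G' : Set Z} (h : G ⊆ F) (h' : G' ⊆ F') :
    H τ k F F' →ₗ[R] H τ k G G' :=
  hmap LinearMap.id (fun _ hc => Zc_mono τ k h h' hc) (fun _ _ hc => Bc_mono τ k h h' hc)

lemma res_cl (τ : Z → Z → R) (k : ℕ) {F F' G G' : Set Z} (h : G ⊆ F) (h' : G' ⊆ F')
    (c : List Z → R) (hc : c ∈ Zc τ k F F') :
    res τ k h h' (cl c hc) = cl c (Zc_mono τ k h h' hc) := rfl

/-- vanishing of a cohomology group -/
def Van (τ : Z → Z → R) (k : ℕ) (F F' : Set Z) : Prop := Zc τ k F F' ≤ Bc τ k F F'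

end Pool.Agent.P.MP_3d25f3_gt
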