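import Pool.Agent.P.MP_3d25f3_gt.Per

set_option autoImplicit false

open Set Filter Topology

namespace Pool.Agent.P.MP_3d25f3_gt

open Module

variable {g : ℕ} {S : List (ℕ × ℤ)} {k : Type} [Field k]

/-- primitive and periods of an untwisted cocycle -/
def bet_Dat (g : ℕ) (S : List (ℕ × ℤ)) (v : List (Seifert g S) → k) (vh : k) (ve : ℕ → k) : Prop :=
  ∃ E : Cov → k, Prim g S (1 : kˣ) (fun _ => 0) v E ∧ (∀ y z, E (y, z + 1) = E (y, z) + vh) ∧
    ∀ e < NE g S, ∀ s ∈ Icc (0 : ℝ) 1, ∀ z, E (gb g S e s z) = E (ga g S e s z) + ve e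

lemma bet_per : Per g S (fun _ _ => 0) (fun _ => 0) 0 (fun _ => 0) :=
  ⟨fun _ => ⟨univ, univ_mem, fun _ _ _ _ => by simp⟩, fun _ _ => by simp,
    fun _ _ _ _ _ => by simp⟩

lemma bet_coc : CocZ (fun _ _ : Seifert g S => (0 : ℤ)) univ :=
  fun _ _ => ⟨univ, univ_mem, fun _ _ _ _ _ _ => by simp⟩

lemma bet_tw : tw (1 : kˣ) (fun _ _ : Seifert g S => (0 : ℤ)) = 1 := by
  funext x y
  simp [tw]

lemma bet_ex {v : List (Seifert g S) → k}
    (hv : v ∈ Zc (1 : Seifert g S → Seifert g S → k) 1 univ ∅) : ∃ vh ve, bet_Dat g S v vh ve := by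
  rw [← bet_tw] at hv
  obtain ⟨E, hE⟩ := exists_prim bet_per hv
  obtain ⟨vh, ve, h1, h2⟩ := Prim.data bet_per hE
  refine ⟨vh, ve, E, hE, fun y z => ?_, fun e he s hs z => ?_⟩
  · simpa using h1 y z
  · simpa using h2 e he s hs z

lemma bet_lin {v v' : List (Seifert g S) → k} {vh vh' : k} {ve ve' : ℕ → k}
    (h : bet_Dat g S v vh ve) (h' : bet_Dat g S v' vh' ve') (a b : k) :
    bet_Dat g S (a • v + b • v') (a * vh + b * vh') (fun e => a * ve e + b * ve' e) := by
  obtain ⟨E, hE, h1, h2⟩ := h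
  obtain ⟨E', hE', h1', h2'⟩ := h'
  refine ⟨_, hE.sub hE' a b, fun y z => ?_, fun e he s hs z => ?_⟩
  · simp only [h1, h1']
    ring
  · simp only [h2 e he s hs z, h2' e he s hs z]
    ring

lemma bet_zero {v : List (Seifert g S) → k} {vh : k} {ve : ℕ → k} (h : bet_Dat g S v vh ve)
    (hv : v ∈ Bc (1 : Seifert g S → Seifert g S → k) 1 univ ∅) :
    vh = 0 ∧ ∀ e < NE g S, ve e = 0 := by
  obtain ⟨E, hE, h1, h2⟩ := h
  rw [← bet_tw] at hv
  obtain ⟨C, h3, h4⟩ := Prim.of_Bc bet_per hv hE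
  refine ⟨?_, fun e he => ?_⟩
  · have h5 := h3 ⟨0, by simp⟩ 0
    rw [h1] at h5
    simp only [zpow_zero, Units.val_one, one_mul] at h5
    linear_combination h5
  · have h5 := h4 e he 0 ⟨le_rfl, zero_le_one⟩ 0
    rw [h2 e he 0 ⟨le_rfl, zero_le_one⟩ 0] at h5
    simp only [zpow_zero, Units.val_one, one_mul] at h5
    linear_combination h5

lemma bet_mem [T2Space (Seifert g S)] {v : List (Seifert g S) → k} {vh : k} {ve : ℕ → k}
    (h : bet_Dat g S v vh ve) (hv : v ∈ Zc (1 : Seifert g S → Seifert g S → k) 1 univ ∅)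
    (h1 : vh = 0) (h2 : ∀ e < NE g S, ve e = 0) :
    v ∈ Bc (1 : Seifert g S → Seifert g S → k) 1 univ ∅ := by
  obtain ⟨E, hE, h3, h4⟩ := h
  rw [← bet_tw] at hv ⊢
  refine Prim.mem_Bc bet_coc bet_per hv hE (fun y z => ?_) (fun e he s hs z => ?_)
  · simp [h3, h1]
  · simp [h4 e he s hs z, h2 e he]

lemma bet_uniq {v v' : List (Seifert g S) → k} {vh vh' : k} {ve ve' : ℕ → k}
    (h : bet_Dat g S v vh ve) (h' : bet_Dat g S v' vh' ve')
    (hv : v - v' ∈ Bc (1 : Seifert g S → Seifert g S → k) 1 univ ∅) :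
    vh = vh' ∧ ∀ e < NE g S, ve e = ve' e := by
  have h1 := bet_lin h h' 1 (-1)
  rw [show (1 : k) • v + (-1 : k) • v' = v - v' by simp [sub_eq_add_neg]] at h1
  obtain ⟨h2, h3⟩ := bet_zero h1 hv
  refine ⟨by linear_combination h2, fun e he => ?_⟩
  linear_combination h3 e he

lemma bet_int {f : ℝ → k} {c : ℝ} {a : k} (h : ∀ z, f (z + c) = f z + a) (m : ℤ) (z : ℝ) :
    f (z + m * c) = f z + m * a := by
  induction m using Int.induction_on with
  | zero => simp
  | succ i ih =>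
    have h1 := h (z + ((i : ℤ) : ℝ) * c)
    rw [show z + (((i : ℤ) + 1 : ℤ) : ℝ) * c = z + ((i : ℤ) : ℝ) * c + c by push_cast; ring, h1, ih]
    push_cast
    ring
  | pred i ih =>
    have h1 := h (z + ((-(i : ℤ) - 1 : ℤ) : ℝ) * c)
    rw [show z + ((-(i : ℤ) - 1 : ℤ) : ℝ) * c + c = z + ((-(i : ℤ) : ℤ) : ℝ) * c by
      push_cast; ring, ih] at h1
    push_cast at h1 ⊢
    linear_combination -h1

lemma bet_slit (hS : Data S) {v : List (Seifert g S) → k} {vh : k} {ve : ℕ → k}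
    (h : bet_Dat g S v vh ve) {e : ℕ} (h1 : 2 * g ≤ e) (h2 : e < NE g S) :
    (pr g S e).1 * ve e = (pr g S e).2 * vh := by
  obtain ⟨E, -, h3, h4⟩ := h
  have hw : wd g e = 2 := by simp [wd, not_lt.2 h1]
  have h5 : ∀ z, E (bp (LL g S) (st g e + 1), z + sh g S e)
      = E (bp (LL g S) (st g e + 1), z) + ve e := by
    intro z
    have h6 := h4 e h2 1 ⟨zero_le_one, le_rfl⟩ z
    simp only [ga, gb, hw, one_mul] at h6
    rw [show ((st g e : ℝ) + ((2 : ℕ) : ℝ) - 1) = st g e + 1 by push_cast; ring] at h6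
    exact h6
  have h6 := bet_int (f := fun z => E (bp (LL g S) (st g e + 1), z)) h5 ((pr g S e).1 : ℤ) 0
  have h7 := bet_int (f := fun z => E (bp (LL g S) (st g e + 1), z)) (h3 _) (pr g S e).2 0
  have h8 : ((pr g S e).1 : ℝ) ≠ 0 := by
    have := (pr_data (g := g) hS e).1
    positivity
  rw [show (((pr g S e).1 : ℤ) : ℝ) * sh g S e = ((pr g S e).2 : ℝ) * 1 by
    rw [sh]; push_cast; field_simp] at h6
  rw [h7] at h6
  push_cast at h6
  linear_combination -h6

lemma bet_sum {v : List (Seifert g S) → k} {vh : k} {ve : ℕ → k} (h : bet_Dat g S v vh ve) :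
    ∑ e ∈ Finset.range (NE g S), (if 2 * g ≤ e then ve e else 0) = 0 := by
  obtain ⟨E, -, -, h4⟩ := h
  have h1 := tel (g := g) (S := S) (fun j : ℕ => E (bp (LL g S) j, 0))
  have h2 : bp (LL g S) ((0 : ℕ) : ℝ) = bp (LL g S) ((LL g S : ℕ) : ℝ) :=
    (bp_eq_iff (NeZero.ne _) _ _).2 ⟨1, by simp⟩
  simp only [h2, sub_self] at h1
  refine Eq.trans ?_ h1
  refine Finset.sum_congr rfl fun e he => ?_
  have he' := Finset.mem_range.1 he
  have h5 := h4 e he' 0 ⟨le_rfl, zero_le_one⟩ 0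
  simp only [ga, gb, zero_mul, add_zero, sub_zero] at h5
  have h7 : ((st g e + wd g e - 1 : ℕ) : ℝ) = st g e + wd g e - 1 := by
    have := wd_ge (g := g) e
    rw [Nat.cast_sub (by omega)]
    push_cast
    ring
  rw [h7]
  push_cast
  split_ifs with hc
  · have hw : wd g e = 2 := by simp [wd, not_lt.2 hc]
    rw [h5, hw, show ((st g e : ℝ) + ((2 : ℕ) : ℝ) - 1) = st g e + 1 by push_cast; ring]
    ring
  · have h6 := h4 e he' 1 ⟨zero_le_one, le_rfl⟩ 0
    have hs : sh g S e = 0 := by simp [sh, pr, not_le.1 hc]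
    simp only [ga, gb, hs, mul_zero, add_zero] at h6
    rw [h5, h6]
    ring

/-- the periods of an untwisted class -/
lemma exists_periods [T2Space (Seifert g S)] (hS : Data S) :
    ∃ Φ : H (1 : Seifert g S → Seifert g S → k) 1 univ ∅ →ₗ[k] k × (Fin (NE g S) → k),
      Function.Injective Φ ∧ ∀ x,
        (∀ e : Fin (NE g S), 2 * g ≤ e → (pr g S e).1 * (Φ x).2 e = (pr g S e).2 * (Φ x).1) ∧
        ∑ e : Fin (NE g S), (if 2 * g ≤ e then (Φ x).2 e else 0) = 0 := by
  choose r hr hc using fun x : H (1 : Seifert g S → Seifert g S → k) 1 univ ∅ => cl_surj x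
  choose vh ve hd using fun x => bet_ex (hr x)
  have hl : ∀ (a b : k) x y, vh (a • x + b • y) = a * vh x + b * vh y ∧
      ∀ e < NE g S, ve (a • x + b • y) e = a * ve x e + b * ve y e := by
    intro a b x y
    refine bet_uniq (hd _) (bet_lin (hd x) (hd y) a b) ?_
    refine (cl_eq (hr _) (add_mem (Submodule.smul_mem _ a (hr x))
      (Submodule.smul_mem _ b (hr y)))).1 ?_
    rw [cl_add (Submodule.smul_mem _ a (hr x)) (Submodule.smul_mem _ b (hr y)), cl_smul a (hr x),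
      cl_smul b (hr y), hc, hc, hc]
  refine ⟨⟨⟨fun x => (vh x, fun e => ve x e), fun x y => ?_⟩, fun a x => ?_⟩, ?_, fun x => ⟨?_, ?_⟩⟩
  · have h1 := hl 1 1 x y
    simp only [one_smul, one_mul] at h1
    exact Prod.ext h1.1 (funext fun e => h1.2 e e.2)
  · have h1 := hl a 0 x x
    simp only [zero_smul, zero_mul, add_zero] at h1
    exact Prod.ext h1.1 (funext fun e => h1.2 e e.2)
  · refine (injective_iff_map_eq_zero _).2 fun x hx => ?_
    have h1 : vh x = 0 := congrArg Prod.fst hx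
    have h2 : ∀ e < NE g S, ve x e = 0 := fun e he => congrFun (congrArg Prod.snd hx) ⟨e, he⟩
    rw [← hc x]
    exact (cl_eq_zero (hr x)).2 (bet_mem (hd x) (hr x) h1 h2)
  · exact fun e he => bet_slit hS (hd x) he e.2
  · exact (Fin.sum_univ_eq_sum_range (fun e => if 2 * g ≤ e then ve x e else 0) _).trans
      (bet_sum (hd x))

lemma bet_fin {V ι : Type} [AddCommGroup V] [Module k V] [Fintype ι] (f : ι → V →ₗ[k] k)
    (h : ∀ x, (∀ i, f i x = 0) → x = 0) : finrank k V ≤ Fintype.card ι := by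
  rw [← finrank_fintype_fun_eq_card k]
  refine LinearMap.finrank_le_finrank_of_injective (f := LinearMap.pi f) ?_
  exact (injective_iff_map_eq_zero _).2 fun x hx => h x fun i => congrFun hx i

lemma bet_lt (i : Fin (2 * g)) : (i : ℕ) < NE g S := by
  have := i.2
  unfold NE
  omega

theorem b1_le [T2Space (Seifert g S)] (hS : Data S) (h : ∀ p ∈ S, (p.1 : k) ≠ 0) :
    finrank k (H (1 : Seifert g S → Seifert g S → k) 1 univ ∅) ≤ 2 * g + 1 := by
  obtain ⟨Φ, hi, hΦ⟩ := exists_periods (g := g) (k := k) hS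
  have h1 := bet_fin (ι := Option (Fin (2 * g))) (fun i => match i with
    | none => (LinearMap.fst k _ _).comp Φ
    | some i => ((LinearMap.proj (⟨i, bet_lt i⟩ : Fin (NE g S))).comp
        (LinearMap.snd k _ _)).comp Φ) ?_
  · simpa using h1
  intro x hx
  have h0 : (Φ x).1 = 0 := hx none
  refine hi ?_
  rw [map_zero]
  refine Prod.ext h0 (funext fun e => ?_)
  by_cases he : (e : ℕ) < 2 * g
  · exact hx (some ⟨e, he⟩)
  · have h2 := (hΦ x).1 e (not_lt.1 he)
    rw [h0, mul_zero] at h2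
    refine (mul_eq_zero.1 h2).resolve_left ?_
    rw [pr, if_neg he]
    by_cases hl : (e : ℕ) - 2 * g < S.length
    · rw [List.getD_eq_getElem _ _ hl]
      exact h _ (List.getElem_mem hl)
    · rw [List.getD_eq_default _ _ (not_lt.1 hl)]
      simp

open Classical in
theorem b1_le' [T2Space (Seifert g S)] (hS : Data S) (h : ∃ p ∈ S, (p.1 : k) = 0) :
    finrank k (H (1 : Seifert g S → Seifert g S → k) 1 univ ∅) + 1 ≤ 2 * g +
      ((Finset.range (S.length + 1)).filter fun i => ((pr g S (2 * g + i)).1 : k) = 0).card := by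
  obtain ⟨Φ, hi, hΦ⟩ := exists_periods (g := g) (k := k) hS
  obtain ⟨p, hp, hp0⟩ := h
  obtain ⟨i0, hi0, rfl⟩ := List.getElem_of_mem hp
  set T := (Finset.range (S.length + 1)).filter fun i => ((pr g S (2 * g + i)).1 : k) = 0 with hT
  have hpr : ((pr g S (2 * g + i0)).1 : k) = 0 := by
    rw [pr, if_neg (by omega), Nat.add_sub_cancel_left, List.getD_eq_getElem _ _ hi0]
    exact hp0
  have hm : i0 ∈ T := Finset.mem_filter.2 ⟨Finset.mem_range.2 (by omega), hpr⟩
  have hlt : ∀ i : (T.erase i0), 2 * g + (i : ℕ) < NE g S := fun i => by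
    have := Finset.mem_range.1 (Finset.mem_filter.1 (Finset.mem_of_mem_erase i.2)).1
    unfold NE
    omega
  have hlt0 : 2 * g + i0 < NE g S := by
    unfold NE
    omega
  have h1 := bet_fin (ι := Fin (2 * g) ⊕ (T.erase i0)) (fun i => match i with
    | Sum.inl i => ((LinearMap.proj (⟨i, bet_lt i⟩ : Fin (NE g S))).comp
        (LinearMap.snd k _ _)).comp Φ
    | Sum.inr i => ((LinearMap.proj (⟨2 * g + i, hlt i⟩ : Fin (NE g S))).comp
        (LinearMap.snd k _ _)).comp Φ) ?_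
  · have h2 := Finset.card_erase_add_one hm
    simp only [Fintype.card_sum, Fintype.card_fin, Fintype.card_coe] at h1
    omega
  intro x hx
  have h0 : (Φ x).1 = 0 := by
    have h2 := (hΦ x).1 ⟨2 * g + i0, hlt0⟩ (Nat.le_add_right _ _)
    simp only [hpr, zero_mul] at h2
    refine (mul_eq_zero.1 h2.symm).resolve_left fun h3 => ?_
    obtain ⟨u, w, huw⟩ := Int.isCoprime_iff_gcd_eq_one.2 (pr_data (g := g) hS (2 * g + i0)).2
    have h4 := congrArg (Int.cast : ℤ → k) huw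
    push_cast at h4
    rw [hpr, h3] at h4
    simp at h4
  have h5 : ∀ e : Fin (NE g S), e ≠ ⟨2 * g + i0, hlt0⟩ → (Φ x).2 e = 0 := by
    intro e hne
    by_cases he : (e : ℕ) < 2 * g
    · exact hx (Sum.inl ⟨e, he⟩)
    · obtain ⟨e, hlt'⟩ := e
      obtain ⟨i, rfl⟩ := Nat.exists_eq_add_of_le (not_lt.1 he)
      by_cases ha : ((pr g S (2 * g + i)).1 : k) = 0
      · refine hx (Sum.inr ⟨i, Finset.mem_erase.2 ⟨fun h6 => hne (by simp [h6]), ?_⟩⟩)
        refine Finset.mem_filter.2 ⟨Finset.mem_range.2 ?_, ha⟩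
        unfold NE at hlt'
        omega
      · have h2 := (hΦ x).1 ⟨2 * g + i, hlt'⟩ (Nat.le_add_right _ _)
        rw [h0, mul_zero] at h2
        exact (mul_eq_zero.1 h2).resolve_left ha
  refine hi ?_
  rw [map_zero]
  refine Prod.ext h0 (funext fun e => ?_)
  by_cases he : e = ⟨2 * g + i0, hlt0⟩
  · have h6 := (hΦ x).2
    rw [Finset.sum_eq_single ⟨2 * g + i0, hlt0⟩ (fun b _ hb => by simp [h5 b hb])
      (fun hb => (hb (Finset.mem_univ _)).elim), if_pos (Nat.le_add_right _ _)] at h6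
    rw [he]
    exact h6
  · exact h5 e he

end Pool.Agent.P.MP_3d25f3_gt
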