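import Pool.Agent.P.MP_3d25f3_gt.Intg

set_option autoImplicit false

open Set Filter Topology

namespace Pool.Agent.P.MP_3d25f3_gt

variable {R : Type} [CommRing R]

def Ub (b : E4 × E4) : Set E4 := {x | ∀ i, b.1 i < x i ∧ x i < b.2 i}

def Kb (b : E4 × E4) : Set E4 := Icc b.1 b.2

/-- finite generation in all degrees -/
def FG (τ : E4 → E4 → R) (F F' : Set E4) : Prop := ∀ k, Module.Finite R (H τ k F F')

lemma box_sub (b : E4 × E4) : Ub b ⊆ Kb b := fun _ hx => ⟨fun i => (hx i).1.le, fun i => (hx i).2.le⟩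

lemma box_cover (b : E4 × E4) : univ ⊆ (Ub b)ᶜ ∪ Kb b := fun x _ => by
  by_cases h : x ∈ Ub b
  · exact Or.inr (box_sub b h)
  · exact Or.inl h

lemma box_open (b : E4 × E4) : IsOpen (Ub b) := by
  have : Ub b = ⋂ i, (fun x : E4 => x i) ⁻¹' Ioo (b.1 i) (b.2 i) := by
    ext x; simp [Ub]
  rw [this]
  exact isOpen_iInter_of_finite fun i => isOpen_Ioo.preimage (continuous_apply i)

lemma box_not_mem {b : E4 × E4} {x : E4} : x ∉ Ub b ↔ ∃ i, x i ≤ b.1 i ∨ b.2 i ≤ x i := by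
  simp only [Ub, mem_ofPred_eq, not_forall, not_and_or, not_lt]

lemma box_mem_out {x : E4} : x ∈ Out 4 ↔ ∃ i, 1 ≤ |x i| := by
  rw [Out, mem_ofPred_eq, ← not_lt, pi_norm_lt_iff zero_lt_one]
  simp only [not_forall, not_lt, Real.norm_eq_abs]

lemma box_mem_ball {x : E4} : x ∈ Metric.closedBall (0 : E4) 1 ↔ ∀ i, |x i| ≤ 1 := by
  rw [mem_closedBall_zero_iff, pi_norm_le_iff_of_nonneg zero_le_one]
  simp only [Real.norm_eq_abs]

lemma box_out_sub {b : E4 × E4} (h1 : Kb b ⊆ Metric.ball 0 1) : Out 4 ⊆ (Ub b)ᶜ :=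
  fun _ hx h => not_lt.2 hx (mem_ball_zero_iff.1 (h1 (box_sub b h)))

/-- the stretching of a coordinate -/
noncomputable def box_st (u v t : ℝ) : ℝ := max (-1) (min 1 ((2 * t - u - v) / (v - u)))

lemma box_st_abs (u v t : ℝ) : |box_st u v t| ≤ 1 :=
  abs_le.2 ⟨le_max_left _ _, max_le (by norm_num) (min_le_left _ _)⟩

lemma box_st_lo {u v t : ℝ} (h : u < v) (ht : t ≤ u) : box_st u v t = -1 :=
  max_eq_left ((min_le_right _ _).trans ((div_le_iff₀ (sub_pos.2 h)).2 (by linarith)))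

lemma box_st_hi {u v t : ℝ} (h : u < v) (ht : v ≤ t) : box_st u v t = 1 := by
  rw [box_st, min_eq_left ((le_div_iff₀ (sub_pos.2 h)).2 (by linarith))]
  norm_num

/-- the deformation -/
noncomputable def box_h (b : E4 × E4) (x : E4) (s : ℝ) : E4 :=
  fun i => (1 - s) * x i + s * box_st (b.1 i) (b.2 i) (x i)

lemma box_h_cont (b : E4 × E4) : Continuous (Function.uncurry (box_h b)) := by
  refine continuous_pi fun i => ?_
  have h1 : Continuous fun p : E4 × ℝ => p.1 i := (continuous_apply i).comp continuous_fst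
  exact ((continuous_const.sub continuous_snd).mul h1).add (continuous_snd.mul
    (continuous_const.max (continuous_const.min
      ((((continuous_const.mul h1).sub continuous_const).sub continuous_const).div_const _))))

lemma box_h_lo {b : E4 × E4} (hb : ∀ i, b.1 i < b.2 i) {x : E4} {i : Fin 4} (h : x i ≤ b.1 i)
    (s : ℝ) : box_h b x s i = x i - s * (x i + 1) := by
  rw [box_h, box_st_lo (hb i) h]; ring

lemma box_h_hi {b : E4 × E4} (hb : ∀ i, b.1 i < b.2 i) {x : E4} {i : Fin 4} (h : b.2 i ≤ x i)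
    (s : ℝ) : box_h b x s i = x i + s * (1 - x i) := by
  rw [box_h, box_st_hi (hb i) h]; ring

lemma box_conv {s u v : ℝ} (h0 : 0 ≤ s) (h1 : s ≤ 1) (hu : |u| ≤ 1) (hv : |v| ≤ 1) :
    |(1 - s) * u + s * v| ≤ 1 := by
  have e1 := abs_le.1 hu
  have e2 := abs_le.1 hv
  exact abs_le.2 ⟨by nlinarith [e1.1, e2.1], by nlinarith [e1.2, e2.2]⟩

lemma box_h_mem {b : E4 × E4} (hb : ∀ i, b.1 i < b.2 i) :
    ∀ x ∈ Metric.closedBall (0 : E4) 1 \ Ub b, ∀ s ∈ Icc (0 : ℝ) 1,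
      box_h b x s ∈ Metric.closedBall (0 : E4) 1 \ Ub b := by
  rintro x ⟨hx, hx'⟩ s ⟨h0, h0'⟩
  rw [box_mem_ball] at hx
  obtain ⟨i, hi⟩ := box_not_mem.1 hx'
  refine ⟨box_mem_ball.2 fun j => box_conv h0 h0' (hx j) (box_st_abs _ _ _),
    box_not_mem.2 ⟨i, ?_⟩⟩
  have e1 := abs_le.1 (hx i)
  refine hi.imp (fun h => ?_) fun h => ?_
  · rw [box_h_lo hb h]
    have := mul_nonneg h0 (show 0 ≤ x i + 1 by linarith [e1.1])
    linarith
  · rw [box_h_hi hb h]
    have := mul_nonneg h0 (show 0 ≤ 1 - x i by linarith [e1.2])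
    linarith

lemma box_van {b : E4 × E4} (hb : ∀ i, b.1 i < b.2 i) (h1 : Kb b ⊆ Metric.ball 0 1) (k : ℕ) :
    Van (1 : E4 → E4 → R) k (Ub b)ᶜ (Out 4) := by
  have hO : IsClosed (Out 4) := isClosed_le continuous_const continuous_norm
  have hA : IsCompact (Metric.closedBall (0 : E4) 1 \ Ub b) :=
    (isCompact_closedBall _ _).diff (box_open b)
  have e : (Ub b)ᶜ = (Metric.closedBall (0 : E4) 1 \ Ub b) ∪ Out 4 := by
    refine Subset.antisymm (fun x hx => ?_) (union_subset (fun _ hx => hx.2) (box_out_sub h1))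
    rcases le_total ‖x‖ 1 with h | h
    · exact Or.inl ⟨mem_closedBall_zero_iff.2 h, hx⟩
    · exact Or.inr h
  have hb' : b.1 ≤ b.2 := fun i => (hb i).le
  have hl : ∀ i, -1 < b.1 i := fun i => (abs_lt.1 ((norm_le_pi_norm b.1 i).trans_lt
    (mem_ball_zero_iff.1 (h1 ⟨le_rfl, hb'⟩)))).1
  have hr : ∀ i, b.2 i < 1 := fun i => (abs_lt.1 ((norm_le_pi_norm b.2 i).trans_lt
    (mem_ball_zero_iff.1 (h1 ⟨hb', le_rfl⟩)))).2
  rw [e, van_exc k hA.isClosed hO]
  refine van_deform (h := box_h b) k hA (hA.inter_right hO) inter_subset_left (box_h_cont b)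
    (fun x => funext fun i => by simp [box_h]) (Coc_one _) (box_h_mem hb)
    (fun x hx s hs => ⟨box_h_mem hb x hx.1 s hs, ?_⟩)
    fun x hx => ⟨box_h_mem hb x hx 1 ⟨zero_le_one, le_rfl⟩, ?_⟩
  · obtain ⟨i, hi⟩ := box_mem_out.1 hx.2
    have e1 := abs_le.1 (box_mem_ball.1 hx.1.1 i)
    refine box_mem_out.2 ⟨i, le_abs.2 ((le_abs.1 hi).imp (fun h => ?_) fun h => ?_)⟩
    · rw [box_h_hi hb ((hr i).le.trans h), le_antisymm e1.2 h]
      simp
    · rw [box_h_lo hb (show x i ≤ b.1 i by linarith [hl i]),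
        show x i = -1 by linarith [e1.1]]
      simp
  · obtain ⟨i, hi⟩ := box_not_mem.1 hx.2
    refine box_mem_out.2 ⟨i, ?_⟩
    rcases hi with h | h
    · simp [box_h_lo hb h]
    · simp [box_h_hi hb h]

lemma box_res_bij {b : E4 × E4} (hb : ∀ i, b.1 i < b.2 i) (h1 : Kb b ⊆ Metric.ball 0 1) (k : ℕ)
    (h : Out 4 ⊆ (Ub b)ᶜ) :
    Function.Bijective (res (1 : E4 → E4 → R) k (F := univ) (F' := (Ub b)ᶜ) subset_rfl h) := by
  have hv := fun k => (van_iff k).1 (box_van (R := R) hb h1 k)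
  constructor
  · rcases k with _ | k
    · exact res_zero_inj h
    · rw [injective_iff_map_eq_zero]
      intro x hx
      obtain ⟨y, rfl⟩ := (exact_del_res k (Coc_one _) (subset_univ _) h x).1 hx
      rw [(hv k).elim y 0, map_zero]
  · intro y
    exact (exact_res_res k (Coc_one _) (subset_univ _) h y).1 ((hv k).elim _ _)

lemma box_null {K F F' : Set E4} (hF : F ⊆ F' ∪ K) {k : ℕ} {c : List E4 → R}
    (h : c ∈ Null R k F') (h' : c ∈ Null R k (F ∩ K)) : c ∈ Null R k F := fun x hx =>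
  (hF hx).elim (h x) fun e => h' x ⟨hx, e⟩

lemma box_pull_null (ν : E4 → R) {k : ℕ} {F : Set E4} {c : List E4 → R} (h : c ∈ Null R k F) :
    pull id ν c ∈ Null R k F := pull_Null ν (fun _ _ => continuousAt_id) (mapsTo_id _) h

lemma box_pull_Zc {τ₀ τ : E4 → E4 → R} {ν : E4 → R} {K F F' : Set E4} (h : Itw τ₀ τ id ν K)
    (hF : F ⊆ F' ∪ K) {k : ℕ} (c : List E4 → R) (hc : c ∈ Zc τ k F F') :
    pull id ν c ∈ Zc τ₀ k F F' := by
  have h1 := box_pull_null ν hc.1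
  refine ⟨h1, box_null hF (D_Null τ₀ h1) ?_⟩
  have h2 := add_mem (Null_mono _ (inter_subset_right (s := F)) (pull_D h (k + 1) c))
    (Null_mono _ inter_subset_left (box_pull_null ν hc.2))
  rwa [sub_add_cancel] at h2

lemma box_pull_Bc {τ₀ τ : E4 → E4 → R} {ν : E4 → R} {K F F' : Set E4} (h : Itw τ₀ τ id ν K)
    (hF : F ⊆ F' ∪ K) {k : ℕ} (c : List E4 → R) (hc : c ∈ Zc τ k F F') (hc' : c ∈ Bc τ k F F') :
    pull id ν c ∈ Bc τ₀ k F F' := by
  obtain ⟨a, ha, e⟩ := mem_Bc.1 hc'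
  have h1 := box_pull_null ν ha
  refine mem_Bc.2 ⟨_, h1, box_null hF (sub_mem (box_pull_null ν hc.1) (D_Null' τ₀ h1)) ?_⟩
  have h2 := sub_mem (Null_mono _ inter_subset_left (box_pull_null ν e))
    (Null_mono _ (inter_subset_right (s := F)) (pull_D h k a))
  rwa [map_sub, sub_sub_sub_cancel_right] at h2

lemma box_pull_pull {τ : E4 → E4 → R} {ν ν' : E4 → R} {K F F' : Set E4}
    (h : ∀ x ∈ K, ∀ᶠ a in 𝓝 x, ν a * ν' a = 1) (hF : F ⊆ F' ∪ K) {k : ℕ} {c : List E4 → R}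
    (hc : c ∈ Zc τ k F F') : pull id ν (pull id ν' c) - c ∈ Bc τ k F F' := by
  refine Null_le_Bc _ _ _ _ (box_null hF
    (sub_mem (box_pull_null ν (box_pull_null ν' hc.1)) hc.1) ?_)
  rw [pull_pull]
  exact pull_id_Null k (fun x hx => h x hx.2) c

/-- change of gauge -/
lemma gauge_equiv {τ : E4 → E4 → R} {K : Set E4} {ν ν' : E4 → R}
    (h : ∀ x ∈ K, ∃ U ∈ 𝓝 x, ∀ a ∈ U, ν a * ν' a = 1 ∧ ∀ b ∈ U, τ a b * ν b = ν a) (k : ℕ)
    {F F' : Set E4} (hF : F ⊆ F' ∪ K) :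
    ∃ Φ : H (1 : E4 → E4 → R) k F F' ≃ₗ[R] H τ k F F',
      ∀ c hc, ∃ h', Φ (cl c hc) = cl (pull id ν c) h' := by
  have h1 : Itw τ 1 id ν K := fun x hx => (h x hx).imp fun U hU =>
    ⟨hU.1, fun a ha b hb => by simpa using (hU.2 a ha).2 b hb⟩
  have h2 : Itw 1 τ id ν' K := fun x hx => (h x hx).imp fun U hU =>
    ⟨hU.1, fun a ha b hb => by
      have e1 := (hU.2 a ha).1
      have e2 := (hU.2 b hb).1
      have e3 := (hU.2 a ha).2 b hb
      show 1 * ν' b = ν' a * τ a b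
      linear_combination (-ν' b) * e1 + (ν' a * τ a b) * e2 - ν' a * ν' b * e3⟩
  have h3 : ∀ x ∈ K, ∀ᶠ a in 𝓝 x, ν a * ν' a = 1 := fun x hx => by
    obtain ⟨U, hU, e⟩ := h x hx
    exact mem_of_superset hU fun a ha => (e a ha).1
  refine ⟨LinearEquiv.ofLinearMap (hmap (pull id ν) (box_pull_Zc h1 hF) (box_pull_Bc h1 hF))
    (hmap (pull id ν') (box_pull_Zc h2 hF) (box_pull_Bc h2 hF)) (LinearMap.ext fun x => ?_)
    (LinearMap.ext fun x => ?_), fun c hc => ⟨box_pull_Zc h1 hF c hc, rfl⟩⟩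
  · obtain ⟨c, hc, rfl⟩ := cl_surj x
    exact (cl_eq _ hc).2 (box_pull_pull h3 hF hc)
  · obtain ⟨c, hc, rfl⟩ := cl_surj x
    exact (cl_eq _ hc).2 (box_pull_pull
      (fun x hx => (h3 x hx).mono fun a ha => (mul_comm _ _).trans ha) hF hc)

lemma box_empty {b : E4 × E4} (h : ¬ b.1 ≤ b.2) (τ : E4 → E4 → R) (k : ℕ) :
    Van τ k univ (Ub b)ᶜ ∧ Van τ k (Kb b) ∅ := by
  have e : Kb b = ∅ := Icc_eq_empty h
  have e' : Ub b = ∅ := subset_eq_empty (box_sub b) e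
  rw [e, e', compl_empty]
  exact ⟨van_self k, van_self k⟩

lemma box_rel_sub {b : E4 × E4} (hb : ∀ i, b.1 i < b.2 i) (h1 : Kb b ⊆ Metric.ball 0 1) {k : ℕ}
    (hk : k ≠ 4) : Subsingleton (H (1 : E4 → E4 → R) k univ (Ub b)ᶜ) :=
  haveI := (van_iff k).1 ((orn_gen.2 R).2.2 k hk)
  (box_res_bij hb h1 k (box_out_sub h1)).1.subsingleton

lemma box_span {b : E4 × E4} (hb : b.1 ≤ b.2) (x : H (1 : E4 → E4 → R) 0 (Kb b) ∅) :
    ∃ r : R, r • cl _ (one_mem_Zc (Kb b)) = x := by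
  obtain ⟨c, hc, rfl⟩ := cl_surj x
  refine ⟨c [b.1], Eq.symm ?_⟩
  rw [← cl_smul, cl_eq]
  have e : (c [b.1] • fun _ : List E4 => (1 : R)) = fun _ => c [b.1] := by
    funext l; simp
  rw [e]
  exact Null_le_Bc _ _ _ _ (h0_const (convex_Icc b.1 b.2).isPreconnected hc ⟨le_rfl, hb⟩)

theorem box_fg {τ : E4 → E4 → R} {b : E4 × E4} (hb : b.1 ≤ b.2 → ∀ i, b.1 i < b.2 i)
    (h1 : Kb b ⊆ Metric.ball 0 1) (hT : Triv τ (Kb b)) :
    FG τ univ (Ub b)ᶜ ∧ FG τ (Kb b) ∅ := by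
  by_cases h : b.1 ≤ b.2
  · obtain ⟨ν, ν', hν⟩ := hT
    refine ⟨fun k => ?_, fun k => ?_⟩
    · obtain ⟨Φ, -⟩ := gauge_equiv hν k (box_cover b)
      refine @Module.Finite.equiv _ _ _ _ _ _ _ _ ?_ Φ
      by_cases hk : k = 4
      · subst hk
        exact Module.Finite.equiv ((LinearEquiv.ofBijective _
          (box_res_bij (hb h) h1 4 (box_out_sub h1))).trans (intg R)).symm
      · have := box_rel_sub (R := R) (hb h) h1 hk
        exact Module.Finite.of_finite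
    · obtain ⟨Φ, -⟩ := gauge_equiv hν k (F := Kb b) (F' := ∅) subset_union_right
      refine @Module.Finite.equiv _ _ _ _ _ _ _ _ ?_ Φ
      rcases k with _ | k
      · exact Module.Finite.of_surjective (LinearMap.toSpanSingleton R _ _) (box_span h)
      · have := (van_iff _).1 (van_convex (τ := (1 : E4 → E4 → R)) k isCompact_Icc
          (convex_Icc b.1 b.2) (Coc_one _))
        exact @Module.Finite.of_finite _ _ _ _ _ (@Finite.of_subsingleton _ this)
  · refine ⟨fun k => ?_, fun k => ?_⟩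
    · have := (van_iff _).1 (box_empty h τ k).1
      exact Module.Finite.of_finite
    · have := (van_iff _).1 (box_empty h τ k).2
      exact Module.Finite.of_finite

lemma box_bij_triv {τ τ' : E4 → E4 → R} {A A' K K' : Set E4} (ok : POK τ τ' (Out 4) A A' K K')
    {i j : ℕ} (h : i + j = 4) (h1 : Subsingleton (H τ i A A')) (h2 : Subsingleton (H τ' j K K')) :
    Function.Bijective (pair ok h) :=
  ⟨fun _ _ _ => h1.elim _ _, fun f => ⟨0, LinearMap.ext fun y => by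
    rw [h2.elim y 0, map_zero, map_zero]⟩⟩

lemma box_bij_one {b : E4 × E4} (hb : ∀ i, b.1 i < b.2 i) (h1 : Kb b ⊆ Metric.ball 0 1)
    (ok : POK (1 : E4 → E4 → R) 1 (Out 4) univ (Ub b)ᶜ (Kb b) ∅) {i j : ℕ} (h : i + j = 4) :
    Function.Bijective (pair ok h) := by
  rcases j with _ | j
  · have hi : i = 4 := h
    subst hi
    have e : ∀ x, pair ok h x (cl _ (one_mem_Zc (Kb b))) =
        intg R (res (1 : E4 → E4 → R) 4 (F := univ) (F' := (Ub b)ᶜ) subset_rfl ok.out x) := fun x => by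
      obtain ⟨a, ha, rfl⟩ := cl_surj x
      rw [pair_cl, res_cl]
      refine congrArg _ ((cl_eq _ _).2 (Null_le_Bc _ _ _ _
        fun _ _ => ⟨univ, univ_mem, fun l hl _ => ?_⟩))
      rcases l with _ | ⟨x, l⟩
      · simp at hl
      · have : l.take 4 = l := List.take_of_length_le (by simp at hl; omega)
        simp [cup, this]
    have hB := (intg R).bijective.comp (box_res_bij (R := R) hb h1 4 ok.out)
    refine ⟨fun x y hxy => hB.1 ?_, fun f => ?_⟩
    · show intg R _ = intg R _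
      rw [← e, ← e, hxy]
    · obtain ⟨x, hx⟩ := hB.2 (f (cl _ (one_mem_Zc (Kb b))))
      refine ⟨x, LinearMap.ext fun y => ?_⟩
      obtain ⟨r, rfl⟩ := box_span (fun i => (hb i).le) y
      rw [map_smul, map_smul, e]
      exact congrArg _ hx
  · exact box_bij_triv ok h (box_rel_sub hb h1 (by omega))
      ((van_iff _).1 (van_convex j isCompact_Icc (convex_Icc b.1 b.2) (Coc_one _)))

lemma box_cup {τ' : E4 → E4 → R} {ν ν' : E4 → R} {K A : Set E4} (hA : univ ⊆ A ∪ K)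
    (h : ∀ x ∈ K, ∃ U ∈ 𝓝 x, ∀ a ∈ U, ν' a * ν a = 1 ∧ ∀ b ∈ U, τ' a b * ν' b = ν' a) {i : ℕ}
    (hi : i ≤ 4) {a : List E4 → R} (ha : a ∈ Null R i A) (c : List E4 → R) :
    cup τ' i (pull id ν a) (pull id ν' c) - cup 1 i a c ∈ Null R 4 univ := by
  refine box_null hA (sub_mem (cup_Null_left _ hi (box_pull_null ν ha) _)
    (cup_Null_left _ hi ha _)) fun x hx => ?_
  obtain ⟨U, hU, e⟩ := h x hx.2
  refine ⟨U, hU, fun l hl hm => ?_⟩
  rcases l with _ | ⟨y, l⟩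
  · simp at hl
  · have hi' : i < (y :: l).length := by omega
    have e1 := e y (hm y List.mem_cons_self)
    have e2 := e1.2 _ (hm _ (List.getElem_mem hi'))
    simp only [Pi.sub_apply, cup, List.drop_eq_getElem_cons hi', List.getD_eq_getElem _ _ hi',
      pull_cons, id, List.map_id, Pi.one_apply]
    linear_combination (ν y * a (y :: l.take i) * c ((y :: l)[i] :: (y :: l).drop (i + 1))) * e2 +
      (a (y :: l.take i) * c ((y :: l)[i] :: (y :: l).drop (i + 1))) * e1.1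

theorem box_dual {k : Type} [Field k] {τ τ' : E4 → E4 → k} {b : E4 × E4}
    (hb : b.1 ≤ b.2 → ∀ i, b.1 i < b.2 i) (h1 : Kb b ⊆ Metric.ball 0 1) (hT : Triv τ (Kb b))
    (ok : POK τ τ' (Out 4) univ (Ub b)ᶜ (Kb b) ∅) : Dual ok := by
  by_cases h : b.1 ≤ b.2
  · obtain ⟨ν, ν', hν⟩ := hT
    have hν' : ∀ x ∈ Kb b, ∃ U ∈ 𝓝 x, ∀ a ∈ U, ν' a * ν a = 1 ∧
        ∀ c ∈ U, τ' a c * ν' c = ν' a := fun x hx => by
      obtain ⟨U, hU, e⟩ := hν x hx
      obtain ⟨V, hV, e'⟩ := ok.mu x hx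
      refine ⟨U ∩ V, inter_mem hU hV, fun a ha =>
        ⟨(mul_comm _ _).trans (e a ha.1).1, fun c hc => ?_⟩⟩
      have e1 := (e a ha.1).1
      have e2 := (e c hc.1).1
      have e3 := (e a ha.1).2 c hc.1
      have e4 : τ a c * τ' a c = 1 := e' a ha.2 c hc.2
      linear_combination (-(τ' a c * ν' c)) * e1 + ν' a * e2 - ν' a * τ' a c * ν' c * e3 +
        ν' a * ν c * ν' c * e4
    have ok1 : POK (1 : E4 → E4 → k) 1 (Out 4) univ (Ub b)ᶜ (Kb b) ∅ :=
      ⟨ok.out, ok.c1, ok.c2, Coc_one _, Coc_one _,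
        fun _ _ => ⟨univ, univ_mem, fun _ _ _ _ => mul_one _⟩⟩
    refine ⟨fun i j hij => ?_, fun i hi => ?_, fun j hj => ?_⟩
    · obtain ⟨Φ, hΦ⟩ := gauge_equiv hν i (box_cover b)
      obtain ⟨Ψ, hΨ⟩ := gauge_equiv hν' j (F := Kb b) (F' := ∅) subset_union_right
      have e : Ψ.dualMap ∘ pair ok hij ∘ Φ = pair ok1 hij := by
        funext x
        refine LinearMap.ext fun y => ?_
        obtain ⟨a, ha, rfl⟩ := cl_surj x
        obtain ⟨c, hc, rfl⟩ := cl_surj y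
        obtain ⟨ha', e1⟩ := hΦ a ha
        obtain ⟨hc', e2⟩ := hΨ c hc
        show pair ok hij (Φ (cl a ha)) (Ψ (cl c hc)) = _
        rw [e1, e2, pair_cl, pair_cl]
        exact congrArg _ ((cl_eq _ _).2 (Null_le_Bc _ _ _ _
          (box_cup (box_cover b) hν' (by omega) ha.1 c)))
      have hB := box_bij_one (hb h) h1 ok1 hij
      rw [← e, Ψ.dualMap.bijective.of_comp_iff'] at hB
      exact (Function.Bijective.of_comp_iff _ Φ.bijective).1 hB
    · obtain ⟨Φ, -⟩ := gauge_equiv hν i (box_cover b)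
      have := box_rel_sub (R := k) (hb h) h1 hi.ne'
      exact (van_iff _).2 Φ.symm.injective.subsingleton
    · obtain ⟨j, rfl⟩ : ∃ j', j = j' + 1 := ⟨j - 1, by omega⟩
      exact van_convex j isCompact_Icc (convex_Icc b.1 b.2) ok.coc'
  · exact ⟨fun i j hij => box_bij_triv ok hij ((van_iff _).1 (box_empty h τ i).1)
      ((van_iff _).1 (box_empty h τ' j).2), fun i _ => (box_empty h τ i).1,
      fun j _ => (box_empty h τ' j).2⟩

end Pool.Agent.P.MP_3d25f3_gt
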