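import Pool.Agent.P.MP_3d25f3_gt.Five
import Pool.Agent.P.MP_3d25f3_gt.Box

set_option autoImplicit false

open Set Filter Topology

namespace Pool.Agent.P.MP_3d25f3_gt

variable {R : Type} [CommRing R]

def UL (L : List (E4 × E4)) : Set E4 := {x | ∃ b ∈ L, x ∈ Ub b}

def KL (L : List (E4 × E4)) : Set E4 := {x | ∃ b ∈ L, x ∈ Kb b}

def Fam (δ : ℝ) (b : E4 × E4) : Prop :=
  ∀ i, ∃ p q : ℤ, b.1 i = δ * p - δ / 3 ∧ b.2 i = δ * q + δ / 3

/-- a pair of inverse twistings on an open set -/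
structure Good (τ τ' : E4 → E4 → R) (N : Set E4) : Prop where
  op : IsOpen N
  coc : Coc τ N
  coc' : Coc τ' N
  mu : Mu τ τ' 1 N
  triv : ∀ K ⊆ N, IsCompact K → Convex ℝ K → Triv τ K

lemma Good.symm {τ τ' : E4 → E4 → R} {N : Set E4} (h : Good τ τ' N) : Good τ' τ N := by
  refine ⟨h.op, h.coc', h.coc, fun x hx => ?_, fun K hK h1 h2 => ?_⟩
  · obtain ⟨U, hU, h1⟩ := h.mu x hx
    exact ⟨U, hU, fun a ha b hb => by rw [mul_comm]; exact h1 a ha b hb⟩
  · obtain ⟨ν, ν', h3⟩ := h.triv K hK h1 h2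
    refine ⟨ν', ν, fun x hx => ?_⟩
    obtain ⟨U, hU, h4⟩ := h3 x hx
    obtain ⟨V, hV, h5⟩ := h.mu x (hK hx)
    refine ⟨U ∩ V, inter_mem hU hV, fun a ha => ⟨by rw [mul_comm]; exact (h4 a ha.1).1,
      fun b hb => ?_⟩⟩
    have e1 := (h4 a ha.1).1
    have e2 := (h4 b hb.1).1
    have e3 := (h4 a ha.1).2 b hb.1
    have e4 : τ a b * τ' a b = 1 := h5 a ha.2 b hb.2
    linear_combination (-(τ' a b * ν' b)) * e1 - (τ' a b * ν' b * ν' a) * e3 +
      (τ a b * τ' a b * ν' a) * e2 + ν' a * e4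

lemma Good.mono {τ τ' : E4 → E4 → R} {N N' : Set E4} (h : Good τ τ' N) (ho : IsOpen N')
    (hN : N' ⊆ N) : Good τ τ' N' :=
  ⟨ho, h.coc.mono hN, h.coc'.mono hN, fun x hx => h.mu x (hN hx),
    fun K hK => h.triv K (hK.trans hN)⟩

lemma good_tw {n : E4 → E4 → ℤ} {N : Set E4} (ho : IsOpen N) (hn : CocZ n N) (t : Rˣ) :
    Good (tw t n) (tw t⁻¹ n) N :=
  ⟨ho, hn.tw t, hn.tw t⁻¹, Mu_tw t n N, fun _ hK h1 h2 => triv_tw h1 h2 (hn.mono hK) t⟩

lemma boxl_open (b : E4 × E4) : IsOpen (Ub b) := by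
  rw [Ub, Set.ofPred_forall]
  exact isOpen_iInter_of_finite fun i => (isOpen_lt continuous_const (continuous_apply i)).inter
    (isOpen_lt (continuous_apply i) continuous_const)

lemma boxl_sub (b : E4 × E4) : Ub b ⊆ Kb b :=
  fun _ hx => ⟨fun i => (hx i).1.le, fun i => (hx i).2.le⟩

lemma boxl_UL_nil : UL [] = ∅ := by simp [UL]

lemma boxl_KL_nil : KL [] = ∅ := by simp [KL]

lemma boxl_UL_cons (b : E4 × E4) (L : List (E4 × E4)) : UL (b :: L) = Ub b ∪ UL L := by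
  ext x; simp [UL]

lemma boxl_KL_cons (b : E4 × E4) (L : List (E4 × E4)) : KL (b :: L) = Kb b ∪ KL L := by
  ext x; simp [KL]

lemma isOpen_UL (L : List (E4 × E4)) : IsOpen (UL L) := by
  induction L with
  | nil => rw [boxl_UL_nil]; exact isOpen_empty
  | cons b L ih => rw [boxl_UL_cons]; exact (boxl_open b).union ih

lemma isCompact_KL (L : List (E4 × E4)) : IsCompact (KL L) := by
  induction L with
  | nil => rw [boxl_KL_nil]; exact isCompact_empty
  | cons b L ih => rw [boxl_KL_cons]; exact isCompact_Icc.union ih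

lemma UL_subset (L : List (E4 × E4)) : UL L ⊆ KL L := by
  rintro x ⟨b, hb, hx⟩
  exact ⟨b, hb, boxl_sub b hx⟩

lemma exists_boxes {C N : Set E4} (hC : IsCompact C) (hN : IsOpen N) (h : C ⊆ N) :
    ∃ δ > 0, ∃ L : List (E4 × E4), (∀ b ∈ L, Fam δ b) ∧ C ⊆ UL L ∧ KL L ⊆ N := by
  obtain ⟨ε, hε, h1⟩ := hC.exists_cthickening_subset_open hN h
  obtain ⟨δ, hδ, rfl⟩ : ∃ δ > 0, ε = 2 * δ := ⟨ε / 2, by positivity, by ring⟩
  obtain ⟨B, hB⟩ : ∃ B : E4 → E4 × E4, ∀ x, B x = (fun i => δ * ⌊x i / δ⌋ - δ / 3,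
    fun i => δ * ((⌊x i / δ⌋ + 1 : ℤ) : ℝ) + δ / 3) := ⟨_, fun _ => rfl⟩
  have h2 : ∀ (x : E4) i, (B x).1 i + δ / 3 ≤ x i ∧ x i < (B x).1 i + 4 * δ / 3 ∧
      (B x).2 i = (B x).1 i + 5 * δ / 3 := by
    intro x i
    have a1 := (le_div_iff₀ hδ).1 (Int.floor_le (x i / δ))
    have a2 := (div_lt_iff₀ hδ).1 (Int.lt_floor_add_one (x i / δ))
    rw [hB]
    push_cast
    refine ⟨by linarith, by linarith, by ring⟩
  obtain ⟨t, ht, h3⟩ := hC.elim_nhds_subcover (fun x => Ub (B x)) fun x _ =>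
    (boxl_open _).mem_nhds fun i => by
      obtain ⟨a1, a2, a3⟩ := h2 x i
      exact ⟨by linarith, by linarith⟩
  refine ⟨δ, hδ, t.toList.map B, fun b hb i => ?_, fun x hx => ?_, ?_⟩
  · obtain ⟨x, _, rfl⟩ := List.mem_map.1 hb
    exact ⟨_, _, by rw [hB], by rw [hB]⟩
  · obtain ⟨y, hy, hxy⟩ := mem_iUnion₂.1 (h3 hx)
    exact ⟨B y, List.mem_map_of_mem (Finset.mem_toList.2 hy), hxy⟩
  · rintro y ⟨b, hb, hy⟩
    obtain ⟨x, hx, rfl⟩ := List.mem_map.1 hb
    refine h1 (Metric.mem_cthickening_of_dist_le y x _ _ (ht x (Finset.mem_toList.1 hx)) ?_)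
    refine (dist_pi_le_iff hε.le).2 fun i => ?_
    obtain ⟨a1, a2, a3⟩ := h2 x i
    have a4 := hy.1 i
    have a5 := hy.2 i
    rw [Real.dist_eq, abs_le]
    exact ⟨by linarith, by linarith⟩

lemma boxl_ok {τ τ' : E4 → E4 → R} {N : Set E4} (hg : Good τ τ' N) (hN : N ⊆ Metric.ball 0 1)
    {A A' K K' : Set E4} (hK : K ⊆ N) (h1 : Aᶜ ⊆ K') (h2 : A'ᶜ ⊆ K) :
    POK τ τ' (Out 4) A A' K K' := by
  refine ⟨fun x hx => ?_, compl_subset_iff_union.1 h1, compl_subset_iff_union.1 h2,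
    hg.coc.mono hK, hg.coc'.mono hK, fun x hx => hg.mu x (hK hx)⟩
  by_contra hx'
  exact absurd (mem_ball_zero_iff.1 (hN (hK (h2 hx')))) (not_lt.2 hx)

lemma ok_list {τ τ' : E4 → E4 → R} {N : Set E4} (hg : Good τ τ' N) (hN : N ⊆ Metric.ball 0 1)
    {L : List (E4 × E4)} (hL : KL L ⊆ N) : POK τ τ' (Out 4) univ (UL L)ᶜ (KL L) ∅ := by
  exact boxl_ok hg hN hL (by simp) (by rw [compl_compl]; exact UL_subset L)

/-- intersection of two boxes -/
def boxl_meet (b c : E4 × E4) : E4 × E4 := (b.1 ⊔ c.1, b.2 ⊓ c.2)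

lemma boxl_UL_meet (b : E4 × E4) (L : List (E4 × E4)) :
    UL (L.map (boxl_meet b)) = Ub b ∩ UL L := by
  induction L with
  | nil => rw [List.map_nil, boxl_UL_nil, inter_empty]
  | cons c L ih =>
    rw [List.map_cons, boxl_UL_cons, boxl_UL_cons, ih, inter_union_distrib_left]
    congr 1
    ext x
    simp only [Ub, boxl_meet, mem_ofPred_eq, mem_inter_iff, Pi.sup_apply, Pi.inf_apply,
      sup_lt_iff, lt_inf_iff, forall_and]
    tauto

lemma boxl_KL_meet (b : E4 × E4) (L : List (E4 × E4)) :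
    KL (L.map (boxl_meet b)) = Kb b ∩ KL L := by
  induction L with
  | nil => rw [List.map_nil, boxl_KL_nil, inter_empty]
  | cons c L ih =>
    rw [List.map_cons, boxl_KL_cons, boxl_KL_cons, ih, inter_union_distrib_left]
    congr 1
    exact Icc_inter_Icc.symm

lemma boxl_fam_meet {δ : ℝ} {b c : E4 × E4} (hb : Fam δ b) (hc : Fam δ c) :
    Fam δ (boxl_meet b c) := by
  intro i
  obtain ⟨p, q, h1, h2⟩ := hb i
  obtain ⟨p', q', h3, h4⟩ := hc i
  have e1 : ∃ r : ℤ, b.1 i ⊔ c.1 i = δ * r - δ / 3 := by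
    rcases max_choice (b.1 i) (c.1 i) with h | h
    · exact ⟨p, h.trans h1⟩
    · exact ⟨p', h.trans h3⟩
  have e2 : ∃ r : ℤ, b.2 i ⊓ c.2 i = δ * r + δ / 3 := by
    rcases min_choice (b.2 i) (c.2 i) with h | h
    · exact ⟨q, h.trans h2⟩
    · exact ⟨q', h.trans h4⟩
  obtain ⟨r, hr⟩ := e1
  obtain ⟨r', hr'⟩ := e2
  exact ⟨r, r', hr, hr'⟩

lemma boxl_strict {δ : ℝ} (hδ : 0 < δ) {b : E4 × E4} (hb : Fam δ b) (h : b.1 ≤ b.2) (i : Fin 4) :
    b.1 i < b.2 i := by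
  obtain ⟨p, q, h1, h2⟩ := hb i
  refine lt_of_le_of_ne (h i) fun e => ?_
  have e1 : ((3 * p : ℤ) : ℝ) = ((3 * q + 2 : ℤ) : ℝ) := by
    refine mul_left_cancel₀ hδ.ne' ?_
    push_cast
    linarith
  have e2 := Int.cast_injective e1
  omega

lemma boxl_ind {N : Set E4} {δ : ℝ} (hδ : 0 < δ) {P : Set E4 → Set E4 → Prop}
    (box : ∀ b : E4 × E4, (b.1 ≤ b.2 → ∀ i, b.1 i < b.2 i) → Kb b ⊆ N → P (Ub b) (Kb b))
    (step : ∀ U K U' K' : Set E4, IsOpen U → IsOpen U' → IsClosed K → IsClosed K' → U ⊆ K →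
      U' ⊆ K' → K ⊆ N → K' ⊆ N → P U K → P U' K' → P (U ∩ U') (K ∩ K') → P (U ∪ U') (K ∪ K'))
    (n : ℕ) : ∀ L : List (E4 × E4), L.length = n → (∀ b ∈ L, Fam δ b) → KL L ⊆ N →
      P (UL L) (KL L) := by
  induction n with
  | zero =>
    intro L hL _ _
    obtain rfl := List.length_eq_zero_iff.1 hL
    have h1 : ¬ (1 : E4) ≤ 0 := fun h => absurd (h 0) (by norm_num)
    have h2 : Kb (1, 0) = ∅ := Icc_eq_empty h1
    have h3 : Ub (1, 0) = ∅ := subset_empty_iff.1 (h2 ▸ boxl_sub _)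
    have h4 := box (1, 0) (fun h => absurd h h1) (h2 ▸ empty_subset _)
    rw [boxl_UL_nil, boxl_KL_nil]
    rwa [h2, h3] at h4
  | succ n ih =>
    intro L hL hF hK
    obtain ⟨b, L, rfl⟩ := List.exists_cons_of_length_eq_add_one hL
    rw [boxl_KL_cons, union_subset_iff] at hK
    have hL' : L.length = n := by simpa using hL
    have hb := hF b List.mem_cons_self
    have hF' : ∀ c ∈ L, Fam δ c := fun c hc => hF c (List.mem_cons_of_mem _ hc)
    rw [boxl_UL_cons, boxl_KL_cons]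
    refine step _ _ _ _ (boxl_open b) (isOpen_UL L) isClosed_Icc (isCompact_KL L).isClosed
      (boxl_sub b) (UL_subset L) hK.1 hK.2 (box b (boxl_strict hδ hb) hK.1) (ih L hL' hF' hK.2) ?_
    rw [← boxl_UL_meet, ← boxl_KL_meet]
    refine ih _ (by rw [List.length_map, hL']) (fun c hc => ?_) ?_
    · obtain ⟨c', hc', rfl⟩ := List.mem_map.1 hc
      exact boxl_fam_meet hb (hF' c' hc')
    · rw [boxl_KL_meet]
      exact inter_subset_left.trans hK.1

section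
variable [IsNoetherianRing R] {τ : E4 → E4 → R} {F F' F'' : Set E4}

lemma boxl_mid (hτ : Coc τ (F \ F'')) (h : F' ⊆ F) (h' : F'' ⊆ F') (h1 : FG τ F F')
    (h2 : FG τ F' F'') : FG τ F F'' := fun k => by
  have := h1 k
  have := h2 k
  exact finite_of_exact (exact_res_res k hτ h h')

lemma boxl_right (hτ : Coc τ (F \ F'')) (h : F' ⊆ F) (h' : F'' ⊆ F') (h1 : FG τ F F'')
    (h2 : FG τ F F') : FG τ F' F'' := fun k => by
  have := h1 k
  have := h2 (k + 1)
  exact finite_of_exact (exact_res_del k hτ h h')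

lemma boxl_left (hτ : Coc τ (F \ F'')) (h : F' ⊆ F) (h' : F'' ⊆ F') (h1 : FG τ F' F'')
    (h2 : FG τ F F'') : FG τ F F' := fun k => by
  cases k with
  | zero =>
    have := h2 0
    exact Module.Finite.of_injective _ (res_zero_inj h')
  | succ k =>
    have := h1 k
    have := h2 (k + 1)
    exact finite_of_exact (exact_del_res k hτ h h')

omit [IsNoetherianRing R] in
lemma boxl_exc {A B U I : Set E4} (hA : IsClosed A) (hB : IsClosed B) (hU : U = A ∪ B)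
    (hI : I = A ∩ B) : FG τ U B ↔ FG τ A I :=
  forall_congr' fun k => Module.Finite.equiv_iff (LinearEquiv.ofBijective _
    (exc_bij k hA hB hU hI (hU ▸ subset_union_left) (hI ▸ inter_subset_right)))

end

theorem list_fg [IsNoetherianRing R] {τ τ' : E4 → E4 → R} {N : Set E4} (hg : Good τ τ' N)
    (hN : N ⊆ Metric.ball 0 1) {δ : ℝ} (hδ : 0 < δ) (L : List (E4 × E4)) (hF : ∀ b ∈ L, Fam δ b)
    (hL : KL L ⊆ N) : FG τ univ (UL L)ᶜ ∧ FG τ (KL L) ∅ := by
  refine boxl_ind (P := fun U K => FG τ univ Uᶜ ∧ FG τ K ∅) hδ (fun b h1 h2 => ?_)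
    (fun U K U' K' oU oU' cK cK' s s' hK hK' p1 p2 p3 => ⟨?_, ?_⟩) _ L rfl hF hL
  · exact box_fg h1 (h2.trans hN) (hg.triv _ h2 isCompact_Icc (convex_Icc _ _))
  · refine boxl_mid (hg.coc.mono fun x hx => ?_) (subset_univ _)
      (compl_subset_compl.2 subset_union_right) p2.1 ?_
    · exact union_subset (s.trans hK) (s'.trans hK') (not_not.1 hx.2)
    · refine (boxl_exc (U := (U ∩ U')ᶜ) oU'.isClosed_compl oU.isClosed_compl
        (by rw [compl_inter, union_comm]) (by rw [compl_union, inter_comm])).1 ?_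
      exact boxl_right (hg.coc.mono fun x hx => hK (s (not_not.1 hx.2))) (subset_univ _)
        (compl_subset_compl.2 inter_subset_left) p1.1 p3.1
  · refine boxl_mid (hg.coc.mono fun x hx => union_subset hK hK' hx.1) subset_union_right
      (empty_subset _) ?_ p2.2
    exact (boxl_exc cK cK' rfl rfl).2 (boxl_left (hg.coc.mono fun x hx => hK hx.1)
      inter_subset_left (empty_subset _) p3.2 p1.2)

theorem list_dual {k : Type} [Field k] {τ τ' : E4 → E4 → k} {N : Set E4} (hg : Good τ τ' N)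
    (hN : N ⊆ Metric.ball 0 1) {δ : ℝ} (hδ : 0 < δ) (L : List (E4 × E4)) (hF : ∀ b ∈ L, Fam δ b)
    (hL : KL L ⊆ N) : Dual (ok_list hg hN hL) := by
  refine boxl_ind (P := fun U K => ∀ ok : POK τ τ' (Out 4) univ Uᶜ K ∅, Dual ok) hδ
    (fun b h1 h2 ok => ?_) (fun U K U' K' oU oU' cK cK' s s' hK hK' p1 p2 p3 ok => ?_)
    _ L rfl hF hL _
  · exact box_dual h1 (h2.trans hN) (hg.triv _ h2 isCompact_Icc (convex_Icc _ _)) ok
  · have e : ∀ {V W : Set E4}, V ⊆ W → Vᶜᶜ ⊆ W := fun h => by rwa [compl_compl]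
    have e0 : (univ : Set E4)ᶜ ⊆ ∅ := by simp
    have d1 := dual_rel (compl_subset_compl.2 inter_subset_left) inter_subset_left
      (boxl_ok hg hN hK (e (inter_subset_inter s s')) (e s))
      (p3 (boxl_ok hg hN (inter_subset_left.trans hK) e0 (e (inter_subset_inter s s'))))
      (p1 (boxl_ok hg hN hK e0 (e s)))
    have e1 : (U ∩ U')ᶜ = U'ᶜ ∪ Uᶜ := by rw [compl_inter, union_comm]
    have e2 : U'ᶜ ∩ Uᶜ = (U ∪ U')ᶜ := by rw [compl_union, inter_comm]
    have d2 := dual_exc oU'.isClosed_compl oU.isClosed_compl cK cK'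
      (boxl_ok hg hN (union_subset hK hK') (e s') (by rw [e2]; exact e (union_subset_union s s')))
      (d1.congr (boxl_ok hg hN hK (by rw [← e1]; exact e (inter_subset_inter s s')) (e s))
        e1 rfl rfl rfl)
    exact dual_mid (compl_subset_compl.2 subset_union_right) subset_union_right ok
      (p2 (boxl_ok hg hN hK' e0 (e s')))
      (d2.congr (boxl_ok hg hN (union_subset hK hK') (e s') (e (union_subset_union s s')))
        rfl e2 rfl rfl)

end Pool.Agent.P.MP_3d25f3_gt
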