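import Pool.Agent.P.MP_3d25f3_gt.FacA
import Pool.Agent.P.MP_3d25f3_gt.FacB

set_option autoImplicit false

open Set Filter Topology

namespace Pool.Agent.P.MP_3d25f3_gt

open Module

variable {X Y N : Set E4} {n : E4 → E4 → ℤ}

/-- the family of hermitian forms -/
structure Family (h : XN X Y N n) (m : ℤ) (ρ : ℕ) (G G₁ : ℝ → SF (Fin ρ → ℂ)) : Prop where
  herm : ∀ θ, Herm (G θ)
  der : ∀ θ x y, HasDerivAt (fun u => G u x y) (G₁ θ x y) θ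
  card : ∀ θ, ρ ≤ finrank ℂ (H (tw (cu θ) n) 2 univ Y)
  rank : ∀ θ, ρ ≤ finrank ℂ (LinearMap.ker (G θ))
    + finrank ℂ (LinearMap.range (jm (tw (cu θ) n) 2 X Y))
  gen : ∀ θ, cu θ ^ m ≠ 1 → LinearMap.ker (G θ) = ⊥
  nd : ∀ θ, ∀ x ∈ LinearMap.ker (G θ), (∀ y ∈ LinearMap.ker (G θ), G₁ θ x y = 0) → x = 0
  res : ∀ θ, cu θ ^ m = 1 → ∀ W, IsW h.xy (cu θ) n W →
    ∃ (Q : Submodule ℂ (H (tw (cu θ) n) 1 (X ∩ Y) ∅)) (π : Q →ₗ[ℂ] LinearMap.ker (G θ)),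
      Function.Surjective π ∧ (∀ v v' : Q, G₁ θ (π v) (π v') = Complex.I * W v v') ∧
      ∀ v, (∀ q ∈ Q, W v q = 0) → v ∈ Q

/-- the Gram matrix over the Laurent ring -/
noncomputable def facc_M (h : XN X Y N n) {ρ : ℕ} (e : Fin ρ → H (tw tL n) 2 univ Y)
    (i j : Fin ρ) : La := lamL h (e i) (jm (tw tL n) 2 X Y (e j))

noncomputable def facc_G (h : XN X Y N n) {ρ : ℕ} (e : Fin ρ → H (tw tL n) 2 univ Y) (θ : ℝ) :
    SF (Fin ρ → ℂ) := gram fun i j => evL (cu θ) (facc_M h e i j)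

noncomputable def facc_G1 (h : XN X Y N n) {ρ : ℕ} (e : Fin ρ → H (tw tL n) 2 univ Y) (θ : ℝ) :
    SF (Fin ρ → ℂ) := gram fun i j => deriv (fun u => evL (cu u) (facc_M h e i j)) θ

lemma facc_lam (h : XN X Y N n) {ρ : ℕ} (e : Fin ρ → H (tw tL n) 2 univ Y) (x y : Fin ρ → ℂ) :
    lamL h (∑ i, (LaurentPolynomial.C (x i) : La) • e i)
        (jm (tw tL n) 2 X Y (∑ i, (LaurentPolynomial.C (y i) : La) • e i))
      = ∑ i, ∑ j, LaurentPolynomial.C (x i) * LaurentPolynomial.C (starRingEnd ℂ (y j))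
        * facc_M h e i j := by
  rw [map_sum (lamL h), LinearMap.sum_apply]
  refine Finset.sum_congr rfl fun i _ => ?_
  rw [map_smul, LinearMap.smul_apply, map_sum, map_sum, Finset.smul_sum]
  refine Finset.sum_congr rfl fun j _ => ?_
  rw [map_smul, LinearMap.map_smulₛₗ, sgL_C, smul_eq_mul, smul_eq_mul, facc_M, mul_assoc]

lemma facc_Geq (h : XN X Y N n) {ρ : ℕ} (e : Fin ρ → H (tw tL n) 2 univ Y) (θ : ℝ)
    (x y : Fin ρ → ℂ) : facc_G h e θ x y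
      = evL (cu θ) (lamL h (∑ i, (LaurentPolynomial.C (x i) : La) • e i)
        (jm (tw tL n) 2 X Y (∑ i, (LaurentPolynomial.C (y i) : La) • e i))) := by
  rw [facc_lam, facc_G, gram_apply, map_sum]
  refine Finset.sum_congr rfl fun i _ => ?_
  rw [map_sum]
  refine Finset.sum_congr rfl fun j _ => ?_
  rw [map_mul, map_mul, evL_C, evL_C]

lemma facc_der (h : XN X Y N n) {ρ : ℕ} (e : Fin ρ → H (tw tL n) 2 univ Y) (θ : ℝ)
    (x y : Fin ρ → ℂ) : HasDerivAt (fun u => facc_G h e u x y) (facc_G1 h e θ x y) θ := by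
  simp only [facc_G, facc_G1, gram_apply]
  refine HasDerivAt.fun_sum fun i _ => HasDerivAt.fun_sum fun j _ => ?_
  exact (differentiable_evL (facc_M h e i j) θ).hasDerivAt.const_mul _

lemma facc_herm (h : XN X Y N n) {ρ : ℕ} (e : Fin ρ → H (tw tL n) 2 univ Y) (θ : ℝ) :
    Herm (facc_G h e θ) := by
  intro x y
  rw [facc_Geq, facc_Geq, lamL_herm, evL_sgL (norm_cu θ)]

lemma facc_comm (ω : ℂˣ) (x : H (tw tL n) 2 univ Y) :
    cmap (evL ω) (hev ω n) 2 X ∅ (jm (tw tL n) 2 X Y x)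
      = jm (tw ω n) 2 X Y (cmap (evL ω) (hev ω n) 2 univ Y x) := by
  obtain ⟨a, ha, rfl⟩ := cl_surj x
  rfl

lemma facc_rank (h : XN X Y N n) {ρ : ℕ} (e : Fin ρ → H (tw tL n) 2 univ Y) (θ : ℝ) :
    ρ ≤ finrank ℂ (LinearMap.ker (facc_G h e θ))
      + finrank ℂ (LinearMap.range (jm (tw (cu θ) n) 2 X Y)) := by
  have : Module.Finite ℂ (H (tw (cu θ) n) 2 X ∅) := (h.xy.fg (h.good (cu θ)) h.sub).2 2
  let L : (Fin ρ → ℂ) →ₗ[ℂ] H (tw (cu θ) n) 2 X ∅ := jm (tw (cu θ) n) 2 X Y ∘ₗ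
    Fintype.linearCombination ℂ fun i => cmap (evL (cu θ)) (hev (cu θ) n) 2 univ Y (e i)
  have h1 : LinearMap.ker L ≤ LinearMap.ker (facc_G h e θ) := by
    intro y hy
    rw [LinearMap.mem_ker] at hy ⊢
    ext1 x
    have h2 : cmap (evL (cu θ)) (hev (cu θ) n) 2 X ∅
        (jm (tw tL n) 2 X Y (∑ i, (LaurentPolynomial.C (y i) : La) • e i)) = 0 := by
      rw [facc_comm, ← hy, map_sum]
      simp only [L, LinearMap.comp_apply, Fintype.linearCombination_apply,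
        LinearMap.map_smulₛₗ, evL_C]
    rw [facc_herm h e θ x y, facc_Geq, ← pbL_red h (norm_cu θ), pbL_apply, h2, map_zero,
      map_zero, map_zero, LinearMap.zero_apply]
  have h3 : LinearMap.range L ≤ LinearMap.range (jm (tw (cu θ) n) 2 X Y) :=
    LinearMap.range_comp_le_range _ _
  have h4 := L.finrank_range_add_finrank_ker
  have h5 := Submodule.finrank_mono h1
  have h6 := Submodule.finrank_mono h3
  rw [Module.finrank_fin_fun] at h4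
  omega

lemma facc_res (h : XN X Y N n) {m : ℤ}
    (hk : ∀ x : H (tw tL n) 2 (X ∩ Y) ∅, (((tL ^ m : Laˣ) : La) - 1) • x = 0) {ρ : ℕ}
    {e : Fin ρ → H (tw tL n) 2 univ Y}
    (h1 : ∀ x, ∃ c : Fin ρ → La, x - ∑ i, c i • e i ∈ Submodule.torsion La (H (tw tL n) 2 univ Y))
    (h2 : ∀ c : Fin ρ → La, ∑ i, c i • e i ∈ Submodule.torsion La (H (tw tL n) 2 univ Y) → c = 0)
    (θ : ℝ) {W : SF (H (tw (cu θ) n) 1 (X ∩ Y) ∅)} (hW : IsW h.xy (cu θ) n W) :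
    ∃ β : H (tw (cu θ) n) 1 (X ∩ Y) ∅ →+ H (tw tL n) 2 (X ∩ Y) ∅,
      ResD sgL (evL (cu θ)) LaurentPolynomial.C (epL (cu θ))
        (-((tL⁻¹ : Laˣ) * LaurentPolynomial.C (((cu θ)⁻¹ : ℂˣ) : ℂ))) (((tL ^ m : Laˣ) : La) - 1)
        (jm (tw tL n) 2 X Y) (rm (tw tL n) 2 X Y) (lamL h)
        (cmap (evL (cu θ)) (hev (cu θ) n) 2 univ Y) (pbL h (norm_cu θ))
        (dl h.xy (h.cocX (cu θ)) 1) β ((cu θ : ℂ) • W) e (facc_G h e θ) := by
  obtain ⟨β, hβ⟩ := exists_bock (red_evL (cu θ)) (hev (cu θ) n) 1 (F := X ∩ Y) (F' := ∅)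
    ((h.cocX tL).mono (sdiff_subset.trans inter_subset_left)) (empty_subset _)
  have hc : Coc (tw tL n) (univ \ Y) := (h.cocX tL).mono fun x hx =>
    (h.xy.cover.ge (mem_univ x)).resolve_right hx.2
  refine ⟨β, sgL_sgL, evL_sgL (norm_cu θ), evL_C _, (red_evL _).ker, fun h0 => ?_,
    sgL_epL (norm_cu θ), exact_jm_rm h.xy (h.cocX tL) 2, hk, lamL_herm h, pbL_red h _,
    pbL_smul h _, pbL_perp h _, fun x hx => ?_, hβ.smul, fun y hy => ?_, bock_lift h hβ,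
    bock_back h hβ, fun v v' b hb => ?_, h1, h2, facc_Geq h e θ⟩
  · exact one_ne_zero ((red_evL (cu θ)).reg 1 (by rw [h0, zero_mul]))
  · exact (cmap_eq_zero (red_evL _) (hev _ n) hc (subset_univ _) x).1 hx
  · obtain ⟨v, hv⟩ := (hβ.range y).1 hy
    exact ⟨v, hv.symm⟩
  · rw [← bock_psi h (norm_cu θ) hβ hW v v' b hb]
    rfl

lemma facc_ev_s (ω : ℂˣ) (m : ℤ) :
    evL ω (((tL ^ m : Laˣ) : La) - 1) = ((ω ^ m : ℂˣ) : ℂ) - 1 := by
  obtain ⟨q, hq, -⟩ := pow_sub_eq ω m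
  have h1 : evL ω (epL ω) = 0 := ((red_evL ω).ker _).2 dvd_rfl
  have h2 := congrArg (evL ω) hq
  rw [map_sub, map_mul, h1, zero_mul, evL_C, sub_eq_zero] at h2
  rw [map_sub, h2, map_one]

lemma facc_G1_eq (h : XN X Y N n) {ρ : ℕ} (e : Fin ρ → H (tw tL n) 2 univ Y) (θ : ℝ)
    (x y : Fin ρ → ℂ) (q : La)
    (hq : lamL h (∑ i, (LaurentPolynomial.C (x i) : La) • e i)
        (jm (tw tL n) 2 X Y (∑ i, (LaurentPolynomial.C (y i) : La) • e i)) = epL (cu θ) * q) :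
    facc_G1 h e θ x y = Complex.I * cu θ * evL (cu θ) q := by
  have h1 := facc_der h e θ x y
  simp only [facc_Geq, hq] at h1
  exact h1.unique (hasDerivAt_epL θ q)

lemma facc_root (h : XN X Y N n) {m : ℤ} (hm : m ≠ 0)
    (hk : ∀ x : H (tw tL n) 2 (X ∩ Y) ∅, (((tL ^ m : Laˣ) : La) - 1) • x = 0) {ρ : ℕ}
    {e : Fin ρ → H (tw tL n) 2 univ Y}
    (h1 : ∀ x, ∃ c : Fin ρ → La, x - ∑ i, c i • e i ∈ Submodule.torsion La (H (tw tL n) 2 univ Y))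
    (h2 : ∀ c : Fin ρ → La, ∑ i, c i • e i ∈ Submodule.torsion La (H (tw tL n) 2 univ Y) → c = 0)
    (θ : ℝ) (hθ : cu θ ^ m = 1) {W : SF (H (tw (cu θ) n) 1 (X ∩ Y) ∅)}
    (hW : IsW h.xy (cu θ) n W) :
    (∀ x ∈ LinearMap.ker (facc_G h e θ),
      (∀ y ∈ LinearMap.ker (facc_G h e θ), facc_G1 h e θ x y = 0) → x = 0) ∧
    ∃ (Q : Submodule ℂ (H (tw (cu θ) n) 1 (X ∩ Y) ∅))
      (π : Q →ₗ[ℂ] LinearMap.ker (facc_G h e θ)), Function.Surjective π ∧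
      (∀ v v' : Q, facc_G1 h e θ (π v) (π v') = Complex.I * W v v') ∧
      ∀ v, (∀ q ∈ Q, W v q = 0) → v ∈ Q := by
  obtain ⟨β, hR⟩ := facc_res h hk h1 h2 θ hW
  obtain ⟨q, hq, hq'⟩ := pow_sub_eq (cu θ) m
  rw [hθ, Units.val_one, map_one] at hq
  have hq0 : evL (cu θ) q ≠ 0 := by
    rw [hq']
    exact mul_ne_zero (Int.cast_ne_zero.2 hm) (Units.ne_zero _)
  obtain ⟨a1, Q, π, a2, a3, a4⟩ := hR.residue hq hq0 (G₁ := facc_G1 h e θ)
    (c := Complex.I * cu θ) (mul_ne_zero Complex.I_ne_zero (Units.ne_zero _)) (facc_G1_eq h e θ)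
  refine ⟨a1, Q, π, a2, fun v v' => ?_, fun v hv => a4 v fun q hq => ?_⟩
  · rw [a3, map_neg, map_mul, evL_t_inv, evL_C, LinearMap.smul_apply, LinearMap.smul_apply,
      smul_eq_mul, Units.val_inv_eq_inv_val]
    have := Units.ne_zero (cu θ)
    field_simp
  · rw [LinearMap.smul_apply, LinearMap.smul_apply, hv q hq, smul_zero]

theorem exists_family (h : XN X Y N n) {m : ℤ} (hm : m ≠ 0)
    (hk : ∀ x : H (tw tL n) 2 (X ∩ Y) ∅, (((tL ^ m : Laˣ) : La) - 1) • x = 0) :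
    ∃ ρ G G₁, Family h m ρ G G₁ := by
  have : Module.Finite La (H (tw tL n) 2 univ Y) := (h.xy.fg (h.good tL) h.sub).1 2
  obtain ⟨ρ, e, h1, h2⟩ := exists_tbasis La (H (tw tL n) 2 univ Y)
  have hgen : ∀ θ, cu θ ^ m ≠ 1 → LinearMap.ker (facc_G h e θ) = ⊥ := by
    intro θ hθ
    obtain ⟨W, hW⟩ := exists_W h (norm_cu θ)
    obtain ⟨β, hR⟩ := facc_res h hk h1 h2 θ hW
    refine hR.nondeg ?_
    rw [facc_ev_s, sub_ne_zero]
    exact fun h3 => hθ (Units.val_eq_one.1 h3)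
  refine ⟨ρ, facc_G h e, facc_G1 h e, facc_herm h e, facc_der h e, fun θ => ?_, facc_rank h e,
    hgen, fun θ => ?_, fun θ hθ W hW => (facc_root h hm hk h1 h2 θ hθ hW).2⟩
  · have : Module.Finite ℂ (H (tw (cu θ) n) 2 univ Y) := (h.xy.fg (h.good (cu θ)) h.sub).1 2
    obtain ⟨W, hW⟩ := exists_W h (norm_cu θ)
    obtain ⟨β, hR⟩ := facc_res h hk h1 h2 θ hW
    simpa using hR.card_le
  · by_cases hθ : cu θ ^ m = 1
    · obtain ⟨W, hW⟩ := exists_W h (norm_cu θ)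
      exact (facc_root h hm hk h1 h2 θ hθ hW).1
    · intro x hx _
      rwa [hgen θ hθ, Submodule.mem_bot] at hx

end Pool.Agent.P.MP_3d25f3_gt
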