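import Pool.Agent.P.MP_3d25f3_gt.Stmt

set_option autoImplicit false

open Set Filter Topology

namespace Pool.Agent.P.MP_3d25f3_gt

lemma saw_neg (x : ℚ) : saw (-x) = -saw x := by
  unfold saw
  by_cases h : Int.fract x = 0
  · rw [if_pos h, if_pos (Int.fract_neg_eq_zero.2 h), neg_zero]
  · rw [if_neg h, if_neg (fun h' => h (Int.fract_neg_eq_zero.1 h')), Int.fract_neg h]
    ring

lemma saw_add_int (x : ℚ) (k : ℤ) : saw (x + k) = saw x := by
  simp only [saw, Int.fract_add_intCast]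

lemma nta_cons (q : ℕ × ℤ) (S : List (ℕ × ℤ)) (k : ℤ) :
    jmp (q :: S) k = 2 * saw (k * q.2 / q.1) + jmp S k := by
  simp only [jmp, List.map_cons, List.sum_cons]; ring

lemma nta_zero (S : List (ℕ × ℤ)) : jmp S 0 = 0 := by
  induction S with
  | nil => simp [jmp]
  | cons q S ih => rw [nta_cons, ih]; simp [saw]

lemma jmp_neg (S : List (ℕ × ℤ)) (k : ℤ) : jmp S (-k) = -jmp S k := by
  induction S with
  | nil => simp [jmp]
  | cons q S ih =>
    rw [nta_cons, nta_cons, ih, show ((-k : ℤ) : ℚ) * q.2 / q.1 = -(k * q.2 / q.1) by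
      push_cast; ring, saw_neg]
    ring

lemma jmp_add {S : List (ℕ × ℤ)} {m : ℤ} (h : ∀ q ∈ S, (q.1 : ℤ) ∣ m) (k : ℤ) :
    jmp S (k + m) = jmp S k := by
  induction S with
  | nil => simp [jmp]
  | cons q S ih =>
    rw [nta_cons, nta_cons, ih fun q' hq' => h q' (List.mem_cons_of_mem _ hq')]
    obtain ⟨c, rfl⟩ := h q List.mem_cons_self
    by_cases h0 : (q.1 : ℚ) = 0
    · simp [h0]
    · rw [show ((k + q.1 * c : ℤ) : ℚ) * q.2 / q.1 = k * q.2 / q.1 + ((c * q.2 : ℤ) : ℚ) by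
        push_cast; field_simp, saw_add_int]

lemma jmp_of_dvd {S : List (ℕ × ℤ)} {m : ℤ} (h : ∀ q ∈ S, (q.1 : ℤ) ∣ m) : jmp S m = 0 := by
  simpa [nta_zero] using jmp_add h 0

lemma nta_period {S : List (ℕ × ℤ)} {m : ℕ} (h : ∀ q ∈ S, q.1 ∣ m) :
    ∑ j ∈ Finset.range m, jmp S j = 0 := by
  have hm : ∀ q ∈ S, (q.1 : ℤ) ∣ (m : ℤ) := fun q hq => Int.natCast_dvd_natCast.2 (h q hq)
  have h1 : ∑ j ∈ Finset.range (m + 1), jmp S j = ∑ j ∈ Finset.range m, jmp S j := by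
    rw [Finset.sum_range_succ, jmp_of_dvd hm, add_zero]
  have h2 := Finset.sum_flip (n := m) fun j : ℕ => jmp S j
  have h3 : ∑ j ∈ Finset.range (m + 1), jmp S ((m - j : ℕ) : ℤ) =
      -∑ j ∈ Finset.range (m + 1), jmp S j := by
    rw [← Finset.sum_neg_distrib]
    refine Finset.sum_congr rfl fun j hj => ?_
    rw [Nat.cast_sub (Nat.lt_succ_iff.1 (Finset.mem_range.1 hj)), sub_eq_neg_add, jmp_add hm,
      jmp_neg]
  linarith

lemma sum_jmp_mod {S : List (ℕ × ℤ)} {m : ℕ} (h : ∀ q ∈ S, q.1 ∣ m) {k k' : ℕ}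
    (hk : k ≡ k' [MOD m]) :
    ∑ j ∈ Finset.range k, jmp S j = ∑ j ∈ Finset.range k', jmp S j ∧ jmp S k = jmp S k' := by
  wlog hle : k ≤ k' generalizing k k'
  · have := this hk.symm (le_of_not_ge hle)
    exact ⟨this.1.symm, this.2.symm⟩
  obtain ⟨t, ht⟩ := (Nat.modEq_iff_dvd' hle).1 hk
  have hm : ∀ q ∈ S, q.1 ∣ m * t := fun q hq => (h q hq).mul_right t
  have hm' : ∀ q ∈ S, (q.1 : ℤ) ∣ ((m * t : ℕ) : ℤ) := fun q hq => Int.natCast_dvd_natCast.2 (hm q hq)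
  obtain rfl : k' = m * t + k := by omega
  constructor
  · rw [Finset.sum_range_add, nta_period hm, zero_add]
    refine Finset.sum_congr rfl fun j _ => ?_
    rw [Nat.cast_add, add_comm, jmp_add hm']
  · rw [Nat.cast_add, add_comm, jmp_add hm']

/-- choice of the residue -/
lemma exists_residue {n c p a k : ℕ} (hn : 0 < n) (hc : 0 < c) (hp : p.Prime) (hpc : ¬ p ∣ c)
    (hk : n ∣ k * p ^ a) : ∃ k' b, k' < c * n ∧ k' ≡ k [MOD n] ∧ c * n ∣ k' * p ^ b := by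
  obtain ⟨e, n', h1, rfl⟩ := Nat.exists_eq_pow_mul_and_not_dvd hn.ne' p hp.one_lt.ne'
  have hn' : 0 < n' := Nat.pos_of_mul_pos_left hn
  have c1 : n'.Coprime p := ((Nat.Prime.coprime_iff_not_dvd hp).2 h1).symm
  have c2 : c.Coprime p := ((Nat.Prime.coprime_iff_not_dvd hp).2 hpc).symm
  have h2 : n' ∣ k := (c1.pow_right a).dvd_of_dvd_mul_right ((Dvd.intro_left _ rfl).trans hk)
  have c3 : (p ^ e).Coprime (c * n') := ((Nat.Coprime.mul_left c2 c1).pow_right e).symm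
  obtain ⟨k1, k2⟩ := (Nat.chineseRemainder c3 k 0).2
  have k3 := Nat.chineseRemainder_lt_mul c3 k 0 (pow_pos hp.pos e).ne' (Nat.mul_pos hc hn').ne'
  set k' : ℕ := (Nat.chineseRemainder c3 k 0).1
  have k4 : c * n' ∣ k' := Nat.modEq_zero_iff_dvd.1 k2
  refine ⟨k', e, by rwa [mul_left_comm], ?_, ?_⟩
  · refine (Nat.modEq_and_modEq_iff_modEq_mul (c1.pow_right e).symm).1 ⟨k1, ?_⟩
    exact (Nat.modEq_zero_iff_dvd.2 ((Dvd.intro_left _ rfl).trans k4)).trans
      (Nat.modEq_zero_iff_dvd.2 h2).symm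
  · rw [mul_left_comm, mul_comm]
    exact Nat.mul_dvd_mul_right k4 _

lemma nta_int {S : List (ℕ × ℤ)} (h : ∀ k : ℕ, jmp S k = 0) (k : ℤ) : jmp S k = 0 := by
  obtain ⟨n, rfl | rfl⟩ := k.eq_nat_or_neg
  · exact h n
  · rw [jmp_neg, h n, neg_zero]

theorem jmp_zero_of_genus {S : List (ℕ × ℤ)}
    (h : ∀ k : ℕ, |∑ j ∈ Finset.range (k + 1), jmp S j| ≤ 0) (k : ℤ) : jmp S k = 0 := by
  refine nta_int (fun k => ?_) k
  rcases k with _ | k
  · exact nta_zero S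
  · have h1 := abs_nonpos_iff.1 (h k)
    have h2 := abs_nonpos_iff.1 (h (k + 1))
    rwa [Finset.sum_range_succ, h1, zero_add] at h2

lemma nta_split (S : List (ℕ × ℤ)) (α : ℕ) (k : ℤ) : jmp S k =
    jmp (S.filter fun q => q.1 = α) k + jmp (S.filter fun q => !decide (q.1 = α)) k := by
  induction S with
  | nil => simp [jmp]
  | cons q S ih =>
    by_cases h : q.1 = α
    · rw [List.filter_cons_of_pos (by simp [h]), List.filter_cons_of_neg (by simp [h]), nta_cons,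
        nta_cons, ih, add_assoc]
    · rw [List.filter_cons_of_neg (by simp [h]), List.filter_cons_of_pos (by simp [h]), nta_cons,
        nta_cons, ih, add_left_comm]

lemma nta_sum (S : List (ℕ × ℤ)) (A : Finset ℕ) (hA : ∀ q ∈ S, q.1 ∈ A) (k : ℤ) :
    jmp S k = ∑ α ∈ A, jmp (S.filter fun q => q.1 = α) k := by
  induction S with
  | nil => simp [jmp]
  | cons q S ih =>
    have e : ∀ α, jmp ((q :: S).filter fun q => q.1 = α) k =
        (if q.1 = α then 2 * saw (k * q.2 / q.1) else 0) + jmp (S.filter fun q => q.1 = α) k := by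
      intro α
      by_cases h : q.1 = α
      · rw [List.filter_cons_of_pos (by simp [h]), nta_cons, if_pos h]
      · rw [List.filter_cons_of_neg (by simp [h]), if_neg h, zero_add]
    simp only [e, Finset.sum_add_distrib]
    rw [Finset.sum_ite_eq, if_pos (hA q List.mem_cons_self), nta_cons,
      ih fun q' hq' => hA q' (List.mem_cons_of_mem _ hq')]

lemma nta_rec {S : List (ℕ × ℤ)}
    (h : ∀ k : ℕ, 2 * ∑ j ∈ Finset.range k, jmp S j + jmp S k = 0) (k : ℕ) : jmp S k = 0 := by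
  induction k with
  | zero => exact nta_zero S
  | succ k ih =>
    have h1 := h k
    have h2 := h (k + 1)
    rw [Finset.sum_range_succ] at h2
    linarith

theorem jmp_zero_of_pp {S : List (ℕ × ℤ)} (h1 : ∀ q ∈ S, q.1 = 1 ∨ IsPrimePow q.1)
    (h2 : ∀ q ∈ S, ∀ q' ∈ S, q.1 = q'.1 ∨ q.1.Coprime q'.1)
    (h : ∀ p a k : ℕ, p.Prime → (∀ q ∈ S, q.1 ∣ k * p ^ a) → (∃ q ∈ S, ¬ q.1 ∣ k) →
      |2 * ∑ j ∈ Finset.range k, jmp S j + jmp S k| ≤ S.countP fun q => p ∣ q.1 ∧ q.1 ∣ k)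
    (k : ℤ) : jmp S k = 0 := by
  rw [nta_sum S (S.map Prod.fst).toFinset
    (fun q hq => List.mem_toFinset.2 (List.mem_map_of_mem hq))]
  refine Finset.sum_eq_zero fun α hα => ?_
  obtain ⟨q₀, hq₀, hα'⟩ := List.mem_map.1 (List.mem_toFinset.1 hα)
  have hS : ∀ q ∈ S.filter fun q => q.1 = α, q.1 ∣ α := fun q hq => by
    rw [of_decide_eq_true (List.mem_filter.1 hq).2]
  rcases h1 q₀ hq₀ with e | e
  · refine jmp_of_dvd fun q hq => ?_
    rw [of_decide_eq_true (List.mem_filter.1 hq).2, ← hα', e]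
    simp
  obtain ⟨p, a, hp, ha, hpa⟩ := (isPrimePow_nat_iff _).1 e
  have hpα : p ∣ α := by rw [← hα', ← hpa]; exact dvd_pow_self p ha.ne'
  set T := S.filter fun q => !decide (q.1 = α) with hT
  have hTc : ∀ q ∈ T, q.1.Coprime α := fun q hq => by
    obtain ⟨k1, k2⟩ := List.mem_filter.1 hq
    rw [← hα']
    refine (h2 q k1 q₀ hq₀).resolve_left fun k3 => ?_
    simp [k3, hα'] at k2
  have hTm : ∀ q ∈ T, q.1 ∣ (T.map Prod.fst).prod := fun q hq =>
    List.dvd_prod (List.mem_map_of_mem hq)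
  have hco : α.Coprime (T.map Prod.fst).prod := by
    rw [Nat.coprime_list_prod_right_iff]
    intro n hn
    obtain ⟨q, hq, rfl⟩ := List.mem_map.1 hn
    exact (hTc q hq).symm
  refine nta_int (nta_rec fun k₀ => ?_) k
  by_cases hk : α ∣ k₀
  · obtain ⟨k1, k2⟩ := sum_jmp_mod hS (Nat.modEq_zero_iff_dvd.2 hk)
    rw [k1, k2]
    simp [nta_zero]
  obtain ⟨k', l1, l2⟩ := Nat.chineseRemainder hco k₀ 0
  have l3 : ¬ α ∣ k' := fun h' => hk ((l1.dvd_iff dvd_rfl).1 h')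
  have l4 : ∀ q ∈ S, q.1 = α ∨ q ∈ T := fun q hq => by
    by_cases e : q.1 = α
    · exact Or.inl e
    · exact Or.inr (List.mem_filter.2 ⟨hq, by simp [e]⟩)
  have l5 := h p a k' hp (fun q hq => by
    rcases l4 q hq with e | e
    · rw [e, ← hα', ← hpa]; exact Dvd.intro_left _ rfl
    · exact ((hTm q e).trans (Nat.modEq_zero_iff_dvd.1 l2)).mul_right _) ⟨q₀, hq₀, hα' ▸ l3⟩
  have l6 : (S.countP fun q => p ∣ q.1 ∧ q.1 ∣ k') = 0 := by
    refine List.countP_eq_zero.2 fun q hq hq' => ?_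
    obtain ⟨m1, m2⟩ := of_decide_eq_true hq'
    rcases l4 q hq with e | e
    · exact l3 (e ▸ m2)
    · exact hp.one_lt.ne' (Nat.eq_one_of_dvd_coprimes (hTc q e) m1 hpα)
  rw [l6, Nat.cast_zero, abs_nonpos_iff] at l5
  obtain ⟨n1, n2⟩ := sum_jmp_mod hS l1
  obtain ⟨n3, n4⟩ := sum_jmp_mod hTm l2
  simp only [nta_split S α, Finset.sum_add_distrib, ← hT] at l5
  rw [n1, n2, n3, n4] at l5
  simpa [nta_zero] using l5

end Pool.Agent.P.MP_3d25f3_gt
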