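import Pool.Agent.P.MP_3d25f3_gt.Chain

set_option autoImplicit false

open Set Filter Topology

namespace Pool.Agent.P.MP_3d25f3_gt

open Module

variable {g : ℕ} {S : List (ℕ × ℤ)} {ρ : ℕ → ℂ}

/-- value at the vertex number `n` -/
def polyX {L : ℕ} (x : ZMod L → ℂ) (n : ℕ) : ℂ := x (n : ZMod L)

lemma poly_L (x : ZMod (LL g S) → ℂ) : polyX x (LL g S) = polyX x 0 := by
  simp [polyX]

lemma poly_ext (φ : ℕ → ℂ) (h : φ (LL g S) = φ 0) :
    ∃ x : ZMod (LL g S) → ℂ, ∀ n ≤ LL g S, polyX x n = φ n := by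
  refine ⟨fun j => φ j.val, fun n hn => ?_⟩
  rcases hn.eq_or_lt with rfl | hn
  · simp [polyX, h]
  · simp [polyX, ZMod.val_cast_of_lt hn]

lemma poly_conj (h : ∀ e, ‖ρ e‖ = 1) (e : ℕ) : ρ e * starRingEnd ℂ (ρ e) = 1 := by
  rw [Complex.mul_conj, Complex.normSq_eq_norm_sq, h]; simp

lemma poly_st0 {k : ℕ} (hk : k < g) : st g (2 * k) = 4 * k ∧ wd g (2 * k) = 3 := by
  unfold st wd; rw [if_pos (by omega), if_pos (by omega)]; omega

lemma poly_st1 {k : ℕ} (hk : k < g) : st g (2 * k + 1) = 4 * k + 1 ∧ wd g (2 * k + 1) = 3 := by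
  unfold st wd; rw [if_pos (by omega), if_pos (by omega)]; omega

lemma poly_st2 (i : ℕ) : st g (2 * g + i) = 4 * g + 2 * i ∧ wd g (2 * g + i) = 2 := by
  unfold st wd; rw [if_neg (by omega), if_neg (by omega)]; omega

lemma poly_mem' {x : ZMod (LL g S) → ℂ} : x ∈ Pol g S ρ ↔ ∀ e < NE g S,
    polyX x (st g e + wd g e) - ρ e * polyX x (st g e)
      = polyX x (st g e + wd g e - 1) - ρ e * polyX x (st g e + 1) := Iff.rfl

lemma poly_mem {x : ZMod (LL g S) → ℂ} : x ∈ Pol g S ρ ↔
    (∀ k < g, polyX x (4 * k + 3) - ρ (2 * k) * polyX x (4 * k)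
        = polyX x (4 * k + 2) - ρ (2 * k) * polyX x (4 * k + 1) ∧
      polyX x (4 * k + 4) - ρ (2 * k + 1) * polyX x (4 * k + 1)
        = polyX x (4 * k + 3) - ρ (2 * k + 1) * polyX x (4 * k + 2)) ∧
    ∀ i ≤ S.length, polyX x (4 * g + 2 * i + 2) - ρ (2 * g + i) * polyX x (4 * g + 2 * i)
      = polyX x (4 * g + 2 * i + 1) - ρ (2 * g + i) * polyX x (4 * g + 2 * i + 1) := by
  rw [poly_mem']
  constructor
  · intro h
    refine ⟨fun k hk => ⟨?_, ?_⟩, fun i hi => ?_⟩
    · have := h (2 * k) (by unfold NE; omega)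
      rwa [(poly_st0 hk).1, (poly_st0 hk).2] at this
    · have := h (2 * k + 1) (by unfold NE; omega)
      rwa [(poly_st1 hk).1, (poly_st1 hk).2] at this
    · have := h (2 * g + i) (by unfold NE; omega)
      rwa [(poly_st2 i).1, (poly_st2 i).2] at this
  · rintro ⟨h1, h2⟩ e he
    by_cases hg : e < 2 * g
    · obtain ⟨k, rfl | rfl⟩ := Nat.even_or_odd' e
      · rw [(poly_st0 (by omega)).1, (poly_st0 (by omega)).2]
        exact (h1 k (by omega)).1
      · rw [(poly_st1 (by omega)).1, (poly_st1 (by omega)).2]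
        exact (h1 k (by omega)).2
    · obtain ⟨i, rfl⟩ := Nat.exists_eq_add_of_le (not_lt.1 hg)
      rw [(poly_st2 i).1, (poly_st2 i).2]
      exact h2 i (by unfold NE at he; omega)

lemma poly_area' (x y : ZMod (LL g S) → ℂ) : area g S ρ x y =
    Complex.I * ∑ e ∈ Finset.range (NE g S), (polyX x (st g e + wd g e) - ρ e * polyX x (st g e)) *
      starRingEnd ℂ (ρ e) * starRingEnd ℂ (polyX y (st g e + 1) - polyX y (st g e)) := rfl

lemma poly_area (x y : ZMod (LL g S) → ℂ) : area g S ρ x y = Complex.I *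
    (∑ k ∈ Finset.range g,
      ((polyX x (4 * k + 3) - ρ (2 * k) * polyX x (4 * k)) * starRingEnd ℂ (ρ (2 * k)) *
          starRingEnd ℂ (polyX y (4 * k + 1) - polyX y (4 * k)) +
        (polyX x (4 * k + 4) - ρ (2 * k + 1) * polyX x (4 * k + 1)) *
          starRingEnd ℂ (ρ (2 * k + 1)) *
          starRingEnd ℂ (polyX y (4 * k + 2) - polyX y (4 * k + 1))) +
    ∑ i ∈ Finset.range (S.length + 1),
      (polyX x (4 * g + 2 * i + 2) - ρ (2 * g + i) * polyX x (4 * g + 2 * i)) *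
        starRingEnd ℂ (ρ (2 * g + i)) *
        starRingEnd ℂ (polyX y (4 * g + 2 * i + 1) - polyX y (4 * g + 2 * i))) := by
  rw [poly_area', sum_arcs]
  congr 2
  · refine Finset.sum_congr rfl fun k hk => ?_
    have hk := Finset.mem_range.1 hk
    rw [(poly_st0 hk).1, (poly_st0 hk).2, (poly_st1 hk).1, (poly_st1 hk).2]
  · refine Finset.sum_congr rfl fun i _ => ?_
    rw [(poly_st2 i).1, (poly_st2 i).2]

lemma area_herm (h : ∀ e, ‖ρ e‖ = 1) : Herm (cmp (area g S ρ) (Pol g S ρ).subtype) := by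
  rintro ⟨x, hx⟩ ⟨y, hy⟩
  simp only [cmp_apply, Submodule.subtype_apply, poly_area']
  have t := tel (g := g) (S := S) fun n => polyX y n * starRingEnd ℂ (polyX x n)
  rw [poly_L, poly_L, sub_self] at t
  rw [map_mul, Complex.conj_I, map_sum, neg_mul, eq_neg_iff_add_eq_zero, ← mul_add,
    ← Finset.sum_add_distrib]
  refine mul_eq_zero_of_right _ ?_
  rw [← neg_eq_zero, ← Finset.sum_neg_distrib, ← t]
  refine Finset.sum_congr rfl fun e he => ?_
  have h1 := congrArg (starRingEnd ℂ) (poly_mem'.1 hx e (Finset.mem_range.1 he))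
  have h2 := poly_mem'.1 hy e (Finset.mem_range.1 he)
  have h3 := poly_conj h e
  simp only [map_mul, map_sub, Complex.conj_conj] at h1 ⊢
  linear_combination
    (polyX y (st g e) * (starRingEnd ℂ (polyX x (st g e + 1)) - starRingEnd ℂ (polyX x (st g e))) +
      starRingEnd ℂ (polyX x (st g e + 1)) * (polyX y (st g e + 1) - polyX y (st g e))) * h3 -
    (polyX y (st g e + wd g e) + ρ e * (polyX y (st g e + 1) - polyX y (st g e))) * h1 -
    starRingEnd ℂ (polyX x (st g e + wd g e - 1)) * h2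

/-- vertex data that are closed at every handle -/
def polyQ (g : ℕ) (S : List (ℕ × ℤ)) (ρ : ℕ → ℂ) : Submodule ℂ (Pol g S ρ) where
  carrier := {x | ∀ k < g, polyX x.1 (4 * k + 4) = polyX x.1 (4 * k) ∧
    (ρ (2 * k) = 1 → ρ (2 * k + 1) = 1 → polyX x.1 (4 * k + 2) = polyX x.1 (4 * k + 1))}
  zero_mem' := fun _ _ => ⟨rfl, fun _ _ => rfl⟩
  add_mem' := fun ha hb k hk =>
    ⟨congrArg₂ (· + ·) (ha k hk).1 (hb k hk).1,
      fun h1 h2 => congrArg₂ (· + ·) ((ha k hk).2 h1 h2) ((hb k hk).2 h1 h2)⟩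
  smul_mem' := fun r _ ha k hk =>
    ⟨congrArg (r * ·) (ha k hk).1, fun h1 h2 => congrArg (r * ·) ((ha k hk).2 h1 h2)⟩

lemma poly_bump {k : ℕ} (hk : k < g) (p q r : ℂ) (h1 : r = q - ρ (2 * k) * p)
    (h2 : -(ρ (2 * k + 1) * p) = r - ρ (2 * k + 1) * q) (h3 : ρ (2 * k) = 1 → q = p) :
    ∃ x ∈ polyQ g S ρ, ∀ y, area g S ρ x.1 y = Complex.I *
      (r * starRingEnd ℂ (ρ (2 * k)) * starRingEnd ℂ (polyX y (4 * k + 1) - polyX y (4 * k)) -
        ρ (2 * k + 1) * p * starRingEnd ℂ (ρ (2 * k + 1)) *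
          starRingEnd ℂ (polyX y (4 * k + 2) - polyX y (4 * k + 1))) := by
  obtain ⟨x, hx⟩ := poly_ext (g := g) (S := S) (fun n => if n = 4 * k + 1 then p else
    if n = 4 * k + 2 then q else if n = 4 * k + 3 then r else 0) (by
      have hL : LL g S = 4 * g + 2 * (S.length + 1) := rfl
      rw [if_neg (by omega), if_neg (by omega), if_neg (by omega), if_neg (by omega),
        if_neg (by omega), if_neg (by omega)])
  have z : ∀ n ≤ LL g S, n ≠ 4 * k + 1 → n ≠ 4 * k + 2 → n ≠ 4 * k + 3 → polyX x n = 0 :=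
    fun n hn a b c => by rw [hx n hn, if_neg a, if_neg b, if_neg c]
  have x1 : polyX x (4 * k + 1) = p := by rw [hx _ (by unfold LL; omega), if_pos rfl]
  have x2 : polyX x (4 * k + 2) = q := by
    rw [hx _ (by unfold LL; omega), if_neg (by omega), if_pos rfl]
  have x3 : polyX x (4 * k + 3) = r := by
    rw [hx _ (by unfold LL; omega), if_neg (by omega), if_neg (by omega), if_pos rfl]
  have z0 : ∀ j ≤ g, polyX x (4 * j) = 0 := fun j hj =>
    z _ (by unfold LL; omega) (by omega) (by omega) (by omega)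
  have z4 : ∀ j < g, polyX x (4 * j + 4) = 0 := fun j hj => z0 (j + 1) hj
  have zj : ∀ j < g, j ≠ k → ∀ c ≤ 4, polyX x (4 * j + c) = 0 := fun j hj hjk c hc =>
    z _ (by unfold LL; omega) (by omega) (by omega) (by omega)
  have zs : ∀ i ≤ S.length, ∀ c ≤ 2, polyX x (4 * g + 2 * i + c) = 0 := fun i hi c hc =>
    z _ (by unfold LL; omega) (by omega) (by omega) (by omega)
  have hP : x ∈ Pol g S ρ := by
    refine poly_mem.2 ⟨fun j hj => ?_, fun i hi => ?_⟩
    · by_cases e : j = k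
      · subst e
        rw [x1, x2, x3, z0 j hj.le, z4 j hj]
        exact ⟨by linear_combination h1, by linear_combination h2⟩
      · simp [zj j hj e, z0 j hj.le]
    · have := zs i hi 0 (by omega)
      rw [add_zero] at this
      simp [zs i hi, this]
  refine ⟨⟨x, hP⟩, fun j hj => ⟨(z4 j hj).trans (z0 j hj.le).symm, fun a _ => ?_⟩, fun y => ?_⟩
  · by_cases e : j = k
    · subst e
      exact x2.trans ((h3 a).trans x1.symm)
    · exact (zj j hj e 2 (by omega)).trans (zj j hj e 1 (by omega)).symm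
  · rw [poly_area, Finset.sum_eq_single_of_mem k (Finset.mem_range.2 hk), Finset.sum_eq_zero,
      x1, x3, z0 k hk.le, z4 k hk]
    · ring
    · intro i hi
      have hi := Nat.lt_succ_iff.1 (Finset.mem_range.1 hi)
      have := zs i hi 0 (by omega)
      rw [add_zero] at this
      simp [zs i hi, this]
    · intro j hj e
      have hj := Finset.mem_range.1 hj
      simp [zj j hj e, z0 j hj.le]

lemma poly_coiso (h : ∀ e, ‖ρ e‖ = 1) (v : Pol g S ρ)
    (hv : ∀ q ∈ polyQ g S ρ, cmp (area g S ρ) (Pol g S ρ).subtype v q = 0) : v ∈ polyQ g S ρ := by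
  have key : ∀ q ∈ polyQ g S ρ, area g S ρ q.1 v.1 = 0 := fun q hq => by
    have := area_herm h v q
    rw [hv q hq, map_zero] at this
    exact this
  intro k hk
  have a := poly_conj h (2 * k)
  have b := poly_conj h (2 * k + 1)
  obtain ⟨v1, v2⟩ := (poly_mem.1 v.2).1 k hk
  constructor
  · obtain ⟨x, hx, e⟩ := poly_bump (S := S) (ρ := ρ) hk (1 - ρ (2 * k + 1)) (ρ (2 * k) - ρ (2 * k + 1))
      (ρ (2 * k) * ρ (2 * k + 1) - ρ (2 * k + 1)) (by ring) (by ring) (fun a => by rw [a])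
    have := congrArg (starRingEnd ℂ) ((mul_eq_zero.1 ((e v.1).symm.trans (key x hx))).resolve_left
      Complex.I_ne_zero)
    simp only [map_mul, map_sub, Complex.conj_conj, map_one, map_zero] at this
    linear_combination v1 + v2 + ρ (2 * k + 1) * this -
      ρ (2 * k + 1) * starRingEnd ℂ (ρ (2 * k + 1)) *
        (polyX v.1 (4 * k + 1) - polyX v.1 (4 * k)) * a -
      ((1 - ρ (2 * k)) * (polyX v.1 (4 * k + 1) - polyX v.1 (4 * k)) +
        (1 + ρ (2 * k + 1) * starRingEnd ℂ (ρ (2 * k + 1)) - ρ (2 * k + 1)) *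
        (polyX v.1 (4 * k + 2) - polyX v.1 (4 * k + 1))) * b
  · intro a1 b1
    obtain ⟨x, hx, e⟩ := poly_bump (S := S) (ρ := ρ) hk 1 1 0 (by rw [a1]; ring) (by ring) fun _ => rfl
    have := congrArg (starRingEnd ℂ) ((mul_eq_zero.1 ((e v.1).symm.trans (key x hx))).resolve_left
      Complex.I_ne_zero)
    simp only [b1, map_mul, map_sub, Complex.conj_conj, map_one, map_zero] at this
    linear_combination -this

lemma poly_handle {a b a' b' E u w u' w' : ℂ} (ha : a * a' = 1) (hb : b * b' = 1)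
    (h : (1 - a) * u + (1 - b) * w = 0) (h' : (1 - a') * u' + (1 - b') * w' = 0)
    (h1 : a = 1 → b = 1 → w = 0 ∧ w' = 0) :
    (E + u + w - a * u - a * E) * a' * u' + (E - b * (E + u)) * b' * w' = 0 := by
  have T : b * a' * w * u' - u * w' = 0 := by
    by_cases ea : a = 1
    · by_cases eb : b = 1
      · simp [h1 ea eb]
      · refine (mul_eq_zero.1 ?_).resolve_left (sub_ne_zero.2 (Ne.symm eb))
        linear_combination b * a' * u' * h + b * u * h' + b * u * u' * ha + u * w' * hb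
    · refine (mul_eq_zero.1 ?_).resolve_left (sub_ne_zero.2 (Ne.symm ea))
      linear_combination -w' * h - b * w * h' - b * w * u' * ha - w * w' * hb
  linear_combination T + a' * u' * h - E * h' - E * u' * ha - (E + u) * w' * hb

lemma poly_start {x : Pol g S ρ} (hx : x ∈ polyQ g S ρ) : polyX x.1 (4 * g) = polyX x.1 0 := by
  have : ∀ j ≤ g, polyX x.1 (4 * j) = polyX x.1 0 := by
    intro j hj
    induction j with
    | zero => rfl
    | succ j ih => exact ((hx j hj).1).trans (ih (by omega))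
  exact this g le_rfl

lemma poly_slit {x : ZMod (LL g S) → ℂ} (hx : x ∈ Pol g S ρ) {i : ℕ} (hi : i ≤ S.length + 1) :
    polyX x (4 * g + 2 * i) = polyX x (4 * g) + ∑ j ∈ Finset.range i,
      (1 - ρ (2 * g + j)) * (polyX x (4 * g + 2 * j + 1) - polyX x (4 * g + 2 * j)) := by
  induction i with
  | zero => simp
  | succ i ih =>
    have h1 := (poly_mem.1 hx).2 i (by omega)
    rw [Finset.sum_range_succ, show 4 * g + 2 * (i + 1) = 4 * g + 2 * i + 2 by ring]
    linear_combination ih (by omega) + h1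

lemma poly_closed {x : Pol g S ρ} (hx : x ∈ polyQ g S ρ) : ∑ j ∈ Finset.range (S.length + 1),
    (1 - ρ (2 * g + j)) * (polyX x.1 (4 * g + 2 * j + 1) - polyX x.1 (4 * g + 2 * j)) = 0 := by
  have h1 := poly_slit x.2 le_rfl
  have h2 : polyX x.1 (4 * g + 2 * (S.length + 1)) = polyX x.1 0 := poly_L x.1
  linear_combination h2 - h1 - poly_start hx

/-- the slit vectors -/
noncomputable def polyD (g : ℕ) (S : List (ℕ × ℤ)) (ρ : ℕ → ℂ) :
    polyQ g S ρ →ₗ[ℂ] clos (S.length + 1) fun i => ρ (2 * g + i) where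
  toFun x := ⟨fun i => polyX x.1.1 (4 * g + 2 * i + 1) - polyX x.1.1 (4 * g + 2 * i), by
    rw [mem_clos, ← poly_closed x.2, Finset.sum_range]⟩
  map_add' x y := by
    ext i
    simp only [polyX, Submodule.coe_add, Pi.add_apply]
    ring
  map_smul' r x := by
    ext i
    simp only [polyX, Submodule.coe_smul, Pi.smul_apply, smul_eq_mul, RingHom.id_apply]
    ring

lemma polyD_surj : Function.Surjective (polyD g S ρ) := by
  rintro ⟨D, hD⟩
  rw [mem_clos] at hD
  set D' : ℕ → ℂ := fun j => if h : j < S.length + 1 then D ⟨j, h⟩ else 0 with hD'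
  set P : ℕ → ℂ := fun i => ∑ j ∈ Finset.range i, (1 - ρ (2 * g + j)) * D' j with hP
  have P0 : P 0 = 0 := rfl
  have PL : P (S.length + 1) = 0 := by
    rw [← hD, hP]
    simp only [Finset.sum_range, hD', Fin.is_lt, dif_pos]
  obtain ⟨x, hx⟩ := poly_ext (g := g) (S := S) (fun n => P ((n - 4 * g) / 2) +
    if (n - 4 * g) % 2 = 1 then D' ((n - 4 * g) / 2) else 0) (by
      have hL : LL g S = 4 * g + 2 * (S.length + 1) := rfl
      rw [if_neg (by omega), if_neg (by omega), show (LL g S - 4 * g) / 2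
        = S.length + 1 by omega, show (0 - 4 * g) / 2 = 0 by omega, PL, P0])
  have z : ∀ n ≤ 4 * g, polyX x n = 0 := fun n hn => by
    rw [hx n (by unfold LL; omega), if_neg (by omega), show (n - 4 * g) / 2 = 0 by omega, P0,
      add_zero]
  have zc : ∀ k < g, ∀ c ≤ 4, polyX x (4 * k + c) = 0 := fun k hk c hc => z _ (by omega)
  have x0 : ∀ i ≤ S.length + 1, polyX x (4 * g + 2 * i) = P i := fun i hi => by
    rw [hx _ (by unfold LL; omega), if_neg (by omega),
      show (4 * g + 2 * i - 4 * g) / 2 = i by omega, add_zero]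
  have x1 : ∀ i ≤ S.length, polyX x (4 * g + 2 * i + 1) = P i + D' i := fun i hi => by
    rw [hx _ (by unfold LL; omega), if_pos (by omega),
      show (4 * g + 2 * i + 1 - 4 * g) / 2 = i by omega]
  have hPol : x ∈ Pol g S ρ := by
    refine poly_mem.2 ⟨fun k hk => by simp [zc k hk, z (4 * k) (by omega)], fun i hi => ?_⟩
    have e : P (i + 1) = P i + (1 - ρ (2 * g + i)) * D' i := Finset.sum_range_succ _ i
    rw [show 4 * g + 2 * i + 2 = 4 * g + 2 * (i + 1) by ring, x0 _ (by omega), x0 i (by omega),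
      x1 i hi, e]
    ring
  refine ⟨⟨⟨x, hPol⟩, fun k hk => ⟨(zc k hk 4 le_rfl).trans (z _ (by omega)).symm,
    fun _ _ => (zc k hk 2 (by omega)).trans (zc k hk 1 (by omega)).symm⟩⟩, ?_⟩
  ext i
  change polyX x (4 * g + 2 * i + 1) - polyX x (4 * g + 2 * i) = D i
  rw [x1 i (by omega), x0 i (by omega), add_sub_cancel_left, hD']
  simp only [Fin.is_lt, dif_pos]

lemma poly_chain (n : ℕ) (r D D' : ℕ → ℂ) :
    chain n (fun i => r i) (fun i => D i) (fun i => D' i) = Complex.I * ∑ i ∈ Finset.range n,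
      -((∑ j ∈ Finset.range i, (1 - r j) * D j + D i) * starRingEnd ℂ ((1 - r i) * D' i)) := by
  rw [chain, gram_apply, Finset.sum_comm, Finset.mul_sum, Finset.sum_range]
  refine Finset.sum_congr rfl fun i _ => ?_
  have e : ∑ j ∈ Finset.range i, (1 - r j) * D j + D i =
      ∑ j : Fin n, (if j < i then 1 - r j else if j = i then 1 else 0) * D j := by
    simp only [Fin.lt_def, Fin.ext_iff]
    rw [← Finset.sum_range (fun j => (if j < i.1 then 1 - r j else if j = i.1 then 1 else 0) * D j),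
      ← Finset.sum_subset (Finset.range_subset_range.2 (Nat.succ_le_of_lt i.2)),
      Finset.sum_range_succ, if_neg (lt_irrefl _), if_pos rfl, one_mul]
    · exact congrArg (· + _) (Finset.sum_congr rfl fun j hj => by
        rw [if_pos (Finset.mem_range.1 hj)])
    · intro j _ hj
      rw [Finset.mem_range] at hj
      rw [if_neg (by omega), if_neg (by omega), zero_mul]
  rw [e, Finset.sum_mul, ← Finset.sum_neg_distrib, Finset.mul_sum]
  refine Finset.sum_congr rfl fun j _ => ?_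
  rw [map_mul]
  ring

lemma poly_eq (h : ∀ e, ‖ρ e‖ = 1) (x y : polyQ g S ρ) : area g S ρ x.1.1 y.1.1 =
    chain (S.length + 1) (fun i => ρ (2 * g + i)) (polyD g S ρ x).1 (polyD g S ρ y).1 := by
  refine Eq.trans ?_ (poly_chain (S.length + 1) (fun i => ρ (2 * g + i))
    (fun i => polyX x.1.1 (4 * g + 2 * i + 1) - polyX x.1.1 (4 * g + 2 * i))
    (fun i => polyX y.1.1 (4 * g + 2 * i + 1) - polyX y.1.1 (4 * g + 2 * i))).symm
  rw [poly_area, Finset.sum_eq_zero, zero_add]
  · have c := congrArg (fun z => polyX x.1.1 (4 * g) * starRingEnd ℂ z) (poly_closed y.2)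
    simp only [map_zero, mul_zero, map_sum, Finset.mul_sum] at c
    congr 1
    rw [← sub_eq_zero, ← neg_eq_zero, neg_sub, ← Finset.sum_sub_distrib, ← c]
    refine Finset.sum_congr rfl fun i hi => ?_
    have hi := Finset.mem_range.1 hi
    have h1 := poly_slit x.1.2 hi.le
    have h2 := (poly_mem.1 x.1.2).2 i (by omega)
    have h3 := poly_conj h (2 * g + i)
    simp only [map_mul, map_sub, map_one]
    rw [h2, ← sub_eq_iff_eq_add'.2 h1]
    linear_combination (polyX x.1.1 (4 * g + 2 * i + 1) *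
      (starRingEnd ℂ (polyX y.1.1 (4 * g + 2 * i + 1)) -
        starRingEnd ℂ (polyX y.1.1 (4 * g + 2 * i)))) * h3
  · intro k hk
    have hk := Finset.mem_range.1 hk
    obtain ⟨x1, x2⟩ := (poly_mem.1 x.1.2).1 k hk
    obtain ⟨y1, y2⟩ := (poly_mem.1 y.1.2).1 k hk
    obtain ⟨x3, x4⟩ := x.2 k hk
    obtain ⟨y3, y4⟩ := y.2 k hk
    have hy : (1 - ρ (2 * k)) * (polyX y.1.1 (4 * k + 1) - polyX y.1.1 (4 * k)) +
        (1 - ρ (2 * k + 1)) * (polyX y.1.1 (4 * k + 2) - polyX y.1.1 (4 * k + 1)) = 0 := by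
      linear_combination y3 - y1 - y2
    have hy' := congrArg (starRingEnd ℂ) hy
    simp only [map_add, map_mul, map_sub (starRingEnd ℂ) 1, map_one, map_zero] at hy'
    have := poly_handle (E := polyX x.1.1 (4 * k))
      (u := polyX x.1.1 (4 * k + 1) - polyX x.1.1 (4 * k))
      (w := polyX x.1.1 (4 * k + 2) - polyX x.1.1 (4 * k + 1)) (poly_conj h (2 * k))
      (poly_conj h (2 * k + 1)) (by linear_combination x3 - x1 - x2) hy'
      (fun a b => ⟨sub_eq_zero.2 (x4 a b), by rw [y4 a b, sub_self, map_zero]⟩)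
    rw [x3]
    linear_combination this + starRingEnd ℂ (ρ (2 * k)) *
      starRingEnd ℂ (polyX y.1.1 (4 * k + 1) - polyX y.1.1 (4 * k)) * x1

/-- the handles do not contribute -/
lemma area_sgn_chain (h : ∀ e, ‖ρ e‖ = 1) :
    sgn (cmp (area g S ρ) (Pol g S ρ).subtype)
      = sgn (cmp (chain (S.length + 1) fun i => ρ (2 * g + i))
        (clos (S.length + 1) fun i => ρ (2 * g + i)).subtype) := by
  have e1 := sgn_coiso (Q := polyQ g S ρ) (area_herm h) (poly_coiso h)
  have e2 := sgn_cmp_surj (W := polyQ g S ρ) (cmp (chain (S.length + 1) fun i => ρ (2 * g + i))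
    (clos (S.length + 1) fun i => ρ (2 * g + i)).subtype) (f := polyD g S ρ) polyD_surj
  rw [← e1, ← e2]
  congr 1
  exact LinearMap.ext₂ fun x y => poly_eq h x y

theorem area_sgn (hS : Data S) (h : ∀ e, ‖ρ e‖ = 1) (k : ℤ)
    (hk : ∀ i ≤ S.length, ρ (2 * g + i) = rt (k * (pr g S (2 * g + i)).2 / (pr g S (2 * g + i)).1)) :
    (sgn (cmp (area g S ρ) (Pol g S ρ).subtype) : ℚ) = -jmp S k := by
  have e : (fun i : Fin (S.length + 1) => ρ (2 * g + i)) =
      fun i : Fin (S.length + 1) => rt (k * (pr g S (2 * g + i)).2 / (pr g S (2 * g + i)).1) :=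
    funext fun i => hk i (Nat.lt_succ_iff.1 i.2)
  have s1 := sum_getD (g := g) (S := S) fun p => (p.2 : ℚ) / p.1
  have s2 := sum_getD (g := g) (S := S) fun p => saw (k * p.2 / p.1)
  rw [hS.2, Finset.sum_range] at s1
  rw [Finset.sum_range] at s2
  have s0 : saw 0 = 0 := by simp [saw]
  have s3 : ∑ i : Fin (S.length + 1), (k * (pr g S (2 * g + i)).2 / (pr g S (2 * g + i)).1 : ℚ)
      = 0 := by
    simp only [mul_div_assoc, ← Finset.mul_sum, s1]
    simp
  rw [area_sgn_chain h, e, chain_sgn, s2, s3, jmp]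
  simp [s0]

end Pool.Agent.P.MP_3d25f3_gt
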