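import Pool.Agent.P.MP_3d25f3_gt.Exi

set_option autoImplicit false

open Set Filter Topology

namespace Pool.Agent.P.MP_3d25f3_gt

open Module

variable {g : ℕ} {S : List (ℕ × ℤ)} {n : Seifert g S → Seifert g S → ℤ}
  {A : Cov → ℤ} {N : ℤ} {ne : ℕ → ℤ}

lemma the_eq [T2Space (Seifert g S)] (hn : CocZ n univ) (h : Per g S n A N ne) {ω : ℂˣ}
    (hω : ω ^ N = 1) {v v' : List (Seifert g S) → ℂ} (hv : v ∈ Zc (tw ω n) 1 univ ∅)
    (hv' : v' ∈ Zc (tw ω n) 1 univ ∅) {E E' : Cov → ℂ} (hE : Prim g S ω A v E)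
    (hE' : Prim g S ω A v' E') (h1 : ∀ y z, E (y, z + 1) = E (y, z))
    (h1' : ∀ y z, E' (y, z + 1) = E' (y, z)) (ve : ℕ → ℂ)
    (h2 : ∀ e < NE g S, ∀ s ∈ Icc (0 : ℝ) 1, ∀ z,
      E (gb g S e s z) = ((ω ^ ne e : ℂˣ) : ℂ) * E (ga g S e s z) + ve e)
    (h2' : ∀ e < NE g S, ∀ s ∈ Icc (0 : ℝ) 1, ∀ z,
      E' (gb g S e s z) = ((ω ^ ne e : ℂˣ) : ℂ) * E' (ga g S e s z) + ve e) :
    cl v hv = cl v' hv' := by
  rw [cl_eq]
  have e : v - v' = (1 : ℂ) • v + (-1 : ℂ) • v' := by simp [sub_eq_add_neg]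
  have hz : (1 : ℂ) • v + (-1 : ℂ) • v' ∈ Zc (tw ω n) 1 univ ∅ := e ▸ sub_mem hv hv'
  rw [e]
  refine Prim.mem_Bc hn h hz (hE.sub hE' 1 (-1)) (fun y z => ?_) fun e he s hs z => ?_
  · rw [h1, h1', hω]; simp
  · rw [h2 e he s hs, h2' e he s hs]; ring

lemma the_val {j : ℕ} (hj : j < LL g S) : ((j : ℕ) : ZMod (LL g S)).val = j :=
  ZMod.val_cast_of_lt hj

lemma the_data (hS : Data S) (h : Per g S n A N ne) {ω : ℂˣ} (hω : ω ^ N = 1)
    (hne : ∃ e < NE g S, ω ^ ne e ≠ 1) {v : List (Seifert g S) → ℂ} {E : Cov → ℂ}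
    (hE : Prim g S ω A v E) : (∀ y z, E (y, z + 1) = E (y, z)) ∧
      ∃ x ∈ Pol g S (fun e => ((ω ^ ne e : ℂˣ) : ℂ)), ∀ e < NE g S, ∀ s ∈ Icc (0 : ℝ) 1, ∀ z,
        E (gb g S e s z) = ((ω ^ ne e : ℂˣ) : ℂ) * E (ga g S e s z) +
          vv g (fun e => ((ω ^ ne e : ℂˣ) : ℂ)) x e := by
  obtain ⟨vh, ve, h1, h2⟩ := hE.data h
  simp only [hω, Units.val_one, one_mul] at h1
  set ρ : ℕ → ℂ := fun e => ((ω ^ ne e : ℂˣ) : ℂ) with hρ
  have h0 : (0 : ℝ) ∈ Icc (0 : ℝ) 1 := ⟨le_rfl, zero_le_one⟩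
  have h01 : (1 : ℝ) ∈ Icc (0 : ℝ) 1 := ⟨zero_le_one, le_rfl⟩
  have hvh : vh = 0 := by
    obtain ⟨e, he, hne⟩ := hne
    have a1 := h2 e he 0 h0 (0 + 1)
    have a2 := h2 e he 0 h0 0
    simp only [ga, gb, zero_mul, add_zero] at a1 a2
    rw [h1, h1, a2] at a1
    have a3 : (ρ e - 1) * vh = 0 := by simp only [hρ]; linear_combination -a1
    refine (mul_eq_zero.1 a3).resolve_left fun a4 => hne (Units.ext ?_)
    exact sub_eq_zero.1 a4
  simp only [hvh, add_zero] at h1
  have hint : ∀ (y : Disc) (z : ℝ) (k : ℤ), E (y, z + k) = E (y, z) := by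
    intro y z k
    induction k using Int.induction_on with
    | zero => simp
    | succ k ih => rw [← ih, ← h1 y (z + (k : ℤ))]; congr 2; push_cast; ring
    | pred k ih => rw [← ih, ← h1 y (z + (-k - 1 : ℤ))]; congr 2; push_cast; ring
  let X : ℕ → ℂ := fun k => if 4 * g ≤ k ∧ k % 2 = 1 then
    ve (2 * g + (k - 4 * g) / 2) / (1 - ρ (2 * g + (k - 4 * g) / 2)) else E (bp (LL g S) k, 0)
  let x : ZMod (LL g S) → ℂ := fun j => X j.val
  have hx : ∀ j ≤ LL g S, ¬ (4 * g ≤ j ∧ j % 2 = 1) → x j = E (bp (LL g S) j, 0) := by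
    intro j hj hj'
    rcases hj.eq_or_lt with rfl | hj
    · have e1 : bp (LL g S) ((0 : ℕ) : ℝ) = bp (LL g S) (LL g S) :=
        (bp_eq_iff (NeZero.ne _) _ _).2 ⟨1, by simp⟩
      simp only [x, X, ZMod.natCast_self, ZMod.val_zero]
      rw [if_neg (by omega), e1]
    · simp only [x, X, the_val hj]
      rw [if_neg hj']
  have hv1 : ∀ e < NE g S, vv g ρ x e = ve e := by
    intro e he
    have a1 := h2 e he 0 h0 0
    have a2 := st_le he
    simp only [ga, gb, zero_mul, add_zero, sub_zero] at a1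
    rw [vv, hx _ a2 (by unfold st wd; split_ifs <;> omega),
      hx _ (by omega) (by unfold st; split_ifs <;> omega)]
    push_cast
    rw [a1]
    simp only [hρ]
    push_cast
    ring
  refine ⟨h1, x, fun e he => ?_, fun e he s hs z => by rw [hv1 e he]; exact h2 e he s hs z⟩
  rw [hv1 e he]
  have a2 := st_le he
  have a3 := wd_ge (g := g) e
  by_cases hg : e < 2 * g
  · have a1 := h2 e he 1 h01 0
    have a4 : sh g S e = 0 := by simp [sh, pr, hg]
    simp only [ga, gb, a4, mul_zero, add_zero] at a1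
    rw [hx _ (by omega) (by unfold st wd; split_ifs; omega),
      hx _ (by omega) (by unfold st; split_ifs; omega), Nat.cast_sub (by omega)]
    push_cast
    rw [a1]
    simp only [hρ]
    push_cast
    ring
  · have a4 : wd g e = 2 := by simp [wd, hg]
    have a5 : st g e = 4 * g + 2 * (e - 2 * g) := by simp [st, hg]
    have a6 : st g e + wd g e - 1 = st g e + 1 := by omega
    have a7 : x ((st g e + 1 : ℕ) : ZMod _) = ve e / (1 - ρ e) := by
      have a8 : 2 * g + (st g e + 1 - 4 * g) / 2 = e := by omega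
      simp only [x, X, the_val (show st g e + 1 < LL g S by omega)]
      rw [if_pos (by omega), a8]
    rw [a6, a7]
    by_cases h1ρ : ρ e = 1
    · have b1 : ∀ z, E (bp (LL g S) (st g e + 1), z + sh g S e) =
          E (bp (LL g S) (st g e + 1), z) + ve e := by
        intro z
        have a1 := h2 e he 1 h01 z
        have a9 : ((ω ^ ne e : ℂˣ) : ℂ) = 1 := h1ρ
        simp only [ga, gb, a4, one_mul, a9] at a1
        rw [← a1]
        congr 3
        push_cast
        ring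
      have b2 : ∀ m : ℕ, E (bp (LL g S) (st g e + 1), m * sh g S e) =
          E (bp (LL g S) (st g e + 1), 0) + m * ve e := by
        intro m
        induction m with
        | zero => simp
        | succ m ih => push_cast; rw [add_mul, one_mul, b1, ih]; ring
      have b3 := (pr_data (g := g) hS e).1
      have b4 : (((pr g S e).1 : ℕ) : ℝ) * sh g S e = 0 + ((pr g S e).2 : ℤ) := by
        have : (((pr g S e).1 : ℕ) : ℝ) ≠ 0 := by exact_mod_cast (by omega : (pr g S e).1 ≠ 0)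
        rw [sh]; field_simp; simp
      have b5 := b2 (pr g S e).1
      rw [b4, hint] at b5
      have b6 : (((pr g S e).1 : ℕ) : ℂ) ≠ 0 := by exact_mod_cast (by omega : (pr g S e).1 ≠ 0)
      have b7 : ve e = 0 := (mul_eq_zero.1 (by linear_combination -b5)).resolve_left b6
      rw [b7, h1ρ]
      simp
    · have b1 : 1 - ρ e ≠ 0 := sub_ne_zero.2 (Ne.symm h1ρ)
      field_simp

lemma the_arc {ω : ℂˣ} {x : ZMod (LL g S) → ℂ} {v : List (Seifert g S) → ℂ} {E : Disc → ℂ}
    (h : IsRep g S ω A ne x v E) : ∀ e < NE g S, ∀ s ∈ Icc (0 : ℝ) 1, ∀ z,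
      (fun y : Cov => E y.1) (gb g S e s z) =
        ((ω ^ ne e : ℂˣ) : ℂ) * (fun y : Cov => E y.1) (ga g S e s z) +
          vv g (fun e => ((ω ^ ne e : ℂˣ) : ℂ)) x e :=
  fun e he s hs _ => h.arc e he s hs

/-- the first twisted cohomology is a quotient of the vertex data -/
theorem exists_theta [T2Space (Seifert g S)] (hS : Data S) (hn : CocZ n univ)
    (h : Per g S n A N ne) {ω : ℂˣ} (hω : ω ^ N = 1) (hne : ∃ e < NE g S, ω ^ ne e ≠ 1) :
    ∃ Θ : Pol g S (fun e => ((ω ^ ne e : ℂˣ) : ℂ)) →ₗ[ℂ] H (tw ω n) 1 univ ∅,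
      Function.Surjective Θ ∧ ∀ x, ∃ v hv E, IsRep g S ω A ne x.1 v E ∧ Θ x = cl v hv := by
  choose v hv E hE using fun x : Pol g S (fun e => ((ω ^ ne e : ℂˣ) : ℂ)) =>
    exists_rep hn h hω x.2
  have lin : ∀ (a b : ℂ) (x y : Pol g S (fun e => ((ω ^ ne e : ℂˣ) : ℂ))),
      cl (v (a • x + b • y)) (hv _) = a • cl (v x) (hv x) + b • cl (v y) (hv y) := by
    intro a b x y
    rw [← cl_smul, ← cl_smul, ← cl_add]
    refine the_eq hn h hω _ _ (hE _).prim ((hE x).prim.sub (hE y).prim a b) (fun _ _ => rfl)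
      (fun _ _ => rfl) _ (the_arc (hE _)) fun e he s hs z => ?_
    have a1 := the_arc (hE x) e he s hs z
    have a2 := the_arc (hE y) e he s hs z
    simp only at a1 a2 ⊢
    rw [a1, a2]
    simp only [vv, Submodule.coe_add, Submodule.coe_smul, Pi.add_apply, Pi.smul_apply,
      smul_eq_mul]
    ring
  refine ⟨{ toFun := fun x => cl (v x) (hv x)
            map_add' := fun x y => by simpa using lin 1 1 x y
            map_smul' := fun a x => by simpa using lin a 0 x x }, fun c => ?_,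
    fun x => ⟨v x, hv x, E x, hE x, rfl⟩⟩
  obtain ⟨w, hw, rfl⟩ := cl_surj c
  obtain ⟨F, hF⟩ := exists_prim h hw
  obtain ⟨h1, x, hx, h2⟩ := the_data hS h hω hne hF
  exact ⟨⟨x, hx⟩, the_eq hn h hω _ _ (hE _).prim hF (fun _ _ => rfl) h1 _ (the_arc (hE _)) h2⟩

lemma finrank_Pol (ρ : ℕ → ℂ) : NE g S ≤ finrank ℂ (Pol g S ρ) := by
  let f : (ZMod (LL g S) → ℂ) →ₗ[ℂ] (Fin (NE g S) → ℂ) :=
    { toFun := fun x e => vv g ρ x e - (x ((st g e + wd g e - 1 : ℕ) : ZMod _) -
        ρ e * x ((st g e + 1 : ℕ) : ZMod _))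
      map_add' := fun x y => by
        funext e
        simp only [vv, Pi.add_apply]
        ring
      map_smul' := fun a x => by
        funext e
        simp only [vv, Pi.smul_apply, smul_eq_mul, RingHom.id_apply]
        ring }
  have h1 : LinearMap.ker f ≤ Pol g S ρ := fun x hx e he =>
    sub_eq_zero.1 (congrFun (LinearMap.mem_ker.1 hx) ⟨e, he⟩)
  have h2 := Submodule.finrank_mono h1
  have h3 := LinearMap.finrank_range_add_finrank_ker f
  have h4 := (LinearMap.range f).finrank_le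
  rw [finrank_fintype_fun_eq_card, ZMod.card] at h3
  rw [finrank_fintype_fun_eq_card, Fintype.card_fin] at h4
  have h5 : LL g S = 2 * NE g S := by unfold LL NE; omega
  omega

open Classical in
/-- vertex data without jumps -/
lemma finrank_nojump {ρ : ℕ → ℂ} (hρ : ∀ e, ρ e ≠ 0) (K : Submodule ℂ (ZMod (LL g S) → ℂ))
    (hK : ∀ x ∈ K, x ∈ Pol g S ρ ∧ ∃ C : ℂ, ∀ e < NE g S, vv g ρ x e = (1 - ρ e) * C) :
    finrank ℂ K ≤ 2 + ((Finset.range (S.length + 1)).filter fun i => ρ (2 * g + i) = 1).card := by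
  set T := (Finset.range (S.length + 1)).filter fun i => ρ (2 * g + i) = 1 with hT
  let K0 : Submodule ℂ (ZMod (LL g S) → ℂ) :=
    { carrier := {y | ∀ e < NE g S,
        y ((st g e + wd g e : ℕ) : ZMod _) = ρ e * y ((st g e : ℕ) : ZMod _) ∧
        y ((st g e + wd g e - 1 : ℕ) : ZMod _) = ρ e * y ((st g e + 1 : ℕ) : ZMod _)}
      zero_mem' := fun _ _ => by simp
      add_mem' := fun {a b} ha hb e he => by
        simp only [Pi.add_apply, (ha e he).1, (ha e he).2, (hb e he).1, (hb e he).2, mul_add,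
          and_self]
      smul_mem' := fun r a ha e he => by
        simp only [Pi.smul_apply, smul_eq_mul, (ha e he).1, (ha e he).2, mul_left_comm,
          and_self] }
  have h1 : K ≤ Submodule.span ℂ {(1 : ZMod (LL g S) → ℂ)} ⊔ K0 := by
    intro x hx
    obtain ⟨hp, C, hC⟩ := hK x hx
    refine Submodule.mem_sup.2 ⟨C • 1, Submodule.smul_mem _ _ (Submodule.mem_span_singleton_self _),
      x - C • 1, fun e he => ?_, by simp⟩
    have a1 := hp e he
    have a2 := hC e he
    rw [a2] at a1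
    simp only [vv] at a2
    simp only [Pi.sub_apply, Pi.smul_apply, Pi.one_apply, smul_eq_mul, mul_one]
    exact ⟨by linear_combination a2, by linear_combination -a1⟩
  let f : K0 →ₗ[ℂ] (Option T → ℂ) :=
    { toFun := fun y o => y.1 ((o.elim 0 fun i => 4 * g + 2 * i.1 + 1 : ℕ) : ZMod _)
      map_add' := fun _ _ => rfl
      map_smul' := fun _ _ => rfl }
  have hf : Function.Injective f := by
    rw [injective_iff_map_eq_zero]
    rintro ⟨y, hy⟩ h0
    have y0 : y ((0 : ℕ) : ZMod _) = 0 := congrFun h0 none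
    have hd : ∀ k < g, y ((4 * k : ℕ) : ZMod _) = 0 → y ((4 * k + 1 : ℕ) : ZMod _) = 0 ∧
        y ((4 * k + 2 : ℕ) : ZMod _) = 0 ∧ y ((4 * k + 3 : ℕ) : ZMod _) = 0 ∧
        y ((4 * k + 4 : ℕ) : ZMod _) = 0 := by
      intro k hk hy0
      have a := hy (2 * k) (by unfold NE; omega)
      have b := hy (2 * k + 1) (by unfold NE; omega)
      have s1 : st g (2 * k) = 4 * k := by unfold st; split_ifs <;> omega
      have s2 : st g (2 * k + 1) = 4 * k + 1 := by unfold st; split_ifs <;> omega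
      have w1 : wd g (2 * k) = 3 := by unfold wd; split_ifs <;> omega
      have w2 : wd g (2 * k + 1) = 3 := by unfold wd; split_ifs <;> omega
      rw [s1, w1, show 4 * k + 3 - 1 = 4 * k + 2 by omega] at a
      rw [s2, w2, show 4 * k + 1 + 3 - 1 = 4 * k + 3 by omega] at b
      have c3 : y ((4 * k + 3 : ℕ) : ZMod _) = 0 := by rw [a.1, hy0, mul_zero]
      have c2 : y ((4 * k + 2 : ℕ) : ZMod _) = 0 :=
        (mul_eq_zero.1 (b.2.symm.trans c3)).resolve_left (hρ _)
      have c1 : y ((4 * k + 1 : ℕ) : ZMod _) = 0 :=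
        (mul_eq_zero.1 (a.2.symm.trans c2)).resolve_left (hρ _)
      exact ⟨c1, c2, c3, by rw [show 4 * k + 4 = 4 * k + 1 + 3 by omega, b.1, c1, mul_zero]⟩
    have h4 : ∀ k ≤ g, y ((4 * k : ℕ) : ZMod _) = 0 := by
      intro k
      induction k with
      | zero => exact fun _ => y0
      | succ k ih => exact fun hk => (hd k hk (ih (by omega))).2.2.2
    have hs : ∀ i ≤ S.length, (y ((4 * g + 2 * i + 2 : ℕ) : ZMod _) =
        ρ (2 * g + i) * y ((4 * g + 2 * i : ℕ) : ZMod _)) ∧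
        y ((4 * g + 2 * i + 1 : ℕ) : ZMod _) = 0 := by
      intro i hi
      have a := hy (2 * g + i) (by unfold NE; omega)
      have s1 : st g (2 * g + i) = 4 * g + 2 * i := by unfold st; split_ifs <;> omega
      have w1 : wd g (2 * g + i) = 2 := by unfold wd; split_ifs <;> omega
      rw [s1, w1, show 4 * g + 2 * i + 2 - 1 = 4 * g + 2 * i + 1 by omega] at a
      refine ⟨a.1, ?_⟩
      by_cases h1 : ρ (2 * g + i) = 1
      · exact congrFun h0 (some ⟨i, Finset.mem_filter.2 ⟨Finset.mem_range.2 (by omega), h1⟩⟩)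
      · exact (mul_eq_zero.1 (show (1 - ρ (2 * g + i)) * _ = 0 by
          linear_combination a.2)).resolve_left (sub_ne_zero.2 (Ne.symm h1))
    have h5 : ∀ i ≤ S.length + 1, y ((4 * g + 2 * i : ℕ) : ZMod _) = 0 := by
      intro i
      induction i with
      | zero => exact fun _ => h4 g le_rfl
      | succ i ih =>
        intro hi
        rw [show 4 * g + 2 * (i + 1) = 4 * g + 2 * i + 2 by omega, (hs i (by omega)).1,
          ih (by omega), mul_zero]
    refine Subtype.ext (funext fun j => ?_)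
    obtain ⟨m, hm, rfl⟩ : ∃ m < LL g S, (m : ZMod (LL g S)) = j :=
      ⟨j.val, ZMod.val_lt j, ZMod.natCast_zmod_val j⟩
    show y m = 0
    unfold LL at hm
    by_cases hg : m < 4 * g
    · have a := h4 (m / 4) (by omega)
      have b := hd (m / 4) (by omega) a
      have : m = 4 * (m / 4) ∨ m = 4 * (m / 4) + 1 ∨ m = 4 * (m / 4) + 2 ∨
          m = 4 * (m / 4) + 3 := by omega
      rcases this with e | e | e | e <;> rw [e]
      exacts [a, b.1, b.2.1, b.2.2.1]
    · have : m = 4 * g + 2 * ((m - 4 * g) / 2) ∨ m = 4 * g + 2 * ((m - 4 * g) / 2) + 1 := by omega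
      rcases this with e | e <;> rw [e]
      exacts [h5 _ (by omega), (hs _ (by omega)).2]
  have h2 := LinearMap.finrank_le_finrank_of_injective hf
  rw [finrank_fintype_fun_eq_card, Fintype.card_option, Fintype.card_coe] at h2
  have h3 := Submodule.finrank_add_le_finrank_add_finrank
    (Submodule.span ℂ {(1 : ZMod (LL g S) → ℂ)}) K0
  have h4 := finrank_span_singleton (K := ℂ) (v := (1 : ZMod (LL g S) → ℂ)) one_ne_zero
  have h5 := Submodule.finrank_mono h1
  omega

open Classical in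
theorem finrank_tw [T2Space (Seifert g S)] (hS : Data S) (hn : CocZ n univ)
    (h : Per g S n A N ne) {ω : ℂˣ} (hω : ω ^ N = 1) (hne : ∃ e < NE g S, ω ^ ne e ≠ 1) :
    2 * g + ((Finset.range (S.length + 1)).filter fun i => ω ^ ne (2 * g + i) ≠ 1).card
      ≤ finrank ℂ (H (tw ω n) 1 univ ∅) + 2 := by
  obtain ⟨Θ, hΘ, hrep⟩ := exists_theta hS hn h hω hne
  have h1 := LinearMap.finrank_range_add_finrank_ker Θ
  rw [LinearMap.range_eq_top.2 hΘ, finrank_top] at h1
  have h2 := finrank_Pol (g := g) (S := S) fun e => ((ω ^ ne e : ℂˣ) : ℂ)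
  have h3 := finrank_nojump (g := g) (S := S) (ρ := fun e => ((ω ^ ne e : ℂˣ) : ℂ))
    (fun e => Units.ne_zero _) ((LinearMap.ker Θ).map (Submodule.subtype _)) (by
      rintro _ ⟨x, hx, rfl⟩
      obtain ⟨v, hv, E, hE, e1⟩ := hrep x
      have hB : v ∈ Bc (tw ω n) 1 univ ∅ := (cl_eq_zero hv).1 (e1 ▸ LinearMap.mem_ker.1 hx)
      obtain ⟨C, -, hC⟩ := hE.prim.of_Bc h hB
      refine ⟨x.2, C, fun e he => ?_⟩
      have a1 := hC e he 0 ⟨le_rfl, zero_le_one⟩ 0
      have a2 := the_arc hE e he 0 ⟨le_rfl, zero_le_one⟩ 0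
      simp only at a1 a2
      rw [a2] at a1
      show vv g _ x.1 e = _
      linear_combination a1)
  rw [Submodule.finrank_map_subtype_eq] at h3
  have h4 := Finset.card_filter_add_card_filter_not (s := Finset.range (S.length + 1))
    fun i => ω ^ ne (2 * g + i) = 1
  have h5 : ((Finset.range (S.length + 1)).filter
      fun i => ((ω ^ ne (2 * g + i) : ℂˣ) : ℂ) = 1).card =
      ((Finset.range (S.length + 1)).filter fun i => ω ^ ne (2 * g + i) = 1).card := by
    congr 1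
    exact Finset.filter_congr fun i _ => Units.val_eq_one
  rw [Finset.card_range] at h4
  unfold NE at h2
  simp only [ne_eq] at h4 ⊢
  omega

end Pool.Agent.P.MP_3d25f3_gt
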