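import Pool.Agent.P.MP_3d25f3_gt.Prm
import Pool.Agent.P.MP_3d25f3_gt.FacC
import Pool.Agent.P.MP_3d25f3_gt.The
import Pool.Agent.P.MP_3d25f3_gt.Poly
import Pool.Agent.P.MP_3d25f3_gt.AnnB
import Pool.Agent.P.MP_3d25f3_gt.NtA

set_option autoImplicit false

open Set Filter Topology

namespace Pool.Agent.P.MP_3d25f3_gt

open Module

variable {g : ℕ} {S : List (ℕ × ℤ)} {s : Side (Seifert g S)} {A : Cov → ℤ} {N : ℕ} {ne : ℕ → ℤ}

lemma ev_of_int (hS : Data S) {w : List E4 → ℂ} (hw : w ∈ Zc (1 : E4 → E4 → ℂ) 3 (s.X ∩ s.Y) ∅)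
    {c : ℂ} (h : Ev g S (pull s.e 1 w) c) (h0 : intM ℂ s.xy (cl w hw) = 0) : c = 0 := by
  obtain ⟨Φ, hΦ⟩ := s.equiv_one ℂ 3
  obtain ⟨h', e⟩ := hΦ w hw
  have h1 : cl w hw = 0 := intM_inj s.xy (s.inter ▸ isPreconnected_range s.cont)
    (h0.trans (map_zero _).symm)
  rw [h1, map_zero] at e
  exact h.zero hS ((cl_eq_zero h').1 e.symm)

lemma exists_theta' (hS : Data S) (h : Per g S s.nM A N ne) {ω : ℂˣ} (hω : ‖(ω : ℂ)‖ = 1)
    (hN : ω ^ (N : ℤ) = 1) (hne : ∃ e < NE g S, ω ^ ne e ≠ 1)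
    {W : SF (H (tw ω s.n) 1 (s.X ∩ s.Y) ∅)} (hW : IsW s.xy ω s.n W) :
    ∃ Θ : Pol g S (fun e => ((ω ^ ne e : ℂˣ) : ℂ)) →ₗ[ℂ] H (tw ω s.n) 1 (s.X ∩ s.Y) ∅,
      Function.Surjective Θ ∧ ∀ x x', ∃ w hw, W (Θ x) (Θ x') = intM ℂ s.xy (cl w hw) ∧
        Ev g S (pull s.e 1 w)
          (-Complex.I * N * area g S (fun e => ((ω ^ ne e : ℂˣ) : ℂ)) x.1 x'.1) := by
  have := s.t2
  obtain ⟨Θ, hΘ, hr⟩ := exists_theta hS s.cocM h hN hne
  obtain ⟨Φ, hΦ⟩ := s.equiv ω 1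
  refine ⟨Φ.symm.toLinearMap ∘ₗ Θ, Φ.symm.surjective.comp hΘ, fun x x' => ?_⟩
  obtain ⟨v, hv, E, hE, e⟩ := hr x
  obtain ⟨v', hv', E', hE', e'⟩ := hr x'
  obtain ⟨u, hu, f⟩ := cl_surj (Φ.symm (Θ x))
  obtain ⟨u', hu', f'⟩ := cl_surj (Φ.symm (Θ x'))
  obtain ⟨hw, hW'⟩ := hW u hu u' hu'
  refine ⟨_, hw, ?_, ?_⟩
  · rw [← hW', f, f']; rfl
  obtain ⟨h1, e1⟩ := hΦ u hu
  obtain ⟨h2, e2⟩ := hΦ u' hu'
  rw [f, LinearEquiv.apply_symm_apply, e, cl_eq] at e1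
  rw [f', LinearEquiv.apply_symm_apply, e', cl_eq] at e2
  refine (ev_wf h hω hE hE').congr ?_
  have h3 := wf_Bc s.cocM hω hv hv' e1 e2
  have h4 : wf ω s.nM (pull s.e 1 u) (pull s.e 1 u') - pull s.e 1 (wf ω s.n u u')
      ∈ Null ℂ 3 (univ : Set (Seifert g S)) := by
    refine fun y _ => ⟨univ, univ_mem, fun l hl _ => ?_⟩
    match l, hl with
    | [a, b, c, d], _ => simp [wf, cup, co1, tw, Side.nM]
  have := add_mem h3 (Null_le_Bc _ _ _ _ h4)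
  rwa [sub_add_sub_cancel] at this

/-- comparison of signatures through a coisotropic subspace -/
lemma sgn_transfer {P V K : Type} [AddCommGroup P] [Module ℂ P] [AddCommGroup V] [Module ℂ V]
    [AddCommGroup K] [Module ℂ K] [FiniteDimensional ℂ P] [FiniteDimensional ℂ K] {a : SF P}
    (ha : Herm a) {W : SF V} {B : SF K} (hB : Herm B) {Θ : P →ₗ[ℂ] V} (hΘ : Function.Surjective Θ)
    {κ : ℂ} (hκ : κ ≠ 0) (h : ∀ x y, a x y = κ * (Complex.I * W (Θ x) (Θ y))) {Q : Submodule ℂ V}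
    {π : Q →ₗ[ℂ] K} (hπ : Function.Surjective π) (h1 : ∀ v v' : Q, B (π v) (π v') = Complex.I * W v v')
    (h2 : ∀ v, (∀ q ∈ Q, W v q = 0) → v ∈ Q) :
    sgn B = (if 0 < κ.re then 1 else -1) * sgn a := by
  have : FiniteDimensional ℂ V := Module.Finite.of_surjective Θ hΘ
  set B₀ : SF V := (κ * Complex.I) • W with hB₀
  have e0 : ∀ x y, B₀ x y = κ * (Complex.I * W x y) := fun x y => by simp [hB₀, mul_assoc]
  have ea : a = cmp B₀ Θ := by ext x y; simp [h, e0]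
  have hH : Herm B₀ := by
    intro x y
    obtain ⟨x, rfl⟩ := hΘ x
    obtain ⟨y, rfl⟩ := hΘ y
    rw [e0, e0, ← h, ← h]
    exact ha x y
  have e1 : sgn a = sgn (cmp B₀ Q.subtype) := by
    rw [ea, sgn_cmp_surj _ hΘ, sgn_coiso hH]
    refine fun v hv => h2 v fun q hq => ?_
    have := hv q hq
    rw [e0] at this
    simpa [hκ] using this
  have e2 : ∀ v : Q, cmp B₀ Q.subtype v v = κ * cmp B π v v := fun v => by simp [e0, h1]
  have e3 : ∀ v : Q, (cmp B π v v).im = 0 := fun v =>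
    Complex.conj_eq_iff_im.1 (hB (π v) (π v)).symm
  have e4 : ∀ v : Q, (cmp B₀ Q.subtype v v).im = 0 := fun v =>
    Complex.conj_eq_iff_im.1 (hH v v).symm
  have e5 : ∀ v : Q, (cmp B₀ Q.subtype v v).re = κ.re * (cmp B π v v).re := fun v => by
    rw [e2, Complex.mul_re, e3]; ring
  rw [e1, ← sgn_cmp_surj B hπ]
  rcases lt_trichotomy 0 κ.re with hp | hp | hp
  · rw [if_pos hp, one_mul, sgn_of_scale hp e5]
  · have him : κ.im ≠ 0 := fun h0 => hκ (Complex.ext hp.symm h0)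
    have e6 : ∀ v : Q, (cmp B π v v).re = 0 := fun v => by
      have := e4 v
      rw [e2, Complex.mul_im, e3, mul_zero, zero_add] at this
      exact (mul_eq_zero.1 this).resolve_left him
    rw [sgn_of_zero e6, sgn_of_zero fun v => by rw [e5, e6, mul_zero], mul_zero]
  · rw [if_neg hp.not_gt, sgn_of_scale_neg hp e5]; ring

theorem bridge (hS : Data S) (h : Per g S s.nM A N ne) (hN : 0 < N) (hp : Primi g S N ne)
    {U : Set E4} {hx : XN s.X s.Y U s.n} {ρ : ℕ} {G G₁ : ℝ → SF (Fin ρ → ℂ)}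
    (hF : Family hx N ρ G G₁) : (∀ k, jmp S k = 0) ∨ ∃ η : ℚ, (η = 1 ∨ η = -1) ∧ ∀ k : ℤ,
      ¬ (N : ℤ) ∣ k →
        (sgn (cmp (G₁ (th N k)) (LinearMap.ker (G (th N k))).subtype) : ℚ) = η * jmp S k := by
  obtain ⟨κ, hκ⟩ : ∃ κ : ℂ, ∀ (w : List E4 → ℂ) (hw : w ∈ Zc (1 : E4 → E4 → ℂ) 3 (s.X ∩ s.Y) ∅)
      (c : ℂ), Ev g S (pull s.e 1 w) c → c = κ * intM ℂ s.xy (cl w hw) := by
    by_cases hex : ∃ (w : List E4 → ℂ) (hw : w ∈ Zc (1 : E4 → E4 → ℂ) 3 (s.X ∩ s.Y) ∅) (c : ℂ),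
        Ev g S (pull s.e 1 w) c ∧ intM ℂ s.xy (cl w hw) ≠ 0
    · obtain ⟨w₀, hw₀, c₀, h₀, hI⟩ := hex
      refine ⟨c₀ / intM ℂ s.xy (cl w₀ hw₀), fun w hw c hc => ?_⟩
      have h1 := hc.lin h₀ (intM ℂ s.xy (cl w₀ hw₀)) (-intM ℂ s.xy (cl w hw))
      rw [← map_smul, ← map_smul, ← map_add] at h1
      have h2 := ev_of_int hS (add_mem (Submodule.smul_mem _ _ hw) (Submodule.smul_mem _ _ hw₀)) h1
        (by rw [cl_add (Submodule.smul_mem _ _ hw) (Submodule.smul_mem _ _ hw₀), cl_smul _ hw,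
              cl_smul _ hw₀, map_add, map_smul, map_smul, smul_eq_mul, smul_eq_mul]; ring)
      field_simp
      linear_combination h2
    · push Not at hex
      exact ⟨0, fun w hw c hc => by rw [zero_mul]; exact ev_of_int hS hw hc (hex w hw c hc)⟩
  have hN' : (N : ℂ) ≠ 0 := by exact_mod_cast hN.ne'
  have key : ∀ k : ℤ, ¬ (N : ℤ) ∣ k → ∃ (P : Type) (_ : AddCommGroup P) (_ : Module ℂ P)
      (_ : FiniteDimensional ℂ P) (a : SF P) (W : SF (H (tw (cu (th N k)) s.n) 1 (s.X ∩ s.Y) ∅))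
      (Θ : P →ₗ[ℂ] H (tw (cu (th N k)) s.n) 1 (s.X ∩ s.Y) ∅), Herm a ∧ (sgn a : ℚ) = -jmp S k ∧
      IsW hx.xy (cu (th N k)) s.n W ∧ Function.Surjective Θ ∧
      ∀ x y, a x y = κ / N * (Complex.I * W (Θ x) (Θ y)) := by
    intro k hk
    obtain ⟨W, hW⟩ := exists_W hx (norm_cu (th N k))
    have hω : cu (th N k) ^ (N : ℤ) = 1 := (cu_pow_eq_one hN _).2 ⟨k, rfl⟩
    have hne : ∃ e < NE g S, cu (th N k) ^ ne e ≠ 1 := by
      by_contra hc
      push Not at hc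
      exact hk ((cu_th_eq_one hN k).1 (hp _ hω hc))
    obtain ⟨Θ, hΘ, hv⟩ := exists_theta' hS h (norm_cu _) hω hne hW
    have hρ : ∀ e, ‖((cu (th N k) ^ ne e : ℂˣ) : ℂ)‖ = 1 := fun e => by
      rw [Units.val_zpow_eq_zpow_val, norm_zpow, norm_cu, one_zpow]
    refine ⟨_, _, _, inferInstance, cmp (area g S _) (Pol g S _).subtype, W, Θ, area_herm hρ,
      area_sgn hS hρ k fun i hi => cu_th_slit hS h hN k hi, hW, hΘ, fun x y => ?_⟩
    obtain ⟨w, hw, e1, e2⟩ := hv x y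
    have e3 := hκ w hw _ e2
    rw [← e1] at e3
    rw [cmp_apply, Submodule.subtype_apply, Submodule.subtype_apply]
    field_simp
    linear_combination Complex.I * e3
      + (N * area g S (fun e => ((cu (th N k) ^ ne e : ℂˣ) : ℂ)) x.1 y.1) * Complex.I_mul_I
  by_cases h0 : κ = 0
  · refine Or.inl fun k => ?_
    by_cases hk : (N : ℤ) ∣ k
    · exact jmp_of_dvd fun q hq => (h.dvd hS hq).trans hk
    · obtain ⟨P, _, _, _, a, W, Θ, -, h2, -, -, h5⟩ := key k hk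
      rw [sgn_of_zero fun x => by simp [h5, h0]] at h2
      simpa using h2
  refine Or.inr ⟨-(if 0 < (κ / N).re then 1 else -1), by split_ifs <;> simp, fun k hk => ?_⟩
  obtain ⟨P, _, _, _, a, W, Θ, h1, h2, h3, h4, h5⟩ := key k hk
  obtain ⟨Q, π, hπ, h6, h7⟩ := hF.res _ ((cu_pow_eq_one hN _).2 ⟨k, rfl⟩) W h3
  have hH : Herm (cmp (G₁ (th N k)) (LinearMap.ker (G (th N k))).subtype) := by
    intro x y
    have d1 := hF.der (th N k) y x
    have d2 := (hF.der (th N k) x y).star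
    have : (fun u => G u y x) = fun u => star (G u x y) := funext fun u => hF.herm u x y
    rw [this] at d1
    exact d1.unique d2
  rw [sgn_transfer h1 hH h4 (div_ne_zero h0 hN') h5 hπ h6 h7]
  push_cast
  rw [h2]
  split_ifs <;> ring

end Pool.Agent.P.MP_3d25f3_gt
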