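import Pool.Agent.P.MP_3d25f3_gt.PolD

set_option autoImplicit false

open Set Filter Topology

namespace Pool.Agent.P.MP_3d25f3_gt

open Module

lemma chain_unit {r : ℂ} (h : ‖r‖ = 1) : r * starRingEnd ℂ r = 1 := by
  rw [Complex.mul_conj, Complex.normSq_eq_norm_sq, h]; simp

lemma chain_skew (n : ℕ) {ρ : Fin n → ℂ} (h : ∀ i, ‖ρ i‖ = 1) (x y : Fin n → ℂ) :
    chain n ρ y x = starRingEnd ℂ (chain n ρ x y) -
      Complex.I * ((∑ i, (1 - ρ i) * y i) * starRingEnd ℂ (∑ j, (1 - ρ j) * x j)) := by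
  simp only [chain, gram_apply, map_sum]
  rw [Finset.sum_comm (f := fun i j => starRingEnd ℂ _), Finset.sum_mul_sum, Finset.mul_sum,
    ← Finset.sum_sub_distrib]
  refine Finset.sum_congr rfl fun i _ => ?_
  rw [Finset.mul_sum, ← Finset.sum_sub_distrib]
  refine Finset.sum_congr rfl fun j _ => ?_
  rcases lt_trichotomy i j with hij | rfl | hij
  · simp only [if_pos hij, if_neg hij.not_gt, if_neg hij.ne', map_mul, map_zero]
    ring
  · simp only [lt_irrefl, if_false, if_true, map_mul, map_neg, Complex.conj_I, Complex.conj_conj,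
      map_one, map_sub]
    linear_combination (Complex.I * y i * starRingEnd ℂ (x i)) * chain_unit (h i)
  · simp only [if_pos hij, if_neg hij.not_gt, if_neg hij.ne', map_mul, map_neg, Complex.conj_I,
      Complex.conj_conj]
    ring

lemma chain_herm (n : ℕ) {ρ : Fin n → ℂ} (h : ∀ i, ‖ρ i‖ = 1) :
    Herm (cmp (chain n ρ) (clos n ρ).subtype) := by
  intro x y
  have hy := (mem_clos n ρ y.1).1 y.2
  simp only [cmp_apply, Submodule.subtype_apply]
  rw [chain_skew n h, hy, zero_mul, mul_zero, sub_zero]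

lemma chain_rt_add (a b : ℚ) : rt (a + b) = rt a * rt b := by
  simp only [rt, Rat.cast_add, mul_add, Complex.exp_add]

lemma chain_rt_int (k : ℤ) : rt k = 1 := by
  rw [rt, ← Complex.exp_int_mul_two_pi_mul_I k]
  congr 1
  push_cast
  ring

lemma chain_rt_fract (a : ℚ) : rt (Int.fract a) = rt a := by
  conv_rhs => rw [← Int.floor_add_fract a, chain_rt_add, chain_rt_int, one_mul]

lemma chain_rt_norm (a : ℚ) : ‖rt a‖ = 1 := by
  rw [← Complex.norm_exp_ofReal_mul_I (2 * Real.pi * a), rt]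
  congr 2
  push_cast
  ring

lemma chain_rt_one {a : ℚ} (h : rt a = 1) : ∃ k : ℤ, a = k := by
  obtain ⟨k, hk⟩ := Complex.exp_eq_one_iff.1 h
  refine ⟨k, ?_⟩
  have h2 : (a : ℂ) = k := by
    refine mul_left_cancel₀ Complex.two_pi_I_ne_zero ?_
    rw [hk, mul_comm]
  exact_mod_cast h2

lemma chain_saw_int (k : ℤ) : saw k = 0 := by simp [saw]

lemma chain_saw_add (k : ℤ) (b : ℚ) : saw (k + b) = saw b := by
  simp only [saw, Int.fract_intCast_add]

lemma chain_one_sub (a : ℚ) : 1 - rt a =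
    -2 * Complex.I * Complex.exp (Real.pi * a * Complex.I) * (Real.sin (Real.pi * a) : ℝ) := by
  have e1 : rt a = Complex.exp (Real.pi * a * Complex.I) * Complex.exp (Real.pi * a * Complex.I) := by
    rw [rt, ← Complex.exp_add]
    congr 1
    ring
  have e2 : Complex.exp (Real.pi * a * Complex.I) * Complex.exp (-(Real.pi * a) * Complex.I) = 1 := by
    rw [← Complex.exp_add, ← Complex.exp_zero]
    congr 1
    ring
  rw [e1, Complex.ofReal_sin, Complex.sin]
  push_cast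
  linear_combination (-1 : ℂ) * e2 + (Complex.exp (Real.pi * a * Complex.I) *
    (Complex.exp (-(Real.pi * a) * Complex.I) - Complex.exp (Real.pi * a * Complex.I))) *
      Complex.I_mul_I

lemma chain_val {a b : ℚ} (ha : Real.sin (Real.pi * a) ≠ 0) (hb : Real.sin (Real.pi * b) ≠ 0) :
    (-Complex.I * ((1 - rt a * rt b) / ((1 - rt a) * (1 - rt b)))).re =
      Real.sin (Real.pi * (a + b : ℚ)) / (2 * (Real.sin (Real.pi * a) * Real.sin (Real.pi * b))) := by
  rw [← chain_rt_add, chain_one_sub, chain_one_sub, chain_one_sub, ← Complex.ofReal_re (_ / _)]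
  congr 1
  have e : Complex.exp (Real.pi * (a + b : ℚ) * Complex.I) =
      Complex.exp (Real.pi * a * Complex.I) * Complex.exp (Real.pi * b * Complex.I) := by
    rw [← Complex.exp_add]
    congr 1
    push_cast
    ring
  have ha' : ((Real.sin (Real.pi * a) : ℝ) : ℂ) ≠ 0 := Complex.ofReal_ne_zero.2 ha
  have hb' : ((Real.sin (Real.pi * b) : ℝ) : ℂ) ≠ 0 := Complex.ofReal_ne_zero.2 hb
  have h1 := Complex.exp_ne_zero (Real.pi * a * Complex.I)
  have h2 := Complex.exp_ne_zero (Real.pi * b * Complex.I)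
  have h3 := Complex.I_ne_zero
  rw [e, Complex.ofReal_div, Complex.ofReal_mul, Complex.ofReal_mul]
  generalize ((Real.sin (Real.pi * a) : ℝ) : ℂ) = s at ha' ⊢
  generalize ((Real.sin (Real.pi * b) : ℝ) : ℂ) = t at hb' ⊢
  generalize ((Real.sin (Real.pi * (a + b : ℚ)) : ℝ) : ℂ) = u
  generalize Complex.exp (Real.pi * a * Complex.I) = E at h1 ⊢
  generalize Complex.exp (Real.pi * b * Complex.I) = E' at h2 ⊢
  push_cast
  field_simp

lemma chain_sin_pos {a : ℚ} (h0 : 0 < a) (h1 : a < 1) : 0 < Real.sin (Real.pi * a) := by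
  have a0 : (0 : ℝ) < a := by exact_mod_cast h0
  have a1 : (a : ℝ) < 1 := by exact_mod_cast h1
  exact Real.sin_pos_of_pos_of_lt_pi (mul_pos Real.pi_pos a0) (mul_lt_of_lt_one_right Real.pi_pos a1)

lemma chain_merge {a b : ℚ} (a0 : 0 < a) (a1 : a < 1) (b0 : 0 < b) (b1 : b < 1) :
    ((SignType.sign (-Complex.I * ((1 - rt a * rt b) / ((1 - rt a) * (1 - rt b)))).re : ℤ) : ℚ)
      = 2 * saw (a + b) - 2 * (a - 1 / 2) - 2 * (b - 1 / 2) := by
  have sa := chain_sin_pos a0 a1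
  have sb := chain_sin_pos b0 b1
  have hd : 0 < 2 * (Real.sin (Real.pi * a) * Real.sin (Real.pi * b)) := by positivity
  rw [chain_val sa.ne' sb.ne']
  rcases lt_trichotomy (a + b) 1 with h | h | h
  · have hf : Int.fract (a + b) = a + b := Int.fract_eq_self.2 ⟨by linarith, h⟩
    rw [sign_pos (div_pos (chain_sin_pos (by linarith) h) hd), saw, hf, if_neg (by linarith)]
    simp only [SignType.coe_one, Int.cast_one]
    ring
  · rw [h, saw, Int.fract_one, if_pos rfl]
    simp only [Rat.cast_one, mul_one, Real.sin_pi, zero_div, sign_zero, SignType.coe_zero,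
      Int.cast_zero]
    linarith
  · have hf : Int.fract (a + b) = a + b - 1 := by
      rw [← Int.fract_sub_one]
      exact Int.fract_eq_self.2 ⟨by linarith, by linarith⟩
    have hs : Real.sin (Real.pi * (a + b : ℚ)) = -Real.sin (Real.pi * (a + b - 1 : ℚ)) := by
      rw [← Real.sin_add_pi]
      congr 1
      push_cast
      ring
    have hp := chain_sin_pos (a := a + b - 1) (by linarith) (by linarith)
    rw [hs, sign_neg (div_neg_of_neg_of_pos (neg_neg_of_pos hp) hd), saw, hf,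
      if_neg (by linarith)]
    simp only [SignType.coe_neg_one, Int.reduceNeg, Int.cast_neg, Int.cast_one]
    ring

lemma merge_sign {a b : ℚ} (ha : rt a ≠ 1) (hb : rt b ≠ 1) :
    ((SignType.sign (-Complex.I * ((1 - rt a * rt b) / ((1 - rt a) * (1 - rt b)))).re : ℤ) : ℚ)
      = 2 * saw (a + b) - 2 * saw a - 2 * saw b := by
  have f0 : ∀ {a : ℚ}, rt a ≠ 1 → Int.fract a ≠ 0 := fun {a} h h0 =>
    h (by rw [← chain_rt_fract, h0]; exact_mod_cast chain_rt_int 0)
  have e : saw (a + b) = saw (Int.fract a + Int.fract b) := by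
    rw [← chain_saw_add (⌊a⌋ + ⌊b⌋) (Int.fract a + Int.fract b)]
    congr 1
    push_cast
    linarith [Int.floor_add_fract a, Int.floor_add_fract b]
  rw [e, saw.eq_1 a, saw.eq_1 b, if_neg (f0 ha), if_neg (f0 hb), ← chain_rt_fract a,
    ← chain_rt_fract b]
  exact chain_merge ((Int.fract_nonneg a).lt_of_ne' (f0 ha)) (Int.fract_lt_one a)
    ((Int.fract_nonneg b).lt_of_ne' (f0 hb)) (Int.fract_lt_one b)

lemma chain_succ (n : ℕ) (ρ x y : Fin (n + 1) → ℂ) :
    chain (n + 1) ρ x y = -Complex.I * (x 0 * starRingEnd ℂ ((1 - ρ 0) * y 0) +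
        (1 - ρ 0) * x 0 * starRingEnd ℂ (∑ j : Fin n, (1 - ρ j.succ) * y j.succ)) +
      chain n (fun i => ρ i.succ) (fun i => x i.succ) (fun i => y i.succ) := by
  simp only [chain, gram_apply, Fin.sum_univ_succ, if_false, if_true, Fin.succ_pos,
    Fin.not_lt_zero, Fin.succ_ne_zero, Fin.succ_lt_succ_iff, Fin.succ_inj, map_sum, map_mul,
    zero_mul, mul_zero, zero_add, mul_add, Finset.mul_sum]
  congr 2
  · ring
  · exact Finset.sum_congr rfl fun j _ => by ring

lemma chain_tr {U V : Type} [AddCommGroup U] [Module ℂ U] [AddCommGroup V] [Module ℂ V]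
    [FiniteDimensional ℂ U] [FiniteDimensional ℂ V] (B : SF U) (B' : SF V) (Q : Submodule ℂ V)
    (f : U →ₗ[ℂ] V) (hm : ∀ u, f u ∈ Q) (hs : ∀ w ∈ Q, ∃ u, f u = w)
    (h : ∀ u u', B u u' = B' (f u) (f u')) : sgn B = sgn (cmp B' Q.subtype) := by
  have hf : Function.Surjective (f.codRestrict Q hm) := fun w => by
    obtain ⟨u, hu⟩ := hs w.1 w.2
    exact ⟨u, Subtype.ext hu⟩
  rw [← sgn_cmp_surj _ hf]
  congr 1
  ext u u'
  exact h u u'

/-- forget one of the first two coordinates -/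
noncomputable def chainP (n : ℕ) (k : Fin (n + 2)) : (Fin (n + 2) → ℂ) →ₗ[ℂ] (Fin (n + 1) → ℂ) :=
  LinearMap.funLeft ℂ ℂ (Fin.cons k fun j : Fin n => j.succ.succ)

@[simp] lemma chainP_zero (n : ℕ) (k : Fin (n + 2)) (x : Fin (n + 2) → ℂ) :
    chainP n k x 0 = x k := rfl

@[simp] lemma chainP_succ (n : ℕ) (k : Fin (n + 2)) (x : Fin (n + 2) → ℂ) (j : Fin n) :
    chainP n k x j.succ = x j.succ.succ := rfl

section step
variable {n : ℕ} {ρ : Fin (n + 2) → ℂ} {ρ' : Fin (n + 1) → ℂ}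

lemma chain_case0 (h0 : ρ 0 = 1) (e0 : ρ' 0 = ρ 0 * ρ 1) (es : ∀ j : Fin n, ρ' j.succ = ρ j.succ.succ) :
    sgn (cmp (chain (n + 2) ρ) (clos (n + 2) ρ).subtype) =
      sgn (cmp (chain (n + 1) ρ') (clos (n + 1) ρ').subtype) := by
  refine chain_tr _ _ _ ((chainP n 1).comp (clos (n + 2) ρ).subtype) (fun u => ?_)
    (fun w hw => ⟨⟨Fin.cons 0 w, ?_⟩, ?_⟩) fun u u' => ?_
  · have hu := (mem_clos _ _ _).1 u.2
    rw [mem_clos]
    simp only [Fin.sum_univ_succ, Fin.succ_zero_eq_one, LinearMap.comp_apply,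
      Submodule.subtype_apply, chainP_zero, chainP_succ, e0, es, h0] at hu ⊢
    linear_combination hu
  · rw [mem_clos] at hw ⊢
    simp only [Fin.sum_univ_succ, Fin.cons_zero, Fin.cons_succ, e0, es, h0] at hw ⊢
    rw [Fin.succ_zero_eq_one]
    linear_combination hw
  · funext j
    refine Fin.cases rfl (fun j => rfl) j
  · simp only [cmp_apply, LinearMap.comp_apply, Submodule.subtype_apply, chain_succ (n + 1),
      chain_succ n, chainP_zero, chainP_succ, e0, es, h0, Fin.succ_zero_eq_one, sub_self, zero_mul,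
      map_zero, mul_zero, one_mul, zero_add]

lemma chain_case1 (h1 : ρ 1 = 1) (e0 : ρ' 0 = ρ 0 * ρ 1) (es : ∀ j : Fin n, ρ' j.succ = ρ j.succ.succ) :
    sgn (cmp (chain (n + 2) ρ) (clos (n + 2) ρ).subtype) =
      sgn (cmp (chain (n + 1) ρ') (clos (n + 1) ρ').subtype) := by
  refine chain_tr _ _ _ ((chainP n 0).comp (clos (n + 2) ρ).subtype) (fun u => ?_)
    (fun w hw => ⟨⟨Fin.cons (w 0) (Fin.cons 0 fun j => w j.succ), ?_⟩, ?_⟩) fun u u' => ?_
  · have hu := (mem_clos _ _ _).1 u.2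
    rw [mem_clos]
    simp only [Fin.sum_univ_succ, Fin.succ_zero_eq_one, LinearMap.comp_apply,
      Submodule.subtype_apply, chainP_zero, chainP_succ, e0, es, h1] at hu ⊢
    linear_combination hu
  · rw [mem_clos] at hw ⊢
    simp only [Fin.sum_univ_succ, Fin.cons_zero, Fin.cons_succ, e0, es, h1] at hw ⊢
    linear_combination hw
  · funext j
    refine Fin.cases rfl (fun j => rfl) j
  · simp only [cmp_apply, LinearMap.comp_apply, Submodule.subtype_apply, chain_succ (n + 1),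
      chain_succ n, chainP_zero, chainP_succ, e0, es, h1, Fin.succ_zero_eq_one, sub_self, zero_mul,
      map_zero, mul_zero, mul_one, zero_add, Fin.sum_univ_succ]

lemma chain_case2 (h : ∀ i, ‖ρ i‖ = 1) (h0 : ρ 0 ≠ 1) (h1 : ρ 1 ≠ 1) (e0 : ρ' 0 = ρ 0 * ρ 1)
    (es : ∀ j : Fin n, ρ' j.succ = ρ j.succ.succ) :
    sgn (cmp (chain (n + 2) ρ) (clos (n + 2) ρ).subtype) =
      sgn (cmp (chain (n + 1) ρ') (clos (n + 1) ρ').subtype) +
        SignType.sign (-Complex.I * ((1 - ρ 0 * ρ 1) / ((1 - ρ 0) * (1 - ρ 1)))).re := by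
  have a0 : 1 - ρ 0 ≠ 0 := sub_ne_zero.2 h0.symm
  have a1 : 1 - ρ 1 ≠ 0 := sub_ne_zero.2 h1.symm
  have u0 := chain_unit (h 0)
  have u1 := chain_unit (h 1)
  have i0 := inv_mul_cancel₀ a0
  have i1 := inv_mul_cancel₀ a1
  obtain ⟨ξ, x0, x1, xs⟩ : ∃ ξ : Fin (n + 2) → ℂ, ξ 0 = (1 - ρ 0)⁻¹ ∧ ξ 1 = -(1 - ρ 1)⁻¹ ∧
      ∀ j : Fin n, ξ j.succ.succ = 0 :=
    ⟨Fin.cons (1 - ρ 0)⁻¹ (Fin.cons (-(1 - ρ 1)⁻¹) 0), rfl, rfl, fun _ => rfl⟩
  have hξ : ξ ∈ clos (n + 2) ρ := by
    rw [mem_clos]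
    simp only [Fin.sum_univ_succ, Fin.succ_zero_eq_one, x0, x1, xs, mul_zero,
      Finset.sum_const_zero]
    linear_combination i0 - i1
  have hB : ∀ v, chain (n + 2) ρ ξ v = -Complex.I * starRingEnd ℂ (v 1 - ρ 0 * v 0) := by
    intro v
    have z : (fun i : Fin n => ξ i.succ.succ) = 0 := funext xs
    simp only [chain_succ (n + 1), chain_succ n, Fin.sum_univ_succ, Fin.succ_zero_eq_one, x0, x1, z,
      map_zero, LinearMap.zero_apply, map_add, map_mul, map_sub, map_one]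
    generalize starRingEnd ℂ (∑ j : Fin n, (1 - ρ j.succ.succ) * v j.succ.succ) = T
    generalize (1 - ρ 0)⁻¹ = s at i0
    generalize (1 - ρ 1)⁻¹ = t at i1
    linear_combination (-Complex.I * (T + (1 - starRingEnd ℂ (ρ 1)) * starRingEnd ℂ (v 1) -
        starRingEnd ℂ (ρ 0) * starRingEnd ℂ (v 0))) * i0 +
      (Complex.I * (T - starRingEnd ℂ (ρ 1) * starRingEnd ℂ (v 1))) * i1 +
      (Complex.I * s * starRingEnd ℂ (v 0)) * u0 - (Complex.I * t * starRingEnd ℂ (v 1)) * u1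
  let Q : Submodule ℂ (clos (n + 2) ρ) := LinearMap.ker
    (((LinearMap.proj 1 : (Fin (n + 2) → ℂ) →ₗ[ℂ] ℂ) - ρ 0 • LinearMap.proj 0).comp
      (clos (n + 2) ρ).subtype)
  have hQ : ∀ v : clos (n + 2) ρ, v ∈ Q ↔ v.1 1 = ρ 0 * v.1 0 := fun v =>
    (show v ∈ Q ↔ v.1 1 - ρ 0 * v.1 0 = 0 from Iff.rfl).trans sub_eq_zero
  rw [sgn_perp (chain_herm _ h) ⟨ξ, hξ⟩ (Q := Q) fun v => by
    rw [hQ, cmp_apply, Submodule.subtype_apply, Submodule.subtype_apply, hB, mul_eq_zero,
      map_eq_zero, sub_eq_zero, neg_eq_zero, or_iff_right Complex.I_ne_zero]]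
  congr 1
  · refine chain_tr _ _ _ ((chainP n 0).comp ((clos (n + 2) ρ).subtype.comp Q.subtype))
      (fun u => ?_) (fun w hw => ⟨⟨⟨Fin.cons (w 0) (Fin.cons (ρ 0 * w 0) fun j => w j.succ), ?_⟩,
        (hQ _).2 rfl⟩, ?_⟩) fun u u' => ?_
    · have hu := (mem_clos _ _ _).1 u.1.2
      have hq := (hQ _).1 u.2
      rw [mem_clos]
      simp only [Fin.sum_univ_succ, Fin.succ_zero_eq_one, LinearMap.comp_apply,
        Submodule.subtype_apply, chainP_zero, chainP_succ, e0, es, hq] at hu ⊢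
      linear_combination hu
    · rw [mem_clos] at hw ⊢
      simp only [Fin.sum_univ_succ, Fin.cons_zero, Fin.cons_succ, e0, es] at hw ⊢
      rw [Fin.succ_zero_eq_one]
      linear_combination hw
    · funext j
      refine Fin.cases rfl (fun j => rfl) j
    · have hq := (hQ _).1 u.2
      have hq' := (hQ _).1 u'.2
      simp only [cmp_apply, LinearMap.comp_apply, Submodule.subtype_apply, chain_succ (n + 1),
        chain_succ n, chainP_zero, chainP_succ, e0, es, Fin.succ_zero_eq_one, Fin.sum_univ_succ,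
        hq, hq', map_add, map_mul, map_sub, map_one]
      ring
  · have e : (chain (n + 2) ρ ξ ξ).re =
        (-Complex.I * ((1 - ρ 0 * ρ 1) / ((1 - ρ 0) * (1 - ρ 1)))).re := by
      rw [hB, x0, x1, ← Complex.conj_re, map_mul, Complex.conj_conj, map_neg, Complex.conj_I]
      congr 1
      field_simp
      ring
    rw [← e]
    rfl

end step

theorem chain_sgn (n : ℕ) (μ : Fin (n + 1) → ℚ) :
    (sgn (cmp (chain (n + 1) fun i => rt (μ i)) (clos (n + 1) fun i => rt (μ i)).subtype) : ℚ)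
      = 2 * saw (∑ i, μ i) - 2 * ∑ i, saw (μ i) := by
  induction n with
  | zero =>
    rw [sgn_of_zero]
    · simp
    · intro x
      have hx := (mem_clos _ _ _).1 x.2
      simp only [Fin.sum_univ_succ, Finset.univ_eq_empty, Finset.sum_empty, add_zero] at hx
      simp only [cmp_apply, Submodule.subtype_apply, chain_succ 0, hx]
      simp [chain, gram_apply]
  | succ n ih =>
    obtain ⟨ν, n0, ns⟩ : ∃ ν : Fin (n + 1) → ℚ, ν 0 = μ 0 + μ 1 ∧
        ∀ j : Fin n, ν j.succ = μ j.succ.succ :=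
      ⟨Fin.cons (μ 0 + μ 1) fun j => μ j.succ.succ, rfl, fun _ => rfl⟩
    have ih' := ih ν
    have e0 : rt (ν 0) = rt (μ 0) * rt (μ 1) := by rw [n0, chain_rt_add]
    have es : ∀ j : Fin n, rt (ν j.succ) = rt (μ j.succ.succ) := fun j => by rw [ns]
    have s1 : ∑ i, μ i = μ 0 + μ 1 + ∑ j : Fin n, μ j.succ.succ := by
      rw [Fin.sum_univ_succ, Fin.sum_univ_succ, ← add_assoc (μ 0)]; rfl
    have s2 : ∑ i, saw (μ i) = saw (μ 0) + saw (μ 1) + ∑ j : Fin n, saw (μ j.succ.succ) := by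
      rw [Fin.sum_univ_succ, Fin.sum_univ_succ, ← add_assoc (saw (μ 0))]; rfl
    rw [Fin.sum_univ_succ, Fin.sum_univ_succ] at ih'
    simp only [n0, ns] at ih'
    rw [s1, s2]
    by_cases h0 : rt (μ 0) = 1
    · rw [chain_case0 (ρ := fun i => rt (μ i)) (ρ' := fun i => rt (ν i)) h0 e0 es, ih']
      obtain ⟨k, hk⟩ := chain_rt_one h0
      rw [hk, chain_saw_add k (μ 1), chain_saw_int]
      ring
    by_cases h1 : rt (μ 1) = 1
    · rw [chain_case1 (ρ := fun i => rt (μ i)) (ρ' := fun i => rt (ν i)) h1 e0 es, ih']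
      obtain ⟨k, hk⟩ := chain_rt_one h1
      rw [hk, add_comm (μ 0), chain_saw_add k (μ 0), chain_saw_int]
      ring
    rw [chain_case2 (ρ := fun i => rt (μ i)) (ρ' := fun i => rt (ν i))
      (fun i => chain_rt_norm _) h0 h1 e0 es, Int.cast_add, ih', merge_sign h0 h1]
    ring

end Pool.Agent.P.MP_3d25f3_gt
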