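import Pool.Agent.P.MP_3d25f3_gt.Per

set_option autoImplicit false

open Set Filter Topology

namespace Pool.Agent.P.MP_3d25f3_gt

variable {g : ℕ} {S : List (ℕ × ℤ)}

/-- the integer cocycle of a circle valued map -/
lemma circ_coc : ∃ (n : AddCircle (1 : ℝ) → AddCircle (1 : ℝ) → ℤ) (a : ℝ → ℤ), CocZ n univ ∧
    (∀ u (k : ℤ), a (u + k) = a u + k) ∧
    ∀ u : ℝ, ∃ U ∈ 𝓝 u, ∀ x ∈ U, ∀ y ∈ U, n x y = a y - a x := by
  have key : ∀ u : ℝ, ∀ x ∈ Metric.ball u (1 / 4), ∀ y ∈ Metric.ball u (1 / 4),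
      round (((AddCircle.equivIco (1 : ℝ) 0 (x : AddCircle (1 : ℝ)) : ℝ)) -
        (AddCircle.equivIco (1 : ℝ) 0 (y : AddCircle (1 : ℝ)) : ℝ)) = ⌊y⌋ - ⌊x⌋ := by
    intro u x hx y hy
    rw [AddCircle.coe_equivIco_mk_apply, AddCircle.coe_equivIco_mk_apply]
    simp only [div_one, mul_one]
    have e : Int.fract x - Int.fract y = (x - y) + ((⌊y⌋ - ⌊x⌋ : ℤ) : ℝ) := by
      unfold Int.fract; push_cast; ring
    rw [e, round_add_intCast]
    rw [Metric.mem_ball, Real.dist_eq, abs_lt] at hx hy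
    have : round (x - y) = 0 := by
      rw [round_eq_zero_iff]; constructor <;> linarith [hx.1, hx.2, hy.1, hy.2]
    rw [this, zero_add]
  refine ⟨fun x y => round (((AddCircle.equivIco (1 : ℝ) 0 x : ℝ)) -
    (AddCircle.equivIco (1 : ℝ) 0 y : ℝ)), fun u => ⌊u⌋, ?_, fun u k => Int.floor_add_intCast u k,
    fun u => ⟨Metric.ball u (1 / 4), Metric.ball_mem_nhds u (by norm_num), key u⟩⟩
  intro p _
  obtain ⟨u, rfl⟩ := QuotientAddGroup.mk_surjective p
  refine ⟨_, QuotientAddGroup.isOpenMap_coe.image_mem_nhds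
    (Metric.ball_mem_nhds u (by norm_num : (0 : ℝ) < 1 / 4)), ?_⟩
  rintro _ ⟨x, hx, rfl⟩ _ ⟨y, hy, rfl⟩ _ ⟨z, hz, rfl⟩
  have h1 := key u x hx y hy
  have h2 := key u y hy z hz
  have h3 := key u x hx z hz
  change round _ + round _ = round _
  rw [h1, h2, h3]; ring

noncomputable def cls_cl (x : ℝ) : ℝ := max 0 (min 1 x)

lemma cls_cl_cont : Continuous cls_cl := by unfold cls_cl; fun_prop

lemma cls_cl_zero {x : ℝ} (h : x ≤ 0) : cls_cl x = 0 :=
  max_eq_left ((min_le_right _ _).trans h)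

lemma cls_cl_one {x : ℝ} (h : 1 ≤ x) : cls_cl x = 1 := by
  unfold cls_cl; rw [min_eq_left h, max_eq_right zero_le_one]

lemma cls_cl_mid {x : ℝ} (h : 0 ≤ x) (h' : x ≤ 1) : cls_cl x = x := by
  unfold cls_cl; rw [min_eq_right h', max_eq_right h]

noncomputable def cls_Phi (g : ℕ) (S : List (ℕ × ℤ)) (n₀ : ℕ) (u : ℝ) : ℝ :=
  ∑ i ∈ Finset.range (S.length + 1), n₀ * sh g S (2 * g + i) * cls_cl (u - (4 * g + 2 * i + 1))

lemma cls_Phi_cont (n₀ : ℕ) : Continuous (cls_Phi g S n₀) := by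
  unfold cls_Phi
  exact continuous_finset_sum _ fun i _ =>
    continuous_const.mul (cls_cl_cont.comp (continuous_id.sub continuous_const))

lemma cls_Phi_low (n₀ : ℕ) {u : ℝ} (hu : u ≤ 4 * g + 1) : cls_Phi g S n₀ u = 0 := by
  refine Finset.sum_eq_zero fun i _ => ?_
  have : (0 : ℝ) ≤ i := Nat.cast_nonneg i
  rw [cls_cl_zero (by linarith), mul_zero]

lemma cls_Phi_top (hS : Data S) (n₀ : ℕ) : cls_Phi g S n₀ (LL g S) = 0 := by
  have h1 : cls_Phi g S n₀ (LL g S) =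
      n₀ * ∑ i ∈ Finset.range (S.length + 1), sh g S (2 * g + i) := by
    rw [Finset.mul_sum]
    refine Finset.sum_congr rfl fun i hi => ?_
    have hi' : (i : ℝ) + 1 ≤ S.length + 1 := by exact_mod_cast Finset.mem_range.1 hi
    rw [cls_cl_one, mul_one]
    unfold LL; push_cast; linarith
  have h2 := sum_getD (g := g) (S := S) (fun p : ℕ × ℤ => (p.2 : ℝ) / p.1)
  have h3 : (S.map fun p : ℕ × ℤ => (p.2 : ℝ) / p.1).sum = 0 := by
    have := congrArg (fun q : ℚ => (q : ℝ)) hS.2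
    simp only [Rat.cast_list_sum, List.map_map, Rat.cast_zero] at this
    rw [← this]
    congr 1
    refine List.map_congr_left fun p _ => ?_
    simp
  rw [h1]
  unfold sh
  rw [h2, h3]; simp

lemma cls_int (hS : Data S) {n₀ : ℕ} (h : ∀ p ∈ S, p.1 ∣ n₀) (e : ℕ) :
    ∃ k : ℤ, n₀ * sh g S e = k := by
  have hd : (pr g S e).1 ∣ n₀ := by
    unfold pr
    split_ifs
    · exact one_dvd _
    · rcases lt_or_ge (e - 2 * g) S.length with h1 | h1
      · rw [List.getD_eq_getElem _ _ h1]; exact h _ (List.getElem_mem h1)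
      · rw [List.getD_eq_default _ _ h1]; exact one_dvd _
  obtain ⟨c, hc⟩ := hd
  have h0 : ((pr g S e).1 : ℝ) ≠ 0 := by
    have := (pr_data (g := g) hS e).1
    exact_mod_cast (by omega : (pr g S e).1 ≠ 0)
  refine ⟨c * (pr g S e).2, ?_⟩
  unfold sh
  rw [hc]; push_cast; field_simp

lemma cls_Phi_arc (hS : Data S) {n₀ : ℕ} (h : ∀ p ∈ S, p.1 ∣ n₀) {e : ℕ} (he : e < NE g S) :
    ∃ k : ℤ, ∀ s ∈ Icc (0 : ℝ) 1, cls_Phi g S n₀ (st g e + wd g e - s)
      + n₀ * (s * sh g S e) = cls_Phi g S n₀ (st g e + s) + k := by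
  by_cases h1 : e < 2 * g
  · refine ⟨0, fun s hs => ?_⟩
    have h2 : st g e + 3 ≤ 4 * g := by unfold st; rw [if_pos h1]; omega
    have h3 : (st g e : ℝ) + 3 ≤ 4 * g := by exact_mod_cast h2
    have h4 : wd g e = 3 := if_pos h1
    have h5 : sh g S e = 0 := by unfold sh pr; rw [if_pos h1]; simp
    rw [cls_Phi_low, cls_Phi_low, h5]
    · simp
    · linarith [hs.2]
    · rw [h4]; push_cast; linarith [hs.1]
  · obtain ⟨k, hk⟩ := cls_int (g := g) hS h e
    obtain ⟨i, rfl⟩ : ∃ i, e = 2 * g + i := ⟨e - 2 * g, by omega⟩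
    have hi : i < S.length + 1 := by unfold NE at he; omega
    have h2 : (st g (2 * g + i) : ℝ) = 4 * g + 2 * i := by
      unfold st; rw [if_neg h1, Nat.add_sub_cancel_left]; push_cast; ring
    have h4 : wd g (2 * g + i) = 2 := if_neg h1
    refine ⟨k, fun s hs => ?_⟩
    have key : cls_Phi g S n₀ (4 * g + 2 * i + 2 - s) - cls_Phi g S n₀ (4 * g + 2 * i + s) =
        n₀ * sh g S (2 * g + i) * (1 - s) := by
      unfold cls_Phi
      rw [← Finset.sum_sub_distrib, Finset.sum_eq_single i]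
      · rw [cls_cl_zero (x := 4 * g + 2 * i + s - _) (by linarith [hs.2]),
          cls_cl_mid (by linarith [hs.2]) (by linarith [hs.1])]
        ring
      · intro j _ hj
        rcases lt_or_gt_of_ne hj with hj | hj
        · have : (j : ℝ) + 1 ≤ i := by exact_mod_cast hj
          rw [cls_cl_one (by linarith [hs.2]), cls_cl_one (by linarith [hs.1]), sub_self]
        · have : (i : ℝ) + 1 ≤ j := by exact_mod_cast hj
          rw [cls_cl_zero (by linarith [hs.1]), cls_cl_zero (by linarith [hs.2]), sub_self]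
      · intro hh; exact absurd (Finset.mem_range.2 hi) hh
    rw [h2, h4, ← hk]
    push_cast
    linear_combination key

lemma exists_phase (hS : Data S) {n₀ : ℕ} (h : ∀ p ∈ S, p.1 ∣ n₀) : ∃ φ : Disc → ℝ, Continuous φ ∧
    ∀ e < NE g S, ∃ k : ℤ, ∀ s ∈ Icc (0 : ℝ) 1, φ (bp (LL g S) (st g e + wd g e - s))
      + n₀ * (s * sh g S e) = φ (bp (LL g S) (st g e + s)) + k := by
  have hL : LL g S ≠ 0 := NeZero.ne _
  have hL' : (0 : ℝ) < LL g S := by exact_mod_cast Nat.pos_of_ne_zero hL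
  haveI : Fact ((0 : ℝ) < LL g S) := ⟨hL'⟩
  obtain ⟨ang, hc, ha⟩ := exists_ang hL
  have h0 : cls_Phi g S n₀ 0 = 0 := cls_Phi_low n₀ (by positivity)
  have hψ : Continuous (AddCircle.liftIco (LL g S : ℝ) 0 (cls_Phi g S n₀)) :=
    AddCircle.liftIco_continuous (by rw [zero_add, h0, cls_Phi_top hS])
      (cls_Phi_cont n₀).continuousOn
  have hv : ∀ u ∈ Icc (0 : ℝ) (LL g S),
      AddCircle.liftIco (LL g S : ℝ) 0 (cls_Phi g S n₀) (u : AddCircle (LL g S : ℝ)) =
        cls_Phi g S n₀ u := by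
    intro u hu
    rcases hu.2.lt_or_eq with h1 | h1
    · exact AddCircle.liftIco_coe_apply ⟨hu.1, by rwa [zero_add]⟩
    · rw [h1, AddCircle.coe_period, ← AddCircle.coe_zero,
        AddCircle.liftIco_coe_apply ⟨le_rfl, by rwa [zero_add]⟩, h0, cls_Phi_top hS]
  have hC : IsClosed {y : Disc | ‖(y : ℂ)‖ = 1} :=
    isClosed_eq (continuous_norm.comp continuous_subtype_val) continuous_const
  have hco : ContinuousOn (fun y => AddCircle.liftIco (LL g S : ℝ) 0 (cls_Phi g S n₀) (ang y))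
      {y : Disc | ‖(y : ℂ)‖ = 1} := by
    intro y hy
    obtain ⟨u, -, rfl⟩ := exists_bp hL hy
    exact (hψ.continuousAt.comp (hc u)).continuousWithinAt
  obtain ⟨φ, hφ⟩ := ContinuousMap.exists_restrict_eq hC ⟨_, hco.restrict⟩
  have hb : ∀ u ∈ Icc (0 : ℝ) (LL g S), φ (bp (LL g S) u) = cls_Phi g S n₀ u := by
    intro u hu
    have := congrArg (fun f => f ⟨bp (LL g S) u, norm_bd _ u⟩) hφ
    rw [← hv u hu, ← ha u]
    exact this
  refine ⟨φ, φ.continuous, fun e he => ?_⟩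
  obtain ⟨k, hk⟩ := cls_Phi_arc hS h he
  refine ⟨k, fun s hs => ?_⟩
  have h1 : (st g e : ℝ) + wd g e ≤ LL g S := by exact_mod_cast st_le he
  have h2 : (2 : ℝ) ≤ wd g e := by exact_mod_cast wd_ge e
  have h3 : (0 : ℝ) ≤ st g e := Nat.cast_nonneg _
  rw [hb _ ⟨by linarith [hs.2], by linarith [hs.1]⟩, hb _ ⟨by linarith [hs.1], by linarith [hs.2]⟩]
  exact hk s hs

/-- a class whose value on the regular fibre is a given common multiple of the orders -/
theorem exists_class (hS : Data S) {n₀ : ℕ} (h : ∀ p ∈ S, p.1 ∣ n₀) :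
    ∃ f A ne, CocZ f univ ∧ Per g S f A n₀ ne := by
  obtain ⟨n, a, hn, ha, hl⟩ := circ_coc
  obtain ⟨φ, hφ, hk⟩ := exists_phase (g := g) hS h
  choose! k hk using hk
  have hθ : Continuous fun y : Cov => (n₀ : ℝ) * y.2 + φ y.1 := by fun_prop
  have hper : ∀ (y : Disc) (z : ℝ), (n₀ : ℝ) * (z + 1) + φ y = n₀ * z + φ y + ((n₀ : ℤ) : ℝ) := by
    intro y z; push_cast; ring
  have harc : ∀ e < NE g S, ∀ s ∈ Icc (0 : ℝ) 1, ∀ z,
      (n₀ : ℝ) * (gb g S e s z).2 + φ (gb g S e s z).1 =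
        n₀ * (ga g S e s z).2 + φ (ga g S e s z).1 + k e := by
    intro e he s hs z
    have := hk e he s hs
    simp only [ga, gb]
    linear_combination this
  have hz : ∀ (u : ℝ) (m : ℤ), ((u + m : ℝ) : AddCircle (1 : ℝ)) = (u : AddCircle (1 : ℝ)) := by
    intro u m
    have : ((m : ℝ) : AddCircle (1 : ℝ)) = 0 :=
      (AddCircle.coe_eq_zero_iff (1 : ℝ)).2 ⟨m, by simp⟩
    rw [AddCircle.coe_add, this, add_zero]
  obtain ⟨f', hf'⟩ := desc_cov (g := g) (S := S)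
    (fun y : Cov => (((n₀ : ℝ) * y.2 + φ y.1 : ℝ) : AddCircle (1 : ℝ)))
    (fun y z => by simp only; rw [hper, hz])
    (fun e he s hs z => by rw [harc e he s hs z, hz])
  have hq : IsQuotientMap (pp g S) :=
    isQuotientMap_quot_mk.comp (isOpenMap_pc.isQuotientMap continuous_pc pc_surj)
  have hc : Continuous f' := by
    rw [hq.continuous_iff]
    have : f' ∘ pp g S = fun y : Cov => (((n₀ : ℝ) * y.2 + φ y.1 : ℝ) : AddCircle (1 : ℝ)) :=
      funext hf'
    rw [this]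
    exact (AddCircle.continuous_mk' (1 : ℝ)).comp hθ
  refine ⟨fun x y => n (f' x) (f' y), fun y => a (n₀ * y.2 + φ y.1), k,
    hn.comp (fun x _ => hc.continuousAt) (mapsTo_univ _ _), ?_, ?_, ?_⟩
  · intro y
    obtain ⟨U, hU, hU'⟩ := hl (n₀ * y.2 + φ y.1)
    refine ⟨_, hθ.continuousAt.preimage_mem_nhds hU, fun b hb c hc => ?_⟩
    simp only [hf']
    exact hU' _ hb _ hc
  · intro y z
    simp only
    rw [hper, ha]
  · intro e he s hs z
    rw [harc e he s hs z, ha]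

end Pool.Agent.P.MP_3d25f3_gt
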