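import Pool.Agent.P.MP_3d25f3_gt.Prism

set_option autoImplicit false

open Set Filter Topology

namespace Pool.Agent.P.MP_3d25f3_gt

variable {Z : Type} [TopologicalSpace Z] {R R' : Type} [CommRing R] [CommRing R']

/-- change of coefficients in cohomology -/
def cmap (φ : R →+* R') {τ : Z → Z → R} {τ' : Z → Z → R'} (h : ∀ x y, φ (τ x y) = τ' x y) (k : ℕ)
    (F F' : Set Z) : H τ k F F' →ₛₗ[φ] H τ' k F F' :=
  hmap (cf φ) (fun _ hc => cf_Zc φ h hc) (fun _ _ hc => cf_Bc φ h hc)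

lemma cmap_cl (φ : R →+* R') {τ : Z → Z → R} {τ' : Z → Z → R'} (h : ∀ x y, φ (τ x y) = τ' x y)
    {k : ℕ} {F F' : Set Z} (c : List Z → R) (hc : c ∈ Zc τ k F F') :
    cmap φ h k F F' (cl c hc) = cl (cf φ c) (cf_Zc φ h hc) := rfl

lemma cmap_bij {φ : R →+* R'} (hφ : Function.Bijective φ) {τ : Z → Z → R} {τ' : Z → Z → R'}
    (h : ∀ x y, φ (τ x y) = τ' x y) (k : ℕ) (F F' : Set Z) :
    Function.Bijective (cmap φ h k F F') := by
  let e : R ≃+* R' := RingEquiv.ofBijective φ hφ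
  let ψ : R' →+* R := e.symm
  have h1 : ∀ r, ψ (φ r) = r := fun r => e.symm_apply_apply r
  have h2 : ∀ r, φ (ψ r) = r := fun r => e.apply_symm_apply r
  have h' : ∀ x y, ψ (τ' x y) = τ x y := fun x y => by rw [← h, h1]
  refine Function.bijective_iff_has_inverse.2 ⟨cmap ψ h' k F F', fun x => ?_, fun x => ?_⟩
  · obtain ⟨c, hc, rfl⟩ := cl_surj x
    rw [cmap_cl, cmap_cl, cl_eq]
    have : cf ψ (cf φ c) - c = 0 := by
      funext l
      simp only [Pi.sub_apply, cf_apply, h1, sub_self, Pi.zero_apply]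
    rw [this]
    exact zero_mem _
  · obtain ⟨c, hc, rfl⟩ := cl_surj x
    rw [cmap_cl, cmap_cl, cl_eq]
    have : cf φ (cf ψ c) - c = 0 := by
      funext l
      simp only [Pi.sub_apply, cf_apply, h2, sub_self, Pi.zero_apply]
    rw [this]
    exact zero_mem _

/-- reduction modulo a non zero divisor -/
structure Red (φ : R →+* R') (ε : R) : Prop where
  surj : Function.Surjective φ
  ker : ∀ r, φ r = 0 ↔ ε ∣ r
  reg : ∀ r, ε * r = 0 → r = 0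

variable {φ : R →+* R'} {ε : R} {τ : Z → Z → R} {τ' : Z → Z → R'}

lemma red_lift (hr : Red φ ε) (c : List Z → R') :
    ∃ b : List Z → R, cf φ b = c ∧ ∀ (k : ℕ) (F : Set Z), c ∈ Null R' k F → b ∈ Null R k F := by
  classical
  have hs : ∀ r : R', ∃ a : R, φ a = r ∧ (r = 0 → a = 0) := fun r => by
    by_cases h0 : r = 0
    · exact ⟨0, by rw [h0, map_zero], fun _ => rfl⟩
    · obtain ⟨a, ha⟩ := hr.surj r
      exact ⟨a, ha, fun h => (h0 h).elim⟩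
  choose s hs1 hs2 using hs
  refine ⟨fun l => s (c l), funext fun l => hs1 _, fun k F hc x hx => ?_⟩
  obtain ⟨U, hU, h1⟩ := hc x hx
  exact ⟨U, hU, fun l hl hy => hs2 _ (h1 l hl hy)⟩

lemma red_div (hr : Red φ ε) (c : List Z → R) :
    ∃ y : List Z → R, (∀ (k : ℕ) (F : Set Z), cf φ c ∈ Null R' k F → c - ε • y ∈ Null R k F) ∧
      ∀ (k : ℕ) (F : Set Z), c ∈ Null R k F → y ∈ Null R k F := by
  classical
  have hs : ∀ r : R, ∃ a : R, (φ r = 0 → r - ε * a = 0) ∧ (r = 0 → a = 0) := fun r => by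
    by_cases h0 : φ r = 0
    · obtain ⟨a, ha⟩ := (hr.ker r).1 h0
      exact ⟨a, fun _ => by rw [ha, sub_self], fun h => hr.reg a (by rw [← ha, h])⟩
    · exact ⟨0, fun h => (h0 h).elim, fun _ => rfl⟩
  choose s hs1 hs2 using hs
  refine ⟨fun l => s (c l), fun k F hc x hx => ?_, fun k F hc x hx => ?_⟩
  · obtain ⟨U, hU, h1⟩ := hc x hx
    exact ⟨U, hU, fun l hl hy => hs1 _ (h1 l hl hy)⟩
  · obtain ⟨U, hU, h1⟩ := hc x hx
    exact ⟨U, hU, fun l hl hy => hs2 _ (h1 l hl hy)⟩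

lemma red_cancel (hr : Red φ ε) {k : ℕ} {F : Set Z} {c : List Z → R} (h : ε • c ∈ Null R k F) :
    c ∈ Null R k F := by
  intro x hx
  obtain ⟨U, hU, h1⟩ := h x hx
  exact ⟨U, hU, fun l hl hy => hr.reg _ (h1 l hl hy)⟩

lemma coef_eps (hr : Red φ ε) : φ ε = 0 := (hr.ker ε).2 dvd_rfl

omit [TopologicalSpace Z] in
lemma coef_cf_eps (hr : Red φ ε) (c : List Z → R) : cf φ (ε • c) = 0 := by
  rw [map_smulₛₗ, coef_eps hr, zero_smul]

/-- a cochain whose reduction is a coboundary -/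
lemma coef_split (hr : Red φ ε) (h : ∀ x y, φ (τ x y) = τ' x y) {k : ℕ} {F F' : Set Z}
    {c : List Z → R} (hc : c ∈ Null R k F') (hB : cf φ c ∈ Bc τ' k F F') :
    ∃ b ∈ Null R (k - 1) F', ∃ z ∈ Null R k F', c - D τ b - ε • z ∈ Null R k F := by
  obtain ⟨b', hb', h1⟩ := mem_Bc.1 hB
  obtain ⟨b, rfl, hb⟩ := red_lift hr b'
  obtain ⟨z, hz1, hz2⟩ := red_div hr (c - D τ b)
  have hb0 := hb _ _ hb'
  refine ⟨b, hb0, z, hz2 _ _ (sub_mem hc (D_Null' τ hb0)), hz1 _ _ ?_⟩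
  rw [map_sub, cf_D φ h]
  exact h1

lemma cmap_eq_zero (hr : Red φ ε) (h : ∀ x y, φ (τ x y) = τ' x y) {k : ℕ} {F F' : Set Z}
    (hτ : Coc τ (F \ F')) (hF : F' ⊆ F) (x : H τ k F F') :
    cmap φ h k F F' x = 0 ↔ ∃ y, x = ε • y := by
  constructor
  · intro hx
    obtain ⟨c, hc, rfl⟩ := cl_surj x
    rw [cmap_cl, cl_eq_zero] at hx
    obtain ⟨b, hb, z, hz, h1⟩ := coef_split hr h hc.1 hx
    have hzc : z ∈ Zc τ k F F' := by
      refine ⟨hz, red_cancel hr ?_⟩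
      have h2 : D τ (c - D τ b - ε • z) ∈ Null R (k + 1) F := D_Null τ h1
      have h3 : D τ c ∈ Null R (k + 1) F := hc.2
      have h4 := sub_mem (sub_mem h3 (DD_Null hτ hb)) h2
      have e : D τ c - D τ (D τ b) - D τ (c - D τ b - ε • z) = ε • D τ z := by
        simp only [map_sub, map_smul]
        abel
      rwa [e] at h4
    refine ⟨cl z hzc, ?_⟩
    rw [← cl_smul, cl_eq]
    refine mem_Bc.2 ⟨b, hb, ?_⟩
    have e : c - ε • z - D τ b = c - D τ b - ε • z := by abel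
    rwa [e]
  · rintro ⟨y, rfl⟩
    rw [map_smulₛₗ, coef_eps hr, zero_smul]

/-- the Bockstein homomorphism -/
structure IsBock (φ : R →+* R') (ε : R) (h : ∀ x y, φ (τ x y) = τ' x y) (k : ℕ) (F F' : Set Z)
    (β : H τ' k F F' →+ H τ (k + 1) F F') : Prop where
  spec : ∀ (c y : List Z → R) (hc : cf φ c ∈ Zc τ' k F F') (hy : y ∈ Zc τ (k + 1) F F'),
    c ∈ Null R k F' → D τ c - ε • y ∈ Null R (k + 1) F → β (cl _ hc) = cl y hy
  rep : ∀ x, ∃ (c y : List Z → R) (hc : cf φ c ∈ Zc τ' k F F') (hy : y ∈ Zc τ (k + 1) F F'),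
    c ∈ Null R k F' ∧ D τ c - ε • y ∈ Null R (k + 1) F ∧ x = cl _ hc ∧ β x = cl y hy
  smul : ∀ r x, β (φ r • x) = r • β x
  ker : ∀ x, β x = 0 ↔ ∃ y, x = cmap φ h k F F' y
  range : ∀ y, ε • y = 0 ↔ ∃ x, y = β x

/-- the graph of the Bockstein homomorphism -/
def coef_Rel (φ : R →+* R') (ε : R) (τ : Z → Z → R) (τ' : Z → Z → R') (k : ℕ) (F F' : Set Z)
    (x : H τ' k F F') (w : H τ (k + 1) F F') : Prop :=
  ∃ (c y : List Z → R) (hc : cf φ c ∈ Zc τ' k F F') (hy : y ∈ Zc τ (k + 1) F F'),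
    c ∈ Null R k F' ∧ D τ c - ε • y ∈ Null R (k + 1) F ∧ x = cl _ hc ∧ w = cl y hy

lemma coef_rel_ex (hr : Red φ ε) (h : ∀ x y, φ (τ x y) = τ' x y) (k : ℕ) {F F' : Set Z}
    (hτ : Coc τ (F \ F')) (x : H τ' k F F') : ∃ w, coef_Rel φ ε τ τ' k F F' x w := by
  obtain ⟨c', hc', rfl⟩ := cl_surj x
  obtain ⟨c, rfl, hc⟩ := red_lift hr c'
  have h1 : c ∈ Null R k F' := hc _ _ hc'.1
  obtain ⟨y, hy1, hy2⟩ := red_div hr (D τ c)
  have h2 : D τ c - ε • y ∈ Null R (k + 1) F := hy1 _ _ (by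
    rw [cf_D φ h]
    exact hc'.2)
  have hy : y ∈ Zc τ (k + 1) F F' := by
    refine ⟨hy2 _ _ (D_Null τ h1), red_cancel hr ?_⟩
    have h4 := sub_mem (DD_Null (k := k + 1) hτ h1) (D_Null τ h2)
    have e : D τ (D τ c) - D τ (D τ c - ε • y) = ε • D τ y := by
      simp only [map_sub, map_smul]
      abel
    rwa [e] at h4
  exact ⟨cl y hy, c, y, hc', hy, h1, h2, rfl, rfl⟩

lemma coef_rel_add {k : ℕ} {F F' : Set Z} {x x' : H τ' k F F'} {w w' : H τ (k + 1) F F'}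
    (h1 : coef_Rel φ ε τ τ' k F F' x w) (h2 : coef_Rel φ ε τ τ' k F F' x' w') :
    coef_Rel φ ε τ τ' k F F' (x + x') (w + w') := by
  obtain ⟨c, y, hc, hy, a1, a2, rfl, rfl⟩ := h1
  obtain ⟨c', y', hc', hy', b1, b2, rfl, rfl⟩ := h2
  have e : cf φ (c + c') = cf φ c + cf φ c' := map_add _ _ _
  refine ⟨c + c', y + y', e ▸ add_mem hc hc', add_mem hy hy', add_mem a1 b1, ?_, ?_, rfl⟩
  · have e2 : D τ (c + c') - ε • (y + y') = D τ c - ε • y + (D τ c' - ε • y') := by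
      simp only [map_add, smul_add]
      abel
    rw [e2]
    exact add_mem a2 b2
  · rw [← cl_add, cl_eq, e, sub_self]
    exact zero_mem _

lemma coef_rel_smul {k : ℕ} {F F' : Set Z} (r : R) {x : H τ' k F F'} {w : H τ (k + 1) F F'}
    (h1 : coef_Rel φ ε τ τ' k F F' x w) : coef_Rel φ ε τ τ' k F F' (φ r • x) (r • w) := by
  obtain ⟨c, y, hc, hy, a1, a2, rfl, rfl⟩ := h1
  have e : cf φ (r • c) = φ r • cf φ c := map_smulₛₗ _ _ _
  refine ⟨r • c, r • y, e ▸ Submodule.smul_mem _ _ hc, Submodule.smul_mem _ _ hy,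
    Submodule.smul_mem _ _ a1, ?_, ?_, rfl⟩
  · have e2 : D τ (r • c) - ε • r • y = r • (D τ c - ε • y) := by
      rw [map_smul, smul_sub, smul_comm]
    rw [e2]
    exact Submodule.smul_mem _ _ a2
  · rw [← cl_smul, cl_eq, e, sub_self]
    exact zero_mem _

lemma coef_rel_uniq (hr : Red φ ε) (h : ∀ x y, φ (τ x y) = τ' x y) {k : ℕ} {F F' : Set Z}
    (hτ : Coc τ (F \ F')) {x : H τ' k F F'} {w w' : H τ (k + 1) F F'}
    (h1 : coef_Rel φ ε τ τ' k F F' x w) (h2 : coef_Rel φ ε τ τ' k F F' x w') : w = w' := by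
  obtain ⟨c, y, hc, hy, a1, a2, rfl, rfl⟩ := h1
  obtain ⟨c', y', hc', hy', b1, b2, b3, rfl⟩ := h2
  rw [cl_eq, ← map_sub] at b3
  obtain ⟨b, hb, z, hz, h3⟩ := coef_split hr h (sub_mem a1 b1) b3
  rw [cl_eq]
  refine mem_Bc.2 ⟨z, hz, red_cancel hr ?_⟩
  have h4 := add_mem (sub_mem (add_mem (D_Null τ h3) (DD_Null hτ hb)) a2) b2
  have e : D τ (c - c' - D τ b - ε • z) + D τ (D τ b) - (D τ c - ε • y) + (D τ c' - ε • y') =
      ε • (y - y' - D τ z) := by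
    simp only [map_sub, map_smul, smul_sub]
    abel
  rwa [e] at h4

lemma exists_bock (hr : Red φ ε) (h : ∀ x y, φ (τ x y) = τ' x y) (k : ℕ) {F F' : Set Z}
    (hτ : Coc τ (F \ F')) (hF : F' ⊆ F) : ∃ β, IsBock φ ε h k F F' β := by
  have hex := coef_rel_ex hr h k hτ
  choose β hβ using hex
  have hu : ∀ x w, coef_Rel φ ε τ τ' k F F' x w → β x = w := fun x w hw =>
    coef_rel_uniq hr h hτ (hβ x) hw
  let B : H τ' k F F' →+ H τ (k + 1) F F' :=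
    AddMonoidHom.mk' β fun x x' => hu _ _ (coef_rel_add (hβ x) (hβ x'))
  have hB : ∀ x, B x = β x := fun _ => rfl
  refine ⟨B, fun c y hc hy h1 h2 => hu _ _ ⟨c, y, hc, hy, h1, h2, rfl, rfl⟩, fun x => hβ x,
    fun r x => hu _ _ (coef_rel_smul r (hβ x)), fun x => ⟨fun hx => ?_, ?_⟩,
    fun y => ⟨fun hy => ?_, ?_⟩⟩
  · obtain ⟨c, y, hc, hy, h1, h2, rfl, h4⟩ := hβ x
    rw [hB, h4, cl_eq_zero] at hx
    obtain ⟨b, hb, h5⟩ := mem_Bc.1 hx
    have hb' : b ∈ Null R k F' := hb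
    have hz : c - ε • b ∈ Zc τ k F F' := by
      refine ⟨sub_mem h1 (Submodule.smul_mem _ ε hb'), ?_⟩
      have h6 := add_mem h2 (Submodule.smul_mem _ ε h5)
      have e : D τ c - ε • y + ε • (y - D τ b) = D τ (c - ε • b) := by
        simp only [map_sub, map_smul, smul_sub]
        abel
      rw [e] at h6
      exact h6
    refine ⟨cl _ hz, ?_⟩
    rw [cmap_cl, cl_eq, map_sub, coef_cf_eps hr, sub_zero, sub_self]
    exact zero_mem _
  · rintro ⟨y, rfl⟩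
    obtain ⟨c, hc, rfl⟩ := cl_surj y
    refine hu _ _ ⟨c, 0, cf_Zc φ h hc, zero_mem _, hc.1, ?_, rfl, ?_⟩
    · rw [smul_zero, sub_zero]
      exact hc.2
    · exact ((cl_eq_zero _).2 (zero_mem _)).symm
  · obtain ⟨y0, hy0, rfl⟩ := cl_surj y
    rw [← cl_smul, cl_eq_zero] at hy
    obtain ⟨b, hb, h5⟩ := mem_Bc.1 hy
    have hb' : b ∈ Null R k F' := hb
    have h6 : D τ b - ε • y0 ∈ Null R (k + 1) F := by
      have := neg_mem h5
      rwa [neg_sub] at this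
    have hz : cf φ b ∈ Zc τ' k F F' := by
      refine ⟨cf_Null φ hb', ?_⟩
      have h7 := cf_Null φ h6
      rw [map_sub, coef_cf_eps hr, sub_zero, cf_D φ h] at h7
      exact h7
    exact ⟨cl _ hz, (hu _ _ ⟨b, y0, hz, hy0, hb', h6, rfl, rfl⟩).symm⟩
  · rintro ⟨x, rfl⟩
    obtain ⟨c, y, hc, hy, h1, h2, rfl, h4⟩ := hβ x
    rw [hB, h4, ← cl_smul, cl_eq_zero]
    refine mem_Bc.2 ⟨c, h1, ?_⟩
    have := neg_mem h2
    rwa [neg_sub] at this

end Pool.Agent.P.MP_3d25f3_gt
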