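import Pool.Agent.P.MP_3d25f3_gt.Sig

set_option autoImplicit false

open Set Filter Topology

namespace Pool.Agent.P.MP_3d25f3_gt

open Module

lemma jump_gram {W : Type} [AddCommGroup W] [Module ℂ W] {n : ℕ} (b : Basis (Fin n) ℂ W)
    (F : SF W) (x : Fin n → ℂ) :
    F (b.equivFun.symm x) (b.equivFun.symm x) =
      ∑ i, ∑ j, x i * starRingEnd ℂ (x j) * F (b i) (b j) := by
  rw [Basis.equivFun_symm_apply, map_sum F, LinearMap.sum_apply]
  refine Finset.sum_congr rfl fun i _ => ?_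
  rw [map_smul, LinearMap.smul_apply, map_sum, smul_eq_mul, Finset.mul_sum]
  refine Finset.sum_congr rfl fun j _ => ?_
  rw [LinearMap.map_smulₛₗ, smul_eq_mul, mul_assoc]

/-- positive definiteness is an open condition -/
lemma jump_open {W : Type} [AddCommGroup W] [Module ℂ W] [FiniteDimensional ℂ W] {ι : Type}
    {l : Filter ι} {F : ι → SF W} {F₀ : SF W}
    (h : ∀ x y, Tendsto (fun u => F u x y) l (𝓝 (F₀ x y)))
    (h0 : ∀ x, x ≠ 0 → 0 < (F₀ x x).re) : ∀ᶠ u in l, ∀ x, x ≠ 0 → 0 < (F u x x).re := by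
  let b := Module.finBasis ℂ W
  let Φ : (Fin (finrank ℂ W) → Fin (finrank ℂ W) → ℂ) × (Fin (finrank ℂ W) → ℂ) → ℝ :=
    fun z => (∑ i, ∑ j, z.2 i * starRingEnd ℂ (z.2 j) * z.1 i j).re
  have hΦ : Continuous Φ := by
    refine Complex.continuous_re.comp ?_
    refine continuous_finsetSum _ fun i _ => continuous_finsetSum _ fun j _ => ?_
    refine Continuous.mul (Continuous.mul (by fun_prop) ?_) (by fun_prop)
    exact Complex.continuous_conj.comp (by fun_prop)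
  have h1 : ∀ᶠ M in 𝓝 (fun i j => F₀ (b i) (b j)),
      ∀ x ∈ Metric.sphere (0 : Fin (finrank ℂ W) → ℂ) 1, 0 < Φ (M, x) := by
    refine (isCompact_sphere _ _).eventually_forall_of_forall_eventually fun x hx => ?_
    have hx0 : b.equivFun.symm x ≠ 0 := by
      intro e
      have : x = 0 := b.equivFun.symm.injective (e.trans (map_zero _).symm)
      simp [this] at hx
    have := h0 _ hx0
    rw [jump_gram] at this
    exact hΦ.continuousAt.eventually (lt_mem_nhds (a := 0) this)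
  have h2 : Tendsto (fun u => fun i j => F u (b i) (b j)) l (𝓝 (fun i j => F₀ (b i) (b j))) :=
    tendsto_pi_nhds.2 fun i => tendsto_pi_nhds.2 fun j => h _ _
  filter_upwards [h2.eventually h1] with u hu x hx
  have hy : b.equivFun x ≠ 0 := fun e => hx (b.equivFun.injective (by simpa using e))
  have hn : 0 < ‖b.equivFun x‖ := norm_pos_iff.2 hy
  have h3 := hu (((‖b.equivFun x‖⁻¹ : ℝ) : ℂ) • b.equivFun x) (by
    rw [mem_sphere_zero_iff_norm, norm_smul, Complex.norm_real, norm_inv, norm_norm,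
      inv_mul_cancel₀ hn.ne'])
  have h4 := jump_gram b (F u) (((‖b.equivFun x‖⁻¹ : ℝ) : ℂ) • b.equivFun x)
  simp only [Φ] at h3
  rw [← h4, map_smul, LinearEquiv.symm_apply_apply, map_smul (F u), LinearMap.smul_apply,
    LinearMap.map_smulₛₗ, Complex.conj_ofReal, smul_eq_mul, smul_eq_mul, Complex.re_ofReal_mul,
    Complex.re_ofReal_mul] at h3
  have h5 : 0 < ‖b.equivFun x‖⁻¹ := inv_pos.2 hn
  exact (mul_pos_iff_of_pos_left h5).1 ((mul_pos_iff_of_pos_left h5).1 h3)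

lemma jump_slope {f : ℝ → ℂ} {f' : ℂ} {θ : ℝ} (h : HasDerivAt f f' θ) (h0 : f θ = 0) :
    Tendsto (fun u => (((u - θ)⁻¹ : ℝ) : ℂ) * f u) (𝓝[>] θ) (𝓝 f') := by
  have := (hasDerivAt_iff_tendsto_slope.1 h).mono_left (nhdsGT_le_nhdsNE θ)
  refine this.congr fun u => ?_
  rw [slope_def_module, h0, sub_zero, Complex.real_smul]

lemma jump_cross {f : ℝ → ℂ} {f' : ℂ} {θ : ℝ} (h : HasDerivAt f f' θ) (h0 : f θ = 0) :
    Tendsto (fun u => (((√(u - θ))⁻¹ : ℝ) : ℂ) * f u) (𝓝[>] θ) (𝓝 0) := by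
  have h1 : Tendsto (fun u : ℝ => ((√(u - θ) : ℝ) : ℂ)) (𝓝[>] θ) (𝓝 0) := by
    have : Continuous (fun u : ℝ => ((√(u - θ) : ℝ) : ℂ)) := by fun_prop
    have := (this.tendsto θ).mono_left (nhdsWithin_le_nhds (s := Ioi θ))
    simpa using this
  have h2 := h1.mul (jump_slope h h0)
  rw [zero_mul] at h2
  refine h2.congr' ?_
  filter_upwards [self_mem_nhdsWithin] with u hu
  have hu' : 0 < u - θ := sub_pos.2 hu
  have hs : 0 < √(u - θ) := Real.sqrt_pos.2 hu'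
  rw [← mul_assoc, ← Complex.ofReal_mul]
  congr 2
  have := Real.mul_self_sqrt hu'.le
  field_simp
  nlinarith

/-- positivity on the sum of a positive subspace and a subspace of the kernel on which the
derivative is positive -/
lemma jump_pos {V : Type} [AddCommGroup V] [Module ℂ V] [FiniteDimensional ℂ V] {G : ℝ → SF V}
    {G₁ : SF V} {θ : ℝ} (hH : Herm (G θ))
    (hd : ∀ x y, HasDerivAt (fun u => G u x y) (G₁ x y) θ) {P₀ P₁ : Submodule ℂ V}
    (h0 : PosOn (G θ) P₀) (h1 : PosOn G₁ P₁) (hk : P₁ ≤ LinearMap.ker (G θ)) :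
    ∀ᶠ u in 𝓝[>] θ, PosOn (G u) (P₀ ⊔ P₁) := by
  let L : ℝ → (P₀ × P₁) →ₗ[ℂ] V := fun u =>
    P₀.subtype.coprod ((((√(u - θ))⁻¹ : ℝ) : ℂ) • P₁.subtype)
  let F₀ : SF (P₀ × P₁) := cmp (G θ) (P₀.subtype.comp (LinearMap.fst ℂ _ _)) +
    cmp G₁ (P₁.subtype.comp (LinearMap.snd ℂ _ _))
  have hF : ∀ x y : P₀ × P₁, F₀ x y = G θ x.1 y.1 + G₁ x.2 y.2 := fun _ _ => rfl
  have hL : ∀ u (x : P₀ × P₁), L u x = (x.1 : V) + (((√(u - θ))⁻¹ : ℝ) : ℂ) • (x.2 : V) :=
    fun _ _ => rfl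
  have kl : ∀ (v : P₁) (y : V), G θ v y = 0 := fun v y => by
    rw [LinearMap.mem_ker.1 (hk v.2)]; rfl
  have kr : ∀ (v : P₁) (y : V), G θ y v = 0 := fun v y => by rw [hH, kl, map_zero]
  have key := jump_open (l := 𝓝[>] θ) (F := fun u => cmp (G u) (L u)) (F₀ := F₀) ?_ ?_
  · filter_upwards [key, self_mem_nhdsWithin] with u hu hu' x hx hx0
    obtain ⟨a, ha, v, hv, rfl⟩ := Submodule.mem_sup.1 hx
    have hs : 0 < √(u - θ) := Real.sqrt_pos.2 (sub_pos.2 hu')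
    have e : L u (⟨a, ha⟩, ((√(u - θ) : ℝ) : ℂ) • ⟨v, hv⟩) = a + v := by
      rw [hL]
      simp only [Submodule.coe_smul, smul_smul]
      rw [← Complex.ofReal_mul, inv_mul_cancel₀ hs.ne']
      simp
    have := hu (⟨a, ha⟩, ((√(u - θ) : ℝ) : ℂ) • ⟨v, hv⟩) (fun e0 => hx0 (by rw [← e, e0, map_zero]))
    rwa [cmp_apply, e] at this
  · intro x y
    have t1 : Tendsto (fun u => G u x.1 y.1) (𝓝[>] θ) (𝓝 (G θ x.1 y.1)) :=
      (hd _ _).continuousAt.tendsto.mono_left nhdsWithin_le_nhds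
    have t2 := jump_cross (hd x.1 y.2) (kr _ _)
    have t3 := jump_cross (hd x.2 y.1) (kl _ _)
    have t4 := jump_slope (hd x.2 y.2) (kl _ _)
    have t := ((t1.add t2).add t3).add t4
    rw [add_zero, add_zero] at t
    rw [hF]
    refine t.congr' ?_
    filter_upwards [self_mem_nhdsWithin] with u hu
    have hu' : 0 < u - θ := sub_pos.2 hu
    have e : (((u - θ)⁻¹ : ℝ) : ℂ) = (((√(u - θ))⁻¹ : ℝ) : ℂ) * (((√(u - θ))⁻¹ : ℝ) : ℂ) := by
      rw [← Complex.ofReal_mul, ← mul_inv, Real.mul_self_sqrt hu'.le]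
    rw [cmp_apply, hL, hL, e]
    simp only [map_add, map_smul, LinearMap.add_apply, LinearMap.smul_apply, LinearMap.map_smulₛₗ,
      Complex.conj_ofReal, smul_eq_mul]
    ring
  · intro x hx
    rw [hF, Complex.add_re]
    have a0 : 0 ≤ (G θ x.1 x.1).re := by
      by_cases e : (x.1 : V) = 0
      · simp [e]
      · exact (h0 _ x.1.2 e).le
    have a1 : 0 ≤ (G₁ x.2 x.2).re := by
      by_cases e : (x.2 : V) = 0
      · simp [e]
      · exact (h1 _ x.2.2 e).le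
    by_cases e : (x.1 : V) = 0
    · have e2 : (x.2 : V) ≠ 0 := fun e2 => hx (Prod.ext (Subtype.ext e) (Subtype.ext e2))
      exact add_pos_of_nonneg_of_pos a0 (h1 _ x.2.2 e2)
    · exact add_pos_of_pos_of_nonneg (h0 _ x.1.2 e) a1

lemma jump_rank {V : Type} [AddCommGroup V] [Module ℂ V] [FiniteDimensional ℂ V] {B : SF V}
    {P₀ K : Submodule ℂ V} (h0 : PosOn B P₀) (hK : K ≤ LinearMap.ker B) (P₁ : Submodule ℂ K) :
    finrank ℂ (P₀ ⊔ P₁.map K.subtype : Submodule ℂ V) = finrank ℂ P₀ + finrank ℂ P₁ := by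
  have h1 := Submodule.finrank_sup_add_finrank_inf_eq P₀ (P₁.map K.subtype)
  have h2 : P₀ ⊓ P₁.map K.subtype = ⊥ := by
    rw [eq_bot_iff]
    rintro x ⟨hx, v, -, rfl⟩
    by_contra hne
    have := h0 _ hx hne
    have e : B (K.subtype v) = 0 := hK v.2
    rw [e] at this
    simp at this
  rw [h2, finrank_bot, add_zero, Submodule.finrank_map_subtype_eq] at h1
  exact h1

lemma jump_posmap {V : Type} [AddCommGroup V] [Module ℂ V] {B : SF V} {K : Submodule ℂ V}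
    {P₁ : Submodule ℂ K} (h : PosOn (cmp B K.subtype) P₁) : PosOn B (P₁.map K.subtype) := by
  rintro _ ⟨v, hv, rfl⟩ hne
  exact h v hv (fun e => hne (by rw [e, map_zero]))

lemma jump_right {V : Type} [AddCommGroup V] [Module ℂ V] [FiniteDimensional ℂ V] {G : ℝ → SF V}
    {G₀ G₁ : SF V} {θ : ℝ} (hH : ∀ u, Herm (G u)) (e : G θ = G₀)
    (hd : ∀ x y, HasDerivAt (fun u => G u x y) (G₁ x y) θ)
    (hn : ∀ x ∈ LinearMap.ker G₀, (∀ y ∈ LinearMap.ker G₀, G₁ x y = 0) → x = 0) :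
    ∀ᶠ u in 𝓝[>] θ, sgn (G u) = sgn G₀ + sgn (cmp G₁ (LinearMap.ker G₀).subtype) := by
  subst e
  have hG₁ : Herm G₁ := fun x y => by
    have h1 := (hd x y).star
    have h2 : (fun u => G u y x) = fun u => star (G u x y) := funext fun u => hH u x y
    have h3 := hd y x
    rw [h2] at h3
    exact h3.unique h1
  obtain ⟨K, hK⟩ : ∃ K, K = LinearMap.ker (G θ) := ⟨_, rfl⟩
  rw [← hK] at hn ⊢
  have hB : Herm (cmp G₁ K.subtype) := fun x y => hG₁ _ _
  have hker : LinearMap.ker (cmp G₁ K.subtype) = ⊥ := by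
    rw [eq_bot_iff]
    intro x hx
    have : (x : V) = 0 := hn x x.2 fun y hy => LinearMap.congr_fun (LinearMap.mem_ker.1 hx) ⟨y, hy⟩
    exact (Submodule.mem_bot ℂ).2 (Subtype.ext this)
  obtain ⟨P₀, p0, hP₀⟩ := exists_npos (G θ)
  obtain ⟨N₀, n0, hN₀⟩ := exists_npos (-G θ)
  obtain ⟨P₁, p1, hP₁⟩ := exists_npos (cmp G₁ K.subtype)
  obtain ⟨N₁, n1, hN₁⟩ := exists_npos (-cmp G₁ K.subtype)
  have s0 := npos_add (hH θ)
  have s1 := npos_add hB
  rw [hker, finrank_bot, add_zero] at s1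
  have hKn : K ≤ LinearMap.ker (-G θ) := fun x hx => by
    rw [LinearMap.mem_ker, LinearMap.neg_apply, LinearMap.mem_ker.1 (hK.le hx), neg_zero]
  have r1 := jump_rank hP₀ hK.le P₁
  have r2 := jump_rank hN₀ hKn N₁
  have e1 := jump_pos (hH θ) hd hP₀ (jump_posmap hP₁) ((Submodule.map_subtype_le _ _).trans hK.le)
  have e2 := jump_pos (G := fun u => -G u) (G₁ := -G₁) (θ := θ)
    (fun x y => by simp [hH θ x y]) (fun x y => (hd x y).neg) hN₀
    (jump_posmap (B := -G₁) (K := K) (P₁ := N₁) hN₁)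
    ((Submodule.map_subtype_le _ _).trans hKn)
  filter_upwards [e1, e2] with u h1 h2
  rw [sgn_eq (hH u) h1 h2 (by rw [r1, r2]; rw [← hK] at s0; omega), r1, r2, p0, n0, p1, n1]
  unfold sgn
  push_cast
  ring

/-- first order perturbation of a hermitian form -/
theorem jump {V : Type} [AddCommGroup V] [Module ℂ V] [FiniteDimensional ℂ V] {G : ℝ → SF V}
    {G₁ : SF V} {θ : ℝ} (hH : ∀ u, Herm (G u))
    (hd : ∀ x y, HasDerivAt (fun u => G u x y) (G₁ x y) θ)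
    (hn : ∀ x ∈ LinearMap.ker (G θ), (∀ y ∈ LinearMap.ker (G θ), G₁ x y = 0) → x = 0) :
    (∀ᶠ u in 𝓝[>] θ, sgn (G u) = sgn (G θ) + sgn (cmp G₁ (LinearMap.ker (G θ)).subtype)) ∧
    (∀ᶠ u in 𝓝[<] θ, sgn (G u) = sgn (G θ) - sgn (cmp G₁ (LinearMap.ker (G θ)).subtype)) := by
  refine ⟨jump_right hH rfl hd hn, ?_⟩
  have h1 := jump_right (G := fun u => G (-u)) (G₀ := G θ) (G₁ := -G₁) (θ := -θ)
    (fun u => hH _) (by simp) (fun x y => by
      have := HasDerivAt.scomp (-θ) (g₁ := fun u => G u x y) (h := fun u : ℝ => -u)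
        (by simpa using hd x y) (hasDerivAt_neg (-θ))
      simpa [Function.comp_def] using this)
    (fun x hx h => hn x hx fun y hy => by simpa using h y hy)
  have h2 : sgn (cmp (-G₁) (LinearMap.ker (G θ)).subtype) =
      -sgn (cmp G₁ (LinearMap.ker (G θ)).subtype) :=
    sgn_of_scale_neg (c := -1) (by norm_num) (fun x => by simp)
  have h3 : Tendsto (fun u : ℝ => -u) (𝓝[<] θ) (𝓝[>] (-θ)) := tendsto_neg_nhdsLT
  filter_upwards [h3.eventually h1] with u hu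
  rw [neg_neg, h2] at hu
  rw [hu, sub_eq_add_neg]

/-- a step function between two consecutive special points -/
lemma step {σ d : ℝ → ℤ}
    (h : ∀ θ, (∀ᶠ u in 𝓝[>] θ, σ u = σ θ + d θ) ∧ ∀ᶠ u in 𝓝[<] θ, σ u = σ θ - d θ) {a b : ℝ}
    (hab : a < b) (hd : ∀ θ ∈ Ioo a b, d θ = 0) : σ b - d b = σ a + d a := by
  have hc : ContinuousOn σ (Ioo a b) := fun θ hθ => by
    refine ContinuousAt.continuousWithinAt (Filter.EventuallyEq.continuousAt (y := σ θ) ?_)
    have h1 := eventually_nhdsWithin_iff.1 (h θ).1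
    have h2 := eventually_nhdsWithin_iff.1 (h θ).2
    filter_upwards [h1, h2] with u a1 a2
    rcases lt_trichotomy u θ with e | e | e
    · rw [a2 e, hd θ hθ, sub_zero]
    · rw [e]
    · rw [a1 e, hd θ hθ, add_zero]
  obtain ⟨u, hu, hu'⟩ := ((h a).1.and (Ioo_mem_nhdsGT hab)).exists
  obtain ⟨w, hw, hw'⟩ := ((h b).2.and (Ioo_mem_nhdsLT hab)).exists
  rw [← hu, ← hw]
  exact isPreconnected_Ioo.constant hc hw' hu'

/-- arithmetic of the jumps; `s k` is the value and `d k` the half jump at point number `k` -/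
lemma steps {s d : ℤ → ℤ} {J : ℤ → ℚ} {η : ℚ} (hη : η = 1 ∨ η = -1) {N : ℕ}
    (h : ∀ k, s (k + 1) - d (k + 1) = s k + d k) (h0 : s 0 = 0) (hJ : ∀ k, J (-k) = -J k)
    (hd : ∀ k : ℤ, k ≠ 0 → |k| < N → (d k : ℚ) = η * J k) {k : ℕ} (hk : k < N) :
    (∀ B : ℚ, (|s k + d k| : ℤ) ≤ 2 * B → (|s (-k) - d (-k)| : ℤ) ≤ 2 * B →
      |∑ j ∈ Finset.range (k + 1), J j| ≤ B) ∧
    (∀ B : ℚ, 0 < k → (|s k| : ℤ) ≤ B → (|s (-k)| : ℤ) ≤ B →
      |2 * ∑ j ∈ Finset.range k, J j + J k| ≤ B) := by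
  have J0 : J 0 = 0 := by have := hJ 0; rw [neg_zero] at this; linarith
  have dp : ∀ k : ℕ, 0 < k → k < N → (d k : ℚ) = η * J k ∧ (d (-k) : ℚ) = -(η * J k) := by
    intro k h1 h2
    refine ⟨hd k (by omega) (by rw [Nat.abs_cast]; omega), ?_⟩
    rw [hd (-k) (by omega) (by rw [abs_neg, Nat.abs_cast]; omega), hJ, mul_neg]
  have key : ∀ k : ℕ, k < N →
      ((s k : ℚ) + d k = d 0 + 2 * η * ∑ j ∈ Finset.range (k + 1), J j) ∧
      ((s (-k) : ℚ) - d (-k) = -d 0 + 2 * η * ∑ j ∈ Finset.range (k + 1), J j) := by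
    intro k
    induction k with
    | zero => intro _; simp [h0, J0]
    | succ k ih =>
      intro hk
      obtain ⟨i1, i2⟩ := ih (by omega)
      obtain ⟨d1, d2⟩ := dp (k + 1) (by omega) hk
      have a1 : (s ((k + 1 : ℕ) : ℤ) : ℚ) - d ((k + 1 : ℕ) : ℤ) = s k + d k := by
        exact_mod_cast h k
      have a2 : (s (-(k : ℤ)) : ℚ) - d (-(k : ℤ)) =
          s (-((k + 1 : ℕ) : ℤ)) + d (-((k + 1 : ℕ) : ℤ)) := by
        have := h (-((k + 1 : ℕ) : ℤ))
        rw [show -((k + 1 : ℕ) : ℤ) + 1 = -(k : ℤ) by push_cast; ring] at this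
        exact_mod_cast this
      rw [Finset.sum_range_succ _ (k + 1)]
      constructor <;> linarith
  obtain ⟨k1, k2⟩ := key k hk
  constructor
  · intro B b1 b2
    push_cast at b1 b2
    rw [abs_le] at b1 b2 ⊢
    rcases hη with rfl | rfl <;> constructor <;> linarith [b1.1, b1.2, b2.1, b2.2]
  · intro B hk0 b1 b2
    obtain ⟨d1, d2⟩ := dp k hk0 hk
    push_cast at b1 b2
    rw [Finset.sum_range_succ] at k1 k2
    rw [abs_le] at b1 b2 ⊢
    rcases hη with rfl | rfl <;> constructor <;> linarith [b1.1, b1.2, b2.1, b2.2]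

end Pool.Agent.P.MP_3d25f3_gt
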