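import Pool.Agent.P.MP_3d25f3_gt.Prm
import Pool.Agent.P.MP_3d25f3_gt.FacC
import Pool.Agent.P.MP_3d25f3_gt.The
import Pool.Agent.P.MP_3d25f3_gt.Bet

set_option autoImplicit false

open Set Filter Topology

namespace Pool.Agent.P.MP_3d25f3_gt

open Module

variable {g : ℕ} {S : List (ℕ × ℤ)} {s : Side (Seifert g S)} {A : Cov → ℤ} {N : ℕ} {ne : ℕ → ℤ}
  {U : Set E4} {hx : XN s.X s.Y U s.n} {ρ : ℕ} {G G₁ : ℝ → SF (Fin ρ → ℂ)}

lemma rnk_cu_zero (n : E4 → E4 → ℤ) : tw (cu 0) n = 1 := by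
  rw [show cu 0 = 1 from Units.ext (by simp [cu]), tw_one]

lemma rnk_cu_pow (N : ℕ) (k : ℤ) (m : ℕ) : cu (th N k) ^ m = cu (th N (k * m)) := by
  apply Units.ext
  simp only [cu, th, Units.val_pow_eq_pow_val, Units.val_mk0]
  rw [← Complex.exp_nat_mul]
  congr 1
  push_cast
  ring

lemma rnk_count (P : ℕ × ℤ → Prop) [DecidablePred P] (h : ¬ P (1, 0)) :
    ((Finset.range (S.length + 1)).filter fun i => P (pr g S (2 * g + i))).card
      = S.countP fun q => P q := by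
  rw [Finset.card_filter, sum_getD (fun q => if P q then 1 else 0), if_neg h, add_zero]
  induction S with
  | nil => simp
  | cons q S ih => by_cases hq : P q <;> simp [hq, ih, add_comm]

lemma rnk_pr {q : ℕ × ℤ} (hq : q ∈ S) : ∃ i < S.length, pr g S (2 * g + i) = q := by
  obtain ⟨i, hi, rfl⟩ := List.getElem_of_mem hq
  exact ⟨i, hi, by simp [pr, hi]⟩

lemma rnk_mem (i : ℕ) : pr g S (2 * g + i) ∈ S ∨ pr g S (2 * g + i) = (1, 0) := by
  by_cases hi : i < S.length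
  · left; simp [pr, hi]
  · right; simp [pr, List.getElem?_eq_none (not_lt.1 hi)]

theorem rho_le (hS : Data S) (h : Per g S s.nM A N ne) (hN : 0 < N) (hF : Family hx N ρ G G₁) :
    ρ ≤ 2 * g := by
  have := s.t2
  have h1 := hF.card 0
  rw [rnk_cu_zero, finrank_dual s.xy good_one (subset_univ _) (j := 2) rfl] at h1
  have h2 := betti_sum (k := ℂ) s.xy
  obtain ⟨Φ, -⟩ := s.equiv_one ℂ 1
  have h3 := b1_le (g := g) (k := ℂ) hS fun p hp => by
    have := (hS.1 p hp).1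
    exact Nat.cast_ne_zero.2 (by omega)
  rw [← Φ.finrank_eq] at h3
  have : Module.Finite ℂ (H (1 : E4 → E4 → ℂ) 1 s.X ∅) := (s.xy.fg good_one (subset_univ _)).2 1
  have h4 : 0 < finrank ℂ (H (1 : E4 → E4 → ℂ) 1 s.X ∅) := by
    refine finrank_pos_iff_exists_ne_zero.2 ⟨cl _ s.coc.co1, fun h0 => ?_⟩
    rw [cl_eq_zero] at h0
    have h5 := pull_Bc (Itw_comp (1 : E4 → E4 → ℂ) s.e univ) (G' := ∅)
      (fun _ _ => s.cont.continuousAt) (empty_subset _)
      (fun x _ => (s.inter.ge (mem_range_self x)).1) (fun _ hx => hx.elim) h0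
    have e : pull s.e 1 (co1 fun a b => (s.n a b : ℂ)) = co1 fun a b => (s.nM a b : ℂ) := by
      funext l
      match l with
      | [] => rfl
      | [_] => simp [co1]
      | [_, _] => simp [co1, Side.nM]
      | _ :: _ :: _ :: _ => simp [co1]
    rw [e] at h5
    have := h.cast_eq_zero (R := ℂ) h5
    exact hN.ne' (by exact_mod_cast this)
  omega

theorem sgn_at_zero (hF : Family hx N ρ G G₁) : sgn (G 0) = 0 := by
  have h1 := hF.rank 0
  rw [rnk_cu_zero, jm_one s.xy 1, LinearMap.range_zero, finrank_bot] at h1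
  have h2 := abs_sgn_le (hF.herm 0)
  rw [Module.finrank_fin_fun] at h2
  have := abs_nonneg (sgn (G 0))
  exact abs_eq_zero.1 (by omega)

theorem sgn_pp (hS : Data S) (h : Per g S s.nM A N ne) (hN : 0 < N) (hF : Family hx N ρ G G₁)
    {p a : ℕ} (hp : p.Prime) {k : ℤ} (hk : (N : ℤ) ∣ k * p ^ a) (hq : ∃ q ∈ S, ¬ (q.1 : ℤ) ∣ k) :
    |sgn (G (th N k))| ≤ S.countP fun q => p ∣ q.1 ∧ (q.1 : ℤ) ∣ k := by
  classical
  have := s.t2
  have hdv : ∀ q ∈ S, ¬ (q.1 : ℤ) ∣ k → p ∣ q.1 := by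
    intro q hq hqk
    by_contra hpq
    refine hqk (IsCoprime.dvd_of_dvd_mul_right (z := (p : ℤ) ^ a) ?_ ((h.dvd hS hq).trans hk))
    exact (Nat.isCoprime_iff_coprime.2 ((Nat.Prime.coprime_iff_not_dvd hp).2 hpq).symm).pow_right
  obtain ⟨q, hq, hqk⟩ := hq
  obtain ⟨i, hi, hiq⟩ := rnk_pr (g := g) hq
  have hω : cu (th N k) ^ (N : ℤ) = 1 := (cu_pow_eq_one hN _).2 ⟨k, rfl⟩
  have he : 2 * g + i < NE g S := by unfold NE; omega
  have hne : cu (th N k) ^ ne (2 * g + i) ≠ 1 := by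
    rw [Ne, cu_th_slit_eq_one hS h hN k hi.le, hiq]
    exact hqk
  have hpa : cu (th N k) ^ p ^ a = 1 := by
    rw [rnk_cu_pow, cu_th_eq_one hN]
    exact_mod_cast hk
  obtain ⟨O, κ, _, _, _, _, φ, ev, w, π, hφ, hw, hw', hr, hch⟩ := exists_ploc hp hpa
  obtain ⟨y⟩ : Nonempty (Seifert g S) := inferInstance
  have hwne : w ^ ne (2 * g + i) ≠ 1 := by
    intro h1
    apply hne
    have e : Units.map (φ : O →* ℂ) w = cu (th N k) := Units.ext hw
    rw [← e, ← map_zpow, h1, map_one]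
  have b1 := betti_tw hx hφ hw hw' hr (x := s.e y) (s.inter.ge (mem_range_self y)).1 fun c hc => by
    have h5 := pull_Zc (Itw_comp (tw w s.n) s.e univ) (G' := ∅)
      (fun _ _ => s.cont.continuousAt) (empty_subset _)
      (fun x _ => (s.inter.ge (mem_range_self x)).1) (fun _ hx => hx.elim) hc
    simpa using h.h0 he hwne h5 y
  have b2 := rank_jm hx.xy (hx.good (cu (th N k))) hx.sub
  have b3 := finrank_tw hS s.cocM h hω ⟨_, he, hne⟩
  have b4 := b1_le' (g := g) (k := κ) hS ⟨q, hq, (CharP.cast_eq_zero_iff κ p _).2 (hdv q hq hqk)⟩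
  have b5 := hF.rank (th N k)
  have b6 := abs_sgn_le (hF.herm (th N k))
  rw [Module.finrank_fin_fun] at b6
  obtain ⟨Φ, -⟩ := s.equiv_one κ 1
  obtain ⟨Ψ, -⟩ := s.equiv (cu (th N k)) 1
  rw [← Φ.finrank_eq] at b4
  rw [← Ψ.finrank_eq] at b3
  have c1 := rnk_count (g := g) (S := S) (fun q => p ∣ q.1 ∧ (q.1 : ℤ) ∣ k)
    fun h1 => hp.one_lt.ne' (Nat.dvd_one.1 h1.1)
  have c2 : ((Finset.range (S.length + 1)).filter fun i => ((pr g S (2 * g + i)).1 : κ) = 0).card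
      ≤ ((Finset.range (S.length + 1)).filter fun i => cu (th N k) ^ ne (2 * g + i) ≠ 1).card
      + ((Finset.range (S.length + 1)).filter fun i =>
        p ∣ (pr g S (2 * g + i)).1 ∧ ((pr g S (2 * g + i)).1 : ℤ) ∣ k).card := by
    refine le_trans (Finset.card_le_card fun j hj => ?_) (Finset.card_union_le _ _)
    simp only [Finset.mem_filter, Finset.mem_union, Finset.mem_range] at hj ⊢
    by_cases h1 : cu (th N k) ^ ne (2 * g + j) = 1
    · exact Or.inr ⟨hj.1, (CharP.cast_eq_zero_iff κ p _).1 hj.2,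
        (cu_th_slit_eq_one hS h hN k (by omega)).1 h1⟩
    · exact Or.inl ⟨hj.1, h1⟩
  rw [← c1]
  omega

end Pool.Agent.P.MP_3d25f3_gt
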