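import Pool.Agent.P.MP_3d25f3_gt.SdB

set_option autoImplicit false

open Set Filter Topology

namespace Pool.Agent.P.MP_3d25f3_gt

lemma sdc_lift {M Z W : Type} [TopologicalSpace M] [TopologicalSpace Z] [TopologicalSpace W]
    {e : M → Z} (he : IsEmbedding e) {ι : W → Z} (hι : IsOpenEmbedding ι)
    (h : range e ⊆ range ι) : ∃ e1 : M → W, Continuous e1 ∧ Function.Injective e1 ∧
      (∀ x, ι (e1 x) = e x) ∧ ι ⁻¹' range e = range e1 := by
  choose e1 h1 using fun x => h (mem_range_self x)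
  refine ⟨e1, hι.isInducing.continuous_iff.2 ?_, fun x y hxy => he.injective ?_, h1, ?_⟩
  · rw [show ι ∘ e1 = e from funext h1]
    exact he.continuous
  · rw [← h1, ← h1, hxy]
  · ext a
    exact ⟨fun ⟨x, hx⟩ => ⟨x, hι.injective ((h1 x).trans hx)⟩, fun ⟨x, hx⟩ => ⟨x, hx ▸ (h1 x).symm⟩⟩

lemma sdc_pos {Z : Type} [TopologicalSpace Z] {φ : OpenPartialHomeomorph Z E4} {x : Z}
    (h1 : x ∈ φ.source) (h0 : φ x 0 = 0) : ∃ y ∈ φ.source, 0 < φ y 0 :=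
  let ⟨y, h2, h3⟩ := ((chart_both h1 h0).1.and_eventually (φ.open_source.mem_nhds h1)).exists
  ⟨y, h3, h2⟩

lemma sdc_coc {Z : Type} [TopologicalSpace Z] [T2Space Z] {ι : E4 → Z} (hι : IsOpenEmbedding ι)
    {Y : Set E4} {n : E4 → E4 → ℤ} (hn : CocZ n Y) (h0 : ∀ a b, 1 < ‖a‖ → 1 < ‖b‖ → n a b = 0) :
    ∃ m : Z → Z → ℤ, CocZ m (ι '' Yᶜ)ᶜ ∧ ∀ a b, m (ι a) (ι b) = n a b := by
  classical
  obtain ⟨g, g1, g2⟩ : ∃ g : Z → E4, (∀ a, g (ι a) = a) ∧ ∀ z, z ∉ range ι → g z = fun _ => 2 :=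
    ⟨Function.extend ι id fun _ _ => 2, fun a => hι.injective.extend_apply _ _ a,
      fun z hz => Function.extend_apply' _ _ _ hz⟩
  refine ⟨fun y z => n (g y) (g z), fun y hy => ?_, fun a b => by simp only [g1]⟩
  by_cases h : y ∈ range ι
  · obtain ⟨a, rfl⟩ := h
    obtain ⟨U, hU, h1⟩ := hn a (by_contra fun ha => hy ⟨a, ha, rfl⟩)
    have hc : ContinuousAt g (ι a) := hι.continuousAt_iff.1 (by
      rw [show g ∘ ι = id from funext g1]
      exact continuousAt_id)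
    exact ⟨g ⁻¹' U, hc (by rwa [g1]), fun a ha b hb c hc => h1 _ ha _ hb _ hc⟩
  · have hK : IsClosed (ι '' Metric.closedBall 0 1) :=
      ((isCompact_closedBall 0 1).image hι.continuous).isClosed
    have h1 : ∀ z ∈ (ι '' Metric.closedBall 0 1)ᶜ, 1 < ‖g z‖ := fun z hz => by
      by_cases h2 : z ∈ range ι
      · obtain ⟨a, rfl⟩ := h2
        rw [g1]
        exact not_le.1 fun ha => hz ⟨a, mem_closedBall_zero_iff.2 ha, rfl⟩
      · rw [g2 z h2, pi_norm_const]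
        norm_num
    refine ⟨_, hK.isOpen_compl.mem_nhds fun h2 => h (image_subset_range _ _ h2),
      fun a ha b hb c hc => ?_⟩
    simp only [h0 _ _ (h1 a ha) (h1 b hb), h0 _ _ (h1 b hb) (h1 c hc), h0 _ _ (h1 a ha) (h1 c hc),
      add_zero]

theorem two_sides {M : Type} [TopologicalSpace M] [CompactSpace M] [Nonempty M] (h : EmbedsFlat M)
    {f : M → M → ℤ} (hf : CocZ f univ) :
    ∃ s₁ s₂ : Side M, ∀ a b, f a b = s₁.nM a b + s₂.nM a b := by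
  obtain ⟨e, he, hφ⟩ := h
  obtain ⟨x0⟩ := ‹Nonempty M›
  have hF : Flat (range e) := by
    rintro _ ⟨x, rfl⟩
    exact hφ x
  obtain ⟨p1, hp1⟩ : ∃ p, p ∉ range e := by
    obtain ⟨φ, h1, h2⟩ := hφ x0
    obtain ⟨y, h3, h4⟩ := sdc_pos h1 ((h2 _ h1).1 (mem_range_self x0))
    exact ⟨y, fun h5 => h4.ne' ((h2 y h3).1 h5)⟩
  obtain ⟨ι1, i1, -, b1⟩ := stereo p1 (isCompact_range he.continuous) hp1
  obtain ⟨e1, c1, j1, k1, r1⟩ := sdc_lift he i1 (b1.trans (image_subset_range _ _))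
  obtain ⟨X1, Y1, xy, hi⟩ := sides (isCompact_range c1)
    (by
      rw [← r1, ← preimage_image_eq (Metric.ball 0 1) i1.injective]
      exact preimage_mono b1) (r1 ▸ hF.preimage i1)
  obtain ⟨r, r2, r3⟩ := near_retr (e := e1) isCompact_univ ⟨x0, trivial⟩ c1 j1.injOn
  obtain ⟨n, n1, n2, n3⟩ := split_coc xy (f := fun a b => f (r a) (r b))
    (hf.comp (fun a ha => by
      obtain ⟨x, rfl⟩ := hi.le ha
      exact r3 x trivial) (mapsTo_univ _ _))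
  obtain ⟨m, m1, m2⟩ := sdc_coc i1 n2 n3
  have pX : ι1 ⁻¹' (ι1 '' X1) = X1 := preimage_image_eq _ i1.injective
  have pY : ι1 ⁻¹' (ι1 '' Y1ᶜ)ᶜ = Y1 := by
    rw [preimage_compl, preimage_image_eq _ i1.injective, compl_compl]
  have cX : IsClosed (ι1 '' X1) := (xy.compact.image i1.continuous).isClosed
  have cY : IsClosed (ι1 '' Y1ᶜ)ᶜ := (i1.isOpenMap _ xy.cY.isOpen_compl).isClosed_compl
  have sd : Sided (ι1 '' X1) (ι1 '' Y1ᶜ)ᶜ := Sided.of_preimage i1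
    (inter_subset_left.trans (image_subset_range _ _)) (by rw [pX, pY]; exact xy.sided)
  have cv : (ι1 '' Y1ᶜ)ᶜ ∪ ι1 '' X1 = univ := eq_univ_of_forall fun y => by
    by_cases hy : y ∈ ι1 '' Y1ᶜ
    · obtain ⟨a, ha, rfl⟩ := hy
      exact Or.inr ⟨a, (xy.cover.ge (mem_univ a)).resolve_right ha, rfl⟩
    · exact Or.inl hy
  have it : (ι1 '' Y1ᶜ)ᶜ ∩ ι1 '' X1 = range e := by
    refine Subset.antisymm ?_ ?_
    · rintro _ ⟨h1, a, ha, rfl⟩
      exact r1.ge (hi.le ⟨ha, pY.le h1⟩)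
    · rintro _ ⟨x, rfl⟩
      have h1 := hi.ge (mem_range_self x)
      rw [← k1]
      exact ⟨pY.ge h1.2, _, h1.1, rfl⟩
  obtain ⟨a2, ha2⟩ : ∃ a, a ∉ Y1 := by
    have h1 := hi.ge (mem_range_self x0)
    obtain ⟨φ, h2, h3⟩ := xy.sided _ h1
    obtain ⟨y, h4, h5⟩ := sdc_pos h2 (le_antisymm ((h3 _ h2).2.1 h1.2) ((h3 _ h2).1.1 h1.1))
    exact ⟨y, fun h6 => not_le.2 h5 ((h3 y h4).2.1 h6)⟩
  obtain ⟨ι2, i2, -, b2⟩ := stereo (ι1 a2) cY.isCompact fun h1 => h1 ⟨a2, ha2, rfl⟩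
  obtain ⟨e2, c2, j2, k2, r4⟩ := sdc_lift he i2
    ((it.ge.trans inter_subset_left).trans (b2.trans (image_subset_range _ _)))
  refine ⟨⟨e1, X1, Y1, _, c1, j1, xy, hi, n1⟩,
    ⟨e2, ι2 ⁻¹' (ι1 '' Y1ᶜ)ᶜ, ι2 ⁻¹' (ι1 '' X1), fun a b => m (ι2 a) (ι2 b), c2, j2,
      ⟨cY.preimage i2.continuous, cX.preimage i2.continuous, ?_, ?_, sd.symm.preimage i2⟩, ?_,
      m1.comp (fun _ _ => i2.continuous.continuousAt) fun _ ha => ha⟩, fun a b => ?_⟩
  · rw [← preimage_union, cv, preimage_univ]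
  · rw [← preimage_image_eq (Metric.ball 0 1) i2.injective]
    exact preimage_mono b2
  · rw [← preimage_inter, it, r4]
  · simp only [Side.nM]
    rw [k2, k2, ← k1, ← k1, m2, r2 a trivial, r2 b trivial, sub_add_cancel]

end Pool.Agent.P.MP_3d25f3_gt
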