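import Pool.Agent.P.MP_3d25f3_gt.Brg
import Pool.Agent.P.MP_3d25f3_gt.Rnk
import Pool.Agent.P.MP_3d25f3_gt.Jump
import Pool.Agent.P.MP_3d25f3_gt.NtA
import Pool.Agent.P.MP_3d25f3_gt.Cls
import Pool.Agent.P.MP_3d25f3_gt.Flow
import Pool.Agent.P.MP_3d25f3_gt.SdC

set_option autoImplicit false

open Set Filter Topology

namespace Pool.Agent.P.MP_3d25f3_gt

variable {g : ℕ} {S : List (ℕ × ℤ)}

theorem core (hS : Data S) (s : Side (Seifert g S)) {A : Cov → ℤ} {N : ℕ} {ne : ℕ → ℤ}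
    (h : Per g S s.nM A N ne) (hN : 0 < N) (hp : Primi g S N ne) {k : ℕ} (hk : k < N) :
    |∑ j ∈ Finset.range (k + 1), jmp S j| ≤ g ∧
    ∀ p a : ℕ, p.Prime → N ∣ k * p ^ a → (∃ q ∈ S, ¬ q.1 ∣ k) →
      |2 * ∑ j ∈ Finset.range k, jmp S j + jmp S k| ≤ S.countP fun q => p ∣ q.1 ∧ q.1 ∣ k := by
  have := s.t2
  obtain ⟨U, hx⟩ := s.xn
  have hkill : ∀ x : H (tw tL s.n) 2 (s.X ∩ s.Y) ∅,
      (((tL ^ (N : ℤ) : Laˣ) : La) - 1) • x = 0 := by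
    intro x
    obtain ⟨Φ, -⟩ := s.equiv tL 2
    apply Φ.injective
    rw [map_smul, map_zero]
    exact Per.kill s.cocM h tL 2 _
  obtain ⟨ρ, G, G₁, hF⟩ := exists_family hx (m := N) (by exact_mod_cast hN.ne') hkill
  rcases bridge hS h hN hp hF with h0 | ⟨η, hη, hb⟩
  · simp [h0]
  have hj : ∀ θ, (∀ᶠ u in 𝓝[>] θ, sgn (G u)
        = sgn (G θ) + sgn (cmp (G₁ θ) (LinearMap.ker (G θ)).subtype)) ∧
      ∀ᶠ u in 𝓝[<] θ, sgn (G u) = sgn (G θ) - sgn (cmp (G₁ θ) (LinearMap.ker (G θ)).subtype) :=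
    fun θ => jump hF.herm (hF.der θ) (hF.nd θ)
  have hN' : (0 : ℝ) < N := by exact_mod_cast hN
  have hmono : ∀ a b : ℤ, th N a < th N b ↔ a < b := by
    intro a b
    unfold th
    rw [div_lt_div_iff_of_pos_right hN', mul_lt_mul_iff_right₀ (by positivity), Int.cast_lt]
  have hstep : ∀ k : ℤ, sgn (G (th N (k + 1)))
      - sgn (cmp (G₁ (th N (k + 1))) (LinearMap.ker (G (th N (k + 1)))).subtype)
      = sgn (G (th N k)) + sgn (cmp (G₁ (th N k)) (LinearMap.ker (G (th N k))).subtype) := by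
    intro k
    refine step (σ := fun θ => sgn (G θ))
      (d := fun θ => sgn (cmp (G₁ θ) (LinearMap.ker (G θ)).subtype)) hj
      ((hmono _ _).2 (by omega)) fun θ hθ => ?_
    have hker : LinearMap.ker (G θ) = ⊥ := by
      refine hF.gen θ fun h1 => ?_
      obtain ⟨j, hj⟩ := (cu_pow_eq_one hN θ).1 h1
      have e : θ = th N j := hj
      rw [e] at hθ
      have h2 := (hmono _ _).1 hθ.1
      have h3 := (hmono _ _).1 hθ.2
      omega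
    refine sgn_of_zero fun x => ?_
    have : (x : Fin ρ → ℂ) = 0 := (Submodule.mem_bot ℂ).1 (hker.le x.2)
    simp [this]
  have hρ := rho_le hS h hN hF
  have hbd : ∀ u, |sgn (G u)| ≤ 2 * g := by
    intro u
    have := abs_sgn_le (hF.herm u)
    rw [Module.finrank_fin_fun] at this
    omega
  have hz : th N 0 = 0 := by simp [th]
  have hs := steps (s := fun k => sgn (G (th N k)))
    (d := fun k => sgn (cmp (G₁ (th N k)) (LinearMap.ker (G (th N k))).subtype)) (J := jmp S)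
    hη (N := N) hstep (by simp only [hz]; exact sgn_at_zero hF) (jmp_neg S)
    (fun j hj0 hjN => hb j fun hd => by
      have := Int.le_of_dvd (abs_pos.2 hj0) ((dvd_abs _ _).2 hd)
      omega) hk
  refine ⟨hs.1 g ?_ ?_, fun p a hp' hd hq => ?_⟩
  · obtain ⟨u, hu⟩ := (hj (th N k)).1.exists
    have := hbd u
    rw [hu] at this
    exact_mod_cast this
  · obtain ⟨u, hu⟩ := (hj (th N (-k))).2.exists
    have := hbd u
    rw [hu] at this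
    exact_mod_cast this
  · obtain ⟨q, hq, hqk⟩ := hq
    have hk0 : 0 < k := Nat.pos_of_ne_zero fun h0 => hqk (h0 ▸ dvd_zero _)
    have hd' : (N : ℤ) ∣ (k : ℤ) * p ^ a := by exact_mod_cast hd
    have hq' : ¬ (q.1 : ℤ) ∣ (k : ℤ) := fun h1 => hqk (by exact_mod_cast h1)
    have h1 := sgn_pp hS h hN hF hp' (k := k) hd' ⟨q, hq, hq'⟩
    have h2 := sgn_pp hS h hN hF hp' (k := -k) (by rw [neg_mul]; exact (dvd_neg).2 hd')
      ⟨q, hq, by rwa [dvd_neg]⟩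
    simp only [dvd_neg, Int.natCast_dvd_natCast] at h1 h2
    exact hs.2 _ hk0 (by exact_mod_cast h1) (by exact_mod_cast h2)

/-- a good side for the prime `p` -/
lemma exists_side (hS : Data S) (h : EmbedsFlat (Seifert g S)) {p : ℕ} (hp : p.Prime) :
    ∃ (n c : ℕ) (s : Side (Seifert g S)) (A : Cov → ℤ) (ne : ℕ → ℤ), 0 < n ∧ 0 < c ∧ ¬ p ∣ c ∧
      (∀ q ∈ S, q.1 ∣ n) ∧ (∀ m, (∀ q ∈ S, q.1 ∣ m) → n ∣ m) ∧
      Per g S s.nM A (c * n : ℕ) ne ∧ Primi g S (c * n : ℕ) ne := by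
  obtain ⟨n, hn, h1, h2⟩ : ∃ n : ℕ, 0 < n ∧ (∀ q ∈ S, q.1 ∣ n) ∧
      ∀ m, (∀ q ∈ S, q.1 ∣ m) → n ∣ m := by
    refine ⟨S.toFinset.lcm Prod.fst, Nat.pos_of_ne_zero ?_,
      fun q hq => Finset.dvd_lcm (List.mem_toFinset.2 hq),
      fun m hm => Finset.lcm_dvd fun q hq => hm q (List.mem_toFinset.1 hq)⟩
    rw [Ne, Finset.lcm_eq_zero_iff]
    rintro ⟨q, hq, h0⟩
    have := (hS.1 q (List.mem_toFinset.1 hq)).1
    omega
  have h3 : ∀ m : ℤ, (∀ q ∈ S, (q.1 : ℤ) ∣ m) → (n : ℤ) ∣ m := fun m hm =>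
    Int.natCast_dvd.2 (h2 _ fun q hq => Int.natCast_dvd.1 (hm q hq))
  obtain ⟨f, A, ne, hf, hP⟩ := exists_class (g := g) hS h1
  obtain ⟨s₁, s₂, hs⟩ := two_sides h hf
  obtain ⟨A₁, N₁, ne₁, hP₁⟩ := exists_per s₁.cocM
  obtain ⟨A₂, N₂, ne₂, hP₂⟩ := exists_per s₂.cocM
  have hsum := (hP.lin hP₁ hP₂ (c₁ := 1) (c₂ := 1) (a := 0)
    fun x => ⟨univ, univ_mem, fun y _ z _ => by simp [hs]⟩).1
  obtain ⟨c₁, hc₁⟩ := h3 N₁ fun q hq => hP₁.dvd hS hq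
  obtain ⟨c₂, hc₂⟩ := h3 N₂ fun q hq => hP₂.dvd hS hq
  have hn' : (n : ℤ) ≠ 0 := by exact_mod_cast hn.ne'
  have hc : c₁ + c₂ = 1 := by
    apply mul_left_cancel₀ hn'
    rw [mul_add, ← hc₁, ← hc₂]
    linarith
  have key : ∀ (s : Side (Seifert g S)) (A : Cov → ℤ) (ne : ℕ → ℤ) (c : ℤ),
      Per g S s.nM A (n * c) ne → ¬ (p : ℤ) ∣ c →
      ∃ (c : ℕ) (s : Side (Seifert g S)) (A : Cov → ℤ) (ne : ℕ → ℤ), 0 < n ∧ 0 < c ∧ ¬ p ∣ c ∧
      (∀ q ∈ S, q.1 ∣ n) ∧ (∀ m, (∀ q ∈ S, q.1 ∣ m) → n ∣ m) ∧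
      Per g S s.nM A (c * n : ℕ) ne ∧ Primi g S (c * n : ℕ) ne := by
    intro s A ne c hP hc
    have hc0 : c ≠ 0 := fun h0 => hc (h0 ▸ dvd_zero _)
    obtain ⟨s', A', N', ne', hN', hd, hP', hpr⟩ := exists_primi s hP (mul_ne_zero hn' hc0)
    obtain ⟨c', rfl⟩ : n ∣ N' := h2 _ fun q hq => Int.natCast_dvd_natCast.1 (hP'.dvd hS hq)
    refine ⟨c', s', A', ne', hn, Nat.pos_of_mul_pos_left hN', fun hpc => hc ?_, h1, h2, ?_, ?_⟩
    · rw [Nat.cast_mul, mul_dvd_mul_iff_left hn'] at hd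
      exact (Int.natCast_dvd_natCast.2 hpc).trans hd
    · rwa [mul_comm c' n]
    · rwa [mul_comm c' n]
  by_cases hp1 : (p : ℤ) ∣ c₁
  · refine ⟨n, key s₂ A₂ ne₂ c₂ (hc₂ ▸ hP₂) fun hp2 => ?_⟩
    have := dvd_add hp1 hp2
    rw [hc] at this
    exact hp.one_lt.ne' (Nat.dvd_one.1 (by exact_mod_cast this))
  · exact ⟨n, key s₁ A₁ ne₁ c₁ (hc₁ ▸ hP₁) hp1⟩

theorem genus_bound (hS : Data S) (h : EmbedsFlat (Seifert g S)) (k : ℕ) :
    |∑ j ∈ Finset.range (k + 1), jmp S j| ≤ g := by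
  obtain ⟨n, c, s, A, ne, hn, hc, -, h1, -, hP, hpr⟩ := exists_side hS h Nat.prime_two
  have hN : 0 < c * n := Nat.mul_pos hc hn
  have := (core hS s hP hN hpr (Nat.mod_lt k hN)).1
  rwa [(sum_jmp_mod (m := c * n) (fun q hq => (h1 q hq).mul_left c)
    ((Nat.mod_modEq k (c * n)).add_right 1)).1] at this

theorem pp_bound (hS : Data S) (h : EmbedsFlat (Seifert g S)) (p a k : ℕ) (hp : p.Prime)
    (hk : ∀ q ∈ S, q.1 ∣ k * p ^ a) (hq : ∃ q ∈ S, ¬ q.1 ∣ k) :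
    |2 * ∑ j ∈ Finset.range k, jmp S j + jmp S k| ≤ S.countP fun q => p ∣ q.1 ∧ q.1 ∣ k := by
  obtain ⟨n, c, s, A, ne, hn, hc, hpc, h1, h2, hP, hpr⟩ := exists_side hS h hp
  obtain ⟨k', b, hk1, hk2, hk3⟩ := exists_residue hn hc hp hpc (h2 _ hk)
  have hiff : ∀ q ∈ S, (q.1 ∣ k' ↔ q.1 ∣ k) := fun q hq => hk2.dvd_iff (h1 q hq)
  obtain ⟨q, hq, hqk⟩ := hq
  have := (core hS s hP (Nat.mul_pos hc hn) hpr hk1).2 p b hp hk3
    ⟨q, hq, fun h0 => hqk ((hiff q hq).1 h0)⟩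
  obtain ⟨e1, e2⟩ := sum_jmp_mod h1 hk2
  rw [e1, e2] at this
  convert this using 2
  exact List.countP_congr fun q hq => by simp [hiff q hq]

end Pool.Agent.P.MP_3d25f3_gt
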