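import Pool.Agent.P.MP_3d25f3_gt.Hi
import Pool.Agent.P.MP_3d25f3_gt.Les

set_option autoImplicit false

open Set Filter Topology

namespace Pool.Agent.P.MP_3d25f3_gt

variable {R : Type} [CommRing R]

/-- outside of the open unit cube -/
def Out (d : ℕ) : Set (Fin d → ℝ) := {x | 1 ≤ ‖x‖}

/-- `o` generates the top cohomology of the pair over every ring -/
def Gen {Z : Type} [TopologicalSpace Z] (o : List Z → ℤ) (k : ℕ) (F F' : Set Z) : Prop :=
  o ∈ Zc (1 : Z → Z → ℤ) k F F' ∧ ∀ (R : Type) [CommRing R],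
    (∀ c ∈ Zc (1 : Z → Z → R) k F F', ∃ r : R, c - r • cf (Int.castRingHom R) o ∈ Bc 1 k F F') ∧
    (∀ r : R, r • cf (Int.castRingHom R) o ∈ Bc (1 : Z → Z → R) k F F' → r = 0) ∧
    ∀ j, j ≠ k → Van (1 : Z → Z → R) j F F'

lemma cube_cast {Z : Type} (R : Type) [CommRing R] (x y : Z) :
    (Int.castRingHom R) ((1 : Z → Z → ℤ) x y) = (1 : Z → Z → R) x y := by simp

lemma gen_exc {Z : Type} [TopologicalSpace Z] [NormalSpace Z] {A B : Set Z} (hA : IsClosed A)
    (hB : IsClosed B) (k : ℕ) :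
    (∃ o, Gen o k (A ∪ B) B) ↔ ∃ o, Gen o k A (A ∩ B) := by
  constructor
  · rintro ⟨o, ho, H⟩
    refine ⟨o, Zc_mono _ _ subset_union_left inter_subset_right ho, fun R _ => ?_⟩
    obtain ⟨h1, h2, h3⟩ := H R
    refine ⟨fun c hc => ?_, fun r hr => h2 r ?_, fun j hj => (van_exc j hA hB).1 (h3 j hj)⟩
    · obtain ⟨c', hc', hcc⟩ := exc_surj k hA hB hc
      obtain ⟨r, hr⟩ := h1 c' hc'
      refine ⟨r, ?_⟩
      have := add_mem (Null_le_Bc 1 k A (A ∩ B) hcc)
        (Bc_mono _ _ subset_union_left inter_subset_right hr)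
      rwa [sub_add_sub_cancel] at this
    · exact exc_inj k hA hB (Submodule.smul_mem _ _ (cf_Null _ ho.1)) hr
  · rintro ⟨o, ho, H⟩
    obtain ⟨o', ho', hoo⟩ := exc_surj k hA hB ho
    refine ⟨o', ho', fun R _ => ?_⟩
    obtain ⟨h1, h2, h3⟩ := H R
    have hd : ∀ r : R, r • cf (Int.castRingHom R) o - r • cf (Int.castRingHom R) o'
        ∈ Bc (1 : Z → Z → R) k A (A ∩ B) := by
      intro r
      rw [← smul_sub, ← map_sub]
      exact Null_le_Bc _ _ _ _ (Submodule.smul_mem _ _ (cf_Null _ hoo))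
    refine ⟨fun c hc => ?_, fun r hr => h2 r ?_, fun j hj => (van_exc j hA hB).2 (h3 j hj)⟩
    · obtain ⟨r, hr⟩ := h1 c (Zc_mono _ _ subset_union_left inter_subset_right hc)
      refine ⟨r, exc_inj k hA hB
        (sub_mem hc.1 (Submodule.smul_mem _ _ (cf_Null _ ho'.1))) ?_⟩
      have := add_mem hr (hd r)
      rwa [sub_add_sub_cancel] at this
    · have := add_mem (hd r) (Bc_mono _ _ subset_union_left inter_subset_right hr)
      rwa [sub_add_cancel] at this

lemma gen_del {Z : Type} [TopologicalSpace Z] {F F' F'' : Set Z} (h : F' ⊆ F) (h' : F'' ⊆ F')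
    (hv : ∀ (R : Type) [CommRing R] (j : ℕ), Van (1 : Z → Z → R) j F F'') {k : ℕ}
    (ho : ∃ o, Gen o k F' F'') : ∃ o, Gen o (k + 1) F F' := by
  obtain ⟨o, ho, H⟩ := ho
  refine ⟨D 1 o, ⟨ho.2, DD_Null (k := k + 1) (Coc_one (F \ F'')) ho.1⟩, fun R _ => ?_⟩
  obtain ⟨h1, h2, h3⟩ := H R
  rw [cf_D _ (cube_cast R)]
  refine ⟨fun c hc => ?_, fun r hr => h2 r ?_, fun j hj => ?_⟩
  · obtain ⟨b, hb, hcb⟩ := mem_Bc.1 (hv R (k + 1) (Zc_mono _ _ subset_rfl h' hc))
    have hb' : b ∈ Zc (1 : Z → Z → R) k F' F'' := by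
      refine ⟨hb, ?_⟩
      have := sub_mem hc.1 (Null_mono _ h hcb)
      rwa [sub_sub_cancel] at this
    obtain ⟨r, hr⟩ := h1 b hb'
    obtain ⟨b0, hb0, hr0⟩ := mem_Bc.1 hr
    refine ⟨r, mem_Bc.2 ⟨_, hr0, ?_⟩⟩
    have := add_mem hcb (DD_Null (Coc_one (R := R) (F \ F'')) hb0)
    rw [map_sub, map_sub, map_smul]
    rwa [show c - D 1 b + D 1 (D 1 b0) = c - r • D 1 (cf (Int.castRingHom R) o) -
      (D 1 b - r • D 1 (cf (Int.castRingHom R) o) - D 1 (D 1 b0)) by abel] at this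
  · obtain ⟨b, hb, hrb⟩ := mem_Bc.1 hr
    have ha : r • cf (Int.castRingHom R) o - b ∈ Zc (1 : Z → Z → R) k F F'' := by
      refine ⟨sub_mem (Submodule.smul_mem _ _ (cf_Null _ ho.1)) (Null_mono _ h' hb), ?_⟩
      rw [← map_smul, ← map_sub] at hrb
      exact hrb
    have := add_mem (Bc_mono _ _ h subset_rfl (hv R k ha)) (Null_le_Bc 1 k F' F'' hb)
    rwa [sub_add_cancel] at this
  · cases j with
    | zero =>
      intro c hc
      have := hv R 0 (Zc_mono _ _ subset_rfl h' hc)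
      rwa [Bc_zero, ← Bc_zero 1 F F'] at this
    | succ j => exact van_left j (h3 j fun e => hj (by rw [e])) (hv R _) (Coc_one _) h h'

lemma gen_emb {Z W : Type} [TopologicalSpace W] [MetricSpace Z] {e : W → Z} {r : Z → W}
    {G G' : Set W} (hG : IsCompact G) (hG' : G' ⊆ G) (he : Continuous e) (hr : Continuous r)
    (hre : ∀ x, r (e x) = x) {k : ℕ} (ho : ∃ o, Gen o k G G') :
    ∃ o, Gen o k (e '' G) (e '' G') := by
  obtain ⟨o, ho, H⟩ := ho
  have hm : ∀ S : Set W, MapsTo r (e '' S) S := by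
    rintro S _ ⟨x, hx, rfl⟩
    rwa [hre]
  have hi : InjOn e G := (Function.LeftInverse.injective hre).injOn
  have hZ : pull r 1 o ∈ Zc (1 : Z → Z → ℤ) k (e '' G) (e '' G') :=
    pull_Zc (Itw_comp (1 : W → W → ℤ) r _) (fun _ _ => hr.continuousAt) (image_mono hG')
      (hm G) (hm G') ho
  refine ⟨pull r 1 o, hZ, fun R _ => ?_⟩
  obtain ⟨h1, h2, h3⟩ := H R
  have pZ : ∀ {j : ℕ} {c : List Z → R}, c ∈ Zc (1 : Z → Z → R) j (e '' G) (e '' G') →
      pull e 1 c ∈ Zc (1 : W → W → R) j G G' := fun hc =>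
    pull_Zc (Itw_comp (1 : Z → Z → R) e _) (fun _ _ => he.continuousAt) hG'
      (mapsTo_image e G) (mapsTo_image e G') hc
  have hd : ∀ s : R, s • cf (Int.castRingHom R) o -
      s • pull e 1 (cf (Int.castRingHom R) (pull r 1 o)) ∈ Bc (1 : W → W → R) k G G' := by
    intro s
    rw [← smul_sub]
    refine Null_le_Bc _ _ _ _ (Submodule.smul_mem _ _ fun x _ => ⟨univ, univ_mem, ?_⟩)
    rintro (_ | ⟨y, l⟩) hl -
    · simp at hl
    · simp [hre, Function.comp_def]
  refine ⟨fun c hc => ?_, fun s hs => h2 s ?_, fun j hj c hc => ?_⟩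
  · obtain ⟨s, hs⟩ := h1 _ (pZ hc)
    refine ⟨s, emb_inj hG hG' he hi (Coc_one _)
      (sub_mem hc (Submodule.smul_mem _ _ (cf_Zc _ (cube_cast R) hZ))) ?_⟩
    have := add_mem hs (hd s)
    rw [sub_add_sub_cancel, ← map_smul, ← map_sub] at this
    exact this
  · have h0 : pull e 1 (s • cf (Int.castRingHom R) (pull r 1 o)) ∈ Bc (1 : W → W → R) k G G' :=
      pull_Bc (Itw_comp (1 : Z → Z → R) e _) (fun _ _ => he.continuousAt) hG'
        (mapsTo_image e G) (mapsTo_image e G') hs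
    rw [map_smul] at h0
    have := add_mem (hd s) h0
    rwa [sub_add_cancel] at this
  · exact emb_inj hG hG' he hi (Coc_one _) hc (h3 j hj (pZ hc))

lemma cube_norm {d : ℕ} (x : Fin (d + 1) → ℝ) : ‖x‖ = max |x 0| ‖Fin.tail x‖ := by
  refine le_antisymm ?_ (max_le (norm_le_pi_norm x 0) ?_)
  · refine (pi_norm_le_iff_of_nonneg (le_max_of_le_left (abs_nonneg _))).2 fun i => ?_
    refine Fin.cases (le_max_left _ _) (fun j => le_max_of_le_right ?_) i
    exact norm_le_pi_norm (Fin.tail x) j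
  · exact (pi_norm_le_iff_of_nonneg (norm_nonneg _)).2 fun j => norm_le_pi_norm x j.succ

lemma cube_norm_cons {d : ℕ} (a : ℝ) (y : Fin d → ℝ) :
    ‖(Fin.cons a y : Fin (d + 1) → ℝ)‖ = max |a| ‖y‖ := by
  rw [cube_norm]
  simp

lemma cube_iff (d k : ℕ) : (∃ o, Gen o k univ (Out d)) ↔
    ∃ o, Gen o k (Metric.closedBall (0 : Fin d → ℝ) 1) (Metric.sphere 0 1) := by
  have hO : IsClosed (Out d) := isClosed_le continuous_const continuous_norm
  have h1 : Metric.closedBall (0 : Fin d → ℝ) 1 ∪ Out d = univ := by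
    refine eq_univ_of_forall fun x => ?_
    simp only [mem_union, mem_closedBall_zero_iff, Out, mem_ofPred_eq]
    exact le_total _ _
  have h2 : Metric.closedBall (0 : Fin d → ℝ) 1 ∩ Out d = Metric.sphere 0 1 := by
    ext x
    simp only [mem_inter_iff, mem_closedBall_zero_iff, Out, mem_ofPred_eq,
      mem_sphere_zero_iff_norm]
    exact le_antisymm_iff.symm
  rw [← h1, ← h2]
  exact gen_exc Metric.isClosed_closedBall hO k

/-- bottom and walls of the cube -/
def cubeJ (d : ℕ) : Set (Fin (d + 1) → ℝ) := {x | ‖x‖ ≤ 1 ∧ (x 0 = -1 ∨ ‖Fin.tail x‖ = 1)}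

lemma cube_tail_cont (d : ℕ) : Continuous fun x : Fin (d + 1) → ℝ => Fin.tail x :=
  continuous_pi fun j => continuous_apply j.succ

lemma cube_J_closed (d : ℕ) : IsClosed (cubeJ d) :=
  (isClosed_le continuous_norm continuous_const).inter
    ((isClosed_eq (continuous_apply 0) continuous_const).union
      (isClosed_eq (cube_tail_cont d).norm continuous_const))

lemma cube_J_sub (d : ℕ) : cubeJ d ⊆ Metric.sphere 0 1 := by
  rintro x ⟨h1, h2⟩
  rw [mem_sphere_zero_iff_norm]
  refine le_antisymm h1 ?_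
  rw [cube_norm]
  rcases h2 with h | h
  · rw [h]
    simp
  · rw [h]
    exact le_max_right _ _

lemma cube_van (d : ℕ) (R : Type) [CommRing R] (j : ℕ) :
    Van (1 : (Fin (d + 1) → ℝ) → (Fin (d + 1) → ℝ) → R) j (Metric.closedBall 0 1) (cubeJ d) := by
  have hK : IsCompact (Metric.closedBall (0 : Fin (d + 1) → ℝ) 1) := isCompact_closedBall _ _
  have hJK : cubeJ d ⊆ Metric.closedBall 0 1 := fun x hx => mem_closedBall_zero_iff.2 hx.1
  have hb : ∀ x : Fin (d + 1) → ℝ, ‖x‖ ≤ 1 → ∀ s ∈ Icc (0 : ℝ) 1,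
      ‖(Fin.cons ((1 - s) * x 0 - s) (Fin.tail x) : Fin (d + 1) → ℝ)‖ ≤ 1 := by
    intro x hx s hs
    rw [cube_norm, max_le_iff, abs_le] at hx
    rw [cube_norm_cons, max_le_iff, abs_le]
    obtain ⟨⟨h1, h2⟩, h3⟩ := hx
    obtain ⟨h4, h5⟩ := hs
    exact ⟨⟨by nlinarith, by nlinarith⟩, h3⟩
  refine van_deform (h := fun x s => Fin.cons ((1 - s) * x 0 - s) (Fin.tail x)) j hK
    (hK.of_isClosed_subset (cube_J_closed d) hJK) hJK ?_ ?_ (Coc_one _) ?_ ?_ ?_
  · refine continuous_pi fun i => ?_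
    refine Fin.cases ?_ (fun j => ?_) i
    · simp only [Function.uncurry, Fin.cons_zero]
      fun_prop
    · simp only [Function.uncurry, Fin.cons_succ, Fin.tail]
      fun_prop
  · intro x
    simp
  · intro x hx s hs
    exact mem_closedBall_zero_iff.2 (hb x (mem_closedBall_zero_iff.1 hx) s hs)
  · rintro x ⟨h1, h2⟩ s hs
    refine ⟨hb x h1 s hs, h2.imp (fun h => ?_) fun h => ?_⟩
    · simp only [Fin.cons_zero, h]
      ring
    · simpa using h
  · intro x hx
    exact ⟨hb x (mem_closedBall_zero_iff.1 hx) 1 ⟨zero_le_one, le_rfl⟩, Or.inl (by simp)⟩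

theorem exists_gen (d : ℕ) : ∃ o, Gen o d univ (Out d) := by
  induction d with
  | zero =>
    have hO : Out 0 = ∅ := by
      refine eq_empty_of_forall_notMem fun x hx => ?_
      rw [Subsingleton.elim x 0] at hx
      simp only [Out, mem_ofPred_eq, norm_zero] at hx
      linarith
    rw [hO]
    refine ⟨fun _ => 1, one_mem_Zc _, fun R _ => ⟨fun c hc => ⟨c [0], ?_⟩, fun r hr => ?_, ?_⟩⟩
    · have := h0_const isPreconnected_univ hc (mem_univ 0)
      refine Null_le_Bc _ _ _ _ ?_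
      rwa [show (c [0] • cf (Int.castRingHom R) (fun _ => 1) : List (Fin 0 → ℝ) → R)
        = fun _ => c [0] from funext fun _ => by simp]
    · rw [Bc_zero] at hr
      obtain ⟨U, hU, h⟩ := hr 0 (mem_univ _)
      simpa using h [0] rfl (by simpa using mem_of_mem_nhds hU)
    · intro j hj
      obtain ⟨j, rfl⟩ := Nat.exists_eq_succ_of_ne_zero hj
      exact van_convex j (Set.toFinite _).isCompact convex_univ (Coc_one _)
  | succ d ih =>
    rw [cube_iff] at ih ⊢
    have he : Continuous fun y : Fin d → ℝ => (Fin.cons 1 y : Fin (d + 1) → ℝ) := by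
      refine continuous_pi fun i => ?_
      refine Fin.cases ?_ (fun j => ?_) i
      · simp only [Fin.cons_zero]
        fun_prop
      · simp only [Fin.cons_succ]
        fun_prop
    have h1 := gen_emb (isCompact_closedBall _ _) Metric.sphere_subset_closedBall he
      (cube_tail_cont d) (fun y => Fin.tail_cons _ _) ih
    set T := (fun y : Fin d → ℝ => (Fin.cons 1 y : Fin (d + 1) → ℝ)) '' Metric.closedBall 0 1
      with hT
    have hTc : IsClosed T := ((isCompact_closedBall _ _).image he).isClosed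
    have e1 : (fun y : Fin d → ℝ => (Fin.cons 1 y : Fin (d + 1) → ℝ)) '' Metric.sphere 0 1
        = T ∩ cubeJ d := by
      apply Subset.antisymm
      · rintro _ ⟨y, hy, rfl⟩
        refine ⟨⟨y, Metric.sphere_subset_closedBall hy, rfl⟩, ?_⟩
        rw [mem_sphere_zero_iff_norm] at hy
        refine ⟨?_, Or.inr (by simpa using hy)⟩
        rw [cube_norm_cons, hy]
        simp
      · rintro _ ⟨⟨y, -, rfl⟩, -, h | h⟩
        · simp only [Fin.cons_zero] at h
          linarith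
        · exact ⟨y, mem_sphere_zero_iff_norm.2 (by simpa using h), rfl⟩
    have e2 : T ∪ cubeJ d = Metric.sphere 0 1 := by
      apply Subset.antisymm
      · refine union_subset ?_ (cube_J_sub d)
        rintro _ ⟨y, hy, rfl⟩
        rw [mem_sphere_zero_iff_norm, cube_norm_cons, abs_one]
        exact max_eq_left (mem_closedBall_zero_iff.1 hy)
      · intro x hx
        rw [mem_sphere_zero_iff_norm] at hx
        have hn := cube_norm x
        rw [hx] at hn
        rcases max_choice |x 0| ‖Fin.tail x‖ with h | h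
        · rcases eq_or_eq_neg_of_abs_eq (h.symm.trans hn.symm) with h0 | h0
          · refine Or.inl ⟨Fin.tail x, mem_closedBall_zero_iff.2 (hn ▸ le_max_right _ _), ?_⟩
            simp only [← h0]
            exact Fin.cons_self_tail x
          · exact Or.inr ⟨hx.le, Or.inl h0⟩
        · exact Or.inr ⟨hx.le, Or.inr (h.symm.trans hn.symm)⟩
    rw [e1, ← gen_exc hTc (cube_J_closed d), e2] at h1
    exact gen_del Metric.sphere_subset_closedBall (cube_J_sub d) (cube_van d) h1

end Pool.Agent.P.MP_3d25f3_gt
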