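import Pool.Agent.P.MP_3d25f3_gt.Intg

set_option autoImplicit false

open Set Filter Topology

namespace Pool.Agent.P.MP_3d25f3_gt

/-- `X` and `Y` are opposite half spaces near each common point -/
def Sided {Z : Type} [TopologicalSpace Z] (X Y : Set Z) : Prop :=
  ∀ x ∈ X ∩ Y, ∃ φ : OpenPartialHomeomorph Z E4, x ∈ φ.source ∧
    ∀ y ∈ φ.source, (y ∈ X ↔ 0 ≤ φ y 0) ∧ (y ∈ Y ↔ φ y 0 ≤ 0)

lemma Sided.symm {Z : Type} [TopologicalSpace Z] {X Y : Set Z} (h : Sided X Y) : Sided Y X := by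
  intro x hx
  obtain ⟨φ, hφ, h'⟩ := h x ⟨hx.2, hx.1⟩
  refine ⟨φ.transHomeomorph (Homeomorph.neg E4), hφ, fun y hy => ?_⟩
  have h1 := h' y hy
  have h2 : (φ.transHomeomorph (Homeomorph.neg E4)) y 0 = - φ y 0 := rfl
  rw [h2, neg_nonneg, neg_nonpos]
  exact ⟨h1.2, h1.1⟩

/-- one local push -/
lemma push_loc {X Y : Set E4} (hs : Sided X Y) {x : E4} (hx : x ∈ X ∩ Y) :
    ∃ h : E4 → ℝ → E4, Continuous (Function.uncurry h) ∧ (∀ y, h y 0 = y) ∧
      (∀ y ∈ X, ∀ s ∈ Icc (0 : ℝ) 1, h y s = y ∨ (h y s ∈ X ∧ h y s ∉ Y)) ∧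
      ∀ᶠ y in 𝓝 x, y ∈ X → ∀ s ∈ Ioc (0 : ℝ) 1, h y s ∉ Y := by
  classical
  obtain ⟨φ, hφ, h'⟩ := hs x hx
  obtain ⟨r, hr, hb⟩ : ∃ r > 0, Metric.closedBall (φ x) r ⊆ φ.target :=
    Metric.nhds_basis_closedBall.mem_iff.1 (φ.open_target.mem_nhds (φ.map_source hφ))
  obtain ⟨c, hc⟩ : ∃ c : E4 → ℝ → ℝ, ∀ z s, c z s = max 0 (min s 1) * max 0 (r - dist z (φ x)) :=
    ⟨_, fun _ _ => rfl⟩
  have c0 : ∀ z s, 0 ≤ c z s := fun z s => by
    rw [hc]
    exact mul_nonneg (le_max_left _ _) (le_max_left _ _)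
  have cfar : ∀ z s, r ≤ dist z (φ x) → c z s = 0 := fun z s h => by
    rw [hc, max_eq_left (show r - dist z (φ x) ≤ 0 by linarith), mul_zero]
  have ccont : Continuous fun q : E4 × ℝ => c q.1 q.2 := by
    simp only [hc]
    fun_prop
  obtain ⟨g, hg⟩ : ∃ g : E4 → ℝ → E4, ∀ z s, g z s = z + c z s • (Pi.single 0 1 : E4) :=
    ⟨_, fun _ _ => rfl⟩
  have gcont : Continuous fun q : E4 × ℝ => g q.1 q.2 := by
    simp only [hg]
    exact continuous_fst.add (ccont.smul continuous_const)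
  have gz : ∀ z s, c z s = 0 → g z s = z := fun z s h => by rw [hg, h, zero_smul, add_zero]
  have g0 : ∀ z s, g z s 0 = z 0 + c z s := fun z s => by
    rw [hg]
    simp
  have gt : ∀ z ∈ φ.target, ∀ s, g z s ∈ φ.target := by
    intro z hz s
    by_cases h : r ≤ dist z (φ x)
    · rw [gz z s (cfar z s h)]
      exact hz
    · apply hb
      have h1 : c z s ≤ r - dist z (φ x) := by
        rw [hc, max_eq_right (show 0 ≤ r - dist z (φ x) by linarith [not_le.1 h])]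
        refine mul_le_of_le_one_left (by linarith [not_le.1 h]) ?_
        exact max_le zero_le_one (min_le_right _ _)
      have h2 : dist (g z s) z = c z s := by
        rw [hg, dist_eq_norm, add_sub_cancel_left, norm_smul, Pi.norm_single, norm_one, mul_one,
          Real.norm_of_nonneg (c0 z s)]
      rw [Metric.mem_closedBall]
      linarith [dist_triangle (g z s) z (φ x)]
  obtain ⟨h, hh⟩ : ∃ h : E4 → ℝ → E4, ∀ y s,
      h y s = if y ∈ φ.source then φ.symm (g (φ y) s) else y := ⟨_, fun _ _ => rfl⟩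
  have hfix : ∀ y s, (y ∈ φ.source → c (φ y) s = 0) → h y s = y := by
    intro y s hy
    rw [hh]
    split_ifs with h1
    · rw [gz _ _ (hy h1), φ.left_inv h1]
    · rfl
  have hmov : ∀ y ∈ X, y ∈ φ.source → ∀ s, c (φ y) s ≠ 0 → h y s ∈ X ∧ h y s ∉ Y := by
    intro y hy h1 s h2
    have h3 := gt _ (φ.map_source h1) s
    have h4 := h' _ (φ.map_target h3)
    have h5 := (h' y h1).1.1 hy
    have h6 := lt_of_le_of_ne (c0 (φ y) s) (Ne.symm h2)
    rw [φ.right_inv h3, g0] at h4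
    rw [hh, if_pos h1, h4.1, h4.2]
    constructor
    · linarith
    · rw [not_le]
      linarith
  refine ⟨h, ?_, fun y => hfix y 0 fun _ => by rw [hc]; simp, ?_, ?_⟩
  · rw [continuous_iff_continuousAt]
    rintro ⟨y, s⟩
    by_cases hy : y ∈ φ.source
    · have h1 : ContinuousAt (fun q : E4 × ℝ => (φ q.1, q.2)) (y, s) :=
        (ContinuousAt.comp (f := Prod.fst) (x := (y, s)) (φ.continuousAt hy)
          continuousAt_fst).prodMk continuousAt_snd
      have h2 : ContinuousAt (fun q : E4 × ℝ => g (φ q.1) q.2) (y, s) :=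
        ContinuousAt.comp (f := fun q : E4 × ℝ => (φ q.1, q.2)) gcont.continuousAt h1
      have h3 : ContinuousAt (fun q : E4 × ℝ => φ.symm (g (φ q.1) q.2)) (y, s) :=
        ContinuousAt.comp (f := fun q : E4 × ℝ => g (φ q.1) q.2)
          (φ.continuousAt_symm (gt _ (φ.map_source hy) s)) h2
      refine h3.congr ?_
      have h4 : ∀ᶠ q : E4 × ℝ in 𝓝 (y, s), q.1 ∈ φ.source :=
        continuousAt_fst.eventually (φ.open_source.mem_nhds hy)
      filter_upwards [h4] with q hq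
      show _ = h q.1 q.2
      rw [hh, if_pos hq]
    · have hK : IsCompact (φ.symm '' Metric.closedBall (φ x) r) :=
        (isCompact_closedBall _ _).image_of_continuousOn (φ.continuousOn_symm.mono hb)
      have h1 : y ∈ (φ.symm '' Metric.closedBall (φ x) r)ᶜ := by
        rintro ⟨z, hz, rfl⟩
        exact hy (φ.map_target (hb hz))
      have h4 : ∀ᶠ q : E4 × ℝ in 𝓝 (y, s), q.1 ∈ (φ.symm '' Metric.closedBall (φ x) r)ᶜ :=
        continuousAt_fst.eventually (hK.isClosed.isOpen_compl.mem_nhds h1)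
      refine continuousAt_fst.congr ?_
      filter_upwards [h4] with q hq
      show _ = h q.1 q.2
      refine (hfix _ _ fun h2 => cfar _ _ ?_).symm
      by_contra h3
      exact hq ⟨φ q.1, Metric.mem_closedBall.2 (not_le.1 h3).le, φ.left_inv h2⟩
  · intro y hy s _
    by_cases h1 : y ∈ φ.source
    · by_cases h2 : c (φ y) s = 0
      · exact Or.inl (hfix y s fun _ => h2)
      · exact Or.inr (hmov y hy h1 s h2)
    · exact Or.inl (hfix y s fun h => absurd h h1)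
  · have h1 : ∀ᶠ y in 𝓝 x, φ y ∈ Metric.ball (φ x) r :=
      (φ.continuousAt hφ).eventually (Metric.ball_mem_nhds _ hr)
    filter_upwards [h1, φ.open_source.mem_nhds hφ] with y h2 h3 hy s hs'
    refine (hmov y hy h3 s ?_).2
    rw [hc]
    refine (mul_pos ?_ ?_).ne'
    · exact lt_max_of_lt_right (lt_min hs'.1 one_pos)
    · exact lt_max_of_lt_right (sub_pos.2 (Metric.mem_ball.1 h2))

theorem push {X Y : Set E4} (hc : IsCompact (X ∩ Y)) (hs : Sided X Y) {C N : Set E4}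
    (hC : IsCompact C) (hN : IsOpen N) (hCN : C ⊆ N) :
    ∃ h : E4 → ℝ → E4, Continuous (Function.uncurry h) ∧ (∀ y, h y 0 = y) ∧
      (∀ y ∈ X, ∀ s ∈ Icc (0 : ℝ) 1, h y s ∈ X) ∧ (∀ y ∈ X, h y 1 ∉ Y) ∧
      ∀ y ∈ C, ∀ s ∈ Icc (0 : ℝ) 1, h y s ∈ N := by
  have key : ∃ h : E4 → ℝ → E4, Continuous (Function.uncurry h) ∧ (∀ y, h y 0 = y) ∧
      (∀ y ∈ X, ∀ s ∈ Icc (0 : ℝ) 1, h y s = y ∨ (h y s ∈ X ∧ h y s ∉ Y)) ∧
      ∀ y ∈ X ∩ Y, y ∈ X → ∀ s ∈ Ioc (0 : ℝ) 1, h y s ∉ Y := by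
    refine hc.induction_on (p := fun S => ∃ h : E4 → ℝ → E4, Continuous (Function.uncurry h) ∧
      (∀ y, h y 0 = y) ∧
      (∀ y ∈ X, ∀ s ∈ Icc (0 : ℝ) 1, h y s = y ∨ (h y s ∈ X ∧ h y s ∉ Y)) ∧
      ∀ y ∈ S, y ∈ X → ∀ s ∈ Ioc (0 : ℝ) 1, h y s ∉ Y) ?_ ?_ ?_ ?_
    · exact ⟨fun y _ => y, continuous_fst, fun _ => rfl, fun _ _ _ _ => Or.inl rfl,
        fun _ h => absurd h (notMem_empty _)⟩
    · rintro S T hST ⟨h, h1, h2, h3, h4⟩
      exact ⟨h, h1, h2, h3, fun y hy => h4 y (hST hy)⟩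
    · rintro S T ⟨h, h1, h2, h3, h4⟩ ⟨k, k1, k2, k3, k4⟩
      have hk : ∀ z ∈ X, z ∉ Y → ∀ s ∈ Icc (0 : ℝ) 1, k z s ∈ X ∧ k z s ∉ Y := by
        intro z hz hz' s hs'
        rcases k3 z hz s hs' with h5 | h5
        · rw [h5]
          exact ⟨hz, hz'⟩
        · exact h5
      refine ⟨fun y s => k (h y s) s, k1.comp (h1.prodMk continuous_snd), fun y => ?_, ?_, ?_⟩
      · show k (h y 0) 0 = y
        rw [k2, h2]
      · intro y hy s hs'
        show k (h y s) s = y ∨ (k (h y s) s ∈ X ∧ k (h y s) s ∉ Y)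
        rcases h3 y hy s hs' with h5 | h5
        · rw [h5]
          exact k3 y hy s hs'
        · exact Or.inr (hk _ h5.1 h5.2 s hs')
      · intro y hy hX s hs'
        show k (h y s) s ∉ Y
        have hs2 : s ∈ Icc (0 : ℝ) 1 := Ioc_subset_Icc_self hs'
        rcases h3 y hX s hs2 with h5 | h5
        · rcases hy with hy | hy
          · have h6 := h4 y hy hX s hs'
            rw [h5] at h6 ⊢
            exact (hk y hX h6 s hs2).2
          · rw [h5]
            exact k4 y hy hX s hs'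
        · exact (hk _ h5.1 h5.2 s hs2).2
    · intro x hx
      obtain ⟨h, h1, h2, h3, h4⟩ := push_loc hs hx
      exact ⟨_, mem_nhdsWithin_of_mem_nhds h4, h, h1, h2, h3, fun y hy => hy⟩
  obtain ⟨h, h1, h2, h3, h4⟩ := key
  obtain ⟨u, v, _, hv, hu', hv', huv⟩ := generalized_tube_lemma hC
    (isCompact_singleton (x := (0 : ℝ))) (hN.preimage h1) (by
      rintro ⟨y, s⟩ ⟨hy, rfl⟩
      show h y 0 ∈ N
      rw [h2]
      exact hCN hy)
  obtain ⟨ε, hε, hb⟩ := Metric.nhds_basis_closedBall.mem_iff.1 (hv.mem_nhds (hv' rfl))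
  have a0 : 0 < min ε 1 := lt_min hε one_pos
  have hm : ∀ s ∈ Icc (0 : ℝ) 1, 0 ≤ min ε 1 * s ∧ min ε 1 * s ≤ min ε 1 := fun s hs' =>
    ⟨mul_nonneg a0.le hs'.1, mul_le_of_le_one_right a0.le hs'.2⟩
  refine ⟨fun y s => h y (min ε 1 * s),
    h1.comp (continuous_fst.prodMk (continuous_const.mul continuous_snd)), fun y => ?_, ?_, ?_, ?_⟩
  · show h y (min ε 1 * 0) = y
    rw [mul_zero, h2]
  · intro y hy s hs'
    show h y (min ε 1 * s) ∈ X
    rcases h3 y hy _ ⟨(hm s hs').1, (hm s hs').2.trans (min_le_right _ _)⟩ with h5 | h5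
    · rw [h5]
      exact hy
    · exact h5.1
  · intro y hy
    show h y (min ε 1 * 1) ∉ Y
    rw [mul_one]
    by_cases hY : y ∈ Y
    · exact h4 y ⟨hy, hY⟩ hy _ ⟨a0, min_le_right _ _⟩
    · rcases h3 y hy _ ⟨a0.le, min_le_right _ _⟩ with h5 | h5
      · rw [h5]
        exact hY
      · exact h5.2
  · intro y hy s hs'
    have h5 : (y, min ε 1 * s) ∈ u ×ˢ v := by
      refine ⟨hu' hy, hb ?_⟩
      rw [mem_closedBall_zero_iff, Real.norm_of_nonneg (hm s hs').1]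
      exact (hm s hs').2.trans (min_le_left _ _)
    exact huv h5

/-- a compact side `X` and its closed complement `Y` -/
structure XY (X Y : Set E4) : Prop where
  cX : IsClosed X
  cY : IsClosed Y
  cover : X ∪ Y = univ
  ball : X ⊆ Metric.ball 0 1
  sided : Sided X Y

lemma XY.compact {X Y : Set E4} (h : XY X Y) : IsCompact X :=
  Metric.isCompact_of_isClosed_isBounded h.cX (Metric.isBounded_ball.subset h.ball)

lemma XY.out {X Y : Set E4} (h : XY X Y) : Out 4 ⊆ Y := fun x hx =>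
  (h.cover.ge (mem_univ x)).resolve_left fun hX =>
    absurd (mem_ball_zero_iff.1 (h.ball hX)) (not_lt.2 hx)

end Pool.Agent.P.MP_3d25f3_gt
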