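import Pool.Agent.P.MP_3d25f3_gt.BoxL
import Pool.Agent.P.MP_3d25f3_gt.Push

set_option autoImplicit false

open Set Filter Topology

namespace Pool.Agent.P.MP_3d25f3_gt

variable {R : Type} [CommRing R] {τ τ' : E4 → E4 → R} {X Y N : Set E4}

lemma XY.ok (h : XY X Y) (hg : Good τ τ' N) (hN : X ⊆ N) : POK τ τ' (Out 4) univ Y X ∅ :=
  ⟨h.out, by simp, by rw [union_comm, h.cover], hg.coc.mono hN, hg.coc'.mono hN,
    fun x hx => hg.mu x (hN hx)⟩

/-- inner approximation -/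
lemma XY.inner (h : XY X Y) : ∃ δ > 0, ∃ L : List (E4 × E4), (∀ b ∈ L, Fam δ b) ∧ KL L ⊆ Yᶜ ∧
    ∀ (R : Type) [CommRing R] (τ : E4 → E4 → R), Coc τ X →
      ∀ k, ∀ c ∈ Zc τ k X ∅, c ∈ Bc τ k (KL L) ∅ → c ∈ Bc τ k X ∅ := by
  obtain ⟨g, hg, h0, h1, h2, -⟩ := push (h.compact.inter_right h.cY) h.sided (C := ∅) (N := univ)
    isCompact_empty isOpen_univ (empty_subset _)
  have hf : Continuous fun x => g x 1 := hg.comp (continuous_id.prodMk continuous_const)
  obtain ⟨δ, hδ, L, hF, hU, hK⟩ := exists_boxes (h.compact.image hf) h.cY.isOpen_compl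
    (by rintro _ ⟨x, hx, rfl⟩; exact h2 x hx)
  refine ⟨δ, hδ, L, hF, hK, fun R _ τ hτ k c hc hb => ?_⟩
  refine hi_van_id h.compact isCompact_empty (empty_subset _) hg h0 hτ h1
    (fun _ hx => hx.elim) hc ?_
  exact pull_Bc (Itw_comp τ _ X) (fun _ _ => hf.continuousAt) (empty_subset _)
    (fun x hx => UL_subset L (hU ⟨x, hx, rfl⟩)) (mapsTo_empty _ _) hb

/-- outer approximation -/
lemma XY.outer (h : XY X Y) (ho : IsOpen N) (hN : X ⊆ N) : ∃ δ > 0, ∃ L : List (E4 × E4),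
    (∀ b ∈ L, Fam δ b) ∧ X ⊆ UL L ∧ KL L ⊆ N ∧
    ∀ (R : Type) [CommRing R] (τ : E4 → E4 → R), Coc τ N →
      ∀ k, ∀ c ∈ Zc τ k univ Y, c ∈ Bc τ k univ (UL L)ᶜ → c ∈ Bc τ k univ Y := by
  obtain ⟨g, hg, h0, h1, h2, h3⟩ := push (h.compact.inter_left h.cY) h.sided.symm (C := X) (N := N)
    h.compact ho hN
  have hf : Continuous fun x => g x 1 := hg.comp (continuous_id.prodMk continuous_const)
  have hc : IsCompact (X ∩ Y) := h.compact.inter_right h.cY
  obtain ⟨δ, hδ, L, hF, hU, hK⟩ := exists_boxes h.compact (ho.sdiff (hc.image hf).isClosed)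
    (fun x hx => ⟨hN hx, by rintro ⟨y, hy, rfl⟩; exact h2 y hy.2 hx⟩)
  refine ⟨δ, hδ, L, hF, hU, fun x hx => (hK hx).1, fun R _ τ hτ k c hc' hb => ?_⟩
  rw [← h.cover]
  refine exc_inj k h.cX h.cY hc'.1 ?_
  refine hi_van_id (F := N) (F' := Y) h.compact hc inter_subset_left hg h0 hτ h3
    (fun x hx => h1 x hx.2) (Zc_mono τ k (subset_univ _) subset_rfl hc') ?_
  exact pull_Bc (F' := (UL L)ᶜ) (Itw_comp τ _ X) (fun _ _ => hf.continuousAt) inter_subset_left
    (mapsTo_univ _ _) (fun x hx hx' => (hK (UL_subset L hx')).2 ⟨x, hx, rfl⟩) hb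

lemma dua_inj {F F' G G' : Set E4} {k : ℕ} (h : G ⊆ F) (h' : G' ⊆ F')
    (hb : ∀ c ∈ Zc τ k F F', c ∈ Bc τ k G G' → c ∈ Bc τ k F F') :
    Function.Injective (res τ k h h') := by
  rw [injective_iff_map_eq_zero]
  intro x hx
  obtain ⟨c, hc, rfl⟩ := cl_surj x
  rw [res_cl, cl_eq_zero] at hx
  exact (cl_eq_zero hc).2 (hb c hc hx)

lemma dua_compl (h : XY X Y) : Yᶜ ⊆ X := fun x hx =>
  (h.cover.ge (mem_univ x)).resolve_right hx

lemma dua_compl' (h : XY X Y) {U : Set E4} (hU : X ⊆ U) : Uᶜ ⊆ Y := fun x hx =>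
  (h.cover.ge (mem_univ x)).resolve_left fun hX => hx (hU hX)

theorem XY.fg [IsNoetherianRing R] (h : XY X Y) (hg : Good τ τ' N) (hN : X ⊆ N) :
    FG τ univ Y ∧ FG τ X ∅ := by
  have ho : IsOpen (N ∩ Metric.ball 0 1) := hg.op.inter Metric.isOpen_ball
  have hg' := hg.mono ho inter_subset_left
  have hX : X ⊆ N ∩ Metric.ball 0 1 := subset_inter hN h.ball
  constructor
  · obtain ⟨δ, hδ, L, hF, hU, hK, hb⟩ := h.outer ho hX
    intro k
    have := (list_fg hg' inter_subset_right hδ L hF hK).1 k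
    exact Module.Finite.of_injective _
      (dua_inj subset_rfl (dua_compl' h hU) (hb R τ hg'.coc k))
  · obtain ⟨δ, hδ, L, hF, hK, hb⟩ := h.inner
    intro k
    have := (list_fg hg' inter_subset_right hδ L hF ((hK.trans (dua_compl h)).trans hX)).2 k
    exact Module.Finite.of_injective _
      (dua_inj (hK.trans (dua_compl h)) subset_rfl (hb R τ (hg.coc.mono hN) k))

theorem XY.dual {k : Type} [Field k] {τ τ' : E4 → E4 → k} (h : XY X Y) (hg : Good τ τ' N)
    (hN : X ⊆ N) {i j : ℕ} (hij : i + j = 4) : Function.Bijective (pair (h.ok hg hN) hij) := by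
  have ho : IsOpen (N ∩ Metric.ball 0 1) := hg.op.inter Metric.isOpen_ball
  have hg' := hg.mono ho inter_subset_left
  have hX : X ⊆ N ∩ Metric.ball 0 1 := subset_inter hN h.ball
  have h1 : Function.Injective (pair (h.ok hg hN) hij) := by
    obtain ⟨δ, hδ, L, hF, hU, hK, hb⟩ := h.outer ho hX
    have hd := (list_dual hg' inter_subset_right hδ L hF hK).bij i j hij
    rw [injective_iff_map_eq_zero]
    intro a ha
    refine (injective_iff_map_eq_zero _).1
      (dua_inj subset_rfl (dua_compl' h hU) (hb k τ hg'.coc i)) a ?_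
    refine (injective_iff_map_eq_zero _).1 hd.1 _ (LinearMap.ext fun b => ?_)
    rw [pair_res_res hij (h.ok hg hN) _ subset_rfl (dua_compl' h hU) (hU.trans (UL_subset L))
      subset_rfl, ha]
    rfl
  have h2 : Function.Injective (pair (h.ok hg hN) hij).flip := by
    obtain ⟨δ, hδ, L, hF, hK, hb⟩ := h.inner
    have hKX : KL L ⊆ X := hK.trans (dua_compl h)
    have hd := (list_dual hg' inter_subset_right hδ L hF (hKX.trans hX)).bij i j hij
    rw [injective_iff_map_eq_zero]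
    intro b hb'
    refine (injective_iff_map_eq_zero _).1
      (dua_inj hKX subset_rfl (hb k τ' (hg.coc'.mono hN) j)) b ?_
    refine (Module.forall_dual_apply_eq_zero_iff k _).1 fun φ => ?_
    obtain ⟨a, rfl⟩ := hd.2 φ
    have hY : Y ⊆ (UL L)ᶜ := fun x hx hx' => hK (UL_subset L hx') hx
    rw [← pair_res_res hij _ (h.ok hg hN) subset_rfl hY hKX subset_rfl]
    exact LinearMap.congr_fun hb' _
  have f1 := (h.fg hg hN).1 i
  have f2 := (h.fg hg.symm hN).2 j
  have e1 := LinearMap.finrank_le_finrank_of_injective h1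
  have e2 := LinearMap.finrank_le_finrank_of_injective h2
  have e3 : Module.finrank k (H τ' j X ∅ →ₗ[k] k) = Module.finrank k (H τ' j X ∅) :=
    Subspace.dual_finrank_eq
  have e4 : Module.finrank k (H τ i univ Y →ₗ[k] k) = Module.finrank k (H τ i univ Y) :=
    Subspace.dual_finrank_eq
  exact ⟨h1, (LinearMap.injective_iff_surjective_of_finrank_eq_finrank (by omega)).1 h1⟩

end Pool.Agent.P.MP_3d25f3_gt
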