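import Pool.Agent.P.MP_3d25f3_gt.Fib
import Pool.Agent.P.MP_3d25f3_gt.Per

set_option autoImplicit false

open Set Filter Topology

namespace Pool.Agent.P.MP_3d25f3_gt

variable {g : ℕ} {S : List (ℕ × ℤ)} {n : Seifert g S → Seifert g S → ℤ}
  {A : Cov → ℤ} {N : ℤ} {ne : ℕ → ℤ}

lemma exi_lift (y : Solid) : ∃ z : ℝ, pc (y.1, z) = y := by
  obtain ⟨a, ha⟩ := pc_surj y
  refine ⟨a.2, ?_⟩
  rw [← ha]
  rfl

lemma exi_mid_ne {e : ℕ} (he : e < NE g S) :
    bp (LL g S) (st g e + 1 / 2) ≠ bp (LL g S) (st g e + wd g e - 1 / 2) := by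
  intro h
  obtain ⟨k, hk⟩ := (bp_eq_iff (NeZero.ne _) _ _).1 h
  have h1 := st_le (g := g) (S := S) he
  have h2 := wd_ge (g := g) e
  have h3 : (wd g e : ℤ) - 1 = k * LL g S := by
    have : (wd g e : ℝ) - 1 = k * LL g S := by linarith
    exact_mod_cast this
  have h4 : (wd g e : ℤ) ≤ LL g S := by exact_mod_cast le_trans (Nat.le_add_left _ _) h1
  have h5 : (2 : ℤ) ≤ wd g e := by exact_mod_cast h2
  rcases le_or_gt k 0 with hk0 | hk0
  · nlinarith
  · nlinarith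

/-- every point is interior, or on the boundary away from the midpoints, or a midpoint -/
lemma exi_cases (x : Seifert g S) : (∃ P : Solid, pm g S P = x ∧ ‖(P.1 : ℂ)‖ < 1) ∨
    (∃ (P : Solid) (u : ℝ), pm g S P = x ∧ (∀ k : ℤ, u ≠ k + 1 / 2) ∧ P.1 = bp (LL g S) u) ∨
    ∃ e < NE g S, ∃ z, pp g S (ga g S e (1 / 2) z) = x := by
  obtain ⟨P, rfl⟩ := pm_surj x
  have hP : ‖(P.1 : ℂ)‖ ≤ 1 := mem_closedBall_zero_iff.1 P.1.2
  rcases hP.lt_or_eq with hP | hP
  · exact Or.inl ⟨P, rfl, hP⟩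
  obtain ⟨u, hu, hPu⟩ := exists_bp (L := LL g S) (NeZero.ne _) hP
  by_cases hk : ∀ k : ℤ, u ≠ k + 1 / 2
  · exact Or.inr (Or.inl ⟨P, u, rfl, hk, hPu⟩)
  refine Or.inr (Or.inr ?_)
  push Not at hk
  obtain ⟨k, hk⟩ := hk
  have hk0 : 0 ≤ k := by
    have : (-1 : ℝ) < k := by linarith [hu.1]
    have : (-1 : ℤ) < k := by exact_mod_cast this
    omega
  obtain ⟨j, rfl⟩ := Int.eq_ofNat_of_zero_le hk0
  have hj : j < LL g S := by
    have : (j : ℝ) < LL g S := by
      have := hu.2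
      push_cast at hk
      linarith
    exact_mod_cast this
  push_cast at hk
  obtain ⟨z, hz⟩ := exi_lift P
  obtain ⟨e, he, hj | hj⟩ := st_surj hj
  · refine ⟨e, he, z, ?_⟩
    rw [← hz, hPu, hk, hj]
    rfl
  · refine ⟨e, he, z - 1 / 2 * sh g S e, ?_⟩
    rw [← pp_glue he ⟨by norm_num, by norm_num⟩, ← hz, hPu, hk]
    have h1 : (j : ℝ) + 1 / 2 = st g e + wd g e - 1 / 2 := by
      have : (j : ℝ) + 1 = st g e + wd g e := by exact_mod_cast hj
      linarith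
    rw [h1]
    simp only [pp, gb, sub_add_cancel]

/-- the local section at the midpoint of an arc -/
lemma exi_mid {E : Disc → ℂ} {γ' : Solid → ℂ} {e : ℕ} (he : e < NE g S) (z : ℝ) {ρ c : ℂ}
    (hE : ∀ s ∈ Icc (0 : ℝ) 1, E (bp (LL g S) (st g e + wd g e - s))
      = ρ * E (bp (LL g S) (st g e + s)) + c)
    (hγ : γ' (pc (gb g S e (1 / 2) z)) * ρ = γ' (pc (ga g S e (1 / 2) z))) :
    ∃ b : Seifert g S → ℂ, ∀ y, pm g S y = pp g S (ga g S e (1 / 2) z) →
      ∀ᶠ y' in 𝓝 y, b (pm g S y') = γ' y * (E y'.1 - E y.1) := by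
  classical
  obtain ⟨σ, hσ⟩ := (pm_surj (g := g) (S := S)).hasRightInverse
  obtain ⟨O, O', hO, hO', h1, h2, hd⟩ := t2_separation (exi_mid_ne he)
  have hdis : ∀ w, w ∈ O → w ∉ O' := fun w a b => Set.disjoint_left.1 hd a b
  set P := pc (ga g S e (1 / 2) z) with hP
  set P' := pc (gb g S e (1 / 2) z) with hP'
  have hP1 : P.1 = bp (LL g S) (st g e + 1 / 2) := rfl
  have hP1' : P'.1 = bp (LL g S) (st g e + wd g e - 1 / 2) := rfl
  let b : Seifert g S → ℂ := fun x =>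
    if (σ x).1 ∈ O' then γ' P' * (E (σ x).1 - E P'.1) else γ' P * (E (σ x).1 - E P.1)
  let J : Set ℝ := {s | bp (LL g S) (st g e + s) ∈ O ∧ bp (LL g S) (st g e + wd g e - s) ∈ O'}
  have hJ : J ∈ 𝓝 (1 / 2 : ℝ) := by
    have c1 : Continuous fun s : ℝ => bp (LL g S) (st g e + s) :=
      (continuous_bp _).comp (by fun_prop)
    have c2 : Continuous fun s : ℝ => bp (LL g S) (st g e + wd g e - s) :=
      (continuous_bp _).comp (by fun_prop)
    exact inter_mem (c1.continuousAt.preimage_mem_nhds (hO.mem_nhds h1))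
      (c2.continuousAt.preimage_mem_nhds (hO'.mem_nhds h2))
  have hrel : ∀ s ∈ Icc (0 : ℝ) 1, γ' P' * (E (bp (LL g S) (st g e + wd g e - s)) - E P'.1)
      = γ' P * (E (bp (LL g S) (st g e + s)) - E P.1) := by
    intro s hs
    rw [hP1, hP1', hE s hs, hE (1 / 2) ⟨by norm_num, by norm_num⟩, ← hγ]
    ring
  have harc : ∀ s ∈ J ∩ Ioo (0 : ℝ) 1, ∀ z', b (pp g S (ga g S e s z'))
      = γ' P * (E (bp (LL g S) (st g e + s)) - E P.1) := by
    intro s hs z'
    rcases fib_arc he hs.2 z' (hσ (pp g S (ga g S e s z'))) with h | h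
    · have h' : (σ (pp g S (ga g S e s z'))).1 = bp (LL g S) (st g e + s) := by rw [h]; rfl
      simp only [b, h']
      rw [if_neg (hdis _ hs.1.1)]
    · have h' : (σ (pp g S (ga g S e s z'))).1 = bp (LL g S) (st g e + wd g e - s) := by
        rw [h]; rfl
      simp only [b, h']
      rw [if_pos hs.1.2, hrel s (Ioo_subset_Icc_self hs.2)]
  have hint : ∀ y' : Solid, ‖(y'.1 : ℂ)‖ < 1 → σ (pm g S y') = y' := fun y' hy' =>
    (fib_int (hσ (pm g S y')).symm hy').symm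
  refine ⟨b, fun y hy => ?_⟩
  rcases fib_arc he (s := 1 / 2) ⟨by norm_num, by norm_num⟩ z hy with rfl | rfl
  · have t1 : Tendsto (fun y' : Solid => y'.1) (𝓝 P) (𝓝 (bp (LL g S) (st g e + 1 / 2))) :=
      continuous_fst.continuousAt
    filter_upwards [t1.eventually (near_mid (g := g) (S := S) (st g e) hJ),
      t1.eventually (hO.mem_nhds h1)] with y' hy' hy''
    rcases hy' with hy' | ⟨s, hs, hy'⟩
    · simp only [b, hint y' hy']
      rw [if_neg (hdis _ hy'')]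
    · obtain ⟨z', hz'⟩ := exi_lift y'
      have : pm g S y' = pp g S (ga g S e s z') := by
        rw [← hz', hy']; rfl
      rw [this, harc s hs z', hy']
  · have hw := wd_ge (g := g) e
    have hc : ((st g e + wd g e - 1 : ℕ) : ℝ) = st g e + wd g e - 1 := by
      rw [Nat.cast_sub (by omega)]; push_cast; ring
    have t1 : Tendsto (fun y' : Solid => y'.1) (𝓝 P')
        (𝓝 (bp (LL g S) (st g e + wd g e - 1 / 2))) := continuous_fst.continuousAt
    have hJ' : (fun s : ℝ => 1 - s) ⁻¹' J ∈ 𝓝 (1 / 2 : ℝ) := by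
      refine ContinuousAt.preimage_mem_nhds (by fun_prop) ?_
      rwa [show (1 : ℝ) - 1 / 2 = 1 / 2 by norm_num]
    have hn := near_mid (g := g) (S := S) (st g e + wd g e - 1) hJ'
    rw [hc, show (st g e : ℝ) + wd g e - 1 + 1 / 2 = st g e + wd g e - 1 / 2 by ring] at hn
    filter_upwards [t1.eventually hn, t1.eventually (hO'.mem_nhds h2)] with y' hy' hy''
    rcases hy' with hy' | ⟨s, hs, hy'⟩
    · simp only [b, hint y' hy']
      rw [if_pos (show y'.1 ∈ O' from hy'')]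
    · obtain ⟨z', hz'⟩ := exi_lift y'
      have hs' : 1 - s ∈ J ∩ Ioo (0 : ℝ) 1 := ⟨hs.1, by linarith [hs.2.2], by linarith [hs.2.1]⟩
      rw [show (st g e : ℝ) + wd g e - 1 + s = st g e + wd g e - (1 - s) by ring] at hy'
      have : pm g S y' = pp g S (ga g S e (1 - s) (z' - (1 - s) * sh g S e)) := by
        rw [← pp_glue he (Ioo_subset_Icc_self hs'.2), ← hz', hy']
        simp only [pp, gb, sub_add_cancel]
      rw [this, harc _ hs', hy', hrel _ (Ioo_subset_Icc_self hs'.2)]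

theorem exists_rep [T2Space (Seifert g S)] (hn : CocZ n univ) (h : Per g S n A N ne) {ω : ℂˣ}
    (hω : ω ^ N = 1) {x : ZMod (LL g S) → ℂ} (hx : x ∈ Pol g S fun e => ((ω ^ ne e : ℂˣ) : ℂ)) :
    ∃ v ∈ Zc (tw ω n) 1 univ ∅, ∃ E, IsRep g S ω A ne x v E := by
  obtain ⟨E, hE1, hE2, hE3⟩ := exists_step hx
  obtain ⟨γ, hγ⟩ := desc_pc (fun y => ω ^ A y) fun y z => by
    simp only [h.per, zpow_add, hω, mul_one]
  obtain ⟨σ, hσ⟩ := (pm_surj (g := g) (S := S)).hasRightInverse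
  obtain ⟨v, hv, hp⟩ := descend (π := pm g S) isClosedMap_pm continuous_pm pm_surj (hn.tw ω)
    (γ := fun y => ((γ y : ℂˣ) : ℂ)) (γ' := fun y => (((γ y)⁻¹ : ℂˣ) : ℂ)) (E := fun y => E y.1)
    (fun y => Units.mul_inv _) (fun y => by
      obtain ⟨y, rfl⟩ := pc_surj y
      obtain ⟨U, hU, hU'⟩ := h.prim y
      refine ⟨pc '' U, isOpenMap_pc.image_mem_nhds hU, ?_⟩
      rintro _ ⟨a, ha, rfl⟩ _ ⟨b, hb, rfl⟩
      have := hU' a ha b hb
      simp only [pp] at this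
      simp only [tw, hγ, this]
      rw [← Units.val_mul, ← zpow_add, add_sub_cancel]) (fun x' => by
      rcases exi_cases x' with ⟨P, rfl, hP⟩ | ⟨P, u, rfl, hu, hP⟩ | ⟨e, he, z, rfl⟩
      · refine ⟨fun x' => (((γ P)⁻¹ : ℂˣ) : ℂ) * (E (σ x').1 - E P.1), fun y hy => ?_⟩
        obtain rfl := fib_int hy.symm hP
        have ho : IsOpen {y' : Solid | ‖(y'.1 : ℂ)‖ < 1} := isOpen_lt (by fun_prop) (by fun_prop)
        filter_upwards [ho.mem_nhds hP] with y' hy'
        rw [← fib_int (hσ (pm g S y')).symm hy']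
      · refine ⟨0, fun y hy => ?_⟩
        obtain ⟨u', hu', hy'⟩ := fib_bd hy.symm hu hP
        have t1 : Tendsto (fun y' : Solid => y'.1) (𝓝 y) (𝓝 (bp (LL g S) u')) := by
          rw [← hy']; exact continuous_fst.continuousAt
        filter_upwards [t1.eventually (hE3 u' hu')] with y'' hy''
        simp [hy'', hy']
      · refine exi_mid (γ' := fun y => (((γ y)⁻¹ : ℂˣ) : ℂ)) he z (hE2 e he) ?_
        simp only [hγ, h.arc e he (1 / 2) ⟨by norm_num, by norm_num⟩ z]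
        rw [← Units.val_mul, zpow_add, mul_inv_rev, mul_comm (ω ^ ne e)⁻¹, mul_assoc,
          inv_mul_cancel, mul_one])
  refine ⟨v, hv, E, fun y => ?_, hE1, hE2⟩
  obtain ⟨U, hU, hU'⟩ := hp (pc y)
  refine ⟨pc ⁻¹' U, continuous_pc.continuousAt.preimage_mem_nhds hU, fun a ha b hb => ?_⟩
  have := hU' _ ha _ hb
  rw [hγ] at this
  exact this

end Pool.Agent.P.MP_3d25f3_gt
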