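import Pool.Agent.P.MP_3d25f3_gt.Coef

set_option autoImplicit false

open Set Filter Topology

namespace Pool.Agent.P.MP_3d25f3_gt

lemma spn_cl_sum {Z R ι : Type} [TopologicalSpace Z] [CommRing R] [Fintype ι] {τ : Z → Z → R}
    {k : ℕ} {F F' : Set Z} (w : ι → R) {f : ι → List Z → R} (hf : ∀ i, f i ∈ Zc τ k F F')
    (h : ∑ i, w i • f i ∈ Zc τ k F F') : cl _ h = ∑ i, w i • cl (f i) (hf i) := by
  have e : (⟨_, h⟩ : Zc τ k F F') = ∑ i, w i • (⟨f i, hf i⟩ : Zc τ k F F') :=
    Subtype.ext (by simp)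
  change Submodule.mkQ _ (⟨_, h⟩ : Zc τ k F F') = _
  rw [e, map_sum]
  rfl

lemma spn_finite {Z : Type} {S : Set Z} (hS : S.Finite) (n : ℕ) :
    {l : List Z | l.length = n ∧ ∀ y ∈ l, y ∈ S}.Finite := by
  have : Finite S := hS
  refine ((List.finite_length_eq S n).image (List.map Subtype.val)).subset ?_
  rintro l ⟨hl, h⟩
  refine ⟨l.attach.map fun y => ⟨y.1, h y.1 y.2⟩, by simpa using hl, ?_⟩
  rw [List.map_map]
  exact List.attach_map_subtype_val l

/-- finitely many complex numbers have coordinates in an independent family -/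
lemma spn_coord {O : Type} [CommRing O] [IsDomain O] [IsPrincipalIdealRing O] {φ : O →+* ℂ}
    (hφ : Function.Injective φ) {S : Set ℂ} (hS : S.Finite) :
    ∃ (ι : Type) (_ : Fintype ι) (b : ι → ℂ) (co : ι → ℂ → O),
      (∀ v ∈ S, v = ∑ j, b j * φ (co j v)) ∧
      ∀ a : ι → O, ∑ j, b j * φ (a j) = 0 → ∀ j, a j = 0 := by
  classical
  let : Algebra O ℂ := φ.toAlgebra
  have hs : ∀ (a : O) (v : ℂ), a • v = φ a * v := fun _ _ => rfl
  have : FaithfulSMul O ℂ := (faithfulSMul_iff_algebraMap_injective O ℂ).2 hφ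
  have : Module.Finite O (Submodule.span O S) := Module.Finite.span_of_finite O hS
  have : Module.Free O (Submodule.span O S) := Module.free_of_finite_type_torsion_free'
  let b := Module.Free.chooseBasis O (Submodule.span O S)
  refine ⟨_, inferInstance, fun j => (b j : ℂ),
    fun j v => if h : v ∈ Submodule.span O S then b.repr ⟨v, h⟩ j else 0, fun v hv => ?_,
    fun a ha => ?_⟩
  · have hv' : v ∈ Submodule.span O S := Submodule.subset_span hv
    have h1 := congrArg Subtype.val (b.sum_repr ⟨v, hv'⟩)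
    simp only [AddSubmonoidClass.coe_finsetSum, SetLike.val_smul, hs] at h1
    simp only [dif_pos hv', mul_comm]
    exact h1.symm
  · refine Fintype.linearIndependent_iff.1 b.linearIndependent a (Subtype.ext ?_)
    simp only [AddSubmonoidClass.coe_finsetSum, SetLike.val_smul, hs]
    simp only [mul_comm] at ha
    exact ha

/-- classes with coefficients in a principal subring span -/
lemma span_cmap {Z : Type} [MetricSpace Z] {O : Type} [CommRing O] [IsDomain O]
    [IsPrincipalIdealRing O] {φ : O →+* ℂ} (hφ : Function.Injective φ) {τ : Z → Z → O}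
    {τ' : Z → Z → ℂ} (h : ∀ x y, φ (τ x y) = τ' x y) (k : ℕ) {F : Set Z} (hF : IsCompact F)
    (hτ : Coc τ' F) : Submodule.span ℂ (range (cmap φ h k F ∅)) = ⊤ := by
  refine eq_top_iff.2 fun x _ => ?_
  obtain ⟨c, hc, rfl⟩ := cl_surj x
  obtain ⟨r, hr, hB⟩ := fin_rep hF hτ hc
  have hZ : pull r (fun a => τ' a (r a)) c ∈ Zc τ' k F ∅ := by
    have h1 := add_mem (Bc_le_Zc (hτ.mono sdiff_subset) (empty_subset F) hB) hc
    rwa [sub_add_cancel] at h1
  obtain ⟨ι, _, b, co, h1, h2⟩ := spn_coord hφ ((spn_finite hr (k + 1)).image c)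
  set cj : ι → List Z → O := fun j => pull r (fun a => τ a (r a)) fun l => co j (c l) with hcj
  have h3 : ∀ l : List Z, l.length = k + 1 →
      pull r (fun a => τ' a (r a)) c l = (∑ j, b j • cf φ (cj j)) l := by
    intro l hl
    cases l with
    | nil => simp at hl
    | cons y l =>
      have h4 := h1 (c (r y :: l.map r)) ⟨_, ⟨by simpa using hl, fun z hz => ?_⟩, rfl⟩
      · rw [pull_cons, h4, Finset.sum_apply, Finset.mul_sum]
        refine Finset.sum_congr rfl fun j _ => ?_
        simp only [hcj, Pi.smul_apply, cf_apply, pull_cons, map_mul, h, smul_eq_mul]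
        ring
      · rw [← List.map_cons, List.mem_map] at hz
        obtain ⟨w, -, rfl⟩ := hz
        exact mem_range_self w
  have h5 : ∀ j, cj j ∈ Zc τ k F ∅ := by
    intro j
    refine ⟨by simp, fun y hy => ?_⟩
    obtain ⟨U, hU, h6⟩ := hZ.2 y hy
    refine ⟨U, hU, fun l hl hlU => h2 (fun j => D τ (cj j) l) ?_ j⟩
    have h7 := D_congr τ' (U := univ) (fun l' hl' _ => h3 l' hl') hl fun _ _ => mem_univ _
    rw [h6 l hl hlU, map_sum, Finset.sum_apply] at h7
    rw [h7]
    refine Finset.sum_congr rfl fun j _ => ?_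
    rw [map_smul, ← cf_D φ h]
    rfl
  have h8 : ∑ j, b j • cf φ (cj j) ∈ Zc τ' k F ∅ :=
    sum_mem fun j _ => Submodule.smul_mem _ _ (cf_Zc φ h (h5 j))
  have h9 : cl c hc = cl _ h8 := by
    rw [← (cl_eq hZ hc).2 hB, cl_eq]
    refine Null_le_Bc _ _ _ _ fun y _ => ⟨univ, univ_mem, fun l hl _ => ?_⟩
    rw [Pi.sub_apply, h3 l hl, sub_self]
  rw [h9, spn_cl_sum b fun j => cf_Zc φ h (h5 j)]
  exact sum_mem fun j _ => Submodule.smul_mem _ _
    (Submodule.subset_span ⟨cl (cj j) (h5 j), rfl⟩)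

end Pool.Agent.P.MP_3d25f3_gt
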