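import Pool.Agent.P.MP_3d25f3_gt.FacD
import Pool.Agent.P.MP_3d25f3_gt.Spn

set_option autoImplicit false

open Set Filter Topology

namespace Pool.Agent.P.MP_3d25f3_gt

open Module

variable {X Y N : Set E4} {n : E4 → E4 → ℤ}

/-- torsion count in cohomology -/
lemma tcH {Z : Type} [TopologicalSpace Z] {R k : Type} [CommRing R] [IsDomain R]
    [IsPrincipalIdealRing R] [Field k] {ev : R →+* k} {ε : R} (hr : Red ev ε) {τ : Z → Z → R}
    {τ' : Z → Z → k} (h : ∀ x y, ev (τ x y) = τ' x y) (i : ℕ) {F F' : Set Z} (hτ : Coc τ (F \ F'))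
    (hF : F' ⊆ F) [Module.Finite R (H τ (i + 1) F F')] [FiniteDimensional k (H τ' i F F')] :
    finrank k (imT (cmap ev h (i + 1) F F')) + finrank k (imI (cmap ev h i F F'))
      = finrank k (H τ' i F F') := by
  obtain ⟨β, hβ⟩ := exists_bock hr h i hτ hF
  exact tc hr (cmap ev h i F F') (cmap ev h (i + 1) F F') β hβ.smul hβ.ker hβ.range
    (cmap_eq_zero hr h hτ hF)

lemma faca_sg_sg (k : ℕ) (F F' : Set E4) (z : H (tw tL n) k F F') :
    cmap sgL (hsg' n) k F F' (cmap sgL (hsg n) k F F' z) = z := by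
  obtain ⟨c, hc, rfl⟩ := cl_surj z
  rw [cmap_cl, cmap_cl]
  have e : cf sgL (cf sgL c) = c := by funext l; simp [sgL_sgL]
  simp only [e]

lemma faca_sg_sg' (k : ℕ) (F F' : Set E4) (z : H (tw tL⁻¹ n) k F F') :
    cmap sgL (hsg n) k F F' (cmap sgL (hsg' n) k F F' z) = z := by
  obtain ⟨c, hc, rfl⟩ := cl_surj z
  rw [cmap_cl, cmap_cl]
  have e : cf sgL (cf sgL c) = c := by funext l; simp [sgL_sgL]
  simp only [e]

lemma faca_cmap_jm {R R' : Type} [CommRing R] [CommRing R'] (φ : R →+* R') {τ : E4 → E4 → R}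
    {τ' : E4 → E4 → R'} (h : ∀ x y, φ (τ x y) = τ' x y) (k : ℕ) (x : H τ k univ Y) :
    cmap φ h k X ∅ (jm τ k X Y x) = jm τ' k X Y (cmap φ h k univ Y x) := by
  obtain ⟨c, hc, rfl⟩ := cl_surj x
  unfold jm
  rw [res_cl, cmap_cl, cmap_cl, res_cl]

lemma faca_sg_jm (x : H (tw tL n) 2 univ Y) :
    cmap sgL (hsg n) 2 X ∅ (jm (tw tL n) 2 X Y x)
      = jm (tw tL⁻¹ n) 2 X Y (cmap sgL (hsg n) 2 univ Y x) := faca_cmap_jm sgL (hsg n) 2 x

lemma faca_lam (h : XN X Y N n) (x : H (tw tL n) 2 univ Y) (b : H (tw tL n) 2 X ∅) :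
    lamL h x b = pair (h.ok tL) (i := 2) (j := 2) rfl x (cmap sgL (hsg n) 2 X ∅ b) := rfl

lemma faca_conj_ev {ω : ℂˣ} (hω : ‖(ω : ℂ)‖ = 1) (b : H (tw tL n) 2 X ∅) :
    cmap (starRingEnd ℂ) (hcj hω n) 2 X ∅ (cmap (evL ω) (hev ω n) 2 X ∅ b)
      = cmap (evL ω) (hev' ω n) 2 X ∅ (cmap sgL (hsg n) 2 X ∅ b) := by
  obtain ⟨c, hc, rfl⟩ := cl_surj b
  rw [cmap_cl, cmap_cl, cmap_cl, cmap_cl]
  have e : cf (starRingEnd ℂ) (cf (evL ω) c) = cf (evL ω) (cf sgL c) := by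
    funext l; simp only [cf_apply, evL_sgL hω]
  simp only [e]

lemma lamL_herm (h : XN X Y N n) (x y : H (tw tL n) 2 univ Y) :
    lamL h y (jm (tw tL n) 2 X Y x) = sgL (lamL h x (jm (tw tL n) 2 X Y y)) := by
  rw [faca_lam, faca_lam, faca_sg_jm,
    ← pair_cmap sgL (hsg n) (hsg' n) (h.ok tL) (h.xy.ok (h.good tL).symm h.sub), faca_sg_sg]
  exact pair_comm h.xy (h.good tL) h.sub y _

lemma pbL_red (h : XN X Y N n) {ω : ℂˣ} (hω : ‖(ω : ℂ)‖ = 1) (x : H (tw tL n) 2 univ Y)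
    (b : H (tw tL n) 2 X ∅) :
    pbL h hω (cmap (evL ω) (hev ω n) 2 univ Y x) b = evL ω (lamL h x b) := by
  rw [pbL_apply, faca_lam, faca_conj_ev hω]
  exact pair_cmap (evL ω) (hev ω n) (hev' ω n) (h.ok tL) (h.ok ω) rfl x _

lemma pbL_smul (h : XN X Y N n) {ω : ℂˣ} (hω : ‖(ω : ℂ)‖ = 1) (x : H (tw ω n) 2 univ Y) (c : La)
    (b : H (tw tL n) 2 X ∅) : pbL h hω x (c • b) = starRingEnd ℂ (evL ω c) * pbL h hω x b := by
  rw [pbL_apply, pbL_apply, LinearMap.map_smulₛₗ, LinearMap.map_smulₛₗ, map_smul, smul_eq_mul]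

lemma faca_tors {R A B : Type} [CommRing R] [AddCommGroup A] [Module R A] [AddCommGroup B]
    [Module R B] (p : A →ₗ[R] B →ₗ[R] R) (a : A) (b : B)
    (h : a ∈ Submodule.torsion R A ∨ b ∈ Submodule.torsion R B) : p a b = 0 := by
  rcases h with h | h
  · obtain ⟨r, hr⟩ := (Submodule.mem_torsion_iff a).1 h
    have e : (r : R) * p a b = 0 := by
      have := congrArg (fun z => p z b) hr
      simpa [Submonoid.smul_def] using this
    exact (mem_nonZeroDivisors_iff.1 r.2).1 _ e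
  · obtain ⟨r, hr⟩ := (Submodule.mem_torsion_iff b).1 h
    have e : (r : R) * p a b = 0 := by
      have := congrArg (fun z => p a z) hr
      simpa [Submonoid.smul_def] using this
    exact (mem_nonZeroDivisors_iff.1 r.2).1 _ e

lemma faca_coc (h : XN X Y N n) {R : Type} [CommRing R] (t : Rˣ) : Coc (tw t n) (univ \ Y) := by
  refine (h.cocX t).mono fun z hz => ?_
  have : z ∈ X ∪ Y := by rw [h.xy.cover]; trivial
  exact this.resolve_right hz.2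

theorem pbL_perp (h : XN X Y N n) {ω : ℂˣ} (hω : ‖(ω : ℂ)‖ = 1) (x : H (tw ω n) 2 univ Y)
    (hx : ∀ b, pbL h hω x b = 0) :
    ∃ y ∈ Submodule.torsion La (H (tw tL n) 2 univ Y), x = cmap (evL ω) (hev ω n) 2 univ Y y := by
  have hr := red_evL ω
  have f1 := (h.xy.fg (h.good ω) h.sub).1
  have f2 := (h.xy.fg (h.good ω).symm h.sub).2
  have f3 := (h.xy.fg (h.good tL) h.sub).1
  have f4 := (h.xy.fg (h.good tL).symm h.sub).2
  have := f1 1
  have := f1 2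
  have := f2 2
  have := f2 3
  have := f3 2
  have := f4 3
  rw [← mem_imT hr.surj]
  refine ti (p₂ := pair (h.ok ω) (i := 2) (j := 2) rfl) (p₁ := pair (h.ok ω) (i := 1) (j := 3) rfl)
    (h.xy.dual (h.good ω) h.sub rfl) (h.xy.dual (h.good ω) h.sub rfl)
    (I₁ := imI (cmap (evL ω) (hev ω n) 1 univ Y)) (I₂ := imI (cmap (evL ω) (hev' ω n) 2 X ∅))
    (T₃ := imT (cmap (evL ω) (hev' ω n) 3 X ∅)) ?_ ?_
    (tcH hr (hev ω n) 1 (faca_coc h tL) (subset_univ Y))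
    (tcH hr (hev' ω n) 2 ((h.cocX tL⁻¹).mono sdiff_subset) (empty_subset X)) x ?_
  · intro a ha b hb
    obtain ⟨a, ht, rfl⟩ := (mem_imT hr.surj _ _).1 ha
    obtain ⟨b, rfl⟩ := (mem_imI hr.surj _ _).1 hb
    rw [pair_cmap (evL ω) (hev ω n) (hev' ω n) (h.ok tL) (h.ok ω), faca_tors _ a b (Or.inl ht),
      map_zero]
  · intro a ha b hb
    obtain ⟨a, rfl⟩ := (mem_imI hr.surj _ _).1 ha
    obtain ⟨b, ht, rfl⟩ := (mem_imT hr.surj _ _).1 hb
    rw [pair_cmap (evL ω) (hev ω n) (hev' ω n) (h.ok tL) (h.ok ω), faca_tors _ a b (Or.inr ht),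
      map_zero]
  · intro b hb
    obtain ⟨b, rfl⟩ := (mem_imI hr.surj _ _).1 hb
    have := hx (cmap sgL (hsg' n) 2 X ∅ b)
    rwa [pbL_apply, faca_conj_ev hω, faca_sg_sg'] at this

lemma faca_inv {O S : Type} [CommRing O] [CommRing S] (φ : O →+* S) {w : Oˣ} {u : Sˣ}
    (h : φ w = u) : φ (w⁻¹ : Oˣ) = (u⁻¹ : Sˣ) := by
  apply Units.eq_inv_of_mul_eq_one_left
  rw [← h, ← map_mul, Units.mul_inv, map_one]

/-- the bound at a root of unity of prime power order -/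
theorem betti_tw (h : XN X Y N n) {O κ : Type} [CommRing O] [IsDomain O] [IsPrincipalIdealRing O]
    [Field κ] {φ : O →+* ℂ} {ev : O →+* κ} {w : Oˣ} {π : O} {ω : ℂˣ} (hφ : Function.Injective φ)
    (hw : φ w = ω) (hw' : ev w = 1) (hr : Red ev π) {x : E4} (hx : x ∈ X)
    (h0 : ∀ c ∈ Zc (tw w n) 0 X ∅, c [x] = 0) :
    finrank ℂ (H (tw ω n) 1 X ∅) + finrank ℂ (H (tw ω⁻¹ n) 2 X ∅) + 1
      ≤ finrank κ (H (1 : E4 → E4 → κ) 1 (X ∩ Y) ∅) := by
  have hw1 : ev w = ((1 : κˣ) : κ) := hw'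
  have e1 : ∀ a b, ev (tw w n a b) = (1 : E4 → E4 → κ) a b := fun a b => by
    rw [tw_map ev hw1 n a b, tw_one]
  have e2 : ∀ a b, ev (tw w⁻¹ n a b) = (1 : E4 → E4 → κ) a b := fun a b => by
    rw [tw_map ev (faca_inv ev hw1) n a b, inv_one, tw_one]
  have f1 := (h.xy.fg (h.good w) h.sub).2
  have f2 := (h.xy.fg (h.good w).symm h.sub).2
  have f3 := (h.xy.fg (good_one (R := κ)) (subset_univ X)).2
  have := f1 1
  have := f2 2
  have := f3 0
  have := f3 1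
  have := f3 2
  have c1 : Coc (tw w n) (X \ ∅) := (h.cocX w).mono sdiff_subset
  have c2 : Coc (tw w⁻¹ n) (X \ ∅) := (h.cocX w⁻¹).mono sdiff_subset
  have r1 := rk hr (cmap ev e1 1 X ∅) (cmap_eq_zero hr e1 c1 (empty_subset X)) hφ
    (cmap φ (tw_map φ hw n) 1 X ∅)
    (span_cmap hφ (tw_map φ hw n) 1 h.xy.compact (h.cocX ω))
  have r2 := rk hr (cmap ev e2 2 X ∅) (cmap_eq_zero hr e2 c2 (empty_subset X)) hφ
    (cmap φ (tw_map φ (faca_inv φ hw) n) 2 X ∅)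
    (span_cmap hφ (tw_map φ (faca_inv φ hw) n) 2 h.xy.compact (h.cocX ω⁻¹))
  have t0 := tcH hr e1 0 c1 (empty_subset X)
  have l1 := Submodule.finrank_le (imI (cmap ev e1 1 X ∅))
  have l2 := Submodule.finrank_le (imI (cmap ev e2 2 X ∅))
  have bs := betti_sum (k := κ) h.xy
  have hone : (fun _ => 1 : List E4 → κ) ∈ Zc (1 : E4 → E4 → κ) 0 X ∅ := by
    refine ⟨by simp, fun z _ => ⟨univ, univ_mem, fun l hl _ => ?_⟩⟩
    match l, hl with
    | [a, b], _ => rw [D_two]; simp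
  have hlt : imI (cmap ev e1 0 X ∅) ≠ ⊤ := by
    intro ht
    have hm : cl _ hone ∈ imI (cmap ev e1 0 X ∅) := by rw [ht]; trivial
    obtain ⟨y, hy⟩ := (mem_imI hr.surj _ _).1 hm
    obtain ⟨c, hc, rfl⟩ := cl_surj y
    rw [cmap_cl, cl_eq, Bc_zero] at hy
    obtain ⟨U, hU, hU'⟩ := hy x hx
    have := hU' [x] rfl (by simpa using mem_of_mem_nhds hU)
    rw [Pi.sub_apply, cf_apply, h0 c hc, map_zero, sub_zero] at this
    exact one_ne_zero this
  have l0 := Submodule.finrank_lt hlt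
  have t1 : finrank κ (imT (cmap ev e1 1 X ∅)) + finrank κ (imI (cmap ev e1 0 X ∅))
      = finrank κ (H (1 : E4 → E4 → κ) 0 X ∅) := t0
  omega

end Pool.Agent.P.MP_3d25f3_gt
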