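import Pool.Agent.P.MP_3d25f3_gt.Sig

set_option autoImplicit false
set_option linter.unusedSectionVars false

open Set Filter Topology

namespace Pool.Agent.P.MP_3d25f3_gt

open Module

/-- the algebraic data of the residue computation at one point of the circle -/
structure ResD {R : Type} [CommRing R] (σ : R →+* R) (ev : R →+* ℂ) (C : ℂ →+* R) (ε μ s : R)
    {A B M a V ι : Type} [AddCommGroup A] [Module R A] [AddCommGroup B] [Module R B]
    [AddCommGroup M] [Module R M] [AddCommGroup a] [Module ℂ a] [AddCommGroup V] [Module ℂ V]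
    [Fintype ι] (j : A →ₗ[R] B) (r : B →ₗ[R] M) (lam : A →ₗ[R] B →ₛₗ[σ] R) (red : A →ₛₗ[ev] a)
    (pb : a →ₗ[ℂ] B →+ ℂ) (δ : V →ₗ[ℂ] a) (β : V →+ M) (ψ : SF V) (e : ι → A) (G : SF (ι → ℂ)) :
    Prop where
  σσ : ∀ x, σ (σ x) = x
  evσ : ∀ x, ev (σ x) = starRingEnd ℂ (ev x)
  evC : ∀ z, ev (C z) = z
  ker : ∀ x, ev x = 0 ↔ ε ∣ x
  ε0 : ε ≠ 0
  σε : σ ε = μ * ε
  ex : Function.Exact j r
  kill : ∀ x : M, s • x = 0
  herm : ∀ x y, lam y (j x) = σ (lam x (j y))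
  pbred : ∀ x b, pb (red x) b = ev (lam x b)
  pbsmul : ∀ x c b, pb x (c • b) = starRingEnd ℂ (ev c) * pb x b
  perp : ∀ x, (∀ b, pb x b = 0) → ∃ y ∈ Submodule.torsion R A, x = red y
  kerred : ∀ x, red x = 0 → ∃ y, x = ε • y
  βsmul : ∀ c v, β (ev c • v) = c • β v
  βrange : ∀ y : M, ε • y = 0 → ∃ v, β v = y
  lift : ∀ v b, β v = r b → ∃ x, j x = ε • (-b) ∧ red x = δ v
  back : ∀ v x, δ v = red x → ∃ b, β v = r b
  ψeq : ∀ v v' b, β v' = r b → ψ v v' = pb (δ v) b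
  span : ∀ x, ∃ c : ι → R, x - ∑ i, c i • e i ∈ Submodule.torsion R A
  ind : ∀ c : ι → R, ∑ i, c i • e i ∈ Submodule.torsion R A → c = 0
  Geq : ∀ x y, G x y = ev (lam (∑ i, C (x i) • e i) (j (∑ i, C (y i) • e i)))

variable {R : Type} [CommRing R] [IsDomain R] {σ : R →+* R} {ev : R →+* ℂ} {C : ℂ →+* R}
  {ε μ s : R} {A B M a V ι : Type} [AddCommGroup A] [Module R A] [AddCommGroup B] [Module R B]
  [AddCommGroup M] [Module R M] [AddCommGroup a] [Module ℂ a] [AddCommGroup V] [Module ℂ V]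
  [Fintype ι] {j : A →ₗ[R] B} {r : B →ₗ[R] M} {lam : A →ₗ[R] B →ₛₗ[σ] R} {red : A →ₛₗ[ev] a}
  {pb : a →ₗ[ℂ] B →+ ℂ} {δ : V →ₗ[ℂ] a} {β : V →+ M} {ψ : SF V} {e : ι → A} {G : SF (ι → ℂ)}

lemma res_sub (C : ℂ →+* R) (e : ι → A) (x y : ι → ℂ) :
    ∑ i, C ((x - y) i) • e i = ∑ i, C (x i) • e i - ∑ i, C (y i) • e i := by
  simp [sub_smul, Finset.sum_sub_distrib]

lemma res_add (C : ℂ →+* R) (e : ι → A) (x y : ι → ℂ) :
    ∑ i, C ((x + y) i) • e i = ∑ i, C (x i) • e i + ∑ i, C (y i) • e i := by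
  simp [add_smul, Finset.sum_add_distrib]

lemma res_smul (C : ℂ →+* R) (e : ι → A) (z : ℂ) (x : ι → ℂ) :
    ∑ i, C ((z • x) i) • e i = C z • ∑ i, C (x i) • e i := by
  simp [Finset.smul_sum, mul_smul]

lemma res_tor (lam : A →ₗ[R] B →ₛₗ[σ] R) {t : A} (ht : t ∈ Submodule.torsion R A) (b : B) :
    lam t b = 0 := by
  obtain ⟨c, hc⟩ := (Submodule.mem_torsion_iff t).1 ht
  have h1 : lam ((c : R) • t) b = 0 := by
    have : (c : R) • t = 0 := hc
    rw [this]; simp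
  rw [map_smul, LinearMap.smul_apply, smul_eq_mul] at h1
  exact (mul_eq_zero.1 h1).resolve_left (nonZeroDivisors.coe_ne_zero c)

lemma res_top {W : Type} [AddCommGroup W] [Module ℂ W] [FiniteDimensional ℂ W] (G₁ : SF W)
    (K : Submodule ℂ W) (L : Submodule ℂ K)
    (h : ∀ x ∈ K, (∀ y ∈ L, G₁ x y.1 = 0) → x = 0) : L = ⊤ := by
  let bs := finBasis ℂ L
  let φ : K →ₗ[ℂ] (Fin (finrank ℂ L) → ℂ) :=
    LinearMap.pi fun i => (G₁.flip (bs i).1.1).comp K.subtype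
  have hφ : Function.Injective φ := by
    refine (injective_iff_map_eq_zero φ).2 fun x hx => Subtype.ext (h x.1 x.2 fun v hv => ?_)
    have h3 : ((G₁ x.1).comp K.subtype).comp L.subtype = 0 := bs.ext fun i => congrFun hx i
    exact LinearMap.congr_fun h3 ⟨v, hv⟩
  have h3 := LinearMap.finrank_le_finrank_of_injective hφ
  rw [finrank_fin_fun] at h3
  exact Submodule.eq_top_of_finrank_eq (le_antisymm (Submodule.finrank_le _) h3)

namespace ResD

variable (h : ResD σ ev C ε μ s j r lam red pb δ β ψ e G)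
include h

lemma res_evε : ev ε = 0 := (h.ker ε).2 dvd_rfl

lemma res_evμ : ev μ ≠ 0 := by
  have h1 : σ μ * μ * ε = 1 * ε := by
    rw [mul_assoc, ← h.σε, ← map_mul, ← h.σε, h.σσ, one_mul]
  have h2 := congrArg ev (mul_right_cancel₀ h.ε0 h1)
  rw [map_mul, map_one] at h2
  exact right_ne_zero_of_mul_eq_one h2

lemma res_tor' (x : A) {t : A} (ht : t ∈ Submodule.torsion R A) : lam x (j t) = 0 := by
  rw [h.herm, res_tor lam ht, map_zero]

lemma res_dec (y : A) : ∃ (x : ι → ℂ) (y₁ : A), ∃ t ∈ Submodule.torsion R A,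
    y = ∑ i, C (x i) • e i + ε • y₁ + t := by
  obtain ⟨c, hc⟩ := h.span y
  have h1 : ∀ i, ∃ d, c i - C (ev (c i)) = ε * d := fun i =>
    (h.ker _).1 (by rw [map_sub, h.evC, sub_self])
  choose d hd using h1
  refine ⟨fun i => ev (c i), ∑ i, d i • e i, _, hc, ?_⟩
  have h2 : ∑ i, c i • e i = ∑ i, C (ev (c i)) • e i + ε • ∑ i, d i • e i := by
    rw [Finset.smul_sum, ← Finset.sum_add_distrib]
    refine Finset.sum_congr rfl fun i _ => ?_
    rw [smul_smul, ← hd, ← add_smul, add_sub_cancel]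
  rw [← h2, add_sub_cancel]

lemma res_uniq {x : ι → ℂ} {t : A} (ht : t ∈ Submodule.torsion R A)
    (hx : red (∑ i, C (x i) • e i + t) = 0) : x = 0 := by
  obtain ⟨y, hy⟩ := h.kerred _ hx
  obtain ⟨d, hd⟩ := h.span y
  have h1 : ∑ i, (C (x i) - ε * d i) • e i = ε • (y - ∑ i, d i • e i) - t := by
    rw [smul_sub, ← hy, Finset.smul_sum]
    simp only [sub_smul, Finset.sum_sub_distrib, mul_smul]
    abel
  have h2 := h.ind _ (h1 ▸ sub_mem (Submodule.smul_mem _ ε hd) ht)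
  funext i
  have h3 := congrArg ev (congrFun h2 i)
  simpa [h.evC, h.res_evε] using h3

lemma res_zero {x : ι → ℂ} (hx : ∀ b, ev (lam (∑ i, C (x i) • e i) b) = 0) : x = 0 := by
  obtain ⟨t, ht, e1⟩ := h.perp (red (∑ i, C (x i) • e i)) fun b => by rw [h.pbred, hx]
  exact h.res_uniq (neg_mem ht) (by rw [map_add, map_neg, e1, add_neg_cancel])

lemma res_ker {x : ι → ℂ} (hx : x ∈ LinearMap.ker G) (y : A) :
    ev (lam (∑ i, C (x i) • e i) (j y)) = 0 := by
  obtain ⟨y₀, y₁, t, ht, rfl⟩ := h.res_dec y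
  have h1 : G x y₀ = 0 := by rw [LinearMap.mem_ker.1 hx]; rfl
  rw [j.map_add, j.map_add, LinearMap.map_add, LinearMap.map_add, h.res_tor' _ ht, j.map_smul,
    LinearMap.map_smulₛₗ, h.σε, add_zero, map_add, ← h.Geq, h1, smul_eq_mul, map_mul, map_mul,
    h.res_evε]
  simp

lemma res_lift {v : V} {b : B} (hb : β v = r b) : ∃ (x : ι → ℂ) (y₁ : A),
    ∃ t ∈ Submodule.torsion R A, j (∑ i, C (x i) • e i + ε • y₁ + t) = ε • (-b) ∧
      red (∑ i, C (x i) • e i + t) = δ v := by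
  obtain ⟨y, h1, h2⟩ := h.lift v b hb
  obtain ⟨x, y₁, t, ht, rfl⟩ := h.res_dec y
  refine ⟨x, y₁, t, ht, h1, ?_⟩
  rw [← h2]
  simp only [map_add, LinearMap.map_smulₛₗ, h.res_evε, zero_smul, add_zero]

lemma res_eq {v : V} {x x' : ι → ℂ} {t t' : A} (ht : t ∈ Submodule.torsion R A)
    (ht' : t' ∈ Submodule.torsion R A) (hx : red (∑ i, C (x i) • e i + t) = δ v)
    (hx' : red (∑ i, C (x' i) • e i + t') = δ v) : x = x' := by
  refine sub_eq_zero.1 (h.res_uniq (sub_mem ht ht') ?_)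
  rw [res_sub, ← add_sub_add_comm, map_sub, hx, hx', sub_self]

lemma res_mem {x : ι → ℂ} {y₁ t : A} {b : B} (ht : t ∈ Submodule.torsion R A)
    (h1 : j (∑ i, C (x i) • e i + ε • y₁ + t) = ε • (-b)) : x ∈ LinearMap.ker G := by
  rw [LinearMap.mem_ker]
  ext1 y
  have h2 := h.herm (∑ i, C (y i) • e i) (∑ i, C (x i) • e i + ε • y₁ + t)
  rw [h1, LinearMap.map_smulₛₗ, smul_eq_mul, map_mul, h.σσ, map_add, map_add, LinearMap.add_apply,
    LinearMap.add_apply, res_tor lam ht, map_smul, LinearMap.smul_apply, smul_eq_mul] at h2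
  have h3 := congrArg ev h2
  rw [map_add, map_add, ← h.Geq, map_mul, map_mul, h.res_evε] at h3
  simpa using h3

lemma res_val {G₁ : SF (ι → ℂ)} {c : ℂ}
    (hG₁ : ∀ x y q, lam (∑ i, C (x i) • e i) (j (∑ i, C (y i) • e i)) = ε * q → G₁ x y = c * ev q)
    {x : ι → ℂ} (hx : x ∈ LinearMap.ker G) {y : ι → ℂ} {y₁ t : A} {b : B}
    (ht : t ∈ Submodule.torsion R A) (h1 : j (∑ i, C (y i) • e i + ε • y₁ + t) = ε • (-b)) :
    G₁ x y = -(c * ev μ) * ev (lam (∑ i, C (x i) • e i) b) := by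
  have h2 := congrArg (lam (∑ i, C (x i) • e i)) h1
  rw [map_add, map_add, map_add, map_add, h.res_tor' _ ht, map_smul, LinearMap.map_smulₛₗ,
    LinearMap.map_smulₛₗ, h.σε, map_neg, smul_eq_mul, smul_eq_mul] at h2
  rw [hG₁ x y (-μ * (lam (∑ i, C (x i) • e i) b + lam (∑ i, C (x i) • e i) (j y₁)))
    (by linear_combination h2), map_mul, map_add, h.res_ker hx, map_neg]
  ring

end ResD

theorem ResD.card_le [FiniteDimensional ℂ a] (h : ResD σ ev C ε μ s j r lam red pb δ β ψ e G) :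
    Fintype.card ι ≤ finrank ℂ a := by
  refine LinearIndependent.fintype_card_le_finrank (b := fun i => red (e i)) ?_
  refine Fintype.linearIndependent_iff.2 fun x hx => ?_
  have := h.res_uniq (x := x) (zero_mem _) (by
    rw [add_zero, map_sum, ← hx]
    simp only [LinearMap.map_smulₛₗ, h.evC])
  exact congrFun this

theorem ResD.nondeg (h : ResD σ ev C ε μ s j r lam red pb δ β ψ e G) (hs : ev s ≠ 0) :
    LinearMap.ker G = ⊥ := by
  refine (Submodule.eq_bot_iff _).2 fun x hx => h.res_zero fun b => ?_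
  obtain ⟨y, hy⟩ := (h.ex (s • b)).1 (by rw [map_smul, h.kill])
  have h1 := h.res_ker hx y
  rw [hy, LinearMap.map_smulₛₗ, smul_eq_mul, map_mul, h.evσ] at h1
  exact (mul_eq_zero.1 h1).resolve_left (by simpa using hs)

theorem ResD.residue (h : ResD σ ev C ε μ s j r lam red pb δ β ψ e G) {s' : R} (hs : s = ε * s')
    (hs' : ev s' ≠ 0) {G₁ : SF (ι → ℂ)} {c : ℂ} (hc : c ≠ 0)
    (hG₁ : ∀ x y q, lam (∑ i, C (x i) • e i) (j (∑ i, C (y i) • e i)) = ε * q → G₁ x y = c * ev q) :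
    (∀ x ∈ LinearMap.ker G, (∀ y ∈ LinearMap.ker G, G₁ x y = 0) → x = 0) ∧
    ∃ (Q : Submodule ℂ V) (π : Q →ₗ[ℂ] LinearMap.ker G), Function.Surjective π ∧
      (∀ v v' : Q, G₁ (π v) (π v') = -(c * ev μ) * ψ v v') ∧
      ∀ v, (∀ q ∈ Q, ψ v q = 0) → v ∈ Q := by
  let Q : Submodule ℂ V :=
    { carrier := {v | ∃ b, β v = r b}
      add_mem' := by
        rintro v v' ⟨b, hb⟩ ⟨b', hb'⟩
        exact ⟨b + b', by rw [map_add, map_add, hb, hb']⟩
      zero_mem' := ⟨0, by rw [map_zero, map_zero]⟩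
      smul_mem' := by
        rintro z v ⟨b, hb⟩
        exact ⟨C z • b, by rw [r.map_smul, ← hb, ← h.βsmul, h.evC]⟩ }
  have hQ : ∀ v : Q, ∃ (b : B) (x : ι → ℂ) (y₁ t : A), β v = r b ∧ t ∈ Submodule.torsion R A ∧
      j (∑ i, C (x i) • e i + ε • y₁ + t) = ε • (-b) ∧ red (∑ i, C (x i) • e i + t) = δ v := by
    rintro ⟨v, b, hb⟩
    obtain ⟨x, y₁, t, ht, h1, h2⟩ := h.res_lift hb
    exact ⟨b, x, y₁, t, hb, ht, h1, h2⟩
  choose b p y₁ t hb ht h1 h2 using hQ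
  let π : Q →ₗ[ℂ] LinearMap.ker G :=
    { toFun := fun v => ⟨p v, h.res_mem (ht v) (h1 v)⟩
      map_add' := fun v v' => Subtype.ext <|
        h.res_eq (ht _) (add_mem (ht v) (ht v')) (h2 _) (by
          show red (∑ i, C ((p v + p v') i) • e i + (t v + t v')) = _
          rw [res_add, add_add_add_comm, map_add, h2, h2, Submodule.coe_add, map_add])
      map_smul' := fun z v => Subtype.ext <|
        h.res_eq (ht _) (Submodule.smul_mem _ (C z) (ht v)) (h2 _) (by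
          show red (∑ i, C ((z • p v) i) • e i + C z • t v) = _
          rw [res_smul, ← smul_add, LinearMap.map_smulₛₗ, h2, h.evC, Submodule.coe_smul,
            map_smul]) }
  have hq : ∀ b : B, ∃ q, β q = r (s' • b) := fun b =>
    h.βrange _ (by rw [map_smul, smul_smul, ← hs, h.kill])
  have key : ∀ x ∈ LinearMap.ker G, (∀ v, G₁ x (π v) = 0) → x = 0 := by
    intro x hx h0
    refine h.res_zero fun b' => ?_
    obtain ⟨q, hq⟩ := hq b'
    obtain ⟨y, y', t', ht', h3, h4⟩ := h.res_lift hq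
    have h5 : p ⟨q, _, hq⟩ = y := h.res_eq (ht _) ht' (h2 _) h4
    have h6 : G₁ x (p ⟨q, _, hq⟩) = 0 := h0 ⟨q, _, hq⟩
    rw [h5, h.res_val hG₁ hx ht' h3, LinearMap.map_smulₛₗ, smul_eq_mul, map_mul, h.evσ] at h6
    have h7 := (mul_eq_zero.1 h6).resolve_left (neg_ne_zero.2 (mul_ne_zero hc h.res_evμ))
    exact (mul_eq_zero.1 h7).resolve_left (by simpa using hs')
  refine ⟨fun x hx h0 => key x hx fun v => h0 _ (π v).2, Q, π, ?_, fun v v' => ?_, fun v hv => ?_⟩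
  · exact LinearMap.range_eq_top.1 (res_top G₁ _ _ fun x hx h0 =>
      key x hx fun v => h0 _ (LinearMap.mem_range_self π v))
  · show G₁ (p v) (p v') = _
    rw [h.res_val hG₁ (h.res_mem (ht v) (h1 v)) (ht v') (h1 v'), h.ψeq _ _ _ (hb v'), ← h2, h.pbred, map_add,
      LinearMap.add_apply, res_tor lam (ht v), add_zero]
  · obtain ⟨y, -, hy⟩ := h.perp (δ v) fun b' => by
      obtain ⟨q, hq⟩ := hq b'
      have h3 := hv q ⟨_, hq⟩
      rw [h.ψeq _ _ _ hq, h.pbsmul] at h3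
      exact (mul_eq_zero.1 h3).resolve_left (by simpa using hs')
    exact h.back v y hy

end Pool.Agent.P.MP_3d25f3_gt
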