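import Pool.Agent.P.MP_3d25f3_gt.Coef

set_option autoImplicit false

open Set Filter Topology

namespace Pool.Agent.P.MP_3d25f3_gt

abbrev La : Type := LaurentPolynomial ℂ

instance : IsPrincipalIdealRing La := by
  refine ⟨fun I => ?_⟩
  obtain ⟨f, hf⟩ := (IsPrincipalIdealRing.principal
    (I.under (Polynomial ℂ))).principal
  refine ⟨algebraMap (Polynomial ℂ) La f, ?_⟩
  rw [← IsLocalization.map_under (Submonoid.powers (Polynomial.X : Polynomial ℂ)) La I, hf]
  exact (Ideal.map_span _ _).trans (by rw [Set.image_singleton])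

/-- the variable as a unit -/
noncomputable def tL : Laˣ where
  val := LaurentPolynomial.T 1
  inv := LaurentPolynomial.T (-1)
  val_inv := by rw [← LaurentPolynomial.T_add]; simp
  inv_val := by rw [← LaurentPolynomial.T_add]; simp

noncomputable def evL (ω : ℂˣ) : La →+* ℂ := LaurentPolynomial.eval₂ (RingHom.id ℂ) ω

noncomputable def sgL : La →+* La :=
  LaurentPolynomial.eval₂ (LaurentPolynomial.C.comp (starRingEnd ℂ)) tL⁻¹

noncomputable def epL (ω : ℂˣ) : La := (tL : La) - LaurentPolynomial.C (ω : ℂ)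

/-- the point of the unit circle with angle `θ` -/
noncomputable def cu (θ : ℝ) : ℂˣ :=
  Units.mk0 (Complex.exp (θ * Complex.I)) (Complex.exp_ne_zero _)

lemma norm_cu (θ : ℝ) : ‖(cu θ : ℂ)‖ = 1 := Complex.norm_exp_ofReal_mul_I θ

lemma rings_zpow (n : ℤ) : ((tL ^ n : Laˣ) : La) = LaurentPolynomial.T n := by
  induction n using Int.induction_on with
  | zero => simp
  | succ k ih => rw [zpow_add_one, Units.val_mul, ih, LaurentPolynomial.T_add]; rfl
  | pred k ih => rw [zpow_sub_one, Units.val_mul, ih, LaurentPolynomial.T_sub]; rfl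

lemma rings_evT (ω : ℂˣ) (n : ℤ) : evL ω (LaurentPolynomial.T n) = ((ω ^ n : ℂˣ) : ℂ) :=
  LaurentPolynomial.eval₂_T _ _ n

lemma rings_sgT (n : ℤ) : sgL (LaurentPolynomial.T n) = LaurentPolynomial.T (-n) := by
  rw [sgL, LaurentPolynomial.eval₂_T, inv_zpow', rings_zpow]

lemma evL_t (ω : ℂˣ) : evL ω tL = ω := by
  exact (rings_evT ω 1).trans (by rw [zpow_one])

lemma evL_t_inv (ω : ℂˣ) : evL ω (tL⁻¹ : Laˣ) = (ω⁻¹ : ℂˣ) := by
  exact (rings_evT ω (-1)).trans (by rw [zpow_neg_one])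

lemma evL_C (ω : ℂˣ) (z : ℂ) : evL ω (LaurentPolynomial.C z) = z := by
  exact LaurentPolynomial.eval₂_C _ _ z

lemma sgL_t : sgL tL = (tL⁻¹ : Laˣ) := by
  exact rings_sgT 1

lemma sgL_t_inv : sgL (tL⁻¹ : Laˣ) = tL := by
  exact (rings_sgT (-1)).trans (by rw [neg_neg]; rfl)

lemma sgL_C (z : ℂ) : sgL (LaurentPolynomial.C z) = LaurentPolynomial.C (starRingEnd ℂ z) := by
  exact LaurentPolynomial.eval₂_C _ _ z

lemma sgL_sgL (r : La) : sgL (sgL r) = r := by
  induction r using LaurentPolynomial.induction_on' with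
  | add p q hp hq => rw [map_add, map_add, hp, hq]
  | C_mul_T n a =>
    rw [map_mul, map_mul, sgL_C, sgL_C, rings_sgT, rings_sgT, neg_neg, Complex.conj_conj]

lemma conj_unit {ω : ℂˣ} (h : ‖(ω : ℂ)‖ = 1) : starRingEnd ℂ ω = (ω⁻¹ : ℂˣ) := by
  rw [Units.val_inv_eq_inv_val, Complex.inv_eq_conj h]

lemma evL_sgL {ω : ℂˣ} (h : ‖(ω : ℂ)‖ = 1) (r : La) : evL ω (sgL r) = starRingEnd ℂ (evL ω r) := by
  induction r using LaurentPolynomial.induction_on' with
  | add p q hp hq => rw [map_add, map_add, hp, hq, map_add, map_add]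
  | C_mul_T n a =>
    rw [map_mul, map_mul, sgL_C, rings_sgT, map_mul, map_mul, evL_C, evL_C, rings_evT, rings_evT,
      Units.val_zpow_eq_zpow_val, Units.val_zpow_eq_zpow_val, map_zpow₀, conj_unit h,
      Units.val_inv_eq_inv_val, inv_zpow']

lemma rings_pow_sub (ω : ℂˣ) (m : ℤ) : ∃ q : La,
    ((tL ^ m : Laˣ) : La) - LaurentPolynomial.C ((ω ^ m : ℂˣ) : ℂ) = epL ω * q ∧
      evL ω q = m * ((ω ^ (m - 1) : ℂˣ) : ℂ) := by
  induction m using Int.induction_on with
  | zero => exact ⟨0, by simp, by simp⟩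
  | succ k ih =>
    obtain ⟨q, h1, h2⟩ := ih
    refine ⟨tL * q + LaurentPolynomial.C ((ω ^ (k : ℤ) : ℂˣ) : ℂ), ?_, ?_⟩
    · rw [zpow_add_one, zpow_add_one, Units.val_mul, Units.val_mul, map_mul]
      rw [epL] at h1 ⊢
      linear_combination (tL : La) * h1
    · rw [map_add, map_mul, h2, evL_t, evL_C, add_sub_cancel_right, zpow_sub_one, Units.val_mul,
        Int.cast_add, Int.cast_one]
      linear_combination (((k : ℤ) : ℂ) * ((ω ^ (k : ℤ) : ℂˣ) : ℂ)) * ω.mul_inv
  | pred k ih =>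
    obtain ⟨q, h1, h2⟩ := ih
    refine ⟨(tL⁻¹ : Laˣ) * (q - LaurentPolynomial.C ((ω ^ (-(k : ℤ) - 1) : ℂˣ) : ℂ)), ?_, ?_⟩
    · have e1 : (tL : La) * (tL⁻¹ : Laˣ) = 1 := tL.mul_inv
      have e2 : LaurentPolynomial.C (ω : ℂ) * LaurentPolynomial.C ((ω⁻¹ : ℂˣ) : ℂ) = (1 : La) := by
        rw [← map_mul, ω.mul_inv, map_one]
      rw [zpow_sub_one, zpow_sub_one, Units.val_mul, Units.val_mul, map_mul]
      rw [epL] at h1 ⊢
      linear_combination ((tL⁻¹ : Laˣ) : La) * h1 +
        (LaurentPolynomial.C ((ω ^ (-(k : ℤ)) : ℂˣ) : ℂ) *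
          LaurentPolynomial.C ((ω⁻¹ : ℂˣ) : ℂ)) * e1 -
        (LaurentPolynomial.C ((ω ^ (-(k : ℤ)) : ℂˣ) : ℂ) * ((tL⁻¹ : Laˣ) : La)) * e2
    · rw [map_mul, map_sub, h2, evL_t_inv, evL_C, zpow_sub_one ω (-(k : ℤ) - 1), Units.val_mul,
        Int.cast_sub, Int.cast_one]
      ring

lemma rings_ev_ep (ω ω' : ℂˣ) : evL ω (epL ω') = ω - ω' := by
  rw [epL, map_sub, evL_t, evL_C]

lemma red_evL (ω : ℂˣ) : Red (evL ω) (epL ω) := by
  have key : ∀ r, epL ω ∣ r - LaurentPolynomial.C (evL ω r) := by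
    intro r
    induction r using LaurentPolynomial.induction_on' with
    | add p q hp hq =>
      rw [map_add, map_add, add_sub_add_comm]
      exact dvd_add hp hq
    | C_mul_T n a =>
      obtain ⟨q, h1, -⟩ := rings_pow_sub ω n
      rw [map_mul, evL_C, rings_evT, map_mul, ← mul_sub, ← rings_zpow, h1]
      exact Dvd.dvd.mul_left (dvd_mul_right _ _) _
  refine ⟨fun z => ⟨_, evL_C ω z⟩, fun r => ⟨fun h => ?_, ?_⟩, fun r h => ?_⟩
  · have := key r
    rwa [h, map_zero, sub_zero] at this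
  · rintro ⟨q, rfl⟩
    rw [map_mul, rings_ev_ep, sub_self, zero_mul]
  · refine (mul_eq_zero.1 h).resolve_left fun h0 => ?_
    have h1 := rings_ev_ep (-ω) ω
    rw [h0, map_zero, Units.val_neg] at h1
    exact ω.ne_zero (by linear_combination (1 / 2 : ℂ) * h1)

lemma sgL_epL {ω : ℂˣ} (h : ‖(ω : ℂ)‖ = 1) :
    sgL (epL ω) = -((tL⁻¹ : Laˣ) * LaurentPolynomial.C ((ω⁻¹ : ℂˣ) : ℂ)) * epL ω := by
  have e1 : (tL : La) * (tL⁻¹ : Laˣ) = 1 := tL.mul_inv
  have e2 : LaurentPolynomial.C (ω : ℂ) * LaurentPolynomial.C ((ω⁻¹ : ℂˣ) : ℂ) = (1 : La) := by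
    rw [← map_mul, ω.mul_inv, map_one]
  rw [epL, map_sub, sgL_t, sgL_C, conj_unit h]
  linear_combination (LaurentPolynomial.C ((ω⁻¹ : ℂˣ) : ℂ)) * e1 - ((tL⁻¹ : Laˣ) : La) * e2

lemma pow_sub_eq (ω : ℂˣ) (m : ℤ) : ∃ q : La,
    ((tL ^ m : Laˣ) : La) - LaurentPolynomial.C ((ω ^ m : ℂˣ) : ℂ) = epL ω * q ∧
      evL ω q = m * ((ω ^ (m - 1) : ℂˣ) : ℂ) := by
  exact rings_pow_sub ω m

lemma rings_cu (θ : ℝ) : HasDerivAt (fun u : ℝ => (cu u : ℂ)) (Complex.I * cu θ) θ := by
  have h1 := ((hasDerivAt_id (θ : ℂ)).mul_const Complex.I).cexp.comp_ofReal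
  simp only [id, one_mul] at h1
  rw [mul_comm]
  exact h1

lemma differentiable_evL (r : La) : Differentiable ℝ fun θ => evL (cu θ) r := by
  induction r using LaurentPolynomial.induction_on' with
  | add p q hp hq =>
    simp only [map_add]
    exact hp.add hq
  | C_mul_T n a =>
    simp only [map_mul, evL_C, rings_evT, Units.val_zpow_eq_zpow_val]
    exact fun θ => (((differentiableAt_zpow.2 (Or.inl (cu θ).ne_zero)).restrictScalars ℝ).comp θ
      (rings_cu θ).differentiableAt).const_mul a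

lemma hasDerivAt_epL (θ : ℝ) (r : La) : HasDerivAt (fun u => evL (cu u) (epL (cu θ) * r))
    (Complex.I * cu θ * evL (cu θ) r) θ := by
  simp only [map_mul, rings_ev_ep]
  have h1 := ((rings_cu θ).sub_const (cu θ : ℂ)).fun_mul (differentiable_evL r θ).hasDerivAt
  rwa [sub_self, zero_mul, add_zero] at h1

lemma cu_pow_eq_one {N : ℕ} (hN : 0 < N) (θ : ℝ) :
    cu θ ^ (N : ℤ) = 1 ↔ ∃ k : ℤ, θ = 2 * Real.pi * k / N := by
  have hN' : (N : ℂ) ≠ 0 := by exact_mod_cast hN.ne'
  have e : ((cu θ ^ (N : ℤ) : ℂˣ) : ℂ) = Complex.exp (N * (θ * Complex.I)) := by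
    rw [zpow_natCast, Units.val_pow_eq_pow_val, Complex.exp_nat_mul]
    rfl
  rw [Units.ext_iff, e, Units.val_one, Complex.exp_eq_one_iff]
  refine exists_congr fun k => ?_
  rw [← Complex.ofReal_inj]
  push_cast
  rw [eq_div_iff hN']
  constructor
  · intro h
    apply mul_right_cancel₀ Complex.I_ne_zero
    linear_combination h
  · intro h
    linear_combination Complex.I * h

/-- a discrete valuation ring inside `ℂ` in which `ω` is congruent to one -/
theorem exists_ploc {p : ℕ} (hp : p.Prime) {a : ℕ} {ω : ℂˣ} (h : ω ^ p ^ a = 1) :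
    ∃ (O κ : Type) (_ : CommRing O) (_ : IsDomain O) (_ : IsPrincipalIdealRing O) (_ : Field κ)
      (φ : O →+* ℂ) (ev : O →+* κ) (w : Oˣ) (π : O), Function.Injective φ ∧ φ w = ω ∧ ev w = 1 ∧
      Red ev π ∧ CharP κ p := by
  have hn : p ^ a ≠ 0 := pow_ne_zero _ hp.ne_zero
  have h' : (ω : ℂ) ^ p ^ a = 1 := by rw [← Units.val_pow_eq_pow_val, h, Units.val_one]
  have hi : IsIntegral ℤ (ω : ℂ) := IsIntegral.of_pow (Nat.pos_of_ne_zero hn)
    (h' ▸ isIntegral_one)
  let K := IntermediateField.adjoin ℚ {(ω : ℂ)}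
  have : FiniteDimensional ℚ K := IntermediateField.adjoin.finiteDimensional hi.tower_top
  have : NumberField K := {}
  let x : K := ⟨ω, IntermediateField.mem_adjoin_simple_self ℚ _⟩
  have hx : x ^ p ^ a = 1 := Subtype.ext h'
  let y : NumberField.RingOfIntegers K :=
    ⟨x, IsIntegral.of_pow (Nat.pos_of_ne_zero hn) (hx ▸ isIntegral_one)⟩
  have hy : y ^ p ^ a = 1 := NumberField.RingOfIntegers.ext hx
  have : Fact p.Prime := ⟨hp⟩
  have hm : (Ideal.span {(p : ℤ)}).IsMaximal := Int.ideal_span_isMaximal_of_prime p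
  obtain ⟨P, hP, hP'⟩ := Ideal.exists_ideal_over_maximal_of_isIntegral
    (S := NumberField.RingOfIntegers K) (Ideal.span {(p : ℤ)})
    (by rw [(RingHom.injective_iff_ker_eq_bot (algebraMap ℤ (NumberField.RingOfIntegers K))).1
          (RingHom.injective_int _)]; exact bot_le)
  have hpP : (p : NumberField.RingOfIntegers K) ∈ P := by
    have h1 : (p : ℤ) ∈ P.comap (algebraMap ℤ _) := hP' ▸ Ideal.mem_span_singleton_self _
    simpa using h1
  have hP0 : P ≠ ⊥ := fun h0 => by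
    rw [h0, Ideal.mem_bot] at hpP
    exact hp.ne_zero (by exact_mod_cast hpP)
  have hD := IsLocalization.AtPrime.isDiscreteValuationRing_of_dedekind_domain
    (NumberField.RingOfIntegers K) hP0 (Localization.AtPrime P)
  let f : NumberField.RingOfIntegers K →+* ℂ := (algebraMap K ℂ).comp (algebraMap _ K)
  have hf : Function.Injective f :=
    (algebraMap K ℂ).injective.comp (NumberField.RingOfIntegers.coe_injective)
  have hu : ∀ s : P.primeCompl, IsUnit (f s) := fun s => by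
    refine IsUnit.mk0 _ fun h0 => s.2 ?_
    rw [(injective_iff_map_eq_zero f).1 hf _ h0]
    exact P.zero_mem
  obtain ⟨π, hπ⟩ := IsDiscreteValuationRing.exists_irreducible (Localization.AtPrime P)
  have hw : algebraMap _ (Localization.AtPrime P) y ^ p ^ a = 1 := by rw [← map_pow, hy, map_one]
  have hc : CharP (IsLocalRing.ResidueField (Localization.AtPrime P)) p := by
    refine (CharP.charP_iff_prime_eq_zero hp).2 ?_
    rw [← map_natCast (IsLocalRing.residue (Localization.AtPrime P)),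
      IsLocalRing.residue_eq_zero_iff,
      ← map_natCast (algebraMap (NumberField.RingOfIntegers K) (Localization.AtPrime P))]
    exact (IsLocalization.AtPrime.to_map_mem_maximal_iff _ P _).2 hpP
  refine ⟨Localization.AtPrime P, IsLocalRing.ResidueField (Localization.AtPrime P), inferInstance,
    inferInstance, inferInstance, inferInstance, IsLocalization.lift hu, IsLocalRing.residue _,
    Units.ofPowEqOne _ _ hw hn, π, ?_, ?_, ?_, ⟨IsLocalRing.residue_surjective, fun r => ?_,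
      fun r hr => (mul_eq_zero.1 hr).resolve_left hπ.ne_zero⟩, hc⟩
  · rw [IsLocalization.lift_injective_iff]
    intro u v
    rw [hf.eq_iff]
    exact (IsLocalization.injective _ P.primeCompl_le_nonZeroDivisors).eq_iff
  · exact IsLocalization.lift_eq hu y
  · rw [← sub_eq_zero, ← pow_eq_zero_iff hn, sub_pow_char_pow, one_pow, ← map_pow]
    rw [Units.val_ofPowEqOne, hw, map_one, sub_self]
  · rw [IsLocalRing.residue_eq_zero_iff, hπ.maximalIdeal_eq, Ideal.mem_span_singleton]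

end Pool.Agent.P.MP_3d25f3_gt
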