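import Pool.Agent.P.MP_3d25f3_gt.Coef

set_option autoImplicit false

open Set Filter Topology

namespace Pool.Agent.P.MP_3d25f3_gt

open Module

variable {R k : Type} [CommRing R] [IsDomain R] [IsPrincipalIdealRing R] [Field k] {ev : R →+* k}
  {ε : R}

/-- image of a semilinear map -/
def imI {R k A a : Type} [CommRing R] [Field k] {ev : R →+* k} [AddCommGroup A] [Module R A]
    [AddCommGroup a] [Module k a] (red : A →ₛₗ[ev] a) : Submodule k a :=
  Submodule.span k (range red)

/-- image of the torsion -/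
def imT {R k A a : Type} [CommRing R] [Field k] {ev : R →+* k} [AddCommGroup A] [Module R A]
    [AddCommGroup a] [Module k a] (red : A →ₛₗ[ev] a) : Submodule k a :=
  Submodule.span k (red '' Submodule.torsion R A)

variable {A A' a a' : Type} [AddCommGroup A] [Module R A] [AddCommGroup A'] [Module R A']
  [AddCommGroup a] [Module k a] [AddCommGroup a'] [Module k a']

omit [IsDomain R] [IsPrincipalIdealRing R] in
lemma tc_mem_span (hs : Function.Surjective ev) (red : A →ₛₗ[ev] a) (N : Submodule R A) (x : a) :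
    x ∈ Submodule.span k (red '' N) ↔ ∃ y ∈ N, x = red y := by
  constructor
  · intro hx
    induction hx using Submodule.span_induction with
    | mem x hx => obtain ⟨y, hy, rfl⟩ := hx; exact ⟨y, hy, rfl⟩
    | zero => exact ⟨0, N.zero_mem, (map_zero red).symm⟩
    | add x y _ _ hx hy =>
      obtain ⟨x, hx, rfl⟩ := hx
      obtain ⟨y, hy, rfl⟩ := hy
      exact ⟨x + y, N.add_mem hx hy, (map_add red x y).symm⟩
    | smul c x _ hx =>
      obtain ⟨x, hx, rfl⟩ := hx
      obtain ⟨r, rfl⟩ := hs c
      exact ⟨r • x, N.smul_mem r hx, (map_smulₛₗ red r x).symm⟩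
  · rintro ⟨y, hy, rfl⟩
    exact Submodule.subset_span ⟨y, hy, rfl⟩

omit [IsDomain R] [IsPrincipalIdealRing R] in
lemma mem_imI (hs : Function.Surjective ev) (red : A →ₛₗ[ev] a) (x : a) :
    x ∈ imI red ↔ ∃ y, x = red y := by
  have := tc_mem_span hs red ⊤ x
  simpa [imI] using this

omit [IsDomain R] [IsPrincipalIdealRing R] in
lemma mem_imT (hs : Function.Surjective ev) (red : A →ₛₗ[ev] a) (x : a) :
    x ∈ imT red ↔ ∃ y ∈ Submodule.torsion R A, x = red y :=
  tc_mem_span hs red _ x

lemma tc_art {M : Type} [AddCommGroup M] [Module R M] [Module.Finite R M]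
    (h : Module.IsTorsion R M) : IsArtinian R M := by
  obtain ⟨d, hd, hd0⟩ := Submodule.annihilator_top_inter_nonZeroDivisors h
  have ht : Module.IsTorsionBySet R M (Ideal.span {d}) := by
    rw [← Module.isTorsionBySet_iff_is_torsion_by_span, Module.isTorsionBySet_singleton_iff]
    exact fun x => Submodule.mem_annihilator.1 hd x trivial
  let := ht.module
  have : IsScalarTower R (R ⧸ Ideal.span {d}) M := ht.isScalarTower
  have : IsArtinian R (R ⧸ Ideal.span {d}) :=
    (isFiniteLength_iff_isNoetherian_isArtinian.1 (isFiniteLength_quotient_span_singleton R hd0)).2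
  have : IsArtinianRing (R ⧸ Ideal.span {d}) := isArtinian_of_tower R inferInstance
  have : Module.Finite (R ⧸ Ideal.span {d}) M := Module.Finite.of_restrictScalars_finite R _ _
  exact isArtinian_of_surjective_algebraMap (R := R ⧸ Ideal.span {d})
    (Ideal.Quotient.mk_surjective (I := Ideal.span {d}))

omit [IsDomain R] [IsPrincipalIdealRing R] in
lemma tc_len {M P : Type} [AddCommGroup M] [Module R M] [IsArtinian R M] [IsNoetherian R M]
    [AddCommGroup P] [Module R P] (f : M →ₗ[R] M) (g : M →ₗ[R] P) (hg : Function.Surjective g)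
    (h : Function.Exact f g) : Module.length R (LinearMap.ker f) = Module.length R P := by
  have h1 := Module.length_eq_add_of_exact (LinearMap.ker f).subtype f.rangeRestrict
    (Submodule.subtype_injective _) f.surjective_rangeRestrict
    (by rw [LinearMap.exact_iff, LinearMap.ker_rangeRestrict, Submodule.range_subtype])
  have h2 := Module.length_eq_add_of_exact (LinearMap.range f).subtype g
    (Submodule.subtype_injective _) hg
    (by rw [LinearMap.exact_iff, Submodule.range_subtype]; exact LinearMap.exact_iff.1 h)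
  rw [h1, add_comm] at h2
  exact WithTop.add_left_cancel Module.length_ne_top h2

omit [IsDomain R] [IsPrincipalIdealRing R] in
lemma tc_tors_of_smul (hr : Red ev ε) {z : A} (h : ε • z ∈ Submodule.torsion R A) :
    z ∈ Submodule.torsion R A := by
  obtain ⟨c, hc⟩ := h
  have hε : ε ∈ nonZeroDivisors R :=
    mem_nonZeroDivisors_iff.2 ⟨hr.reg, fun r h => hr.reg r (by rw [mul_comm]; exact h)⟩
  refine ⟨c * ⟨ε, hε⟩, ?_⟩
  rw [mul_smul]
  exact hc

/-- torsion count -/
theorem tc (hr : Red ev ε) [Module.Finite R A'] [FiniteDimensional k a] (red : A →ₛₗ[ev] a)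
    (red' : A' →ₛₗ[ev] a') (β : a →+ A') (hs : ∀ r x, β (ev r • x) = r • β x)
    (hk : ∀ x, β x = 0 ↔ ∃ y, x = red y) (hr' : ∀ y, ε • y = 0 ↔ ∃ x, y = β x)
    (hk' : ∀ y, red' y = 0 ↔ ∃ z, y = ε • z) :
    finrank k (imT red') + finrank k (imI red) = finrank k a := by
  let : Algebra R k := ev.toAlgebra
  let : Module R a := Module.compHom a ev
  let : Module R a' := Module.compHom a' ev
  have : IsScalarTower R k a := ⟨fun r c x => mul_smul (ev r) c x⟩
  have : IsScalarTower R k a' := ⟨fun r c x => mul_smul (ev r) c x⟩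
  have hsu : Function.Surjective (algebraMap R k) := hr.surj
  set T := Submodule.torsion R A' with hT
  have : IsNoetherian R T := inferInstance
  have : IsArtinian R T := tc_art Submodule.torsion_isTorsion
  let f : T →ₗ[R] T := ε • LinearMap.id
  let g : T →ₗ[R] imT red' :=
    { toFun := fun t => ⟨red' t, (mem_imT hr.surj red' _).2 ⟨t, t.2, rfl⟩⟩
      map_add' := fun x y => Subtype.ext (map_add red' _ _)
      map_smul' := fun r x => Subtype.ext (map_smulₛₗ red' r _) }
  have hg : Function.Surjective g := fun x => by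
    obtain ⟨y, hy, e⟩ := (mem_imT hr.surj red' _).1 x.2
    exact ⟨⟨y, hy⟩, Subtype.ext e.symm⟩
  have hfg : Function.Exact f g := fun t => by
    constructor
    · intro h
      obtain ⟨z, hz⟩ := (hk' t).1 (congrArg Subtype.val h)
      exact ⟨⟨z, tc_tors_of_smul hr (hz ▸ t.2)⟩, Subtype.ext hz.symm⟩
    · rintro ⟨z, rfl⟩
      exact Subtype.ext ((hk' _).2 ⟨z, rfl⟩)
  have h1 := tc_len f g hg hfg
  have hβ : ∀ x, ε • β x = 0 := fun x => (hr' _).2 ⟨x, rfl⟩
  let b : a →ₗ[R] LinearMap.ker f :=
    { toFun := fun x => ⟨⟨β x, tc_tors_of_smul hr (by rw [hβ]; exact zero_mem _)⟩,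
        Subtype.ext (hβ x)⟩
      map_add' := fun x y => Subtype.ext (Subtype.ext (map_add β x y))
      map_smul' := fun r x => Subtype.ext (Subtype.ext (hs r x)) }
  have hb : Function.Surjective b := fun y => by
    obtain ⟨x, e⟩ := (hr' y.1.1).1 (congrArg Subtype.val y.2)
    exact ⟨x, Subtype.ext (Subtype.ext e.symm)⟩
  have hex : Function.Exact ((imI red).subtype.restrictScalars R) b := fun x => by
    constructor
    · intro h
      have : β x = 0 := congrArg (fun y : LinearMap.ker f => y.1.1) h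
      exact ⟨⟨x, (mem_imI hr.surj red x).2 ((hk x).1 this)⟩, rfl⟩
    · rintro ⟨y, rfl⟩
      exact Subtype.ext (Subtype.ext ((hk _).2 ((mem_imI hr.surj red _).1 y.2)))
  have h2 := Module.length_eq_add_of_exact _ b (Submodule.subtype_injective (imI red)) hb hex
  have : Module.Finite R (imT red') := Module.Finite.of_surjective g hg
  have : Module.Finite k (imT red') := Module.Finite.of_restrictScalars_finite R _ _
  rw [h1, Module.length_eq_of_surjective hsu, Module.length_eq_of_surjective hsu,
    Module.length_eq_of_surjective hsu, Module.length_eq_finrank, Module.length_eq_finrank,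
    Module.length_eq_finrank] at h2
  have h3 : finrank k a = finrank k (imI red) + finrank k (imT red') := by exact_mod_cast h2
  omega

theorem tc_tbasis (R A : Type) [CommRing R] [IsDomain R] [IsPrincipalIdealRing R]
    [AddCommGroup A] [Module R A] [Module.Finite R A] : ∃ (ρ : ℕ) (e : Fin ρ → A),
    (∀ x, ∃ c : Fin ρ → R, x - ∑ i, c i • e i ∈ Submodule.torsion R A) ∧
    ∀ c : Fin ρ → R, ∑ i, c i • e i ∈ Submodule.torsion R A → c = 0 := by
  set T := Submodule.torsion R A with hT
  let b := Module.finBasis R (A ⧸ T)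
  choose e he using fun i => T.mkQ_surjective (b i)
  have hsum : ∀ c : Fin _ → R, T.mkQ (∑ i, c i • e i) = ∑ i, c i • b i := fun c => by
    simp only [map_sum, map_smul, he]
  refine ⟨_, e, fun x => ⟨fun i => b.repr (T.mkQ x) i, ?_⟩, fun c hc => ?_⟩
  · rw [← Submodule.Quotient.mk_eq_zero, ← Submodule.mkQ_apply, map_sub, hsum, b.sum_repr,
      sub_self]
  · rw [← Submodule.Quotient.mk_eq_zero, ← Submodule.mkQ_apply, hsum] at hc
    exact funext (Fintype.linearIndependent_iff.1 b.linearIndependent c hc)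

/-- rank count -/
theorem rk (hr : Red ev ε) [Module.Finite R A] (red : A →ₛₗ[ev] a)
    (hk : ∀ y, red y = 0 ↔ ∃ z, y = ε • z) {φ : R →+* ℂ} (hφ : Function.Injective φ) {x : Type}
    [AddCommGroup x] [Module ℂ x] (u : A →ₛₗ[φ] x) (hu : Submodule.span ℂ (range u) = ⊤) :
    finrank ℂ x + finrank k (imT red) ≤ finrank k (imI red) := by
  obtain ⟨ρ, e, h1, h2⟩ := tc_tbasis R A
  have hut : ∀ t ∈ Submodule.torsion R A, u t = 0 := by
    rintro t ⟨c, hc⟩
    have h3 : φ c • u t = 0 := by
      rw [← map_smulₛₗ]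
      exact (congrArg u hc).trans (map_zero u)
    refine (smul_eq_zero.1 h3).resolve_left fun h4 => ?_
    exact nonZeroDivisors.coe_ne_zero c (hφ (h4.trans (map_zero φ).symm))
  have hx : finrank ℂ x ≤ ρ := by
    have hsp : Submodule.span ℂ (range fun i => u (e i)) = ⊤ := by
      rw [eq_top_iff, ← hu, Submodule.span_le]
      rintro _ ⟨y, rfl⟩
      obtain ⟨c, hc⟩ := h1 y
      have h3 := hut _ hc
      rw [map_sub, sub_eq_zero, map_sum] at h3
      rw [h3]
      refine Submodule.sum_mem _ fun i _ => ?_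
      rw [map_smulₛₗ]
      exact Submodule.smul_mem _ _ (Submodule.subset_span ⟨i, rfl⟩)
    simpa using finrank_le_of_span_eq_top hsp
  have : RingHomSurjective ev := ⟨hr.surj⟩
  let r' : A →ₛₗ[ev] imI red := red.codRestrict _ fun y => (mem_imI hr.surj red _).2 ⟨y, rfl⟩
  have hr's : Function.Surjective r' := fun y => by
    obtain ⟨z, hz⟩ := (mem_imI hr.surj red _).1 y.2
    exact ⟨z, Subtype.ext hz.symm⟩
  have : Module.Finite k (imI red) := Module.Finite.of_surjective r' hr's
  have hle : imT red ≤ imI red := Submodule.span_mono (image_subset_range _ _)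
  have : Module.Finite k (imT red) :=
    Module.Finite.of_injective (Submodule.inclusion hle) (Submodule.inclusion_injective hle)
  let g : (Fin ρ → k) × imT red →ₗ[k] imI red :=
    (Fintype.linearCombination k fun i => r' (e i)).coprod (Submodule.inclusion hle)
  have hg : Function.Injective g := by
    rw [injective_iff_map_eq_zero]
    rintro ⟨c, t⟩ h
    choose c' hc' using fun i => hr.surj (c i)
    obtain ⟨t', ht', et⟩ := (mem_imT hr.surj red _).1 t.2
    have h3 : ∑ i, c i • red (e i) + t.1 = 0 := by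
      have := congrArg Subtype.val h
      simpa [g, r', Fintype.linearCombination_apply] using this
    have h4 : red (∑ i, c' i • e i + t') = 0 := by
      rw [map_add, map_sum, ← et, ← h3]
      simp only [map_smulₛₗ, hc']
    obtain ⟨z, hz⟩ := (hk _).1 h4
    obtain ⟨d, hd⟩ := h1 z
    have h5 : ∑ i, (c' i - ε * d i) • e i ∈ Submodule.torsion R A := by
      have e5 : ∑ i, (c' i - ε * d i) • e i = ε • (z - ∑ i, d i • e i) - t' := by
        simp only [sub_smul, Finset.sum_sub_distrib, smul_sub, ← hz, Finset.smul_sum, mul_smul]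
        abel
      rw [e5]
      exact sub_mem (Submodule.smul_mem _ _ hd) ht'
    have h6 : c = 0 := funext fun i => by
      have h7 : c' i - ε * d i = 0 := congrFun (h2 _ h5) i
      rw [← hc' i]
      exact (hr.ker _).2 ⟨d i, sub_eq_zero.1 h7⟩
    subst h6
    have h8 : t.1 = 0 := by simpa using h3
    exact Prod.ext rfl (Subtype.ext h8)
  have h9 := LinearMap.finrank_le_finrank_of_injective hg
  rw [Module.finrank_prod, Module.finrank_fin_fun] at h9
  omega

/-- a basis modulo torsion -/
theorem exists_tbasis (R A : Type) [CommRing R] [IsDomain R] [IsPrincipalIdealRing R]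
    [AddCommGroup A] [Module R A] [Module.Finite R A] : ∃ (ρ : ℕ) (e : Fin ρ → A),
    (∀ x, ∃ c : Fin ρ → R, x - ∑ i, c i • e i ∈ Submodule.torsion R A) ∧
    ∀ c : Fin ρ → R, ∑ i, c i • e i ∈ Submodule.torsion R A → c = 0 :=
  tc_tbasis R A

/-- the annihilator is as small as it can be -/
theorem ti {a₁ a₂ b₂ b₃ : Type} [AddCommGroup a₁] [Module k a₁] [AddCommGroup a₂] [Module k a₂]
    [AddCommGroup b₂] [Module k b₂] [AddCommGroup b₃] [Module k b₃] [FiniteDimensional k a₁]
    [FiniteDimensional k a₂] [FiniteDimensional k b₂] [FiniteDimensional k b₃]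
    {p₂ : a₂ →ₗ[k] b₂ →ₗ[k] k} {p₁ : a₁ →ₗ[k] b₃ →ₗ[k] k} (h₂ : Function.Bijective p₂)
    (h₁ : Function.Bijective p₁) {I₁ : Submodule k a₁} {T₂ : Submodule k a₂} {I₂ : Submodule k b₂}
    {T₃ : Submodule k b₃} (o₂ : ∀ x ∈ T₂, ∀ y ∈ I₂, p₂ x y = 0)
    (o₁ : ∀ x ∈ I₁, ∀ y ∈ T₃, p₁ x y = 0) (d₁ : finrank k T₂ + finrank k I₁ = finrank k a₁)
    (d₂ : finrank k T₃ + finrank k I₂ = finrank k b₂) (x : a₂) (hx : ∀ y ∈ I₂, p₂ x y = 0) :
    x ∈ T₂ := by
  let e₂ := LinearEquiv.ofBijective p₂ h₂
  let e₁ := LinearEquiv.ofBijective p₁ h₁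
  have l₂ : T₂.map (e₂ : a₂ →ₗ[k] Module.Dual k b₂) ≤ I₂.dualAnnihilator := by
    rintro _ ⟨y, hy, rfl⟩
    exact (Submodule.mem_dualAnnihilator _).2 (o₂ y hy)
  have l₁ : I₁.map (e₁ : a₁ →ₗ[k] Module.Dual k b₃) ≤ T₃.dualAnnihilator := by
    rintro _ ⟨y, hy, rfl⟩
    exact (Submodule.mem_dualAnnihilator _).2 (o₁ y hy)
  have f₂ := Subspace.finrank_add_finrank_dualAnnihilator_eq I₂
  have f₁ := Subspace.finrank_add_finrank_dualAnnihilator_eq T₃
  have g₁ : finrank k I₁ ≤ finrank k T₃.dualAnnihilator :=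
    (LinearEquiv.finrank_map_eq e₁ I₁).symm.trans_le (Submodule.finrank_mono l₁)
  have g₂ : finrank k a₁ = finrank k b₃ := e₁.finrank_eq.trans Subspace.dual_finrank_eq
  have g₃ : finrank k I₂.dualAnnihilator ≤ finrank k T₂ := by linarith
  have heq := Submodule.eq_of_le_of_finrank_le l₂
    (g₃.trans_eq (LinearEquiv.finrank_map_eq e₂ T₂).symm)
  have hx' : p₂ x ∈ I₂.dualAnnihilator := (Submodule.mem_dualAnnihilator _).2 hx
  rw [← heq] at hx'
  obtain ⟨y, hy, e⟩ := hx'
  exact h₂.1 e ▸ hy

end Pool.Agent.P.MP_3d25f3_gt
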