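import Pool.Agent.P.MP_3d25f3_gt.XM
import Pool.Agent.P.MP_3d25f3_gt.Rings
import Pool.Agent.P.MP_3d25f3_gt.Tc
import Pool.Agent.P.MP_3d25f3_gt.Res
import Pool.Agent.P.MP_3d25f3_gt.AnnA

set_option autoImplicit false

open Set Filter Topology

namespace Pool.Agent.P.MP_3d25f3_gt

open Module

variable {X Y N : Set E4} {n : E4 → E4 → ℤ}

lemma hev (ω : ℂˣ) (n : E4 → E4 → ℤ) : ∀ x y, evL ω (tw tL n x y) = tw ω n x y :=
  tw_map _ (evL_t ω) n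

lemma hev' (ω : ℂˣ) (n : E4 → E4 → ℤ) : ∀ x y, evL ω (tw tL⁻¹ n x y) = tw ω⁻¹ n x y :=
  tw_map _ (evL_t_inv ω) n

lemma hsg (n : E4 → E4 → ℤ) : ∀ x y, sgL (tw tL n x y) = tw tL⁻¹ n x y := tw_map _ sgL_t n

lemma hsg' (n : E4 → E4 → ℤ) : ∀ x y, sgL (tw tL⁻¹ n x y) = tw tL n x y := tw_map _ sgL_t_inv n

lemma hcj {Z : Type} {ω : ℂˣ} (hω : ‖(ω : ℂ)‖ = 1) (n : Z → Z → ℤ) :
    ∀ x y, starRingEnd ℂ (tw ω n x y) = tw ω⁻¹ n x y := tw_map _ (conj_unit hω) n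

/-- a side with an integer cocycle on an open neighbourhood -/
structure XN (X Y N : Set E4) (n : E4 → E4 → ℤ) : Prop where
  xy : XY X Y
  op : IsOpen N
  sub : X ⊆ N
  coc : CocZ n N

lemma XN.good (h : XN X Y N n) {R : Type} [CommRing R] (t : Rˣ) : Good (tw t n) (tw t⁻¹ n) N :=
  good_tw h.op h.coc t

lemma XN.cocX (h : XN X Y N n) {R : Type} [CommRing R] (t : Rˣ) : Coc (tw t n) X :=
  (h.good t).coc.mono h.sub

lemma XN.ok (h : XN X Y N n) {R : Type} [CommRing R] (t : Rˣ) :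
    POK (tw t n) (tw t⁻¹ n) (Out 4) univ Y X ∅ := h.xy.ok (h.good t) h.sub

/-- the sesquilinear pairing over the Laurent ring -/
noncomputable def lamL (h : XN X Y N n) :
    H (tw tL n) 2 univ Y →ₗ[La] H (tw tL n) 2 X ∅ →ₛₗ[sgL] La :=
  (pair (h.ok tL) (i := 2) (j := 2) rfl).compl₂ (cmap sgL (hsg n) 2 X ∅)

noncomputable def pbL (h : XN X Y N n) {ω : ℂˣ} (hω : ‖(ω : ℂ)‖ = 1) :
    H (tw ω n) 2 univ Y →ₗ[ℂ] H (tw tL n) 2 X ∅ →+ ℂ where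
  toFun x := ((pair (h.ok ω) (i := 2) (j := 2) rfl x).toAddMonoidHom.comp
    (cmap (starRingEnd ℂ) (hcj hω n) 2 X ∅).toAddMonoidHom).comp
      (cmap (evL ω) (hev ω n) 2 X ∅).toAddMonoidHom
  map_add' x y := by ext b; simp
  map_smul' c x := by ext b; simp

lemma pbL_apply (h : XN X Y N n) {ω : ℂˣ} (hω : ‖(ω : ℂ)‖ = 1) (x : H (tw ω n) 2 univ Y)
    (b : H (tw tL n) 2 X ∅) : pbL h hω x b = pair (h.ok ω) (i := 2) (j := 2) rfl x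
      (cmap (starRingEnd ℂ) (hcj hω n) 2 X ∅ (cmap (evL ω) (hev ω n) 2 X ∅ b)) := rfl

/-- `W` is the triple product form on the hypersurface -/
def IsW (h : XY X Y) (ω : ℂˣ) (n : E4 → E4 → ℤ) (W : SF (H (tw ω n) 1 (X ∩ Y) ∅)) : Prop :=
  ∀ v hv v' hv', ∃ hw, W (cl v hv) (cl v' hv') = intM ℂ h (cl (wf ω n v v') hw)

end Pool.Agent.P.MP_3d25f3_gt
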