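import Pool.Agent.P.MP_3d25f3_gt.Mod
import Pool.Agent.P.MP_3d25f3_gt.Alg

set_option autoImplicit false

open Set Filter Topology

namespace Pool.Agent.P.MP_3d25f3_gt

variable {g : ℕ} {S : List (ℕ × ℤ)}

lemma fib_nhds (L : ℕ) (u : ℝ) :
    𝓝 (u : AddCircle (L : ℝ)) = map (fun w : ℝ => (w : AddCircle (L : ℝ))) (𝓝 u) :=
  (QuotientAddGroup.isOpenMap_coe.map_nhds_eq (AddCircle.continuous_mk' _).continuousAt).symm

lemma fib_key {L : ℕ} {j j' : ℕ} (hj : j < L) (hj' : j' < L) {s s' : ℝ} (hs : s ∈ Ioo (0 : ℝ) 1)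
    (hs' : s' ∈ Icc (0 : ℝ) 1) {k : ℤ} (h : (j' : ℝ) + s' = j + s + k * L) : j = j' ∧ s = s' := by
  have h1 : ((j + k * L - j' : ℤ) : ℝ) = s' - s := by push_cast; linarith
  have h2 : (j + k * L - j' : ℤ) < 1 := by
    have : ((j + k * L - j' : ℤ) : ℝ) < 1 := by rw [h1]; linarith [hs.1, hs'.2]
    exact_mod_cast this
  have h3 : (-1 : ℤ) < j + k * L - j' := by
    have : (-1 : ℝ) < ((j + k * L - j' : ℤ) : ℝ) := by rw [h1]; linarith [hs.2, hs'.1]
    exact_mod_cast this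
  have h4 : (j + k * L - j' : ℤ) = 0 := by omega
  have h5 : (j : ℤ) < L := by exact_mod_cast hj
  have h6 : (j' : ℤ) < L := by exact_mod_cast hj'
  have h7 : k = 0 := by
    rcases lt_trichotomy k 0 with hk | hk | hk
    · nlinarith
    · exact hk
    · nlinarith
  rw [h4] at h1
  rw [h7] at h4
  exact ⟨by omega, by simpa [eq_comm, sub_eq_zero] using h1⟩

lemma fib_key' {j j' : ℕ} (hj : j < LL g S) (hj' : j' < LL g S) {s s' : ℝ}
    (hs : s ∈ Ioo (0 : ℝ) 1) (hs' : s' ∈ Icc (0 : ℝ) 1)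
    (h : bp (LL g S) (j' + s') = bp (LL g S) (j + s)) : j = j' ∧ s = s' := by
  obtain ⟨k, hk⟩ := (bp_eq_iff (NeZero.ne _) _ _).1 h.symm
  exact fib_key hj hj' hs hs' hk

lemma fib_lt {e : ℕ} (he : e < NE g S) : st g e < LL g S := by
  have := st_le (g := g) (S := S) he
  have := wd_ge (g := g) e
  omega

lemma fib_lt' {e : ℕ} (he : e < NE g S) : st g e + wd g e - 1 < LL g S := by
  have := st_le (g := g) (S := S) he
  have := wd_ge (g := g) e
  omega

lemma fib_cast (e : ℕ) (s : ℝ) :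
    (st g e : ℝ) + wd g e - s = ((st g e + wd g e - 1 : ℕ) : ℝ) + (1 - s) := by
  have := wd_ge (g := g) e
  rw [Nat.cast_sub (by omega)]
  push_cast
  ring

/-- rounding, downwards at the midpoints of the first arcs -/
lemma fib_round (g : ℕ) (S : List (ℕ × ℤ)) : ∃ r : ℝ → ℤ, (∀ u, r (u + LL g S) = r u + LL g S) ∧
    (∀ (k : ℤ) (u : ℝ), k - 1 / 2 < u → u < k + 1 / 2 → r u = k) ∧
    (∀ e < NE g S, r (st g e + 1 / 2) = st g e) ∧
    ∀ e < NE g S, r (st g e + wd g e - 1 / 2) = st g e + wd g e := by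
  classical
  let p : ℝ → Prop := fun u => ∃ e < NE g S, ∃ k : ℤ, u = st g e + 1 / 2 + k * LL g S
  refine ⟨fun u => if p u then ⌈u - 1 / 2⌉ else ⌊u + 1 / 2⌋, fun u => ?_, fun k u h1 h2 => ?_,
    fun e he => ?_, fun e he => ?_⟩
  · have hp : p (u + LL g S) ↔ p u := by
      constructor
      · rintro ⟨e, he, k, hk⟩
        exact ⟨e, he, k - 1, by push_cast; linarith⟩
      · rintro ⟨e, he, k, hk⟩
        exact ⟨e, he, k + 1, by push_cast; linarith⟩
    simp only [hp]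
    split_ifs
    · rw [add_sub_right_comm, Int.ceil_add_natCast]
    · rw [add_right_comm, Int.floor_add_natCast]
  · simp only
    split_ifs
    · rw [Int.ceil_eq_iff]; constructor <;> linarith
    · rw [Int.floor_eq_iff]; constructor <;> linarith
  · simp only
    rw [if_pos ⟨e, he, 0, by simp⟩]
    simp
  · simp only
    rw [if_neg]
    · rw [sub_add_cancel, Int.floor_eq_iff]; constructor <;> push_cast <;> linarith
    · rintro ⟨e', he', k, hk⟩
      rw [fib_cast] at hk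
      have := (fib_key (fib_lt he') (fib_lt' he) ⟨by norm_num, by norm_num⟩
        ⟨by norm_num, by norm_num⟩ hk).1
      have h2 := wd_ge (g := g) e
      exact st_ne (g := g) e' e (by omega)

/-- a step function on the disc with given vertex values -/
lemma exists_step {ρ : ℕ → ℂ} {x : ZMod (LL g S) → ℂ} (hx : x ∈ Pol g S ρ) : ∃ E : Disc → ℂ,
    (∀ j : ℕ, E (bp (LL g S) j) = x j) ∧
    (∀ e < NE g S, ∀ s ∈ Icc (0 : ℝ) 1, E (bp (LL g S) (st g e + wd g e - s))
      = ρ e * E (bp (LL g S) (st g e + s)) + vv g ρ x e) ∧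
    ∀ u : ℝ, (∀ k : ℤ, u ≠ k + 1 / 2) → ∀ᶠ y in 𝓝 (bp (LL g S) u), E y = E (bp (LL g S) u) := by
  obtain ⟨r, r1, r2, r3, r4⟩ := fib_round g S
  obtain ⟨ang, a1, a2⟩ := exists_ang (L := LL g S) (NeZero.ne _)
  have hper : Function.Periodic (fun u => x (r u : ZMod (LL g S))) (LL g S : ℝ) := fun u => by
    simp [r1]
  have hE : ∀ u, hper.lift (ang (bp (LL g S) u)) = x (r u) := fun u => by
    rw [a2]; exact hper.lift_coe u
  refine ⟨fun y => hper.lift (ang y), fun j => ?_, fun e he s hs => ?_, fun u hu => ?_⟩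
  · simp only [hE]
    rw [r2 j j (by push_cast; linarith) (by push_cast; linarith)]
    simp
  · simp only [hE]
    have hw := wd_ge (g := g) e
    rcases lt_trichotomy s (1 / 2) with h | rfl | h
    · rw [r2 (st g e + wd g e) _ (by push_cast; linarith) (by push_cast; linarith [hs.1]),
        r2 (st g e) _ (by push_cast; linarith [hs.1]) (by push_cast; linarith), vv]
      push_cast
      ring
    · rw [r3 e he, r4 e he, vv]
      push_cast
      ring
    · rw [r2 (st g e + wd g e - 1) _ (by push_cast; linarith [hs.2]) (by push_cast; linarith),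
        r2 (st g e + 1) _ (by push_cast; linarith) (by push_cast; linarith [hs.2]), hx e he,
        Nat.cast_sub (by omega)]
      push_cast
      ring
  · have h1 : ∀ᶠ a in 𝓝 (u : AddCircle (LL g S : ℝ)), hper.lift a = x (r u) := by
      rw [fib_nhds, eventually_map]
      have l1 : (⌊u + 1 / 2⌋ : ℝ) - 1 / 2 < u := by
        refine lt_of_le_of_ne (by linarith [Int.floor_le (u + 1 / 2)]) fun h => ?_
        exact hu (⌊u + 1 / 2⌋ - 1) (by push_cast; linarith)
      have l2 : u < (⌊u + 1 / 2⌋ : ℝ) + 1 / 2 := by linarith [Int.lt_floor_add_one (u + 1 / 2)]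
      filter_upwards [Ioo_mem_nhds l1 l2] with w hw
      rw [r2 _ u l1 l2, ← r2 _ w hw.1 hw.2]
      exact hper.lift_coe w
    rw [← a2] at h1
    simpa only [hE] using (a1 u).eventually h1

lemma fib_int {a b : Solid} (h : pm g S a = pm g S b) (ha : ‖(a.1 : ℂ)‖ < 1) : a = b := by
  have hb : ∀ (y : Solid) (u : ℝ), y.1 = bp (LL g S) u → ¬ a = y := by
    rintro y u hy rfl
    rw [hy] at ha
    exact ha.ne (norm_bd _ _)
  obtain ⟨f, hf⟩ := desc_solid (g := g) (S := S) (fun y => a = y) fun e _ s _ z =>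
    propext (iff_of_false (hb _ _ rfl) (hb _ _ rfl))
  rw [← hf, ← h, hf]

lemma fib_bd {a b : Solid} (h : pm g S a = pm g S b) {u : ℝ} (hu : ∀ k : ℤ, u ≠ k + 1 / 2)
    (ha : a.1 = bp (LL g S) u) : ∃ u' : ℝ, (∀ k : ℤ, u' ≠ k + 1 / 2) ∧ b.1 = bp (LL g S) u' := by
  have hb : ∀ w : ℝ, (∃ u' : ℝ, (∀ k : ℤ, u' ≠ k + 1 / 2) ∧ bp (LL g S) w = bp (LL g S) u') ↔
      ∀ k : ℤ, w ≠ k + 1 / 2 := by
    refine fun w => ⟨?_, fun h => ⟨w, h, rfl⟩⟩
    rintro ⟨u', h1, h2⟩ k hk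
    obtain ⟨m, hm⟩ := (bp_eq_iff (NeZero.ne _) _ _).1 h2
    exact h1 (k + m * LL g S) (by push_cast; linarith)
  obtain ⟨f, hf⟩ := desc_solid (g := g) (S := S)
    (fun y => ∃ u' : ℝ, (∀ k : ℤ, u' ≠ k + 1 / 2) ∧ y.1 = bp (LL g S) u') fun e _ s _ z => by
      refine propext (((hb _).trans ?_).trans (hb _).symm)
      constructor
      · intro h k hk
        exact h (2 * st g e + wd g e - k - 1) (by push_cast; linarith)
      · intro h k hk
        exact h (2 * st g e + wd g e - k - 1) (by push_cast; linarith)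
  rw [← hf, ← h, hf]
  exact ⟨u, hu, ha⟩

lemma fib_arc {e : ℕ} (he : e < NE g S) {s : ℝ} (hs : s ∈ Ioo (0 : ℝ) 1) (z : ℝ) {b : Solid}
    (h : pm g S b = pp g S (ga g S e s z)) : b = pc (ga g S e s z) ∨ b = pc (gb g S e s z) := by
  have hs1 : 1 - s ∈ Ioo (0 : ℝ) 1 := ⟨by linarith [hs.2], by linarith [hs.1]⟩
  have hw := wd_ge (g := g) e
  obtain ⟨f, hf⟩ := desc_solid (g := g) (S := S)
    (fun y => y = pc (ga g S e s z) ∨ y = pc (gb g S e s z)) fun e' he' s' hs' z' => by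
      have hs1' : 1 - s' ∈ Icc (0 : ℝ) 1 := ⟨by linarith [hs'.2], by linarith [hs'.1]⟩
      have hw' := wd_ge (g := g) e'
      simp only [pc_eq_iff, ga, gb, fib_cast, eq_iff_iff]
      constructor
      · rintro (⟨h1, -⟩ | ⟨h1, k, hk⟩)
        · have := (fib_key' (fib_lt he) (fib_lt' he') hs hs1' h1).1
          exact absurd (by omega) (st_ne (g := g) e e')
        · obtain ⟨h2, h3⟩ := fib_key' (fib_lt' he) (fib_lt' he') hs1 hs1' h1
          obtain rfl : e = e' := st_inj' (g := g) (by omega)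
          obtain rfl : s = s' := by linarith
          exact Or.inl ⟨rfl, k, by linarith⟩
      · rintro (⟨h1, k, hk⟩ | ⟨h1, -⟩)
        · obtain ⟨h2, rfl⟩ := fib_key' (fib_lt he) (fib_lt he') hs hs' h1
          obtain rfl : e = e' := st_inj (g := g) h2
          exact Or.inr ⟨rfl, k, by linarith⟩
        · have := (fib_key' (fib_lt' he) (fib_lt he') hs1 hs' h1).1
          exact absurd (by omega) (st_ne (g := g) e' e)
  rw [← hf, h, pp, hf]
  exact Or.inl rfl

/-- near the middle of an arc the boundary points lie on that arc -/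
lemma near_mid (j : ℕ) {J : Set ℝ} (hJ : J ∈ 𝓝 (1 / 2 : ℝ)) :
    ∀ᶠ y : Disc in 𝓝 (bp (LL g S) (j + 1 / 2)),
      ‖(y : ℂ)‖ < 1 ∨ ∃ s ∈ J ∩ Ioo (0 : ℝ) 1, y = bp (LL g S) (j + s) := by
  obtain ⟨ang, a1, a2⟩ := exists_ang (L := LL g S) (NeZero.ne _)
  have h1 : ∀ᶠ a in 𝓝 (((j + 1 / 2 : ℝ)) : AddCircle (LL g S : ℝ)),
      ∃ s ∈ J ∩ Ioo (0 : ℝ) 1, a = ((j + s : ℝ) : AddCircle (LL g S : ℝ)) := by
    rw [fib_nhds, eventually_map]
    have h2 : (fun w : ℝ => w - j) ⁻¹' (J ∩ Ioo (0 : ℝ) 1) ∈ 𝓝 ((j : ℝ) + 1 / 2) := by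
      refine ContinuousAt.preimage_mem_nhds (by fun_prop) ?_
      rw [add_sub_cancel_left]
      exact inter_mem hJ (Ioo_mem_nhds (by norm_num) (by norm_num))
    filter_upwards [h2] with w hw
    exact ⟨w - j, hw, by rw [add_sub_cancel]⟩
  rw [← a2] at h1
  filter_upwards [(a1 _).eventually h1] with y hy
  have hy1 : ‖(y : ℂ)‖ ≤ 1 := mem_closedBall_zero_iff.1 y.2
  refine hy1.lt_or_eq.imp id fun hy2 => ?_
  obtain ⟨w, -, rfl⟩ := exists_bp (L := LL g S) (NeZero.ne _) hy2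
  obtain ⟨s, hs, h3⟩ := hy
  refine ⟨s, hs, (bp_eq_iff (NeZero.ne _) _ _).2 ?_⟩
  rw [a2] at h3
  obtain ⟨k, hk⟩ := AddSubgroup.mem_zmultiples_iff.1 (QuotientAddGroup.eq.1 h3)
  exact ⟨k, by rw [zsmul_eq_mul] at hk; linarith⟩

end Pool.Agent.P.MP_3d25f3_gt
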