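import Pool.Agent.P.MP_3d25f3_gt.NtB

set_option autoImplicit false

open Set Filter Topology

namespace Pool.Agent.P.MP_3d25f3_gt

lemma ntc_perm {S T : List (ℕ × ℤ)} (h : S.Perm T) : Relation.EqvGen Move S T :=
  .rel _ _ (Or.inr (Or.inr h))

lemma ntc_one (S : List (ℕ × ℤ)) : Relation.EqvGen Move S ((1, 0) :: S) := .rel _ _ (Or.inl rfl)

lemma ntc_cons (p : ℕ × ℤ) {S T : List (ℕ × ℤ)} (h : Relation.EqvGen Move S T) :
    Relation.EqvGen Move (p :: S) (p :: T) := by
  induction h with
  | rel S T h =>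
    rcases h with rfl | ⟨c, h1, h2, rfl⟩ | h
    · exact .trans _ _ _ (ntc_one _) (ntc_perm (List.Perm.swap _ _ _))
    · exact .rel _ _ (Or.inr (Or.inl ⟨0 :: c, by simp [h1], by simp [h2], by simp⟩))
    · exact ntc_perm (h.cons p)
  | refl S => exact .refl _
  | symm S T _ ih => exact .symm _ _ ih
  | trans S T U _ _ ih ih' => exact .trans _ _ _ ih ih'

lemma ntc_zip (S : List (ℕ × ℤ)) : List.zipWith (fun (p : ℕ × ℤ) (c : ℤ) => (p.1, p.2 + c * p.1)) S
    (List.replicate S.length 0) = S := by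
  induction S with
  | nil => rfl
  | cons p S ih => simp [List.replicate_succ, ih]

lemma ntc_shift (a : ℕ) (b c d : ℤ) (S : List (ℕ × ℤ)) :
    Relation.EqvGen Move ((a, b + d * a) :: (1, c) :: S) ((a, b) :: (1, c + d) :: S) :=
  .rel _ _ (Or.inr (Or.inl ⟨-d :: d :: List.replicate S.length 0, by simp, by simp,
    by simp [ntc_zip]⟩))

lemma ntc_symm_perm {S T : List (ℕ × ℤ)} (h : S.Perm T) (hS : Symm S) : Symm T :=
  fun a b => by rw [← h.countP_eq, ← h.countP_eq]; exact hS a b

lemma ntc_neg {a : ℕ} {x y : ℤ} : x ≡ -y [ZMOD a] ↔ -x ≡ y [ZMOD a] :=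
  ⟨fun h => by simpa using h.neg, fun h => by simpa using h.neg⟩

lemma ntc_symm_one {a : ℕ} {b : ℤ} {S : List (ℕ × ℤ)} (hb : -b ≡ b [ZMOD a])
    (h : Symm ((a, b) :: S)) : Symm S := by
  intro a₁ b₁
  have := h a₁ b₁
  simp only [List.countP_cons, decide_eq_true_eq] at this
  have e : (a = a₁ ∧ b ≡ b₁ [ZMOD a₁]) ↔ (a = a₁ ∧ b ≡ -b₁ [ZMOD a₁]) := by
    refine and_congr_right ?_
    rintro rfl
    rw [ntc_neg]
    exact ⟨fun h => hb.trans h, fun h => hb.symm.trans h⟩
  simp only [e] at this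
  omega

lemma ntc_symm_two {a : ℕ} {b b' : ℤ} {S : List (ℕ × ℤ)} (hb : b' ≡ -b [ZMOD a])
    (h : Symm ((a, b) :: (a, b') :: S)) : Symm S := by
  intro a₁ b₁
  have := h a₁ b₁
  simp only [List.countP_cons, decide_eq_true_eq] at this
  have e : (a = a₁ ∧ b' ≡ b₁ [ZMOD a₁]) ↔ (a = a₁ ∧ b ≡ -b₁ [ZMOD a₁]) := by
    refine and_congr_right ?_
    rintro rfl
    rw [ntc_neg]
    exact ⟨fun h => hb.symm.trans h, fun h => hb.trans h⟩
  have e' : (a = a₁ ∧ b' ≡ -b₁ [ZMOD a₁]) ↔ (a = a₁ ∧ b ≡ b₁ [ZMOD a₁]) := by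
    refine and_congr_right ?_
    rintro rfl
    exact ⟨fun h => by simpa using (hb.symm.trans h).neg, fun h => hb.trans h.neg⟩
  simp only [e, e'] at this
  omega

lemma ntc_main (n : ℕ) : ∀ S : List (ℕ × ℤ), S.length ≤ n →
    (∀ p ∈ S, 1 ≤ p.1 ∧ Int.gcd p.1 p.2 = 1) → Symm S →
    ∃ (P ε : List (ℕ × ℤ)) (c : ℤ), (ε = [] ∨ ε = [(2, 1)]) ∧
      Relation.EqvGen Move S ((1, c) :: (ε ++ P.flatMap fun p => [p, (p.1, -p.2)])) ∧
      (S.map fun p => (p.2 : ℚ) / p.1).sum = c + ε.length / 2 := by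
  induction n with
  | zero =>
    intro S hl _ _
    obtain rfl : S = [] := List.length_eq_zero_iff.1 (by omega)
    exact ⟨[], [], 0, Or.inl rfl, ntc_one _, by simp⟩
  | succ n ih =>
    intro S hl hd hs
    match S, hl, hd, hs with
    | [], _, _, _ => exact ⟨[], [], 0, Or.inl rfl, ntc_one _, by simp⟩
    | (a, b) :: S, hl, hd, hs =>
      obtain ⟨ha, hg⟩ := hd (a, b) List.mem_cons_self
      simp only at ha hg
      have hd' : ∀ p ∈ S, 1 ≤ p.1 ∧ Int.gcd p.1 p.2 = 1 := fun p hp =>
        hd p (List.mem_cons_of_mem _ hp)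
      simp only [List.length_cons] at hl
      by_cases hb : -b ≡ b [ZMOD a]
      · obtain ⟨P, ε, c, hε, hE, he⟩ := ih S (by omega) hd' (ntc_symm_one hb hs)
        have h2 : a ∣ 2 := by
          have h1 : (a : ℤ) ∣ 2 * b := by
            have := hb.dvd
            rwa [sub_neg_eq_add, ← two_mul] at this
          have := (Int.isCoprime_iff_gcd_eq_one.2 hg).dvd_of_dvd_mul_right h1
          exact_mod_cast this
        have hE' := ntc_cons (a, b) hE
        rcases (Nat.dvd_prime Nat.prime_two).1 h2 with rfl | rfl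
        · refine ⟨P, ε, c + b, hε, .trans _ _ _ hE' (.trans _ _ _ ?_ (.symm _ _ (ntc_one _))), ?_⟩
          · simpa using ntc_shift 1 0 c b _
          · simp [he]; ring
        · obtain ⟨d, rfl⟩ : Odd b := by
            by_contra ho
            have h3 : ((2 : ℕ) : ℤ) ∣ b := by
              simpa using even_iff_two_dvd.1 (Int.not_odd_iff_even.1 ho)
            have := Int.dvd_gcd (dvd_refl ((2 : ℕ) : ℤ)) h3
            rw [hg] at this
            omega
          rcases hε with rfl | rfl
          · refine ⟨P, [(2, 1)], c + d, Or.inr rfl,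
              .trans _ _ _ hE' (.trans _ _ _ ?_ (ntc_perm (List.Perm.swap _ _ _))), ?_⟩
            · rw [show 2 * d + 1 = 1 + d * (2 : ℕ) by push_cast; ring]
              exact ntc_shift 2 1 c d _
            · simp [he]; ring
          · refine ⟨(2, -1) :: P, [], c + (d + 1), Or.inl rfl,
              .trans _ _ _ hE' (.trans _ _ _ ?_ (ntc_perm (List.Perm.swap _ _ _))), ?_⟩
            · rw [show 2 * d + 1 = -1 + (d + 1) * (2 : ℕ) by push_cast; ring]
              exact ntc_shift 2 (-1) c (d + 1) _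
            · simp [he]; ring
      · have h1 := hs a b
        have h2 : 0 < ((a, b) :: S).countP fun q => q.1 = a ∧ q.2 ≡ b [ZMOD a] :=
          List.countP_pos_iff.2 ⟨(a, b), List.mem_cons_self, by simp⟩
        rw [h1] at h2
        obtain ⟨⟨a', b'⟩, hq, hq'⟩ := List.countP_pos_iff.1 h2
        simp only [decide_eq_true_eq] at hq'
        obtain ⟨rfl, hq'⟩ := hq'
        have hqS : (a', b') ∈ S := by
          rcases List.mem_cons.1 hq with h3 | h3
          · obtain rfl : b' = b := congrArg Prod.snd h3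
            exact absurd hq'.symm hb
          · exact h3
        have hp := List.perm_cons_erase hqS
        have hlen := hp.length_eq
        simp only [List.length_cons] at hlen
        obtain ⟨P, ε, c, hε, hE, he⟩ := ih (S.erase (a', b')) (by omega)
          (fun p hp => hd' p (List.mem_of_mem_erase hp))
          (ntc_symm_two hq' (ntc_symm_perm (hp.cons _) hs))
        obtain ⟨d, hd⟩ := hq'.symm.dvd
        obtain rfl : b' = -b + d * a' := by linear_combination hd
        refine ⟨(a', b) :: P, ε, c + d, hε, .trans _ _ _ (ntc_perm (hp.cons _))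
          (.trans _ _ _ (ntc_cons _ (ntc_cons _ hE)) (.trans _ _ _
            (ntc_cons _ (ntc_shift a' (-b) c d _)) (ntc_perm ?_))), ?_⟩
        · rw [List.flatMap_cons]
          refine ((List.Perm.swap _ _ _).cons _).trans ((List.Perm.swap _ _ _).trans
            (List.Perm.cons _ ?_))
          exact (List.perm_append_comm_assoc [(a', b), (a', -b)] ε _)
        · have ha' : (a' : ℚ) ≠ 0 := Nat.cast_ne_zero.2 (by omega)
          rw [List.map_cons, List.sum_cons, (hp.map _).sum_eq, List.map_cons, List.sum_cons, he]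
          push_cast
          field_simp
          ring

theorem skew_of_symm {S : List (ℕ × ℤ)} (hS : Data S) (h : Symm S) : Skew S := by
  obtain ⟨P, ε, c, hε, hE, he⟩ := ntc_main S.length S le_rfl hS.1 h
  rw [hS.2] at he
  rcases hε with rfl | rfl
  · obtain rfl : c = 0 := by simpa using he.symm
    exact ⟨P, .trans _ _ _ hE (.symm _ _ (ntc_one _))⟩
  · exfalso
    have : ((2 * c + 1 : ℤ) : ℚ) = 0 := by
      simp only [List.length_singleton] at he
      push_cast at he ⊢
      linarith
    have : 2 * c + 1 = 0 := by exact_mod_cast this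
    omega

end Pool.Agent.P.MP_3d25f3_gt
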