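import Pool.Agent.P.MP_3d25f3_gt.Core
import Pool.Agent.P.MP_3d25f3_gt.NtC

set_option autoImplicit false

open Set Filter Topology

namespace Pool.Agent.P.MP_3d25f3_gt

theorem genus_zero {S : List (ℕ × ℤ)} (hS : Data S) (h : EmbedsFlat (Seifert 0 S)) : Skew S :=
  skew_of_symm hS (symm_of_jmp hS (jmp_zero_of_genus fun k => by simpa using genus_bound hS h k))

theorem prime_power {g : ℕ} {S : List (ℕ × ℤ)} (hS : Data S)
    (h1 : ∀ q ∈ S, q.1 = 1 ∨ IsPrimePow q.1)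
    (h2 : ∀ q ∈ S, ∀ q' ∈ S, q.1 = q'.1 ∨ q.1.Coprime q'.1) (h : EmbedsFlat (Seifert g S)) :
    Skew S :=
  skew_of_symm hS (symm_of_jmp hS (jmp_zero_of_pp h1 h2 (pp_bound hS h)))

end Pool.Agent.P.MP_3d25f3_gt
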