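import Pool.Agent.P.MP_3d25f3_gt.Intg

set_option autoImplicit false

open Set Filter Topology

namespace Pool.Agent.P.MP_3d25f3_gt

variable {k : Type} [Field k] {τ τ' : E4 → E4 → k} {A A' K K' : Set E4}

lemma Dual.congr {B B' L L' : Set E4} {ok : POK τ τ' (Out 4) A A' K K'}
    (ok' : POK τ τ' (Out 4) B B' L L') (h1 : A = B) (h2 : A' = B') (h3 : K = L) (h4 : K' = L')
    (h : Dual ok) : Dual ok' := by
  subst h1 h2 h3 h4; exact h

lemma pair_res_res {i j : ℕ} (h : i + j = 4) {B B' L L' : Set E4} (ok : POK τ τ' (Out 4) A A' K K')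
    (ok' : POK τ τ' (Out 4) B B' L L') (h1 : B ⊆ A) (h2 : B' ⊆ A') (h3 : K ⊆ L) (h4 : K' ⊆ L')
    (a : H τ i A A') (b : H τ' j L L') :
    pair ok' h (res τ i h1 h2 a) b = pair ok h a (res τ' j h3 h4 b) := by
  obtain ⟨a, ha, rfl⟩ := cl_surj a
  obtain ⟨b, hb, rfl⟩ := cl_surj b
  rfl

lemma pair_del_del {i j : ℕ} (h : i + 1 + j = 4) (h' : i + (j + 1) = 4)
    (ok1 : POK τ τ' (Out 4) univ A K' ∅) (ok3 : POK τ τ' (Out 4) A A' K K')
    (hτ : Coc τ (univ \ A')) (hτ' : Coc τ' (K \ ∅)) (a : H τ i A A') (b : H τ' j K' ∅) :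
    pair ok1 h (del i hτ a) b = (-1) ^ (i + 1) * pair ok3 h' a (del j hτ' b) := by
  obtain ⟨a, ha, rfl⟩ := cl_surj a
  obtain ⟨b, hb, rfl⟩ := cl_surj b
  have ha' : D τ a ∈ Zc τ (i + 1) univ A := ⟨ha.2, DD_Null (k := i + 1) hτ ha.1⟩
  have hb' : D τ' b ∈ Zc τ' (j + 1) K K' := ⟨hb.2, DD_Null (k := j + 1) hτ' hb.1⟩
  change intg k (cl _ (cup_Zc ok1 h ha' hb)) = (-1) ^ (i + 1) * intg k (cl _ (cup_Zc ok3 h' ha hb'))
  rw [← smul_eq_mul, ← map_smul, ← cl_smul]
  refine congrArg _ ((cl_eq _ _).2 ?_)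
  have := cup_del ok3 (i := i) (j := j) (k := 4) (by omega) (b := b) ha.1
  rwa [pow_succ, mul_neg_one, neg_smul, sub_neg_eq_add]

section alg
variable {V1 V2 V3 V4 W1 W2 W3 W4 : Type} [AddCommGroup V1] [AddCommGroup V2] [AddCommGroup V3]
  [AddCommGroup V4] [AddCommGroup W1] [AddCommGroup W2] [AddCommGroup W3] [AddCommGroup W4]
  [Module k V1] [Module k V2] [Module k V3] [Module k V4] [Module k W1] [Module k W2]
  [Module k W3] [Module k W4]

lemma five_dual {g2 : W3 →ₗ[k] W2} {g1 : W2 →ₗ[k] W1} (h : Function.Exact g2 g1) {s1 s2 : k}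
    (h1 : s1 ≠ 0) (h2 : s2 ≠ 0) : Function.Exact (s1 • g1).dualMap (s2 • g2).dualMap := by
  rw [LinearMap.exact_iff] at h ⊢
  rw [LinearMap.ker_dualMap_eq_dualAnnihilator_range,
    LinearMap.range_dualMap_eq_dualAnnihilator_ker, LinearMap.range_smul _ _ h2,
    LinearMap.ker_smul _ _ h1, h]

lemma five_sq {f : V1 →ₗ[k] V2} {g : W2 →ₗ[k] W1} {p1 : V1 →ₗ[k] W1 →ₗ[k] k}
    {p2 : V2 →ₗ[k] W2 →ₗ[k] k} {s : k} (c : ∀ x y, p2 (f x) y = s * p1 x (g y)) :
    (s • g).dualMap.comp p1 = p2.comp f := by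
  ext x y
  simp [c]

lemma five_inj {f1 : V1 →ₗ[k] V2} {f2 : V2 →ₗ[k] V3} {f3 : V3 →ₗ[k] V4} {g1 : W2 →ₗ[k] W1}
    {g2 : W3 →ₗ[k] W2} {g3 : W4 →ₗ[k] W3} {p1 : V1 →ₗ[k] W1 →ₗ[k] k} {p2 : V2 →ₗ[k] W2 →ₗ[k] k}
    {p3 : V3 →ₗ[k] W3 →ₗ[k] k} {p4 : V4 →ₗ[k] W4 →ₗ[k] k} {s1 s2 s3 : k} (h1 : s1 ≠ 0)
    (h2 : s2 ≠ 0) (c1 : ∀ x y, p2 (f1 x) y = s1 * p1 x (g1 y))
    (c2 : ∀ x y, p3 (f2 x) y = s2 * p2 x (g2 y)) (c3 : ∀ x y, p4 (f3 x) y = s3 * p3 x (g3 y))
    (e1 : Function.Exact f1 f2) (e2 : Function.Exact f2 f3) (e : Function.Exact g2 g1)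
    (b1 : Function.Surjective p1) (b2 : Function.Injective p2) (b4 : Function.Injective p4) :
    Function.Injective p3 :=
  LinearMap.injective_of_surjective_of_injective_of_injective f1 f2 f3 (s1 • g1).dualMap
    (s2 • g2).dualMap (s3 • g3).dualMap p1 p2 p3 p4 (five_sq c1) (five_sq c2) (five_sq c3) e1 e2
    (five_dual e h1 h2) b1 b2 b4

lemma five_surj {f1 : V1 →ₗ[k] V2} {f2 : V2 →ₗ[k] V3} {f3 : V3 →ₗ[k] V4} {g1 : W2 →ₗ[k] W1}
    {g2 : W3 →ₗ[k] W2} {g3 : W4 →ₗ[k] W3} {p1 : V1 →ₗ[k] W1 →ₗ[k] k} {p2 : V2 →ₗ[k] W2 →ₗ[k] k}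
    {p3 : V3 →ₗ[k] W3 →ₗ[k] k} {p4 : V4 →ₗ[k] W4 →ₗ[k] k} {s1 s2 s3 : k} (h1 : s1 ≠ 0)
    (h2 : s2 ≠ 0) (h3 : s3 ≠ 0) (c1 : ∀ x y, p2 (f1 x) y = s1 * p1 x (g1 y))
    (c2 : ∀ x y, p3 (f2 x) y = s2 * p2 x (g2 y)) (c3 : ∀ x y, p4 (f3 x) y = s3 * p3 x (g3 y))
    (e2 : Function.Exact f2 f3) (e : Function.Exact g2 g1) (e' : Function.Exact g3 g2)
    (b1 : Function.Surjective p1) (b3 : Function.Surjective p3) (b4 : Function.Injective p4) :
    Function.Surjective p2 :=
  LinearMap.surjective_of_surjective_of_surjective_of_injective f1 f2 f3 (s1 • g1).dualMap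
    (s2 • g2).dualMap (s3 • g3).dualMap p1 p2 p3 p4 (five_sq c1) (five_sq c2) (five_sq c3) e2
    (five_dual e h1 h2) (five_dual e' h2 h3) b1 b3 b4

lemma five_zero {f : V2 →ₗ[k] V3} (h : Function.Injective f) :
    Function.Exact (0 : PUnit →ₗ[k] V2) f := by
  rw [LinearMap.exact_iff, LinearMap.range_zero, LinearMap.ker_eq_bot.2 h]

lemma five_surj_sub [Subsingleton W1] (p : V1 →ₗ[k] W1 →ₗ[k] k) : Function.Surjective p :=
  fun q => ⟨0, LinearMap.ext fun y => by rw [Subsingleton.elim y 0, map_zero, map_zero]⟩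

lemma five_inj_sub [Subsingleton V1] (p : V1 →ₗ[k] W1 →ₗ[k] k) : Function.Injective p :=
  fun _ _ _ => Subsingleton.elim _ _

end alg

lemma five_sign (n : ℕ) : ((-1 : k) ^ n) ≠ 0 := pow_ne_zero _ (neg_ne_zero.2 one_ne_zero)

lemma five_coc (ok : POK τ τ' (Out 4) A A' K K') : Coc τ (univ \ A') :=
  ok.coc.mono fun x hx => ((ok.c2 ▸ mem_univ x : x ∈ A' ∪ K)).resolve_left hx.2

lemma five_coc' (ok : POK τ τ' (Out 4) A A' K K') : Coc τ' (K \ ∅) :=
  ok.coc'.mono sdiff_subset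

lemma five_c12 {i j : ℕ} (h : i + j = 4) (hA : A' ⊆ A) (hK : K' ⊆ K)
    (ok1 : POK τ τ' (Out 4) univ A K' ∅) (ok2 : POK τ τ' (Out 4) univ A' K ∅)
    (x : H τ i univ A) (y : H τ' j K ∅) :
    pair ok2 h (res τ i subset_rfl hA x) y = 1 * pair ok1 h x (res τ' j hK subset_rfl y) := by
  rw [one_mul]
  exact pair_res_res h ok1 ok2 _ _ _ _ x y

lemma five_c23 {i j : ℕ} (h : i + j = 4) (ok2 : POK τ τ' (Out 4) univ A' K ∅)
    (ok3 : POK τ τ' (Out 4) A A' K K') (x : H τ i univ A') (y : H τ' j K K') :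
    pair ok3 h (res τ i (subset_univ A) subset_rfl x) y =
      1 * pair ok2 h x (res τ' j subset_rfl (empty_subset K') y) := by
  rw [one_mul]
  exact pair_res_res h ok2 ok3 _ _ _ _ x y

theorem dual_mid (hA : A' ⊆ A) (hK : K' ⊆ K) {ok1 : POK τ τ' (Out 4) univ A K' ∅}
    (ok2 : POK τ τ' (Out 4) univ A' K ∅) {ok3 : POK τ τ' (Out 4) A A' K K'} (h1 : Dual ok1)
    (h3 : Dual ok3) : Dual ok2 := by
  have hτ := five_coc ok3
  have hτ' := five_coc' ok3
  refine ⟨fun i j h => ⟨?_, ?_⟩,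
    fun i hi => van_mid i (h1.van i hi) (h3.van i hi) hτ (subset_univ A) hA,
    fun j hj => van_mid j (h3.van' j hj) (h1.van' j hj) hτ' hK (empty_subset K')⟩
  · rcases i with _ | i
    · have := (van_iff _).1 (h3.van' (j + 1) (by omega))
      exact five_inj (f1 := (0 : PUnit →ₗ[k] _)) (g1 := del j hτ') (p1 := 0) one_ne_zero one_ne_zero
        (fun x y => by simp) (five_c12 h hA hK ok1 ok2) (five_c23 h ok2 ok3)
        (five_zero (res_zero_inj hA)) (exact_res_res 0 hτ (subset_univ A) hA)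
        (exact_res_del j hτ' hK (empty_subset K')) (five_surj_sub _) (h1.bij 0 j h).1
        (h3.bij 0 j h).1
    · exact five_inj (five_sign _) one_ne_zero
        (pair_del_del h (by omega) ok1 ok3 hτ hτ') (five_c12 h hA hK ok1 ok2) (five_c23 h ok2 ok3)
        (exact_del_res i hτ (subset_univ A) hA) (exact_res_res (i + 1) hτ (subset_univ A) hA)
        (exact_res_del j hτ' hK (empty_subset K')) (h3.bij i (j + 1) (by omega)).2
        (h1.bij (i + 1) j h).1 (h3.bij (i + 1) j h).1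
  · rcases j with _ | j
    · have := (van_iff _).1 (h1.van (i + 1) (by omega))
      exact five_surj (f3 := del i hτ) (g3 := (0 : PUnit →ₗ[k] _)) (p4 := 0) one_ne_zero one_ne_zero
        one_ne_zero (five_c12 h hA hK ok1 ok2) (five_c23 h ok2 ok3) (fun x y => by simp)
        (exact_res_del i hτ (subset_univ A) hA) (exact_res_res 0 hτ' hK (empty_subset K'))
        (five_zero (res_zero_inj (empty_subset K'))) (h1.bij i 0 h).2 (h3.bij i 0 h).2
        (five_inj_sub _)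
    · exact five_surj one_ne_zero one_ne_zero (five_sign _) (five_c12 h hA hK ok1 ok2)
        (five_c23 h ok2 ok3) (pair_del_del (by omega) h ok1 ok3 hτ hτ')
        (exact_res_del i hτ (subset_univ A) hA) (exact_res_res (j + 1) hτ' hK (empty_subset K'))
        (exact_del_res j hτ' hK (empty_subset K')) (h1.bij i (j + 1) h).2 (h3.bij i (j + 1) h).2
        (h1.bij (i + 1) j (by omega)).1

theorem dual_rel (hA : A' ⊆ A) (hK : K' ⊆ K) {ok1 : POK τ τ' (Out 4) univ A K' ∅}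
    {ok2 : POK τ τ' (Out 4) univ A' K ∅} (ok3 : POK τ τ' (Out 4) A A' K K') (h1 : Dual ok1)
    (h2 : Dual ok2) : Dual ok3 := by
  have hτ := five_coc ok3
  have hτ' := five_coc' ok3
  refine ⟨fun i j h => ?_, fun i hi => ?_, fun j hj => ?_⟩
  · rcases j with _ | j
    · have s1 := (van_iff _).1 (h1.van (i + 1) (by omega))
      have s2 := (van_iff _).1 (h2.van (i + 1) (by omega))
      refine ⟨?_, ?_⟩
      · exact five_inj (f3 := del i hτ) (g3 := (0 : PUnit →ₗ[k] _)) (p4 := 0) (s3 := 1)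
          one_ne_zero one_ne_zero (five_c12 h hA hK ok1 ok2) (five_c23 h ok2 ok3)
          (fun x y => by simp) (exact_res_res i hτ (subset_univ A) hA)
          (exact_res_del i hτ (subset_univ A) hA) (exact_res_res 0 hτ' hK (empty_subset K'))
          (h1.bij i 0 h).2 (h2.bij i 0 h).1 (five_inj_sub _)
      · exact five_surj (f2 := del i hτ) (f3 := res τ (i + 1) subset_rfl hA)
          (g2 := (0 : PUnit →ₗ[k] _)) (g3 := (0 : PUnit →ₗ[k] _)) (p3 := 0) (p4 := 0)
          one_ne_zero one_ne_zero one_ne_zero (five_c23 h ok2 ok3) (fun x y => by simp)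
          (fun x y => by simp) (exact_del_res i hτ (subset_univ A) hA)
          (five_zero (res_zero_inj (empty_subset K')))
          (five_zero fun _ _ _ => Subsingleton.elim _ _) (h2.bij i 0 h).2 (five_surj_sub _)
          (five_inj_sub _)
    · have h' : i + 1 + j = 4 := by omega
      refine ⟨?_, ?_⟩
      · exact five_inj one_ne_zero one_ne_zero (five_c12 h hA hK ok1 ok2) (five_c23 h ok2 ok3)
          (pair_del_del h' h ok1 ok3 hτ hτ') (exact_res_res i hτ (subset_univ A) hA)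
          (exact_res_del i hτ (subset_univ A) hA)
          (exact_res_res (j + 1) hτ' hK (empty_subset K')) (h1.bij i _ h).2 (h2.bij i _ h).1
          (h1.bij _ j h').1
      · exact five_surj one_ne_zero (five_sign _) one_ne_zero (five_c23 h ok2 ok3)
          (pair_del_del h' h ok1 ok3 hτ hτ') (five_c12 h' hA hK ok1 ok2)
          (exact_del_res i hτ (subset_univ A) hA) (exact_del_res j hτ' hK (empty_subset K'))
          (exact_res_del j hτ' hK (empty_subset K')) (h2.bij i _ h).2 (h1.bij _ j h').2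
          (h2.bij _ j h').1
  · have s1 := (van_iff _).1 (h1.van (i + 1) (by omega))
    have s2 := (van_iff _).1 (h2.van i hi)
    refine (van_iff _).2 (subsingleton_of_forall_eq 0 fun x => ?_)
    obtain ⟨y, rfl⟩ := (exact_res_del i hτ (subset_univ A) hA x).1 (Subsingleton.elim _ _)
    rw [Subsingleton.elim y 0, map_zero]
  · obtain ⟨m, rfl⟩ : ∃ m, j = m + 1 := ⟨j - 1, by omega⟩
    have s2 := (van_iff _).1 (h2.van' (m + 1) hj)
    have hs : Function.Surjective (res τ' m (F := K) (F' := ∅) hK subset_rfl) := by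
      by_cases hm : m = 4
      · subst hm
        rw [← LinearMap.dualMap_injective_iff, ← one_smul k (res τ' 4 hK subset_rfl)]
        have e := five_sq (five_c12 (i := 0) (j := 4) rfl hA hK ok1 ok2)
        have hi : Function.Injective (((1 : k) • res τ' 4 (F := K) (F' := ∅) hK
            subset_rfl).dualMap.comp (pair ok1 (i := 0) (j := 4) rfl)) := by
          rw [e]
          exact (h2.bij 0 4 rfl).1.comp (res_zero_inj hA)
        exact Function.Injective.of_comp_right hi (h1.bij 0 4 rfl).2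
      · have s1 := (van_iff _).1 (h1.van' m (by omega))
        exact fun y => ⟨0, Subsingleton.elim _ _⟩
    refine (van_iff _).2 (subsingleton_of_forall_eq 0 fun x => ?_)
    obtain ⟨y, rfl⟩ := (exact_del_res m hτ' hK (empty_subset K') x).1 (Subsingleton.elim _ _)
    obtain ⟨z, rfl⟩ := hs y
    exact (exact_res_del m hτ' hK (empty_subset K')).apply_apply_eq_zero z

theorem dual_exc {B : Set E4} (hA : IsClosed A) (hB : IsClosed B) (hK : IsClosed K)
    (hK' : IsClosed K') {ok : POK τ τ' (Out 4) (A ∪ B) B K (K ∩ K')}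
    (ok' : POK τ τ' (Out 4) A (A ∩ B) (K ∪ K') K') (h : Dual ok) : Dual ok' := by
  refine ⟨fun i j hij => ?_, fun i hi => (van_exc i hA hB).1 (h.van i hi),
    fun j hj => (van_exc j hK hK').2 (h.van' j hj)⟩
  have r1 := exc_bij (τ := τ) i hA hB rfl rfl subset_union_left inter_subset_right
  have r2 := exc_bij (τ := τ') j hK hK' rfl rfl subset_union_left inter_subset_right
  have e : (res τ' j (F := K ∪ K') (F' := K') subset_union_left inter_subset_right).dualMap.comp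
      (pair ok hij) = (pair ok' hij).comp
        (res τ i (F := A ∪ B) (F' := B) subset_union_left inter_subset_right) :=
    LinearMap.ext fun x => LinearMap.ext fun y => (pair_res_res hij ok ok' _ _ _ _ x y).symm
  have hb : Function.Bijective ((pair ok' hij).comp
      (res τ i (F := A ∪ B) (F' := B) subset_union_left inter_subset_right)) := by
    rw [← e]
    exact (LinearMap.dualMap_bijective_iff.2 r2).comp (h.bij i j hij)
  exact (Function.Bijective.of_comp_iff _ r1).1 hb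

end Pool.Agent.P.MP_3d25f3_gt
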