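import Pool.Agent.P.MP_3d25f3_gt.BoxL
import Pool.Agent.P.MP_3d25f3_gt.Per
import Pool.Agent.P.MP_3d25f3_gt.Rings

set_option autoImplicit false

open Set Filter Topology

namespace Pool.Agent.P.MP_3d25f3_gt.G

variable {Z W Γ R R' : Type} [CommRing Γ] [CommRing R] [CommRing R']

/-- twisting by a character of the coefficient ring -/
def tw (t : AddChar Γ Rˣ) (n : Z → Z → Γ) : Z → Z → R := fun x y => ((t (n x y) : Rˣ) : R)

lemma tw_map (φ : R →+* R') {t : AddChar Γ Rˣ} {t' : AddChar Γ R'ˣ} (h : ∀ a, φ (t a) = t' a)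
    (n : Z → Z → Γ) (x y : Z) : φ (tw t n x y) = tw t' n x y := h _

lemma ch_add (t : AddChar Γ Rˣ) (a b : Γ) :
    ((t (a + b) : Rˣ) : R) = ((t a : Rˣ) : R) * ((t b : Rˣ) : R) := by
  rw [AddChar.map_add_eq_mul, Units.val_mul]

lemma ch_inv (t : AddChar Γ Rˣ) (a : Γ) : t⁻¹ a = (t a)⁻¹ := by
  rw [AddChar.inv_apply, AddChar.map_neg_eq_inv]

lemma map_inv_ch (φ : R →+* R') {t : AddChar Γ Rˣ} {t' : AddChar Γ R'ˣ} (h : ∀ a, φ (t a) = t' a)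
    (a : Γ) : φ (t⁻¹ a) = t'⁻¹ a := by
  rw [AddChar.inv_apply, AddChar.inv_apply, h]

variable [TopologicalSpace Z] [TopologicalSpace W]

/-- cocycles with values in a ring -/
def CocZ (n : Z → Z → Γ) (F : Set Z) : Prop :=
  ∀ x ∈ F, ∃ U ∈ 𝓝 x, ∀ a ∈ U, ∀ b ∈ U, ∀ c ∈ U, n a b + n b c = n a c

lemma CocZ.mono {n : Z → Z → Γ} {F G : Set Z} (h : CocZ n F) (hG : G ⊆ F) : CocZ n G :=
  fun x hx => h x (hG hx)

lemma CocZ.comp {n : Z → Z → Γ} {F : Set Z} (h : CocZ n F) {f : W → Z} {G : Set W}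
    (hf : ∀ x ∈ G, ContinuousAt f x) (hm : MapsTo f G F) :
    CocZ (fun a b => n (f a) (f b)) G := by
  intro x hx
  obtain ⟨U, hU, h1⟩ := h (f x) (hm hx)
  exact ⟨f ⁻¹' U, hf x hx hU, fun a ha b hb c hc => h1 _ ha _ hb _ hc⟩

lemma CocZ.tw {n : Z → Z → Γ} {F : Set Z} (h : CocZ n F) (t : AddChar Γ Rˣ) : Coc (tw t n) F := by
  intro x hx
  obtain ⟨U, hU, h1⟩ := h x hx
  refine ⟨U, hU, fun a ha => ⟨?_, fun b hb c hc => ?_⟩⟩
  · have : n a a = 0 := by linear_combination h1 a ha a ha a ha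
    simp [G.tw, this]
  · simp only [G.tw, ← h1 a ha b hb c hc, ch_add]

lemma CocZ.map {Γ' : Type} [CommRing Γ'] {n : Z → Z → Γ} {F : Set Z} (h : CocZ n F) (d : Γ →+ Γ') :
    CocZ (fun a b => d (n a b)) F := by
  intro x hx
  obtain ⟨U, hU, h1⟩ := h x hx
  exact ⟨U, hU, fun a ha b hb c hc => by rw [← map_add, h1 a ha b hb c hc]⟩

lemma CocZ.int {n : Z → Z → ℤ} {F : Set Z} : CocZ n F ↔ MP_3d25f3_gt.CocZ n F := Iff.rfl

lemma Mu_tw (t : AddChar Γ Rˣ) (n : Z → Z → Γ) (F : Set Z) : Mu (tw t n) (tw t⁻¹ n) 1 F := by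
  refine fun x _ => ⟨univ, univ_mem, fun a _ b _ => ?_⟩
  simp only [tw, ← Units.val_mul, ch_inv, mul_inv_cancel, Units.val_one, Pi.one_apply]

lemma CocZ.nbhd {n : Z → Z → Γ} {F : Set Z} (h : CocZ n F) :
    ∃ N, IsOpen N ∧ F ⊆ N ∧ CocZ n N := by
  refine ⟨{x | ∃ U ∈ 𝓝 x, ∀ a ∈ U, ∀ b ∈ U, ∀ c ∈ U, n a b + n b c = n a c}, ?_, h, fun _ hx => hx⟩
  exact isOpen_iff_mem_nhds.2 fun x ⟨U, hU, h⟩ =>
    mem_of_superset (eventually_mem_nhds_iff.2 hU) fun y hy => ⟨U, hy, h⟩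

lemma CocZ.co1 {n : Z → Z → Γ} {F : Set Z} (h : CocZ n F) :
    co1 n ∈ Zc (1 : Z → Z → Γ) 1 F ∅ := by
  refine ⟨by simp, fun x hx => ?_⟩
  obtain ⟨U, hU, h1⟩ := h x hx
  refine ⟨U, hU, fun l hl h2 => ?_⟩
  obtain ⟨a, b, c, rfl⟩ := List.length_eq_three.1 hl
  rw [D_three]
  simp only [MP_3d25f3_gt.co1, Pi.one_apply, one_mul,
    ← h1 a (h2 a (by simp)) b (h2 b (by simp)) c (h2 c (by simp))]
  ring

lemma CocZ_of_Zc {c : List Z → Γ} {F : Set Z} (h : c ∈ Zc (1 : Z → Z → Γ) 1 F ∅) :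
    CocZ (fun a b => c [a, b]) F := by
  intro x hx
  obtain ⟨U, hU, h1⟩ := (mem_Zc.1 h).2 x hx
  refine ⟨U, hU, fun a ha b hb e he => ?_⟩
  have := h1 [a, b, e] rfl (by simp [ha, hb, he])
  rw [D_three] at this
  simp only [Pi.one_apply, one_mul] at this
  linear_combination this

lemma triv_tw {E : Type} [NormedAddCommGroup E] [NormedSpace ℝ E] {n : E → E → Γ} {K : Set E}
    (hK : IsCompact K) (hc : Convex ℝ K) (hn : CocZ n K) (t : AddChar Γ Rˣ) : Triv (tw t n) K := by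
  obtain ⟨b, -, h⟩ := mem_Bc.1 (van_convex 0 hK hc (Coc_one K) hn.co1)
  refine ⟨fun a => (t (-b [a]) : Rˣ), fun a => (t (b [a]) : Rˣ), fun x hx => ?_⟩
  obtain ⟨U, hU, h1⟩ := h x hx
  refine ⟨U, hU, fun a ha => ⟨by simp [← ch_add], fun a' ha' => ?_⟩⟩
  have h2 := h1 [a, a'] rfl (by simp [ha, ha'])
  rw [Pi.sub_apply, D_two, Pi.one_apply, Pi.one_apply, one_mul, sub_eq_zero] at h2
  have h3 : n a a' + -b [a'] = -b [a] := by
    have h4 : n a a' = b [a'] - b [a] := h2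
    linear_combination h4
  show ((t (n a a') : Rˣ) : R) * (t (-b [a']) : Rˣ) = (t (-b [a]) : Rˣ)
  rw [← ch_add, h3]

lemma good_tw {n : E4 → E4 → Γ} {N : Set E4} (ho : IsOpen N) (hn : CocZ n N) (t : AddChar Γ Rˣ) :
    Good (tw t n) (tw t⁻¹ n) N :=
  ⟨ho, hn.tw t, hn.tw t⁻¹, Mu_tw t n N, fun _ hK h1 h2 => triv_tw h1 h2 (hn.mono hK) t⟩

/-- primitive and periods of a cocycle -/
structure Per (g : ℕ) (S : List (ℕ × ℤ)) (n : Seifert g S → Seifert g S → Γ) (A : Cov → Γ) (N : Γ)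
    (ne : ℕ → Γ) : Prop where
  prim : ∀ y, ∃ U ∈ 𝓝 y, ∀ a ∈ U, ∀ b ∈ U, n (pp g S a) (pp g S b) = A b - A a
  per : ∀ y z, A (y, z + 1) = A (y, z) + N
  arc : ∀ e < NE g S, ∀ s ∈ Icc (0 : ℝ) 1, ∀ z, A (gb g S e s z) = A (ga g S e s z) + ne e

/-- primitive of a twisted cocycle -/
def Prim (g : ℕ) (S : List (ℕ × ℤ)) (t : AddChar Γ Rˣ) (A : Cov → Γ)
    (v : List (Seifert g S) → R) (E : Cov → R) : Prop :=
  ∀ y, ∃ U ∈ 𝓝 y, ∀ a ∈ U, ∀ b ∈ U, ((t (A a) : Rˣ) : R) * v [pp g S a, pp g S b] = E b - E a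

/-- `v` is a cocycle with vertex data `x` -/
structure IsRep (g : ℕ) (S : List (ℕ × ℤ)) (ω : AddChar Γ ℂˣ) (A : Cov → Γ) (ne : ℕ → Γ)
    (x : ZMod (LL g S) → ℂ) (v : List (Seifert g S) → ℂ) (E : Disc → ℂ) : Prop where
  prim : Prim g S ω A v (fun y => E y.1)
  vert : ∀ j : ℕ, E (bp (LL g S) j) = x j
  arc : ∀ e < NE g S, ∀ s ∈ Icc (0 : ℝ) 1, E (bp (LL g S) (st g e + wd g e - s))
    = ((ω (ne e) : ℂˣ) : ℂ) * E (bp (LL g S) (st g e + s)) + vv g (fun e => ((ω (ne e) : ℂˣ) : ℂ)) x e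

variable {g : ℕ} {S : List (ℕ × ℤ)} {n : Seifert g S → Seifert g S → Γ} {A : Cov → Γ} {N : Γ}
  {ne : ℕ → Γ}

lemma Per.map {Γ' : Type} [CommRing Γ'] (h : Per g S n A N ne) (d : Γ →+ Γ') :
    Per g S (fun a b => d (n a b)) (fun y => d (A y)) (d N) (fun e => d (ne e)) := by
  refine ⟨fun y => ?_, fun y z => by rw [h.per, map_add], fun e he s hs z => by
    rw [h.arc e he s hs, map_add]⟩
  obtain ⟨U, hU, h1⟩ := h.prim y
  exact ⟨U, hU, fun a ha b hb => by rw [h1 a ha b hb, map_sub]⟩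

lemma Per.int {n : Seifert g S → Seifert g S → ℤ} {A : Cov → ℤ} {N : ℤ} {ne : ℕ → ℤ} :
    Per g S n A N ne ↔ MP_3d25f3_gt.Per g S n A N ne :=
  ⟨fun h => ⟨h.1, h.2, h.3⟩, fun h => ⟨h.1, h.2, h.3⟩⟩

/-- a one parameter family of characters -/
structure Fm (Γ : Type) [CommRing Γ] where
  deg : Γ →+ ℤ
  ψ : AddChar Γ ℂˣ
  norm : ∀ a, ‖(ψ a : ℂ)‖ = 1

noncomputable def Fm.L (f : Fm Γ) : AddChar Γ Laˣ where
  toFun a := tL ^ f.deg a * Units.map (LaurentPolynomial.C : ℂ →+* La).toMonoidHom (f.ψ a)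
  map_zero_eq_one' := by simp
  map_add_eq_mul' a b := by
    rw [map_add, zpow_add, AddChar.map_add_eq_mul, map_mul, mul_mul_mul_comm]

noncomputable def Fm.C (f : Fm Γ) (ω : ℂˣ) : AddChar Γ ℂˣ where
  toFun a := ω ^ f.deg a * f.ψ a
  map_zero_eq_one' := by simp
  map_add_eq_mul' a b := by
    rw [map_add, zpow_add, AddChar.map_add_eq_mul, mul_mul_mul_comm]

lemma Fm.L_val (f : Fm Γ) (a : Γ) : ((f.L a : Laˣ) : La)
    = ((tL ^ f.deg a : Laˣ) : La) * LaurentPolynomial.C (f.ψ a : ℂ) := rfl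

lemma Fm.C_apply (f : Fm Γ) (ω : ℂˣ) (a : Γ) : f.C ω a = ω ^ f.deg a * f.ψ a := rfl

lemma gb_zpow (φ : R →+* R') {t : Rˣ} {t' : R'ˣ} (h : φ t = t') (k : ℤ) :
    φ ((t ^ k : Rˣ) : R) = ((t' ^ k : R'ˣ) : R') :=
  MP_3d25f3_gt.tw_map (Z := Unit) φ h (fun _ _ => k) () ()

lemma Fm.ev (f : Fm Γ) (ω : ℂˣ) (a : Γ) : evL ω (f.L a) = f.C ω a := by
  rw [f.L_val, map_mul, gb_zpow _ (evL_t ω), evL_C, f.C_apply, Units.val_mul]

lemma Fm.sg (f : Fm Γ) (a : Γ) : sgL (f.L a) = f.L⁻¹ a := by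
  rw [f.L_val, map_mul, gb_zpow _ sgL_t, sgL_C, conj_unit (f.norm a), AddChar.inv_apply, f.L_val,
    map_neg, AddChar.map_neg_eq_inv, inv_zpow']

lemma Fm.norm_C (f : Fm Γ) {ω : ℂˣ} (hω : ‖(ω : ℂ)‖ = 1) (a : Γ) : ‖(f.C ω a : ℂ)‖ = 1 := by
  rw [f.C_apply, Units.val_mul, norm_mul, f.norm, Units.val_zpow_eq_zpow_val, norm_zpow, hω]
  simp

lemma Fm.cj (f : Fm Γ) {ω : ℂˣ} (hω : ‖(ω : ℂ)‖ = 1) (a : Γ) :
    starRingEnd ℂ (f.C ω a) = (f.C ω)⁻¹ a := by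
  rw [conj_unit (f.norm_C hω a), ch_inv]

end Pool.Agent.P.MP_3d25f3_gt.G
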