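import Pool.Agent.P.MP_3d25f3_gt.SdA

set_option autoImplicit false

open Set Filter Topology

namespace Pool.Agent.P.MP_3d25f3_gt

lemma sdb_congr {Z : Type} [TopologicalSpace Z] {m n : Z → Z → ℤ} {F : Set Z} (h : CocZ m F)
    (hmn : ∀ x, ∃ U ∈ 𝓝 x, ∀ a ∈ U, ∀ b ∈ U, n a b = m a b) : CocZ n F := by
  intro x hx
  obtain ⟨U, hU, h1⟩ := h x hx
  obtain ⟨V, hV, h2⟩ := hmn x
  refine ⟨U ∩ V, inter_mem hU hV, fun a ha b hb c hc => ?_⟩
  rw [h2 a ha.2 b hb.2, h2 b hb.2 c hc.2, h2 a ha.2 c hc.2]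
  exact h1 a ha.1 b hb.1 c hc.1

lemma split_coc {X Y : Set E4} (h : XY X Y) {f : E4 → E4 → ℤ} (hf : CocZ f (X ∩ Y)) :
    ∃ n : E4 → E4 → ℤ, CocZ (fun a b => f a b - n a b) X ∧ CocZ n Y ∧
      ∀ a b, 1 < ‖a‖ → 1 < ‖b‖ → n a b = 0 := by
  classical
  have h0 : D (1 : E4 → E4 → ℤ) (co1 f) ∈ Null ℤ 2 (X ∩ Y) := by
    have := (mem_Zc.1 (hf.co1 (R := ℤ))).2
    exact this
  obtain ⟨b, hbY, hbX⟩ := Null_inter h.cX h.cY h0
  have hDD : D (1 : E4 → E4 → ℤ) (D (1 : E4 → E4 → ℤ) (co1 f)) ∈ Null ℤ 3 (univ : Set E4) :=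
    DD_Null (k := 2) (F' := ∅) (Coc_one _) (by simp)
  have hbZ : b ∈ Zc (1 : E4 → E4 → ℤ) 2 univ (Out 4) := by
    refine ⟨Null_mono 2 h.out hbY, ?_⟩
    change D (1 : E4 → E4 → ℤ) b ∈ Null ℤ 3 univ
    rw [← h.cover, Null_union]
    refine ⟨?_, D_Null _ hbY⟩
    have h1 := D_Null (1 : E4 → E4 → ℤ) hbX
    have h2 := Null_mono 3 (subset_univ X) hDD
    have h3 := sub_mem h2 h1
    rw [map_sub, sub_sub_cancel] at h3
    exact h3
  obtain ⟨g, hg, hbg⟩ := mem_Bc.1 ((orn_gen.2 ℤ).2.2 2 (by norm_num) hbZ)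
  have hY : CocZ (fun a b => g [a, b]) Y := by
    refine CocZ_of_Zc ⟨by simp, ?_⟩
    have h3 := sub_mem hbY (Null_mono 2 (subset_univ Y) hbg)
    rw [sub_sub_cancel] at h3
    exact h3
  have hX : CocZ (fun a b => (co1 f - g) [a, b]) X := by
    refine CocZ_of_Zc ⟨by simp, ?_⟩
    have h3 := add_mem hbX (Null_mono 2 (subset_univ X) hbg)
    rw [sub_add_sub_cancel, ← map_sub] at h3
    exact h3
  have hag : ∀ x : E4, ∃ U ∈ 𝓝 x, ∀ a ∈ U, ∀ b ∈ U,
      (if 1 < ‖a‖ ∧ 1 < ‖b‖ then 0 else g [a, b]) = g [a, b] := by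
    intro x
    by_cases hx : ‖x‖ < 1
    · refine ⟨Metric.ball 0 1, Metric.isOpen_ball.mem_nhds (mem_ball_zero_iff.2 hx),
        fun a ha b _ => ?_⟩
      rw [if_neg fun hh => absurd (mem_ball_zero_iff.1 ha) (not_lt.2 hh.1.le)]
    · obtain ⟨U, hU, h1⟩ := hg x (not_lt.1 hx)
      refine ⟨U, hU, fun a ha b hb => ?_⟩
      have : g [a, b] = 0 := h1 [a, b] rfl (by
        intro y hy
        rcases List.mem_cons.1 hy with rfl | hy
        · exact ha
        · rw [List.mem_singleton.1 hy]; exact hb)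
      rw [this, ite_self]
  refine ⟨fun a b => if 1 < ‖a‖ ∧ 1 < ‖b‖ then 0 else g [a, b], ?_, sdb_congr hY hag,
    fun a b ha hb => if_pos ⟨ha, hb⟩⟩
  refine sdb_congr hX fun x => ?_
  obtain ⟨U, hU, h1⟩ := hag x
  refine ⟨U, hU, fun a ha b hb => ?_⟩
  change f a b - (if 1 < ‖a‖ ∧ 1 < ‖b‖ then 0 else g [a, b]) = f a b - g [a, b]
  rw [h1 a ha b hb]

lemma stereo (p : Metric.sphere (0 : EuclideanSpace ℝ (Fin 5)) 1)
    {C : Set (Metric.sphere (0 : EuclideanSpace ℝ (Fin 5)) 1)} (hC : IsCompact C) (hp : p ∉ C) :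
    ∃ ι : E4 → Metric.sphere (0 : EuclideanSpace ℝ (Fin 5)) 1, IsOpenEmbedding ι ∧
      range ι = {p}ᶜ ∧ C ⊆ ι '' Metric.ball 0 1 := by
  have : Fact (Module.finrank ℝ (EuclideanSpace ℝ (Fin 5)) = 4 + 1) := ⟨by simp⟩
  set φ := stereographic' 4 p with hφ
  have hs : φ.source = {p}ᶜ := stereographic'_source p
  have ht : φ.target = univ := stereographic'_target p
  have hemb : IsOpenEmbedding φ.symm := φ.symm.isOpenEmbedding ht
  have hrange : range φ.symm = {p}ᶜ := by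
    rw [← image_univ, ← ht, φ.symm_image_target_eq_source, hs]
  have hCs : C ⊆ φ.source := fun x hx => by
    rw [hs]
    rintro rfl
    exact hp hx
  let e : EuclideanSpace ℝ (Fin 4) ≃L[ℝ] E4 := EuclideanSpace.equiv (Fin 4) ℝ
  have hK : IsCompact (e '' (φ '' C)) :=
    (hC.image_of_continuousOn (φ.continuousOn.mono hCs)).image e.continuous
  obtain ⟨r, hr0, hr⟩ := hK.isBounded.subset_ball_lt 0 (0 : E4)
  let sc : E4 ≃ₜ E4 := Homeomorph.smulOfNeZero r hr0.ne'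
  let ψ : E4 ≃ₜ EuclideanSpace ℝ (Fin 4) := sc.trans e.symm.toHomeomorph
  refine ⟨φ.symm ∘ ψ, hemb.comp ψ.isOpenEmbedding, ?_, fun x hx => ?_⟩
  · rw [range_comp, ψ.surjective.range_eq, image_univ, hrange]
  · refine ⟨r⁻¹ • e (φ x), ?_, ?_⟩
    · have h1 := mem_ball_zero_iff.1 (hr ⟨φ x, ⟨x, hx, rfl⟩, rfl⟩)
      rw [mem_ball_zero_iff, norm_smul, norm_inv, Real.norm_of_nonneg hr0.le,
        inv_mul_lt_iff₀ hr0, mul_one]
      exact h1
    · have h2 : ψ (r⁻¹ • e (φ x)) = φ x := by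
        change e.symm (r • r⁻¹ • e (φ x)) = φ x
        rw [smul_smul, mul_inv_cancel₀ hr0.ne', one_smul, e.symm_apply_apply]
      rw [Function.comp_apply, h2, φ.left_inv (hCs hx)]

lemma Flat.preimage {Z W : Type} [TopologicalSpace Z] [TopologicalSpace W] {M : Set Z}
    (h : Flat M) {ι : W → Z} (hι : IsOpenEmbedding ι) : Flat (ι ⁻¹' M) := by
  intro x hx
  have : Nonempty W := ⟨x⟩
  obtain ⟨φ, h1, h2⟩ := h (ι x) hx
  refine ⟨(hι.toOpenPartialHomeomorph ι).trans φ, by simpa using h1, fun y hy => ?_⟩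
  have hy' : ι y ∈ φ.source := by simpa using hy
  simpa using h2 (ι y) hy'

lemma Sided.preimage {Z W : Type} [TopologicalSpace Z] [TopologicalSpace W] {X Y : Set Z}
    (h : Sided X Y) {ι : W → Z} (hι : IsOpenEmbedding ι) : Sided (ι ⁻¹' X) (ι ⁻¹' Y) := by
  intro x hx
  have : Nonempty W := ⟨x⟩
  obtain ⟨φ, h1, h2⟩ := h (ι x) hx
  refine ⟨(hι.toOpenPartialHomeomorph ι).trans φ, by simpa using h1, fun y hy => ?_⟩
  have hy' : ι y ∈ φ.source := by simpa using hy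
  simpa using h2 (ι y) hy'

lemma Sided.of_preimage {Z W : Type} [TopologicalSpace Z] [TopologicalSpace W] {X Y : Set Z}
    {ι : W → Z} (hι : IsOpenEmbedding ι) (hr : X ∩ Y ⊆ range ι)
    (h : Sided (ι ⁻¹' X) (ι ⁻¹' Y)) : Sided X Y := by
  intro x hx
  obtain ⟨w, rfl⟩ := hr hx
  have : Nonempty W := ⟨w⟩
  obtain ⟨φ, h1, h2⟩ := h w hx
  refine ⟨(hι.toOpenPartialHomeomorph ι).symm.trans φ, ?_, fun y hy => ?_⟩
  · rw [OpenPartialHomeomorph.trans_source]
    refine ⟨by simp, ?_⟩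
    rw [mem_preimage, hι.toOpenPartialHomeomorph_left_inv]
    exact h1
  · rw [OpenPartialHomeomorph.trans_source] at hy
    obtain ⟨hy1, hy2⟩ := hy
    obtain ⟨v, rfl⟩ : y ∈ range ι := by simpa using hy1
    rw [mem_preimage, hι.toOpenPartialHomeomorph_left_inv] at hy2
    rw [OpenPartialHomeomorph.trans_apply, hι.toOpenPartialHomeomorph_left_inv]
    exact h2 v hy2

/-- one side of an embedding, with an integer cocycle on it -/
structure Side (M : Type) [TopologicalSpace M] where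
  e : M → E4
  X : Set E4
  Y : Set E4
  n : E4 → E4 → ℤ
  cont : Continuous e
  inj : Function.Injective e
  xy : XY X Y
  inter : X ∩ Y = range e
  coc : CocZ n X

/-- the cocycle restricted to `M` -/
def Side.nM {M : Type} [TopologicalSpace M] (s : Side M) : M → M → ℤ := fun a b => s.n (s.e a) (s.e b)

lemma Side.cocM {M : Type} [TopologicalSpace M] (s : Side M) : CocZ s.nM univ :=
  s.coc.comp (fun _ _ => s.cont.continuousAt) fun x _ => (s.inter.ge (mem_range_self x)).1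

lemma Side.t2 {M : Type} [TopologicalSpace M] (s : Side M) : T2Space M :=
  T2Space.of_injective_continuous s.inj s.cont

lemma EmbedsFlat.t2 {M : Type} [TopologicalSpace M] (h : EmbedsFlat M) : T2Space M :=
  let ⟨_, he, _⟩ := h; he.t2Space

end Pool.Agent.P.MP_3d25f3_gt
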