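import Pool.Agent.P.MP_3d25f3_gt.FacD
import Pool.Agent.P.MP_3d25f3_gt.SdB
import Pool.Agent.P.MP_3d25f3_gt.Per

set_option autoImplicit false

open Set Filter Topology

namespace Pool.Agent.P.MP_3d25f3_gt

open Module

variable {g : ℕ} {S : List (ℕ × ℤ)}

lemma Side.xn {M : Type} [TopologicalSpace M] (s : Side M) : ∃ N, XN s.X s.Y N s.n :=
  let ⟨N, h1, h2, h3⟩ := s.coc.nbhd; ⟨N, s.xy, h1, h2, h3⟩

/-- cohomology of the image -/
lemma Side.equiv {M : Type} [TopologicalSpace M] [CompactSpace M] (s : Side M) {R : Type}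
    [CommRing R] (t : Rˣ) (k : ℕ) :
    ∃ Φ : H (tw t s.n) k (s.X ∩ s.Y) ∅ ≃ₗ[R] H (tw t s.nM) k univ ∅,
      ∀ c hc, ∃ h', Φ (cl c hc) = cl (pull s.e 1 c) h' :=
  emb_equiv k isCompact_univ (empty_subset _) s.cont s.inj.injOn (by rw [s.inter, image_univ])
    (by simp) ((s.coc.tw t).mono inter_subset_left) fun _ _ => rfl

lemma Side.equiv_one {M : Type} [TopologicalSpace M] [CompactSpace M] (s : Side M) (R : Type)
    [CommRing R] (k : ℕ) :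
    ∃ Φ : H (1 : E4 → E4 → R) k (s.X ∩ s.Y) ∅ ≃ₗ[R] H (1 : M → M → R) k univ ∅,
      ∀ c hc, ∃ h', Φ (cl c hc) = cl (pull s.e 1 c) h' :=
  emb_equiv k isCompact_univ (empty_subset _) s.cont s.inj.injOn (by rw [s.inter, image_univ])
    (by simp) (Coc_one _) fun _ _ => rfl

/-- the holonomy detects the root of unity -/
def Primi (g : ℕ) (S : List (ℕ × ℤ)) (N : ℤ) (ne : ℕ → ℤ) : Prop :=
  ∀ ω : ℂˣ, ω ^ N = 1 → (∀ e < NE g S, ω ^ ne e = 1) → ω = 1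

lemma prm_pull {Z W R : Type} [CommRing R] (e : W → Z) (n : Z → Z → R) :
    pull e 1 (co1 n) = co1 fun a b => n (e a) (e b) := by
  funext l
  rcases l with _ | ⟨a, _ | ⟨b, _ | ⟨c, l⟩⟩⟩ <;> simp [co1]

lemma prm_cf {Z R R' : Type} [CommRing R] [CommRing R'] (φ : R →+* R') (n : Z → Z → R) :
    cf φ (co1 n) = co1 fun a b => φ (n a b) := by
  funext l
  rcases l with _ | ⟨a, _ | ⟨b, _ | ⟨c, l⟩⟩⟩ <;> simp [co1]

lemma prm_red {d : ℤ} (hd : d ≠ 0) : Red (Int.castRingHom (ZMod d.natAbs)) d :=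
  ⟨ZMod.intCast_surjective, fun r =>
    (ZMod.intCast_zmod_eq_zero_iff_dvd r d.natAbs).trans Int.natAbs_dvd,
    fun _ h => (mul_eq_zero.1 h).resolve_left hd⟩

lemma Side.div (s : Side (Seifert g S)) {A : Cov → ℤ} {N : ℤ} {ne : ℕ → ℤ}
    (h : Per g S s.nM A N ne) {d : ℤ} (hd : d ≠ 0) (h1 : d ∣ N) (h2 : ∀ e < NE g S, d ∣ ne e) :
    ∃ (s' : Side (Seifert g S)) (A' : Cov → ℤ) (N' : ℤ) (ne' : ℕ → ℤ),
      Per g S s'.nM A' N' ne' ∧ N = d * N' := by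
  have := s.t2
  have hr := prm_red hd
  have hB := h.cast_mem_Bc (R := ZMod d.natAbs) s.cocM ((hr.ker N).2 h1)
    fun e he => (hr.ker _).2 (h2 e he)
  have hc := s.coc.co1 (R := ZMod d.natAbs)
  have hc0 := s.coc.co1 (R := ℤ)
  obtain ⟨Φ, hΦ⟩ := s.equiv_one (ZMod d.natAbs) 1
  obtain ⟨h', e1⟩ := hΦ _ (Zc_mono _ 1 inter_subset_left subset_rfl hc)
  have e2 : cl _ h' = 0 := (cl_eq_zero h').2 (by rw [prm_pull]; exact hB)
  have e3 : cl _ hc = 0 := rm_one_inj s.xy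
    ((Φ.injective ((e1.trans e2).trans (map_zero Φ).symm)).trans (map_zero _).symm)
  have e4 : cmap (Int.castRingHom (ZMod d.natAbs)) (τ := (1 : E4 → E4 → ℤ))
      (τ' := (1 : E4 → E4 → ZMod d.natAbs)) (fun _ _ => map_one _) 1 s.X ∅ (cl _ hc0) = 0 := by
    rw [cmap_cl, cl_eq_zero, prm_cf]
    exact (cl_eq_zero hc).1 e3
  obtain ⟨y, hy⟩ := (cmap_eq_zero hr _ (Coc_one _) (empty_subset _) _).1 e4
  obtain ⟨c, hc1, rfl⟩ := cl_surj y
  rw [← cl_smul, cl_eq] at hy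
  obtain ⟨b, -, hb⟩ := mem_Bc.1 hy
  let s' : Side (Seifert g S) := ⟨s.e, s.X, s.Y, fun a b => c [a, b], s.cont, s.inj, s.xy, s.inter,
    CocZ_of_Zc hc1⟩
  obtain ⟨A', N', ne', h'⟩ := exists_per s'.cocM
  refine ⟨s', A', N', ne', h', ?_⟩
  have := (h.lin h' h' (c₁ := d) (c₂ := 0) (a := fun x => b [s.e x]) fun x => by
    obtain ⟨U, hU, hz⟩ := hb (s.e x) (s.inter.ge (mem_range_self x)).1
    refine ⟨s.e ⁻¹' U, s.cont.continuousAt hU, fun u hu v hv => ?_⟩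
    have e5 : s.n (s.e u) (s.e v) - d * c [s.e u, s.e v] - D 1 b [s.e u, s.e v] = 0 :=
      hz [s.e u, s.e v] rfl (by simpa using ⟨hu, hv⟩)
    rw [D_two, Pi.one_apply, Pi.one_apply] at e5
    show s.n (s.e u) (s.e v) = d * c [s.e u, s.e v] + 0 * c [s.e u, s.e v] + (b [s.e v] - b [s.e u])
    linear_combination e5).1
  rw [this, zero_mul, add_zero]

lemma prm_pos (s : Side (Seifert g S)) {A : Cov → ℤ} {N : ℤ} {ne : ℕ → ℤ}
    (h : Per g S s.nM A N ne) : ∃ (s' : Side (Seifert g S)) (A' : Cov → ℤ) (ne' : ℕ → ℤ),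
      Per g S s'.nM A' N.natAbs ne' := by
  rcases Int.natAbs_eq N with e | e
  · exact ⟨s, A, ne, e ▸ h⟩
  · obtain ⟨s', A', N', ne', h1, h2⟩ := s.div h (d := -1) (by norm_num) (neg_dvd.2 (one_dvd _))
      fun _ _ => neg_dvd.2 (one_dvd _)
    exact ⟨s', A', ne', (show N' = N.natAbs by omega) ▸ h1⟩

theorem exists_primi (s : Side (Seifert g S)) {A : Cov → ℤ} {N : ℤ} {ne : ℕ → ℤ}
    (h : Per g S s.nM A N ne) (hN : N ≠ 0) :
    ∃ (s' : Side (Seifert g S)) (A' : Cov → ℤ) (N' : ℕ) (ne' : ℕ → ℤ), 0 < N' ∧ (N' : ℤ) ∣ N ∧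
      Per g S s'.nM A' N' ne' ∧ Primi g S N' ne' := by
  induction hm : N.natAbs using Nat.strong_induction_on generalizing s A N ne with
  | _ m ih =>
    obtain ⟨s1, A1, ne1, h1⟩ := prm_pos s h
    by_cases hp : Primi g S N.natAbs ne1
    · exact ⟨s1, A1, N.natAbs, ne1, Int.natAbs_pos.2 hN, Int.natAbs_dvd.2 dvd_rfl, h1, hp⟩
    · simp only [Primi, not_forall] at hp
      obtain ⟨ω, w1, w2, w3⟩ := hp
      have d1 : (orderOf ω : ℤ) ∣ N.natAbs := orderOf_dvd_iff_zpow_eq_one.2 w1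
      have d0 : (orderOf ω : ℤ) ≠ 0 := fun e => by
        rw [e, zero_dvd_iff] at d1
        omega
      have d2 : orderOf ω ≠ 1 := mt orderOf_eq_one_iff.1 w3
      obtain ⟨s2, A2, N2, ne2, h2, e2⟩ := s1.div h1 d0 d1
        fun e he => orderOf_dvd_iff_zpow_eq_one.2 (w2 e he)
      have hN2 : N2 ≠ 0 := fun e => by
        rw [e, mul_zero] at e2
        omega
      have e3 : N.natAbs = orderOf ω * N2.natAbs := by
        simpa only [Int.natAbs_mul, Int.natAbs_natCast] using congrArg Int.natAbs e2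
      have e4 : N2.natAbs < m := by
        rw [← hm, e3]
        exact lt_mul_of_one_lt_left (Int.natAbs_pos.2 hN2) (by omega)
      obtain ⟨s3, A3, N3, ne3, k1, k2, k3⟩ := ih _ e4 s2 h2 hN2 rfl
      exact ⟨s3, A3, N3, ne3, k1, k2.trans (Int.natAbs_dvd_natAbs.1 ⟨_, e3.trans (mul_comm _ _)⟩), k3⟩

/-- the special angles -/
noncomputable def th (N : ℕ) (k : ℤ) : ℝ := 2 * Real.pi * k / N

lemma prm_rt (a : ℤ) {b : ℕ} (hb : 0 < b) : rt (a / b) = 1 ↔ (b : ℤ) ∣ a := by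
  have h1 : (b : ℂ) ≠ 0 := Nat.cast_ne_zero.2 hb.ne'
  rw [rt, Complex.exp_eq_one_iff]
  refine exists_congr fun m => ?_
  rw [mul_comm, mul_left_inj' Complex.two_pi_I_ne_zero]
  push_cast
  rw [div_eq_iff h1, mul_comm]
  exact_mod_cast Iff.rfl

lemma cu_th_slit {n : Seifert g S → Seifert g S → ℤ} {A : Cov → ℤ} {N : ℕ} {ne : ℕ → ℤ}
    (hS : Data S) (h : Per g S n A N ne) (hN : 0 < N) (k : ℤ) {i : ℕ} (hi : i ≤ S.length) :
    ((cu (th N k) ^ ne (2 * g + i) : ℂˣ) : ℂ)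
      = rt (k * (pr g S (2 * g + i)).2 / (pr g S (2 * g + i)).1) := by
  have h1 : (N : ℂ) ≠ 0 := Nat.cast_ne_zero.2 hN.ne'
  have h2 : ((pr g S (2 * g + i)).1 : ℂ) ≠ 0 :=
    Nat.cast_ne_zero.2 (Nat.one_le_iff_ne_zero.1 (pr_data hS _).1)
  have h3 : ((pr g S (2 * g + i)).1 : ℂ) * ne (2 * g + i) = (pr g S (2 * g + i)).2 * N := by
    exact_mod_cast h.slit hS (e := 2 * g + i) (by omega) (by unfold NE; omega)
  rw [Units.val_zpow_eq_zpow_val, cu, Units.val_mk0, ← Complex.exp_int_mul, rt, th]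
  congr 1
  push_cast
  field_simp
  linear_combination k * h3

lemma cu_th_slit_eq_one {n : Seifert g S → Seifert g S → ℤ} {A : Cov → ℤ} {N : ℕ} {ne : ℕ → ℤ}
    (hS : Data S) (h : Per g S n A N ne) (hN : 0 < N) (k : ℤ) {i : ℕ} (hi : i ≤ S.length) :
    cu (th N k) ^ ne (2 * g + i) = 1 ↔ ((pr g S (2 * g + i)).1 : ℤ) ∣ k := by
  rw [Units.ext_iff, cu_th_slit hS h hN k hi, Units.val_one, ← Int.cast_mul,
    prm_rt _ (pr_data hS _).1]
  exact ⟨fun h1 => Int.dvd_of_dvd_mul_left_of_gcd_one h1 (pr_data hS _).2, fun h1 => h1.mul_right _⟩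

lemma cu_th_eq_one {N : ℕ} (hN : 0 < N) (k : ℤ) : cu (th N k) = 1 ↔ (N : ℤ) ∣ k := by
  rw [Units.ext_iff, Units.val_one, ← prm_rt k hN, cu, Units.val_mk0, rt, th]
  push_cast
  rw [show (2 * Real.pi * k / N * Complex.I : ℂ) = 2 * Real.pi * Complex.I * (k / N) by ring]

end Pool.Agent.P.MP_3d25f3_gt
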