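import Pool.Agent.P.MP_3d25f3_gt.GBas
import Pool.Agent.P.MP_3d25f3_gt.SdC
import Pool.Agent.P.MP_3d25f3_gt.Prm

set_option autoImplicit false

open Set Filter Topology

namespace Pool.Agent.P.MP_3d25f3_gt.G

variable {Γ : Type} [CommRing Γ]

lemma sdb_congr {Z : Type} [TopologicalSpace Z] {m n : Z → Z → Γ} {F : Set Z} (h : CocZ m F)
    (hmn : ∀ x, ∃ U ∈ 𝓝 x, ∀ a ∈ U, ∀ b ∈ U, n a b = m a b) : CocZ n F := by
  intro x hx
  obtain ⟨U, hU, h1⟩ := h x hx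
  obtain ⟨V, hV, h2⟩ := hmn x
  refine ⟨U ∩ V, inter_mem hU hV, fun a ha b hb c hc => ?_⟩
  rw [h2 a ha.2 b hb.2, h2 b hb.2 c hc.2, h2 a ha.2 c hc.2]
  exact h1 a ha.1 b hb.1 c hc.1

lemma split_coc {X Y : Set E4} (h : XY X Y) {f : E4 → E4 → Γ} (hf : CocZ f (X ∩ Y)) :
    ∃ n : E4 → E4 → Γ, CocZ (fun a b => f a b - n a b) X ∧ CocZ n Y ∧
      ∀ a b, 1 < ‖a‖ → 1 < ‖b‖ → n a b = 0 := by
  classical
  have h0 : D (1 : E4 → E4 → Γ) (co1 f) ∈ Null Γ 2 (X ∩ Y) := by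
    have := (mem_Zc.1 hf.co1).2
    exact this
  obtain ⟨b, hbY, hbX⟩ := Null_inter h.cX h.cY h0
  have hDD : D (1 : E4 → E4 → Γ) (D (1 : E4 → E4 → Γ) (co1 f)) ∈ Null Γ 3 (univ : Set E4) :=
    DD_Null (k := 2) (F' := ∅) (Coc_one _) (by simp)
  have hbZ : b ∈ Zc (1 : E4 → E4 → Γ) 2 univ (Out 4) := by
    refine ⟨Null_mono 2 h.out hbY, ?_⟩
    change D (1 : E4 → E4 → Γ) b ∈ Null Γ 3 univ
    rw [← h.cover, Null_union]
    refine ⟨?_, D_Null _ hbY⟩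
    have h1 := D_Null (1 : E4 → E4 → Γ) hbX
    have h2 := Null_mono 3 (subset_univ X) hDD
    have h3 := sub_mem h2 h1
    rw [map_sub, sub_sub_cancel] at h3
    exact h3
  obtain ⟨g, hg, hbg⟩ := mem_Bc.1 ((orn_gen.2 Γ).2.2 2 (by norm_num) hbZ)
  have hY : CocZ (fun a b => g [a, b]) Y := by
    refine CocZ_of_Zc ⟨by simp, ?_⟩
    have h3 := sub_mem hbY (Null_mono 2 (subset_univ Y) hbg)
    rw [sub_sub_cancel] at h3
    exact h3
  have hX : CocZ (fun a b => (co1 f - g) [a, b]) X := by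
    refine CocZ_of_Zc ⟨by simp, ?_⟩
    have h3 := add_mem hbX (Null_mono 2 (subset_univ X) hbg)
    rw [sub_add_sub_cancel, ← map_sub] at h3
    exact h3
  have hag : ∀ x : E4, ∃ U ∈ 𝓝 x, ∀ a ∈ U, ∀ b ∈ U,
      (if 1 < ‖a‖ ∧ 1 < ‖b‖ then 0 else g [a, b]) = g [a, b] := by
    intro x
    by_cases hx : ‖x‖ < 1
    · refine ⟨Metric.ball 0 1, Metric.isOpen_ball.mem_nhds (mem_ball_zero_iff.2 hx),
        fun a ha b _ => ?_⟩
      rw [if_neg fun hh => absurd (mem_ball_zero_iff.1 ha) (not_lt.2 hh.1.le)]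
    · obtain ⟨U, hU, h1⟩ := hg x (not_lt.1 hx)
      refine ⟨U, hU, fun a ha b hb => ?_⟩
      have : g [a, b] = 0 := h1 [a, b] rfl (by
        intro y hy
        rcases List.mem_cons.1 hy with rfl | hy
        · exact ha
        · rw [List.mem_singleton.1 hy]; exact hb)
      rw [this, ite_self]
  refine ⟨fun a b => if 1 < ‖a‖ ∧ 1 < ‖b‖ then 0 else g [a, b], ?_, sdb_congr hY hag,
    fun a b ha hb => if_pos ⟨ha, hb⟩⟩
  refine sdb_congr hX fun x => ?_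
  obtain ⟨U, hU, h1⟩ := hag x
  refine ⟨U, hU, fun a ha b hb => ?_⟩
  change f a b - (if 1 < ‖a‖ ∧ 1 < ‖b‖ then 0 else g [a, b]) = f a b - g [a, b]
  rw [h1 a ha b hb]

lemma sdc_coc {Z : Type} [TopologicalSpace Z] [T2Space Z] {ι : E4 → Z} (hι : IsOpenEmbedding ι)
    {Y : Set E4} {n : E4 → E4 → Γ} (hn : CocZ n Y) (h0 : ∀ a b, 1 < ‖a‖ → 1 < ‖b‖ → n a b = 0) :
    ∃ m : Z → Z → Γ, CocZ m (ι '' Yᶜ)ᶜ ∧ ∀ a b, m (ι a) (ι b) = n a b := by
  classical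
  obtain ⟨g, g1, g2⟩ : ∃ g : Z → E4, (∀ a, g (ι a) = a) ∧ ∀ z, z ∉ range ι → g z = fun _ => 2 :=
    ⟨Function.extend ι id fun _ _ => 2, fun a => hι.injective.extend_apply _ _ a,
      fun z hz => Function.extend_apply' _ _ _ hz⟩
  refine ⟨fun y z => n (g y) (g z), fun y hy => ?_, fun a b => by simp only [g1]⟩
  by_cases h : y ∈ range ι
  · obtain ⟨a, rfl⟩ := h
    obtain ⟨U, hU, h1⟩ := hn a (by_contra fun ha => hy ⟨a, ha, rfl⟩)
    have hc : ContinuousAt g (ι a) := hι.continuousAt_iff.1 (by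
      rw [show g ∘ ι = id from funext g1]
      exact continuousAt_id)
    exact ⟨g ⁻¹' U, hc (by rwa [g1]), fun a ha b hb c hc => h1 _ ha _ hb _ hc⟩
  · have hK : IsClosed (ι '' Metric.closedBall 0 1) :=
      ((isCompact_closedBall 0 1).image hι.continuous).isClosed
    have h1 : ∀ z ∈ (ι '' Metric.closedBall 0 1)ᶜ, 1 < ‖g z‖ := fun z hz => by
      by_cases h2 : z ∈ range ι
      · obtain ⟨a, rfl⟩ := h2
        rw [g1]
        exact not_le.1 fun ha => hz ⟨a, mem_closedBall_zero_iff.2 ha, rfl⟩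
      · rw [g2 z h2, pi_norm_const]
        norm_num
    refine ⟨_, hK.isOpen_compl.mem_nhds fun h2 => h (image_subset_range _ _ h2),
      fun a ha b hb c hc => ?_⟩
    simp only [h0 _ _ (h1 a ha) (h1 b hb), h0 _ _ (h1 b hb) (h1 c hc), h0 _ _ (h1 a ha) (h1 c hc),
      add_zero]

/-- restriction of a cocycle on a side -/
def pb {M : Type} [TopologicalSpace M] (s : Side M) (n : E4 → E4 → Γ) : M → M → Γ :=
  fun a b => n (s.e a) (s.e b)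

lemma pb_coc {M : Type} [TopologicalSpace M] (s : Side M) {n : E4 → E4 → Γ} (hn : CocZ n s.X) :
    CocZ (pb s n) univ :=
  hn.comp (fun _ _ => s.cont.continuousAt) fun x _ => (s.inter.ge (mem_range_self x)).1

lemma pb_equiv {M : Type} [TopologicalSpace M] [CompactSpace M] (s : Side M) {n : E4 → E4 → Γ}
    (hn : CocZ n s.X) {R : Type} [CommRing R] (t : AddChar Γ Rˣ) (k : ℕ) :
    ∃ Φ : H (tw t n) k (s.X ∩ s.Y) ∅ ≃ₗ[R] H (tw t (pb s n)) k univ ∅,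
      ∀ c hc, ∃ h', Φ (cl c hc) = cl (pull s.e 1 c) h' :=
  emb_equiv k isCompact_univ (empty_subset _) s.cont s.inj.injOn (by rw [s.inter, image_univ])
    (by simp) ((hn.tw t).mono inter_subset_left) fun _ _ => rfl

theorem two_sides {M : Type} [TopologicalSpace M] [CompactSpace M] [Nonempty M] (h : EmbedsFlat M) :
    ∃ s₁ s₂ : Side M, ∀ (Γ : Type) [CommRing Γ] (f : M → M → Γ), CocZ f univ →
      ∃ n₁ n₂ : E4 → E4 → Γ, CocZ n₁ s₁.X ∧ CocZ n₂ s₂.X ∧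
        ∀ a b, f a b = pb s₁ n₁ a b + pb s₂ n₂ a b := by
  obtain ⟨e, he, hφ⟩ := h
  obtain ⟨x0⟩ := ‹Nonempty M›
  have hF : Flat (range e) := by
    rintro _ ⟨x, rfl⟩
    exact hφ x
  obtain ⟨p1, hp1⟩ : ∃ p, p ∉ range e := by
    obtain ⟨φ, h1, h2⟩ := hφ x0
    obtain ⟨y, h3, h4⟩ := sdc_pos h1 ((h2 _ h1).1 (mem_range_self x0))
    exact ⟨y, fun h5 => h4.ne' ((h2 y h3).1 h5)⟩
  obtain ⟨ι1, i1, -, b1⟩ := stereo p1 (isCompact_range he.continuous) hp1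
  obtain ⟨e1, c1, j1, k1, r1⟩ := sdc_lift he i1 (b1.trans (image_subset_range _ _))
  obtain ⟨X1, Y1, xy, hi⟩ := sides (isCompact_range c1)
    (by
      rw [← r1, ← preimage_image_eq (Metric.ball 0 1) i1.injective]
      exact preimage_mono b1) (r1 ▸ hF.preimage i1)
  obtain ⟨r, r2, r3⟩ := near_retr (e := e1) isCompact_univ ⟨x0, trivial⟩ c1 j1.injOn
  have pX : ι1 ⁻¹' (ι1 '' X1) = X1 := preimage_image_eq _ i1.injective
  have pY : ι1 ⁻¹' (ι1 '' Y1ᶜ)ᶜ = Y1 := by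
    rw [preimage_compl, preimage_image_eq _ i1.injective, compl_compl]
  have cX : IsClosed (ι1 '' X1) := (xy.compact.image i1.continuous).isClosed
  have cY : IsClosed (ι1 '' Y1ᶜ)ᶜ := (i1.isOpenMap _ xy.cY.isOpen_compl).isClosed_compl
  have sd : Sided (ι1 '' X1) (ι1 '' Y1ᶜ)ᶜ := Sided.of_preimage i1
    (inter_subset_left.trans (image_subset_range _ _)) (by rw [pX, pY]; exact xy.sided)
  have cv : (ι1 '' Y1ᶜ)ᶜ ∪ ι1 '' X1 = univ := eq_univ_of_forall fun y => by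
    by_cases hy : y ∈ ι1 '' Y1ᶜ
    · obtain ⟨a, ha, rfl⟩ := hy
      exact Or.inr ⟨a, (xy.cover.ge (mem_univ a)).resolve_right ha, rfl⟩
    · exact Or.inl hy
  have it : (ι1 '' Y1ᶜ)ᶜ ∩ ι1 '' X1 = range e := by
    refine Subset.antisymm ?_ ?_
    · rintro _ ⟨h1, a, ha, rfl⟩
      exact r1.ge (hi.le ⟨ha, pY.le h1⟩)
    · rintro _ ⟨x, rfl⟩
      have h1 := hi.ge (mem_range_self x)
      rw [← k1]
      exact ⟨pY.ge h1.2, _, h1.1, rfl⟩
  obtain ⟨a2, ha2⟩ : ∃ a, a ∉ Y1 := by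
    have h1 := hi.ge (mem_range_self x0)
    obtain ⟨φ, h2, h3⟩ := xy.sided _ h1
    obtain ⟨y, h4, h5⟩ := sdc_pos h2 (le_antisymm ((h3 _ h2).2.1 h1.2) ((h3 _ h2).1.1 h1.1))
    exact ⟨y, fun h6 => not_le.2 h5 ((h3 y h4).2.1 h6)⟩
  obtain ⟨ι2, i2, -, b2⟩ := stereo (ι1 a2) cY.isCompact fun h1 => h1 ⟨a2, ha2, rfl⟩
  obtain ⟨e2, c2, j2, k2, r4⟩ := sdc_lift he i2
    ((it.ge.trans inter_subset_left).trans (b2.trans (image_subset_range _ _)))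
  have z0 : ∀ F : Set E4, MP_3d25f3_gt.CocZ (fun _ _ => 0) F :=
    fun _ _ _ => ⟨univ, univ_mem, fun _ _ _ _ _ _ => by simp⟩
  refine ⟨⟨e1, X1, Y1, _, c1, j1, xy, hi, z0 _⟩,
    ⟨e2, ι2 ⁻¹' (ι1 '' Y1ᶜ)ᶜ, ι2 ⁻¹' (ι1 '' X1), _, c2, j2,
      ⟨cY.preimage i2.continuous, cX.preimage i2.continuous, ?_, ?_, sd.symm.preimage i2⟩, ?_,
      z0 _⟩, fun Γ _ f hf => ?_⟩
  · rw [← preimage_union, cv, preimage_univ]
  · rw [← preimage_image_eq (Metric.ball 0 1) i2.injective]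
    exact preimage_mono b2
  · rw [← preimage_inter, it, r4]
  obtain ⟨n, n1, n2, n3⟩ := split_coc xy (f := fun a b => f (r a) (r b))
    (hf.comp (fun a ha => by
      obtain ⟨x, rfl⟩ := hi.le ha
      exact r3 x trivial) (mapsTo_univ _ _))
  obtain ⟨m, m1, m2⟩ := sdc_coc i1 n2 n3
  refine ⟨_, fun a b => m (ι2 a) (ι2 b), n1,
    m1.comp (fun _ _ => i2.continuous.continuousAt) fun _ ha => ha, fun a b => ?_⟩
  simp only [pb]
  rw [k2, k2, ← k1, ← k1, m2, r2 a trivial, r2 b trivial, sub_add_cancel]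

end Pool.Agent.P.MP_3d25f3_gt.G
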