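import Pool.Agent.P.MP_3d25f3_gt.GPer
import Pool.Agent.P.MP_3d25f3_gt.The

set_option autoImplicit false

open Set Filter Topology

namespace Pool.Agent.P.MP_3d25f3_gt.G

open Module

variable {g : ℕ} {S : List (ℕ × ℤ)} {Γ : Type} [CommRing Γ] {n : Seifert g S → Seifert g S → Γ}
  {A : Cov → Γ} {N : Γ} {ne : ℕ → Γ}

theorem exists_rep [T2Space (Seifert g S)] (hn : CocZ n univ) (h : Per g S n A N ne) {ω : AddChar Γ ℂˣ}
    (hω : ω N = 1) {x : ZMod (LL g S) → ℂ} (hx : x ∈ Pol g S fun e => ((ω (ne e) : ℂˣ) : ℂ)) :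
    ∃ v ∈ Zc (tw ω n) 1 univ ∅, ∃ E, IsRep g S ω A ne x v E := by
  obtain ⟨E, hE1, hE2, hE3⟩ := exists_step hx
  obtain ⟨γ, hγ⟩ := desc_pc (fun y => ω (A y)) fun y z => by
    simp only [h.per, AddChar.map_add_eq_mul, hω, mul_one]
  obtain ⟨σ, hσ⟩ := (pm_surj (g := g) (S := S)).hasRightInverse
  obtain ⟨v, hv, hp⟩ := descend (π := pm g S) isClosedMap_pm continuous_pm pm_surj (hn.tw ω)
    (γ := fun y => ((γ y : ℂˣ) : ℂ)) (γ' := fun y => (((γ y)⁻¹ : ℂˣ) : ℂ)) (E := fun y => E y.1)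
    (fun y => Units.mul_inv _) (fun y => by
      obtain ⟨y, rfl⟩ := pc_surj y
      obtain ⟨U, hU, hU'⟩ := h.prim y
      refine ⟨pc '' U, isOpenMap_pc.image_mem_nhds hU, ?_⟩
      rintro _ ⟨a, ha, rfl⟩ _ ⟨b, hb, rfl⟩
      have := hU' a ha b hb
      simp only [pp] at this
      simp only [tw, hγ, this]
      rw [← Units.val_mul, ← AddChar.map_add_eq_mul, add_sub_cancel]) (fun x' => by
      rcases exi_cases x' with ⟨P, rfl, hP⟩ | ⟨P, u, rfl, hu, hP⟩ | ⟨e, he, z, rfl⟩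
      · refine ⟨fun x' => (((γ P)⁻¹ : ℂˣ) : ℂ) * (E (σ x').1 - E P.1), fun y hy => ?_⟩
        obtain rfl := fib_int hy.symm hP
        have ho : IsOpen {y' : Solid | ‖(y'.1 : ℂ)‖ < 1} := isOpen_lt (by fun_prop) (by fun_prop)
        filter_upwards [ho.mem_nhds hP] with y' hy'
        rw [← fib_int (hσ (pm g S y')).symm hy']
      · refine ⟨0, fun y hy => ?_⟩
        obtain ⟨u', hu', hy'⟩ := fib_bd hy.symm hu hP
        have t1 : Tendsto (fun y' : Solid => y'.1) (𝓝 y) (𝓝 (bp (LL g S) u')) := by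
          rw [← hy']; exact continuous_fst.continuousAt
        filter_upwards [t1.eventually (hE3 u' hu')] with y'' hy''
        simp [hy'', hy']
      · refine exi_mid (γ' := fun y => (((γ y)⁻¹ : ℂˣ) : ℂ)) he z (hE2 e he) ?_
        simp only [hγ, h.arc e he (1 / 2) ⟨by norm_num, by norm_num⟩ z]
        rw [← Units.val_mul, AddChar.map_add_eq_mul, mul_inv_rev, mul_comm (ω (ne e))⁻¹, mul_assoc,
          inv_mul_cancel, mul_one])
  refine ⟨v, hv, E, fun y => ?_, hE1, hE2⟩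
  obtain ⟨U, hU, hU'⟩ := hp (pc y)
  refine ⟨pc ⁻¹' U, continuous_pc.continuousAt.preimage_mem_nhds hU, fun a ha b hb => ?_⟩
  have := hU' _ ha _ hb
  rw [hγ] at this
  exact this

lemma the_eq [T2Space (Seifert g S)] (hn : CocZ n univ) (h : Per g S n A N ne) {ω : AddChar Γ ℂˣ}
    (hω : ω N = 1) {v v' : List (Seifert g S) → ℂ} (hv : v ∈ Zc (tw ω n) 1 univ ∅)
    (hv' : v' ∈ Zc (tw ω n) 1 univ ∅) {E E' : Cov → ℂ} (hE : Prim g S ω A v E)
    (hE' : Prim g S ω A v' E') (h1 : ∀ y z, E (y, z + 1) = E (y, z))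
    (h1' : ∀ y z, E' (y, z + 1) = E' (y, z)) (ve : ℕ → ℂ)
    (h2 : ∀ e < NE g S, ∀ s ∈ Icc (0 : ℝ) 1, ∀ z,
      E (gb g S e s z) = ((ω (ne e) : ℂˣ) : ℂ) * E (ga g S e s z) + ve e)
    (h2' : ∀ e < NE g S, ∀ s ∈ Icc (0 : ℝ) 1, ∀ z,
      E' (gb g S e s z) = ((ω (ne e) : ℂˣ) : ℂ) * E' (ga g S e s z) + ve e) :
    cl v hv = cl v' hv' := by
  rw [cl_eq]
  have e : v - v' = (1 : ℂ) • v + (-1 : ℂ) • v' := by simp [sub_eq_add_neg]
  have hz : (1 : ℂ) • v + (-1 : ℂ) • v' ∈ Zc (tw ω n) 1 univ ∅ := e ▸ sub_mem hv hv'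
  rw [e]
  refine Prim.mem_Bc hn h hz (hE.sub hE' 1 (-1)) (fun y z => ?_) fun e he s hs z => ?_
  · rw [h1, h1', hω]; simp
  · rw [h2 e he s hs, h2' e he s hs]; ring

lemma the_data (hS : Data S) (h : Per g S n A N ne) {ω : AddChar Γ ℂˣ} (hω : ω N = 1)
    (hne : ∃ e < NE g S, ω (ne e) ≠ 1) {v : List (Seifert g S) → ℂ} {E : Cov → ℂ}
    (hE : Prim g S ω A v E) : (∀ y z, E (y, z + 1) = E (y, z)) ∧
      ∃ x ∈ Pol g S (fun e => ((ω (ne e) : ℂˣ) : ℂ)), ∀ e < NE g S, ∀ s ∈ Icc (0 : ℝ) 1, ∀ z,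
        E (gb g S e s z) = ((ω (ne e) : ℂˣ) : ℂ) * E (ga g S e s z) +
          vv g (fun e => ((ω (ne e) : ℂˣ) : ℂ)) x e := by
  obtain ⟨vh, ve, h1, h2⟩ := hE.data h
  simp only [hω, Units.val_one, one_mul] at h1
  set ρ : ℕ → ℂ := fun e => ((ω (ne e) : ℂˣ) : ℂ) with hρ
  have h0 : (0 : ℝ) ∈ Icc (0 : ℝ) 1 := ⟨le_rfl, zero_le_one⟩
  have h01 : (1 : ℝ) ∈ Icc (0 : ℝ) 1 := ⟨zero_le_one, le_rfl⟩
  have hvh : vh = 0 := by
    obtain ⟨e, he, hne⟩ := hne
    have a1 := h2 e he 0 h0 (0 + 1)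
    have a2 := h2 e he 0 h0 0
    simp only [ga, gb, zero_mul, add_zero] at a1 a2
    rw [h1, h1, a2] at a1
    have a3 : (ρ e - 1) * vh = 0 := by simp only [hρ]; linear_combination -a1
    refine (mul_eq_zero.1 a3).resolve_left fun a4 => hne (Units.ext ?_)
    exact sub_eq_zero.1 a4
  simp only [hvh, add_zero] at h1
  have hint : ∀ (y : Disc) (z : ℝ) (k : ℤ), E (y, z + k) = E (y, z) := by
    intro y z k
    induction k using Int.induction_on with
    | zero => simp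
    | succ k ih => rw [← ih, ← h1 y (z + (k : ℤ))]; congr 2; push_cast; ring
    | pred k ih => rw [← ih, ← h1 y (z + (-k - 1 : ℤ))]; congr 2; push_cast; ring
  let X : ℕ → ℂ := fun k => if 4 * g ≤ k ∧ k % 2 = 1 then
    ve (2 * g + (k - 4 * g) / 2) / (1 - ρ (2 * g + (k - 4 * g) / 2)) else E (bp (LL g S) k, 0)
  let x : ZMod (LL g S) → ℂ := fun j => X j.val
  have hx : ∀ j ≤ LL g S, ¬ (4 * g ≤ j ∧ j % 2 = 1) → x j = E (bp (LL g S) j, 0) := by
    intro j hj hj'
    rcases hj.eq_or_lt with rfl | hj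
    · have e1 : bp (LL g S) ((0 : ℕ) : ℝ) = bp (LL g S) (LL g S) :=
        (bp_eq_iff (NeZero.ne _) _ _).2 ⟨1, by simp⟩
      simp only [x, X, ZMod.natCast_self, ZMod.val_zero]
      rw [if_neg (by omega), e1]
    · simp only [x, X, the_val hj]
      rw [if_neg hj']
  have hv1 : ∀ e < NE g S, vv g ρ x e = ve e := by
    intro e he
    have a1 := h2 e he 0 h0 0
    have a2 := st_le he
    simp only [ga, gb, zero_mul, add_zero, sub_zero] at a1
    rw [vv, hx _ a2 (by unfold st wd; split_ifs <;> omega),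
      hx _ (by omega) (by unfold st; split_ifs <;> omega)]
    push_cast
    rw [a1]
    simp only [hρ]
    push_cast
    ring
  refine ⟨h1, x, fun e he => ?_, fun e he s hs z => by rw [hv1 e he]; exact h2 e he s hs z⟩
  rw [hv1 e he]
  have a2 := st_le he
  have a3 := wd_ge (g := g) e
  by_cases hg : e < 2 * g
  · have a1 := h2 e he 1 h01 0
    have a4 : sh g S e = 0 := by simp [sh, pr, hg]
    simp only [ga, gb, a4, mul_zero, add_zero] at a1
    rw [hx _ (by omega) (by unfold st wd; split_ifs; omega),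
      hx _ (by omega) (by unfold st; split_ifs; omega), Nat.cast_sub (by omega)]
    push_cast
    rw [a1]
    simp only [hρ]
    push_cast
    ring
  · have a4 : wd g e = 2 := by simp [wd, hg]
    have a5 : st g e = 4 * g + 2 * (e - 2 * g) := by simp [st, hg]
    have a6 : st g e + wd g e - 1 = st g e + 1 := by omega
    have a7 : x ((st g e + 1 : ℕ) : ZMod _) = ve e / (1 - ρ e) := by
      have a8 : 2 * g + (st g e + 1 - 4 * g) / 2 = e := by omega
      simp only [x, X, the_val (show st g e + 1 < LL g S by omega)]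
      rw [if_pos (by omega), a8]
    rw [a6, a7]
    by_cases h1ρ : ρ e = 1
    · have b1 : ∀ z, E (bp (LL g S) (st g e + 1), z + sh g S e) =
          E (bp (LL g S) (st g e + 1), z) + ve e := by
        intro z
        have a1 := h2 e he 1 h01 z
        have a9 : ((ω (ne e) : ℂˣ) : ℂ) = 1 := h1ρ
        simp only [ga, gb, a4, one_mul, a9] at a1
        rw [← a1]
        congr 3
        push_cast
        ring
      have b2 : ∀ m : ℕ, E (bp (LL g S) (st g e + 1), m * sh g S e) =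
          E (bp (LL g S) (st g e + 1), 0) + m * ve e := by
        intro m
        induction m with
        | zero => simp
        | succ m ih => push_cast; rw [add_mul, one_mul, b1, ih]; ring
      have b3 := (pr_data (g := g) hS e).1
      have b4 : (((pr g S e).1 : ℕ) : ℝ) * sh g S e = 0 + ((pr g S e).2 : ℤ) := by
        have : (((pr g S e).1 : ℕ) : ℝ) ≠ 0 := by exact_mod_cast (by omega : (pr g S e).1 ≠ 0)
        rw [sh]; field_simp; simp
      have b5 := b2 (pr g S e).1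
      rw [b4, hint] at b5
      have b6 : (((pr g S e).1 : ℕ) : ℂ) ≠ 0 := by exact_mod_cast (by omega : (pr g S e).1 ≠ 0)
      have b7 : ve e = 0 := (mul_eq_zero.1 (by linear_combination -b5)).resolve_left b6
      rw [b7, h1ρ]
      simp
    · have b1 : 1 - ρ e ≠ 0 := sub_ne_zero.2 (Ne.symm h1ρ)
      field_simp

lemma the_arc {ω : AddChar Γ ℂˣ} {x : ZMod (LL g S) → ℂ} {v : List (Seifert g S) → ℂ} {E : Disc → ℂ}
    (h : IsRep g S ω A ne x v E) : ∀ e < NE g S, ∀ s ∈ Icc (0 : ℝ) 1, ∀ z,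
      (fun y : Cov => E y.1) (gb g S e s z) =
        ((ω (ne e) : ℂˣ) : ℂ) * (fun y : Cov => E y.1) (ga g S e s z) +
          vv g (fun e => ((ω (ne e) : ℂˣ) : ℂ)) x e :=
  fun e he s hs _ => h.arc e he s hs

/-- the first twisted cohomology is a quotient of the vertex data -/
theorem exists_theta [T2Space (Seifert g S)] (hS : Data S) (hn : CocZ n univ)
    (h : Per g S n A N ne) {ω : AddChar Γ ℂˣ} (hω : ω N = 1) (hne : ∃ e < NE g S, ω (ne e) ≠ 1) :
    ∃ Θ : Pol g S (fun e => ((ω (ne e) : ℂˣ) : ℂ)) →ₗ[ℂ] H (tw ω n) 1 univ ∅,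
      Function.Surjective Θ ∧ ∀ x, ∃ v hv E, IsRep g S ω A ne x.1 v E ∧ Θ x = cl v hv := by
  choose v hv E hE using fun x : Pol g S (fun e => ((ω (ne e) : ℂˣ) : ℂ)) =>
    exists_rep hn h hω x.2
  have lin : ∀ (a b : ℂ) (x y : Pol g S (fun e => ((ω (ne e) : ℂˣ) : ℂ))),
      cl (v (a • x + b • y)) (hv _) = a • cl (v x) (hv x) + b • cl (v y) (hv y) := by
    intro a b x y
    rw [← cl_smul, ← cl_smul, ← cl_add]
    refine the_eq hn h hω _ _ (hE _).prim ((hE x).prim.sub (hE y).prim a b) (fun _ _ => rfl)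
      (fun _ _ => rfl) _ (the_arc (hE _)) fun e he s hs z => ?_
    have a1 := the_arc (hE x) e he s hs z
    have a2 := the_arc (hE y) e he s hs z
    simp only at a1 a2 ⊢
    rw [a1, a2]
    simp only [vv, Submodule.coe_add, Submodule.coe_smul, Pi.add_apply, Pi.smul_apply,
      smul_eq_mul]
    ring
  refine ⟨{ toFun := fun x => cl (v x) (hv x)
            map_add' := fun x y => by simpa using lin 1 1 x y
            map_smul' := fun a x => by simpa using lin a 0 x x }, fun c => ?_,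
    fun x => ⟨v x, hv x, E x, hE x, rfl⟩⟩
  obtain ⟨w, hw, rfl⟩ := cl_surj c
  obtain ⟨F, hF⟩ := exists_prim h hw
  obtain ⟨h1, x, hx, h2⟩ := the_data hS h hω hne hF
  exact ⟨⟨x, hx⟩, the_eq hn h hω _ _ (hE _).prim hF (fun _ _ => rfl) h1 _ (the_arc (hE _)) h2⟩

open Classical in
theorem finrank_tw [T2Space (Seifert g S)] (hS : Data S) (hn : CocZ n univ)
    (h : Per g S n A N ne) {ω : AddChar Γ ℂˣ} (hω : ω N = 1) (hne : ∃ e < NE g S, ω (ne e) ≠ 1) :
    2 * g + ((Finset.range (S.length + 1)).filter fun i => ω (ne (2 * g + i)) ≠ 1).card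
      ≤ finrank ℂ (H (tw ω n) 1 univ ∅) + 2 := by
  obtain ⟨Θ, hΘ, hrep⟩ := exists_theta hS hn h hω hne
  have h1 := LinearMap.finrank_range_add_finrank_ker Θ
  rw [LinearMap.range_eq_top.2 hΘ, finrank_top] at h1
  have h2 := finrank_Pol (g := g) (S := S) fun e => ((ω (ne e) : ℂˣ) : ℂ)
  have h3 := finrank_nojump (g := g) (S := S) (ρ := fun e => ((ω (ne e) : ℂˣ) : ℂ))
    (fun e => Units.ne_zero _) ((LinearMap.ker Θ).map (Submodule.subtype _)) (by
      rintro _ ⟨x, hx, rfl⟩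
      obtain ⟨v, hv, E, hE, e1⟩ := hrep x
      have hB : v ∈ Bc (tw ω n) 1 univ ∅ := (cl_eq_zero hv).1 (e1 ▸ LinearMap.mem_ker.1 hx)
      obtain ⟨C, -, hC⟩ := hE.prim.of_Bc h hB
      refine ⟨x.2, C, fun e he => ?_⟩
      have a1 := hC e he 0 ⟨le_rfl, zero_le_one⟩ 0
      have a2 := the_arc hE e he 0 ⟨le_rfl, zero_le_one⟩ 0
      simp only at a1 a2
      rw [a2] at a1
      show vv g _ x.1 e = _
      linear_combination a1)
  rw [Submodule.finrank_map_subtype_eq] at h3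
  have h4 := Finset.card_filter_add_card_filter_not (s := Finset.range (S.length + 1))
    fun i => ω (ne (2 * g + i)) = 1
  have h5 : ((Finset.range (S.length + 1)).filter
      fun i => ((ω (ne (2 * g + i)) : ℂˣ) : ℂ) = 1).card =
      ((Finset.range (S.length + 1)).filter fun i => ω (ne (2 * g + i)) = 1).card := by
    congr 1
    exact Finset.filter_congr fun i _ => Units.val_eq_one
  rw [Finset.card_range] at h4
  unfold NE at h2
  simp only [ne_eq] at h4 ⊢
  omega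

end Pool.Agent.P.MP_3d25f3_gt.G
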