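import Pool.Agent.P.MP_3d25f3_gt.GFacC
import Pool.Agent.P.MP_3d25f3_gt.GThe
import Pool.Agent.P.MP_3d25f3_gt.GSd
import Pool.Agent.P.MP_3d25f3_gt.Brg

set_option autoImplicit false

open Set Filter Topology

namespace Pool.Agent.P.MP_3d25f3_gt.G

open Module

variable {g : ℕ} {S : List (ℕ × ℤ)} {Γ : Type} [CommRing Γ]

/-- the jumps of the twisted family -/
def jw (g : ℕ) (S : List (ℕ × ℤ)) (w : ℕ → ℚ) (k : ℤ) : ℚ :=
  ∑ i ∈ Finset.range (S.length + 1),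
    2 * saw (k * (pr g S (2 * g + i)).2 / (pr g S (2 * g + i)).1 + w i)

variable {s : Side (Seifert g S)} {n : E4 → E4 → Γ} {A : Cov → Γ} {N : Γ} {ne : ℕ → Γ} {f : Fm Γ}
  {N₀ : ℕ} {w : ℕ → ℚ}

lemma exists_theta' (hS : Data S) (hn : CocZ n s.X) (h : Per g S (pb s n) A N ne) {ω : ℂˣ}
    (hω : ‖(ω : ℂ)‖ = 1) (hN : f.C ω N = 1) (hne : ∃ e < NE g S, f.C ω (ne e) ≠ 1)
    {W : SF (H (tw (f.C ω) n) 1 (s.X ∩ s.Y) ∅)} (hW : IsW f s.xy ω n W) :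
    ∃ Θ : Pol g S (fun e => ((f.C ω (ne e) : ℂˣ) : ℂ)) →ₗ[ℂ] H (tw (f.C ω) n) 1 (s.X ∩ s.Y) ∅,
      Function.Surjective Θ ∧ ∀ x x', ∃ w hw, W (Θ x) (Θ x') = intM ℂ s.xy (cl w hw) ∧
        Ev g S (pull s.e 1 w)
          (-Complex.I * f.deg N * area g S (fun e => ((f.C ω (ne e) : ℂˣ) : ℂ)) x.1 x'.1) := by
  have := s.t2
  obtain ⟨Θ, hΘ, hr⟩ := exists_theta hS (pb_coc s hn) h hN hne
  obtain ⟨Φ, hΦ⟩ := pb_equiv s hn (f.C ω) 1
  refine ⟨Φ.symm.toLinearMap ∘ₗ Θ, Φ.symm.surjective.comp hΘ, fun x x' => ?_⟩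
  obtain ⟨v, hv, E, hE, e⟩ := hr x
  obtain ⟨v', hv', E', hE', e'⟩ := hr x'
  obtain ⟨u, hu, f1⟩ := cl_surj (Φ.symm (Θ x))
  obtain ⟨u', hu', f2⟩ := cl_surj (Φ.symm (Θ x'))
  obtain ⟨hw, hW'⟩ := hW u hu u' hu'
  refine ⟨_, hw, ?_, ?_⟩
  · rw [← hW', f1, f2]; rfl
  obtain ⟨h1, e1⟩ := hΦ u hu
  obtain ⟨h2, e2⟩ := hΦ u' hu'
  rw [f1, LinearEquiv.apply_symm_apply, e, cl_eq] at e1
  rw [f2, LinearEquiv.apply_symm_apply, e', cl_eq] at e2
  refine (ev_wf f.deg h (f.norm_C hω) hE hE').congr ?_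
  have h3 := wf_Bc (pb_coc s hn) hω hv hv' e1 e2
  have h4 : wf f.deg (f.C ω) (pb s n) (pull s.e 1 u) (pull s.e 1 u') - pull s.e 1 (wf f.deg (f.C ω) n u u')
      ∈ Null ℂ 3 (univ : Set (Seifert g S)) := by
    refine fun y _ => ⟨univ, univ_mem, fun l hl _ => ?_⟩
    match l, hl with
    | [a, b, c, d], _ => simp [wf, cup, co1, tw, pb]
  have := add_mem h3 (Null_le_Bc _ _ _ _ h4)
  rwa [sub_add_sub_cancel] at this

lemma slit_val (hS : Data S) (h : Per g S (pb s n) A N ne) (hN : 0 < N₀) (h1 : f.deg N = N₀)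
    (hw : ∀ i ≤ S.length, (f.ψ (ne (2 * g + i)) : ℂ) = rt (w i)) (k : ℤ) {i : ℕ}
    (hi : i ≤ S.length) : (f.C (cu (th N₀ k)) (ne (2 * g + i)) : ℂ)
      = rt (k * (pr g S (2 * g + i)).2 / (pr g S (2 * g + i)).1 + w i) := by
  have h2 := h.map f.deg
  rw [h1] at h2
  rw [f.C_apply, Units.val_mul, hw i hi, chain_rt_add, cu_th_slit hS (Per.int.1 h2) hN k hi]

lemma area_val (h : Per g S (pb s n) A N ne) {χ : AddChar Γ ℂˣ} (hχ : ∀ a, ‖(χ a : ℂ)‖ = 1)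
    {μ : ℕ → ℚ} (hμ : ∀ i ≤ S.length, (χ (ne (2 * g + i)) : ℂ) = rt (μ i)) :
    (sgn (cmp (area g S fun e => (χ (ne e) : ℂ)) (Pol g S fun e => (χ (ne e) : ℂ)).subtype) : ℚ)
      = -∑ i ∈ Finset.range (S.length + 1), 2 * saw (μ i) := by
  have e : (fun i : Fin (S.length + 1) => (χ (ne (2 * g + i)) : ℂ)) =
      fun i : Fin (S.length + 1) => rt (μ i) := funext fun i => hμ i (Nat.lt_succ_iff.1 i.2)
  have h1 : ∀ m ≤ S.length + 1, rt (∑ i ∈ Finset.range m, μ i)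
      = χ (∑ i ∈ Finset.range m, ne (2 * g + i)) := by
    intro m
    induction m with
    | zero => intro _; simp [rt]
    | succ m ih =>
      intro hm
      rw [Finset.sum_range_succ, Finset.sum_range_succ, chain_rt_add, ch_add, ih (by omega),
        hμ m (by omega)]
  have h2 := h1 _ le_rfl
  rw [h.sum_slit, AddChar.map_zero_eq_one, Units.val_one] at h2
  obtain ⟨z, hz⟩ := chain_rt_one h2
  rw [Finset.sum_range] at hz
  rw [area_sgn_chain fun e => hχ _, e, chain_sgn, hz, chain_saw_int, ← Finset.mul_sum,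
    Finset.sum_range]
  ring

theorem bridge (hS : Data S) (hn : CocZ n s.X) (h : Per g S (pb s n) A N ne) (hN : 0 < N₀)
    (h1 : f.deg N = N₀) (h2 : f.ψ N = 1)
    (hw : ∀ i ≤ S.length, (f.ψ (ne (2 * g + i)) : ℂ) = rt (w i))
    (hne : ∀ k : ℤ, ∃ i ≤ S.length,
      rt (k * (pr g S (2 * g + i)).2 / (pr g S (2 * g + i)).1 + w i) ≠ 1)
    {U : Set E4} {hx : XN s.X s.Y U n} {ρ : ℕ} {G G₁ : ℝ → SF (Fin ρ → ℂ)}
    (hF : Family f hx N₀ ρ G G₁) : (∀ k, jw g S w k = 0) ∨ ∃ η : ℚ, η ≠ 0 ∧ ∀ k : ℤ,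
        (sgn (cmp (G₁ (th N₀ k)) (LinearMap.ker (G (th N₀ k))).subtype) : ℚ) = η * jw g S w k := by
  obtain ⟨κ, hκ⟩ : ∃ κ : ℂ, ∀ (w : List E4 → ℂ) (hw : w ∈ Zc (1 : E4 → E4 → ℂ) 3 (s.X ∩ s.Y) ∅)
      (c : ℂ), Ev g S (pull s.e 1 w) c → c = κ * intM ℂ s.xy (cl w hw) := by
    by_cases hex : ∃ (w : List E4 → ℂ) (hw : w ∈ Zc (1 : E4 → E4 → ℂ) 3 (s.X ∩ s.Y) ∅) (c : ℂ),
        Ev g S (pull s.e 1 w) c ∧ intM ℂ s.xy (cl w hw) ≠ 0
    · obtain ⟨w₀, hw₀, c₀, h₀, hI⟩ := hex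
      refine ⟨c₀ / intM ℂ s.xy (cl w₀ hw₀), fun w hw c hc => ?_⟩
      have h1 := hc.lin h₀ (intM ℂ s.xy (cl w₀ hw₀)) (-intM ℂ s.xy (cl w hw))
      rw [← map_smul, ← map_smul, ← map_add] at h1
      have h2 := ev_of_int hS (add_mem (Submodule.smul_mem _ _ hw) (Submodule.smul_mem _ _ hw₀)) h1
        (by rw [cl_add (Submodule.smul_mem _ _ hw) (Submodule.smul_mem _ _ hw₀), cl_smul _ hw,
              cl_smul _ hw₀, map_add, map_smul, map_smul, smul_eq_mul, smul_eq_mul]; ring)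
      field_simp
      linear_combination h2
    · push Not at hex
      exact ⟨0, fun w hw c hc => by rw [zero_mul]; exact ev_of_int hS hw hc (hex w hw c hc)⟩
  have hN' : (N₀ : ℂ) ≠ 0 := by exact_mod_cast hN.ne'
  have key : ∀ k : ℤ, ∃ (P : Type) (_ : AddCommGroup P) (_ : Module ℂ P)
      (_ : FiniteDimensional ℂ P) (a : SF P) (W : SF (H (tw (f.C (cu (th N₀ k))) n) 1 (s.X ∩ s.Y) ∅))
      (Θ : P →ₗ[ℂ] H (tw (f.C (cu (th N₀ k))) n) 1 (s.X ∩ s.Y) ∅), Herm a ∧ (sgn a : ℚ) = -jw g S w k ∧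
      IsW f hx.xy (cu (th N₀ k)) n W ∧ Function.Surjective Θ ∧
      ∀ x y, a x y = κ / N₀ * (Complex.I * W (Θ x) (Θ y)) := by
    intro k
    obtain ⟨W, hW⟩ := exists_W (f := f) hx (norm_cu (th N₀ k))
    have hω : f.C (cu (th N₀ k)) N = 1 := by
      rw [f.C_apply, h1, h2, (cu_pow_eq_one hN (th N₀ k)).2 ⟨k, rfl⟩, one_mul]
    have hne' : ∃ e < NE g S, f.C (cu (th N₀ k)) (ne e) ≠ 1 := by
      obtain ⟨i, hi, h3⟩ := hne k
      refine ⟨2 * g + i, by unfold NE; omega, fun h4 => h3 ?_⟩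
      rw [← slit_val hS h hN h1 hw k hi, h4, Units.val_one]
    obtain ⟨Θ, hΘ, hv⟩ := exists_theta' hS hn h (norm_cu _) hω hne' hW
    have hρ := f.norm_C (norm_cu (th N₀ k))
    refine ⟨_, _, _, inferInstance, cmp (area g S _) (Pol g S _).subtype, W, Θ,
      area_herm fun e => hρ _, area_val h hρ fun i hi => slit_val hS h hN h1 hw k hi, hW, hΘ,
      fun x y => ?_⟩
    obtain ⟨w₁, hw₁, e1, e2⟩ := hv x y
    have e3 := hκ w₁ hw₁ _ e2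
    rw [← e1, h1, Int.cast_natCast] at e3
    rw [cmp_apply, Submodule.subtype_apply, Submodule.subtype_apply]
    field_simp
    linear_combination Complex.I * e3
      + (N₀ * area g S (fun e => ((f.C (cu (th N₀ k)) (ne e) : ℂˣ) : ℂ)) x.1 y.1) * Complex.I_mul_I
  by_cases h0 : κ = 0
  · refine Or.inl fun k => ?_
    obtain ⟨P, _, _, _, a, W, Θ, -, h2, -, -, h5⟩ := key k
    rw [sgn_of_zero fun x => by simp [h5, h0]] at h2
    simpa using h2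
  refine Or.inr ⟨-(if 0 < (κ / N₀).re then 1 else -1), by split_ifs <;> simp, fun k => ?_⟩
  obtain ⟨P, _, _, _, a, W, Θ, h1, h2, h3, h4, h5⟩ := key k
  obtain ⟨Q, π, hπ, h6, h7⟩ := hF.res _ ((cu_pow_eq_one hN _).2 ⟨k, rfl⟩) W h3
  have hH : Herm (cmp (G₁ (th N₀ k)) (LinearMap.ker (G (th N₀ k))).subtype) := by
    intro x y
    have d1 := hF.der (th N₀ k) y x
    have d2 := (hF.der (th N₀ k) x y).star
    have : (fun u => G u y x) = fun u => star (G u x y) := funext fun u => hF.herm u x y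
    rw [this] at d1
    exact d1.unique d2
  rw [sgn_transfer h1 hH h4 (div_ne_zero h0 hN') h5 hπ h6 h7]
  push_cast
  rw [h2]
  split_ifs <;> ring

end Pool.Agent.P.MP_3d25f3_gt.G
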