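import Pool.Agent.P.MP_3d25f3_gt.GPer
import Pool.Agent.P.MP_3d25f3_gt.Flow

set_option autoImplicit false

open Set Filter Topology

namespace Pool.Agent.P.MP_3d25f3_gt.G

variable {g : ℕ} {S : List (ℕ × ℤ)} {Γ : Type} [CommRing Γ]

lemma flow_a {n : Seifert g S → Seifert g S → Γ} {A : Cov → Γ} {N : Γ} {ne : ℕ → Γ}
    (h : Per g S n A N ne) : ∃ a : ℝ → Seifert g S → Γ,
      ∀ r y z, a r (pp g S (y, z)) = A (y, z + r) - A (y, z) := by
  have key : ∀ r : ℝ, ∃ f : Seifert g S → Γ,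
      ∀ y : Cov, f (pp g S y) = A (y.1, y.2 + r) - A (y.1, y.2) := by
    intro r
    refine desc_cov (fun y : Cov => A (y.1, y.2 + r) - A (y.1, y.2)) ?_ ?_
    · intro y z
      have h1 := h.per y (z + r)
      have h2 := h.per y z
      simp only
      rw [show z + 1 + r = z + r + 1 by ring, h1, h2]
      ring
    · intro e he s hs z
      have h1 := h.arc e he s hs (z + r)
      have h2 := h.arc e he s hs z
      simp only [ga, gb] at h1 h2 ⊢
      rw [show z + s * sh g S e + r = z + r + s * sh g S e by ring, h1, h2]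
      ring
  choose a ha using key
  exact ⟨a, fun r y z => ha r (y, z)⟩

lemma flow_itw [T2Space (Seifert g S)] {n : Seifert g S → Seifert g S → Γ} {A : Cov → Γ} {N : Γ}
    {ne : ℕ → Γ} (hn : CocZ n univ) (h : Per g S n A N ne) {φ : Seifert g S → ℝ → Seifert g S}
    (hφ : Continuous (Function.uncurry φ))
    (hφ' : ∀ y z r, φ (pp g S (y, z)) r = pp g S (y, z + r)) {a : ℝ → Seifert g S → Γ}
    (ha : ∀ r y z, a r (pp g S (y, z)) = A (y, z + r) - A (y, z)) (s : ℝ) (x : Seifert g S) :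
    ∃ U ∈ 𝓝 x, ∀ u ∈ U, ∀ v ∈ U, n u v + a s v = a s u + n (φ u s) (φ v s) := by
  have hc : Continuous fun u => φ u s := hφ.comp (continuous_id.prodMk continuous_const)
  have h2 : CocZ (fun u v => n (φ u s) (φ v s)) univ :=
    hn.comp (fun x _ => hc.continuousAt) (mapsTo_univ _ _)
  have h3 : CocZ (fun u v => n u v + a s v - a s u - n (φ u s) (φ v s)) univ := by
    intro x hx
    obtain ⟨U, hU, h4⟩ := hn x hx
    obtain ⟨V, hV, h5⟩ := h2 x hx
    refine ⟨U ∩ V, inter_mem hU hV, fun u hu v hv w hw => ?_⟩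
    have e1 := h4 u hu.1 v hv.1 w hw.1
    have e2 := h5 u hu.2 v hv.2 w hw.2
    simp only at e2 ⊢
    linear_combination e1 - e2
  have h4 := h3.co1.2
  have h5 := null_of_pull (π := pm g S) isClosedMap_pm pm_surj (Coc_one univ) h4 (by
    intro w _
    obtain ⟨⟨y, z⟩, rfl⟩ := pc_surj w
    apply flow_ev
    obtain ⟨U, hU, h6⟩ := h.prim (y, z)
    obtain ⟨V, hV, h7⟩ := h.prim (y, z + s)
    have hc' : Continuous fun p : Cov => ((p.1, p.2 + s) : Cov) := by fun_prop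
    have hV' : ∀ᶠ p : Cov in 𝓝 (y, z), ((p.1, p.2 + s) : Cov) ∈ V :=
      hc'.continuousAt.preimage_mem_nhds hV
    filter_upwards [hU, hV'] with p hp hp'
    obtain ⟨y', z'⟩ := p
    have e1 := h6 (y, z) (mem_of_mem_nhds hU) (y', z') hp
    have e2 := h7 (y, z + s) (mem_of_mem_nhds hV) (y', z' + s) hp'
    have e3 := ha s y z
    have e4 := ha s y' z'
    change ((n (pp g S (y, z)) (pp g S (y', z')) + a s (pp g S (y', z')) - a s (pp g S (y, z))
      - n (φ (pp g S (y, z)) s) (φ (pp g S (y', z')) s) : Γ) : Γ) = 0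
    rw [hφ', hφ', e1, e2, e3, e4]
    ring)
  obtain ⟨U, hU, h6⟩ := h5 x (mem_univ x)
  refine ⟨U, hU, fun u hu v hv => ?_⟩
  have e := h6 [u, v] rfl (by simp [hu, hv])
  change ((n u v + a s v - a s u - n (φ u s) (φ v s) : Γ) : Γ) = 0 at e
  linear_combination e

lemma flow_nu [T2Space (Seifert g S)] {n : Seifert g S → Seifert g S → Γ} {A : Cov → Γ} {N : Γ}
    {ne : ℕ → Γ} (h : Per g S n A N ne) {φ : Seifert g S → ℝ → Seifert g S}
    (hφ' : ∀ y z r, φ (pp g S (y, z)) r = pp g S (y, z + r)) {a : ℝ → Seifert g S → Γ}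
    (ha : ∀ r y z, a r (pp g S (y, z)) = A (y, z + r) - A (y, z)) (s : ℝ) (x : Seifert g S) :
    ∃ U ∈ 𝓝 x, ∃ J ∈ 𝓝 s, ∀ u ∈ U, ∀ r ∈ J, ∀ r' ∈ J,
      a r u + n (φ u r) (φ u r') = a r' u := by
  have hp : IsProperMap (pm g S) := continuous_pm.isProperMap
  have hcl : IsClosedMap (Prod.map (pm g S) (id : ℝ × ℝ → ℝ × ℝ)) :=
    (hp.prodMap isProperMap_id).isClosedMap
  have key := loc_closed hcl (x := (x, (s, s)))
    (P := fun w => a w.2.1 (pm g S w.1) + n (φ (pm g S w.1) w.2.1) (φ (pm g S w.1) w.2.2)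
      = a w.2.2 (pm g S w.1)) (by
    rintro ⟨w, r₀⟩ hw
    have hr : r₀ = (s, s) := congrArg Prod.snd hw
    subst hr
    obtain ⟨⟨y, z⟩, rfl⟩ := pc_surj w
    obtain ⟨V, hV, h7⟩ := h.prim (y, z + s)
    have ho : IsOpenMap (Prod.map pc (id : ℝ × ℝ → ℝ × ℝ)) := isOpenMap_pc.prodMap IsOpenMap.id
    have c1 : Continuous fun p : Cov × (ℝ × ℝ) => ((p.1.1, p.1.2 + p.2.1) : Cov) := by fun_prop
    have c2 : Continuous fun p : Cov × (ℝ × ℝ) => ((p.1.1, p.1.2 + p.2.2) : Cov) := by fun_prop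
    have e1 : ∀ᶠ p : Cov × (ℝ × ℝ) in 𝓝 ((y, z), (s, s)), ((p.1.1, p.1.2 + p.2.1) : Cov) ∈ V :=
      c1.continuousAt.preimage_mem_nhds hV
    have e2 : ∀ᶠ p : Cov × (ℝ × ℝ) in 𝓝 ((y, z), (s, s)), ((p.1.1, p.1.2 + p.2.2) : Cov) ∈ V :=
      c2.continuousAt.preimage_mem_nhds hV
    have e3 := ho.image_mem_nhds (e1.and e2)
    filter_upwards [e3] with w hw'
    obtain ⟨⟨⟨y', z'⟩, r, r'⟩, ⟨hy1, hy2⟩, rfl⟩ := hw'
    change a r (pp g S (y', z')) + n (φ (pp g S (y', z')) r) (φ (pp g S (y', z')) r')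
      = a r' (pp g S (y', z'))
    rw [hφ', hφ', ha, ha, h7 _ hy1 _ hy2]
    ring)
  obtain ⟨U, hU, K, hK, hUK⟩ := mem_nhds_prod_iff.1 key
  obtain ⟨J, hJ, J', hJ', hJJ⟩ := mem_nhds_prod_iff.1 hK
  refine ⟨U, hU, J ∩ J', inter_mem hJ hJ', fun u hu r hr r' hr' => ?_⟩
  obtain ⟨w, rfl⟩ := pm_surj u
  exact hUK (mk_mem_prod hu (hJJ (mk_mem_prod hr.1 hr'.2))) (w, (r, r')) rfl

/-- the fibre acts trivially on cohomology -/
theorem Per.kill [T2Space (Seifert g S)] {R : Type} [CommRing R]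
    {n : Seifert g S → Seifert g S → Γ} {A : Cov → Γ} {N : Γ} {ne : ℕ → Γ} (hn : CocZ n univ)
    (h : Per g S n A N ne) (t : AddChar Γ Rˣ) (k : ℕ) (x : H (tw t n) k univ ∅) :
    (((t N : Rˣ) : R) - 1) • x = 0 := by
  obtain ⟨c, hc, rfl⟩ := cl_surj x
  obtain ⟨φ, hφ, hφ'⟩ := exists_flow (g := g) (S := S)
  obtain ⟨a, ha⟩ := flow_a h
  have key := hi_gauge (τ₀ := tw t n) (τ := tw t n) (h := φ)
    (ν := fun u r => ((t (a r u) : Rˣ) : R)) (k := k) (F := univ) (F' := ∅) (G := univ) (G' := ∅)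
    isCompact_univ isCompact_empty (empty_subset _) hφ (hn.tw t) (fun _ _ _ _ => mem_univ _)
    (fun _ hx => hx.elim) (by
      intro s _ x _
      obtain ⟨U, hU, h1⟩ := flow_itw hn h hφ hφ' ha s x
      refine ⟨U, hU, fun u hu v hv => ?_⟩
      simp only [tw]
      rw [← Units.val_mul, ← Units.val_mul, ← AddChar.map_add_eq_mul, ← AddChar.map_add_eq_mul, h1 u hu v hv]) (by
      intro x _ s _
      obtain ⟨U, hU, J, hJ, h1⟩ := flow_nu h hφ' ha s x
      refine ⟨U, hU, J, hJ, fun u hu r hr r' hr' => ?_⟩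
      simp only [tw]
      rw [← Units.val_mul, ← AddChar.map_add_eq_mul, h1 u hu r hr r' hr']) hc
  have p1 : (fun u => φ u 1) = id := by
    funext u
    obtain ⟨⟨y, z⟩, rfl⟩ := pp_surj u
    have := pp_per (g := g) (S := S) y z 1
    rw [Int.cast_one] at this
    rw [hφ', this, id]
  have p0 : (fun u => φ u 0) = id := by
    funext u
    obtain ⟨⟨y, z⟩, rfl⟩ := pp_surj u
    rw [hφ', add_zero, id]
  have a1 : ∀ u, a 1 u = N := by
    intro u
    obtain ⟨⟨y, z⟩, rfl⟩ := pp_surj u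
    rw [ha, h.per]
    ring
  have a0 : ∀ u, a 0 u = 0 := by
    intro u
    obtain ⟨⟨y, z⟩, rfl⟩ := pp_surj u
    rw [ha, add_zero, sub_self]
  rw [← cl_smul, cl_eq_zero]
  rw [p1, p0] at key
  have hd : (((t N : Rˣ) : R) - 1) • c - (pull id (fun u => ((t (a 1 u) : Rˣ) : R)) c
      - pull id (fun u => ((t (a 0 u) : Rˣ) : R)) c) ∈ Null R k (univ : Set (Seifert g S)) := by
    intro x _
    refine ⟨univ, univ_mem, fun l hl _ => ?_⟩
    cases l with
    | nil => simp at hl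
    | cons u l =>
      simp only [Pi.sub_apply, Pi.smul_apply, pull_cons, a1, a0, smul_eq_mul, id, List.map_id,
        AddChar.map_zero_eq_one, Units.val_one]
      ring
  have := add_mem (Null_le_Bc (tw t n) k univ ∅ hd) key
  rwa [sub_add_cancel] at this

end Pool.Agent.P.MP_3d25f3_gt.G
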