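import Pool.Agent.P.MP_3d25f3_gt.GBrg
import Pool.Agent.P.MP_3d25f3_gt.GFlow
import Pool.Agent.P.MP_3d25f3_gt.Core

set_option autoImplicit false

open Set Filter Topology

namespace Pool.Agent.P.MP_3d25f3_gt.G

open Module

variable {g : ℕ} {S : List (ℕ × ℤ)} {Γ : Type} [CommRing Γ]

variable {s : Side (Seifert g S)} {n : E4 → E4 → Γ} {A : Cov → Γ} {N : Γ} {ne : ℕ → Γ} {f : Fm Γ}

/-- a character of prime power order lifts to a local ring -/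
lemma exists_lift {p c : ℕ} (hp : p.Prime) {χ : AddChar Γ ℂˣ} (h : ∀ a, χ a ^ p ^ c = 1) :
    ∃ (O κ : Type) (_ : CommRing O) (_ : IsDomain O) (_ : IsPrincipalIdealRing O) (_ : Field κ)
      (φ : O →+* ℂ) (ev : O →+* κ) (w : AddChar Γ Oˣ) (π : O), Function.Injective φ ∧
      (∀ a, φ (w a) = χ a) ∧ (∀ a, ev (w a) = 1) ∧ Red ev π ∧ CharP κ p := by
  have hn : p ^ c ≠ 0 := pow_ne_zero _ hp.ne_zero
  have : NeZero (p ^ c) := ⟨hn⟩
  have hζ := Complex.isPrimitiveRoot_exp _ hn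
  set η : ℂˣ := (hζ.isUnit hn).unit with hη
  have hη' : IsPrimitiveRoot η (p ^ c) := hζ.isUnit_unit hn
  obtain ⟨O, κ, _, _, _, _, φ, ev, w, π, hφ, hw, hw', hr, hch⟩ := exists_ploc hp hη'.pow_eq_one
  have h1 : ∀ a, ∃ j : ℕ, η ^ j = χ a := fun a =>
    let ⟨j, _, hj⟩ := hη'.eq_pow_of_mem_rootsOfUnity ((mem_rootsOfUnity _ _).2 (h a)); ⟨j, hj⟩
  choose j hj using h1
  have h2 : ∀ a, φ ((w ^ j a : Oˣ) : O) = χ a := fun a => by
    rw [Units.val_pow_eq_pow_val, map_pow, hw, ← hj, Units.val_pow_eq_pow_val]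
  refine ⟨O, κ, _, ‹_›, ‹_›, _, φ, ev, ⟨fun a => w ^ j a, Units.ext (hφ ?_),
    fun a b => Units.ext (hφ ?_)⟩, π, hφ, h2, fun a => ?_, hr, hch⟩
  · rw [h2]; simp
  · rw [h2, Units.val_mul, map_mul, h2, h2, ch_add]
  · show ev ((w ^ j a : Oˣ) : O) = 1
    rw [Units.val_pow_eq_pow_val, map_pow, hw', one_pow]

theorem sgn_pp (hS : Data S) (hn : CocZ n s.X) (h : Per g S (pb s n) A N ne) {U : Set E4}
    {hx : XN s.X s.Y U n} {m : ℤ} {ρ : ℕ} {G G₁ : ℝ → SF (Fin ρ → ℂ)} (hF : Family f hx m ρ G G₁)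
    {p c : ℕ} (hp : p.Prime) {θ : ℝ} (hχ : ∀ a, f.C (cu θ) a ^ p ^ c = 1) (hω : f.C (cu θ) N = 1)
    (hI : ∃ q ∈ S, p ∣ q.1)
    (hs : ∀ i ≤ S.length, p ∣ (pr g S (2 * g + i)).1 → f.C (cu θ) (ne (2 * g + i)) ≠ 1) :
    sgn (G θ) = 0 := by
  classical
  have := s.t2
  obtain ⟨q, hq, hqk⟩ := hI
  obtain ⟨i, hi, hiq⟩ := rnk_pr (g := g) hq
  have he : 2 * g + i < NE g S := by unfold NE; omega
  have hne := hs i hi.le (hiq ▸ hqk)
  obtain ⟨O, κ, _, _, _, _, φ, ev, w, π, hφ, hw, hw', hr, hch⟩ := exists_lift hp hχ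
  obtain ⟨y⟩ : Nonempty (Seifert g S) := inferInstance
  have hwne : w (ne (2 * g + i)) ≠ 1 := fun h1 => hne (Units.ext (by
    rw [← hw, h1, Units.val_one, map_one, Units.val_one]))
  have b1 := betti_tw hx hφ hw hw' hr (x := s.e y) (s.inter.ge (mem_range_self y)).1 fun c hc => by
    have h5 := pull_Zc (Itw_comp (tw w n) s.e univ) (G' := ∅)
      (fun _ _ => s.cont.continuousAt) (empty_subset _)
      (fun x _ => (s.inter.ge (mem_range_self x)).1) (fun _ hx => hx.elim) hc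
    simpa using h.h0 he hwne h5 y
  have b2 := rank_jm hx.xy (hx.good (f.C (cu θ))) hx.sub
  have b3 := finrank_tw hS (pb_coc s hn) h hω ⟨_, he, hne⟩
  have b4 := b1_le' (g := g) (k := κ) hS ⟨q, hq, (CharP.cast_eq_zero_iff κ p _).2 hqk⟩
  have b5 := hF.rank θ
  have b6 := abs_sgn_le (hF.herm θ)
  rw [Module.finrank_fin_fun] at b6
  obtain ⟨Φ, -⟩ := s.equiv_one κ 1
  obtain ⟨Ψ, -⟩ := pb_equiv s hn (f.C (cu θ)) 1
  rw [← Φ.finrank_eq] at b4
  rw [← Ψ.finrank_eq] at b3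
  have c2 : ((Finset.range (S.length + 1)).filter fun i => ((pr g S (2 * g + i)).1 : κ) = 0).card
      ≤ ((Finset.range (S.length + 1)).filter fun i => f.C (cu θ) (ne (2 * g + i)) ≠ 1).card := by
    refine Finset.card_le_card fun j hj => ?_
    simp only [Finset.mem_filter, Finset.mem_range] at hj ⊢
    exact ⟨hj.1, hs j (by omega) ((CharP.cast_eq_zero_iff κ p _).1 hj.2)⟩
  have := abs_nonneg (sgn (G θ))
  exact abs_eq_zero.1 (by omega)

theorem core (hS : Data S) (s : Side (Seifert g S)) {n : E4 → E4 → Γ} (hn : CocZ n s.X)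
    {A : Cov → Γ} {N : Γ} {ne : ℕ → Γ} (h : Per g S (pb s n) A N ne) (f : Fm Γ) {N₀ : ℕ}
    (hN : 0 < N₀) (h1 : f.deg N = N₀) (h2 : f.ψ N = 1) {w : ℕ → ℚ}
    (hw : ∀ i ≤ S.length, (f.ψ (ne (2 * g + i)) : ℂ) = rt (w i))
    (hne : ∀ k : ℤ, ∃ i ≤ S.length,
      rt (k * (pr g S (2 * g + i)).2 / (pr g S (2 * g + i)).1 + w i) ≠ 1)
    {p c : ℕ} (hp : p.Prime) (hψ : ∀ a, f.ψ a ^ p ^ c = 1) (hI : ∃ q ∈ S, p ∣ q.1) {k : ℤ} {m : ℕ}
    (hk : ∀ j : ℤ, j = k ∨ j = k + m → (N₀ : ℤ) ∣ j * p ^ c ∧ ∀ i ≤ S.length,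
      p ∣ (pr g S (2 * g + i)).1 →
        rt (j * (pr g S (2 * g + i)).2 / (pr g S (2 * g + i)).1 + w i) ≠ 1) :
    ∑ j ∈ Finset.range m, (jw g S w (k + j) + jw g S w (k + j + 1)) = 0 := by
  have := s.t2
  obtain ⟨U, u1, u2, u3⟩ := hn.nbhd
  have hx : XN s.X s.Y U n := ⟨s.xy, u1, u2, u3⟩
  have hkill : ∀ x : H (tw f.L n) 2 (s.X ∩ s.Y) ∅,
      (((tL ^ (N₀ : ℤ) : Laˣ) : La) - 1) • x = 0 := by
    intro x
    obtain ⟨Φ, -⟩ := pb_equiv s hn f.L 2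
    apply Φ.injective
    have h3 := Per.kill (pb_coc s hn) h f.L 2 (Φ x)
    rw [f.L_val, h1, h2, Units.val_one, map_one, mul_one] at h3
    rw [map_smul, map_zero, h3]
  obtain ⟨ρ, G, G₁, hF⟩ := exists_family hx (m := N₀) (by exact_mod_cast hN.ne') hkill
  rcases bridge hS hn h hN h1 h2 hw hne hF with h0 | ⟨η, hη, hb⟩
  · simp [h0]
  have hj : ∀ θ, (∀ᶠ u in 𝓝[>] θ, sgn (G u)
        = sgn (G θ) + sgn (cmp (G₁ θ) (LinearMap.ker (G θ)).subtype)) ∧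
      ∀ᶠ u in 𝓝[<] θ, sgn (G u) = sgn (G θ) - sgn (cmp (G₁ θ) (LinearMap.ker (G θ)).subtype) :=
    fun θ => jump hF.herm (hF.der θ) (hF.nd θ)
  have hN' : (0 : ℝ) < N₀ := by exact_mod_cast hN
  have hmono : ∀ a b : ℤ, th N₀ a < th N₀ b ↔ a < b := by
    intro a b
    unfold th
    rw [div_lt_div_iff_of_pos_right hN', mul_lt_mul_iff_right₀ (by positivity), Int.cast_lt]
  have hstep : ∀ k : ℤ, sgn (G (th N₀ (k + 1)))
      - sgn (cmp (G₁ (th N₀ (k + 1))) (LinearMap.ker (G (th N₀ (k + 1)))).subtype)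
      = sgn (G (th N₀ k)) + sgn (cmp (G₁ (th N₀ k)) (LinearMap.ker (G (th N₀ k))).subtype) := by
    intro k
    refine step (σ := fun θ => sgn (G θ))
      (d := fun θ => sgn (cmp (G₁ θ) (LinearMap.ker (G θ)).subtype)) hj
      ((hmono _ _).2 (by omega)) fun θ hθ => ?_
    have hker : LinearMap.ker (G θ) = ⊥ := by
      refine hF.gen θ fun h1 => ?_
      obtain ⟨j, hj⟩ := (cu_pow_eq_one hN θ).1 h1
      have e : θ = th N₀ j := hj
      rw [e] at hθ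
      have h2 := (hmono _ _).1 hθ.1
      have h3 := (hmono _ _).1 hθ.2
      omega
    refine sgn_of_zero fun x => ?_
    have : (x : Fin ρ → ℂ) = 0 := (Submodule.mem_bot ℂ).1 (hker.le x.2)
    simp [this]
  have hz : ∀ j : ℤ, j = k ∨ j = k + m → sgn (G (th N₀ j)) = 0 := by
    intro j hj'
    obtain ⟨a1, a2⟩ := hk j hj'
    have a3 : cu (th N₀ j) ^ p ^ c = 1 := by
      rw [rnk_cu_pow, cu_th_eq_one hN]
      exact_mod_cast a1
    refine sgn_pp hS hn h hF hp (c := c) (fun a => ?_) ?_ hI fun i hi hpi h4 => a2 i hi hpi ?_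
    · rw [f.C_apply, mul_pow, hψ, mul_one, ← zpow_natCast, ← zpow_mul, mul_comm, zpow_mul,
        zpow_natCast, a3, one_zpow]
    · rw [f.C_apply, h1, h2, (cu_pow_eq_one hN (th N₀ j)).2 ⟨j, rfl⟩, one_mul]
    · rw [← slit_val hS h hN h1 hw j hi, h4, Units.val_one]
  have hs : ∀ m : ℕ, (sgn (G (th N₀ (k + m))) : ℚ) = sgn (G (th N₀ k))
      + η * ∑ j ∈ Finset.range m, (jw g S w (k + j) + jw g S w (k + j + 1)) := by
    intro m
    induction m with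
    | zero => simp
    | succ m ih =>
      have a1 := congrArg (Int.cast : ℤ → ℚ) (hstep (k + m))
      push_cast at a1
      rw [hb, hb, ih] at a1
      rw [Finset.sum_range_succ, Nat.cast_succ, ← add_assoc]
      linear_combination a1
  have h3 := hs m
  rw [hz _ (Or.inl rfl), hz _ (Or.inr rfl)] at h3
  simpa [hη] using h3

end Pool.Agent.P.MP_3d25f3_gt.G
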