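import Pool.Agent.P.MP_3d25f3_gt.GAnn
import Pool.Agent.P.MP_3d25f3_gt.FacA

set_option autoImplicit false

open Set Filter Topology

namespace Pool.Agent.P.MP_3d25f3_gt.G

open Module

variable {Γ : Type} [CommRing Γ] {X Y N : Set E4} {n : E4 → E4 → Γ} {f : Fm Γ}

lemma hev (f : Fm Γ) (ω : ℂˣ) (n : E4 → E4 → Γ) : ∀ x y, evL ω (tw f.L n x y) = tw (f.C ω) n x y :=
  tw_map _ (f.ev ω) n

lemma hev' (f : Fm Γ) (ω : ℂˣ) (n : E4 → E4 → Γ) :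
    ∀ x y, evL ω (tw f.L⁻¹ n x y) = tw (f.C ω)⁻¹ n x y := tw_map _ (map_inv_ch _ (f.ev ω)) n

lemma hsg (f : Fm Γ) (n : E4 → E4 → Γ) : ∀ x y, sgL (tw f.L n x y) = tw f.L⁻¹ n x y :=
  tw_map _ f.sg n

lemma hsg' (f : Fm Γ) (n : E4 → E4 → Γ) : ∀ x y, sgL (tw f.L⁻¹ n x y) = tw f.L n x y :=
  tw_map _ (fun a => by simpa using map_inv_ch _ f.sg a) n

lemma hcj {Z : Type} (f : Fm Γ) {ω : ℂˣ} (hω : ‖(ω : ℂ)‖ = 1) (n : Z → Z → Γ) :
    ∀ x y, starRingEnd ℂ (tw (f.C ω) n x y) = tw (f.C ω)⁻¹ n x y := tw_map _ (f.cj hω) n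

/-- a side with an integer cocycle on an open neighbourhood -/
structure XN (X Y N : Set E4) (n : E4 → E4 → Γ) : Prop where
  xy : XY X Y
  op : IsOpen N
  sub : X ⊆ N
  coc : CocZ n N

lemma XN.good (h : XN X Y N n) {R : Type} [CommRing R] (t : AddChar Γ Rˣ) : Good (tw t n) (tw t⁻¹ n) N :=
  good_tw h.op h.coc t

lemma XN.cocX (h : XN X Y N n) {R : Type} [CommRing R] (t : AddChar Γ Rˣ) : Coc (tw t n) X :=
  (h.good t).coc.mono h.sub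

lemma XN.ok (h : XN X Y N n) {R : Type} [CommRing R] (t : AddChar Γ Rˣ) :
    POK (tw t n) (tw t⁻¹ n) (Out 4) univ Y X ∅ := h.xy.ok (h.good t) h.sub

/-- the sesquilinear pairing over the Laurent ring -/
noncomputable def lamL (f : Fm Γ) (h : XN X Y N n) :
    H (tw f.L n) 2 univ Y →ₗ[La] H (tw f.L n) 2 X ∅ →ₛₗ[sgL] La :=
  (pair (h.ok f.L) (i := 2) (j := 2) rfl).compl₂ (cmap sgL (hsg f n) 2 X ∅)

noncomputable def pbL (f : Fm Γ) (h : XN X Y N n) {ω : ℂˣ} (hω : ‖(ω : ℂ)‖ = 1) :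
    H (tw (f.C ω) n) 2 univ Y →ₗ[ℂ] H (tw f.L n) 2 X ∅ →+ ℂ where
  toFun x := ((pair (h.ok (f.C ω)) (i := 2) (j := 2) rfl x).toAddMonoidHom.comp
    (cmap (starRingEnd ℂ) (hcj f hω n) 2 X ∅).toAddMonoidHom).comp
      (cmap (evL ω) (hev f ω n) 2 X ∅).toAddMonoidHom
  map_add' x y := by ext b; simp
  map_smul' c x := by ext b; simp

lemma pbL_apply (h : XN X Y N n) {ω : ℂˣ} (hω : ‖(ω : ℂ)‖ = 1) (x : H (tw (f.C ω) n) 2 univ Y)
    (b : H (tw f.L n) 2 X ∅) : pbL f h hω x b = pair (h.ok (f.C ω)) (i := 2) (j := 2) rfl x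
      (cmap (starRingEnd ℂ) (hcj f hω n) 2 X ∅ (cmap (evL ω) (hev f ω n) 2 X ∅ b)) := rfl

/-- `W` is the triple product form on the hypersurface -/
def IsW (f : Fm Γ) (h : XY X Y) (ω : ℂˣ) (n : E4 → E4 → Γ) (W : SF (H (tw (f.C ω) n) 1 (X ∩ Y) ∅)) : Prop :=
  ∀ v hv v' hv', ∃ hw, W (cl v hv) (cl v' hv') = intM ℂ h (cl (wf f.deg (f.C ω) n v v') hw)

lemma faca_sg_sg (k : ℕ) (F F' : Set E4) (z : H (tw f.L n) k F F') :
    cmap sgL (hsg' f n) k F F' (cmap sgL (hsg f n) k F F' z) = z := by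
  obtain ⟨c, hc, rfl⟩ := cl_surj z
  rw [cmap_cl, cmap_cl]
  have e : cf sgL (cf sgL c) = c := by funext l; simp [sgL_sgL]
  simp only [e]

lemma faca_sg_sg' (k : ℕ) (F F' : Set E4) (z : H (tw f.L⁻¹ n) k F F') :
    cmap sgL (hsg f n) k F F' (cmap sgL (hsg' f n) k F F' z) = z := by
  obtain ⟨c, hc, rfl⟩ := cl_surj z
  rw [cmap_cl, cmap_cl]
  have e : cf sgL (cf sgL c) = c := by funext l; simp [sgL_sgL]
  simp only [e]

lemma faca_sg_jm (x : H (tw f.L n) 2 univ Y) :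
    cmap sgL (hsg f n) 2 X ∅ (jm (tw f.L n) 2 X Y x)
      = jm (tw f.L⁻¹ n) 2 X Y (cmap sgL (hsg f n) 2 univ Y x) := faca_cmap_jm sgL (hsg f n) 2 x

lemma faca_lam (h : XN X Y N n) (x : H (tw f.L n) 2 univ Y) (b : H (tw f.L n) 2 X ∅) :
    lamL f h x b = pair (h.ok f.L) (i := 2) (j := 2) rfl x (cmap sgL (hsg f n) 2 X ∅ b) := rfl

lemma faca_conj_ev {ω : ℂˣ} (hω : ‖(ω : ℂ)‖ = 1) (b : H (tw f.L n) 2 X ∅) :
    cmap (starRingEnd ℂ) (hcj f hω n) 2 X ∅ (cmap (evL ω) (hev f ω n) 2 X ∅ b)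
      = cmap (evL ω) (hev' f ω n) 2 X ∅ (cmap sgL (hsg f n) 2 X ∅ b) := by
  obtain ⟨c, hc, rfl⟩ := cl_surj b
  rw [cmap_cl, cmap_cl, cmap_cl, cmap_cl]
  have e : cf (starRingEnd ℂ) (cf (evL ω) c) = cf (evL ω) (cf sgL c) := by
    funext l; simp only [cf_apply, evL_sgL hω]
  simp only [e]

lemma lamL_herm (h : XN X Y N n) (x y : H (tw f.L n) 2 univ Y) :
    lamL f h y (jm (tw f.L n) 2 X Y x) = sgL (lamL f h x (jm (tw f.L n) 2 X Y y)) := by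
  rw [faca_lam, faca_lam, faca_sg_jm,
    ← pair_cmap sgL (hsg f n) (hsg' f n) (h.ok f.L) (h.xy.ok (h.good f.L).symm h.sub), faca_sg_sg]
  exact pair_comm h.xy (h.good f.L) h.sub y _

lemma pbL_red (h : XN X Y N n) {ω : ℂˣ} (hω : ‖(ω : ℂ)‖ = 1) (x : H (tw f.L n) 2 univ Y)
    (b : H (tw f.L n) 2 X ∅) :
    pbL f h hω (cmap (evL ω) (hev f ω n) 2 univ Y x) b = evL ω (lamL f h x b) := by
  rw [pbL_apply, faca_lam, faca_conj_ev hω]
  exact pair_cmap (evL ω) (hev f ω n) (hev' f ω n) (h.ok f.L) (h.ok (f.C ω)) rfl x _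

lemma pbL_smul (h : XN X Y N n) {ω : ℂˣ} (hω : ‖(ω : ℂ)‖ = 1) (x : H (tw (f.C ω) n) 2 univ Y) (c : La)
    (b : H (tw f.L n) 2 X ∅) : pbL f h hω x (c • b) = starRingEnd ℂ (evL ω c) * pbL f h hω x b := by
  rw [pbL_apply, pbL_apply, LinearMap.map_smulₛₗ, LinearMap.map_smulₛₗ, map_smul, smul_eq_mul]

lemma faca_coc (h : XN X Y N n) {R : Type} [CommRing R] (t : AddChar Γ Rˣ) : Coc (tw t n) (univ \ Y) := by
  refine (h.cocX t).mono fun z hz => ?_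
  have : z ∈ X ∪ Y := by rw [h.xy.cover]; trivial
  exact this.resolve_right hz.2

theorem pbL_perp (h : XN X Y N n) {ω : ℂˣ} (hω : ‖(ω : ℂ)‖ = 1) (x : H (tw (f.C ω) n) 2 univ Y)
    (hx : ∀ b, pbL f h hω x b = 0) :
    ∃ y ∈ Submodule.torsion La (H (tw f.L n) 2 univ Y), x = cmap (evL ω) (hev f ω n) 2 univ Y y := by
  have hr := red_evL ω
  have f1 := (h.xy.fg (h.good (f.C ω)) h.sub).1
  have f2 := (h.xy.fg (h.good (f.C ω)).symm h.sub).2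
  have f3 := (h.xy.fg (h.good f.L) h.sub).1
  have f4 := (h.xy.fg (h.good f.L).symm h.sub).2
  have := f1 1
  have := f1 2
  have := f2 2
  have := f2 3
  have := f3 2
  have := f4 3
  rw [← mem_imT hr.surj]
  refine ti (p₂ := pair (h.ok (f.C ω)) (i := 2) (j := 2) rfl) (p₁ := pair (h.ok (f.C ω)) (i := 1) (j := 3) rfl)
    (h.xy.dual (h.good (f.C ω)) h.sub rfl) (h.xy.dual (h.good (f.C ω)) h.sub rfl)
    (I₁ := imI (cmap (evL ω) (hev f ω n) 1 univ Y)) (I₂ := imI (cmap (evL ω) (hev' f ω n) 2 X ∅))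
    (T₃ := imT (cmap (evL ω) (hev' f ω n) 3 X ∅)) ?_ ?_
    (tcH hr (hev f ω n) 1 (faca_coc h f.L) (subset_univ Y))
    (tcH hr (hev' f ω n) 2 ((h.cocX f.L⁻¹).mono sdiff_subset) (empty_subset X)) x ?_
  · intro a ha b hb
    obtain ⟨a, ht, rfl⟩ := (mem_imT hr.surj _ _).1 ha
    obtain ⟨b, rfl⟩ := (mem_imI hr.surj _ _).1 hb
    rw [pair_cmap (evL ω) (hev f ω n) (hev' f ω n) (h.ok f.L) (h.ok (f.C ω)), faca_tors _ a b (Or.inl ht),
      map_zero]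
  · intro a ha b hb
    obtain ⟨a, rfl⟩ := (mem_imI hr.surj _ _).1 ha
    obtain ⟨b, ht, rfl⟩ := (mem_imT hr.surj _ _).1 hb
    rw [pair_cmap (evL ω) (hev f ω n) (hev' f ω n) (h.ok f.L) (h.ok (f.C ω)), faca_tors _ a b (Or.inr ht),
      map_zero]
  · intro b hb
    obtain ⟨b, rfl⟩ := (mem_imI hr.surj _ _).1 hb
    have := hx (cmap sgL (hsg' f n) 2 X ∅ b)
    rwa [pbL_apply, faca_conj_ev hω, faca_sg_sg'] at this

/-- the bound at a root of unity of prime power order -/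
theorem betti_tw (h : XN X Y N n) {O κ : Type} [CommRing O] [IsDomain O] [IsPrincipalIdealRing O]
    [Field κ] {φ : O →+* ℂ} {ev : O →+* κ} {w : AddChar Γ Oˣ} {π : O} {ω : AddChar Γ ℂˣ}
    (hφ : Function.Injective φ)
    (hw : ∀ a, φ (w a) = ω a) (hw' : ∀ a, ev (w a) = 1) (hr : Red ev π) {x : E4} (hx : x ∈ X)
    (h0 : ∀ c ∈ Zc (tw w n) 0 X ∅, c [x] = 0) :
    finrank ℂ (H (tw ω n) 1 X ∅) + finrank ℂ (H (tw ω⁻¹ n) 2 X ∅) + 1
      ≤ finrank κ (H (1 : E4 → E4 → κ) 1 (X ∩ Y) ∅) := by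
  have e1 : ∀ a b, ev (tw w n a b) = (1 : E4 → E4 → κ) a b := fun a b => hw' _
  have e2 : ∀ a b, ev (tw w⁻¹ n a b) = (1 : E4 → E4 → κ) a b := fun a b => hw' _
  have f1 := (h.xy.fg (h.good w) h.sub).2
  have f2 := (h.xy.fg (h.good w).symm h.sub).2
  have f3 := (h.xy.fg (good_one (R := κ)) (subset_univ X)).2
  have := f1 1
  have := f2 2
  have := f3 0
  have := f3 1
  have := f3 2
  have c1 : Coc (tw w n) (X \ ∅) := (h.cocX w).mono sdiff_subset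
  have c2 : Coc (tw w⁻¹ n) (X \ ∅) := (h.cocX w⁻¹).mono sdiff_subset
  have r1 := rk hr (cmap ev e1 1 X ∅) (cmap_eq_zero hr e1 c1 (empty_subset X)) hφ
    (cmap φ (tw_map φ hw n) 1 X ∅)
    (span_cmap hφ (tw_map φ hw n) 1 h.xy.compact (h.cocX ω))
  have r2 := rk hr (cmap ev e2 2 X ∅) (cmap_eq_zero hr e2 c2 (empty_subset X)) hφ
    (cmap φ (tw_map φ (map_inv_ch φ hw) n) 2 X ∅)
    (span_cmap hφ (tw_map φ (map_inv_ch φ hw) n) 2 h.xy.compact (h.cocX ω⁻¹))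
  have t0 := tcH hr e1 0 c1 (empty_subset X)
  have l1 := Submodule.finrank_le (imI (cmap ev e1 1 X ∅))
  have l2 := Submodule.finrank_le (imI (cmap ev e2 2 X ∅))
  have bs := betti_sum (k := κ) h.xy
  have hone : (fun _ => 1 : List E4 → κ) ∈ Zc (1 : E4 → E4 → κ) 0 X ∅ := by
    refine ⟨by simp, fun z _ => ⟨univ, univ_mem, fun l hl _ => ?_⟩⟩
    match l, hl with
    | [a, b], _ => rw [D_two]; simp
  have hlt : imI (cmap ev e1 0 X ∅) ≠ ⊤ := by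
    intro ht
    have hm : cl _ hone ∈ imI (cmap ev e1 0 X ∅) := by rw [ht]; trivial
    obtain ⟨y, hy⟩ := (mem_imI hr.surj _ _).1 hm
    obtain ⟨c, hc, rfl⟩ := cl_surj y
    rw [cmap_cl, cl_eq, Bc_zero] at hy
    obtain ⟨U, hU, hU'⟩ := hy x hx
    have := hU' [x] rfl (by simpa using mem_of_mem_nhds hU)
    rw [Pi.sub_apply, cf_apply, h0 c hc, map_zero, sub_zero] at this
    exact one_ne_zero this
  have l0 := Submodule.finrank_lt hlt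
  have t1 : finrank κ (imT (cmap ev e1 1 X ∅)) + finrank κ (imI (cmap ev e1 0 X ∅))
      = finrank κ (H (1 : E4 → E4 → κ) 0 X ∅) := t0
  omega

end Pool.Agent.P.MP_3d25f3_gt.G
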