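import Pool.Agent.P.MP_3d25f3_gt.GFacA
import Pool.Agent.P.MP_3d25f3_gt.FacB

set_option autoImplicit false

open Set Filter Topology

namespace Pool.Agent.P.MP_3d25f3_gt.G

open Module

variable {Γ : Type} [CommRing Γ] {X Y N : Set E4} {n : E4 → E4 → Γ} {f : Fm Γ} {ω : ℂˣ}

/-- the second factor of the triple product -/
noncomputable def facb_in {Z : Type} (f : Fm Γ) (ω : ℂˣ) (n : Z → Z → Γ) :
    (List Z → ℂ) →ₛₗ[starRingEnd ℂ] (List Z → ℂ) :=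
  (cf (starRingEnd ℂ)).comp (cupL (tw (f.C ω) n) 1 (co1 fun a b => (f.deg (n a b) : ℂ)))

lemma facb_wf {Z : Type} (f : Fm Γ) (ω : ℂˣ) (n : Z → Z → Γ) (v v' : List Z → ℂ) :
    wf f.deg (f.C ω) n v v' = cupL (tw (f.C ω)⁻¹ n) 1 v (facb_in f ω n v') := rfl

lemma facb_in_Zc {Z : Type} [TopologicalSpace Z] {n : Z → Z → Γ} {F : Set Z} (hn : CocZ n F)
    (hω : ‖(ω : ℂ)‖ = 1) {v : List Z → ℂ} (hv : v ∈ Zc (tw (f.C ω) n) 1 F ∅) :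
    facb_in f ω n v ∈ Zc (tw (f.C ω)⁻¹ n) 2 F ∅ :=
  cf_Zc _ (hcj f hω n) (cup_Zc_abs (Coc_one F) (hn.tw (f.C ω)) (facb_mu _ F) (p := 1) (q := 1) rfl
    (CocZ.int.1 (hn.map f.deg)).co1 hv)

lemma facb_in_Bc {Z : Type} [TopologicalSpace Z] {n : Z → Z → Γ} {F : Set Z} (hn : CocZ n F)
    (hω : ‖(ω : ℂ)‖ = 1) {v : List Z → ℂ} (hv : v ∈ Bc (tw (f.C ω) n) 1 F ∅) :
    facb_in f ω n v ∈ Bc (tw (f.C ω)⁻¹ n) 2 F ∅ :=
  cf_Bc _ (hcj f hω n) (cup_Bc_abs_right (Coc_one F) (hn.tw (f.C ω)) (facb_mu _ F) (p := 1) (q := 1) rfl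
    (CocZ.int.1 (hn.map f.deg)).co1 hv)

lemma wf_Zc {Z : Type} [TopologicalSpace Z] {n : Z → Z → Γ} {F : Set Z} (hn : CocZ n F)
    (hω : ‖(ω : ℂ)‖ = 1) {v v' : List Z → ℂ} (hv : v ∈ Zc (tw (f.C ω) n) 1 F ∅)
    (hv' : v' ∈ Zc (tw (f.C ω) n) 1 F ∅) : wf f.deg (f.C ω) n v v' ∈ Zc (1 : Z → Z → ℂ) 3 F ∅ := by
  exact cup_Zc_abs (hn.tw (f.C ω)) (hn.tw (f.C ω)⁻¹) (Mu_tw (f.C ω) n F) (p := 1) (q := 2) rfl hv
    (facb_in_Zc hn hω hv')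

lemma wf_Bc {Z : Type} [TopologicalSpace Z] {n : Z → Z → Γ} {F : Set Z} (hn : CocZ n F)
    (hω : ‖(ω : ℂ)‖ = 1) {v v' u u' : List Z → ℂ} (hv : v ∈ Zc (tw (f.C ω) n) 1 F ∅)
    (hv' : v' ∈ Zc (tw (f.C ω) n) 1 F ∅) (hu : v - u ∈ Bc (tw (f.C ω) n) 1 F ∅)
    (hu' : v' - u' ∈ Bc (tw (f.C ω) n) 1 F ∅) :
    wf f.deg (f.C ω) n v v' - wf f.deg (f.C ω) n u u' ∈ Bc (1 : Z → Z → ℂ) 3 F ∅ := by
  have hz : v - u ∈ Zc (tw (f.C ω) n) 1 F ∅ :=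
    Bc_le_Zc ((hn.tw (f.C ω)).mono sdiff_subset) (empty_subset F) hu
  have hu0 : u ∈ Zc (tw (f.C ω) n) 1 F ∅ := by
    have := sub_mem hv hz
    rwa [sub_sub_cancel] at this
  have h1 := cup_Bc_abs_left (hn.tw (f.C ω)) (hn.tw (f.C ω)⁻¹) (Mu_tw (f.C ω) n F) (p := 1) (q := 2) (k := 3) rfl hu
    (facb_in_Zc hn hω hv')
  have h2 := cup_Bc_abs_right (hn.tw (f.C ω)) (hn.tw (f.C ω)⁻¹) (Mu_tw (f.C ω) n F) (p := 1) (q := 2) (k := 3) rfl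
    hu0 (facb_in_Bc hn hω hu')
  have h3 : wf f.deg (f.C ω) n v v' - wf f.deg (f.C ω) n u u' = cupL (tw (f.C ω)⁻¹ n) 1 (v - u) (facb_in f ω n v')
      + cupL (tw (f.C ω)⁻¹ n) 1 u (facb_in f ω n (v' - u')) := by
    rw [facb_wf, facb_wf, map_sub, map_sub, map_sub, LinearMap.sub_apply]
    abel
  rw [h3]
  exact add_mem h1 h2

lemma facb_coc (h : XN X Y N n) : CocZ n (X ∩ Y) := h.coc.mono (inter_subset_left.trans h.sub)

lemma facb_wf_right (h : XN X Y N n) (hω : ‖(ω : ℂ)‖ = 1) {v v' : List E4 → ℂ}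
    (hv : v ∈ Zc (tw (f.C ω) n) 1 (X ∩ Y) ∅) (hv' : v' ∈ Bc (tw (f.C ω) n) 1 (X ∩ Y) ∅) :
    wf f.deg (f.C ω) n v v' ∈ Bc (1 : E4 → E4 → ℂ) 3 (X ∩ Y) ∅ :=
  cup_Bc_abs_right ((facb_coc h).tw (f.C ω)) ((facb_coc h).tw (f.C ω)⁻¹) (Mu_tw (f.C ω) n _) (p := 1) (q := 2) rfl
    hv (facb_in_Bc (facb_coc h) hω hv')

noncomputable def facb_WZ (f : Fm Γ) (h : XN X Y N n) (hω : ‖(ω : ℂ)‖ = 1) :
    Zc (tw (f.C ω) n) 1 (X ∩ Y) ∅ →ₗ[ℂ] H (tw (f.C ω) n) 1 (X ∩ Y) ∅ →ₛₗ[starRingEnd ℂ] ℂ where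
  toFun a := (intM ℂ h.xy).comp (hmap ((cupL (tw (f.C ω)⁻¹ n) 1 a.1).comp (facb_in f ω n))
    (fun _ hc => wf_Zc (facb_coc h) hω a.2 hc) (fun _ _ hb => facb_wf_right h hω a.2 hb))
  map_add' a a' := by
    refine LinearMap.ext fun b => ?_
    obtain ⟨b, hb, rfl⟩ := cl_surj b
    change intM ℂ h.xy (cl _ (wf_Zc (facb_coc h) hω (a + a').2 hb))
      = intM ℂ h.xy (cl _ (wf_Zc (facb_coc h) hω a.2 hb))
        + intM ℂ h.xy (cl _ (wf_Zc (facb_coc h) hω a'.2 hb))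
    rw [← map_add, ← cl_add]
    simp only [Submodule.coe_add, wf, cup_add_left]
  map_smul' r a := by
    refine LinearMap.ext fun b => ?_
    obtain ⟨b, hb, rfl⟩ := cl_surj b
    change intM ℂ h.xy (cl _ (wf_Zc (facb_coc h) hω (r • a).2 hb))
      = r • intM ℂ h.xy (cl _ (wf_Zc (facb_coc h) hω a.2 hb))
    rw [← map_smul, ← cl_smul]
    simp only [Submodule.coe_smul, wf, cup_smul_left]

lemma exists_W (h : XN X Y N n) (hω : ‖(ω : ℂ)‖ = 1) : ∃ W, IsW f h.xy ω n W := by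
  refine ⟨Submodule.liftQ _ (facb_WZ f h hω) ?_, fun v hv v' hv' =>
    ⟨wf_Zc (facb_coc h) hω hv hv', rfl⟩⟩
  intro a ha
  rw [LinearMap.mem_ker]
  refine LinearMap.ext fun b => ?_
  obtain ⟨b, hb, rfl⟩ := cl_surj b
  change intM ℂ h.xy (cl _ (wf_Zc (facb_coc h) hω a.2 hb)) = 0
  have h1 : wf f.deg (f.C ω) n a.1 b ∈ Bc (1 : E4 → E4 → ℂ) 3 (X ∩ Y) ∅ :=
    cup_Bc_abs_left ((facb_coc h).tw (f.C ω)) ((facb_coc h).tw (f.C ω)⁻¹) (Mu_tw (f.C ω) n _) (p := 1) (q := 2) rfl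
      ha (facb_in_Zc (facb_coc h) hω hb)
  rw [(cl_eq_zero _).2 h1, map_zero]

variable {β : H (tw (f.C ω) n) 1 (X ∩ Y) ∅ →+ H (tw f.L n) 2 (X ∩ Y) ∅}

lemma bock_lift (h : XN X Y N n) (hβ : IsBock (evL ω) (epL ω) (hev f ω n) 1 (X ∩ Y) ∅ β)
    (v : H (tw (f.C ω) n) 1 (X ∩ Y) ∅) (b : H (tw f.L n) 2 X ∅) (hb : β v = rm (tw f.L n) 2 X Y b) :
    ∃ x, jm (tw f.L n) 2 X Y x = epL ω • (-b) ∧
      cmap (evL ω) (hev f ω n) 2 univ Y x = dl h.xy (h.cocX (f.C ω)) 1 v := by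
  obtain ⟨c, y, hc, hy, -, h1, rfl, h2⟩ := hβ.rep v
  obtain ⟨b, hb0, rfl⟩ := cl_surj b
  rw [h2] at hb
  obtain ⟨c', -, h3⟩ := mem_Bc.1 ((cl_eq hy _).1 hb)
  have ha0 : D (tw f.L n) (c - epL ω • c') - epL ω • b ∈ Zc (tw f.L n) 2 X (X ∩ Y) := by
    refine mem_Zc.2 ⟨?_, ?_⟩
    · have h4 := add_mem h1 (Submodule.smul_mem _ (epL ω) h3)
      have h5 : D (tw f.L n) (c - epL ω • c') - epL ω • b = D (tw f.L n) c - epL ω • y
          + epL ω • (y - b - D (tw f.L n) c') := by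
        rw [map_sub, map_smul, smul_sub, smul_sub]
        abel
      rw [h5]
      exact h4
    · rw [map_sub, map_smul]
      exact sub_mem (facb_DD (h.cocX f.L) 2 _) (Submodule.smul_mem _ _ hb0.2)
  obtain ⟨a, ha, h4⟩ := exc_surj 2 h.xy.cX h.xy.cY ha0
  rw [h.xy.cover] at ha
  refine ⟨cl a ha, ?_, ?_⟩
  · change cl a _ = cl (epL ω • (-b)) (Submodule.smul_mem _ _ (neg_mem hb0))
    rw [cl_eq]
    refine mem_Bc.2 ⟨c - epL ω • c', by simp, ?_⟩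
    have h5 : a - epL ω • (-b) - D (tw f.L n) (c - epL ω • c')
        = -(D (tw f.L n) (c - epL ω • c') - epL ω • b - a) := by
      rw [smul_neg]
      abel
    rw [h5]
    exact neg_mem h4
  · rw [cmap_cl, eq_comm, dl_eq]
    refine Null_le_Bc _ _ _ _ ?_
    have h5 : cf (evL ω) a - D (tw (f.C ω) n) (cf (evL ω) c)
        = -cf (evL ω) (D (tw f.L n) (c - epL ω • c') - epL ω • b - a) := by
      rw [← cf_D _ (hev f ω n)]
      simp only [map_sub, map_smul, LinearMap.map_smulₛₗ, facb_ev, zero_smul]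
      abel
    rw [h5]
    exact neg_mem (cf_Null _ h4)

lemma bock_back (h : XN X Y N n) (hβ : IsBock (evL ω) (epL ω) (hev f ω n) 1 (X ∩ Y) ∅ β)
    (v : H (tw (f.C ω) n) 1 (X ∩ Y) ∅) (x : H (tw f.L n) 2 univ Y)
    (hx : dl h.xy (h.cocX (f.C ω)) 1 v = cmap (evL ω) (hev f ω n) 2 univ Y x) :
    ∃ b, β v = rm (tw f.L n) 2 X Y b := by
  obtain ⟨v, hv, rfl⟩ := cl_surj v
  obtain ⟨a, ha, rfl⟩ := cl_surj x
  rw [cmap_cl, dl_eq] at hx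
  obtain ⟨p, hp, h1⟩ := mem_Bc.1 hx
  obtain ⟨c, rfl, -⟩ := red_lift (red_evL ω) v
  obtain ⟨p, rfl, hp'⟩ := red_lift (red_evL ω) p
  obtain ⟨y, hy, -⟩ := red_div (red_evL ω) (D (tw f.L n) (c + p) - a)
  have h2 : D (tw f.L n) (c + p) - a - epL ω • y ∈ Null La 2 X := by
    refine hy _ _ ?_
    have h3 : cf (evL ω) (D (tw f.L n) (c + p) - a)
        = -(cf (evL ω) a - D (tw (f.C ω) n) (cf (evL ω) c) - D (tw (f.C ω) n) (cf (evL ω) p)) := by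
      rw [map_sub, cf_D _ (hev f ω n), map_add, map_add]
      abel
    rw [h3]
    exact neg_mem h1
  have hy0 : y ∈ Zc (tw f.L n) 2 X ∅ :=
    facb_quot (h.cocX f.L) (Null_mono _ (subset_univ X) ha.2) h2
  have hc : cf (evL ω) (c + p) ∈ Zc (tw (f.C ω) n) 1 (X ∩ Y) ∅ := by
    rw [map_add]
    exact add_mem hv (mem_Zc.2 ⟨by simp, D_Null _ hp⟩)
  have h4 : cl _ hv = cl _ hc := by
    rw [eq_comm, cl_eq, map_add, add_sub_cancel_left]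
    exact Null_le_Bc _ _ _ _ hp
  refine ⟨cl y hy0, ?_⟩
  rw [h4]
  refine hβ.spec (c + p) y hc (Zc_mono _ _ inter_subset_left subset_rfl hy0) (by simp) ?_
  have h5 := add_mem (Null_mono _ (inter_subset_left (t := Y)) h2)
    (Null_mono _ (inter_subset_right (s := X)) ha.1)
  have h6 : D (tw f.L n) (c + p) - epL ω • y = D (tw f.L n) (c + p) - a - epL ω • y + a := by abel
  rw [h6]
  exact h5

/-- the Bockstein cochain of a constant lift -/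
noncomputable def facb_y (f : Fm Γ) (ω : ℂˣ) (n : E4 → E4 → Γ) (v : List E4 → ℂ) : List E4 → La
  | a :: b :: l => (pow_sub_eq ω (f.deg (n a b))).choose *
      (LaurentPolynomial.C (f.ψ (n a b) : ℂ) * LaurentPolynomial.C (v (b :: l)))
  | _ => 0

lemma facb_y_spec {F : Set E4} {v : List E4 → ℂ} (hv : D (tw (f.C ω) n) v ∈ Null ℂ 2 F) :
    D (tw f.L n) (cf LaurentPolynomial.C v) - epL ω • facb_y f ω n v ∈ Null La 2 F := by
  refine facb_len3 (fun x y z => ?_) (cf_Null LaurentPolynomial.C hv)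
  have h1 := (pow_sub_eq ω (f.deg (n x y))).choose_spec.1
  simp only [Pi.sub_apply, Pi.smul_apply, smul_eq_mul, D_three, cf_apply, facb_y, tw, map_add,
    map_sub, map_mul, Fm.L_val, Fm.C_apply, Units.val_mul]
  linear_combination (LaurentPolynomial.C (f.ψ (n x y) : ℂ) * LaurentPolynomial.C (v [y, z]) : La) * h1

lemma facb_y_ev (F : Set E4) (v : List E4 → ℂ) :
    ((ω⁻¹ : ℂˣ) : ℂ) • cup (tw (f.C ω) n) 1 (co1 fun a b => (f.deg (n a b) : ℂ)) v - cf (evL ω) (facb_y f ω n v)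
      ∈ Null ℂ 2 F := by
  refine facb_len3 (fun x y z => ?_) (zero_mem _)
  have h1 := (pow_sub_eq ω (f.deg (n x y))).choose_spec.2
  simp only [Pi.sub_apply, Pi.smul_apply, smul_eq_mul, cf_apply, facb_y, map_mul, h1, evL_C,
    Pi.zero_apply]
  simp only [cup, co1, tw, List.take, List.drop, List.getD_cons_succ, List.getD_cons_zero,
    zpow_sub_one, Fm.C_apply, Units.val_mul]
  ring

lemma bock_psi (h : XN X Y N n) (hω : ‖(ω : ℂ)‖ = 1)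
    (hβ : IsBock (evL ω) (epL ω) (hev f ω n) 1 (X ∩ Y) ∅ β) {W : SF (H (tw (f.C ω) n) 1 (X ∩ Y) ∅)}
    (hW : IsW f h.xy ω n W) (v v' : H (tw (f.C ω) n) 1 (X ∩ Y) ∅) (b : H (tw f.L n) 2 X ∅)
    (hb : β v' = rm (tw f.L n) 2 X Y b) : (ω : ℂ) * W v v' = pbL f h hω (dl h.xy (h.cocX (f.C ω)) 1 v) b := by
  obtain ⟨v, hv, rfl⟩ := cl_surj v
  obtain ⟨v', hv', rfl⟩ := cl_surj v'
  obtain ⟨b, hb0, rfl⟩ := cl_surj b
  obtain ⟨hw, h1⟩ := hW v hv v' hv'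
  have hn := facb_coc h
  have he : cf (evL ω) (cf LaurentPolynomial.C v') = v' := by
    funext l
    exact evL_C ω _
  have hc : cf (evL ω) (cf LaurentPolynomial.C v') ∈ Zc (tw (f.C ω) n) 1 (X ∩ Y) ∅ := by
    rw [he]
    exact hv'
  have h2 := facb_y_spec (f := f) (ω := ω) (n := n) hv'.2
  have hy : facb_y f ω n v' ∈ Zc (tw f.L n) 2 (X ∩ Y) ∅ :=
    facb_quot (ω := ω) (hn.tw f.L) (c := cf LaurentPolynomial.C v') (a := 0) (by simp)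
      (by rwa [sub_zero])
  have h3 := hβ.spec _ _ hc hy (by simp) h2
  have h4 : cl _ hc = cl v' hv' := by simp only [he]
  rw [h4, hb] at h3
  have h5 := cf_Bc _ (hev f ω n) ((cl_eq hy _).1 h3.symm)
  have h6 := add_mem (Null_le_Bc (tw (f.C ω) n) 2 (X ∩ Y) ∅ (facb_y_ev (f := f) (ω := ω) (n := n) _ v')) h5
  rw [map_sub, sub_add_sub_cancel] at h6
  have h7 := cf_Bc _ (hcj f hω n) h6
  have h8 : starRingEnd ℂ ((ω⁻¹ : ℂˣ) : ℂ) = ω := by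
    rw [← conj_unit hω, Complex.conj_conj]
  rw [map_sub, LinearMap.map_smulₛₗ, h8] at h7
  have h9 := cup_Bc_abs_right (hn.tw (f.C ω)) (hn.tw (f.C ω)⁻¹) (Mu_tw (f.C ω) n _) (p := 1) (q := 2) (k := 3) rfl
    hv h7
  have hb1 : cf (starRingEnd ℂ) (cf (evL ω) b) ∈ Zc (tw (f.C ω)⁻¹ n) 2 X ∅ :=
    cf_Zc _ (hcj f hω n) (cf_Zc _ (hev f ω n) hb0)
  have hw' := cup_Zc_abs (hn.tw (f.C ω)) (hn.tw (f.C ω)⁻¹) (Mu_tw (f.C ω) n _) (p := 1) (q := 2) (k := 3) rfl hv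
    (Zc_mono _ _ inter_subset_left subset_rfl hb1)
  have h10 := pair_dl h.xy (h.good (f.C ω)) h.sub (i := 1) (j := 2) rfl hv hb1 hw'
  refine Eq.trans ?_ h10.symm
  rw [h1, ← smul_eq_mul, ← map_smul, ← cl_smul]
  congr 1
  rw [cl_eq]
  rw [← cupL_apply, map_sub, map_smul] at h9
  exact h9

end Pool.Agent.P.MP_3d25f3_gt.G
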