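import Pool.Agent.P.MP_3d25f3_gt.GBas

set_option autoImplicit false

open Set Filter Topology

namespace Pool.Agent.P.MP_3d25f3_gt.G

variable {g : ℕ} {S : List (ℕ × ℤ)} {Γ R : Type} [CommRing Γ] [CommRing R]
  {n : Seifert g S → Seifert g S → Γ} {A : Cov → Γ} {N : Γ} {ne : ℕ → Γ} {t : AddChar Γ Rˣ}
  {v : List (Seifert g S) → R} {E : Cov → R}

theorem exists_per (hn : CocZ n univ) : ∃ A N ne, Per g S n A N ne := by
  have h1 : CocZ (fun a b => n (pp g S a) (pp g S b)) univ :=
    hn.comp (fun _ _ => continuous_pp.continuousAt) (mapsTo_univ _ _)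
  obtain ⟨A, hA⟩ := cov_prim h1.co1
  have hA' : ∀ y, ∃ U ∈ 𝓝 y, ∀ a ∈ U, ∀ b ∈ U, n (pp g S a) (pp g S b) = A b - A a := by
    intro y
    obtain ⟨U, hU, h⟩ := hA y
    exact ⟨U, hU, fun a ha b hb => by simpa [co1] using h a ha b hb⟩
  have := per_conn
  let p : Cov := (⟨0, by simp⟩, 0)
  refine ⟨A, A (p.1, p.2 + 1) - A p, fun e => A (gb g S e 0 0) - A (ga g S e 0 0), hA',
    fun y z => ?_, fun e he s hs z => ?_⟩
  · have := per_two continuous_id per_shift hA' (u := fun y => A (y.1, y.2 + 1) - A y)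
      (fun a b h1 h2 => by
        rw [per_pp, per_pp] at h2
        simp only [id] at h1
        linear_combination h2 - h1) (y, z) p
    linear_combination this
  · have := per_two (per_ga e) (per_gb e) hA'
      (u := fun q => A (gb g S e q.1 q.2) - A (ga g S e q.1 q.2))
      (fun a b h1 h2 => by
        rw [pp_glue he a.1.2, pp_glue he b.1.2] at h2
        linear_combination h2 - h1) (⟨s, hs⟩, z) (⟨0, by simp⟩, 0)
    linear_combination this

lemma Per.per_int (h : Per g S n A N ne) (y : Disc) (z : ℝ) (k : ℤ) :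
    A (y, z + k) = A (y, z) + k * N := by
  induction k using Int.induction_on with
  | zero => simp
  | succ k ih =>
    have := h.per y (z + ((k : ℤ) : ℝ))
    rw [show z + (((k : ℤ) + 1 : ℤ) : ℝ) = z + ((k : ℤ) : ℝ) + 1 by push_cast; ring, this, ih]
    push_cast
    ring
  | pred k ih =>
    have := h.per y (z + ((-(k : ℤ) - 1 : ℤ) : ℝ))
    rw [show z + ((-(k : ℤ) - 1 : ℤ) : ℝ) + 1 = z + ((-(k : ℤ) : ℤ) : ℝ) by push_cast; ring,
      ih] at this
    push_cast at this ⊢
    linear_combination -this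

lemma Per.slit (h : Per g S n A N ne) (hS : Data S) {e : ℕ} (h1 : 2 * g ≤ e) (h2 : e < NE g S) :
    (pr g S e).1 * ne e = (pr g S e).2 * N := by
  have hw : wd g e = 2 := by simp [wd, not_lt.2 h1]
  have key : ∀ z, A (bp (LL g S) (st g e + 1), z + sh g S e)
      = A (bp (LL g S) (st g e + 1), z) + ne e := by
    intro z
    have := h.arc e h2 1 (by simp) z
    simp only [ga, gb, hw, one_mul] at this
    rwa [show ((st g e : ℝ) + ((2 : ℕ) : ℝ) - 1) = st g e + 1 by push_cast; ring] at this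
  have it : ∀ k : ℕ, A (bp (LL g S) (st g e + 1), k * sh g S e)
      = A (bp (LL g S) (st g e + 1), 0) + k * ne e := by
    intro k
    induction k with
    | zero => simp
    | succ k ih =>
      rw [show ((k + 1 : ℕ) : ℝ) * sh g S e = k * sh g S e + sh g S e by push_cast; ring, key, ih]
      push_cast
      ring
  have hα : ((pr g S e).1 : ℝ) ≠ 0 := by
    have := (pr_data (g := g) hS e).1
    positivity
  have e1 := it (pr g S e).1
  have e2 := h.per_int (bp (LL g S) (st g e + 1)) 0 (pr g S e).2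
  rw [show ((pr g S e).1 : ℝ) * sh g S e = 0 + ((pr g S e).2 : ℝ) by
    rw [sh]; field_simp; ring, e2] at e1
  linear_combination -e1

theorem exists_prim (h : Per g S n A N ne) (hv : v ∈ Zc (tw t n) 1 univ ∅) :
    ∃ E, Prim g S t A v E := by
  have hI : Itw (1 : Cov → Cov → R) (tw t n) (pp g S) (fun y => ((t (A y) : Rˣ) : R)) univ := by
    intro y _
    obtain ⟨U, hU, hh⟩ := h.prim y
    refine ⟨U, hU, fun a ha b hb => ?_⟩
    simp only [tw, hh a ha b hb, ← ch_add, Pi.one_apply, one_mul, add_sub_cancel]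
  obtain ⟨E, hE⟩ := cov_prim (pull_Zc hI (fun _ _ => continuous_pp.continuousAt)
    (empty_subset _) (mapsTo_univ _ _) (mapsTo_empty _ _) hv)
  exact ⟨E, fun y => by simpa using hE y⟩

lemma Prim.data (h : Per g S n A N ne) (hE : Prim g S t A v E) : ∃ (vh : R) (ve : ℕ → R),
    (∀ y z, E (y, z + 1) = ((t N : Rˣ) : R) * E (y, z) + vh) ∧
    ∀ e < NE g S, ∀ s ∈ Icc (0 : ℝ) 1, ∀ z,
      E (gb g S e s z) = ((t (ne e) : Rˣ) : R) * E (ga g S e s z) + ve e := by
  have := per_conn
  let p : Cov := (⟨0, by simp⟩, 0)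
  refine ⟨E (p.1, p.2 + 1) - ((t N : Rˣ) : R) * E p,
    fun e => E (gb g S e 0 0) - ((t (ne e) : Rˣ) : R) * E (ga g S e 0 0),
    fun y z => ?_, fun e he s hs z => ?_⟩
  · have := per_two continuous_id per_shift hE
      (u := fun y => E (y.1, y.2 + 1) - ((t N : Rˣ) : R) * E y)
      (fun a b h1 h2 => by
        rw [per_pp, per_pp, h.per, ch_add] at h2
        simp only [id] at h1
        linear_combination h2 - ((t N : Rˣ) : R) * h1) (y, z) p
    linear_combination this
  · have := per_two (per_ga e) (per_gb e) hE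
      (u := fun q => E (gb g S e q.1 q.2) - ((t (ne e) : Rˣ) : R) * E (ga g S e q.1 q.2))
      (fun a b h1 h2 => by
        rw [pp_glue he a.1.2, pp_glue he b.1.2, h.arc e he _ a.1.2, ch_add] at h2
        linear_combination h2 - ((t (ne e) : Rˣ) : R) * h1) (⟨s, hs⟩, z) (⟨0, by simp⟩, 0)
    linear_combination this

lemma Prim.sub {v' : List (Seifert g S) → R} {E' : Cov → R} (hE : Prim g S t A v E)
    (hE' : Prim g S t A v' E') (a b : R) :
    Prim g S t A (a • v + b • v') (fun y => a * E y + b * E' y) := by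
  intro y
  obtain ⟨U, hU, hh⟩ := per_and hE hE' y
  refine ⟨U, hU, fun x hx x' hx' => ?_⟩
  obtain ⟨e1, e2⟩ := hh x hx x' hx'
  simp only [Pi.add_apply, Pi.smul_apply, smul_eq_mul]
  linear_combination a * e1 + b * e2

/-- a cocycle without periods is a coboundary -/
theorem Prim.mem_Bc [T2Space (Seifert g S)] (hn : CocZ n univ) (h : Per g S n A N ne)
    (hv : v ∈ Zc (tw t n) 1 univ ∅) (hE : Prim g S t A v E)
    (h1 : ∀ y z, E (y, z + 1) = ((t N : Rˣ) : R) * E (y, z))
    (h2 : ∀ e < NE g S, ∀ s ∈ Icc (0 : ℝ) 1, ∀ z,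
      E (gb g S e s z) = ((t (ne e) : Rˣ) : R) * E (ga g S e s z)) : v ∈ Bc (tw t n) 1 univ ∅ := by
  obtain ⟨b, hb⟩ := desc_cov (g := g) (S := S) (fun y => ((t (-A y) : Rˣ) : R) * E y)
    (fun y z => by
      rw [h1, h.per, ← mul_assoc, ← ch_add]
      congr 4
      ring)
    (fun e he s hs z => by
      rw [h2 e he s hs, h.arc e he s hs, ← mul_assoc, ← ch_add]
      congr 4
      ring)
  let B : List (Seifert g S) → R := fun l => match l with
    | [x] => b x
    | _ => 0
  have hτ : Coc (tw t n) univ := hn.tw t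
  refine MP_3d25f3_gt.mem_Bc.2 ⟨B, by simp, null_of_pull isClosedMap_pm pm_surj hτ ?_ fun y _ => ?_⟩
  · rw [map_sub]
    exact sub_mem hv.2 (DD_Null (k := 1) (F' := ∅) (hτ.mono sdiff_subset) (by simp))
  · obtain ⟨a, rfl⟩ := pc_surj y
    rw [← isOpenMap_pc.map_nhds_eq continuous_pc.continuousAt, eventually_map]
    obtain ⟨U, hU, hh⟩ := per_and h.prim hE a
    filter_upwards [hU] with a' ha'
    obtain ⟨e1, e2⟩ := hh a (mem_of_mem_nhds hU) a' ha'
    show (v - D (tw t n) B) [pp g S a, pp g S a'] = 0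
    rw [Pi.sub_apply, D_two]
    show v [pp g S a, pp g S a'] - (tw t n (pp g S a) (pp g S a') * b (pp g S a') - b (pp g S a)) = 0
    rw [hb, hb, tw, e1, ← mul_assoc, ← ch_add, show A a' - A a + -A a' = -A a by ring, ← mul_sub,
      ← e2, ← mul_assoc, ← ch_add]
    simp

theorem Prim.of_Bc (h : Per g S n A N ne) (hv : v ∈ Bc (tw t n) 1 univ ∅) (hE : Prim g S t A v E) :
    ∃ C : R, (∀ y z, E (y, z + 1) - C = ((t N : Rˣ) : R) * (E (y, z) - C)) ∧
      ∀ e < NE g S, ∀ s ∈ Icc (0 : ℝ) 1, ∀ z,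
        E (gb g S e s z) - C = ((t (ne e) : Rˣ) : R) * (E (ga g S e s z) - C) := by
  obtain ⟨B, -, hB⟩ := MP_3d25f3_gt.mem_Bc.1 hv
  have hc := const_of_nhds (f := fun y => E y - ((t (A y) : Rˣ) : R) * B [pp g S y]) fun y => by
    obtain ⟨U, hU, hh⟩ := per_and (per_and h.prim hE) (per_pull (per_null hB)) y
    refine ⟨U, hU, fun x hx x' hx' => ?_⟩
    obtain ⟨⟨e1, e2⟩, e3⟩ := hh x hx x' hx'
    rw [Pi.sub_apply, D_two, tw, e1] at e3
    have e4 := ch_add t (A x) (A x' - A x)
    rw [add_sub_cancel] at e4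
    rw [e4]
    linear_combination e2 - ((t (A x) : Rˣ) : R) * e3
  let p : Cov := (⟨0, by simp⟩, 0)
  refine ⟨E p - ((t (A p) : Rˣ) : R) * B [pp g S p], fun y z => ?_, fun e he s hs z => ?_⟩
  · have e1 := hc (y, z + 1) p
    have e2 := hc (y, z) p
    simp only [h.per, per_pp, ch_add] at e1 e2
    linear_combination e1 - ((t N : Rˣ) : R) * e2
  · have e1 := hc (gb g S e s z) p
    have e2 := hc (ga g S e s z) p
    simp only [h.arc e he s hs, pp_glue he hs, ch_add] at e1 e2
    linear_combination e1 - ((t (ne e) : Rˣ) : R) * e2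

lemma Per.h0 [IsDomain R] (h : Per g S n A N ne) {e : ℕ} (he : e < NE g S) (ht : t (ne e) ≠ 1)
    {c : List (Seifert g S) → R} (hc : c ∈ Zc (tw t n) 0 univ ∅) (x : Seifert g S) : c [x] = 0 := by
  have hk := const_of_nhds (f := fun y => ((t (A y) : Rˣ) : R) * c [pp g S y]) fun y => by
    obtain ⟨U, hU, hh⟩ := per_and h.prim (per_pull (per_null hc.2)) y
    refine ⟨U, hU, fun x hx x' hx' => ?_⟩
    obtain ⟨e1, e3⟩ := hh x hx x' hx'
    rw [D_two, tw, e1] at e3
    have e4 := ch_add t (A x) (A x' - A x)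
    rw [add_sub_cancel] at e4
    rw [e4]
    linear_combination -((t (A x) : Rˣ) : R) * e3
  have h0 : (0 : ℝ) ∈ Icc (0 : ℝ) 1 := by simp
  obtain ⟨y, rfl⟩ := pp_surj x
  have e1 := hk (gb g S e 0 0) y
  have e2 := hk (ga g S e 0 0) y
  simp only [h.arc e he 0 h0, pp_glue he h0, ch_add] at e1 e2
  have e3 : (((t (ne e) : Rˣ) : R) - 1) * (((t (A y) : Rˣ) : R) * c [pp g S y]) = 0 := by
    linear_combination e1 - ((t (ne e) : Rˣ) : R) * e2
  rcases mul_eq_zero.1 e3 with e4 | e4
  · exact absurd (Units.ext (sub_eq_zero.1 e4)) ht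
  · exact (mul_eq_zero.1 e4).resolve_left (Units.ne_zero _)

lemma Per.add {n' : Seifert g S → Seifert g S → Γ} {A' : Cov → Γ} {N' : Γ} {ne' : ℕ → Γ}
    (h : Per g S n A N ne) (h' : Per g S n' A' N' ne') :
    Per g S (fun a b => n a b + n' a b) (fun y => A y + A' y) (N + N') (fun e => ne e + ne' e) := by
  refine ⟨fun y => ?_, fun y z => by rw [h.per, h'.per]; ring, fun e he s hs z => by
    rw [h.arc e he s hs, h'.arc e he s hs]; ring⟩
  obtain ⟨U, hU, hh⟩ := per_and h.prim h'.prim y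
  exact ⟨U, hU, fun a ha b hb => by rw [(hh a ha b hb).1, (hh a ha b hb).2]; ring⟩

/-- periods are determined by the cocycle -/
lemma Per.uniq {A' : Cov → Γ} {N' : Γ} {ne' : ℕ → Γ} (h : Per g S n A N ne)
    (h' : Per g S n A' N' ne') : N = N' ∧ ∀ e < NE g S, ne e = ne' e := by
  have hc := const_of_nhds (f := fun y => A y - A' y) fun y => by
    obtain ⟨U, hU, hh⟩ := per_and h.prim h'.prim y
    refine ⟨U, hU, fun x hx x' hx' => ?_⟩
    obtain ⟨e1, e2⟩ := hh x hx x' hx'
    linear_combination e1 - e2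
  refine ⟨?_, fun e he' => ?_⟩
  · have := hc (⟨0, by simp⟩, 0 + 1) (⟨0, by simp⟩, 0)
    simp only [h.per, h'.per] at this
    linear_combination this
  · have h0 : (0 : ℝ) ∈ Icc (0 : ℝ) 1 := by simp
    have := hc (gb g S e 0 0) (ga g S e 0 0)
    simp only [h.arc e he' 0 h0, h'.arc e he' 0 h0] at this
    linear_combination this

/-- the slit periods add up to zero -/
lemma Per.sum_slit (h : Per g S n A N ne) :
    ∑ i ∈ Finset.range (S.length + 1), ne (2 * g + i) = 0 := by
  have h0 : (0 : ℝ) ∈ Icc (0 : ℝ) 1 := by simp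
  have h1 : (1 : ℝ) ∈ Icc (0 : ℝ) 1 := by simp
  let F : ℕ → Γ := fun j => A (bp (LL g S) j, 0)
  have a0 : ∀ e < NE g S, F (st g e + wd g e) = F (st g e) + ne e := fun e he => by
    simpa [F, ga, gb] using h.arc e he 0 h0 0
  have a1 : ∀ e < 2 * g, F (st g e + 2) = F (st g e + 1) + ne e := fun e he => by
    have := h.arc e (by unfold NE; omega) 1 h1 0
    have h2 : sh g S e = 0 := by simp [sh, pr, he]
    have h3 : wd g e = 3 := by simp [wd, he]
    simp only [ga, gb, h2, h3, mul_zero, add_zero] at this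
    rw [show ((st g e : ℝ) + ((3 : ℕ) : ℝ) - 1) = ((st g e + 2 : ℕ) : ℝ) by push_cast; ring,
      show ((st g e : ℝ) + 1) = ((st g e + 1 : ℕ) : ℝ) by push_cast; ring] at this
    exact this
  have b : ∀ k ≤ g, F (4 * k) = F 0 := by
    intro k
    induction k with
    | zero => intro _; rfl
    | succ k ih =>
      intro hk
      have c1 := a0 (2 * k + 0) (by unfold NE; omega)
      have c2 := a0 (2 * k + 1) (by unfold NE; omega)
      have c3 := a1 (2 * k + 0) (by omega)
      have c4 := a1 (2 * k + 1) (by omega)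
      rw [moda_st_lo hk (by omega), moda_wd_lo hk (by omega)] at c1 c2
      rw [moda_st_lo hk (by omega)] at c3 c4
      rw [← ih (by omega), show 4 * (k + 1) = 4 * k + 1 + 3 by ring, c2]
      simp only [add_zero, add_assoc, Nat.reduceAdd] at c1 c3 c4
      linear_combination c1 - c3 - c4
  have c : ∀ i ≤ S.length + 1, F (4 * g + 2 * i)
      = F 0 + ∑ j ∈ Finset.range i, ne (2 * g + j) := by
    intro i
    induction i with
    | zero => intro _; simpa using b g le_rfl
    | succ i ih =>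
      intro hi
      have c1 := a0 (2 * g + i) (by unfold NE; omega)
      rw [moda_st_hi, moda_wd_hi, ih (by omega)] at c1
      rw [Finset.sum_range_succ, show 4 * g + 2 * (i + 1) = 4 * g + 2 * i + 2 by ring, c1, add_assoc]
  have d := c _ le_rfl
  have e1 : bp (LL g S) ((0 : ℕ) : ℝ) = bp (LL g S) (LL g S) :=
    (bp_eq_iff (NeZero.ne _) _ _).2 ⟨1, by simp⟩
  have e2 : F (4 * g + 2 * (S.length + 1)) = F 0 := by
    show A (bp (LL g S) (LL g S : ℕ), 0) = A (bp (LL g S) ((0 : ℕ) : ℝ), 0)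
    rw [e1]
  rw [e2] at d
  linear_combination -d

end Pool.Agent.P.MP_3d25f3_gt.G
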