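import Pool.Agent.P.MP_3d25f3_gt.Alg

set_option autoImplicit false

open Set Filter Topology

namespace Pool.Agent.P.MP_3d25f3_gt

variable {Z W : Type} [TopologicalSpace Z] [TopologicalSpace W] {R : Type} [CommRing R]

/-- local cochains that agree near common points glue -/
lemma glue_co [T2Space Z] [NormalSpace Z] {F : Set Z} (hF : IsCompact F) (k : ℕ) (U : Z → Set Z)
    (hU : ∀ x ∈ F, U x ∈ 𝓝 x) (v : Z → List Z → R)
    (h : ∀ x ∈ F, ∀ x' ∈ F, v x - v x' ∈ Null R k (F ∩ U x ∩ U x')) :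
    ∃ c : List Z → R, ∀ x ∈ F, c - v x ∈ Null R k (F ∩ U x) := by
  classical
  have hK : ∀ x, ∃ K : Set Z, x ∈ F → K ∈ 𝓝 x ∧ IsClosed K ∧ K ⊆ U x := fun x => by
    by_cases hx : x ∈ F
    · obtain ⟨K, h1, h2, h3⟩ := exists_mem_nhds_isClosed_subset (hU x hx)
      exact ⟨K, fun _ => ⟨h1, h2, h3⟩⟩
    · exact ⟨∅, fun h => absurd h hx⟩
  choose K hK using hK
  obtain ⟨t, ht, hcov⟩ := hF.elim_nhds_subcover (fun x => interior (K x))
    fun x hx => interior_mem_nhds.2 (hK x hx).1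
  have hi : ∀ a : Z, ∃ j : Z, (∃ j' ∈ t, a ∈ K j') → j ∈ t ∧ a ∈ K j := fun a => by
    by_cases ha : ∃ j' ∈ t, a ∈ K j'
    · obtain ⟨j, hj⟩ := ha
      exact ⟨j, fun _ => hj⟩
    · exact ⟨a, fun h => absurd h ha⟩
  choose i hi using hi
  refine ⟨fun l => match l with
    | [] => 0
    | a :: l => v (i a) (a :: l), fun x hx z hz => ?_⟩
  obtain ⟨j0, hj0, hz0⟩ := mem_iUnion₂.1 (hcov hz.1)
  have hV : ∀ j, ∃ V ∈ 𝓝 z, j ∈ t → ∀ (a : Z) (l : List Z), (a :: l).length = k + 1 →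
      (∀ y ∈ a :: l, y ∈ V) → a ∈ K j → v j (a :: l) - v x (a :: l) = 0 := fun j => by
    by_cases hj : j ∈ t
    · by_cases hzj : z ∈ K j
      · obtain ⟨V, h1, h2⟩ := h j (ht j hj) x hx z ⟨⟨hz.1, (hK j (ht j hj)).2.2 hzj⟩, hz.2⟩
        exact ⟨V, h1, fun _ a l hl hm _ => h2 _ hl hm⟩
      · exact ⟨(K j)ᶜ, (hK j (ht j hj)).2.1.isOpen_compl.mem_nhds hzj,
          fun _ a l _ hm ha => absurd ha (hm a List.mem_cons_self)⟩
    · exact ⟨univ, univ_mem, fun h => absurd h hj⟩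
  choose V hV1 hV2 using hV
  refine ⟨K j0 ∩ ⋂ j ∈ t, V j, inter_mem (mem_interior_iff_mem_nhds.1 hz0)
    ((biInter_finset_mem t).2 fun j _ => hV1 j), fun l hl hm => ?_⟩
  cases l with
  | nil => simp at hl
  | cons a l =>
    obtain ⟨h1, h2⟩ := hi a ⟨j0, hj0, (hm a List.mem_cons_self).1⟩
    exact hV2 _ h1 a l hl (fun y hy => mem_iInter₂.1 (hm y hy).2 _ h1) h2

/-- neighbourhoods of a fibre of a closed map -/
lemma loc_closed {π : W → Z} (hπ : IsClosedMap π) {x : Z} {P : W → Prop}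
    (h : ∀ y, π y = x → ∀ᶠ y' in 𝓝 y, P y') : ∀ᶠ x' in 𝓝 x, ∀ y', π y' = x' → P y' :=
  hπ.eventually_nhds_fiber x h

omit [TopologicalSpace Z] in
lemma gl_two {l : List Z} (hl : l.length = 1 + 1) : ∃ a b, l = [a, b] :=
  List.length_eq_two.1 hl

omit [TopologicalSpace Z] in
lemma gl_three {l : List Z} (hl : l.length = 2 + 1) : ∃ a b c, l = [a, b, c] :=
  List.length_eq_three.1 hl

/-- a cocycle of degree one that vanishes upstairs vanishes -/
lemma null_of_pull {π : W → Z} (hπ : IsClosedMap π) (hs : Function.Surjective π) {τ : Z → Z → R}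
    {F : Set Z} (hτ : Coc τ F) {v : List Z → R} (hv : D τ v ∈ Null R 2 F)
    (h : ∀ y, π y ∈ F → ∀ᶠ y' in 𝓝 y, v [π y, π y'] = 0) : v ∈ Null R 1 F := by
  intro x hx
  have h1 : ∀ᶠ x' in 𝓝 x, v [x, x'] = 0 := by
    refine (loc_closed hπ (x := x) (P := fun y' => v [x, π y'] = 0) fun y hy => ?_).mono
      fun x' hx' => ?_
    · subst hy
      exact h y hx
    · obtain ⟨y', rfl⟩ := hs x'
      exact hx' y' rfl
  obtain ⟨U1, hU1, c1⟩ := hτ x hx
  obtain ⟨U2, hU2, c2⟩ := hv x hx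
  refine ⟨U1 ∩ U2 ∩ {x' | v [x, x'] = 0}, inter_mem (inter_mem hU1 hU2) h1, fun l hl hm => ?_⟩
  obtain ⟨a, b, rfl⟩ := gl_two hl
  have ha := hm a (by simp)
  have hb := hm b (by simp)
  have h2 := c2 [x, a, b] rfl (by
    intro y hy
    simp only [List.mem_cons, List.not_mem_nil, or_false] at hy
    rcases hy with rfl | rfl | rfl
    exacts [mem_of_mem_nhds hU2, ha.1.2, hb.1.2])
  have h3 := (c1 a ha.1.1).2 x (mem_of_mem_nhds hU1) a ha.1.1
  rw [(c1 a ha.1.1).1] at h3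
  rw [D_three, show v [x, a] = 0 from ha.2, show v [x, b] = 0 from hb.2] at h2
  linear_combination τ a x * h2 - v [a, b] * h3

/-- descent of a cocycle with prescribed primitive along a closed surjection -/
lemma descend [T2Space Z] [CompactSpace Z] {π : W → Z} (hπ : IsClosedMap π) (hc : Continuous π)
    (hs : Function.Surjective π) {τ : Z → Z → R} (hτ : Coc τ univ) {γ γ' E : W → R}
    (hγ : ∀ y, γ y * γ' y = 1)
    (hγτ : ∀ y, ∃ U ∈ 𝓝 y, ∀ a ∈ U, ∀ b ∈ U, γ a * τ (π a) (π b) = γ b)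
    (hE : ∀ x, ∃ b : Z → R, ∀ y, π y = x → ∀ᶠ y' in 𝓝 y, b (π y') = γ' y * (E y' - E y)) :
    ∃ v ∈ Zc τ 1 univ ∅, ∀ y, ∃ U ∈ 𝓝 y, ∀ a ∈ U, ∀ b ∈ U, γ a * v [π a, π b] = E b - E a := by
  choose B hB using hE
  choose C hC1 hC2 using fun x => hτ x (mem_univ x)
  let v : Z → List Z → R := fun x => co1 fun a b => τ a x * (B x b - B x a)
  let U : Z → Set Z := fun x => interior (C x) ∩ {x' | ∀ y', π y' = x' →
    ∃ V ∈ 𝓝 y', ∀ a ∈ V, ∀ b ∈ V, γ a * v x [π a, π b] = E b - E a}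
  have hU : ∀ x, U x ∈ 𝓝 x := fun x => by
    refine inter_mem (interior_mem_nhds.2 (hC1 x)) (loc_closed hπ fun y hy => ?_)
    obtain ⟨V, hV, h1⟩ := hγτ y
    refine (eventually_eventually_nhds.2 ((hB x y hy).and hV)).mono fun y' hy' =>
      ⟨_, hy', fun a ha b hb => ?_⟩
    have h2 := h1 a ha.2 y (mem_of_mem_nhds hV)
    rw [hy] at h2
    show γ a * (τ (π a) x * (B x (π b) - B x (π a))) = E b - E a
    rw [ha.1, hb.1, ← mul_assoc, h2]
    linear_combination (E b - E a) * hγ y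
  have hD : ∀ x, D τ (v x) ∈ Null R 2 (U x) := fun x z hz => by
    refine ⟨C x, mem_interior_iff_mem_nhds.1 hz.1, fun l hl hm => ?_⟩
    obtain ⟨a, b, c, rfl⟩ := gl_three hl
    have h1 := (hC2 x a (hm a (by simp))).2 b (hm b (by simp)) x (mem_of_mem_nhds (hC1 x))
    rw [D_three]
    show τ a b * (τ b x * (B x c - B x b)) - τ a x * (B x c - B x a) +
      τ a x * (B x b - B x a) = 0
    linear_combination (B x c - B x b) * h1
  obtain ⟨c, hc'⟩ := glue_co isCompact_univ 1 U (fun x _ => hU x) v fun x _ x' _ => by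
    refine null_of_pull hπ hs (hτ.mono (subset_univ _)) ?_ fun y hy => ?_
    · rw [map_sub]
      exact sub_mem (Null_mono 2 (fun z hz => hz.1.2) (hD x))
        (Null_mono 2 (fun z hz => hz.2) (hD x'))
    · obtain ⟨V, hV, h1⟩ := hy.1.2.2 y rfl
      obtain ⟨V', hV', h2⟩ := hy.2.2 y rfl
      filter_upwards [hV, hV'] with y' h3 h4
      have h5 := h1 y (mem_of_mem_nhds hV) y' h3
      have h6 := h2 y (mem_of_mem_nhds hV') y' h4
      rw [Pi.sub_apply]
      linear_combination γ' y * h5 - γ' y * h6 - (v x [π y, π y'] - v x' [π y, π y']) * hγ y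
  refine ⟨c, ⟨by simp, fun x _ => ?_⟩, fun y => ?_⟩
  · have h1 : D τ c ∈ Null R 2 (univ ∩ U x) := by
      have := add_mem (D_Null τ (hc' x (mem_univ x))) (Null_mono 2 inter_subset_right (hD x))
      rwa [map_sub, sub_add_cancel] at this
    exact h1 x ⟨mem_univ x, mem_of_mem_nhds (hU x)⟩
  · have hy := mem_of_mem_nhds (hU (π y))
    obtain ⟨V, hV, h1⟩ := hy.2 y rfl
    obtain ⟨V', hV', h2⟩ := hc' (π y) (mem_univ _) (π y) ⟨mem_univ _, hy⟩
    refine ⟨V ∩ π ⁻¹' V', inter_mem hV (hc.continuousAt.preimage_mem_nhds hV'),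
      fun a ha b hb => ?_⟩
    have h3 := h2 [π a, π b] rfl (by
      intro z hz
      simp only [List.mem_cons, List.not_mem_nil, or_false] at hz
      rcases hz with rfl | rfl
      exacts [ha.2, hb.2])
    rw [Pi.sub_apply, sub_eq_zero] at h3
    rw [h3, h1 a ha.1 b hb.1]

end Pool.Agent.P.MP_3d25f3_gt
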