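import Pool.Agent.P.MP_3d25f3_gt.Cube
import Pool.Agent.P.MP_3d25f3_gt.Cup
import Pool.Agent.P.MP_3d25f3_gt.Coef

set_option autoImplicit false

open Set Filter Topology

namespace Pool.Agent.P.MP_3d25f3_gt

variable {R R' : Type} [CommRing R] [CommRing R']

abbrev E4 : Type := Fin 4 → ℝ

noncomputable def orn : List E4 → ℤ := (exists_gen 4).choose

lemma orn_gen : Gen orn 4 univ (Out 4) := (exists_gen 4).choose_spec

lemma orn_mem (R : Type) [CommRing R] :
    cf (Int.castRingHom R) orn ∈ Zc (1 : E4 → E4 → R) 4 univ (Out 4) :=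
  cf_Zc _ (fun _ _ => by simp) orn_gen.1

lemma orn_bij (R : Type) [CommRing R] :
    Function.Bijective (LinearMap.toSpanSingleton R _ (cl _ (orn_mem R))) := by
  constructor
  · rw [injective_iff_map_eq_zero]
    intro r hr
    rw [LinearMap.toSpanSingleton_apply, ← cl_smul, cl_eq_zero] at hr
    exact (orn_gen.2 R).2.1 r hr
  · intro x
    obtain ⟨c, hc, rfl⟩ := cl_surj x
    obtain ⟨r, hr⟩ := (orn_gen.2 R).1 c hc
    refine ⟨r, Eq.symm ?_⟩
    rw [LinearMap.toSpanSingleton_apply, ← cl_smul, cl_eq]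
    exact hr

/-- integration of compactly supported classes of top degree -/
noncomputable def intg (R : Type) [CommRing R] : H (1 : E4 → E4 → R) 4 univ (Out 4) ≃ₗ[R] R :=
  (LinearEquiv.ofBijective _ (orn_bij R)).symm

lemma intg_eq {c : List E4 → R} (hc : c ∈ Zc (1 : E4 → E4 → R) 4 univ (Out 4)) (r : R) :
    intg R (cl c hc) = r ↔ c - r • cf (Int.castRingHom R) orn ∈ Bc 1 4 univ (Out 4) := by
  rw [intg, LinearEquiv.symm_apply_eq, LinearEquiv.ofBijective_apply,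
    LinearMap.toSpanSingleton_apply, ← cl_smul, cl_eq]

lemma intg_cf (φ : R →+* R') {c : List E4 → R} (hc : c ∈ Zc (1 : E4 → E4 → R) 4 univ (Out 4))
    (hc' : cf φ c ∈ Zc (1 : E4 → E4 → R') 4 univ (Out 4)) :
    intg R' (cl _ hc') = φ (intg R (cl c hc)) := by
  rw [intg_eq]
  have h := cf_Bc φ (τ' := 1) (fun _ _ => by simp) ((intg_eq hc _).1 rfl)
  rw [map_sub, LinearMap.map_smulₛₗ] at h
  convert h using 3
  funext l
  simp

variable {τ τ' : E4 → E4 → R} {A A' K K' : Set E4} {i j : ℕ}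

noncomputable def pairZ (ok : POK τ τ' (Out 4) A A' K K') (h : i + j = 4) :
    Zc τ i A A' →ₗ[R] H τ' j K K' →ₗ[R] R where
  toFun a := (intg R).toLinearMap ∘ₗ hmap (cupL τ' i a.1) (fun _ hc => cup_Zc ok h a.2 hc)
    (fun _ hc hb => cup_Bc_right ok h a.2 hc hb)
  map_add' a a' := by
    ext ⟨b, hb⟩
    change intg R (cl _ (cup_Zc ok h (a + a').2 hb))
      = intg R (cl _ (cup_Zc ok h a.2 hb)) + intg R (cl _ (cup_Zc ok h a'.2 hb))
    rw [← map_add, ← cl_add]
    simp only [Submodule.coe_add, cup_add_left]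
  map_smul' r a := by
    ext ⟨b, hb⟩
    change intg R (cl _ (cup_Zc ok h (r • a).2 hb)) = r • intg R (cl _ (cup_Zc ok h a.2 hb))
    rw [← map_smul, ← cl_smul]
    simp only [Submodule.coe_smul, cup_smul_left]

/-- the duality pairing -/
noncomputable def pair (ok : POK τ τ' (Out 4) A A' K K') (h : i + j = 4) :
    H τ i A A' →ₗ[R] H τ' j K K' →ₗ[R] R :=
  Submodule.liftQ _ (pairZ ok h) (by
    intro a ha
    rw [LinearMap.mem_ker]
    ext ⟨b, hb⟩
    change intg R (cl _ (cup_Zc ok h a.2 hb)) = 0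
    rw [(cl_eq_zero _).2 (cup_Bc_left ok h a.2 ha hb), map_zero])

lemma pair_cl (ok : POK τ τ' (Out 4) A A' K K') (h : i + j = 4) (a b : List E4 → R)
    (ha : a ∈ Zc τ i A A') (hb : b ∈ Zc τ' j K K') :
    pair ok h (cl a ha) (cl b hb) = intg R (cl (cup τ' i a b) (cup_Zc ok h ha hb)) := rfl

lemma pair_cmap (φ : R →+* R') {σ σ' : E4 → E4 → R'} (hφ : ∀ x y, φ (τ x y) = σ x y)
    (hφ' : ∀ x y, φ (τ' x y) = σ' x y) (ok : POK τ τ' (Out 4) A A' K K')
    (ok' : POK σ σ' (Out 4) A A' K K') (h : i + j = 4) (a : H τ i A A') (b : H τ' j K K') :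
    pair ok' h (cmap φ hφ i A A' a) (cmap φ hφ' j K K' b) = φ (pair ok h a b) := by
  obtain ⟨a, ha, rfl⟩ := cl_surj a
  obtain ⟨b, hb, rfl⟩ := cl_surj b
  rw [cmap_cl, cmap_cl, pair_cl, pair_cl, ← intg_cf φ]
  · simp only [cf_cup φ hφ']
  · rw [cf_cup φ hφ']
    exact cup_Zc ok' h (cf_Zc φ hφ ha) (cf_Zc φ hφ' hb)

/-- duality over a field -/
structure Dual {k : Type} [Field k] {τ τ' : E4 → E4 → k} {A A' K K' : Set E4}
    (ok : POK τ τ' (Out 4) A A' K K') : Prop where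
  bij : ∀ i j (h : i + j = 4), Function.Bijective (pair ok h)
  van : ∀ i, 4 < i → Van τ i A A'
  van' : ∀ j, 4 < j → Van τ' j K K'

end Pool.Agent.P.MP_3d25f3_gt
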