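import Mathlib

/-!
The value at `s = 1` of the exponential zeta function, and nonvanishing of the first generalized
Bernoulli sums attached to odd Dirichlet characters.
-/

namespace Pool.Agent.P.MP_3d25f3_gt.LV

open Complex Set Filter Topology MeasureTheory Asymptotics HurwitzZeta
open scoped Real

/-- generating function -/
noncomputable def gen (z : ℂ) (t : ℝ) : ℂ := z * Real.exp (-t) / (1 - z * Real.exp (-t))

theorem re_pos {z : ℂ} (hz : ‖z‖ = 1) (hz1 : z ≠ 1) {t : ℝ} (ht : 0 ≤ t) :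
    0 < (1 - z * Real.exp (-t)).re := by
  have h1 : z.re < 1 := by
    have h2 : z.re ≤ 1 := hz ▸ Complex.re_le_norm z
    rcases h2.lt_or_eq with h | h
    · exact h
    · exfalso
      apply hz1
      have h3 : z.re ^ 2 + z.im ^ 2 = 1 := by
        have := Complex.sq_norm z
        rw [hz, Complex.normSq_apply] at this
        nlinarith
      have h4 : z.im = 0 := by
        rw [h] at h3
        nlinarith
      exact Complex.ext (by simpa using h) (by simpa using h4)
  have h5 : Real.exp (-t) ≤ 1 := Real.exp_le_one_iff.mpr (by linarith)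
  have h6 : 0 < Real.exp (-t) := Real.exp_pos _
  simp only [sub_re, one_re, mul_re, ofReal_re, ofReal_im, mul_zero, sub_zero, sub_pos]
  rcases le_or_gt z.re 0 with h | h
  · nlinarith
  · nlinarith

theorem lower_bound {z : ℂ} (hz : ‖z‖ = 1) (hz1 : z ≠ 1) :
    ∃ c : ℝ, 0 < c ∧ ∀ t : ℝ, 0 ≤ t → c ≤ ‖1 - z * Real.exp (-t)‖ := by
  have h0 := re_pos hz hz1 le_rfl
  simp only [neg_zero, Real.exp_zero, ofReal_one, mul_one, sub_re, one_re, sub_pos] at h0
  refine ⟨min 1 (1 - z.re), lt_min one_pos (by linarith), fun t ht => ?_⟩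
  refine le_trans ?_ (Complex.re_le_norm _)
  have h5 : Real.exp (-t) ≤ 1 := Real.exp_le_one_iff.mpr (by linarith)
  have h6 : 0 < Real.exp (-t) := Real.exp_pos _
  simp only [sub_re, one_re, mul_re, ofReal_re, ofReal_im, mul_zero, sub_zero]
  rcases le_or_gt z.re 0 with h | h
  · exact (min_le_left _ _).trans (by nlinarith)
  · exact (min_le_right _ _).trans (by nlinarith)

theorem gen_continuousOn {z : ℂ} (hz : ‖z‖ = 1) (hz1 : z ≠ 1) : ContinuousOn (gen z) (Ici 0) := by
  unfold gen
  refine ContinuousOn.div (by fun_prop) (by fun_prop) fun t ht h => ?_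
  have := re_pos hz hz1 ht
  rw [h] at this
  simp at this

theorem gen_bound {z : ℂ} (hz : ‖z‖ = 1) (hz1 : z ≠ 1) :
    ∃ C : ℝ, ∀ t : ℝ, 0 ≤ t → ‖gen z t‖ ≤ C * Real.exp (-t) := by
  obtain ⟨c, hc, h⟩ := lower_bound hz hz1
  refine ⟨c⁻¹, fun t ht => ?_⟩
  unfold gen
  rw [norm_div, norm_mul, hz, one_mul, Complex.norm_real, Real.norm_eq_abs,
    abs_of_pos (Real.exp_pos _), div_eq_inv_mul]
  exact mul_le_mul_of_nonneg_right (inv_anti₀ hc (h t ht)) (Real.exp_pos _).le

theorem gen_hasSum {z : ℂ} (hz : ‖z‖ = 1) {t : ℝ} (ht : 0 < t) :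
    HasSum (fun n : ℕ => z ^ (n + 1) * Real.exp (-((n : ℝ) + 1) * t)) (gen z t) := by
  have h1 : ‖z * Real.exp (-t)‖ < 1 := by
    rw [norm_mul, hz, one_mul, Complex.norm_real, Real.norm_eq_abs, abs_of_pos (Real.exp_pos _)]
    exact Real.exp_lt_one_iff.mpr (by linarith)
  have h2 := (hasSum_geometric_of_norm_lt_one h1).mul_left (z * Real.exp (-t))
  unfold gen
  rw [div_eq_mul_inv]
  refine h2.congr_fun fun n => ?_
  have : Real.exp (-((n : ℝ) + 1) * t) = Real.exp (-t) ^ (n + 1) := by
    rw [← Real.exp_nat_mul]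
    congr 1
    push_cast
    ring
  rw [this]
  push_cast
  ring

theorem mellin_gen_one {z : ℂ} (hz : ‖z‖ = 1) (hz1 : z ≠ 1) :
    mellin (gen z) 1 = -Complex.log (1 - z) := by
  obtain ⟨C, hC⟩ := gen_bound hz hz1
  have hint : IntegrableOn (gen z) (Ioi 0) := by
    refine Integrable.mono' ((exp_neg_integrableOn_Ioi 0 one_pos).const_mul C) ?_ ?_
    · exact ((gen_continuousOn hz hz1).mono Ioi_subset_Ici_self).aestronglyMeasurable
        measurableSet_Ioi
    · filter_upwards [ae_restrict_mem measurableSet_Ioi] with t ht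
      simpa using hC t (le_of_lt ht)
  have hderiv : ∀ t ∈ Ici (0 : ℝ),
      HasDerivAt (fun t : ℝ => Complex.log (1 - z * Real.exp (-t))) (gen z t) t := by
    intro t ht
    have h1 : HasDerivAt (fun t : ℝ => (1 : ℂ) - z * Real.exp (-t)) (z * Real.exp (-t)) t := by
      have h2 : HasDerivAt (fun t : ℝ => Real.exp (-t)) (-Real.exp (-t)) t := by
        simpa using (hasDerivAt_neg t).exp
      have h3 := (h2.ofReal_comp.const_mul z).const_sub 1
      simpa using h3
    exact h1.clog_real (Or.inl (re_pos hz hz1 ht))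
  have hlim : Tendsto (fun t : ℝ => Complex.log (1 - z * Real.exp (-t))) atTop (𝓝 0) := by
    have h1 : Tendsto (fun t : ℝ => (1 : ℂ) - z * Real.exp (-t)) atTop (𝓝 1) := by
      have h2 : Tendsto (fun t : ℝ => ((Real.exp (-t) : ℝ) : ℂ)) atTop (𝓝 0) := by
        have := (Complex.continuous_ofReal.tendsto 0).comp Real.tendsto_exp_neg_atTop_nhds_zero
        rw [Complex.ofReal_zero] at this
        exact this
      simpa using (h2.const_mul z).const_sub 1
    have h3 : ContinuousAt Complex.log 1 := continuousAt_clog (Or.inl (by simp))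
    have h4 := h3.tendsto.comp h1
    rw [Complex.log_one] at h4
    exact h4
  have := integral_Ioi_of_hasDerivAt_of_tendsto' hderiv hint hlim
  simp only [mellin, sub_self, cpow_zero, smul_eq_mul, one_mul]
  rw [this]
  simp

theorem mellin_gen_differentiableAt {z : ℂ} (hz : ‖z‖ = 1) (hz1 : z ≠ 1) :
    DifferentiableAt ℂ (mellin (gen z)) 1 := by
  obtain ⟨C, hC⟩ := gen_bound hz hz1
  refine mellin_differentiableAt_of_isBigO_rpow_exp (a := 1) (b := 0) one_pos ?_ ?_ ?_ (by simp)
  · exact ((gen_continuousOn hz hz1).mono Ioi_subset_Ici_self).locallyIntegrableOn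
      measurableSet_Ioi
  · refine IsBigO.of_bound C ?_
    filter_upwards [eventually_ge_atTop 0] with t ht
    simpa [Real.abs_exp] using hC t ht
  · refine IsBigO.of_bound (max C 0) ?_
    filter_upwards [self_mem_nhdsWithin] with t ht
    have h1 := hC t (le_of_lt ht)
    have h5 : Real.exp (-t) ≤ 1 := Real.exp_le_one_iff.mpr (by have : 0 < t := ht; linarith)
    have h6 : 0 < Real.exp (-t) := Real.exp_pos _
    simp only [neg_zero, Real.rpow_zero, norm_one, mul_one]
    refine h1.trans ?_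
    calc C * Real.exp (-t) ≤ max C 0 * Real.exp (-t) :=
          mul_le_mul_of_nonneg_right (le_max_left _ _) h6.le
      _ ≤ max C 0 * 1 := mul_le_mul_of_nonneg_left h5 (le_max_right _ _)
      _ = max C 0 := mul_one _

theorem expZeta_one (a : ℝ) (ha : (a : UnitAddCircle) ≠ 0) :
    expZeta a 1 = -Complex.log (1 - cexp (2 * π * I * a)) := by
  set z : ℂ := cexp (2 * π * I * a) with hzdef
  have hz : ‖z‖ = 1 := by
    rw [hzdef, show (2 * π * I * a : ℂ) = ((2 * π * a : ℝ) : ℂ) * I by push_cast; ring]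
    exact Complex.norm_exp_ofReal_mul_I _
  have hz1 : z ≠ 1 := by
    intro h
    obtain ⟨n, hn⟩ := Complex.exp_eq_one_iff.mp h
    apply ha
    have h2 : (a : ℂ) = n := by
      have h3 : (2 * π * I : ℂ) ≠ 0 := by simp [Real.pi_ne_zero]
      apply mul_left_cancel₀ h3
      rw [hn]; ring
    have h4 : a = n := by exact_mod_cast h2
    rw [h4]
    exact (AddCircle.coe_eq_zero_iff (1 : ℝ)).mpr ⟨n, by simp⟩
  have key : ∀ s : ℂ, 1 < s.re → Gamma s * expZeta a s = mellin (gen z) s := by
    intro s hs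
    have h1 : HasSum (fun n : ℕ => Gamma s * z ^ (n + 1) / (((n : ℝ) + 1 : ℝ) : ℂ) ^ s)
        (mellin (gen z) s) := by
      refine hasSum_mellin (a := fun n : ℕ => z ^ (n + 1)) (p := fun n : ℕ => (n : ℝ) + 1)
        (fun n => Or.inr (by positivity)) (by linarith) (fun t ht => gen_hasSum hz ht) ?_
      simp only [norm_pow, hz, one_pow]
      have := (summable_nat_add_iff 1).mpr (Real.summable_one_div_nat_rpow.mpr hs)
      simpa using this
    have h2 := hasSum_expZeta_of_one_lt_re a hs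
    have hs0 : s ≠ 0 := by
      rintro rfl
      simp at hs
      linarith
    have h3 : HasSum (fun n : ℕ => cexp (2 * π * I * a * ((n + 1 : ℕ) : ℂ)) / ((n + 1 : ℕ) : ℂ) ^ s)
        (expZeta a s) := by
      have := (hasSum_nat_add_iff' 1).mpr h2
      simpa [hs0] using this
    refine (h3.mul_left (Gamma s)).unique ?_
    refine h1.congr_fun fun n => ?_
    rw [hzdef, ← Complex.exp_nat_mul]
    push_cast
    ring_nf
  have hc1 : ContinuousAt (fun s => Gamma s * expZeta a s) 1 :=
    ((Complex.differentiableAt_Gamma 1 (by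
      intro m h
      have := congrArg Complex.re h
      simp at this
      have : (0 : ℝ) ≤ m := Nat.cast_nonneg m
      linarith)).mul (differentiable_expZeta_of_ne_zero ha 1)).continuousAt
  have hc2 : ContinuousAt (mellin (gen z)) 1 := (mellin_gen_differentiableAt hz hz1).continuousAt
  have hl : Tendsto (fun x : ℝ => (x : ℂ)) (𝓝[>] 1) (𝓝 1) := by
    have : Tendsto (fun x : ℝ => (x : ℂ)) (𝓝 1) (𝓝 ((1 : ℝ) : ℂ)) :=
      Complex.continuous_ofReal.tendsto 1
    simpa using this.mono_left nhdsWithin_le_nhds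
  have h4 := tendsto_nhds_unique_of_eventuallyEq (hc1.tendsto.comp hl) (hc2.tendsto.comp hl) (by
    filter_upwards [self_mem_nhdsWithin] with x hx
    exact key x (by simpa using hx))
  rw [Complex.Gamma_one, one_mul] at h4
  rw [h4, mellin_gen_one hz hz1]

theorem log_diff {x : ℝ} (h0 : 0 < x) (h1 : x < 1) :
    Complex.log (1 - cexp (2 * π * I * x)) - Complex.log (1 - cexp (2 * π * I * (-x : ℝ)))
      = π * I * (2 * x - 1) := by
  have hs : 0 < 2 * Real.sin (π * x) := by
    have := Real.sin_pos_of_pos_of_lt_pi (mul_pos Real.pi_pos h0) (by nlinarith [Real.pi_pos])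
    linarith
  have e1 : ∀ y : ℝ, 1 - cexp (2 * π * I * y)
      = ((2 * Real.sin (π * y) : ℝ) : ℂ) * cexp (((π * y - π / 2 : ℝ) : ℂ) * I) := by
    intro y
    have h2 : cexp (((π * y - π / 2 : ℝ) : ℂ) * I) = cexp (π * y * I) * (-I) := by
      rw [← Complex.exp_neg_pi_div_two_mul_I, ← Complex.exp_add]
      congr 1
      push_cast
      ring
    rw [h2]
    push_cast
    rw [Complex.sin, show (2 * π * I * y : ℂ) = π * y * I + π * y * I by ring, Complex.exp_add]
    have h3 : cexp (-(π * y) * I) * cexp (π * y * I) = 1 := by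
      rw [← Complex.exp_add]; simp
    linear_combination (cexp (-(π * y) * I) * cexp (π * y * I) - cexp (π * y * I) ^ 2) * I_mul_I
      - h3
  have e2 : 1 - cexp (2 * π * I * (-x : ℝ))
      = ((2 * Real.sin (π * x) : ℝ) : ℂ) * cexp (((π / 2 - π * x : ℝ) : ℂ) * I) := by
    have h2 := e1 (1 - x)
    have h3 : cexp (2 * π * I * ((1 - x : ℝ) : ℂ)) = cexp (2 * π * I * (-x : ℝ)) := by
      rw [show (2 * π * I * ((1 - x : ℝ) : ℂ)) = 2 * π * I * (-x : ℝ) + 2 * π * I by
        push_cast; ring, Complex.exp_add, Complex.exp_two_pi_mul_I, mul_one]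
    rw [h3, show π * (1 - x) = π - π * x by ring, Real.sin_pi_sub] at h2
    rw [h2]
    have h4 : π - π * x - π / 2 = π / 2 - π * x := by ring
    rw [h4]
  have hpi := Real.pi_pos
  rw [e1 x, e2, Complex.log_ofReal_mul hs (Complex.exp_ne_zero _),
    Complex.log_ofReal_mul hs (Complex.exp_ne_zero _),
    Complex.log_exp (by simp; nlinarith) (by simp; nlinarith),
    Complex.log_exp (by simp; nlinarith) (by simp; nlinarith)]
  push_cast
  ring

end Pool.Agent.P.MP_3d25f3_gt.LV

namespace Pool.Agent.P.MP_3d25f3_gt.LV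

open Complex Finset HurwitzZeta ZMod
open scoped Real

/-- `2 m` times the first periodic Bernoulli function at `y / m`. -/
def bern {m : ℕ} (y : ZMod m) : ℤ := if y = 0 then 0 else 2 * (y.val : ℤ) - m

variable {m : ℕ} [NeZero m]

theorem expZeta_diff (j : ZMod m) (hj : j ≠ 0) :
    expZeta (toAddCircle (-j)) 1 - expZeta (toAddCircle j) 1 = π * I / m * bern j := by
  have hm : (0 : ℝ) < m := Nat.cast_pos.mpr (NeZero.pos m)
  have h1 : toAddCircle j = ((j.val / m : ℝ) : UnitAddCircle) := toAddCircle_apply j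
  have h2 : toAddCircle (-j) = ((-(j.val / m) : ℝ) : UnitAddCircle) := by
    rw [map_neg, h1]; rfl
  have h3 : ((j.val / m : ℝ) : UnitAddCircle) ≠ 0 := by
    rw [← h1, Ne, toAddCircle_eq_zero]; exact hj
  have h4 : ((-(j.val / m) : ℝ) : UnitAddCircle) ≠ 0 := by
    rw [← h2, Ne, toAddCircle_eq_zero]; exact neg_ne_zero.mpr hj
  have h5 : (0 : ℝ) < j.val / m := div_pos (Nat.cast_pos.mpr (ZMod.val_pos.mpr hj)) hm
  have h6 : (j.val / m : ℝ) < 1 := (div_lt_one hm).mpr (Nat.cast_lt.mpr (ZMod.val_lt j))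
  rw [h1, h2, expZeta_one _ h3, expZeta_one _ h4]
  have h7 := log_diff h5 h6
  have hm' : (m : ℂ) ≠ 0 := Nat.cast_ne_zero.mpr (NeZero.ne m)
  have h8 : (π * I / m * bern j : ℂ) = π * I * (2 * ((j.val / m : ℝ) : ℂ) - 1) := by
    simp only [bern, if_neg hj]
    push_cast
    field_simp
  rw [h8, ← h7]
  ring

theorem exists_phi (χ : DirichletCharacter ℂ m) (hχ : χ.Odd) :
    ∃ Φ : ZMod m → ℂ, ZMod.dft Φ = χ ∧
      (∀ (u : (ZMod m)ˣ) (x : ZMod m), Φ (u⁻¹.val * x) = χ u * Φ x) ∧
      ∑ x, Φ x * bern x ≠ 0 := by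
  set Φ : ZMod m → ℂ := ZMod.dft.symm χ with hΦ
  have h1 : ZMod.dft Φ = χ := LinearEquiv.apply_symm_apply _ _
  have hodd : Function.Odd Φ := ZMod.dft_odd_iff.mp (h1 ▸ hχ.to_fun)
  have h0 : Φ 0 = 0 := hodd.map_zero
  refine ⟨Φ, h1, fun u x => ?_, ?_⟩
  · rw [hΦ, ZMod.invDFT_apply', ZMod.invDFT_apply', ← mul_neg, ← ZMod.dft_comp_unitMul]
    have : (fun j => χ (u.val * j)) = fun j => χ u * χ j := by
      ext j; rw [map_mul]
    rw [this, ZMod.dft_const_mul]
    simp only [smul_eq_mul]
    ring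
  · have hne : χ ≠ 1 := by
      rintro rfl
      exact DirichletCharacter.not_even_and_odd _ ⟨by
        rw [DirichletCharacter.Even, MulChar.one_apply isUnit_one.neg], hχ⟩
    have hL := DirichletCharacter.LFunction_apply_one_ne_zero hne
    rw [DirichletCharacter.LFunction, ← h1, ZMod.LFunction_dft Φ (Or.inl h0)] at hL
    have h2 : ∑ j, Φ j * expZeta (toAddCircle (-j)) 1 = -∑ j, Φ j * expZeta (toAddCircle j) 1 := by
      rw [← Finset.sum_neg_distrib]
      refine Fintype.sum_equiv (Equiv.neg _) _ _ fun j => ?_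
      simp only [Equiv.neg_apply]
      rw [hodd j]
      ring
    have h3 : 2 * ∑ j, Φ j * expZeta (toAddCircle (-j)) 1 = π * I / m * ∑ x, Φ x * bern x := by
      rw [two_mul]
      nth_rewrite 2 [h2]
      rw [← sub_eq_add_neg, ← Finset.sum_sub_distrib, Finset.mul_sum]
      refine Finset.sum_congr rfl fun j _ => ?_
      by_cases hj : j = 0
      · rw [hj, h0]; simp
      · rw [← mul_sub, expZeta_diff j hj]; ring
    intro h4
    rw [h4, mul_zero] at h3
    exact hL ((mul_eq_zero.mp h3).resolve_left two_ne_zero)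

end Pool.Agent.P.MP_3d25f3_gt.LV
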