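import Pool.Agent.P.MP_3d25f3_gt.ModA
import Pool.Agent.P.MP_3d25f3_gt.Gl

set_option autoImplicit false

open Set Filter Topology

namespace Pool.Agent.P.MP_3d25f3_gt

variable {g : ℕ} {S : List (ℕ × ℤ)}

lemma continuous_bp (L : ℕ) : Continuous (bp L) := by
  refine Continuous.subtype_mk ?_ _
  unfold bd
  fun_prop

lemma bp_eq_iff {L : ℕ} (hL : L ≠ 0) (u u' : ℝ) : bp L u = bp L u' ↔ ∃ k : ℤ, u' = u + k * L := by
  have hL' : (L : ℂ) ≠ 0 := by exact_mod_cast hL
  have hpi : (2 * Real.pi * Complex.I : ℂ) ≠ 0 := Complex.two_pi_I_ne_zero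
  rw [Subtype.ext_iff]
  change bd L u = bd L u' ↔ _
  unfold bd
  rw [eq_comm, Complex.exp_eq_exp_iff_exists_int]
  refine exists_congr fun k => ?_
  constructor
  · intro h
    have h2 : (2 * Real.pi * Complex.I : ℂ) * (u' : ℂ) =
        (2 * Real.pi * Complex.I : ℂ) * ((u : ℂ) + k * L) := by
      field_simp at h
      linear_combination (2 * Real.pi * Complex.I : ℂ) * h
    have h3 := mul_left_cancel₀ hpi h2
    exact_mod_cast h3
  · intro h
    rw [h]
    push_cast
    field_simp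

lemma exists_ang {L : ℕ} (hL : L ≠ 0) : ∃ ang : Disc → AddCircle (L : ℝ),
    (∀ u, ContinuousAt ang (bp L u)) ∧ ∀ u, ang (bp L u) = u := by
  have hL' : (L : ℝ) ≠ 0 := by exact_mod_cast hL
  have hpi : (2 * Real.pi : ℝ) ≠ 0 := Real.two_pi_pos.ne'
  refine ⟨fun y => AddCircle.homeomorphAddCircle (2 * Real.pi) (L : ℝ) hpi hL'
    (((y : ℂ).arg : ℝ) : Real.Angle), fun u => ?_, fun u => ?_⟩
  · refine (Homeomorph.continuous _).continuousAt.comp ?_
    have h0 : ((bp L u : Disc) : ℂ) ≠ 0 := by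
      intro h
      have := norm_bd L u
      change ‖((bp L u : Disc) : ℂ)‖ = 1 at this
      rw [h] at this
      simp at this
    exact ContinuousAt.comp (f := fun y : Disc => (y : ℂ))
      (Complex.continuousAt_arg_coe_angle h0) continuous_subtype_val.continuousAt
  · have h1 : ((bp L u : Disc) : ℂ) = Complex.exp (((2 * Real.pi * u / L : ℝ) : ℂ) * Complex.I) := by
      change bd L u = _
      unfold bd
      congr 1
      push_cast
      ring
    have h2 : ((((bp L u : Disc) : ℂ).arg : ℝ) : Real.Angle) =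
        ((2 * Real.pi * u / L : ℝ) : Real.Angle) := by
      rw [h1, Complex.arg_exp_mul_I]
      exact Real.Angle.coe_toIocMod _ _
    change AddCircle.homeomorphAddCircle (2 * Real.pi) (L : ℝ) hpi hL'
      ((((bp L u : Disc) : ℂ).arg : ℝ) : Real.Angle) = _
    rw [h2]
    refine (AddCircle.homeomorphAddCircle_apply_mk (2 * Real.pi) (L : ℝ) hpi hL'
      (2 * Real.pi * u / L)).trans ?_
    congr 1
    field_simp

lemma exists_bp {L : ℕ} (hL : L ≠ 0) {y : Disc} (hy : ‖(y : ℂ)‖ = 1) :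
    ∃ u ∈ Ico (0 : ℝ) L, y = bp L u := by
  have hL' : (0 : ℝ) < L := by exact_mod_cast Nat.pos_of_ne_zero hL
  have hLc : (L : ℂ) ≠ 0 := by exact_mod_cast hL
  have hpi : (Real.pi : ℂ) ≠ 0 := by exact_mod_cast Real.pi_ne_zero
  have h1 : y = bp L ((y : ℂ).arg * L / (2 * Real.pi)) := by
    apply Subtype.ext
    change (y : ℂ) = bd L _
    unfold bd
    have h2 := Complex.norm_mul_exp_arg_mul_I (y : ℂ)
    rw [hy] at h2
    rw [show (2 * Real.pi * Complex.I * (((y : ℂ).arg * L / (2 * Real.pi) : ℝ) : ℂ) / L : ℂ) =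
      ((y : ℂ).arg : ℂ) * Complex.I by push_cast; field_simp]
    simpa using h2.symm
  refine ⟨toIcoMod hL' 0 ((y : ℂ).arg * L / (2 * Real.pi)), by
    simpa using toIcoMod_mem_Ico hL' 0 ((y : ℂ).arg * L / (2 * Real.pi)), h1.trans ?_⟩
  rw [bp_eq_iff hL]
  refine ⟨-toIcoDiv hL' 0 ((y : ℂ).arg * L / (2 * Real.pi)), ?_⟩
  rw [toIcoMod, zsmul_eq_mul]
  push_cast
  ring

lemma continuous_pc : Continuous pc := by
  exact continuous_fst.prodMk ((AddCircle.continuous_mk' (1 : ℝ)).comp continuous_snd)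

lemma isOpenMap_pc : IsOpenMap pc := by
  exact IsOpenMap.prodMap (f := (id : Disc → Disc))
    (g := fun z : ℝ => (z : AddCircle (1 : ℝ))) IsOpenMap.id QuotientAddGroup.isOpenMap_coe

lemma pc_surj : Function.Surjective pc := by
  rintro ⟨y, z⟩
  obtain ⟨z, rfl⟩ := QuotientAddGroup.mk_surjective z
  exact ⟨(y, z), rfl⟩

lemma pc_eq_iff (a b : Cov) : pc a = pc b ↔ a.1 = b.1 ∧ ∃ k : ℤ, b.2 = a.2 + k := by
  unfold pc
  rw [Prod.ext_iff]
  refine and_congr Iff.rfl ?_
  change ((a.2 : ℝ) : AddCircle (1 : ℝ)) = (b.2 : AddCircle (1 : ℝ)) ↔ _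
  rw [QuotientAddGroup.eq, AddSubgroup.mem_zmultiples_iff]
  refine exists_congr fun k => ?_
  rw [zsmul_eq_mul, mul_one]
  constructor <;> intro h <;> linarith

lemma continuous_pm : Continuous (pm g S) := continuous_quot_mk

lemma pm_surj : Function.Surjective (pm g S) := Quot.mk_surjective

lemma continuous_pp : Continuous (pp g S) := continuous_pm.comp continuous_pc

lemma pp_surj : Function.Surjective (pp g S) := pm_surj.comp pc_surj

lemma continuous_ga (e : ℕ) : Continuous (fun p : ℝ × ℝ => ga g S e p.1 p.2) := by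
  unfold ga
  exact ((continuous_bp _).comp (by fun_prop)).prodMk continuous_snd

lemma continuous_gb (e : ℕ) : Continuous (fun p : ℝ × ℝ => gb g S e p.1 p.2) := by
  unfold gb
  exact ((continuous_bp _).comp (by fun_prop)).prodMk (by fun_prop)

lemma pp_per (y : Disc) (z : ℝ) (k : ℤ) : pp g S (y, z + k) = pp g S (y, z) := by
  unfold pp
  rw [(pc_eq_iff (y, z) (y, z + k)).2 ⟨rfl, k, rfl⟩]

lemma pp_glue {e : ℕ} (he : e < NE g S) {s : ℝ} (hs : s ∈ Icc (0 : ℝ) 1) (z : ℝ) :
    pp g S (gb g S e s z) = pp g S (ga g S e s z) := by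
  refine (Quot.sound ?_).symm
  exact (glue_iff _ _).2 ⟨e, he, s, hs, rfl, rfl, rfl⟩

lemma desc_solid {A : Type} (f : Solid → A)
    (h : ∀ e < NE g S, ∀ s ∈ Icc (0 : ℝ) 1, ∀ z, f (pc (gb g S e s z)) = f (pc (ga g S e s z))) :
    ∃ f' : Seifert g S → A, ∀ y, f' (pm g S y) = f y := by
  refine ⟨Quot.lift f ?_, fun _ => rfl⟩
  rintro ⟨x, z⟩ ⟨y, w⟩ hxy
  obtain ⟨e, he, s, hs, h1, h2, h3⟩ := (glue_iff _ _).1 hxy
  obtain ⟨z, rfl⟩ := QuotientAddGroup.mk_surjective z
  dsimp only at h1 h2 h3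
  subst h1 h2 h3
  exact (h e he s hs z).symm

lemma desc_pc {A : Type} (f : Cov → A) (h : ∀ y z, f (y, z + 1) = f (y, z)) :
    ∃ f' : Solid → A, ∀ y, f' (pc y) = f y := by
  have hk : ∀ (k : ℤ) y z, f (y, z + k) = f (y, z) := by
    intro k
    induction k using Int.induction_on with
    | zero => intro y z; simp
    | succ k ih =>
      intro y z
      rw [show z + (((k : ℤ) + 1 : ℤ) : ℝ) = (z + ((k : ℤ) : ℝ)) + 1 by push_cast; ring, h, ih]
    | pred k ih =>
      intro y z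
      rw [← h, show z + ((-(k : ℤ) - 1 : ℤ) : ℝ) + 1 = z + ((-(k : ℤ) : ℤ) : ℝ) by push_cast; ring,
        ih]
  refine ⟨fun x => f (Function.surjInv pc_surj x), fun y => ?_⟩
  obtain ⟨h1, k, h2⟩ := (pc_eq_iff _ _).1 (Function.surjInv_eq pc_surj (pc y)).symm
  have h3 : Function.surjInv pc_surj (pc y) = (y.1, y.2 + k) := Prod.ext h1.symm h2
  change f (Function.surjInv pc_surj (pc y)) = f y
  rw [h3, hk]

lemma desc_cov {A : Type} (f : Cov → A) (h1 : ∀ y z, f (y, z + 1) = f (y, z))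
    (h : ∀ e < NE g S, ∀ s ∈ Icc (0 : ℝ) 1, ∀ z, f (gb g S e s z) = f (ga g S e s z)) :
    ∃ f' : Seifert g S → A, ∀ y, f' (pp g S y) = f y := by
  obtain ⟨f1, hf1⟩ := desc_pc f h1
  obtain ⟨f2, hf2⟩ := desc_solid (g := g) (S := S) f1 (fun e he s hs z => by
    rw [hf1, hf1, h e he s hs z])
  exact ⟨f2, fun y => (hf2 _).trans (hf1 y)⟩

instance : CompactSpace (Seifert g S) := Quot.compactSpace

instance : ConnectedSpace Disc :=
  isConnected_iff_connectedSpace.1 ((convex_closedBall (0 : ℂ) 1).isConnected ⟨0, by simp⟩)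

instance : ConnectedSpace (Seifert g S) := pp_surj.connectedSpace continuous_pp

lemma isClosedMap_pm [T2Space (Seifert g S)] : IsClosedMap (pm g S) := continuous_pm.isClosedMap

/-- the circle action -/
lemma exists_flow [T2Space (Seifert g S)] : ∃ φ : Seifert g S → ℝ → Seifert g S,
    Continuous (Function.uncurry φ) ∧ ∀ y z r, φ (pp g S (y, z)) r = pp g S (y, z + r) := by
  obtain ⟨φ, hφ⟩ := desc_solid (g := g) (S := S)
    (fun (y : Solid) (r : ℝ) => pm g S (y.1, y.2 + (r : AddCircle (1 : ℝ)))) (fun e he s hs z => by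
      funext r
      have h1 := pp_glue (g := g) (S := S) he hs (z + r)
      refine Eq.trans ?_ (h1.trans rfl)
      unfold pp pc gb
      dsimp only
      rw [← AddCircle.coe_add, add_right_comm])
  refine ⟨φ, ?_, fun y z r => ?_⟩
  · have hq : IsQuotientMap (Prod.map (pm g S) (id : ℝ → ℝ)) :=
      IsClosedMap.isQuotientMap
        ((continuous_pm.isProperMap.prodMap isProperMap_id).isClosedMap)
        (continuous_pm.prodMap continuous_id) (pm_surj.prodMap Function.surjective_id)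
    rw [hq.continuous_iff]
    have h2 : Function.uncurry φ ∘ Prod.map (pm g S) (id : ℝ → ℝ) =
        fun p : Solid × ℝ => pm g S (p.1.1, p.1.2 + (p.2 : AddCircle (1 : ℝ))) := by
      funext p
      exact congrFun (hφ p.1) p.2
    rw [h2]
    exact continuous_pm.comp (continuous_fst.fst.prodMk
      (continuous_fst.snd.add ((AddCircle.continuous_mk' (1 : ℝ)).comp continuous_snd)))
  · exact congrFun (hφ (pc (y, z))) r

end Pool.Agent.P.MP_3d25f3_gt
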