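import Pool.Agent.P.MP_3d25f3_gt.ModD

set_option autoImplicit false

open Set Filter Topology

namespace Pool.Agent.P.MP_3d25f3_gt

variable {g : ℕ} {S : List (ℕ × ℤ)}

lemma moda_st_lo {k e : ℕ} (hk : k < g) (he : e < 2) : st g (2 * k + e) = 4 * k + e := by
  unfold st; split_ifs <;> omega

lemma moda_wd_lo {k e : ℕ} (hk : k < g) (he : e < 2) : wd g (2 * k + e) = 3 := by
  unfold wd; split_ifs <;> omega

lemma moda_pr_lo {k e : ℕ} (hk : k < g) (he : e < 2) : pr g S (2 * k + e) = (1, 0) := by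
  unfold pr; rw [if_pos (by omega)]

lemma moda_st_hi (i : ℕ) : st g (2 * g + i) = 4 * g + 2 * i := by
  unfold st; split_ifs <;> omega

lemma moda_wd_hi (i : ℕ) : wd g (2 * g + i) = 2 := by
  unfold wd; split_ifs <;> omega

lemma moda_pr_hi (i : ℕ) : pr g S (2 * g + i) = S.getD i (1, 0) := by
  unfold pr; rw [if_neg (by omega), Nat.add_sub_cancel_left]

lemma moda_bp_iff (x : Disc) (L : ℕ) (r : ℝ) : x = bp L r ↔ (x : ℂ) = bd L r :=
  Subtype.ext_iff

lemma moda_lo (x y : Solid) (s : ℝ) {k e : ℕ} (hk : k < g) (he : e < 2) :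
    (x.1 = bp (LL g S) (st g (2 * k + e) + s) ∧
      y.1 = bp (LL g S) (st g (2 * k + e) + wd g (2 * k + e) - s) ∧
      y.2 = x.2 + ((s * sh g S (2 * k + e) : ℝ) : AddCircle (1 : ℝ))) ↔
    ((x.1 : ℂ) = bd (4 * g + 2 * (S.length + 1)) (4 * k + e + s) ∧
      (y.1 : ℂ) = bd (4 * g + 2 * (S.length + 1)) (4 * k + e + 3 - s) ∧ y.2 = x.2) := by
  rw [moda_bp_iff, moda_bp_iff, moda_st_lo hk he, moda_wd_lo hk he, sh, moda_pr_lo hk he, LL]
  simp only [Nat.cast_add, Nat.cast_mul, Nat.cast_ofNat, Int.cast_zero, zero_div, mul_zero,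
    QuotientAddGroup.mk_zero, add_zero]

lemma moda_hi (x y : Solid) (s : ℝ) (i : ℕ) :
    (x.1 = bp (LL g S) (st g (2 * g + i) + s) ∧
      y.1 = bp (LL g S) (st g (2 * g + i) + wd g (2 * g + i) - s) ∧
      y.2 = x.2 + ((s * sh g S (2 * g + i) : ℝ) : AddCircle (1 : ℝ))) ↔
    ((x.1 : ℂ) = bd (4 * g + 2 * (S.length + 1)) (4 * g + 2 * i + s) ∧
      (y.1 : ℂ) = bd (4 * g + 2 * (S.length + 1)) (4 * g + 2 * i + 2 - s) ∧
      y.2 = x.2 + ((s * (S.getD i (1, 0)).2 / (S.getD i (1, 0)).1 : ℝ) : AddCircle (1 : ℝ))) := by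
  rw [moda_bp_iff, moda_bp_iff, moda_st_hi, moda_wd_hi, sh, moda_pr_hi, LL, mul_div_assoc]
  simp only [Nat.cast_add, Nat.cast_mul, Nat.cast_ofNat]

lemma glue_iff (x y : Solid) : Glue g S x y ↔ ∃ e < NE g S, ∃ s ∈ Icc (0 : ℝ) 1,
    x.1 = bp (LL g S) (st g e + s) ∧ y.1 = bp (LL g S) (st g e + wd g e - s) ∧
      y.2 = x.2 + ((s * sh g S e : ℝ) : AddCircle (1 : ℝ)) := by
  constructor
  · rintro ⟨s, hs, ⟨k, hk, e, he, h⟩ | ⟨i, hi, h⟩⟩
    · exact ⟨2 * k + e, by unfold NE; omega, s, hs, (moda_lo x y s hk he).2 h⟩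
    · exact ⟨2 * g + i, by unfold NE; omega, s, hs, (moda_hi x y s i).2 h⟩
  · rintro ⟨e, he, s, hs, h⟩
    refine ⟨s, hs, ?_⟩
    by_cases h2 : e < 2 * g
    · obtain ⟨k, e', he', rfl⟩ : ∃ k e', e' < 2 ∧ e = 2 * k + e' :=
        ⟨e / 2, e % 2, by omega, by omega⟩
      have hk : k < g := by omega
      exact Or.inl ⟨k, hk, e', he', (moda_lo x y s hk he').1 h⟩
    · obtain ⟨i, rfl⟩ : ∃ i, e = 2 * g + i := ⟨e - 2 * g, by omega⟩
      exact Or.inr ⟨i, by unfold NE at he; omega, (moda_hi x y s i).1 h⟩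

lemma st_le {e : ℕ} (he : e < NE g S) : st g e + wd g e ≤ LL g S := by
  unfold NE at he
  unfold st wd LL
  split_ifs <;> omega

lemma wd_ge (e : ℕ) : 2 ≤ wd g e := by
  unfold wd; split_ifs <;> omega

lemma st_inj {e e' : ℕ} (h : st g e = st g e') : e = e' := by
  unfold st at h
  split_ifs at h <;> omega

lemma st_inj' {e e' : ℕ} (h : st g e + wd g e = st g e' + wd g e') : e = e' := by
  unfold st wd at h
  split_ifs at h <;> omega

lemma st_ne (e e' : ℕ) : st g e + 1 ≠ st g e' + wd g e' := by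
  unfold st wd
  split_ifs <;> omega

lemma st_surj {j : ℕ} (hj : j < LL g S) :
    ∃ e < NE g S, j = st g e ∨ j + 1 = st g e + wd g e := by
  unfold LL at hj
  by_cases h : j < 4 * g
  · refine ⟨2 * (j / 4) + j % 2, by unfold NE; omega, ?_⟩
    rw [moda_st_lo (by omega) (by omega), moda_wd_lo (by omega) (by omega)]
    omega
  · refine ⟨2 * g + (j - 4 * g) / 2, by unfold NE; omega, ?_⟩
    rw [moda_st_hi, moda_wd_hi]
    omega

lemma moda_sum_two {A : Type} [AddCommMonoid A] (f : ℕ → A) (n : ℕ) :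
    ∑ e ∈ Finset.range (2 * n), f e = ∑ k ∈ Finset.range n, (f (2 * k) + f (2 * k + 1)) := by
  induction n with
  | zero => simp
  | succ n ih =>
    rw [show 2 * (n + 1) = 2 * n + 1 + 1 by ring, Finset.sum_range_succ, Finset.sum_range_succ,
      Finset.sum_range_succ, ih, add_assoc]

lemma moda_sum_arcs {A : Type} [AddCommMonoid A] (f : ℕ → A) :
    ∑ e ∈ Finset.range (NE g S), f e = ∑ k ∈ Finset.range g, (f (2 * k) + f (2 * k + 1))
      + ∑ i ∈ Finset.range (S.length + 1), f (2 * g + i) := by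
  rw [NE, Finset.sum_range_add, moda_sum_two]

/-- the arcs go once around the circle -/
lemma tel {A : Type} [AddCommGroup A] (f : ℕ → A) :
    ∑ e ∈ Finset.range (NE g S),
      (f (st g e + 1) - f (st g e) + (f (st g e + wd g e) - f (st g e + wd g e - 1)))
      = f (LL g S) - f 0 := by
  rw [moda_sum_arcs]
  have h1 : ∀ k ∈ Finset.range g,
      (f (st g (2 * k) + 1) - f (st g (2 * k)) + (f (st g (2 * k) + wd g (2 * k))
        - f (st g (2 * k) + wd g (2 * k) - 1))) +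
      (f (st g (2 * k + 1) + 1) - f (st g (2 * k + 1)) + (f (st g (2 * k + 1) + wd g (2 * k + 1))
        - f (st g (2 * k + 1) + wd g (2 * k + 1) - 1))) = f (4 * (k + 1)) - f (4 * k) := by
    intro k hk
    have hk' := Finset.mem_range.1 hk
    have a1 : st g (2 * k) = 4 * k := moda_st_lo (e := 0) hk' (by omega)
    have a2 : wd g (2 * k) = 3 := moda_wd_lo (e := 0) hk' (by omega)
    rw [a1, a2, moda_st_lo hk' (by omega), moda_wd_lo hk' (by omega),
      show 4 * k + 3 - 1 = 4 * k + 1 + 1 by omega, show 4 * k + 1 + 3 - 1 = 4 * k + 3 by omega,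
      show 4 * k + 1 + 3 = 4 * (k + 1) by omega]
    abel
  have h2 : ∀ i ∈ Finset.range (S.length + 1),
      f (st g (2 * g + i) + 1) - f (st g (2 * g + i)) + (f (st g (2 * g + i) + wd g (2 * g + i))
        - f (st g (2 * g + i) + wd g (2 * g + i) - 1))
      = f (4 * g + 2 * (i + 1)) - f (4 * g + 2 * i) := by
    intro i _
    rw [moda_st_hi, moda_wd_hi, show 4 * g + 2 * i + 2 - 1 = 4 * g + 2 * i + 1 by omega,
      show 4 * g + 2 * i + 2 = 4 * g + 2 * (i + 1) by omega]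
    abel
  rw [Finset.sum_congr rfl h1, Finset.sum_congr rfl h2,
    Finset.sum_range_sub (fun k => f (4 * k)), Finset.sum_range_sub (fun i => f (4 * g + 2 * i)),
    LL]
  simp only [mul_zero, add_zero]
  abel

lemma sum_arcs {A : Type} [AddCommMonoid A] (f : ℕ → A) :
    ∑ e ∈ Finset.range (NE g S), f e = ∑ k ∈ Finset.range g, (f (2 * k) + f (2 * k + 1))
      + ∑ i ∈ Finset.range (S.length + 1), f (2 * g + i) := moda_sum_arcs f

lemma moda_sum_getD {A : Type} [AddCommMonoid A] (f : ℕ × ℤ → A) (T : List (ℕ × ℤ)) :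
    ∑ i ∈ Finset.range (T.length + 1), f (T.getD i (1, 0)) = (T.map f).sum + f (1, 0) := by
  induction T with
  | nil => simp
  | cons a T ih =>
    rw [List.length_cons, Finset.sum_range_succ']
    simp only [List.getD_cons_succ, List.getD_cons_zero, List.map_cons, List.sum_cons]
    rw [ih]
    abel

lemma sum_getD {A : Type} [AddCommMonoid A] (f : ℕ × ℤ → A) :
    ∑ i ∈ Finset.range (S.length + 1), f (pr g S (2 * g + i)) = (S.map f).sum + f (1, 0) := by
  simp only [moda_pr_hi]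
  exact moda_sum_getD f S

lemma pr_data (h : Data S) (e : ℕ) : 1 ≤ (pr g S e).1 ∧ Int.gcd (pr g S e).1 (pr g S e).2 = 1 := by
  unfold pr
  split_ifs
  · simp
  · by_cases h2 : e - 2 * g < S.length
    · rw [List.getD_eq_getElem _ _ h2]
      exact h.1 _ (List.getElem_mem h2)
    · rw [List.getD_eq_default _ _ (not_lt.1 h2)]
      simp

end Pool.Agent.P.MP_3d25f3_gt
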