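import Pool.Agent.P.MP_3d25f3_gt.Bas

set_option autoImplicit false

open Set Filter Topology

namespace Pool.Agent.P.MP_3d25f3_gt

/-- number of unit arcs -/
def LL (g : ℕ) (S : List (ℕ × ℤ)) : ℕ := 4 * g + 2 * (S.length + 1)

instance (g : ℕ) (S : List (ℕ × ℤ)) : NeZero (LL g S) := ⟨by unfold LL; omega⟩

/-- number of glued pairs of arcs -/
def NE (g : ℕ) (S : List (ℕ × ℤ)) : ℕ := 2 * g + (S.length + 1)

def st (g e : ℕ) : ℕ := if e < 2 * g then 4 * (e / 2) + e % 2 else 4 * g + 2 * (e - 2 * g)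

def wd (g e : ℕ) : ℕ := if e < 2 * g then 3 else 2

def pr (g : ℕ) (S : List (ℕ × ℤ)) (e : ℕ) : ℕ × ℤ :=
  if e < 2 * g then (1, 0) else S.getD (e - 2 * g) (1, 0)

noncomputable def sh (g : ℕ) (S : List (ℕ × ℤ)) (e : ℕ) : ℝ := (pr g S e).2 / (pr g S e).1

abbrev Disc : Type := Metric.closedBall (0 : ℂ) 1

abbrev Cov : Type := Disc × ℝ

lemma norm_bd (L : ℕ) (x : ℝ) : ‖bd L x‖ = 1 := by
  rw [bd, show (2 * Real.pi * Complex.I * x / L : ℂ) = ((2 * Real.pi * x / L : ℝ) : ℂ) * Complex.I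
    by push_cast; ring]
  exact Complex.norm_exp_ofReal_mul_I _

noncomputable def bp (L : ℕ) (x : ℝ) : Disc := ⟨bd L x, by simp [norm_bd]⟩

def pc (y : Cov) : Solid := (y.1, (y.2 : AddCircle (1 : ℝ)))

def pm (g : ℕ) (S : List (ℕ × ℤ)) : Solid → Seifert g S := Quot.mk _

def pp (g : ℕ) (S : List (ℕ × ℤ)) (y : Cov) : Seifert g S := pm g S (pc y)

noncomputable def ga (g : ℕ) (S : List (ℕ × ℤ)) (e : ℕ) (s z : ℝ) : Cov :=
  (bp (LL g S) (st g e + s), z)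

noncomputable def gb (g : ℕ) (S : List (ℕ × ℤ)) (e : ℕ) (s z : ℝ) : Cov :=
  (bp (LL g S) (st g e + wd g e - s), z + s * sh g S e)

/-- primitive and periods of an integer cocycle -/
structure Per (g : ℕ) (S : List (ℕ × ℤ)) (n : Seifert g S → Seifert g S → ℤ) (A : Cov → ℤ) (N : ℤ)
    (ne : ℕ → ℤ) : Prop where
  prim : ∀ y, ∃ U ∈ 𝓝 y, ∀ a ∈ U, ∀ b ∈ U, n (pp g S a) (pp g S b) = A b - A a
  per : ∀ y z, A (y, z + 1) = A (y, z) + N
  arc : ∀ e < NE g S, ∀ s ∈ Icc (0 : ℝ) 1, ∀ z, A (gb g S e s z) = A (ga g S e s z) + ne e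

/-- primitive of a twisted cocycle -/
def Prim (g : ℕ) (S : List (ℕ × ℤ)) {R : Type} [CommRing R] (t : Rˣ) (A : Cov → ℤ)
    (v : List (Seifert g S) → R) (E : Cov → R) : Prop :=
  ∀ y, ∃ U ∈ 𝓝 y, ∀ a ∈ U, ∀ b ∈ U, ((t ^ A a : Rˣ) : R) * v [pp g S a, pp g S b] = E b - E a

/-- jump of vertex data across an arc -/
def vv (g : ℕ) {L : ℕ} (ρ : ℕ → ℂ) (x : ZMod L → ℂ) (e : ℕ) : ℂ :=
  x ((st g e + wd g e : ℕ) : ZMod L) - ρ e * x ((st g e : ℕ) : ZMod L)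

/-- vertex data -/
def Pol (g : ℕ) (S : List (ℕ × ℤ)) (ρ : ℕ → ℂ) : Submodule ℂ (ZMod (LL g S) → ℂ) where
  carrier := {x | ∀ e < NE g S,
    vv g ρ x e = x ((st g e + wd g e - 1 : ℕ) : ZMod _) - ρ e * x ((st g e + 1 : ℕ) : ZMod _)}
  zero_mem' := fun _ _ => by simp [vv]
  add_mem' := fun {a b} ha hb e he => by
    have h1 := ha e he
    have h2 := hb e he
    simp only [vv, Pi.add_apply] at *
    linear_combination h1 + h2
  smul_mem' := fun r a ha e he => by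
    have h1 := ha e he
    simp only [vv, Pi.smul_apply, smul_eq_mul] at *
    linear_combination r * h1

/-- `v` is a cocycle with vertex data `x` -/
structure IsRep (g : ℕ) (S : List (ℕ × ℤ)) (ω : ℂˣ) (A : Cov → ℤ) (ne : ℕ → ℤ)
    (x : ZMod (LL g S) → ℂ) (v : List (Seifert g S) → ℂ) (E : Disc → ℂ) : Prop where
  prim : Prim g S ω A v (fun y => E y.1)
  vert : ∀ j : ℕ, E (bp (LL g S) j) = x j
  arc : ∀ e < NE g S, ∀ s ∈ Icc (0 : ℝ) 1, E (bp (LL g S) (st g e + wd g e - s))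
    = ((ω ^ ne e : ℂˣ) : ℂ) * E (bp (LL g S) (st g e + s)) + vv g (fun e => ((ω ^ ne e : ℂˣ) : ℂ)) x e

end Pool.Agent.P.MP_3d25f3_gt
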