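import Pool.Agent.P.MP_3d25f3_gt.LVal
import Pool.Agent.P.MP_3d25f3_gt.NtA

set_option autoImplicit false

open Set Filter Topology

namespace Pool.Agent.P.MP_3d25f3_gt

/-- the embedding of `ZMod d` as the multiples of `c` -/
def ntb_io (n c : ℕ) {d : ℕ} (y : ZMod d) : ZMod n := ((c * y.val : ℕ) : ZMod n)

lemma ntb_io_nat {n c d : ℕ} (h : n = c * d) (a : ℕ) :
    ntb_io n c (a : ZMod d) = ((c * a : ℕ) : ZMod n) := by
  subst h
  unfold ntb_io
  rw [ZMod.val_natCast, ZMod.natCast_eq_natCast_iff]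
  exact (Nat.mod_modEq a d).mul_left' c

lemma ntb_io_val {n c d : ℕ} [NeZero n] [NeZero d] (h : n = c * d) (y : ZMod d) :
    (ntb_io n c y).val = c * y.val := by
  have hc : 0 < c := Nat.pos_of_ne_zero fun h0 => NeZero.ne n (by simp [h, h0])
  exact ZMod.val_cast_of_lt (h ▸ Nat.mul_lt_mul_of_pos_left (ZMod.val_lt y) hc)

lemma ntb_io_inj {n c d : ℕ} [NeZero n] [NeZero d] (h : n = c * d) :
    Function.Injective (ntb_io n c : ZMod d → ZMod n) := by
  have hc : 0 < c := Nat.pos_of_ne_zero fun h0 => NeZero.ne n (by simp [h, h0])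
  intro y y' hy
  have := congrArg ZMod.val hy
  rw [ntb_io_val h, ntb_io_val h] at this
  exact ZMod.val_injective d (Nat.eq_of_mul_eq_mul_left hc this)

lemma ntb_io_mul {n c d : ℕ} [NeZero n] [NeZero d] (h : n = c * d) (hd : d ∣ n) (k : ZMod n)
    (y : ZMod d) : ntb_io n c (ZMod.castHom hd (ZMod d) k * y) = k * ntb_io n c y := by
  obtain ⟨a, rfl⟩ := ZMod.natCast_zmod_surjective k
  obtain ⟨b, rfl⟩ := ZMod.natCast_zmod_surjective y
  rw [map_natCast, ← Nat.cast_mul, ntb_io_nat h, ntb_io_nat h]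
  push_cast
  ring

lemma ntb_bern {n c d : ℕ} [NeZero n] [NeZero d] (h : n = c * d) (y : ZMod d) :
    LV.bern (ntb_io n c y) = c * LV.bern y := by
  have h0 : ntb_io n c (0 : ZMod d) = 0 := by simp [ntb_io]
  unfold LV.bern
  by_cases hy : y = 0
  · simp [hy, h0]
  · rw [if_neg hy, if_neg fun h1 => hy (ntb_io_inj h (h1.trans h0.symm)), ntb_io_val h, h]
    push_cast
    ring

lemma ntb_fib {n d : ℕ} [NeZero n] [NeZero d] (hd : d ∣ n) : ∃ N : ℂ, N ≠ 0 ∧
    ∀ F : ZMod d → ℂ, ∑ k : ZMod n, F (ZMod.castHom hd (ZMod d) k) = N * ∑ j, F j := by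
  have hs := ZMod.castHom_surjective hd
  refine ⟨((Finset.univ.filter fun k : ZMod n => ZMod.castHom hd (ZMod d) k = 0).card : ℂ), ?_,
    fun F => ?_⟩
  · rw [Nat.cast_ne_zero, Finset.card_ne_zero]
    exact ⟨0, Finset.mem_filter.2 ⟨Finset.mem_univ _, map_zero _⟩⟩
  · rw [← Finset.sum_fiberwise (s := Finset.univ) (g := ZMod.castHom hd (ZMod d)), Finset.mul_sum]
    refine Finset.sum_congr rfl fun j _ => ?_
    rw [← AddMonoidHom.card_fiber_eq_of_mem_range (ZMod.castHom hd (ZMod d)) (hs j) (hs 0),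
      ← nsmul_eq_mul, ← Finset.sum_const]
    exact Finset.sum_congr rfl fun k hk => by rw [(Finset.mem_filter.1 hk).2]

lemma ntb_kill {n d e : ℕ} [NeZero n] [NeZero d] (hd : d ∣ n) (he : ¬ d ∣ e)
    (χ : DirichletCharacter ℂ d) {Φ : ZMod d → ℂ} (hΦ : ZMod.dft Φ = χ) (B : ZMod n → ℂ)
    (hB : ∀ k, B (k + e) = B k) : ∑ k : ZMod n, Φ (ZMod.castHom hd (ZMod d) k) * B k = 0 := by
  have h1 : Φ = ZMod.dft.symm χ := by rw [← hΦ, LinearEquiv.symm_apply_apply]
  have h2 : ∀ u : ZMod d, ∑ k : ZMod n,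
      ZMod.stdAddChar (u * ZMod.castHom hd (ZMod d) k) * χ u * B k = 0 := by
    intro u
    by_cases hu : IsUnit u
    · have h3 : ∑ k : ZMod n, ZMod.stdAddChar (u * ZMod.castHom hd (ZMod d) k) * χ u * B k =
          ZMod.stdAddChar (u * (e : ZMod d)) * ∑ k : ZMod n,
            ZMod.stdAddChar (u * ZMod.castHom hd (ZMod d) k) * χ u * B k := by
        rw [Finset.mul_sum, ← Equiv.sum_comp (Equiv.addRight (e : ZMod n))]
        refine Finset.sum_congr rfl fun k _ => ?_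
        rw [Equiv.coe_addRight, hB, map_add, map_natCast, mul_add, AddChar.map_add_eq_mul]
        ring
      have h4 : ZMod.stdAddChar (u * (e : ZMod d)) ≠ 1 := fun h4 => by
        rw [← (ZMod.stdAddChar (N := d)).map_zero_eq_one, ZMod.injective_stdAddChar.eq_iff,
          hu.mul_right_eq_zero, ZMod.natCast_eq_zero_iff] at h4
        exact he h4
      have h5 := sub_eq_zero.2 h3
      rw [← one_sub_mul] at h5
      exact (mul_eq_zero.1 h5).resolve_left (sub_ne_zero.2 h4.symm)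
    · simp [χ.map_nonunit hu]
  simp only [h1, ZMod.invDFT_apply, smul_eq_mul, mul_assoc, ← Finset.mul_sum, Finset.sum_mul]
  rw [Finset.sum_comm]
  simp only [← mul_assoc, h2, Finset.sum_const_zero, mul_zero]

lemma ntb_level {n : ℕ} [NeZero n] (x : ZMod n) : ∃ c d, n = c * d ∧
    ∃ b : (ZMod d)ˣ, x = ntb_io n c b.val := by
  have hg : 0 < Nat.gcd x.val n := Nat.gcd_pos_of_pos_right _ (NeZero.pos n)
  have h : n = Nat.gcd x.val n * (n / Nat.gcd x.val n) :=
    (Nat.mul_div_cancel' (Nat.gcd_dvd_right _ _)).symm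
  refine ⟨_, _, h, ZMod.unitOfCoprime _ (Nat.coprime_div_gcd_div_gcd hg), ?_⟩
  rw [ZMod.coe_unitOfCoprime, ntb_io_nat h, Nat.mul_div_cancel' (Nat.gcd_dvd_left _ _),
    ZMod.natCast_zmod_val]

/-- independence of the sawtooth values -/
theorem odd_zero {n : ℕ} [NeZero n] (f : ZMod n → ℂ) (hf : ∀ x, f (-x) = -f x)
    (h : ∀ k : ZMod n, ∑ x, f x * (LV.bern (k * x) : ℂ) = 0) :
    f = 0 := by
  suffices H : ∀ c d, n = c * d → ∀ b : (ZMod d)ˣ, f (ntb_io n c b.val) = 0 by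
    funext x
    obtain ⟨c, d, hn, b, rfl⟩ := ntb_level x
    exact H c d hn b
  intro c
  induction c using Nat.strong_induction_on with
  | _ c ih =>
  intro d hn a
  have : NeZero d := ⟨fun h0 => NeZero.ne n (by simp [hn, h0])⟩
  have hc : c ≠ 0 := fun h0 => NeZero.ne n (by simp [hn, h0])
  have hd : d ∣ n := ⟨c, by rw [hn, mul_comm]⟩
  have key : ∀ χ : DirichletCharacter ℂ d,
      ∑ b : (ZMod d)ˣ, χ b * f (ntb_io n c b.val) = 0 := by
    intro χ
    rcases χ.even_or_odd with hχ | hχ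
    · have h1 : ∑ b : (ZMod d)ˣ, χ b * f (ntb_io n c b.val) =
          -∑ b : (ZMod d)ˣ, χ b * f (ntb_io n c b.val) := by
        rw [← Finset.sum_neg_distrib, ← Equiv.sum_comp (Equiv.neg _)]
        refine Finset.sum_congr rfl fun b _ => ?_
        have h2 := ntb_io_mul hn hd (-1) b.val
        rw [map_neg, map_one, neg_one_mul, neg_one_mul] at h2
        rw [Equiv.neg_apply, Units.val_neg, hχ.eval_neg, h2, hf]
        ring
      linear_combination (1 / 2 : ℂ) * h1
    obtain ⟨Φ, h1, h2, h3⟩ := LV.exists_phi χ hχ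
    obtain ⟨N, hN, hF⟩ := ntb_fib hd
    have h4 : ∑ x, f x * ∑ k : ZMod n, Φ (ZMod.castHom hd (ZMod d) k) * LV.bern (k * x) = 0 := by
      simp only [Finset.mul_sum]
      rw [Finset.sum_comm]
      refine Finset.sum_eq_zero fun k _ => ?_
      have := congrArg (Φ (ZMod.castHom hd (ZMod d) k) * ·) (h k)
      simp only [Finset.mul_sum, mul_zero] at this
      rw [← this]
      exact Finset.sum_congr rfl fun x _ => by ring
    rw [← Fintype.sum_of_injective (fun b : (ZMod d)ˣ => ntb_io n c b.val)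
      ((ntb_io_inj hn).comp Units.val_injective)
      (fun b => (c * N * ∑ x, Φ x * LV.bern x) * (χ b * f (ntb_io n c b.val))), ← Finset.mul_sum] at h4
    · exact (mul_eq_zero.1 h4).resolve_left
        (mul_ne_zero (mul_ne_zero (Nat.cast_ne_zero.2 hc) hN) h3)
    · intro x hx
      obtain ⟨c', d', hn', b, rfl⟩ := ntb_level x
      rcases lt_trichotomy c' c with hl | rfl | hl
      · rw [ih c' hl d' hn' b, zero_mul]
      · obtain rfl : d = d' := Nat.eq_of_mul_eq_mul_left (Nat.pos_of_ne_zero hc) (hn.symm.trans hn')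
        exact absurd ⟨b, rfl⟩ hx
      · have hd' : 0 < d' := Nat.pos_of_ne_zero fun h0 => NeZero.ne n (by simp [hn', h0])
        have hlt : d' < d := by
          by_contra hh
          have := Nat.mul_lt_mul_of_lt_of_le hl (not_lt.1 hh) hd'
          omega
        rw [ntb_kill hd (Nat.not_dvd_of_pos_of_lt hd' hlt) χ h1, mul_zero]
        intro k
        have h5 : (d' : ZMod n) * ntb_io n c' b.val = 0 := by
          unfold ntb_io
          rw [← Nat.cast_mul, ZMod.natCast_eq_zero_iff]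
          exact ⟨b.val.val, by rw [hn']; ring⟩
        rw [add_mul, h5, add_zero]
    · intro b
      have h5 := hF fun j => Φ j * LV.bern (j * b.val)
      have h6 : ∑ j, Φ j * LV.bern (j * b.val) = χ b * ∑ x, Φ x * LV.bern x := by
        rw [Finset.mul_sum, ← Equiv.sum_comp (Units.mulLeft b⁻¹)]
        refine Finset.sum_congr rfl fun j _ => ?_
        rw [Units.mulLeft_apply, h2, mul_right_comm b⁻¹.val, Units.inv_mul, one_mul, mul_assoc]
      have h7 : ∀ k : ZMod n, Φ (ZMod.castHom hd (ZMod d) k) * LV.bern (k * ntb_io n c b.val) =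
          c * (Φ (ZMod.castHom hd (ZMod d) k) *
            LV.bern (ZMod.castHom hd (ZMod d) k * b.val)) := fun k => by
        rw [← ntb_io_mul hn hd, ntb_bern hn]
        push_cast
        ring
      simp only [h7, ← Finset.mul_sum, h5, h6]
      ring
  have h1 : ∑ χ : DirichletCharacter ℂ d, χ a.val⁻¹ *
      ∑ b : (ZMod d)ˣ, χ b * f (ntb_io n c b.val) = 0 := by simp [key]
  simp only [Finset.mul_sum, ← mul_assoc] at h1
  rw [Finset.sum_comm] at h1
  simp only [← Finset.sum_mul, DirichletCharacter.sum_char_inv_mul_char_eq ℂ a.isUnit,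
    Units.val_inj, ite_mul, zero_mul, Finset.sum_ite_eq, Finset.mem_univ, if_true] at h1
  exact (mul_eq_zero.1 h1).resolve_left
    (Nat.cast_ne_zero.2 (Nat.totient_pos.2 (NeZero.pos d)).ne')

/-- the data are symmetric -/
def Symm (S : List (ℕ × ℤ)) : Prop :=
  ∀ (a : ℕ) (b : ℤ), S.countP (fun q => q.1 = a ∧ q.2 ≡ b [ZMOD a])
    = S.countP (fun q => q.1 = a ∧ q.2 ≡ -b [ZMOD a])

lemma ntb_saw {n : ℕ} [NeZero n] (z : ℤ) :
    (LV.bern (z : ZMod n) : ℚ) = 2 * n * saw (z / n) := by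
  have hn : (n : ℚ) ≠ 0 := Nat.cast_ne_zero.2 (NeZero.ne n)
  unfold LV.bern saw
  rw [Int.fract_div_intCast_eq_div_intCast_mod, ZMod.val_intCast]
  by_cases hz : (n : ℤ) ∣ z
  · simp [(ZMod.intCast_zmod_eq_zero_iff_dvd z n).2 hz, Int.emod_eq_zero_of_dvd hz]
  · rw [if_neg (mt (ZMod.intCast_zmod_eq_zero_iff_dvd z n).1 hz), if_neg (div_ne_zero
      (Int.cast_ne_zero.2 (mt Int.dvd_of_emod_eq_zero hz)) hn)]
    push_cast
    field_simp

lemma ntb_count {n : ℕ} [NeZero n] (X : ℕ × ℤ → ZMod n) (F : ZMod n → ℚ) (L : List (ℕ × ℤ)) :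
    ∑ x, (L.countP (fun q => X q = x) : ℚ) * F x = (L.map fun q => F (X q)).sum := by
  induction L with
  | nil => simp
  | cons q L ih => simp [List.countP_cons, add_mul, Finset.sum_add_distrib, ih, add_comm]

lemma ntb_iff {n a a' : ℕ} {b b' : ℤ} (hn : n ≠ 0) (ha : a ∣ n) (ha' : a' ∣ n)
    (h : Int.gcd a b = 1) (h' : Int.gcd a' b' = 1) :
    (a' = a ∧ b' ≡ b [ZMOD a]) ↔
      ((((n / a' : ℕ) : ℤ) * b' : ℤ) : ZMod n) = ((((n / a : ℕ) : ℤ) * b : ℤ) : ZMod n) := by
  have aux : ∀ {a a' : ℕ} {b b' : ℤ}, a ∣ n → a' ∣ n → Int.gcd a b = 1 →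
      (n : ℤ) ∣ ((n / a : ℕ) : ℤ) * b - ((n / a' : ℕ) : ℤ) * b' → a ∣ a' := by
    intro a a' b b' ha ha' h ⟨t, ht⟩
    have e1 : (n : ℤ) = a * ((n / a : ℕ) : ℤ) := by exact_mod_cast (Nat.mul_div_cancel' ha).symm
    have e2 : (n : ℤ) = a' * ((n / a' : ℕ) : ℤ) := by exact_mod_cast (Nat.mul_div_cancel' ha').symm
    have h1 : (n : ℤ) * (a' * b) = n * (a * (b' + a' * t)) := by
      linear_combination (a * a') * ht + (a' * b) * e1 - (a * b') * e2
    have h2 := mul_left_cancel₀ (Int.natCast_ne_zero.2 hn) h1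
    exact Int.natCast_dvd_natCast.1 (Int.dvd_of_dvd_mul_left_of_gcd_one ⟨_, h2⟩ h)
  rw [ZMod.intCast_eq_intCast_iff_dvd_sub]
  have e1 : (n : ℤ) = ((n / a : ℕ) : ℤ) * a := by exact_mod_cast (Nat.div_mul_cancel ha).symm
  constructor
  · rintro ⟨rfl, h1⟩
    rw [← mul_sub]
    exact e1 ▸ mul_dvd_mul_left _ h1.dvd
  · intro h1
    obtain rfl : a' = a := Nat.dvd_antisymm (aux ha' ha h' (dvd_sub_comm.1 h1)) (aux ha ha' h h1)
    refine ⟨rfl, Int.modEq_iff_dvd.2 ?_⟩
    rw [← mul_sub] at h1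
    refine (mul_dvd_mul_iff_left (a := ((n / a' : ℕ) : ℤ)) fun h0 => hn ?_).1 (e1 ▸ h1)
    rw [h0, zero_mul] at e1
    exact_mod_cast e1

theorem symm_of_jmp {S : List (ℕ × ℤ)} (hS : Data S) (h : ∀ k, jmp S k = 0) : Symm S := by
  intro a b
  obtain ⟨n, hn, hd⟩ : ∃ n : ℕ, n ≠ 0 ∧ ∀ q ∈ S, q.1 ∣ n := by
    refine ⟨(S.map Prod.fst).prod, List.prod_ne_zero fun h0 => ?_,
      fun q hq => List.dvd_prod (List.mem_map_of_mem hq)⟩
    obtain ⟨q, hq, h1⟩ := List.mem_map.1 h0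
    have := (hS.1 q hq).1
    omega
  have : NeZero n := ⟨hn⟩
  set X : ℕ × ℤ → ZMod n := fun q => ((((n / q.1 : ℕ) : ℤ) * q.2 : ℤ) : ZMod n) with hX
  have h1 : ∀ k : ZMod n, ∑ x, (S.countP (fun q => X q = x) : ℚ) * LV.bern (k * x) = 0 := by
    intro k
    obtain ⟨k, rfl⟩ := ZMod.intCast_surjective k
    rw [ntb_count X (fun x => LV.bern ((k : ZMod n) * x)), ← mul_zero (n : ℚ), ← h k, jmp, ← mul_assoc,
      ← List.sum_map_mul_left]
    refine congrArg _ (List.map_congr_left fun q hq => ?_)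
    have e1 : (n : ℚ) = q.1 * ((n / q.1 : ℕ) : ℚ) := by
      exact_mod_cast (Nat.mul_div_cancel' (hd q hq)).symm
    have e2 : (q.1 : ℚ) ≠ 0 := Nat.cast_ne_zero.2 (by have := (hS.1 q hq).1; omega)
    have e3 : (n : ℚ) ≠ 0 := Nat.cast_ne_zero.2 hn
    rw [hX, ← Int.cast_mul, ntb_saw, mul_comm (2 : ℚ)]
    refine congrArg _ (congrArg _ ?_)
    rw [div_eq_div_iff e3 e2, Int.cast_mul, Int.cast_mul, Int.cast_natCast]
    linear_combination (-k * q.2) * e1
  have h2 := odd_zero (n := n) (fun x => (((S.countP (fun q => X q = x) : ℚ) -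
      (S.countP (fun q => X q = -x) : ℚ) : ℚ) : ℂ)) (fun x => by simp) fun k => by
    have h3 := h1 (-k)
    rw [← Equiv.sum_comp (Equiv.neg _)] at h3
    simp only [Equiv.neg_apply, neg_mul_neg] at h3
    have h4 := congrArg ((↑) : ℚ → ℂ) (sub_eq_zero.2 ((h1 k).trans h3.symm))
    rw [← Finset.sum_sub_distrib] at h4
    push_cast at h4 ⊢
    simpa only [sub_mul] using h4
  by_cases hab : a ∣ n ∧ Int.gcd a b = 1
  · have h3 := congrFun h2 (X (a, b))
    simp only [Pi.zero_apply, Rat.cast_eq_zero, sub_eq_zero, Nat.cast_inj] at h3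
    have h4 : -X (a, b) = X (a, -b) := by simp [hX]
    rw [h4] at h3
    rw [List.countP_congr (q := fun q => X q = X (a, b)), h3]
    · exact List.countP_congr fun q hq => by
        simpa only [decide_eq_true_eq] using
          (ntb_iff hn hab.1 (hd q hq) (by simpa using hab.2) (hS.1 q hq).2).symm
    · exact fun q hq => by
        simpa only [decide_eq_true_eq] using ntb_iff hn hab.1 (hd q hq) hab.2 (hS.1 q hq).2
  · have aux : ∀ b' : ℤ, Int.gcd a b' = Int.gcd a b →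
        S.countP (fun q => q.1 = a ∧ q.2 ≡ b' [ZMOD a]) = 0 := by
      intro b' hb
      rw [List.countP_eq_zero]
      intro q hq h3
      obtain ⟨rfl, h4⟩ := of_decide_eq_true h3
      refine hab ⟨hd q hq, ?_⟩
      obtain ⟨t, ht⟩ := h4.dvd
      rw [← hb, show b' = q.2 + q.1 * t by linear_combination ht, Int.gcd_add_mul_left_right]
      exact (hS.1 q hq).2
    rw [aux b rfl, aux (-b) (by simp)]

end Pool.Agent.P.MP_3d25f3_gt
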