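import Pool.Agent.P.MP_3d25f3_gt.Sig
import Pool.Agent.P.MP_3d25f3_gt.Mod

set_option autoImplicit false

open Set Filter Topology

namespace Pool.Agent.P.MP_3d25f3_gt

open Module

/-- the area form of vertex data -/
noncomputable def area (g : ℕ) (S : List (ℕ × ℤ)) (ρ : ℕ → ℂ) : SF (ZMod (LL g S) → ℂ) :=
  LinearMap.mk₂'ₛₗ (RingHom.id ℂ) (starRingEnd ℂ)
    (fun x y => Complex.I * ∑ e ∈ Finset.range (NE g S), vv g ρ x e * starRingEnd ℂ (ρ e) *
      starRingEnd ℂ (y ((st g e + 1 : ℕ) : ZMod _) - y ((st g e : ℕ) : ZMod _)))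
    (fun x x' y => by
      rw [← mul_add, ← Finset.sum_add_distrib]
      congr 1
      exact Finset.sum_congr rfl fun e _ => by simp only [vv, Pi.add_apply]; ring)
    (fun r x y => by
      simp only [RingHom.id_apply, smul_eq_mul, Finset.mul_sum]
      exact Finset.sum_congr rfl fun e _ => by simp only [vv, Pi.smul_apply, smul_eq_mul]; ring)
    (fun x y y' => by
      rw [← mul_add, ← Finset.sum_add_distrib]
      congr 1
      exact Finset.sum_congr rfl fun e _ => by simp only [Pi.add_apply, map_add, map_sub]; ring)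
    (fun r x y => by
      simp only [smul_eq_mul, Finset.mul_sum]
      exact Finset.sum_congr rfl fun e _ => by
        simp only [Pi.smul_apply, smul_eq_mul, map_sub, map_mul]; ring)

lemma area_apply (g : ℕ) (S : List (ℕ × ℤ)) (ρ : ℕ → ℂ) (x y : ZMod (LL g S) → ℂ) :
    area g S ρ x y = Complex.I * ∑ e ∈ Finset.range (NE g S), vv g ρ x e * starRingEnd ℂ (ρ e) *
      starRingEnd ℂ (y ((st g e + 1 : ℕ) : ZMod _) - y ((st g e : ℕ) : ZMod _)) := rfl

/-- the form of a chain of slits, in the variables `D i` -/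
noncomputable def chain (n : ℕ) (ρ : Fin n → ℂ) : SF (Fin n → ℂ) :=
  gram fun i j => -Complex.I * ((if i < j then 1 - ρ i else if i = j then 1 else 0)
    * starRingEnd ℂ (1 - ρ j))

/-- closed chains -/
noncomputable def clos (n : ℕ) (ρ : Fin n → ℂ) : Submodule ℂ (Fin n → ℂ) :=
  LinearMap.ker (∑ i, (1 - ρ i) • (LinearMap.proj i : (Fin n → ℂ) →ₗ[ℂ] ℂ))

lemma mem_clos (n : ℕ) (ρ : Fin n → ℂ) (D : Fin n → ℂ) :
    D ∈ clos n ρ ↔ ∑ i, (1 - ρ i) * D i = 0 := by
  simp [clos, LinearMap.sum_apply]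

/-- the root of unity of a rational angle -/
noncomputable def rt (μ : ℚ) : ℂ := Complex.exp (2 * Real.pi * Complex.I * μ)

end Pool.Agent.P.MP_3d25f3_gt
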