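import Pool.Agent.P.MP_3d25f3_gt.Alg

set_option autoImplicit false

open Set Filter Topology

namespace Pool.Agent.P.MP_3d25f3_gt

variable {Z W : Type} [TopologicalSpace W] {R : Type} [CommRing R]

section alg
omit [TopologicalSpace W]

/-- the prism operator -/
def prismP (f g : W → Z) : (List Z → R) → List W → R
  | _, [] => 0
  | c, x :: l => c (f x :: g x :: l.map g) - prismP f g (fun l' => c (f x :: l')) l

lemma prismP_realize : True := by have := @prismP.eq_def; trivial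

lemma prism_d0_map (g : W → Z) (c : List Z → R) (l : List W) :
    d0 (fun l' => c (l'.map g)) l = d0 c (l.map g) := by
  induction l generalizing c with
  | nil => rfl
  | cons x l ih => exact congrArg (fun t => c (l.map g) - t) (ih fun l' => c (g x :: l'))

lemma prism_d0_sub (a b : List W → R) (l : List W) :
    d0 (fun l' => a l' - b l') l = d0 a l - d0 b l := by
  induction l generalizing a b with
  | nil => simp [d0]
  | cons x l ih =>
    simp only [d0]
    rw [ih (fun l' => a (x :: l')) fun l' => b (x :: l')]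
    ring

lemma prismP_sub (f g : W → Z) (a b : List Z → R) (l : List W) :
    prismP f g (fun l' => a l' - b l') l = prismP f g a l - prismP f g b l := by
  induction l generalizing a b with
  | nil => simp [prismP]
  | cons x l ih =>
    simp only [prismP]
    rw [ih (fun l' => a (f x :: l')) fun l' => b (f x :: l')]
    ring

lemma prismP_congr {f g : W → Z} {V : Set Z} (r : R) {a b : List Z → R} {l : List W}
    (h : ∀ l' : List Z, l'.length = l.length + 1 → (∀ y ∈ l', y ∈ V) → a l' = r * b l')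
    (hl : ∀ x ∈ l, f x ∈ V ∧ g x ∈ V) : prismP f g a l = r * prismP f g b l := by
  induction l generalizing a b with
  | nil => simp [prismP]
  | cons x l ih =>
    have hx := hl x List.mem_cons_self
    have hl' : ∀ y ∈ l, f y ∈ V ∧ g y ∈ V := fun y hy => hl y (List.mem_cons_of_mem _ hy)
    simp only [prismP]
    rw [mul_sub, h _ (by simp) (List.forall_mem_cons.2 ⟨hx.1, List.forall_mem_cons.2 ⟨hx.2,
      List.forall_mem_map.2 fun y hy => (hl' y hy).2⟩⟩),
      ih (b := fun l' => b (f x :: l')) (fun l' h1 h2 => h _ (by simp [h1])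
        (List.forall_mem_cons.2 ⟨hx.1, h2⟩)) hl']

lemma prismP_d0 (f g : W → Z) (c : List Z → R) (l : List W) :
    d0 (prismP f g c) l + prismP f g (d0 c) l = c (l.map g) - c (l.map f) := by
  induction l generalizing c with
  | nil => simp [prismP, d0]
  | cons x l ih =>
    have h1 := ih fun l' => c (f x :: l')
    have h2 := prism_d0_map g (fun l' => c (f x :: g x :: l')) l
    simp only [prismP, d0, List.map_cons]
    rw [prism_d0_sub, prismP_sub f g c, h2]
    linear_combination h1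

/-- the twisted homotopy -/
def prismH (τ : Z → Z → R) (f g : W → Z) (ν : W → R) (c : List Z → R) : List W → R
  | [] => 0
  | x :: l => ν x * prismP f g (pull id (τ (f x)) c) (x :: l)

lemma prismH_D {τ₀ : W → W → R} {τ : Z → Z → R} {f g : W → Z} {ν : W → R} {V : Set Z}
    (hτ : CocOn τ V) (c : List Z → R) (x : W) (l : List W)
    (hν : ∀ y ∈ l, τ₀ x y * ν y = ν x * τ (f x) (f y))
    (hl : ∀ y ∈ x :: l, f y ∈ V ∧ g y ∈ V) :
    D τ₀ (prismH τ f g ν c) (x :: l) = ν x * d0 (prismP f g (pull id (τ (f x)) c)) (x :: l) := by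
  rcases l with _ | ⟨y, m⟩
  · simp [d0, prismP]
  · have hx := (hl x List.mem_cons_self).1
    have hl' : ∀ z ∈ y :: m, f z ∈ V ∧ g z ∈ V := fun z hz => hl z (List.mem_cons_of_mem _ hz)
    have hy := (hl' y List.mem_cons_self).1
    have h1 : prismP f g (pull id (τ (f x)) c) (y :: m) =
        τ (f x) (f y) * prismP f g (pull id (τ (f y)) c) (y :: m) := by
      refine prismP_congr _ (fun l' _ h2 => ?_) hl'
      rcases l' with _ | ⟨z, l'⟩
      · simp
      · rw [pull_cons, pull_cons, ← mul_assoc, (hτ _ hx).2 _ hy _ (h2 z List.mem_cons_self)]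
    have h2 := d0_smul (ν x) (fun l' => prismP f g (pull id (τ (f x)) c) (x :: l')) (y :: m)
    have h3 : d0 (prismP f g (pull id (τ (f x)) c)) (x :: y :: m) =
        prismP f g (pull id (τ (f x)) c) (y :: m) -
          d0 (fun l' => prismP f g (pull id (τ (f x)) c) (x :: l')) (y :: m) := rfl
    rw [D_cons, h3, mul_sub, ← h2, h1, prismH, ← mul_assoc, ← mul_assoc, hν y List.mem_cons_self]
    rfl

lemma prism_CocOn {τ : Z → Z → R} {U V : Set Z} (h : CocOn τ U) (hV : V ⊆ U) : CocOn τ V :=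
  fun a ha => ⟨(h a (hV ha)).1, fun b hb c hc => (h a (hV ha)).2 b (hV hb) c (hV hc)⟩

end alg

/-- The prism lemma. No continuity of `f`, `g` is assumed. -/
lemma prism {τ₀ : W → W → R} {τ : Z → Z → R} {f g : W → Z} {ν : W → R} {k : ℕ} {G G' : Set W}
    (c : List Z → R) (hν : Itw τ₀ τ f ν G)
    (h : ∀ x ∈ G, ∃ U ∈ 𝓝 x, ∃ V : Set Z, MapsTo f U V ∧ MapsTo g U V ∧ CocOn τ V ∧
      ∀ l : List Z, l.length = k + 2 → (∀ y ∈ l, y ∈ V) → D τ c l = 0)
    (h' : ∀ x ∈ G', ∃ U ∈ 𝓝 x, ∃ V : Set Z, MapsTo f U V ∧ MapsTo g U V ∧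
      ∀ l : List Z, l.length = k + 1 → (∀ y ∈ l, y ∈ V) → c l = 0) :
    pull g (fun a => ν a * τ (f a) (g a)) c - pull f ν c ∈ Bc τ₀ k G G' := by
  have key : pull g (fun a => ν a * τ (f a) (g a)) c - pull f ν c - D τ₀ (prismH τ f g ν c) ∈
      Null R k G := by
    intro x0 hx0
    obtain ⟨U, hU, V, hf, hg, hτ, hc⟩ := h x0 hx0
    obtain ⟨U', hU', hν'⟩ := hν x0 hx0
    refine ⟨U ∩ U', inter_mem hU hU', fun l hl hm => ?_⟩
    rcases l with _ | ⟨x, l⟩
    · simp at hl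
    have hx := hm x List.mem_cons_self
    have hV : ∀ y ∈ x :: l, f y ∈ V ∧ g y ∈ V := fun y hy => ⟨hf (hm y hy).1, hg (hm y hy).1⟩
    have h1 := prismP_d0 f g (pull id (τ (f x)) c) (x :: l)
    have h2 : prismP f g (d0 (pull id (τ (f x)) c)) (x :: l) = 0 * prismP f g c (x :: l) := by
      refine prismP_congr _ (fun l' h3 h4 => ?_) hV
      rcases l' with _ | ⟨z, l'⟩
      · simp at h3
      · rw [← D_gauge hτ (hf hx.1) c z l' h4, hc _ (by rw [h3, hl]) h4, mul_zero, zero_mul]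
    rw [h2, zero_mul, add_zero] at h1
    rw [Pi.sub_apply, Pi.sub_apply, prismH_D hτ c x l
      (fun y hy => hν' x hx.2 y (hm y (List.mem_cons_of_mem _ hy)).2) hV, h1]
    simp only [List.map_cons, pull_cons, id, List.map_id, (hτ _ (hf hx.1)).1]
    ring
  rcases k with _ | k
  · refine Null_le_Bc _ _ _ _ ?_
    simpa using add_mem key (D_Null_zero τ₀ G (prismH τ f g ν c))
  · refine mem_Bc.2 ⟨_, fun x0 hx0 => ?_, key⟩
    obtain ⟨U, hU, V, hf, hg, hc⟩ := h' x0 hx0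
    refine ⟨U, hU, fun l hl hm => ?_⟩
    rcases l with _ | ⟨x, l⟩
    · rfl
    rw [prismH, prismP_congr (V := V) (b := c) 0 (fun l' h3 h4 => ?_)
      fun y hy => ⟨hf (hm y hy), hg (hm y hy)⟩, zero_mul, mul_zero]
    rcases l' with _ | ⟨z, l'⟩
    · simp
    · rw [pull_cons, List.map_id, id, hc _ (by rw [h3, hl]; rfl) h4, mul_zero, zero_mul]

variable [TopologicalSpace Z]

/-- two maps that agree on `G` induce the same map -/
lemma prism_agree {τ₀ : W → W → R} {τ : Z → Z → R} {f g : W → Z} {ν : W → R} {k : ℕ}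
    {F F' : Set Z} {G G' : Set W} (hτ : Coc τ F) (hν : Itw τ₀ τ f ν G) (hG : G' ⊆ G)
    (hf : ∀ x ∈ G, ContinuousAt f x) (hg : ∀ x ∈ G, ContinuousAt g x) (hfg : ∀ x ∈ G, f x = g x)
    (hm : MapsTo f G F) (hm' : MapsTo f G' F') {c : List Z → R} (hc : c ∈ Zc τ k F F') :
    pull g (fun a => ν a * τ (f a) (g a)) c - pull f ν c ∈ Bc τ₀ k G G' := by
  have key : ∀ x ∈ G, ∀ V ∈ 𝓝 (f x), ∃ U ∈ 𝓝 x, MapsTo f U V ∧ MapsTo g U V := fun x hx V hV =>
    ⟨f ⁻¹' V ∩ g ⁻¹' V, inter_mem (hf x hx hV) (hg x hx (hfg x hx ▸ hV)), fun _ h => h.1,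
      fun _ h => h.2⟩
  refine prism c hν (fun x hx => ?_) fun x hx => ?_
  · obtain ⟨V, hV, h1⟩ := hτ _ (hm hx)
    obtain ⟨V', hV', h2⟩ := hc.2 _ (hm hx)
    obtain ⟨U, hU, h3, h4⟩ := key x hx _ (inter_mem hV hV')
    exact ⟨U, hU, _, h3, h4, prism_CocOn h1 inter_subset_left,
      fun l hl h5 => h2 l hl fun y hy => (h5 y hy).2⟩
  · obtain ⟨V, hV, h1⟩ := hc.1 _ (hm' hx)
    obtain ⟨U, hU, h3, h4⟩ := key x (hG hx) _ hV
    exact ⟨U, hU, V, h3, h4, h1⟩

lemma prism_id (k : ℕ) (F F' : Set Z) (τ : Z → Z → R) (c : List Z → R) :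
    pull id 1 c - c ∈ Bc τ k F F' :=
  Null_le_Bc _ _ _ _ (pull_id_Null k (fun _ _ => Eventually.of_forall fun _ => rfl) c)

end Pool.Agent.P.MP_3d25f3_gt

namespace Pool.Agent.P.MP_3d25f3_gt

variable {Z W : Type} [TopologicalSpace W] [MetricSpace Z] {R : Type} [CommRing R]

/-- a retraction that is continuous at the points of the image -/
lemma near_retr {e : W → Z} {G : Set W} (hG : IsCompact G) (hne : G.Nonempty) (he : Continuous e)
    (hi : InjOn e G) : ∃ r : Z → W, (∀ x ∈ G, r (e x) = x) ∧ ∀ x ∈ G, ContinuousAt r (e x) := by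
  have h : ∀ y : Z, ∃ x ∈ G, IsMinOn (fun w => dist y (e w)) G x := fun y =>
    hG.exists_isMinOn hne (continuous_const.dist he).continuousOn
  choose r hr hmin using h
  have h1 : ∀ x ∈ G, r (e x) = x := fun x hx => by
    have h2 : dist (e x) (e (r (e x))) ≤ dist (e x) (e x) := hmin (e x) hx
    rw [dist_self] at h2
    exact hi (hr _) hx (dist_le_zero.1 h2).symm
  refine ⟨r, h1, fun x hx => ?_⟩
  rw [ContinuousAt, h1 x hx, tendsto_nhds]
  intro N hN hxN
  have h2 : (e '' (G \ N))ᶜ ∈ 𝓝 (e x) := ((hG.diff hN).image he).isClosed.isOpen_compl.mem_nhds (by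
    rintro ⟨w, hw, h3⟩
    exact hw.2 (hi hw.1 hx h3 ▸ hxN))
  obtain ⟨δ, hδ, h3⟩ := Metric.mem_nhds_iff.1 h2
  filter_upwards [Metric.ball_mem_nhds (e x) (half_pos hδ)] with y hy
  by_contra h4
  have h5 : dist y (e (r y)) ≤ dist y (e x) := hmin y hx
  have h6 := dist_triangle_left (e (r y)) (e x) y
  have h7 : dist y (e x) < δ / 2 := hy
  exact h3 (show dist (e (r y)) (e x) < δ by linarith) ⟨r y, ⟨hr y, h4⟩, rfl⟩

lemma prism_Itw {τ : Z → Z → R} {e : W → Z} {r : Z → W} {G : Set W} (he : Continuous e)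
    (hτ : Coc τ (e '' G)) (h1 : ∀ x ∈ G, r (e x) = x) (h2 : ∀ x ∈ G, ContinuousAt r (e x)) :
    Itw τ (fun a b => τ (e a) (e b)) r (fun a => τ a (e (r a))) (e '' G) := by
  rintro _ ⟨x, hx, rfl⟩
  obtain ⟨V, hV, h3⟩ := hτ _ ⟨x, hx, rfl⟩
  have h4 : (e ∘ r) ⁻¹' V ∈ 𝓝 (e x) :=
    (he.continuousAt.comp (h2 x hx)) (by rwa [Function.comp_apply, h1 x hx])
  refine ⟨V ∩ (e ∘ r) ⁻¹' V, inter_mem hV h4, fun a ha b hb => ?_⟩
  exact ((h3 a ha.1).2 b hb.1 _ hb.2).trans ((h3 a ha.1).2 _ ha.2 _ hb.2).symm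

omit [TopologicalSpace W] [MetricSpace Z] in
lemma prism_maps {e : W → Z} {r : Z → W} {G G' : Set W} (h1 : ∀ x ∈ G, r (e x) = x)
    (hG' : G' ⊆ G) : MapsTo r (e '' G') G' := by
  rintro _ ⟨x, hx, rfl⟩
  rwa [h1 x (hG' hx)]

lemma emb_inj {τ : Z → Z → R} {e : W → Z} {k : ℕ} {G G' : Set W} (hG : IsCompact G)
    (hG' : G' ⊆ G) (he : Continuous e) (hi : InjOn e G) (hτ : Coc τ (e '' G)) {c : List Z → R}
    (hc : c ∈ Zc τ k (e '' G) (e '' G'))
    (h : pull e 1 c ∈ Bc (fun a b => τ (e a) (e b)) k G G') : c ∈ Bc τ k (e '' G) (e '' G') := by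
  rcases G.eq_empty_or_nonempty with rfl | hne
  · refine Null_le_Bc _ _ _ _ ?_
    simp
  obtain ⟨r, h1, h2⟩ := near_retr hG hne he hi
  have h2' : ∀ y ∈ e '' G, ContinuousAt r y := forall_mem_image.2 h2
  have h3 := pull_Bc (prism_Itw he hτ h1 h2) h2' (image_mono hG') (prism_maps h1 Subset.rfl)
    (prism_maps h1 hG') h
  rw [pull_pull] at h3
  have h4 := prism_agree (g := e ∘ r) hτ (Itw_comp τ id (e '' G)) (image_mono hG')
    (fun _ _ => continuousAt_id) (fun y hy => he.continuousAt.comp (h2' y hy))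
    (forall_mem_image.2 fun x hx => congrArg e (h1 x hx).symm) (mapsTo_id _) (mapsTo_id _) hc
  have h5 := sub_mem (sub_mem h3 (by simpa using h4)) (prism_id k _ _ τ c)
  simpa using h5

lemma emb_surj {τ : Z → Z → R} {e : W → Z} {k : ℕ} {G G' : Set W} (hG : IsCompact G)
    (hG' : G' ⊆ G) (he : Continuous e) (hi : InjOn e G) (hτ : Coc τ (e '' G)) {c' : List W → R}
    (hc : c' ∈ Zc (fun a b => τ (e a) (e b)) k G G') :
    ∃ c ∈ Zc τ k (e '' G) (e '' G'), pull e 1 c - c' ∈ Bc (fun a b => τ (e a) (e b)) k G G' := by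
  rcases G.eq_empty_or_nonempty with rfl | hne
  · refine ⟨0, zero_mem _, Null_le_Bc _ _ _ _ ?_⟩
    simp
  obtain ⟨r, h1, h2⟩ := near_retr hG hne he hi
  have h2' : ∀ y ∈ e '' G, ContinuousAt r y := forall_mem_image.2 h2
  refine ⟨_, pull_Zc (prism_Itw he hτ h1 h2) h2' (image_mono hG') (prism_maps h1 Subset.rfl)
    (prism_maps h1 hG') hc, ?_⟩
  have h4 := prism_agree (g := r ∘ e)
    (hτ.comp (fun _ _ => he.continuousAt) (mapsTo_image e G))
    (Itw_comp (fun a b => τ (e a) (e b)) id G) hG'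
    (fun _ _ => continuousAt_id) (fun x hx => (h2 x hx).comp he.continuousAt)
    (fun x hx => (h1 x hx).symm) (mapsTo_id _) (mapsTo_id _) hc
  have h5 := add_mem h4 (prism_id k G G' _ c')
  rw [sub_add_sub_cancel] at h5
  rw [pull_pull]
  exact h5

/-- invariance under embeddings of compact sets -/
lemma emb_equiv {τ : Z → Z → R} {τ₀ : W → W → R} {e : W → Z} (k : ℕ) {G G' : Set W}
    {F F' : Set Z} (hG : IsCompact G) (hG' : G' ⊆ G) (he : Continuous e) (hi : InjOn e G)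
    (hF : F = e '' G) (hF' : F' = e '' G') (hτ : Coc τ F) (h₀ : ∀ a b, τ₀ a b = τ (e a) (e b)) :
    ∃ Φ : H τ k F F' ≃ₗ[R] H τ₀ k G G', ∀ c hc, ∃ h', Φ (cl c hc) = cl (pull e 1 c) h' := by
  subst hF hF'
  obtain rfl : τ₀ = fun a b => τ (e a) (e b) := funext₂ h₀
  have hZ : ∀ c ∈ Zc τ k (e '' G) (e '' G'), pull e 1 c ∈ Zc (fun a b => τ (e a) (e b)) k G G' :=
    fun c hc => pull_Zc (Itw_comp τ e G) (fun _ _ => he.continuousAt) hG' (mapsTo_image e G)
      (mapsTo_image e G') hc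
  have hB : ∀ c ∈ Zc τ k (e '' G) (e '' G'), c ∈ Bc τ k (e '' G) (e '' G') →
      pull e 1 c ∈ Bc (fun a b => τ (e a) (e b)) k G G' :=
    fun c _ hc => pull_Bc (Itw_comp τ e G) (fun _ _ => he.continuousAt) hG' (mapsTo_image e G)
      (mapsTo_image e G') hc
  refine ⟨LinearEquiv.ofBijective (hmap (pull e 1) hZ hB) ⟨?_, fun y => ?_⟩,
    fun c hc => ⟨hZ c hc, rfl⟩⟩
  · refine (injective_iff_map_eq_zero _).2 fun x hx => ?_
    obtain ⟨c, hc, rfl⟩ := cl_surj x
    exact (cl_eq_zero hc).2 (emb_inj hG hG' he hi hτ hc ((cl_eq_zero (hZ c hc)).1 hx))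
  · obtain ⟨c', hc', rfl⟩ := cl_surj y
    obtain ⟨c, hc, h⟩ := emb_surj hG hG' he hi hτ hc'
    exact ⟨cl c hc, (cl_eq (hZ c hc) hc').2 h⟩

/-- a cocycle near a compact set is cohomologous to a pull-back along a map with finite range -/
lemma fin_rep {τ : Z → Z → R} {k : ℕ} {F : Set Z} (hF : IsCompact F) (hτ : Coc τ F)
    {c : List Z → R} (hc : c ∈ Zc τ k F ∅) :
    ∃ r : Z → Z, (range r).Finite ∧ pull r (fun a => τ a (r a)) c - c ∈ Bc τ k F ∅ := by
  classical
  rcases isEmpty_or_nonempty Z with hZ | ⟨⟨z0⟩⟩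
  · exact ⟨id, toFinite _, Null_le_Bc _ _ _ _ fun x _ => isEmptyElim x⟩
  have h1 : ∀ x : F, ∃ V ∈ 𝓝 (x : Z), CocOn τ V ∧
      ∀ l : List Z, l.length = k + 2 → (∀ y ∈ l, y ∈ V) → D τ c l = 0 := fun x => by
    obtain ⟨V, hV, h1⟩ := hτ x x.2
    obtain ⟨V', hV', h2⟩ := hc.2 x x.2
    exact ⟨V ∩ V', inter_mem hV hV', prism_CocOn h1 inter_subset_left,
      fun l hl h5 => h2 l hl fun y hy => (h5 y hy).2⟩
  choose V hV h2 h3 using h1
  obtain ⟨δ, hδ, h4⟩ := lebesgue_number_lemma_of_metric (c := fun x => interior (V x)) hF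
    (fun _ => isOpen_interior)
    fun x hx => mem_iUnion.2 ⟨⟨x, hx⟩, mem_interior_iff_mem_nhds.2 (hV ⟨x, hx⟩)⟩
  have hδ3 : 0 < δ / 3 := by positivity
  obtain ⟨t, -, ht, h5⟩ := hF.finite_cover_balls hδ3
  obtain ⟨r, hr1, hr2⟩ : ∃ r : Z → Z, (∀ y, r y ∈ insert z0 t) ∧
      ∀ y, (∃ p ∈ t, dist y p < 2 * δ / 3) → dist y (r y) < 2 * δ / 3 := by
    refine ⟨fun y => if h : ∃ p ∈ t, dist y p < 2 * δ / 3 then h.choose else z0, fun y => ?_,
      fun y h => ?_⟩
    · beta_reduce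
      split_ifs with h
      · exact Or.inr h.choose_spec.1
      · exact Or.inl rfl
    · beta_reduce
      rw [dif_pos h]
      exact h.choose_spec.2
  refine ⟨r, (ht.insert z0).subset (range_subset_iff.2 hr1), ?_⟩
  have h6 := prism (g := r) (k := k) (G' := ∅) c (Itw_comp τ id F) (fun x hx => by
    obtain ⟨i, hi⟩ := h4 x hx
    obtain ⟨p, hp, h7⟩ := mem_iUnion₂.1 (h5 hx)
    refine ⟨Metric.ball x (δ / 3), Metric.ball_mem_nhds x hδ3, V i, fun y hy => ?_,
      fun y hy => ?_, h2 i, h3 i⟩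
    · exact interior_subset (hi (Metric.ball_subset_ball (by linarith) hy))
    · have h8 : dist y x < δ / 3 := hy
      have h9 : dist x p < δ / 3 := h7
      have h10 := hr2 y ⟨p, hp, by linarith [dist_triangle y x p]⟩
      exact interior_subset (hi (show dist (r y) x < δ by
        linarith [dist_triangle_left (r y) x y]))) fun _ hx => hx.elim
  have h7 := add_mem h6 (prism_id k F ∅ _ c)
  simpa using h7

end Pool.Agent.P.MP_3d25f3_gt
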