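import Pool.Agent.P.MP_3d25f3_gt.Push
import Pool.Agent.P.MP_3d25f3_gt.Gl

set_option autoImplicit false

open Set Filter Topology

namespace Pool.Agent.P.MP_3d25f3_gt

/-- locally flat hypersurface -/
def Flat {Z : Type} [TopologicalSpace Z] (M : Set Z) : Prop :=
  ∀ x ∈ M, ∃ φ : OpenPartialHomeomorph Z E4, x ∈ φ.source ∧ ∀ y ∈ φ.source, (y ∈ M ↔ φ y 0 = 0)

lemma sda_both {Z : Type} [TopologicalSpace Z] {φ : OpenPartialHomeomorph Z E4} {x : Z}
    (h1 : x ∈ φ.source) (h0 : φ x 0 = 0) :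
    (∃ᶠ y in 𝓝 x, 0 < φ y 0) ∧ ∃ᶠ y in 𝓝 x, φ y 0 < 0 := by
  have h2 : map (fun q : E4 => q 0) (𝓝 (φ x)) = 𝓝 (φ x 0) :=
    (isOpenMap_eval (0 : Fin 4)).map_nhds_eq (continuous_apply (0 : Fin 4)).continuousAt
  have h3 : map (fun y => φ y 0) (𝓝 x) = 𝓝 (0 : ℝ) := by
    rw [← h0, ← h2, ← φ.map_nhds_eq h1, map_map]
    rfl
  constructor
  · have h4 := frequently_gt_nhds (0 : ℝ)
    rw [← h3, frequently_map] at h4
    exact h4
  · have h4 := frequently_lt_nhds (0 : ℝ)
    rw [← h3, frequently_map] at h4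
    exact h4

lemma sda_sign {X : Type} [TopologicalSpace X] {S : Set X} (hS : IsPreconnected S) {g : X → ℝ}
    (hg : ContinuousOn g S) (h : ∀ q ∈ S, g q ≠ 0) :
    (∀ q ∈ S, 0 < g q) ∨ ∀ q ∈ S, g q < 0 := by
  by_contra hc
  rw [not_or] at hc
  obtain ⟨h1, h2⟩ := hc
  push Not at h1 h2
  obtain ⟨a, ha, ha'⟩ := h1
  obtain ⟨b, hb, hb'⟩ := h2
  obtain ⟨q, hq, hq'⟩ := hS.intermediate_value ha hb hg ⟨ha', hb'⟩
  exact h q hq hq'

lemma two_charts {Z : Type} [TopologicalSpace Z] {M : Set Z} {φ ψ : OpenPartialHomeomorph Z E4}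
    (hφ : ∀ y ∈ φ.source, (y ∈ M ↔ φ y 0 = 0)) (hψ : ∀ y ∈ ψ.source, (y ∈ M ↔ ψ y 0 = 0)) {x : Z}
    (hx : x ∈ M) (h1 : x ∈ φ.source) (h2 : x ∈ ψ.source) :
    (∀ᶠ y in 𝓝 x, (0 < φ y 0 ↔ 0 < ψ y 0)) ∨ (∀ᶠ y in 𝓝 x, (0 < φ y 0 ↔ ψ y 0 < 0)) := by
  have hO : IsOpen (φ.target ∩ φ.symm ⁻¹' ψ.source) := φ.isOpen_inter_preimage_symm ψ.open_source
  have hp : φ x ∈ φ.target ∩ φ.symm ⁻¹' ψ.source :=
    ⟨φ.map_source h1, by rw [mem_preimage, φ.left_inv h1]; exact h2⟩
  obtain ⟨r, hr, hB⟩ := Metric.isOpen_iff.1 hO _ hp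
  have hg : ContinuousOn (fun q => ψ (φ.symm q) 0) (Metric.ball (φ x) r) :=
    (continuous_apply (0 : Fin 4)).comp_continuousOn
      (ψ.continuousOn.comp (φ.continuousOn_symm.mono fun q hq => (hB hq).1) fun q hq => (hB hq).2)
  have hne : ∀ q ∈ Metric.ball (φ x) r, q 0 ≠ 0 → ψ (φ.symm q) 0 ≠ 0 := by
    intro q hq h0 h
    have h3 := (hφ _ (φ.map_target (hB hq).1)).1 ((hψ _ (hB hq).2).2 h)
    rw [φ.right_inv (hB hq).1] at h3
    exact h0 h3
  have hl : IsLinearMap ℝ (fun q : E4 => q 0) := ⟨fun _ _ => rfl, fun _ _ => rfl⟩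
  have hP := sda_sign ((convex_ball (φ x) r).inter (convex_halfSpace_gt hl 0)).isPreconnected
    (hg.mono inter_subset_left) fun q hq => hne q hq.1 (ne_of_gt hq.2)
  have hN := sda_sign ((convex_ball (φ x) r).inter (convex_halfSpace_lt hl 0)).isPreconnected
    (hg.mono inter_subset_left) fun q hq => hne q hq.1 (ne_of_lt hq.2)
  have hev : ∀ᶠ y in 𝓝 x, φ y ∈ Metric.ball (φ x) r ∧ φ.symm (φ y) = y ∧
      (φ y 0 = 0 → ψ y 0 = 0) := by
    filter_upwards [(φ.continuousAt h1).eventually (Metric.ball_mem_nhds _ hr),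
      φ.open_source.mem_nhds h1, ψ.open_source.mem_nhds h2] with y a b c
    exact ⟨a, φ.left_inv b, fun h => (hψ y c).1 ((hφ y b).2 h)⟩
  obtain ⟨hb1, hb2⟩ := sda_both h2 ((hψ x h2).1 hx)
  rcases hP with hP | hP <;> rcases hN with hN | hN
  · exfalso
    obtain ⟨y, hy, a, b, c⟩ := (hb2.and_eventually hev).exists
    rcases lt_trichotomy (φ y 0) 0 with h | h | h
    · have := hN _ ⟨a, h⟩
      rw [b] at this; linarith
    · have := c h
      linarith
    · have := hP _ ⟨a, h⟩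
      rw [b] at this; linarith
  · left
    filter_upwards [hev] with y ⟨a, b, c⟩
    refine ⟨fun h => by have := hP _ ⟨a, h⟩; rwa [b] at this, fun hy => ?_⟩
    rcases lt_trichotomy (φ y 0) 0 with h | h | h
    · have := hN _ ⟨a, h⟩
      rw [b] at this; linarith
    · have := c h
      linarith
    · exact h
  · right
    filter_upwards [hev] with y ⟨a, b, c⟩
    refine ⟨fun h => by have := hP _ ⟨a, h⟩; rwa [b] at this, fun hy => ?_⟩
    rcases lt_trichotomy (φ y 0) 0 with h | h | h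
    · have := hN _ ⟨a, h⟩
      rw [b] at this; linarith
    · have := c h
      linarith
    · exact h
  · exfalso
    obtain ⟨y, hy, a, b, c⟩ := (hb1.and_eventually hev).exists
    rcases lt_trichotomy (φ y 0) 0 with h | h | h
    · have := hN _ ⟨a, h⟩
      rw [b] at this; linarith
    · have := c h
      linarith
    · have := hP _ ⟨a, h⟩
      rw [b] at this; linarith

lemma chart_both {Z : Type} [TopologicalSpace Z] {φ : OpenPartialHomeomorph Z E4} {x : Z}
    (h1 : x ∈ φ.source) (h0 : φ x 0 = 0) :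
    (∃ᶠ y in 𝓝 x, 0 < φ y 0) ∧ ∃ᶠ y in 𝓝 x, φ y 0 < 0 := sda_both h1 h0

/-- local functions given off a nowhere dense set extend over it compatibly -/
lemma sda_ext {Z R : Type} [TopologicalSpace Z] [CommRing R] {M : Set Z}
    (hM : ∀ y, ∃ᶠ w in 𝓝 y, w ∉ M) (U : Z → Set Z) (hU : ∀ x, IsOpen (U x)) (hx : ∀ x, x ∈ U x)
    (σ : Z → Z → R)
    (h : ∀ x x' y, y ∈ U x → y ∈ U x' → ∃ c, ∀ᶠ w in 𝓝 y, w ∉ M → σ x w - σ x' w = c) :
    ∃ b : Z → Z → R,
      (∀ x x' y, y ∈ U x → y ∈ U x' → ∀ᶠ z in 𝓝 y, b x z - b x' z = b x y - b x' y) ∧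
      ∀ x z, z ∈ U x → ∀ᶠ w in 𝓝 z, w ∉ M → σ x w - σ z w = b x z := by
  choose! e he using h
  have h2 : ∀ x x' z, z ∈ U x → z ∈ U x' →
      ∀ᶠ w in 𝓝 z, w ∉ M → σ x w - σ x' w = e x z z - e x' z z := by
    intro x x' z a b
    filter_upwards [he x z z a (hx z), he x' z z b (hx z)] with w p q hw
    rw [← p hw, ← q hw]
    ring
  refine ⟨fun x z => e x z z, fun x x' y a b => ?_, fun x z a => he x z z a (hx z)⟩
  filter_upwards [(h2 x x' y a b).eventually_nhds, (hU x).mem_nhds a, (hU x').mem_nhds b]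
    with z p a' b'
  obtain ⟨w, hw, p1, p2⟩ := ((hM z).and_eventually (p.and (h2 x x' z a' b'))).exists
  rw [← p1 hw, ← p2 hw]

/-- local functions with locally constant differences come from one function -/
lemma sda_glue {R : Type} [CommRing R] {K : Set E4} (hK : IsCompact K) (hc : Convex ℝ K)
    (U : E4 → Set E4) (hU : ∀ x, U x ∈ 𝓝 x) (b : E4 → E4 → R)
    (h : ∀ x x' y, y ∈ U x → y ∈ U x' → ∀ᶠ z in 𝓝 y, b x z - b x' z = b x y - b x' y) :
    ∃ β : E4 → R, ∀ x ∈ K, ∀ᶠ z in 𝓝 x, β z - b x z = β x - b x x := by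
  have hlen : ∀ l : List E4, l.length = 1 + 1 → ∃ p q, l = [p, q] := fun l hl =>
    List.length_eq_two.1 hl
  obtain ⟨c, hc1⟩ := glue_co hK 1 U (fun x _ => hU x)
    (fun x => D (1 : E4 → E4 → R) fun l => b x (l.headD 0)) (by
      intro x _ x' _ y hy
      refine ⟨_, h x x' y hy.1.2 hy.2, fun l hl hl' => ?_⟩
      obtain ⟨p, q, rfl⟩ := hlen l hl
      have hp : b x p - b x' p = b x y - b x' y := hl' p (by simp)
      have hq : b x q - b x' q = b x y - b x' y := hl' q (by simp)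
      simp only [Pi.sub_apply, D_two, Pi.one_apply, one_mul, List.headD_cons]
      linear_combination hq - hp)
  have hZ : c ∈ Zc (1 : E4 → E4 → R) 1 K ∅ := by
    refine ⟨by simp, fun x hx => ?_⟩
    have h1 := D_Null (1 : E4 → E4 → R) (hc1 x hx)
    have h2 : D (1 : E4 → E4 → R) (D (1 : E4 → E4 → R) fun l => b x (l.headD 0)) ∈
        Null R (1 + 1) (K ∩ U x) :=
      DD_Null (k := 1) (F' := ∅) (Coc_one _) (by simp)
    have h3 := add_mem h1 h2
    rw [map_sub, sub_add_cancel] at h3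
    exact h3 x ⟨hx, mem_of_mem_nhds (hU x)⟩
  obtain ⟨β, -, hβ⟩ := mem_Bc.1 (van_convex 0 hK hc (Coc_one K) hZ)
  refine ⟨fun z => β [z], fun x hx => ?_⟩
  have h1 := sub_mem (Null_mono _ (inter_subset_left (t := U x)) hβ) (hc1 x hx)
  obtain ⟨W, hW, h2⟩ := h1 x ⟨hx, mem_of_mem_nhds (hU x)⟩
  filter_upwards [hW] with z hz
  have h3 := h2 [x, z] rfl (by
    intro y hy
    simp only [List.mem_cons, List.not_mem_nil, or_false] at hy
    rcases hy with rfl | rfl
    · exact mem_of_mem_nhds hW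
    · exact hz)
  simp only [Pi.sub_apply, D_two, Pi.one_apply, one_mul, List.headD_cons] at h3
  linear_combination -h3

/-- a side function -/
lemma sda_fun {M : Set E4} (hM : IsCompact M) (hf : Flat M) {K : Set E4} (hK : IsCompact K)
    (hc : Convex ℝ K) :
    ∃ β : E4 → ZMod 2, (∀ x ∈ K, x ∉ M → ∀ᶠ z in 𝓝 x, β z = β x) ∧
      ∀ x ∈ K, x ∈ M → ∃ φ : OpenPartialHomeomorph E4 E4, x ∈ φ.source ∧
        (∀ y ∈ φ.source, (y ∈ M ↔ φ y 0 = 0)) ∧
        ∃ c, ∀ᶠ z in 𝓝 x, z ∉ M → β z = (if 0 < φ z 0 then 1 else 0) + c := by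
  classical
  have : Nonempty (OpenPartialHomeomorph E4 E4) := ⟨OpenPartialHomeomorph.refl _⟩
  choose! φ h1 h2 using hf
  have hMc : IsOpen Mᶜ := hM.isClosed.isOpen_compl
  let U : E4 → Set E4 := fun x => if x ∈ M then (φ x).source else Mᶜ
  let σ : E4 → E4 → ZMod 2 := fun x w => if x ∈ M then (if 0 < φ x w 0 then 1 else 0) else 0
  have hU : ∀ x, IsOpen (U x) := by
    intro x
    by_cases hx : x ∈ M
    · simp only [U, if_pos hx]; exact (φ x).open_source
    · simp only [U, if_neg hx]; exact hMc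
  have hxU : ∀ x, x ∈ U x := by
    intro x
    by_cases hx : x ∈ M
    · simp only [U, if_pos hx]; exact h1 x hx
    · simp only [U, if_neg hx]; exact hx
  have hnd : ∀ y, ∃ᶠ w in 𝓝 y, w ∉ M := by
    intro y
    by_cases hy : y ∈ M
    · refine ((sda_both (h1 y hy) ((h2 y hy y (h1 y hy)).1 hy)).1.and_eventually
        ((φ y).open_source.mem_nhds (h1 y hy))).mono fun w hw hw' => ?_
      exact hw.1.ne' ((h2 y hy w hw.2).1 hw')
    · exact (hMc.eventually_mem hy).frequently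
  have hloc : ∀ x y, y ∈ U x → y ∉ M → ∀ᶠ w in 𝓝 y, σ x w = σ x y := by
    intro x y hy hyM
    by_cases hx : x ∈ M
    · simp only [U, if_pos hx] at hy
      simp only [σ, if_pos hx]
      have hcont : ContinuousAt (fun w => φ x w 0) y :=
        (continuous_apply (0 : Fin 4)).continuousAt.comp ((φ x).continuousAt hy)
      rcases lt_or_gt_of_ne (fun h => hyM ((h2 x hx y hy).2 h)) with h | h
      · filter_upwards [hcont.eventually (gt_mem_nhds h)] with w hw
        rw [if_neg (not_lt.2 hw.le), if_neg (not_lt.2 h.le)]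
      · filter_upwards [hcont.eventually (lt_mem_nhds h)] with w hw
        rw [if_pos hw, if_pos h]
    · simp only [σ, if_neg hx]
      exact Eventually.of_forall fun _ => trivial
  obtain ⟨b, hb1, hb2⟩ := sda_ext hnd U hU hxU σ (by
    intro x x' y hy hy'
    by_cases hyM : y ∈ M
    · have hx : x ∈ M := by
        by_contra hx
        simp only [U, if_neg hx] at hy
        exact hy hyM
      have hx' : x' ∈ M := by
        by_contra hx'
        simp only [U, if_neg hx'] at hy'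
        exact hy' hyM
      simp only [U, if_pos hx] at hy
      simp only [U, if_pos hx'] at hy'
      simp only [σ, if_pos hx, if_pos hx']
      rcases two_charts (h2 x hx) (h2 x' hx') hyM hy hy' with h | h
      · refine ⟨0, h.mono fun w hw _ => ?_⟩
        simp only [hw, sub_self]
      · refine ⟨1, ?_⟩
        filter_upwards [h, (φ x').open_source.mem_nhds hy'] with w hw hw' hwM
        rcases lt_or_gt_of_ne (fun h => hwM ((h2 x' hx' w hw').2 h)) with h | h
        · rw [if_pos (hw.2 h), if_neg (not_lt.2 h.le)]; decide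
        · rw [if_neg (fun h' => absurd (hw.1 h') (not_lt.2 h.le)), if_pos h]; decide
    · refine ⟨σ x y - σ x' y, ?_⟩
      filter_upwards [hloc x y hy hyM, hloc x' y hy' hyM] with w p q _
      rw [p, q])
  have hb3 : ∀ x z, z ∈ U x → z ∉ M → b x z = σ x z := by
    intro x z hz hzM
    have h := (hb2 x z hz).self_of_nhds hzM
    rw [← h]
    simp only [σ, if_neg hzM, sub_zero]
  obtain ⟨β, hβ⟩ := sda_glue hK hc U (fun x => (hU x).mem_nhds (hxU x)) b hb1
  refine ⟨β, fun x hx hxM => ?_, fun x hx hxM => ⟨φ x, h1 x hxM, h2 x hxM, β x - b x x, ?_⟩⟩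
  · filter_upwards [hβ x hx, (hU x).mem_nhds (hxU x), hMc.mem_nhds hxM] with z p q r
    rw [hb3 x z q r, hb3 x x (hxU x) hxM] at p
    simpa only [σ, if_neg hxM, sub_zero] using p
  · filter_upwards [hβ x hx, (hU x).mem_nhds (hxU x)] with z p q r
    rw [hb3 x z q r] at p
    simp only [σ, if_pos hxM] at p
    rw [← p]
    ring

/-- a compact locally flat hypersurface of `ℝ⁴` has two sides -/
theorem sides {M : Set E4} (hM : IsCompact M) (hb : M ⊆ Metric.ball 0 1) (hf : Flat M) :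
    ∃ X Y, XY X Y ∧ X ∩ Y = M := by
  classical
  obtain ⟨β, hβ1, hβ2⟩ := sda_fun hM hf (isCompact_closedBall (0 : E4) 1) (convex_closedBall 0 1)
  have hMc : IsOpen Mᶜ := hM.isClosed.isOpen_compl
  have hS : IsPreconnected (Metric.sphere (0 : E4) 1) :=
    isPreconnected_sphere (by rw [← Module.finrank_eq_rank]; simp) 0 1
  have hSM : ∀ x ∈ Metric.sphere (0 : E4) 1, x ∉ M := fun x hx hx' =>
    (Metric.mem_ball.1 (hb hx')).ne (Metric.mem_sphere.1 hx)
  obtain ⟨c0, hc0⟩ : ∃ c0, ∀ x ∈ Metric.sphere (0 : E4) 1, β x = c0 := by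
    rcases (Metric.sphere (0 : E4) 1).eq_empty_or_nonempty with h | ⟨p, hp⟩
    · exact ⟨0, fun x hx => by rw [h] at hx; exact hx.elim⟩
    · exact ⟨β p, fun x hx => const_of_loc hS (fun y hy => mem_nhdsWithin_of_mem_nhds
        (hβ1 y (Metric.sphere_subset_closedBall hy) (hSM y hy))) hx hp⟩
  let s : E4 → ZMod 2 := fun z => if z ∈ Metric.ball (0 : E4) 1 then β z - c0 else 0
  have hs1 : ∀ x, x ∉ M → ∀ᶠ z in 𝓝 x, s z = s x := by
    intro x hx
    rcases lt_trichotomy (dist x 0) 1 with h | h | h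
    · have h' : x ∈ Metric.ball (0 : E4) 1 := h
      filter_upwards [hβ1 x (Metric.ball_subset_closedBall h') hx,
        Metric.isOpen_ball.mem_nhds h'] with z p q
      simp only [s, if_pos q, if_pos h', p]
    · have h' : x ∉ Metric.ball (0 : E4) 1 := fun h' => (Metric.mem_ball.1 h').ne h
      filter_upwards [hβ1 x (Metric.sphere_subset_closedBall h) hx] with z p
      simp only [s, if_neg h', p, hc0 x h, sub_self, ite_self]
    · have h' : x ∈ (Metric.closedBall (0 : E4) 1)ᶜ := fun h' => absurd h (not_lt.2 h')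
      filter_upwards [Metric.isClosed_closedBall.isOpen_compl.mem_nhds h'] with z p
      simp only [s, if_neg (fun q => p (Metric.ball_subset_closedBall q)),
        if_neg (fun q => h' (Metric.ball_subset_closedBall q))]
  have hcl : ∀ a : ZMod 2, IsClosed (M ∪ {z | s z = a}) := by
    intro a
    rw [← isOpen_compl_iff, isOpen_iff_mem_nhds]
    intro x hx
    rw [mem_compl_iff, mem_union, not_or] at hx
    filter_upwards [hs1 x hx.1, hMc.mem_nhds hx.1] with z p q
    rintro (h | h)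
    · exact q h
    · exact hx.2 (p.symm.trans h)
  have h01 : ∀ a : ZMod 2, a = 1 ∨ a = 0 := by decide
  have hI : (M ∪ {z | s z = 1}) ∩ (M ∪ {z | s z = 0}) = M := by
    rw [← union_inter_distrib_left]
    refine union_eq_left.2 fun z hz => ?_
    exact absurd (hz.1.symm.trans hz.2) (by decide)
  have key : ∀ (φ : OpenPartialHomeomorph E4 E4) (x : E4), x ∈ φ.source →
      (∀ y ∈ φ.source, (y ∈ M ↔ φ y 0 = 0)) →
      (∀ᶠ z in 𝓝 x, z ∉ M → s z = if 0 < φ z 0 then 1 else 0) →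
      ∃ φ : OpenPartialHomeomorph E4 E4, x ∈ φ.source ∧ ∀ y ∈ φ.source,
        (y ∈ M ∪ {z | s z = 1} ↔ 0 ≤ φ y 0) ∧ (y ∈ M ∪ {z | s z = 0} ↔ φ y 0 ≤ 0) := by
    intro φ x h1 h2 h3
    obtain ⟨W, hW, hWo, hxW⟩ := eventually_nhds_iff.1 h3
    refine ⟨φ.restrOpen W hWo, ⟨h1, hxW⟩, fun y hy => ?_⟩
    have hy1 : y ∈ φ.source := hy.1
    show (y ∈ M ∨ s y = 1 ↔ 0 ≤ φ y 0) ∧ (y ∈ M ∨ s y = 0 ↔ φ y 0 ≤ 0)
    by_cases hyM : y ∈ M
    · have h := (h2 y hy1).1 hyM
      exact ⟨⟨fun _ => h.ge, fun _ => Or.inl hyM⟩, ⟨fun _ => h.le, fun _ => Or.inl hyM⟩⟩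
    · have h4 := hW y hy.2 hyM
      rcases lt_or_gt_of_ne (fun h => hyM ((h2 y hy1).2 h)) with h | h
      · rw [if_neg (not_lt.2 h.le)] at h4
        refine ⟨⟨fun h5 => ?_, fun h5 => absurd h (not_lt.2 h5)⟩,
          ⟨fun _ => h.le, fun _ => Or.inr h4⟩⟩
        exact absurd (h4.symm.trans (h5.resolve_left hyM)) (by decide)
      · rw [if_pos h] at h4
        refine ⟨⟨fun _ => h.le, fun _ => Or.inr h4⟩,
          ⟨fun h5 => ?_, fun h5 => absurd h (not_lt.2 h5)⟩⟩
        exact absurd (h4.symm.trans (h5.resolve_left hyM)) (by decide)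
  refine ⟨M ∪ {z | s z = 1}, M ∪ {z | s z = 0}, ⟨hcl 1, hcl 0, ?_, ?_, ?_⟩, hI⟩
  · refine eq_univ_of_forall fun z => ?_
    rcases h01 (s z) with h | h
    · exact Or.inl (Or.inr h)
    · exact Or.inr (Or.inr h)
  · rintro z (h | h)
    · exact hb h
    · by_contra h'
      have h2 : s z = 1 := h
      simp only [s, if_neg h'] at h2
      exact absurd h2 (by decide)
  · intro x hx
    rw [hI] at hx
    obtain ⟨φ, h1, h2, c, h3⟩ := hβ2 x (Metric.ball_subset_closedBall (hb hx)) hx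
    have h4 : ∀ᶠ z in 𝓝 x, z ∉ M → s z = (if 0 < φ z 0 then 1 else 0) + (c - c0) := by
      filter_upwards [h3, Metric.isOpen_ball.mem_nhds (hb hx)] with z p q hz
      simp only [s, if_pos q, p hz]
      ring
    rcases h01 (c - c0) with h | h
    · refine key (φ.transHomeomorph (Homeomorph.neg E4)) x h1 (fun y hy => ?_) ?_
      · show y ∈ M ↔ -(φ y 0) = 0
        rw [neg_eq_zero]
        exact h2 y hy
      · filter_upwards [h4, φ.open_source.mem_nhds h1] with z p q hz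
        show s z = if 0 < -(φ z 0) then 1 else 0
        rw [p hz, h]
        rcases lt_or_gt_of_ne (fun h => hz ((h2 z q).2 h)) with h' | h'
        · rw [if_neg (not_lt.2 h'.le), if_pos (neg_pos.2 h')]; decide
        · rw [if_pos h', if_neg (not_lt.2 (neg_nonpos.2 h'.le))]; decide
    · refine key φ x h1 h2 (h4.mono fun z p hz => ?_)
      rw [p hz, h, add_zero]

end Pool.Agent.P.MP_3d25f3_gt
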