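import Pool.Agent.P.MP_3d25f3_gt.Stmt

set_option autoImplicit false

open Set Filter Topology

namespace Pool.Agent.P.MP_3d25f3_gt

open Module

variable {V W : Type} [AddCommGroup V] [Module ℂ V] [AddCommGroup W] [Module ℂ W]

/-- sesquilinear forms -/
abbrev SF (V : Type) [AddCommGroup V] [Module ℂ V] : Type :=
  V →ₗ[ℂ] V →ₛₗ[starRingEnd ℂ] ℂ

def Herm (B : SF V) : Prop := ∀ x y, B y x = starRingEnd ℂ (B x y)

/-- pull-back of a form -/
def cmp (B : SF V) (f : W →ₗ[ℂ] V) : SF W := (B.comp f).compl₂ f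

@[simp] lemma cmp_apply (B : SF V) (f : W →ₗ[ℂ] V) (x y : W) : cmp B f x y = B (f x) (f y) := rfl

def PosOn (B : SF V) (P : Submodule ℂ V) : Prop := ∀ x ∈ P, x ≠ 0 → 0 < (B x x).re

noncomputable def npos (B : SF V) : ℕ := sSup {r | ∃ P : Submodule ℂ V, finrank ℂ P = r ∧ PosOn B P}

/-- signature -/
noncomputable def sgn (B : SF V) : ℤ := (npos B : ℤ) - npos (-B)

/-- form with given Gram matrix -/
noncomputable def gram {ι : Type} [Fintype ι] (M : ι → ι → ℂ) : SF (ι → ℂ) :=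
  LinearMap.mk₂'ₛₗ (RingHom.id ℂ) (starRingEnd ℂ)
    (fun x y => ∑ i, ∑ j, x i * starRingEnd ℂ (y j) * M i j)
    (fun x x' y => by simp [add_mul, Finset.sum_add_distrib])
    (fun r x y => by simp [Finset.mul_sum, mul_assoc])
    (fun x y y' => by simp [add_mul, mul_add, Finset.sum_add_distrib])
    (fun r x y => by simp [Finset.mul_sum, mul_assoc, mul_left_comm])

lemma gram_apply {ι : Type} [Fintype ι] (M : ι → ι → ℂ) (x y : ι → ℂ) :
    gram M x y = ∑ i, ∑ j, x i * starRingEnd ℂ (y j) * M i j := rfl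

variable [FiniteDimensional ℂ V] [FiniteDimensional ℂ W] {B : SF V}

lemma sig_bdd (B : SF V) : BddAbove {r | ∃ P : Submodule ℂ V, finrank ℂ P = r ∧ PosOn B P} :=
  ⟨finrank ℂ V, by rintro r ⟨P, rfl, -⟩; exact Submodule.finrank_le P⟩

lemma le_npos {P : Submodule ℂ V} (h : PosOn B P) : finrank ℂ P ≤ npos B := by
  exact le_csSup (sig_bdd B) ⟨P, rfl, h⟩

lemma exists_npos (B : SF V) : ∃ P : Submodule ℂ V, finrank ℂ P = npos B ∧ PosOn B P := by
  exact Nat.sSup_mem (s := {r | ∃ P : Submodule ℂ V, finrank ℂ P = r ∧ PosOn B P})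
    ⟨_, ⊥, rfl, fun x hx hx0 => absurd ((Submodule.mem_bot ℂ).1 hx) hx0⟩ (sig_bdd B)

/-- the left orthogonal of a subspace -/
def sigOrth (B : SF V) (P : Submodule ℂ V) : Submodule ℂ V where
  carrier := {v | ∀ p ∈ P, B v p = 0}
  add_mem' := fun {a b} ha hb p hp => by
    rw [map_add, LinearMap.add_apply, ha p hp, hb p hp, add_zero]
  zero_mem' := fun p _ => by simp
  smul_mem' := fun c v hv p hp => by
    rw [map_smul, LinearMap.smul_apply, hv p hp, smul_zero]

omit [FiniteDimensional ℂ V] in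
lemma sig_mem_orth {P : Submodule ℂ V} {v : V} : v ∈ sigOrth B P ↔ ∀ p ∈ P, B v p = 0 := Iff.rfl

lemma sig_orth_dim (B : SF V) (P : Submodule ℂ V) :
    finrank ℂ V ≤ finrank ℂ (sigOrth B P) + finrank ℂ P := by
  let b := Module.finBasis ℂ P
  let φ : V →ₗ[ℂ] (Fin (finrank ℂ P) → ℂ) := LinearMap.pi fun i => B.flip (b i : V)
  have h1 : LinearMap.ker φ ≤ sigOrth B P := by
    intro v hv p hp
    have h2 : ∀ i, B v (b i : V) = 0 := fun i => congrFun (LinearMap.mem_ker.1 hv) i
    have h3 : p = ∑ i, b.repr ⟨p, hp⟩ i • (b i : V) := by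
      have := congrArg P.subtype (b.sum_repr ⟨p, hp⟩)
      rw [map_sum] at this
      exact this.symm
    rw [h3, map_sum]
    exact Finset.sum_eq_zero fun i _ => by rw [LinearMap.map_smulₛₗ, h2, smul_zero]
  have h4 := LinearMap.finrank_range_add_finrank_ker φ
  have h5 := Submodule.finrank_le (LinearMap.range φ)
  have h6 := Submodule.finrank_mono h1
  rw [Module.finrank_fin_fun] at h5
  omega

lemma sig_compl {K S : Submodule ℂ V} (h : K ≤ S) : ∃ N : Submodule ℂ V, N ≤ S ∧ K ⊓ N = ⊥ ∧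
    K ⊔ N = S ∧ finrank ℂ K + finrank ℂ N = finrank ℂ S := by
  obtain ⟨C, hC⟩ := K.exists_isCompl
  have h1 : K ⊓ (C ⊓ S) = ⊥ := by rw [← inf_assoc, hC.inf_eq_bot, bot_inf_eq]
  have h2 : K ⊔ C ⊓ S = S := by rw [← sup_inf_assoc_of_le C h, hC.sup_eq_top, top_inf_eq]
  refine ⟨C ⊓ S, inf_le_right, h1, h2, ?_⟩
  rw [← Submodule.finrank_sup_add_finrank_inf_eq, h1, h2, finrank_bot, add_zero]

omit [FiniteDimensional ℂ V] in
lemma sig_herm_zero (hB : Herm B) {x y : V} (h : B x y = 0) : B y x = 0 := by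
  rw [hB x y, h, map_zero]

omit [FiniteDimensional ℂ V] in
lemma sig_herm_neg (hB : Herm B) : Herm (-B) := fun x y => by
  simp only [LinearMap.neg_apply, map_neg, hB x y]

omit [FiniteDimensional ℂ V] in
lemma sig_expand (hB : Herm B) (x y : V) (t : ℂ) : (B (x + t • y) (x + t • y)).re =
    (B x x).re + 2 * (t * B y x).re + Complex.normSq t * (B y y).re := by
  have h1 : (B y y).im = 0 := by
    have := congrArg Complex.im (hB y y)
    rw [Complex.conj_im] at this
    linarith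
  simp only [map_add, map_smul, LinearMap.add_apply, LinearMap.smul_apply, LinearMap.map_smulₛₗ,
    smul_eq_mul, hB y x, Complex.add_re, Complex.mul_re, Complex.mul_im, Complex.conj_re,
    Complex.conj_im, Complex.normSq_apply, h1, Complex.add_im]
  ring

omit [FiniteDimensional ℂ V] in
lemma sig_semidef (hB : Herm B) {S : Submodule ℂ V} (h : ∀ y ∈ S, (B y y).re ≤ 0) {x y : V}
    (hx : x ∈ S) (hy : y ∈ S) (h0 : (B x x).re = 0) : B y x = 0 := by
  have hb := h y hy
  set b := (B y y).re with hbd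
  set ε : ℝ := (1 - b)⁻¹ with hε
  have hε0 : 0 < ε := inv_pos.2 (by linarith)
  have hε1 : ε * (1 - b) = 1 := inv_mul_cancel₀ (by linarith)
  have h1 := h _ (S.add_mem hx (S.smul_mem ((ε : ℂ) * starRingEnd ℂ (B y x)) hy))
  rw [sig_expand hB, h0, mul_assoc, ← Complex.normSq_eq_conj_mul_self, ← Complex.ofReal_mul,
    Complex.ofReal_re, map_mul, Complex.normSq_ofReal, Complex.normSq_conj, ← hbd] at h1
  have h2 := Complex.normSq_nonneg (B y x)
  have h3 : ε * Complex.normSq (B y x) * (1 + ε) ≤ 0 := by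
    have : ε * b = ε - 1 := by linarith
    calc ε * Complex.normSq (B y x) * (1 + ε)
        = 0 + 2 * (ε * Complex.normSq (B y x)) + ε * (ε * b) * Complex.normSq (B y x) := by
          rw [this]; ring
      _ = 0 + 2 * (ε * Complex.normSq (B y x)) + ε * ε * Complex.normSq (B y x) * b := by ring
      _ ≤ 0 := h1
  have h4 : Complex.normSq (B y x) ≤ 0 := by
    by_contra h5
    have h6 : 0 < ε * Complex.normSq (B y x) * (1 + ε) := by
      have := lt_of_not_ge h5
      positivity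
    linarith
  exact Complex.normSq_eq_zero.1 (le_antisymm h4 h2)

omit [FiniteDimensional ℂ V] in
lemma sig_pos_sup (hB : Herm B) {P : Submodule ℂ V} (hP : PosOn B P) {x : V}
    (hx : ∀ p ∈ P, B x p = 0) (h0 : 0 < (B x x).re) : PosOn B (P ⊔ ℂ ∙ x) ∧ P < P ⊔ ℂ ∙ x := by
  constructor
  · intro v hv hv0
    obtain ⟨p, hp, w, hw, rfl⟩ := Submodule.mem_sup.1 hv
    obtain ⟨t, rfl⟩ := Submodule.mem_span_singleton.1 hw
    rw [sig_expand hB, hx p hp, mul_zero, Complex.zero_re, mul_zero, add_zero]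
    by_cases ht : t = 0
    · subst ht
      simpa using hP p hp (by simpa using hv0)
    · have h1 : 0 < Complex.normSq t * (B x x).re := mul_pos (Complex.normSq_pos.2 ht) h0
      by_cases hp0 : p = 0
      · subst hp0; simpa using h1
      · linarith [hP p hp hp0]
  · refine lt_of_le_of_ne le_sup_left fun e => ?_
    have h1 : x ∈ P := e ▸ Submodule.mem_sup_right (Submodule.mem_span_singleton_self x)
    rw [hx x h1] at h0
    simp at h0

lemma sig_upper (hB : Herm B) {P N : Submodule ℂ V} (hP : PosOn B P) (hN : PosOn (-B) N) :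
    finrank ℂ P + finrank ℂ N + finrank ℂ (LinearMap.ker B) ≤ finrank ℂ V := by
  have h1 : N ⊓ LinearMap.ker B = ⊥ := by
    refine (Submodule.eq_bot_iff _).2 fun x hx => ?_
    by_contra h0
    have := hN x hx.1 h0
    rw [LinearMap.neg_apply, LinearMap.mem_ker.1 hx.2] at this
    simp at this
  have h2 : P ⊓ (N ⊔ LinearMap.ker B) = ⊥ := by
    refine (Submodule.eq_bot_iff _).2 fun x hx => ?_
    by_contra h0
    have h3 := hP x hx.1 h0
    obtain ⟨n, hn, k, hk, rfl⟩ := Submodule.mem_sup.1 hx.2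
    have hk0 : B k = 0 := LinearMap.mem_ker.1 hk
    have h4 := sig_expand hB n k 1
    rw [one_smul, hk0] at h4
    simp only [LinearMap.zero_apply, mul_zero, Complex.zero_re, add_zero] at h4
    rw [h4] at h3
    by_cases hn0 : n = 0
    · subst hn0; simp at h3
    · have := hN n hn hn0
      simp only [LinearMap.neg_apply, Complex.neg_re] at this
      linarith
  have h5 := Submodule.finrank_sup_add_finrank_inf_eq N (LinearMap.ker B)
  have h6 := Submodule.finrank_sup_add_finrank_inf_eq P (N ⊔ LinearMap.ker B)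
  have h7 := Submodule.finrank_le (P ⊔ (N ⊔ LinearMap.ker B))
  rw [h1, finrank_bot] at h5
  rw [h2, finrank_bot] at h6
  omega

/-- Sylvester -/
lemma npos_add (hB : Herm B) :
    npos B + npos (-B) + finrank ℂ (LinearMap.ker B) = finrank ℂ V := by
  obtain ⟨P, hPr, hP⟩ := exists_npos B
  obtain ⟨N₀, hNr, hN₀⟩ := exists_npos (-B)
  have hup := sig_upper hB hP hN₀
  have h1 : ∀ y ∈ sigOrth B P, (B y y).re ≤ 0 := by
    intro y hy
    by_contra h0
    obtain ⟨h2, h3⟩ := sig_pos_sup hB hP hy (lt_of_not_ge h0)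
    have h4 := le_npos h2
    have h5 := Submodule.finrank_lt_finrank_of_lt h3
    omega
  have h2 : P ⊓ sigOrth B P = ⊥ := by
    refine (Submodule.eq_bot_iff _).2 fun x hx => ?_
    by_contra h0
    linarith [hP x hx.1 h0, h1 x hx.2]
  have h3 := sig_orth_dim B P
  have h4 : P ⊔ sigOrth B P = ⊤ := by
    refine Submodule.eq_top_of_finrank_eq (le_antisymm (Submodule.finrank_le _) ?_)
    have := Submodule.finrank_sup_add_finrank_inf_eq P (sigOrth B P)
    rw [h2, finrank_bot] at this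
    omega
  obtain ⟨N, hN1, hN2, -, hN4⟩ := sig_compl (K := LinearMap.ker B) (S := sigOrth B P)
    fun v hv p _ => by rw [LinearMap.mem_ker.1 hv, LinearMap.zero_apply]
  have h5 : PosOn (-B) N := by
    intro x hx hx0
    simp only [LinearMap.neg_apply, Complex.neg_re]
    rcases (h1 x (hN1 hx)).lt_or_eq with h6 | h6
    · linarith
    · exfalso
      refine hx0 ((Submodule.eq_bot_iff _).1 hN2 x ⟨LinearMap.mem_ker.2 (LinearMap.ext fun v => ?_),
        hx⟩)
      obtain ⟨p, hp, w, hw, rfl⟩ := Submodule.mem_sup.1 (h4 ▸ Submodule.mem_top : v ∈ P ⊔ sigOrth B P)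
      rw [map_add, hN1 hx p hp, sig_herm_zero hB (sig_semidef hB h1 (hN1 hx) hw h6), add_zero,
        LinearMap.zero_apply]
  have h6 := le_npos h5
  omega

lemma sgn_eq (hB : Herm B) {P N : Submodule ℂ V} (hP : PosOn B P) (hN : PosOn (-B) N)
    (h : finrank ℂ V ≤ finrank ℂ P + finrank ℂ N + finrank ℂ (LinearMap.ker B)) :
    sgn B = (finrank ℂ P : ℤ) - finrank ℂ N := by
  have h1 := le_npos hP
  have h2 := le_npos hN
  have h3 := npos_add hB
  unfold sgn
  omega

omit [FiniteDimensional ℂ V] [FiniteDimensional ℂ W] in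
lemma sig_map {f : W →ₗ[ℂ] V} {P : Submodule ℂ W} (hP : PosOn (cmp B f) P) :
    PosOn B (P.map f) ∧ finrank ℂ (P.map f) = finrank ℂ P := by
  constructor
  · rintro _ ⟨x, hx, rfl⟩ h0
    exact hP x hx fun e => h0 (by rw [e, map_zero])
  · rw [← LinearMap.range_domRestrict]
    refine LinearMap.finrank_range_of_inj ((injective_iff_map_eq_zero _).2 fun x hx => ?_)
    by_contra h0
    have h1 := hP x.1 x.2 fun e => h0 (Subtype.ext e)
    have h2 : f x.1 = 0 := hx
    rw [cmp_apply, h2] at h1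
    simp at h1

lemma sig_cmp_le (B : SF V) (f : W →ₗ[ℂ] V) : npos (cmp B f) ≤ npos B := by
  obtain ⟨P, hr, hP⟩ := exists_npos (cmp B f)
  obtain ⟨h1, h2⟩ := sig_map hP
  rw [← hr, ← h2]
  exact le_npos h1

omit [FiniteDimensional ℂ V] [FiniteDimensional ℂ W] in
lemma sig_cmp_neg (B : SF V) (f : W →ₗ[ℂ] V) : -cmp B f = cmp (-B) f := by
  ext x y; rfl

lemma sig_cmp_surj (B : SF V) {f : W →ₗ[ℂ] V} (hf : Function.Surjective f) :
    npos (cmp B f) = npos B := by
  refine le_antisymm (sig_cmp_le B f) ?_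
  obtain ⟨g, hg⟩ := f.exists_rightInverse_of_surjective (LinearMap.range_eq_top.2 hf)
  have h1 : ∀ x, f (g x) = x := fun x => LinearMap.congr_fun hg x
  have h2 : cmp (cmp B f) g = B := by
    ext x y
    rw [cmp_apply, cmp_apply, h1, h1]
  have := sig_cmp_le (cmp B f) g
  rwa [h2] at this

lemma sgn_cmp_surj (B : SF V) {f : W →ₗ[ℂ] V} (hf : Function.Surjective f) :
    sgn (cmp B f) = sgn B := by
  rw [sgn, sgn, sig_cmp_neg, sig_cmp_surj B hf, sig_cmp_surj (-B) hf]

lemma sig_restr (B : SF V) (Q : Submodule ℂ V) :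
    npos B + finrank ℂ Q ≤ npos (cmp B Q.subtype) + finrank ℂ V := by
  obtain ⟨P, hr, hP⟩ := exists_npos B
  have h1 : PosOn (cmp B Q.subtype) ((P ⊓ Q).comap Q.subtype) := fun x hx h0 =>
    hP x.1 hx.1 fun e => h0 (Subtype.ext e)
  have h2 := le_npos h1
  have h3 := (Submodule.comapSubtypeEquivOfLe (inf_le_right : P ⊓ Q ≤ Q)).finrank_eq
  have h4 := Submodule.finrank_sup_add_finrank_inf_eq P Q
  have h5 := Submodule.finrank_le (P ⊔ Q)
  omega

omit [FiniteDimensional ℂ V] [FiniteDimensional ℂ W] in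
lemma sig_herm_cmp (hB : Herm B) (f : W →ₗ[ℂ] V) : Herm (cmp B f) := fun _ _ => hB _ _

/-- restriction to a subspace that contains its orthogonal -/
lemma sgn_coiso (hB : Herm B) {Q : Submodule ℂ V} (h : ∀ v, (∀ q ∈ Q, B v q = 0) → v ∈ Q) :
    sgn (cmp B Q.subtype) = sgn B := by
  have hK : LinearMap.ker B ≤ Q := fun v hv =>
    h v fun q _ => by rw [LinearMap.mem_ker.1 hv, LinearMap.zero_apply]
  obtain ⟨Q', h1, -, h3, h4⟩ := sig_compl hK
  have h5 : sigOrth B Q' ≤ sigOrth B Q := by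
    intro v hv q hq
    obtain ⟨k, hk, w, hw, rfl⟩ := Submodule.mem_sup.1 (h3 ▸ hq : q ∈ LinearMap.ker B ⊔ Q')
    have hk0 : B k v = 0 := by rw [LinearMap.mem_ker.1 hk, LinearMap.zero_apply]
    rw [map_add, hv w hw, sig_herm_zero hB hk0, add_zero]
  have h6 := Submodule.finrank_mono h5
  have h7 := sig_orth_dim B Q'
  have h8 := (Submodule.comapSubtypeEquivOfLe (show sigOrth B Q ≤ Q from h)).finrank_eq
  have h9 : (sigOrth B Q).comap Q.subtype ≤ LinearMap.ker (cmp B Q.subtype) := fun x hx =>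
    LinearMap.mem_ker.2 (LinearMap.ext fun q => hx q.1 q.2)
  have h10 := Submodule.finrank_mono h9
  have h11 := npos_add hB
  have h12 := npos_add (sig_herm_cmp hB Q.subtype)
  have h13 := sig_restr B Q
  have h14 := sig_restr (-B) Q
  rw [← sig_cmp_neg] at h14
  unfold sgn
  omega

lemma abs_sgn_le (hB : Herm B) :
    |sgn B| + finrank ℂ (LinearMap.ker B) ≤ finrank ℂ V := by
  have h1 := npos_add hB
  unfold sgn
  rcases abs_cases ((npos B : ℤ) - npos (-B)) with h | h <;> omega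

lemma sig_npos_zero (h : ∀ x, (B x x).re = 0) : npos B = 0 := by
  obtain ⟨P, hr, hP⟩ := exists_npos B
  have : P = ⊥ := (Submodule.eq_bot_iff _).2 fun x hx => by
    by_contra h0
    exact (hP x hx h0).ne' (h x)
  rw [← hr, this, finrank_bot]

lemma sgn_of_zero (h : ∀ x, (B x x).re = 0) : sgn B = 0 := by
  rw [sgn, sig_npos_zero h, sig_npos_zero (B := -B) fun x => by simp [h x]]
  simp

omit [FiniteDimensional ℂ V] in
lemma sig_npos_scale {B' : SF V} {c : ℝ} (hc : 0 < c) (h : ∀ x, (B' x x).re = c * (B x x).re) :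
    npos B' = npos B := by
  have : ∀ P, PosOn B' P ↔ PosOn B P := fun P =>
    forall_congr' fun x => forall_congr' fun _ => forall_congr' fun _ => by
      rw [h x, mul_pos_iff_of_pos_left hc]
  simp only [npos, this]

lemma sgn_of_scale {B' : SF V} {c : ℝ} (hc : 0 < c) (h : ∀ x, (B' x x).re = c * (B x x).re) :
    sgn B' = sgn B := by
  rw [sgn, sgn, sig_npos_scale hc h, sig_npos_scale (B := -B) (B' := -B') hc fun x => by
    simp [h x]]

lemma sgn_of_scale_neg {B' : SF V} {c : ℝ} (hc : c < 0) (h : ∀ x, (B' x x).re = c * (B x x).re) :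
    sgn B' = -sgn B := by
  rw [sgn, sgn, sig_npos_scale (B := -B) (B' := B') (neg_pos.2 hc) fun x => by simp [h x],
    sig_npos_scale (B := B) (B' := -B') (neg_pos.2 hc) fun x => by simp [h x]]
  ring

omit [FiniteDimensional ℂ V] in
lemma sig_sgn_neg (B : SF V) : sgn (-B) = -sgn B := by
  rw [sgn, sgn, neg_neg]; ring

lemma sig_perp_pos (hB : Herm B) (ξ : V) {Q : Submodule ℂ V} (hQ : ∀ v, v ∈ Q ↔ B ξ v = 0)
    (h0 : 0 < (B ξ ξ).re) : sgn B = sgn (cmp B Q.subtype) + 1 := by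
  obtain ⟨P, hPr, hP⟩ := exists_npos (cmp B Q.subtype)
  obtain ⟨N, hNr, hN⟩ := exists_npos (-cmp B Q.subtype)
  rw [sig_cmp_neg] at hN
  obtain ⟨hP1, hP2⟩ := sig_map hP
  obtain ⟨hN1, hN2⟩ := sig_map hN
  obtain ⟨h1, h2⟩ := sig_pos_sup hB hP1 (x := ξ) (by rintro _ ⟨q, -, rfl⟩; exact (hQ _).1 q.2) h0
  have h3 := Submodule.finrank_lt_finrank_of_lt h2
  have hξ : B ξ ξ ≠ 0 := fun e => by rw [e] at h0; simp at h0
  have hξ0 : ξ ≠ 0 := fun e => hξ (by rw [e]; simp)
  have h4 : sigOrth B (ℂ ∙ ξ) ≤ Q := fun v hv =>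
    (hQ v).2 (sig_herm_zero hB (hv ξ (Submodule.mem_span_singleton_self ξ)))
  have h5 := Submodule.finrank_mono h4
  have h6 := sig_orth_dim B (ℂ ∙ ξ)
  rw [finrank_span_singleton hξ0] at h6
  have h7 : (LinearMap.ker (cmp B Q.subtype)).map Q.subtype ≤ LinearMap.ker B := by
    rintro _ ⟨z, hz, rfl⟩
    refine LinearMap.mem_ker.2 (LinearMap.ext fun v => ?_)
    have hv : v - starRingEnd ℂ (B ξ v / B ξ ξ) • ξ ∈ Q := by
      rw [hQ, map_sub, LinearMap.map_smulₛₗ, Complex.conj_conj, smul_eq_mul,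
        div_mul_cancel₀ _ hξ, sub_self]
    have h8 : B z.1 (v - starRingEnd ℂ (B ξ v / B ξ ξ) • ξ) = 0 :=
      LinearMap.congr_fun (LinearMap.mem_ker.1 hz) ⟨_, hv⟩
    rw [map_sub, LinearMap.map_smulₛₗ, sig_herm_zero hB ((hQ _).1 z.2), smul_zero, sub_zero] at h8
    exact h8
  have h8 := Submodule.finrank_mono h7
  rw [Submodule.finrank_map_subtype_eq] at h8
  have h9 := npos_add (sig_herm_cmp hB Q.subtype)
  have h10 := npos_add hB
  have h11 := le_npos h1
  have h12 := le_npos hN1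
  have h13 := sig_restr B Q
  have h14 : Q < ⊤ := lt_top_iff_ne_top.2 fun e => hξ ((hQ ξ).1 (e ▸ Submodule.mem_top))
  have h15 := Submodule.finrank_lt_finrank_of_lt h14
  rw [finrank_top] at h15
  unfold sgn
  omega

/-- removing one vector -/
lemma sgn_perp (hB : Herm B) (ξ : V) {Q : Submodule ℂ V} (hQ : ∀ v, v ∈ Q ↔ B ξ v = 0) :
    sgn B = sgn (cmp B Q.subtype) + SignType.sign (B ξ ξ).re := by
  rcases lt_trichotomy 0 (B ξ ξ).re with h | h | h
  · rw [sign_pos h, sig_perp_pos hB ξ hQ h]; rfl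
  · have h1 : B ξ ξ = 0 := by
      have := congrArg Complex.im (hB ξ ξ)
      rw [Complex.conj_im] at this
      exact Complex.ext h.symm (by rw [Complex.zero_im]; linarith)
    rw [← h, sign_zero, sgn_coiso hB fun v hv =>
      (hQ v).2 (sig_herm_zero hB (hv ξ ((hQ ξ).2 h1)))]
    simp
  · have h1 := sig_perp_pos (sig_herm_neg hB) ξ (Q := Q) (fun v => by simp [hQ v])
      (by simpa using h)
    rw [← sig_cmp_neg, sig_sgn_neg, sig_sgn_neg] at h1
    rw [sign_neg h]
    simp only [SignType.coe_neg_one]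
    omega

end Pool.Agent.P.MP_3d25f3_gt
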