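import Pool.Agent.P.MP_3d25f3_gt.GBas
import Pool.Agent.P.MP_3d25f3_gt.AnnB

set_option autoImplicit false

open Set Filter Topology

namespace Pool.Agent.P.MP_3d25f3_gt.G

variable {g : ℕ} {S : List (ℕ × ℤ)} {R : Type} [CommRing R]

lemma solh_cov (k : ℕ) (a b : ℝ) :
    Van (1 : Cov → Cov → R) (k + 1) (univ ×ˢ Icc a b) ∅ := by
  let σ : ℝ → ℝ := fun s => max 0 (min 1 (1 - s))
  have h0 : ∀ s, 0 ≤ σ s := fun s => le_max_left _ _
  have h1 : ∀ s, σ s ≤ 1 := fun s => max_le zero_le_one (min_le_left _ _)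
  have hσ : Continuous σ := by fun_prop
  have hm : ∀ (y : Disc) (s : ℝ), ((σ s : ℂ) * y) ∈ Metric.closedBall (0 : ℂ) 1 := by
    intro y s
    rw [mem_closedBall_zero_iff, norm_mul, Complex.norm_real, Real.norm_of_nonneg (h0 s)]
    exact mul_le_one₀ (h1 s) (norm_nonneg _) (mem_closedBall_zero_iff.1 y.2)
  refine van_contr (h := fun x s => (⟨_, hm x.1 s⟩, a + σ s * (x.2 - a))) k (solh_compact a b)
    ?_ ?_ (Coc_one _) ?_ (p := (⟨0, by simp⟩, a)) ?_
  · refine Continuous.prodMk (Continuous.subtype_mk ?_ _) ?_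
    · fun_prop
    · fun_prop
  · intro x
    simp [σ]
  · rintro x ⟨-, h2, h3⟩ s -
    have := h0 s
    have := h1 s
    exact ⟨trivial, by nlinarith, by nlinarith⟩
  · intro x
    simp [σ]

lemma solh_van (k : ℕ) {a b : ℝ} (hab : b - a < 1) :
    Van (1 : Solid → Solid → R) (k + 1) (solhS a b) ∅ := by
  intro c hc
  rw [← image_empty pc] at hc ⊢
  refine emb_inj (solh_compact a b) (empty_subset _) continuous_pc ?_ (Coc_one _) hc
    (solh_cov k a b (pull_Zc (Itw_comp (1 : Solid → Solid → R) pc _)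
      (fun _ _ => continuous_pc.continuousAt) (empty_subset _) (mapsTo_image _ _)
      (mapsTo_image _ _) hc))
  rintro x ⟨-, h1, h2⟩ y ⟨-, h3, h4⟩ e
  obtain ⟨e1, n, e2⟩ := (pc_eq_iff x y).1 e
  have h5 : (n : ℝ) < 1 := by linarith
  have h6 : (-1 : ℝ) < n := by linarith
  have h7 : n = 0 := by
    have : n < 1 := by exact_mod_cast h5
    have : -1 < n := by exact_mod_cast h6
    omega
  exact Prod.ext e1 (by rw [e2, h7]; simp)

theorem van_solid : Van (1 : Solid → Solid → R) 2 univ ∅ := by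
  have h1 : Van (1 : Solid → Solid → R) 1 (solhS 0 0 ∪ solhS (1 / 2) (1 / 2)) ∅ := by
    refine van_mid 1 ((van_exc 1 (solh_closed _ _) (solh_closed _ _)).2 ?_)
      (solh_van 0 (by norm_num)) (Coc_one _) subset_union_right (empty_subset _)
    rw [solh_disj]
    exact solh_van 0 (by norm_num)
  rw [← solh_inter] at h1
  rw [← solh_union]
  exact van_mid 2 ((van_exc 2 (solh_closed _ _) (solh_closed _ _)).2
    (van_left 1 h1 (solh_van 1 (by norm_num)) (Coc_one _) inter_subset_left (empty_subset _)))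
    (solh_van 1 (by norm_num)) (Coc_one _) subset_union_right (empty_subset _)

def sqr {Z : Type} (b : List Z → R) (u : ℕ → ℕ → Z) (a c : ℕ) : R :=
  b [u a c, u (a + 1) c, u (a + 1) (c + 1)] - b [u a c, u a (c + 1), u (a + 1) (c + 1)]

/-- value of a cochain on a fine triangulation of the boundary torus -/
noncomputable def evT (g : ℕ) (S : List (ℕ × ℤ)) (b : List Solid → R) (m : ℕ) : R :=
  ∑ e ∈ Finset.range (NE g S), ∑ a ∈ Finset.range m, ∑ c ∈ Finset.range m,
    (sqr b (fun a c => pc (uA g S e m a c)) a c - sqr b (fun a c => pc (uB g S e m a c)) a c)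

lemma anna_shift {G : ℤ → R} {m : ℕ} (h : ∀ c, G (c + m) = G c) (k : ℤ) :
    ∑ c ∈ Finset.range m, G (c + k) = ∑ c ∈ Finset.range m, G c := by
  have step : ∀ k : ℤ, ∑ c ∈ Finset.range m, G (c + (k + 1)) =
      ∑ c ∈ Finset.range m, G (c + k) := by
    intro k
    rw [← sub_eq_zero, ← Finset.sum_sub_distrib]
    have h1 := Finset.sum_range_sub (fun c : ℕ => G (c + k)) m
    simp only [Nat.cast_add, Nat.cast_one, Nat.cast_zero, zero_add] at h1
    rw [add_comm (m : ℤ) k, h, sub_self] at h1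
    rw [← h1]
    refine Finset.sum_congr rfl fun c _ => ?_
    rw [show (c : ℤ) + (k + 1) = c + 1 + k by ring]
  induction k using Int.induction_on with
  | zero => simp
  | succ k ih => rw [step, ih]
  | pred k ih => rw [← ih, ← step, sub_add_cancel]

/-- sum over a fibre -/
noncomputable def annaF (a₁ : List Solid → R) (m : ℕ) (y : Disc) (z : ℝ) : R :=
  ∑ c ∈ Finset.range m, a₁ [pc (y, (c : ℝ) / m + z), pc (y, ((c + 1 : ℕ) : ℝ) / m + z)]

lemma annaF_shift (a₁ : List Solid → R) {m : ℕ} (hm : 0 < m) (y : Disc) (k : ℤ) :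
    annaF a₁ m y (k / m) = annaF a₁ m y 0 := by
  have hm0 : (m : ℝ) ≠ 0 := by exact_mod_cast hm.ne'
  have h1 := anna_shift (m := m)
    (G := fun c => a₁ [pc (y, (c : ℝ) / m), pc (y, ((c : ℝ) + 1) / m)]) (fun c => by
      have e1 : (((c + m : ℤ) : ℝ)) / m = c / m + (1 : ℤ) := by push_cast; field_simp
      have e2 : (((c + m : ℤ) : ℝ) + 1) / m = (c + 1) / m + (1 : ℤ) := by
        push_cast; field_simp; ring
      rw [e1, e2, anna_pc, anna_pc]) k
  unfold annaF
  refine Eq.trans ?_ (h1.trans ?_)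
  · refine Finset.sum_congr rfl fun c _ => ?_
    have e1 : (c : ℝ) / m + k / m = (((c : ℤ) + k : ℤ) : ℝ) / m := by push_cast; ring
    have e2 : ((c + 1 : ℕ) : ℝ) / m + k / m = ((((c : ℤ) + k : ℤ) : ℝ) + 1) / m := by
      push_cast; ring
    rw [e1, e2]
  · refine Finset.sum_congr rfl fun c _ => ?_
    simp

lemma sum_sqr_D {Z : Type} (a₁ : List Z → R) (u : ℕ → ℕ → Z) (m : ℕ) (hu : ∀ a, u a m = u a 0) :
    ∑ a ∈ Finset.range m, ∑ c ∈ Finset.range m, sqr (D 1 a₁) u a c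
      = ∑ c ∈ Finset.range m, a₁ [u m c, u m (c + 1)]
        - ∑ c ∈ Finset.range m, a₁ [u 0 c, u 0 (c + 1)] := by
  rw [← Finset.sum_range_sub (fun a => ∑ c ∈ Finset.range m, a₁ [u a c, u a (c + 1)])]
  refine Finset.sum_congr rfl fun a _ => ?_
  have h1 := Finset.sum_range_sub (fun c => a₁ [u a c, u (a + 1) c]) m
  simp only [hu, sub_self] at h1
  rw [← Finset.sum_sub_distrib, ← sub_zero (∑ c ∈ Finset.range m, (_ - _)), ← h1,
    ← Finset.sum_sub_distrib]
  refine Finset.sum_congr rfl fun c _ => ?_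
  simp only [sqr, D_three, Pi.one_apply]
  ring

lemma evT_D (hS : Data S) (a₁ : List Solid → R) {m : ℕ} (hm : 0 < m)
    (h : ∀ e < NE g S, (pr g S e).1 ∣ m) : evT g S (D 1 a₁) m = 0 := by
  have hm0 : (m : ℝ) ≠ 0 := by exact_mod_cast hm.ne'
  have h0 : annaF a₁ m (bp (LL g S) ((LL g S : ℕ) : ℝ)) 0 = annaF a₁ m (bp (LL g S) ((0 : ℕ) : ℝ)) 0 := by
    rw [(bp_eq_iff (NeZero.ne _) ((0 : ℕ) : ℝ) ((LL g S : ℕ) : ℝ)).2 ⟨1, by simp⟩]
  have h1 := tel (g := g) (S := S) fun j : ℕ => annaF a₁ m (bp (LL g S) j) 0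
  simp only [h0, sub_self] at h1
  rw [← h1, evT]
  refine Finset.sum_congr rfl fun e he => ?_
  simp only [Finset.sum_sub_distrib]
  rw [sum_sqr_D a₁ (fun a c => pc (uA g S e m a c)) m, sum_sqr_D a₁ (fun a c => pc (uB g S e m a c)) m]
  · obtain ⟨k, hk⟩ := h e (Finset.mem_range.1 he)
    have hα : (((pr g S e).1 : ℕ) : ℝ) ≠ 0 := by
      intro h2
      have h3 : (pr g S e).1 = 0 := by exact_mod_cast h2
      rw [h3, zero_mul] at hk
      omega
    have hk0 : (k : ℝ) ≠ 0 := by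
      intro h2
      have h3 : k = 0 := by exact_mod_cast h2
      rw [h3, mul_zero] at hk
      omega
    have hsh : sh g S e = (((pr g S e).2 * k : ℤ) : ℝ) / m := by
      have h2 : (m : ℝ) = (pr g S e).1 * k := by exact_mod_cast hk
      rw [sh, h2]
      push_cast
      field_simp
    have hw : ((st g e + wd g e - 1 : ℕ) : ℝ) = st g e + wd g e - 1 := by
      have := wd_ge (g := g) e
      rw [Nat.cast_sub (by omega)]
      push_cast
      ring
    have h2 := annaF_shift a₁ hm (bp (LL g S) (st g e + wd g e - 1)) ((pr g S e).2 * k)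
    rw [← hsh] at h2
    rw [hw, ← h2]
    simp only [annaF, uA, uB, ga, gb, div_self hm0, Nat.cast_zero, zero_div, add_zero, sub_zero,
      zero_mul, one_mul, Nat.cast_add, Nat.cast_one]
    ring
  · intro a
    simp only [uB, gb, div_self hm0, Nat.cast_zero, zero_div, anna_pc1]
  · intro a
    have := anna_pc1 (bp (LL g S) (st g e + a / m)) 0
    simp only [uA, ga, div_self hm0, Nat.cast_zero, zero_div]
    simpa using this

lemma evT_pull (c : List (Seifert g S) → R) (m : ℕ) : evT g S (pull (pm g S) 1 c) m = 0 := by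
  refine Finset.sum_eq_zero fun e he => Finset.sum_eq_zero fun a ha =>
    Finset.sum_eq_zero fun c' _ => ?_
  have ha' := Finset.mem_range.1 ha
  have hm0 : (0 : ℝ) < m := by exact_mod_cast (show 0 < m by omega)
  have key : ∀ a ≤ m, ∀ c', pm g S (pc (uB g S e m a c')) = pm g S (pc (uA g S e m a c')) :=
    fun a ha c' => pp_glue (Finset.mem_range.1 he)
      ⟨by positivity, (div_le_one hm0).2 (by exact_mod_cast ha)⟩ _
  simp only [sqr, pull_cons, List.map_cons, List.map_nil, key a ha'.le, key (a + 1) ha',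
    Pi.one_apply, sub_self]

lemma evT_lin (a b : R) (c c' : List Solid → R) (m : ℕ) :
    evT g S (a • c + b • c') m = a * evT g S c m + b * evT g S c' m := by
  simp only [evT, Finset.mul_sum, ← Finset.sum_add_distrib]
  refine Finset.sum_congr rfl fun e _ => Finset.sum_congr rfl fun i _ =>
    Finset.sum_congr rfl fun j _ => ?_
  simp only [sqr, Pi.add_apply, Pi.smul_apply, smul_eq_mul]
  ring

lemma evT_Null {c : List Solid → R} (hc : c ∈ Null R 2 (univ : Set Solid)) :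
    ∃ m₀, ∀ m ≥ m₀, evT g S c m = 0 := by
  obtain ⟨m₀, h⟩ := fine (g := g) (S := S) (P := fun U => ∀ x ∈ U, ∀ y ∈ U, ∀ z ∈ U,
      c [pc x, pc y, pc z] = 0) fun y => by
    obtain ⟨U, hU, h⟩ := hc (pc y) (mem_univ _)
    refine ⟨pc ⁻¹' U, continuous_pc.continuousAt.preimage_mem_nhds hU,
      fun x hx y hy z hz => h _ rfl ?_⟩
    simp only [List.mem_cons, List.not_mem_nil, or_false]
    rintro _ (rfl | rfl | rfl)
    exacts [hx, hy, hz]
  refine ⟨m₀, fun m hm => Finset.sum_eq_zero fun e he => Finset.sum_eq_zero fun a ha =>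
    Finset.sum_eq_zero fun c' hc' => ?_⟩
  obtain ⟨⟨U, hU, h1⟩, V, hV, h2⟩ := h m hm e (Finset.mem_range.1 he) a
    (Finset.mem_range.1 ha).le c' (Finset.mem_range.1 hc').le
  have a1 := hU _ (h1 0 zero_le_one 0 zero_le_one) _ (h1 1 le_rfl 0 zero_le_one) _
    (h1 1 le_rfl 1 le_rfl)
  have a2 := hU _ (h1 0 zero_le_one 0 zero_le_one) _ (h1 0 zero_le_one 1 le_rfl) _
    (h1 1 le_rfl 1 le_rfl)
  have a3 := hV _ (h2 0 zero_le_one 0 zero_le_one) _ (h2 1 le_rfl 0 zero_le_one) _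
    (h2 1 le_rfl 1 le_rfl)
  have a4 := hV _ (h2 0 zero_le_one 0 zero_le_one) _ (h2 0 zero_le_one 1 le_rfl) _
    (h2 1 le_rfl 1 le_rfl)
  simp only [add_zero] at a1 a2 a3 a4
  simp only [sqr, a1, a2, a3, a4, sub_self]

lemma annb_pullD (c : List (Seifert g S) → R) :
    D (1 : Solid → Solid → R) (pull (pm g S) 1 c) = pull (pm g S) 1 (D 1 c) :=
  pull_D_eq (1 : Seifert g S → Seifert g S → R) (pm g S) c

theorem ev_zero (hS : Data S) {w : List (Seifert g S) → R} {b : List Solid → R}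
    (hb : D 1 b - pull (pm g S) 1 w ∈ Null R 3 univ)
    (hw : w ∈ Bc (1 : Seifert g S → Seifert g S → R) 3 univ ∅) :
    ∃ m₀, ∀ m ≥ m₀, 0 < m → (∀ e < NE g S, (pr g S e).1 ∣ m) → evT g S b m = 0 := by
  obtain ⟨c, -, hc⟩ := mem_Bc.1 hw
  have h1 : pull (pm g S) 1 (w - D 1 c) ∈ Null R 3 (univ : Set Solid) :=
    pull_Null 1 (fun x _ => continuous_pm.continuousAt) (mapsTo_univ _ _) hc
  have h2 : b - pull (pm g S) 1 c ∈ Zc (1 : Solid → Solid → R) 2 univ ∅ := by
    refine mem_Zc.2 ⟨by simp, ?_⟩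
    have h3 := add_mem hb h1
    have h4 : D 1 (b - pull (pm g S) 1 c)
        = D 1 b - pull (pm g S) 1 w + pull (pm g S) 1 (w - D 1 c) := by
      rw [map_sub, map_sub, annb_pullD]
      abel
    rw [h4]
    exact h3
  obtain ⟨a, -, ha⟩ := mem_Bc.1 (van_solid h2)
  obtain ⟨m₁, hm₁⟩ := evT_Null (g := g) (S := S) ha
  refine ⟨m₁, fun m hm hpos hd => ?_⟩
  have e2 := hm₁ m hm
  have e3 := evT_D hS a hpos hd
  have e4 := evT_pull (g := g) (S := S) c m
  have e5 := evT_lin (g := g) (S := S) 1 (-1) b (pull (pm g S) 1 c) m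
  have e6 := evT_lin (g := g) (S := S) 1 (-1) (b - pull (pm g S) 1 c) (D 1 a) m
  have r5 : (1 : R) • b + (-1 : R) • pull (pm g S) 1 c = b - pull (pm g S) 1 c := by
    rw [one_smul, neg_one_smul, sub_eq_add_neg]
  have r6 : (1 : R) • (b - pull (pm g S) 1 c) + (-1 : R) • D 1 a
      = b - pull (pm g S) 1 c - D 1 a := by
    rw [one_smul, neg_one_smul, ← sub_eq_add_neg]
  rw [r5] at e5
  rw [r6, e2, e3, e5, e4] at e6
  linear_combination -e6

end Pool.Agent.P.MP_3d25f3_gt.G
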