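import Pool.Agent.P.MP_3d25f3_gt.NtA

set_option autoImplicit false

open Set Filter Topology

namespace Pool.Agent.P.MP_3d25f3_gt.G

/-- `2 ((k β / α))` -/
def jq (q : ℕ × ℤ) (k : ℤ) : ℚ := 2 * saw (k * q.2 / q.1)

/-- the cumulative sum -/
def cum (q : ℕ × ℤ) (x : ℤ) : ℚ :=
  ∑ j ∈ Finset.range (x % q.1).toNat, (jq q j + jq q (j + 1))

lemma tcum_jmp (q : ℕ × ℤ) (k : ℤ) : jq q k = jmp [q] k := by
  rw [nta_cons]; simp [jq, jmp]

lemma jq_zero (q : ℕ × ℤ) : jq q 0 = 0 := by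
  rw [tcum_jmp, nta_zero]

lemma jq_congr {q : ℕ × ℤ} {x y : ℤ} (h : x ≡ y [ZMOD q.1]) : jq q x = jq q y := by
  have h1 : ∀ q' ∈ [q], (q'.1 : ℤ) ∣ y - x := fun q' hq' => by
    rw [List.mem_singleton.1 hq']; exact h.dvd
  rw [tcum_jmp, tcum_jmp, ← jmp_add h1 x]
  congr 1; ring

lemma jq_neg (α : ℕ) {β β' : ℤ} (h : (α : ℤ) ∣ β + β') (k : ℤ) :
    jq (α, β) k + jq (α, β') k = 0 := by
  obtain ⟨c, hc⟩ := h
  unfold jq
  by_cases h0 : (α : ℚ) = 0
  · simp [h0, saw]
  · have e : β' = α * c - β := by rw [← hc]; ring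
    have e2 : (k : ℚ) * β' / α = -(k * β / α) + ((k * c : ℤ) : ℚ) := by
      rw [e]; push_cast; field_simp; ring
    simp only []
    rw [e2, saw_add_int, saw_neg]; ring

lemma jq_mul {c : ℕ} (hc : 0 < c) (m : ℕ) (β k : ℤ) : jq (c * m, β) (c * k) = jq (m, β) k := by
  have h0 : (c : ℚ) ≠ 0 := Nat.cast_ne_zero.2 hc.ne'
  unfold jq
  simp only []
  congr 2
  push_cast
  rw [mul_assoc, mul_div_mul_left _ _ h0]

lemma cum_zero (q : ℕ × ℤ) : cum q 0 = 0 := by
  simp [cum]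

lemma cum_congr {q : ℕ × ℤ} {x y : ℤ} (h : x ≡ y [ZMOD q.1]) : cum q x = cum q y := by
  unfold cum
  rw [show x % q.1 = y % q.1 from h]

lemma tcum_sum (q : ℕ × ℤ) (n : ℕ) :
    ∑ j ∈ Finset.range n, (jq q j + jq q (j + 1)) = 2 * ∑ j ∈ Finset.range n, jq q j + jq q n := by
  induction n with
  | zero => simp [jq_zero]
  | succ n ih => rw [Finset.sum_range_succ, Finset.sum_range_succ, ih]; push_cast; ring

lemma tcum_period (q : ℕ × ℤ) : ∑ j ∈ Finset.range q.1, (jq q j + jq q (j + 1)) = 0 := by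
  have h1 : ∑ j ∈ Finset.range q.1, jq q j = 0 := by
    simp only [tcum_jmp]
    exact nta_period fun q' hq' => by rw [List.mem_singleton.1 hq']
  have h2 : jq q (q.1 : ℕ) = 0 := by
    rw [← jq_zero q]
    exact jq_congr (Int.modEq_zero_iff_dvd.2 dvd_rfl)
  rw [tcum_sum, h1, h2]; ring

lemma cum_succ {q : ℕ × ℤ} (hq : 0 < q.1) (x : ℤ) :
    cum q (x + 1) = cum q x + (jq q x + jq q (x + 1)) := by
  have ha : (0 : ℤ) < q.1 := Int.natCast_pos.2 hq
  have h0 := Int.emod_nonneg x ha.ne'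
  have h1 := Int.emod_lt_of_pos x ha
  obtain ⟨n, hn⟩ := Int.eq_ofNat_of_zero_le h0
  have hx : (n : ℤ) ≡ x [ZMOD q.1] := by rw [← hn]; exact Int.mod_modEq x _
  have e : cum q x + (jq q x + jq q (x + 1)) =
      ∑ j ∈ Finset.range (n + 1), (jq q j + jq q (j + 1)) := by
    rw [Finset.sum_range_succ, jq_congr hx, jq_congr (hx.add_right 1), cum, hn, Int.toNat_natCast]
  rw [e, cum_congr (hx.add_right 1).symm]
  rcases (show (n : ℤ) + 1 < q.1 ∨ (n : ℤ) + 1 = q.1 by omega) with h2 | h2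
  · rw [cum, Int.emod_eq_of_lt (by omega) h2, show ((n : ℤ) + 1).toNat = n + 1 by omega]
  · rw [show n + 1 = q.1 by omega, tcum_period, h2, cum, Int.emod_self]
    simp

lemma cum_add {q : ℕ × ℤ} (hq : 0 < q.1) (x : ℤ) (m : ℕ) :
    cum q (x + m) = cum q x + ∑ j ∈ Finset.range m, (jq q (x + j) + jq q (x + j + 1)) := by
  induction m with
  | zero => simp
  | succ m ih =>
    rw [Finset.sum_range_succ, ← add_assoc, ← ih, ← cum_succ hq]
    congr 1; push_cast; ring

lemma cum_nat {q : ℕ × ℤ} (hq : 0 < q.1) (k : ℕ) :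
    cum q k = 2 * ∑ j ∈ Finset.range k, jq q j + jq q k := by
  have h := cum_add hq 0 k
  simp only [zero_add, cum_zero] at h
  rw [h, tcum_sum]

lemma cum_neg (α : ℕ) {β β' : ℤ} (h : (α : ℤ) ∣ β + β') (k : ℤ) :
    cum (α, β) k + cum (α, β') k = 0 := by
  unfold cum
  rw [← Finset.sum_add_distrib]
  refine Finset.sum_eq_zero fun j _ => ?_
  have h1 := jq_neg α h j
  have h2 := jq_neg α h (j + 1)
  linarith

lemma tcum_perm {c : ℕ} (hc : 0 < c) {β : ℤ} (hβ : IsCoprime (c : ℤ) β) (f : ℤ → ℚ)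
    (hf : ∀ x y, x ≡ y [ZMOD c] → f x = f y) (n : ℤ) :
    ∑ t ∈ Finset.range c, f (n + t * β) = ∑ t ∈ Finset.range c, f t := by
  have : NeZero c := ⟨hc.ne'⟩
  have h1 : ∀ g : ZMod c → ℚ, ∑ t ∈ Finset.range c, g t = ∑ z, g z := fun g =>
    Finset.sum_nbij' (fun t => (t : ZMod c)) ZMod.val (fun _ _ => Finset.mem_univ _)
      (fun z _ => Finset.mem_range.2 (ZMod.val_lt z))
      (fun t ht => ZMod.val_cast_of_lt (Finset.mem_range.1 ht))
      (fun z _ => ZMod.natCast_zmod_val z) fun _ _ => rfl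
  have h2 : ∀ k : ℤ, f ((k : ZMod c).val) = f k := fun k => hf _ _ (by
    rw [ZMod.val_intCast]; exact Int.mod_modEq k _)
  obtain ⟨a, b, hab⟩ := hβ
  have hu : (β : ZMod c) * b = 1 := by
    have := congrArg (Int.cast : ℤ → ZMod c) hab
    push_cast at this
    rw [ZMod.natCast_self, mul_zero, zero_add, mul_comm] at this
    exact this
  let e : ZMod c ≃ ZMod c :=
    { toFun := fun z => n + z * β
      invFun := fun z => (z - n) * b
      left_inv := fun z => by simp only []; rw [add_sub_cancel_left, mul_assoc, hu, mul_one]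
      right_inv := fun z => by simp only []; rw [mul_assoc, mul_comm (b : ZMod c), hu]; ring }
  calc ∑ t ∈ Finset.range c, f (n + t * β)
      = ∑ t ∈ Finset.range c, f (e (t : ZMod c)).val := by
        refine Finset.sum_congr rfl fun t _ => ?_
        rw [← h2]
        congr 3
        simp [e]
    _ = ∑ z, f (e z).val := h1 fun z => f (e z).val
    _ = ∑ z : ZMod c, f z.val := e.sum_comp fun z => f z.val
    _ = ∑ t ∈ Finset.range c, f ((t : ZMod c)).val := (h1 fun z => f z.val).symm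
    _ = _ := Finset.sum_congr rfl fun t ht => by
        rw [ZMod.val_cast_of_lt (Finset.mem_range.1 ht)]

lemma tcum_gauss (n : ℕ) : ∑ t ∈ Finset.range n, (t : ℚ) = n * (n - 1) / 2 := by
  induction n with
  | zero => simp
  | succ n ih => rw [Finset.sum_range_succ, ih]; push_cast; ring

lemma tcum_herm {c : ℕ} (hc : 0 < c) {w : ℚ} (h0 : 0 ≤ w) (h1 : w < 1) :
    ∑ t ∈ Finset.range c, saw ((w + t) / c) = saw w := by
  have hc' : (0 : ℚ) < c := Nat.cast_pos.2 hc
  have hf : ∀ t ∈ Finset.range c, Int.fract ((w + t) / c) = (w + t) / c := fun t ht => by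
    have h2 : (t : ℚ) + 1 ≤ c := by exact_mod_cast Finset.mem_range.1 ht
    refine Int.fract_eq_self.2 ⟨by positivity, ?_⟩
    rw [div_lt_one hc']; linarith
  have hs : ∑ t ∈ Finset.range c, ((w + t) / c - 1 / 2) = w - 1 / 2 := by
    rw [Finset.sum_sub_distrib, ← Finset.sum_div, Finset.sum_add_distrib, tcum_gauss]
    simp only [Finset.sum_const, Finset.card_range, nsmul_eq_mul]
    field_simp; ring
  have hw : Int.fract w = w := Int.fract_eq_self.2 ⟨h0, h1⟩
  rcases h0.eq_or_lt with e | e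
  · subst e
    obtain ⟨c, rfl⟩ := Nat.exists_eq_add_one_of_ne_zero hc.ne'
    rw [Finset.sum_range_succ'] at hs ⊢
    have h3 : ∑ t ∈ Finset.range c, saw ((0 + ((t + 1 : ℕ) : ℚ)) / (c + 1 : ℕ)) =
        ∑ t ∈ Finset.range c, ((0 + ((t + 1 : ℕ) : ℚ)) / (c + 1 : ℕ) - 1 / 2) := by
      refine Finset.sum_congr rfl fun t ht => ?_
      have h4 := hf (t + 1) (Finset.mem_range.2 (Nat.succ_lt_succ (Finset.mem_range.1 ht)))
      rw [saw, h4, if_neg (by positivity)]
    rw [h3]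
    simp only [Nat.cast_zero, add_zero, zero_div] at hs ⊢
    linarith
  · rw [saw, hw, if_neg e.ne', ← hs]
    refine Finset.sum_congr rfl fun t ht => ?_
    rw [saw, hf t ht, if_neg (by positivity)]

/-- distribution relation -/
lemma jq_dist {c m : ℕ} (hc : 0 < c) (hm : 0 < m) {β : ℤ} (hβ : IsCoprime (c : ℤ) β) (x : ℤ) :
    ∑ t ∈ Finset.range c, jq (c * m, β) (x + t * m) = jq (m, β) x := by
  have hc' : (c : ℚ) ≠ 0 := Nat.cast_ne_zero.2 hc.ne'
  have hm' : (m : ℚ) ≠ 0 := Nat.cast_ne_zero.2 hm.ne'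
  set y : ℚ := x * β / m with hy
  have h1 := tcum_perm hc hβ (fun k => saw ((Int.fract y + k) / c)) (fun k k' hk => by
    obtain ⟨d, hd⟩ := hk.dvd
    have e : k' = k + c * d := by rw [← hd]; ring
    rw [e, ← saw_add_int _ d]
    congr 1; push_cast; field_simp; ring) ⌊y⌋
  have h2 := tcum_herm hc (Int.fract_nonneg y) (Int.fract_lt_one y)
  have h3 : saw (Int.fract y) = saw y := by simp only [saw, Int.fract_fract]
  simp only [Int.cast_natCast] at h1
  unfold jq
  rw [← Finset.mul_sum]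
  simp only []
  rw [← hy, ← h3, ← h2, ← h1]
  congr 1
  refine Finset.sum_congr rfl fun t _ => ?_
  congr 1
  push_cast
  rw [← add_assoc, Int.fract_add_floor, hy]
  field_simp

end Pool.Agent.P.MP_3d25f3_gt.G
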