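import Pool.Agent.P.MP_3d25f3_gt.TLag
import Pool.Agent.P.MP_3d25f3_gt.TCum

set_option autoImplicit false

open Set Filter Topology

namespace Pool.Agent.P.MP_3d25f3_gt.G

variable {p a : ℕ} {I : Finset ℕ} {e : ℕ → ℕ} {β : ℕ → ℤ} {L L' : AddSubgroup (ℕ → ℤ)}

/-- averaging over a subgroup -/
theorem avg {Q : ℕ} (hQ : 0 < Q) (L : AddSubgroup (ℕ → ℤ)) (F : ℕ → ℤ → ℚ)
    (hF : ∀ i ∈ I, ∀ x y, x ≡ y [ZMOD Q] → F i x = F i y) {C : Finset ℕ} (hC : C ⊆ I) (m : ℤ)
    (h0 : ∀ y ∈ L, ∑ i ∈ I, F i (y i + m) = ∑ i ∈ I, F i (y i))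
    (h1 : ∀ i ∈ C, ∀ y ∈ L, F i (y i + m) = F i m ∧ F i (y i) = F i 0)
    (h2 : ∀ i ∈ I, i ∉ C → ∃ z ∈ L, ∀ x, F i (x + m) = F i (x + z i)) :
    ∑ i ∈ C, F i m = ∑ i ∈ C, F i 0 := by
  classical
  have : NeZero Q := ⟨hQ.ne'⟩
  let red : (ℕ → ℤ) →+ (I → ZMod Q) :=
    { toFun := fun y i => ((y i : ℤ) : ZMod Q)
      map_zero' := by ext i; simp
      map_add' := by intro y z; ext i; simp }
  have hred : ∀ (y : ℕ → ℤ) (i : I), red y i = ((y i : ℤ) : ZMod Q) := fun _ _ => rfl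
  let G := L.map red
  have : Fintype G := Fintype.ofFinite G
  have hs : ∀ g : G, ∃ y ∈ L, red y = g := fun g => AddSubgroup.mem_map.1 g.2
  choose s hsL hsr using hs
  have hsum : ∑ i ∈ I, ∑ g : G, (F i (s g i + m) - F i (s g i)) = 0 := by
    rw [Finset.sum_comm]
    apply Finset.sum_eq_zero
    intro g _
    rw [Finset.sum_sub_distrib, h0 _ (hsL g), sub_self]
  have hoff : ∀ i ∈ I, i ∉ C → ∑ g : G, (F i (s g i + m) - F i (s g i)) = 0 := by
    intro i hi hiC
    obtain ⟨z, hz, hzF⟩ := h2 i hi hiC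
    let zG : G := ⟨red z, AddSubgroup.mem_map_of_mem _ hz⟩
    have h3 : ∀ g : G, F i (s g i + m) = F i (s (g + zG) i) := by
      intro g
      rw [hzF]
      apply hF i hi
      have e1 := congrFun (hsr (g + zG)) ⟨i, hi⟩
      have e2 := congrFun (hsr g) ⟨i, hi⟩
      have e3 : ((g + zG : G) : I → ZMod Q) ⟨i, hi⟩
          = (g : I → ZMod Q) ⟨i, hi⟩ + ((z i : ℤ) : ZMod Q) := rfl
      rw [hred] at e1 e2
      rw [e3, ← e2] at e1
      apply (ZMod.intCast_eq_intCast_iff _ _ _).1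
      push_cast
      exact e1.symm
    rw [Finset.sum_sub_distrib, sub_eq_zero, Finset.sum_congr rfl (fun g _ => h3 g)]
    exact Equiv.sum_comp (Equiv.addRight zG) (fun g => F i (s g i))
  have hon : ∀ i ∈ C, ∑ g : G, (F i (s g i + m) - F i (s g i))
      = (Fintype.card G : ℚ) * (F i m - F i 0) := by
    intro i hi
    have h4 : ∀ g : G, F i (s g i + m) - F i (s g i) = F i m - F i 0 := by
      intro g
      rw [(h1 i hi _ (hsL g)).1, (h1 i hi _ (hsL g)).2]
    rw [Finset.sum_congr rfl (fun g _ => h4 g), Finset.sum_const, Finset.card_univ, nsmul_eq_mul]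
  rw [← Finset.sum_subset hC (fun i hi hiC => hoff i hi hiC), Finset.sum_congr rfl hon,
    ← Finset.mul_sum] at hsum
  have hc : (Fintype.card G : ℚ) ≠ 0 := by exact_mod_cast Fintype.card_ne_zero
  have h5 := (mul_eq_zero.1 hsum).resolve_left hc
  rw [Finset.sum_sub_distrib] at h5
  linarith

open Classical in
theorem Lag.per (h : Lag p a I e β L L')
    (H1 : ∀ y ∈ L, ∀ k k' : ℤ, ¬ (p : ℤ) ∣ k → ¬ (p : ℤ) ∣ k' →
      ∑ i ∈ I, cum (p ^ e i, β i) (p * y i + k) = ∑ i ∈ I, cum (p ^ e i, β i) (p * y i + k'))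
    {j : ℕ} (hj : j ∈ I) (he : 2 ≤ e j) {k : ℤ} (hk : ¬ (p : ℤ) ∣ k) :
    ∑ i ∈ I.filter (fun i => e i = e j ∧ ∀ y ∈ L, (p : ℤ) ^ (e j - 1) ∣ y i - y j),
        cum (p ^ e i, β i) (k + (p : ℤ) ^ (e j - 1))
      = ∑ i ∈ I.filter (fun i => e i = e j ∧ ∀ y ∈ L, (p : ℤ) ^ (e j - 1) ∣ y i - y j),
        cum (p ^ e i, β i) k := by
  have hp : Prime (p : ℤ) := Nat.prime_iff_prime_int.1 h.prime
  have hcong : ∀ (i : ℕ) (x y : ℤ), (p : ℤ) ^ e i ∣ y - x →
      cum (p ^ e i, β i) x = cum (p ^ e i, β i) y := by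
    intro i x y hxy
    apply cum_congr
    apply Int.modEq_iff_dvd.2
    simpa using hxy
  let M : AddSubgroup (ℕ → ℤ) :=
    { carrier := {w | ∃ y ∈ L, (p : ℤ) ^ (e j - 1) ∣ y j ∧ w = fun i => (p : ℤ) * y i}
      zero_mem' := ⟨0, L.zero_mem, by simp, by ext i; simp⟩
      add_mem' := by
        rintro _ _ ⟨y, hy, hy1, rfl⟩ ⟨z, hz, hz1, rfl⟩
        refine ⟨y + z, L.add_mem hy hz, dvd_add hy1 hz1, ?_⟩
        ext i
        simp [mul_add]
      neg_mem' := by
        rintro _ ⟨y, hy, hy1, rfl⟩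
        refine ⟨-y, L.neg_mem hy, (dvd_neg).2 hy1, ?_⟩
        ext i
        simp }
  have hM : ∀ w, w ∈ M ↔ ∃ y ∈ L, (p : ℤ) ^ (e j - 1) ∣ y j ∧ w = fun i => (p : ℤ) * y i :=
    fun _ => Iff.rfl
  have hpm : (p : ℤ) ∣ (p : ℤ) ^ (e j - 1) := dvd_pow_self _ (by omega)
  have hQ : 0 < p ^ a := pow_pos h.prime.pos a
  have key := avg (I := I) hQ M (fun i x => cum (p ^ e i, β i) (x + k))
    (by
      intro i hi x y hxy
      apply hcong
      have h1 := Int.modEq_iff_dvd.1 hxy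
      have h2 : (p : ℤ) ^ e i ∣ (p : ℤ) ^ a := pow_dvd_pow _ (h.lev i hi).2
      have h3 : y + k - (x + k) = y - x := by ring
      rw [h3]
      refine h2.trans ?_
      simpa using h1)
    (C := I.filter (fun i => e i = e j ∧ ∀ y ∈ L, (p : ℤ) ^ (e j - 1) ∣ y i - y j))
    (Finset.filter_subset _ _) ((p : ℤ) ^ (e j - 1))
    (by
      intro w hw
      obtain ⟨y, hy, -, rfl⟩ := (hM w).1 hw
      have h1 : ¬ (p : ℤ) ∣ (p : ℤ) ^ (e j - 1) + k := fun h2 => hk ((dvd_add_right hpm).1 h2)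
      have h2 := H1 y hy _ k h1 hk
      simpa only [add_assoc] using h2)
    (by
      intro i hi w hw
      obtain ⟨y, hy, hy1, rfl⟩ := (hM w).1 hw
      obtain ⟨-, hi1, hi2⟩ := Finset.mem_filter.1 hi
      have h1 : (p : ℤ) ^ (e j - 1) ∣ y i := by
        have h2 := dvd_add (hi2 y hy) hy1
        simpa using h2
      have h2 : (p : ℤ) ^ e i ∣ (p : ℤ) * y i := by
        have h3 : e i = (e j - 1) + 1 := by omega
        rw [h3, pow_succ']
        exact mul_dvd_mul_left _ h1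
      constructor
      · apply hcong
        have h3 : (p : ℤ) ^ (e j - 1) + k - (p * y i + (p : ℤ) ^ (e j - 1) + k) = -(p * y i) := by
          ring
        rw [h3]
        exact (dvd_neg).2 h2
      · apply hcong
        have h3 : (0 : ℤ) + k - (p * y i + k) = -(p * y i) := by ring
        rw [h3]
        exact (dvd_neg).2 h2)
    (by
      intro i hi hiC
      by_cases hlt : e i < e j
      · refine ⟨0, M.zero_mem, fun x => ?_⟩
        apply hcong
        have h3 : x + (0 : ℕ → ℤ) i + k - (x + (p : ℤ) ^ (e j - 1) + k)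
            = -(p : ℤ) ^ (e j - 1) := by
          simp only [Pi.zero_apply]
          ring
        rw [h3]
        exact (dvd_neg).2 (pow_dvd_pow _ (by omega))
      · have hex : ∃ y ∈ L, ¬ (p : ℤ) ^ (e j - 1) ∣ y i - y j := by
          by_contra hno
          have hall : ∀ y ∈ L, (p : ℤ) ^ (e j - 1) ∣ y i - y j := by
            intro y hy
            by_contra h4
            exact hno ⟨y, hy, h4⟩
          apply hiC
          refine Finset.mem_filter.2 ⟨hi, ?_, hall⟩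
          by_cases hij : i = j
          · rw [hij]
          · exact (h.pair hi hj hij (d := e j - 1) (by omega) (by omega) (by omega) hall).1
        obtain ⟨y, hy, hy1⟩ := hex
        have hu : y i - y j ≠ 0 := fun h4 => hy1 (by rw [h4]; exact dvd_zero _)
        obtain ⟨v, w, hw, hvw⟩ := WfDvdMonoid.max_power_factor hu hp.irreducible
        have hv : v < e j - 1 := by
          by_contra h4
          apply hy1
          rw [hvw]
          exact Dvd.dvd.mul_right (pow_dvd_pow _ (by omega)) _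
        have hco : IsCoprime ((p : ℤ) ^ e i) w :=
          ((hp.irreducible.coprime_iff_not_dvd).2 hw).pow_left
        obtain ⟨s, t, hst⟩ := hco
        obtain ⟨n, hn⟩ : ∃ n, e j - 1 = n + v + 1 := ⟨e j - 2 - v, by omega⟩
        have hy' : (t * (p : ℤ) ^ n) • (y - y j • (fun _ => (1 : ℤ))) ∈ L :=
          L.zsmul_mem (L.sub_mem hy (L.zsmul_mem h.one _)) _
        refine ⟨_, (hM _).2 ⟨_, hy', by simp, rfl⟩, fun x => ?_⟩
        apply hcong
        refine ⟨-(s * (p : ℤ) ^ (e j - 1)), ?_⟩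
        simp only [Pi.smul_apply, Pi.sub_apply, smul_eq_mul, mul_one]
        rw [hvw, hn]
        have h5 : (p : ℤ) ^ (n + v + 1) = p ^ n * p ^ v * p := by ring
        rw [h5]
        linear_combination ((p : ℤ) ^ n * p ^ v * p) * hst)
  simpa only [zero_add, add_comm k] using key

end Pool.Agent.P.MP_3d25f3_gt.G
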