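import Pool.Agent.P.MP_3d25f3_gt.TDesc

set_option autoImplicit false

open Set Filter Topology

namespace Pool.Agent.P.MP_3d25f3_gt.G

variable {g : ℕ} {S : List (ℕ × ℤ)}

/-- a step at the position `c`, winding at the position itself -/
noncomputable def tcls_ph {Γ : Type} [CommRing Γ] (c : ℝ) (a : ℕ) (t v : Γ) (w z : ℝ) : Γ :=
  if w < c then 0 else if w = c then t * ((⌊(a : ℝ) * z⌋ : ℤ) : Γ) else v

lemma tcls_lo {Γ : Type} [CommRing Γ] {c w : ℝ} (a : ℕ) (t v : Γ) (z : ℝ) (h : w < c) :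
    tcls_ph c a t v w z = 0 := if_pos h

lemma tcls_hi {Γ : Type} [CommRing Γ] {c w : ℝ} (a : ℕ) (t v : Γ) (z : ℝ) (h : c < w) :
    tcls_ph c a t v w z = v := by
  unfold tcls_ph
  rw [if_neg (not_lt.2 h.le), if_neg h.ne']

lemma tcls_mid {Γ : Type} [CommRing Γ] (c : ℝ) (a : ℕ) (t v : Γ) (z : ℝ) :
    tcls_ph c a t v c z = t * ((⌊(a : ℝ) * z⌋ : ℤ) : Γ) := by
  unfold tcls_ph
  rw [if_neg (lt_irrefl c), if_pos rfl]

lemma tcls_per {Γ : Type} [CommRing Γ] (c : ℝ) {a : ℕ} {t : Γ} (v : Γ) (w z : ℝ)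
    (h : t * (a : Γ) = 0) : tcls_ph c a t v w (z + 1) = tcls_ph c a t v w z := by
  unfold tcls_ph
  rw [show (a : ℝ) * (z + 1) = a * z + ((a : ℤ) : ℝ) by push_cast; ring, Int.floor_add_intCast]
  push_cast
  rw [mul_add, h, add_zero]

lemma tcls_t (hS : Data S) {Γ : Type} [CommRing Γ] (e : ℕ) (v : Γ)
    (h : ((pr g S e).1 : Γ) * v = 0) :
    ∃ t : Γ, t * ((pr g S e).1 : Γ) = 0 ∧ t * ((pr g S e).2 : Γ) = v := by
  have h1 := Int.gcd_eq_gcd_ab ((pr g S e).1 : ℤ) (pr g S e).2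
  rw [(pr_data (g := g) hS e).2] at h1
  have h2 := congrArg (fun k : ℤ => (k : Γ)) h1
  simp only [Nat.cast_one, Int.cast_one, Int.cast_add, Int.cast_mul, Int.cast_natCast] at h2
  refine ⟨(Int.gcdB ((pr g S e).1 : ℤ) (pr g S e).2 : Γ) * v, ?_, ?_⟩
  · linear_combination (Int.gcdB ((pr g S e).1 : ℤ) (pr g S e).2 : Γ) * h
  · linear_combination (-v) * h2 - (Int.gcdA ((pr g S e).1 : ℤ) (pr g S e).2 : Γ) * h

lemma tcls_F (hS : Data S) {Γ : Type} [CommRing Γ] (u : ℕ → Γ)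
    (h1 : ∀ i ≤ S.length, ((pr g S (2 * g + i)).1 : Γ) * u i = 0)
    (h2 : ∑ i ∈ Finset.range (S.length + 1), u i = 0) :
    ∃ F : ℝ → ℝ → Γ, (∀ w z, F w (z + 1) = F w z) ∧ (∀ z, F (LL g S) z = F 0 z) ∧
      ∀ e < NE g S, ∀ s ∈ Icc (0 : ℝ) 1, ∀ z, F (st g e + wd g e - s) (z + s * sh g S e)
        = F (st g e + s) z + if e < 2 * g then 0 else u (e - 2 * g) := by
  have ht : ∀ i, i ≤ S.length → ∃ t : Γ, t * ((pr g S (2 * g + i)).1 : Γ) = 0 ∧
      t * ((pr g S (2 * g + i)).2 : Γ) = u i := fun i hi => tcls_t hS _ _ (h1 i hi)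
  choose! t ht1 ht2 using ht
  have hlow : ∀ w z : ℝ, w ≤ 4 * g → ∑ i ∈ Finset.range (S.length + 1),
      tcls_ph (4 * g + 2 * i + 1) (pr g S (2 * g + i)).1 (t i) (u i) w z = 0 := by
    intro w z hw
    refine Finset.sum_eq_zero fun i _ => tcls_lo _ _ _ _ ?_
    have : (0 : ℝ) ≤ i := Nat.cast_nonneg i
    linarith
  refine ⟨fun w z => ∑ i ∈ Finset.range (S.length + 1),
    tcls_ph (4 * g + 2 * i + 1) (pr g S (2 * g + i)).1 (t i) (u i) w z, ?_, ?_, ?_⟩
  · intro w z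
    exact Finset.sum_congr rfl fun i hi =>
      tcls_per _ _ _ _ (ht1 i (Nat.lt_succ_iff.1 (Finset.mem_range.1 hi)))
  · intro z
    beta_reduce
    rw [hlow 0 z (by positivity), ← h2]
    refine Finset.sum_congr rfl fun i hi => tcls_hi _ _ _ _ ?_
    have hi' : (i : ℝ) + 1 ≤ S.length + 1 := by exact_mod_cast Finset.mem_range.1 hi
    unfold LL
    push_cast
    linarith
  · intro e he s hs z
    beta_reduce
    by_cases h0 : e < 2 * g
    · have h3 : st g e + 3 ≤ 4 * g := by unfold st; rw [if_pos h0]; omega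
      have h4 : (st g e : ℝ) + 3 ≤ 4 * g := by exact_mod_cast h3
      have h5 : wd g e = 3 := if_pos h0
      rw [if_pos h0, add_zero, hlow, hlow]
      · linarith [hs.2]
      · rw [h5]; push_cast; linarith [hs.1]
    · obtain ⟨i, rfl⟩ : ∃ i, e = 2 * g + i := ⟨e - 2 * g, by omega⟩
      have hi : i < S.length + 1 := by unfold NE at he; omega
      rw [if_neg h0, Nat.add_sub_cancel_left, moda_st_hi, moda_wd_hi, ← sub_eq_iff_eq_add',
        ← Finset.sum_sub_distrib, Finset.sum_eq_single i]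
      · rcases hs.2.lt_or_eq with h3 | h3
        · rw [tcls_hi _ _ _ _ (by push_cast; linarith), tcls_lo _ _ _ _ (by push_cast; linarith),
            sub_zero]
        · have h4 : ((pr g S (2 * g + i)).1 : ℝ) ≠ 0 := by
            have := (pr_data (g := g) hS (2 * g + i)).1
            exact_mod_cast (by omega : (pr g S (2 * g + i)).1 ≠ 0)
          rw [h3, show ((4 * g + 2 * i : ℕ) : ℝ) + (2 : ℕ) - 1 = 4 * g + 2 * i + 1 by
              push_cast; ring,
            show ((4 * g + 2 * i : ℕ) : ℝ) + 1 = 4 * g + 2 * i + 1 by push_cast; ring,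
            tcls_mid, tcls_mid,
            show ((pr g S (2 * g + i)).1 : ℝ) * (z + 1 * sh g S (2 * g + i))
              = (pr g S (2 * g + i)).1 * z + ((pr g S (2 * g + i)).2 : ℝ) by
              unfold sh; field_simp,
            Int.floor_add_intCast]
          push_cast
          linear_combination ht2 i (by omega)
      · intro j _ hj
        rcases lt_or_gt_of_ne hj with hj | hj
        · have : (j : ℝ) + 1 ≤ i := by exact_mod_cast hj
          rw [tcls_hi _ _ _ _ (by push_cast; linarith [hs.2]),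
            tcls_hi _ _ _ _ (by push_cast; linarith [hs.1]), sub_self]
        · have : (i : ℝ) + 1 ≤ j := by exact_mod_cast hj
          rw [tcls_lo _ _ _ _ (by push_cast; linarith [hs.1]),
            tcls_lo _ _ _ _ (by push_cast; linarith [hs.2]), sub_self]
      · intro hh
        exact absurd (Finset.mem_range.2 hi) hh

lemma exists_jump (hS : Data S) {Γ : Type} [CommRing Γ] (u : ℕ → Γ)
    (h1 : ∀ i ≤ S.length, ((pr g S (2 * g + i)).1 : Γ) * u i = 0)
    (h2 : ∑ i ∈ Finset.range (S.length + 1), u i = 0) :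
    ∃ E : Solid → Γ, ∀ e < NE g S, ∀ s ∈ Icc (0 : ℝ) 1, ∀ z,
      E (pc (gb g S e s z)) = E (pc (ga g S e s z)) + if e < 2 * g then 0 else u (e - 2 * g) := by
  obtain ⟨F, hF1, hF2, hF3⟩ := tcls_F (g := g) hS u h1 h2
  have hL : LL g S ≠ 0 := NeZero.ne _
  have hL' : (0 : ℝ) < LL g S := by exact_mod_cast Nat.pos_of_ne_zero hL
  have : Fact ((0 : ℝ) < LL g S) := ⟨hL'⟩
  obtain ⟨ang, -, ha⟩ := exists_ang hL
  have hv : ∀ w ∈ Icc (0 : ℝ) (LL g S),
      AddCircle.liftIco (LL g S : ℝ) 0 F (w : AddCircle (LL g S : ℝ)) = F w := by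
    intro w hw
    rcases hw.2.lt_or_eq with h3 | h3
    · exact AddCircle.liftIco_coe_apply ⟨hw.1, by rwa [zero_add]⟩
    · rw [h3, AddCircle.coe_period, ← AddCircle.coe_zero,
        AddCircle.liftIco_coe_apply ⟨le_rfl, by rwa [zero_add]⟩]
      exact funext fun z => (hF2 z).symm
  obtain ⟨E, hE⟩ := desc_pc (fun y : Cov => AddCircle.liftIco (LL g S : ℝ) 0 F (ang y.1) y.2)
    (fun y z => hF1 _ z)
  refine ⟨E, fun e he s hs z => ?_⟩
  have h3 : (st g e : ℝ) + wd g e ≤ LL g S := by exact_mod_cast st_le he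
  have h4 : (2 : ℝ) ≤ wd g e := by exact_mod_cast wd_ge e
  have h5 : (0 : ℝ) ≤ st g e := Nat.cast_nonneg _
  rw [hE, hE]
  simp only [ga, gb]
  rw [ha, ha, hv _ ⟨by linarith [hs.2], by linarith [hs.1]⟩,
    hv _ ⟨by linarith [hs.1], by linarith [hs.2]⟩]
  exact hF3 e he s hs z

theorem exists_tors [T2Space (Seifert g S)] (hS : Data S) {Γ : Type} [CommRing Γ] (u : ℕ → Γ)
    (h1 : ∀ i ≤ S.length, ((pr g S (2 * g + i)).1 : Γ) * u i = 0)
    (h2 : ∑ i ∈ Finset.range (S.length + 1), u i = 0) :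
    ∃ n A ne, CocZ n univ ∧ Per g S n A 0 ne ∧ ∀ i, ne (2 * g + i) = u i := by
  obtain ⟨E, hE⟩ := exists_jump hS u h1 h2
  obtain ⟨n, hn, hp⟩ := desc_per hS E _ hE
  exact ⟨n, _, _, hn, hp, fun i => by simp⟩

end Pool.Agent.P.MP_3d25f3_gt.G
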