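import Pool.Agent.P.MP_3d25f3_gt.GPer
import Pool.Agent.P.MP_3d25f3_gt.Fib

set_option autoImplicit false

open Set Filter Topology

namespace Pool.Agent.P.MP_3d25f3_gt.G

variable {g : ℕ} {S : List (ℕ × ℤ)}

lemma tdesc_int (L : ℕ) (hL : L ≠ 0) (w : ℝ) :
    (∃ j : ℤ, bp L w = bp L j) ↔ ∃ k : ℤ, w = k := by
  constructor
  · rintro ⟨j, hj⟩
    obtain ⟨k, hk⟩ := (bp_eq_iff hL _ _).1 hj
    exact ⟨j - k * L, by push_cast; linarith⟩
  · rintro ⟨k, rfl⟩
    exact ⟨k, rfl⟩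

lemma tdesc_vert_fin (L : ℕ) (hL : L ≠ 0) : {y : Disc | ∃ j : ℤ, y = bp L j}.Finite := by
  refine ((Set.finite_Ico (0 : ℤ) L).image fun j : ℤ => bp L j).subset ?_
  rintro _ ⟨j, rfl⟩
  have hL' : (0 : ℤ) < L := by exact_mod_cast Nat.pos_of_ne_zero hL
  refine ⟨j % L, ⟨Int.emod_nonneg _ hL'.ne', Int.emod_lt_of_pos _ hL'⟩, ?_⟩
  refine (bp_eq_iff hL _ _).2 ⟨j / L, ?_⟩
  have : j = j % L + j / L * L := by rw [Int.emod_add_ediv_mul]
  exact_mod_cast this

lemma tdesc_tors (hS : Data S) {e : ℕ} (he : e < NE g S) (k : ℤ) :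
    (∏ i ∈ Finset.range (NE g S), (pr g S i).1) •
      (((k : ℝ) * sh g S e : ℝ) : AddCircle (1 : ℝ)) = 0 := by
  obtain ⟨c, hc⟩ := Finset.dvd_prod_of_mem (fun i => (pr g S i).1) (Finset.mem_range.2 he)
  have hα : ((pr g S e).1 : ℝ) ≠ 0 := by
    have := (pr_data (g := g) hS e).1
    positivity
  rw [hc, ← AddCircle.coe_nsmul, AddCircle.coe_eq_zero_iff]
  refine ⟨c * k * (pr g S e).2, ?_⟩
  rw [sh, nsmul_eq_mul, zsmul_eq_mul]
  push_cast
  field_simp

lemma tdesc_vert (hS : Data S) (P : Solid) (hP : ∃ j : ℤ, P.1 = bp (LL g S) j) :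
    (pm g S ⁻¹' {pm g S P}).Finite := by
  set A := ∏ i ∈ Finset.range (NE g S), (pr g S i).1 with hA
  have hA0 : 0 < A := Finset.prod_pos fun i _ => (pr_data (g := g) hS i).1
  have hL : LL g S ≠ 0 := NeZero.ne _
  obtain ⟨f, hf⟩ := desc_solid (g := g) (S := S)
    (fun y => (∃ j : ℤ, y.1 = bp (LL g S) j) ∧ A • (y.2 - P.2) = 0) fun e he s _ z => by
      refine propext ?_
      show (∃ j : ℤ, bp (LL g S) (st g e + wd g e - s) = bp (LL g S) j) ∧
          A • (((z + s * sh g S e : ℝ) : AddCircle (1 : ℝ)) - P.2) = 0 ↔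
        (∃ j : ℤ, bp (LL g S) (st g e + s) = bp (LL g S) j) ∧
          A • ((z : AddCircle (1 : ℝ)) - P.2) = 0
      rw [tdesc_int _ hL, tdesc_int _ hL]
      have h1 : (∃ k : ℤ, (st g e : ℝ) + wd g e - s = k) ↔ ∃ k : ℤ, s = k :=
        ⟨fun ⟨k, hk⟩ => ⟨st g e + wd g e - k, by push_cast; linarith⟩,
          fun ⟨k, hk⟩ => ⟨st g e + wd g e - k, by push_cast; linarith⟩⟩
      have h2 : (∃ k : ℤ, (st g e : ℝ) + s = k) ↔ ∃ k : ℤ, s = k :=
        ⟨fun ⟨k, hk⟩ => ⟨k - st g e, by push_cast; linarith⟩,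
          fun ⟨k, hk⟩ => ⟨st g e + k, by push_cast; linarith⟩⟩
      rw [h1, h2]
      refine and_congr_right ?_
      rintro ⟨k, rfl⟩
      rw [AddCircle.coe_add, add_sub_right_comm, smul_add, tdesc_tors hS he, add_zero]
  have h3 : {t : AddCircle (1 : ℝ) | A • (t - P.2) = 0}.Finite := by
    refine ((AddCircle.finite_torsion (1 : ℝ) hA0).image fun u => u + P.2).subset fun t ht => ?_
    exact ⟨t - P.2, ht, sub_add_cancel _ _⟩
  refine ((tdesc_vert_fin _ hL).prod h3).subset fun y hy => ?_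
  have h4 : pm g S y = pm g S P := hy
  have h5 : f (pm g S y) := by
    rw [h4, hf]
    exact ⟨hP, by simp⟩
  rw [hf] at h5
  exact h5

lemma fib_finite (hS : Data S) (x : Seifert g S) : (pm g S ⁻¹' {x}).Finite := by
  obtain ⟨⟨y, z⟩, rfl⟩ := pp_surj x
  have hL : LL g S ≠ 0 := NeZero.ne _
  have hy1 : ‖(y : ℂ)‖ ≤ 1 := mem_closedBall_zero_iff.1 y.2
  have harc : ∀ e < NE g S, ∀ s ∈ Ioo (0 : ℝ) 1, ∀ w,
      (pm g S ⁻¹' {pp g S (ga g S e s w)}).Finite := fun e he s hs w =>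
    (Set.toFinite {pc (ga g S e s w), pc (gb g S e s w)}).subset fun b hb => fib_arc he hs w hb
  rcases hy1.lt_or_eq with h | h
  · refine (Set.finite_singleton (pc (y, z))).subset fun b hb => ?_
    exact (fib_int (a := pc (y, z)) (Eq.symm hb) h).symm
  · obtain ⟨u, hu, rfl⟩ := exists_bp hL h
    have h1 := Nat.floor_le hu.1
    have h2 := Nat.lt_floor_add_one u
    rcases h1.eq_or_lt with h3 | h3
    · exact tdesc_vert hS _ ⟨⌊u⌋₊, by rw [Int.cast_natCast, h3]; rfl⟩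
    · have hj : ⌊u⌋₊ < LL g S := (Nat.floor_lt hu.1).2 hu.2
      obtain ⟨e, he, h4 | h4⟩ := st_surj hj
      · have h5 : (st g e : ℝ) = ⌊u⌋₊ := by rw [h4]
        have := harc e he (u - ⌊u⌋₊) ⟨by linarith, by linarith⟩ z
        rwa [ga, h5, add_sub_cancel] at this
      · have h5 : (st g e : ℝ) + wd g e = ⌊u⌋₊ + 1 := by exact_mod_cast h4.symm
        have hs : (⌊u⌋₊ + 1 - u : ℝ) ∈ Ioo (0 : ℝ) 1 := ⟨by linarith, by linarith⟩
        have := harc e he _ hs (z - (⌊u⌋₊ + 1 - u) * sh g S e)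
        rwa [← pp_glue he (Ioo_subset_Icc_self hs), gb, h5, sub_sub_cancel, sub_add_cancel] at this

lemma tdesc_eps {X : Type} [PseudoMetricSpace X] {C : Set (X × X)} (hC : IsClosed C) (y y' : X) :
    ∀ᶠ ε in 𝓝[>] (0 : ℝ), ∀ a ∈ Metric.ball y ε, ∀ b ∈ Metric.ball y' ε,
      (a, b) ∈ C → (y, y') ∈ C := by
  by_cases h : (y, y') ∈ C
  · exact Eventually.of_forall fun _ _ _ _ _ _ => h
  · obtain ⟨δ, hδ, h1⟩ := Metric.mem_nhds_iff.1 (hC.isOpen_compl.mem_nhds h)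
    filter_upwards [Ioo_mem_nhdsGT hδ] with ε hε a ha b hb hab
    refine absurd hab (h1 ?_)
    rw [← ball_prod_same]
    exact ⟨Metric.ball_subset_ball hε.2.le ha, Metric.ball_subset_ball hε.2.le hb⟩

lemma tdesc_graph (e : ℕ) : IsClosed {p : Solid × Solid | ∃ s ∈ Icc (0 : ℝ) 1, ∃ z,
    p = (pc (ga g S e s z), pc (gb g S e s z))} := by
  let F : Icc (0 : ℝ) 1 × AddCircle (1 : ℝ) → Solid × Solid := fun q =>
    ((bp (LL g S) (st g e + q.1), q.2),
      (bp (LL g S) (st g e + wd g e - q.1), q.2 + (((q.1 : ℝ) * sh g S e : ℝ) : AddCircle (1 : ℝ))))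
  have hF : Continuous F := by
    refine (((continuous_bp _).comp (by fun_prop)).prodMk continuous_snd).prodMk
      (((continuous_bp _).comp (by fun_prop)).prodMk (continuous_snd.add ?_))
    exact (AddCircle.continuous_mk' (1 : ℝ)).comp (by fun_prop)
  have h : range F = {p : Solid × Solid | ∃ s ∈ Icc (0 : ℝ) 1, ∃ z,
      p = (pc (ga g S e s z), pc (gb g S e s z))} := by
    ext p
    constructor
    · rintro ⟨⟨s, t⟩, rfl⟩
      obtain ⟨z, rfl⟩ := QuotientAddGroup.mk_surjective t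
      exact ⟨s, s.2, z, rfl⟩
    · rintro ⟨s, hs, z, rfl⟩
      exact ⟨(⟨s, hs⟩, z), rfl⟩
  exact h ▸ (isCompact_range hF).isClosed

lemma tdesc_loc [T2Space (Seifert g S)] (hS : Data S) {Γ : Type} [CommRing Γ] (E : Solid → Γ)
    (ne : ℕ → Γ) (h : ∀ e < NE g S, ∀ s ∈ Icc (0 : ℝ) 1, ∀ z,
      E (pc (gb g S e s z)) = E (pc (ga g S e s z)) + ne e) (x : Seifert g S) :
    ∃ b : Seifert g S → Γ, ∀ y, pm g S y = x → ∀ᶠ y' in 𝓝 y, b (pm g S y') = E y' - E y := by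
  classical
  have hF := fib_finite hS x
  have h1 := (eventually_all_finite hF).2 fun y _ => (eventually_all_finite hF).2 fun y' _ =>
    (eventually_all_finite (Set.finite_Iio (NE g S))).2 fun e _ =>
      tdesc_eps (tdesc_graph (g := g) (S := S) e) y y'
  have h2 := (eventually_all_finite hF).2 fun y _ => (eventually_all_finite hF).2 fun y' _ =>
    tdesc_eps (isClosed_diagonal (X := Solid)) y y'
  obtain ⟨ε, ⟨e1, e2⟩, hε⟩ := ((h1.and h2).and self_mem_nhdsWithin).exists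
  let r : Solid → Solid := fun w =>
    if hw : ∃ y ∈ pm g S ⁻¹' {x}, w ∈ Metric.ball y ε then hw.choose else w
  have hr : ∀ y ∈ pm g S ⁻¹' {x}, ∀ w ∈ Metric.ball y ε, r w = y := fun y hy w hw => by
    have h3 : ∃ y ∈ pm g S ⁻¹' {x}, w ∈ Metric.ball y ε := ⟨y, hy, hw⟩
    simp only [r, dif_pos h3]
    exact e2 _ h3.choose_spec.1 y hy w h3.choose_spec.2 w hw rfl
  let V : Set (Seifert g S) :=
    {x' | ∀ w, pm g S w = x' → ∃ y ∈ pm g S ⁻¹' {x}, w ∈ Metric.ball y ε}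
  have hV : V ∈ 𝓝 x := loc_closed isClosedMap_pm
    (P := fun w => ∃ y ∈ pm g S ⁻¹' {x}, w ∈ Metric.ball y ε) fun y hy =>
      mem_of_superset (Metric.ball_mem_nhds y hε) fun w hw => ⟨y, hy, hw⟩
  obtain ⟨b, hb⟩ := desc_solid (g := g) (S := S)
    (fun w => if pm g S w ∈ V then E w - E (r w) else 0) fun e he s hs z => by
      have h3 : pm g S (pc (gb g S e s z)) = pm g S (pc (ga g S e s z)) := pp_glue he hs z
      simp only [h3]
      split_ifs with h4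
      · obtain ⟨y, hy, ha⟩ := h4 _ rfl
        obtain ⟨y', hy', hb⟩ := h4 _ h3
        obtain ⟨s', hs', z', h5⟩ := e1 y hy y' hy' e he _ ha _ hb ⟨s, hs, z, rfl⟩
        obtain ⟨rfl, rfl⟩ := Prod.mk.inj h5
        rw [hr _ hy _ ha, hr _ hy' _ hb, h e he s hs, h e he s' hs']
        ring
      · rfl
  refine ⟨b, fun y hy => ?_⟩
  have h6 : pm g S ⁻¹' V ∈ 𝓝 y := continuous_pm.continuousAt.preimage_mem_nhds (hy ▸ hV)
  filter_upwards [h6, Metric.ball_mem_nhds y hε] with w h7 h8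
  rw [hb, if_pos (show pm g S w ∈ V from h7), hr y hy w h8]

/-- an arbitrary function with constant jumps across the arcs is a primitive of a cocycle -/
theorem desc_per [T2Space (Seifert g S)] (hS : Data S) {Γ : Type} [CommRing Γ] (E : Solid → Γ)
    (ne : ℕ → Γ) (h : ∀ e < NE g S, ∀ s ∈ Icc (0 : ℝ) 1, ∀ z,
      E (pc (gb g S e s z)) = E (pc (ga g S e s z)) + ne e) :
    ∃ n, CocZ n univ ∧ Per g S n (fun y => E (pc y)) 0 ne := by
  obtain ⟨v, hv, hp⟩ := descend (π := pm g S) isClosedMap_pm continuous_pm pm_surj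
    (Coc_one (R := Γ) univ) (γ := fun _ => 1) (γ' := fun _ => 1) (E := E) (fun _ => one_mul _)
    (fun _ => ⟨univ, univ_mem, fun _ _ _ _ => one_mul _⟩)
    (fun x => by simpa only [one_mul] using tdesc_loc hS E ne h x)
  refine ⟨fun a b => v [a, b], CocZ_of_Zc hv, fun y => ?_, fun y z => ?_, h⟩
  · obtain ⟨U, hU, h1⟩ := hp (pc y)
    refine ⟨pc ⁻¹' U, continuous_pc.continuousAt.preimage_mem_nhds hU, fun a ha b hb => ?_⟩
    have := h1 _ ha _ hb
    rwa [one_mul] at this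
  · rw [add_zero, (pc_eq_iff (y, z) (y, z + 1)).2 ⟨rfl, 1, by simp⟩]

end Pool.Agent.P.MP_3d25f3_gt.G
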