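import Pool.Agent.P.MP_3d25f3_gt.TFinA
import Pool.Agent.P.MP_3d25f3_gt.TCum
import Pool.Agent.P.MP_3d25f3_gt.Core

set_option autoImplicit false

open Set Filter Topology

namespace Pool.Agent.P.MP_3d25f3_gt.G

variable {g : ℕ} {S : List (ℕ × ℤ)} {p a : ℕ} {I : Finset ℕ} {e : ℕ → ℕ}

lemma exists_PD (h1 : ∀ q ∈ S, q.1 = 1 ∨ IsPrimePow q.1) (hp : p.Prime)
    (h : ∃ i ≤ S.length, p ∣ (pr g S (2 * g + i)).1) : ∃ a I e, PD g S p a I e := by
  classical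
  have hk : ∀ i, ∃ k, p ∣ (pr g S (2 * g + i)).1 → (pr g S (2 * g + i)).1 = p ^ k := fun i => by
    by_cases hd : p ∣ (pr g S (2 * g + i)).1
    · have h2 : (pr g S (2 * g + i)).1 ≠ 1 := fun e1 => hp.not_dvd_one (e1 ▸ hd)
      have h3 : pr g S (2 * g + i) ∈ S := (rnk_mem i).resolve_right fun e1 => h2 (by rw [e1])
      obtain ⟨q, k, hq, -, e1⟩ := (isPrimePow_nat_iff _).1 ((h1 _ h3).resolve_left h2)
      rw [← e1] at hd
      rw [← (Nat.prime_dvd_prime_iff_eq hp hq).1 (hp.dvd_of_dvd_pow hd)] at e1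
      exact ⟨k, fun _ => e1.symm⟩
    · exact ⟨0, fun k => absurd k hd⟩
  choose e he using hk
  have hm : ∀ i, i ∈ (Finset.range (S.length + 1)).filter (fun i => p ∣ (pr g S (2 * g + i)).1) ↔
      i ≤ S.length ∧ p ∣ (pr g S (2 * g + i)).1 := fun i => by
    rw [Finset.mem_filter, Finset.mem_range, Nat.lt_succ_iff]
  obtain ⟨i0, hi0⟩ := h
  obtain ⟨j, hj, hj'⟩ := Finset.exists_mem_eq_sup _ ⟨i0, (hm i0).2 hi0⟩ e
  exact ⟨_, _, e, hp, hm, fun i hi => he i ((hm i).1 hi).2, fun i hi => Finset.le_sup hi,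
    j, hj, hj'.symm⟩

/-- the part of the orders prime to `p` -/
lemma PD.exists_c (h : PD g S p a I e) (hS : Data S) : ∃ c : ℕ, ¬ p ∣ c ∧
    (∀ i ≤ S.length, i ∉ I → (pr g S (2 * g + i)).1 ∣ c) ∧ ∀ q ∈ S, q.1 ∣ c * p ^ a := by
  classical
  have := hS.1
  have h2 : ∀ i ≤ S.length, i ∉ I → (pr g S (2 * g + i)).1 ∣
      ∏ i ∈ (Finset.range (S.length + 1)).filter (fun i => i ∉ I), (pr g S (2 * g + i)).1 :=
    fun i hi hI => Finset.dvd_prod_of_mem (fun i => (pr g S (2 * g + i)).1)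
      (Finset.mem_filter.2 ⟨Finset.mem_range.2 (Nat.lt_succ_of_le hi), hI⟩)
  refine ⟨_, fun hd => ?_, h2, fun q hq => ?_⟩
  · obtain ⟨i, hi, hd⟩ := (h.prime.prime.dvd_finsetProd_iff _).1 hd
    obtain ⟨h3, h4⟩ := Finset.mem_filter.1 hi
    exact h4 ((h.mem i).2 ⟨Nat.le_of_lt_succ (Finset.mem_range.1 h3), hd⟩)
  · obtain ⟨i, hi, rfl⟩ := rnk_pr (g := g) hq
    by_cases hI : i ∈ I
    · rw [h.pow i hI]
      exact (pow_dvd_pow p (h.le i hI)).mul_left _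
    · exact (h2 i hi.le hI).mul_right _

lemma jmp_eq (g : ℕ) (S : List (ℕ × ℤ)) (k : ℤ) :
    jmp S k = ∑ i ∈ Finset.range (S.length + 1), jq (pr g S (2 * g + i)) k := by
  rw [sum_getD (fun q => jq q k)]
  have h0 : jq (1, 0) k = 0 := by simp [jq, saw]
  rw [h0, add_zero, jmp, ← List.sum_map_mul_left]
  rfl

theorem PD.H0 (h : PD g S p a I e) (hS : Data S) (hE : EmbedsFlat (Seifert g S)) (k : ℤ)
    (hk : ∀ i ∈ I, ¬ (p : ℤ) ^ e i ∣ k) :
    ∑ i ∈ I, cum (p ^ e i, (pr g S (2 * g + i)).2) k = 0 := by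
  classical
  obtain ⟨c, hc, hc1, hc2⟩ := h.exists_c hS
  have hco : (p ^ a).Coprime c := ((Nat.Prime.coprime_iff_not_dvd h.prime).2 hc).pow_left a
  have hpos : (0 : ℤ) < (p ^ a : ℕ) := by exact_mod_cast pow_pos h.prime.pos a
  obtain ⟨K, hK1, hK2⟩ := Nat.chineseRemainder hco (k % (p ^ a : ℕ)).toNat 0
  have hcK : c ∣ K := (Nat.modEq_zero_iff_dvd).1 hK2
  have hKk : (K : ℤ) ≡ k [ZMOD (p ^ a : ℕ)] := by
    have h3 := Int.natCast_modEq_iff.2 hK1
    rw [Int.toNat_of_nonneg (Int.emod_nonneg _ hpos.ne')] at h3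
    exact h3.trans (Int.mod_modEq _ _)
  have hKi : ∀ i ∈ I, (K : ℤ) ≡ k [ZMOD (p ^ e i : ℕ)] := fun i hi =>
    hKk.of_dvd (Int.natCast_dvd_natCast.2 (pow_dvd_pow p (h.le i hi)))
  have hnd : ∀ i ∈ I, ¬ (pr g S (2 * g + i)).1 ∣ K := fun i hi hd => by
    rw [h.pow i hi] at hd
    have h3 := (hKi i hi).dvd_iff.1 (Int.natCast_dvd_natCast.2 hd)
    exact hk i hi (by exact_mod_cast h3)
  obtain ⟨i0, hi0, -⟩ := h.top
  have hq0 : pr g S (2 * g + i0) ∈ S := (rnk_mem i0).resolve_right fun e1 =>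
    hnd i0 hi0 (by rw [e1]; exact one_dvd _)
  have hb := pp_bound hS hE p a K h.prime
    (fun q hq => (hc2 q hq).trans (Nat.mul_dvd_mul_right hcK _)) ⟨_, hq0, hnd i0 hi0⟩
  have hz : (S.countP fun q => p ∣ q.1 ∧ q.1 ∣ K) = 0 := by
    rw [List.countP_eq_zero]
    intro q hq hh
    obtain ⟨i, hi, rfl⟩ := rnk_pr (g := g) hq
    have h3 := of_decide_eq_true hh
    exact hnd i ((h.mem i).2 ⟨hi.le, h3.1⟩) h3.2
  rw [hz, Nat.cast_zero, abs_nonpos_iff] at hb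
  have hsum : ∑ i ∈ Finset.range (S.length + 1), cum (pr g S (2 * g + i)) K = 0 := by
    rw [← hb, Finset.sum_congr rfl fun i _ => cum_nat (pr_data hS (2 * g + i)).1 K,
      Finset.sum_add_distrib, ← Finset.mul_sum, Finset.sum_comm, jmp_eq g]
    simp only [jmp_eq g]
  have hsub : I ⊆ Finset.range (S.length + 1) := fun i hi =>
    Finset.mem_range.2 (Nat.lt_succ_of_le ((h.mem i).1 hi).1)
  rw [← hsum, ← Finset.sum_subset hsub fun i hi hI => ?_]
  · refine Finset.sum_congr rfl fun i hi => ?_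
    rw [← cum_congr (q := (p ^ e i, (pr g S (2 * g + i)).2)) (hKi i hi), ← h.pow i hi]
  · rw [← cum_zero (pr g S (2 * g + i))]
    refine cum_congr (Int.modEq_zero_iff_dvd.2 (Int.natCast_dvd_natCast.2 ?_))
    exact (hc1 i (Nat.le_of_lt_succ (Finset.mem_range.1 hi)) hI).trans hcK

/-- sum over the primes -/
theorem jmp_of_primes (h1 : ∀ q ∈ S, q.1 = 1 ∨ IsPrimePow q.1) (k : ℤ)
    (h : ∀ p a I e, PD g S p a I e → ∑ i ∈ I, jq (p ^ e i, (pr g S (2 * g + i)).2) k = 0) :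
    jmp S k = 0 := by
  classical
  rw [jmp_eq g, ← Finset.sum_fiberwise_of_maps_to (g := fun i => (pr g S (2 * g + i)).1.minFac)
    fun i hi => Finset.mem_image_of_mem (fun i => (pr g S (2 * g + i)).1.minFac) hi]
  refine Finset.sum_eq_zero fun m hm => ?_
  obtain ⟨i0, hi0, hm0⟩ := Finset.mem_image.1 hm
  by_cases hm1 : m = 1
  · refine Finset.sum_eq_zero fun i hi => ?_
    have h2 : (pr g S (2 * g + i)).1 = 1 :=
      Nat.minFac_eq_one_iff.1 ((Finset.mem_filter.1 hi).2.trans hm1)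
    rw [← jq_zero (pr g S (2 * g + i))]
    refine jq_congr ?_
    rw [h2]
    exact Int.modEq_one
  · have hp : m.Prime := by
      rw [← hm0]
      exact Nat.minFac_prime fun e1 => hm1 (hm0.symm.trans (Nat.minFac_eq_one_iff.2 e1))
    obtain ⟨a, I, e, hP⟩ := exists_PD (g := g) h1 hp
      ⟨i0, Nat.le_of_lt_succ (Finset.mem_range.1 hi0), hm0 ▸ Nat.minFac_dvd _⟩
    have hI : (Finset.range (S.length + 1)).filter
        (fun i => (pr g S (2 * g + i)).1.minFac = m) = I := by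
      ext i
      rw [Finset.mem_filter, Finset.mem_range, Nat.lt_succ_iff]
      refine ⟨fun hi => (hP.mem i).2 ⟨hi.1, hi.2 ▸ Nat.minFac_dvd _⟩,
        fun hi => ⟨((hP.mem i).1 hi).1, ?_⟩⟩
      rw [hP.pow i hi]
      exact hp.pow_minFac (by have := (hP.lev i hi).1; omega)
    rw [hI, ← h m a I e hP]
    refine Finset.sum_congr rfl fun i hi => ?_
    rw [← hP.pow i hi]

end Pool.Agent.P.MP_3d25f3_gt.G
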