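import Pool.Agent.P.MP_3d25f3_gt.TCum

set_option autoImplicit false

open Set Filter Topology

namespace Pool.Agent.P.MP_3d25f3_gt.G

variable {p e : ℕ} {β β' : ℤ}

lemma tfoua_unit (hp : p.Prime) (he : 1 ≤ e) (hβ : ¬ (p : ℤ) ∣ β) {x : ℤ}
    (hx : ¬ (p : ℤ) ∣ x) :
    ∃ n : ℤ, jq (p ^ e, β) x = 2 * ((x : ℚ) * β / (p : ℚ) ^ e - n) - 1 := by
  have hp0 : (p : ℚ) ≠ 0 := by exact_mod_cast hp.ne_zero
  have hpi : Prime (p : ℤ) := Nat.prime_iff_prime_int.mp hp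
  refine ⟨⌊(x : ℚ) * β / (p : ℚ) ^ e⌋, ?_⟩
  have hne : Int.fract ((x : ℚ) * β / (p : ℚ) ^ e) ≠ 0 := by
    intro h0
    have h1 : (x : ℚ) * β / (p : ℚ) ^ e = (⌊(x : ℚ) * β / (p : ℚ) ^ e⌋ : ℚ) := by
      have := Int.floor_add_fract ((x : ℚ) * β / (p : ℚ) ^ e)
      rw [h0, add_zero] at this
      exact this.symm
    rw [div_eq_iff (pow_ne_zero _ hp0)] at h1
    have h2 : x * β = ⌊(x : ℚ) * β / (p : ℚ) ^ e⌋ * (p : ℤ) ^ e := by exact_mod_cast h1
    have h3 : (p : ℤ) ∣ x * β := by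
      rw [h2]
      exact Dvd.dvd.mul_left (dvd_pow_self _ (by omega)) _
    rcases hpi.dvd_or_dvd h3 with h | h
    · exact hx h
    · exact hβ h
  unfold jq saw
  simp only [Nat.cast_pow]
  rw [if_neg hne, Int.fract]
  ring

lemma tfoua_two (hp : p.Prime) (h2 : p ≠ 2) : ¬ (p : ℤ) ∣ 2 := by
  intro h
  have h' : p ∣ 2 := by exact_mod_cast h
  exact h2 ((Nat.prime_dvd_prime_iff_eq hp Nat.prime_two).mp h')

lemma tfoua_one (hp : p.Prime) : ¬ (p : ℤ) ∣ 1 := by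
  intro h
  have h' : p ∣ 1 := by exact_mod_cast h
  exact hp.one_lt.ne' (Nat.dvd_one.mp h')

lemma tfoua_add {x y : ℤ} (hx : ¬ (p : ℤ) ∣ x) (hy : (p : ℤ) ∣ y) : ¬ (p : ℤ) ∣ x + y := by
  intro h
  exact hx ((dvd_add_left hy).mp h)

theorem fou_single (hp : p.Prime) (h2 : p ≠ 2) (he : 2 ≤ e) (hβ : ¬ (p : ℤ) ∣ β)
    (h : ∀ k : ℤ, ¬ (p : ℤ) ∣ k → cum (p ^ e, β) (k + (p : ℤ) ^ (e - 1)) = cum (p ^ e, β) k) :
    False := by
  obtain ⟨n, rfl⟩ : ∃ n, e = n + 1 := ⟨e - 1, by omega⟩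
  simp only [Nat.add_sub_cancel] at h
  have hp0 : (p : ℚ) ≠ 0 := by exact_mod_cast hp.ne_zero
  have hpi : Prime (p : ℤ) := Nat.prime_iff_prime_int.mp hp
  have hq : (p : ℤ) ∣ (p : ℤ) ^ n := dvd_pow_self _ (by omega)
  have hN : 0 < ((p ^ (n + 1), β) : ℕ × ℤ).1 := pow_pos hp.pos _
  have u1 := tfoua_one hp
  have u2 := tfoua_two hp h2
  have a1 := h 1 u1
  have a2 := h 2 u2
  have s1 := cum_succ hN 1
  have s2 := cum_succ hN (1 + (p : ℤ) ^ n)
  have e1 : (1 : ℤ) + 1 = 2 := by norm_num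
  have e2 : (1 : ℤ) + (p : ℤ) ^ n + 1 = 2 + (p : ℤ) ^ n := by ring
  rw [e1] at s1
  rw [e2] at s2
  obtain ⟨n1, h1⟩ := tfoua_unit (e := n + 1) hp (by omega) hβ u1
  obtain ⟨n2, h2'⟩ := tfoua_unit (e := n + 1) hp (by omega) hβ u2
  obtain ⟨n3, h3⟩ := tfoua_unit (e := n + 1) hp (by omega) hβ (tfoua_add u1 hq)
  obtain ⟨n4, h4⟩ := tfoua_unit (e := n + 1) hp (by omega) hβ (tfoua_add u2 hq)
  have key : jq (p ^ (n + 1), β) (1 + (p : ℤ) ^ n) + jq (p ^ (n + 1), β) (2 + (p : ℤ) ^ n)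
      = jq (p ^ (n + 1), β) 1 + jq (p ^ (n + 1), β) 2 := by linarith
  rw [h1, h2', h3, h4] at key
  push_cast at key
  have k2 : (2 : ℚ) * β = p * (n3 + n4 - n1 - n2) := by
    have hpn : (p : ℚ) ^ n ≠ 0 := pow_ne_zero _ hp0
    have : (2 : ℚ) * ((p : ℚ) ^ n * β / (p : ℚ) ^ (n + 1)) = n3 + n4 - n1 - n2 := by
      have f1 : (1 + (p : ℚ) ^ n) * β / (p : ℚ) ^ (n + 1)
          = 1 * β / (p : ℚ) ^ (n + 1) + (p : ℚ) ^ n * β / (p : ℚ) ^ (n + 1) := by ring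
      have f2 : (2 + (p : ℚ) ^ n) * β / (p : ℚ) ^ (n + 1)
          = 2 * β / (p : ℚ) ^ (n + 1) + (p : ℚ) ^ n * β / (p : ℚ) ^ (n + 1) := by ring
      rw [f1, f2] at key
      linarith
    rw [← this, pow_succ]
    field_simp
  have k3 : 2 * β = p * (n3 + n4 - n1 - n2) := by exact_mod_cast k2
  rcases hpi.dvd_or_dvd (Dvd.intro _ k3.symm) with h | h
  · exact u2 h
  · exact hβ h

lemma tfoua_abs (hp : p.Prime) (h2 : p ≠ 2) (g D : ℤ → ℚ) (q : ℕ)
    (h1 : ∀ x, g (x + 1) = g x + (D x + D (x + 1)))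
    (hs : ∀ x, ∑ t ∈ Finset.range p, D (x + t * ((p * q : ℕ) : ℤ)) = 0)
    (hm : ∀ j : ℤ, D (p * j) = 0)
    (hg : ∀ k : ℤ, ¬ (p : ℤ) ∣ k → g (k + ((p * q : ℕ) : ℤ)) = g k) : D 1 = 0 := by
  have hp0 : (p : ℚ) ≠ 0 := by exact_mod_cast hp.ne_zero
  have hq : (p : ℤ) ∣ ((p * q : ℕ) : ℤ) := by push_cast; exact Dvd.intro _ rfl
  set Q : ℤ := ((p * q : ℕ) : ℤ) with hQ
  have G1 : ∀ x : ℤ, ∑ t ∈ Finset.range p, g (x + 1 + t * Q)
      = ∑ t ∈ Finset.range p, g (x + t * Q) := by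
    intro x
    have : ∀ t ∈ Finset.range p, g (x + 1 + t * Q)
        = g (x + t * Q) + (D (x + t * Q) + D (x + 1 + t * Q)) := by
      intro t _
      have e1 : x + 1 + t * Q = x + t * Q + 1 := by ring
      rw [e1, h1]
    rw [Finset.sum_congr rfl this, Finset.sum_add_distrib, Finset.sum_add_distrib, hs, hs]
    ring
  have G2 : ∀ x : ℤ, ∑ t ∈ Finset.range p, g (x + t * Q)
      = ∑ t ∈ Finset.range p, g (0 + t * Q) := by
    intro x
    induction x using Int.induction_on with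
    | zero => rfl
    | succ i ih => rw [G1, ih]
    | pred i ih =>
      rw [← ih, ← G1]
      have : -(i : ℤ) - 1 + 1 = -i := by ring
      rw [this]
  have G3 : ∀ x : ℤ, ¬ (p : ℤ) ∣ x → ∀ t : ℕ, g (x + t * Q) = g x := by
    intro x hx t
    induction t with
    | zero => simp
    | succ t ih =>
      have e1 : x + ((t + 1 : ℕ) : ℤ) * Q = x + t * Q + Q := by push_cast; ring
      rw [e1, hg _ (tfoua_add hx (Dvd.dvd.mul_left hq _)), ih]
  have G4 : ∀ x : ℤ, ¬ (p : ℤ) ∣ x →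
      (p : ℚ) * g x = ∑ t ∈ Finset.range p, g (0 + t * Q) := by
    intro x hx
    rw [← G2 x, Finset.sum_congr rfl (fun t _ => G3 x hx t)]
    simp
  have G5 : ∀ x y : ℤ, ¬ (p : ℤ) ∣ x → ¬ (p : ℤ) ∣ y → g x = g y := by
    intro x y hx hy
    exact mul_left_cancel₀ hp0 ((G4 x hx).trans (G4 y hy).symm)
  have u1 := tfoua_one hp
  have hp3 : 3 ≤ p := by
    have := hp.two_le
    omega
  have un : ∀ (j : ℤ) (m : ℕ), m + 1 < p → ¬ (p : ℤ) ∣ p * j + 1 + m := by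
    intro j m hm' hd
    have e1 : (p : ℤ) * j + 1 + m = p * j + ((m + 1 : ℕ) : ℤ) := by push_cast; ring
    rw [e1, dvd_add_right (Dvd.intro _ rfl)] at hd
    have : p ∣ m + 1 := by exact_mod_cast hd
    have := Nat.le_of_dvd (by omega) this
    omega
  have A1 : ∀ (j : ℤ) (m : ℕ), m + 1 < p →
      D (p * j + 1 + m) = (-1) ^ m * D (p * j + 1) := by
    intro j m
    induction m with
    | zero => intro _; simp
    | succ m ih =>
      intro hm'
      have i1 := ih (by omega)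
      have s := h1 (p * j + 1 + m)
      have e1 : (p : ℤ) * j + 1 + ((m + 1 : ℕ) : ℤ) = p * j + 1 + m + 1 := by push_cast; ring
      have c := G5 _ _ (un j (m + 1) hm') (un j m (by omega))
      rw [e1] at c ⊢
      rw [pow_succ]
      linarith
  have A2 : ∀ j : ℤ, D (p * (j + 1) + 1) = D (p * j + 1) := by
    intro j
    obtain ⟨m, hm'⟩ : ∃ m, p = m + 2 := ⟨p - 2, by omega⟩
    have hodd : Odd m := by
      have := hp.odd_of_ne_two h2
      rw [hm'] at this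
      exact (Nat.odd_add.mp this).mpr (by decide)
    have a := A1 j m (by omega)
    rw [hodd.neg_one_pow] at a
    have e1 : (p : ℤ) * j + 1 + m + 1 = p * (j + 1) := by
      have : (p : ℤ) = m + 2 := by exact_mod_cast hm'
      linear_combination -this
    have s1 := h1 (p * j + 1 + m)
    have s2 := h1 (p * (j + 1))
    rw [e1] at s1
    have z := hm (j + 1)
    have v : ¬ (p : ℤ) ∣ p * (j + 1) + 1 := by
      have := un (j + 1) 0 (by omega)
      simpa using this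
    have c := G5 _ _ v (un j m (by omega))
    linarith
  have A3 : ∀ j : ℕ, D (p * j + 1) = D 1 := by
    intro j
    induction j with
    | zero => simp
    | succ j ih => push_cast; rw [A2, ih]
  have A4 : ∀ t ∈ Finset.range p, D (1 + t * Q) = D 1 := by
    intro t _
    rw [← A3 (t * q)]
    congr 1
    rw [hQ]
    push_cast
    ring
  have A5 := hs 1
  rw [Finset.sum_congr rfl A4] at A5
  simpa [hp.ne_zero] using A5

theorem fou_pair (hp : p.Prime) (h2 : p ≠ 2) (he : 2 ≤ e) (hβ : ¬ (p : ℤ) ∣ β)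
    (hβ' : ¬ (p : ℤ) ∣ β') (hs : (p : ℤ) ^ (e - 1) ∣ β + β')
    (h : ∀ k : ℤ, ¬ (p : ℤ) ∣ k →
      cum (p ^ e, β) (k + (p : ℤ) ^ (e - 1)) + cum (p ^ e, β') (k + (p : ℤ) ^ (e - 1))
        = cum (p ^ e, β) k + cum (p ^ e, β') k) : (p : ℤ) ^ e ∣ β + β' := by
  obtain ⟨n, rfl⟩ : ∃ n, e = n + 2 := ⟨e - 2, by omega⟩
  have e0 : n + 2 - 1 = n + 1 := by omega
  rw [e0] at h hs
  have hp0 : (p : ℚ) ≠ 0 := by exact_mod_cast hp.ne_zero
  have hpi : Prime (p : ℤ) := Nat.prime_iff_prime_int.mp hp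
  have c1 : IsCoprime (p : ℤ) β := (Prime.coprime_iff_not_dvd hpi).mpr hβ
  have c2 : IsCoprime (p : ℤ) β' := (Prime.coprime_iff_not_dvd hpi).mpr hβ'
  have eN : p ^ (n + 2) = p * (p * p ^ n) := by ring
  have eq' : ((p * p ^ n : ℕ) : ℤ) = (p : ℤ) ^ (n + 1) := by push_cast; ring
  have hs' : ((p * p ^ n : ℕ) : ℤ) ∣ β + β' := by rw [eq']; exact hs
  have hpos : 0 < p * p ^ n := Nat.mul_pos hp.pos (pow_pos hp.pos _)
  have hN : ∀ b : ℤ, 0 < ((p ^ (n + 2), b) : ℕ × ℤ).1 := fun _ => pow_pos hp.pos _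
  have key := tfoua_abs hp h2 (fun x => cum (p ^ (n + 2), β) x + cum (p ^ (n + 2), β') x)
    (fun x => jq (p ^ (n + 2), β) x + jq (p ^ (n + 2), β') x) (p ^ n)
    (by
      intro x
      simp only [cum_succ (hN β), cum_succ (hN β')]
      ring)
    (by
      intro x
      rw [Finset.sum_add_distrib, eN, jq_dist hp.pos hpos c1, jq_dist hp.pos hpos c2]
      exact jq_neg _ hs' x)
    (by
      intro j
      simp only [eN]
      rw [jq_mul hp.pos, jq_mul hp.pos]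
      exact jq_neg _ hs' j)
    (by
      intro k hk
      simp only [eq']
      exact h k hk)
  have u1 := tfoua_one hp
  obtain ⟨n1, h1⟩ := tfoua_unit (e := n + 2) hp (by omega) hβ u1
  obtain ⟨n2, h2'⟩ := tfoua_unit (e := n + 2) hp (by omega) hβ' u1
  simp only [h1, h2'] at key
  have k2 : (β : ℚ) + β' = (p : ℚ) ^ (n + 2) * (n1 + n2 + 1) := by
    have hpn : (p : ℚ) ^ (n + 2) ≠ 0 := pow_ne_zero _ hp0
    have : ((β : ℚ) + β') / (p : ℚ) ^ (n + 2) = n1 + n2 + 1 := by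
      push_cast at key
      rw [add_div]
      simp only [one_mul] at key
      linarith
    rw [← this]
    field_simp
  have k3 : β + β' = (p : ℤ) ^ (n + 2) * (n1 + n2 + 1) := by exact_mod_cast k2
  exact Dvd.intro _ k3.symm

end Pool.Agent.P.MP_3d25f3_gt.G
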