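import Pool.Agent.P.MP_3d25f3_gt.TAvg
import Pool.Agent.P.MP_3d25f3_gt.TFouA

set_option autoImplicit false

open Set Filter Topology

namespace Pool.Agent.P.MP_3d25f3_gt.G

variable {p a : ℕ} {I : Finset ℕ} {e : ℕ → ℕ} {β : ℕ → ℤ} {L L' : AddSubgroup (ℕ → ℤ)}

lemma jq_of_cum {J : Finset ℕ} {q : ℕ → ℕ × ℤ} (hq : ∀ i ∈ J, 0 < (q i).1)
    (h : ∀ k : ℤ, ∑ i ∈ J, cum (q i) k = 0) (k : ℤ) : ∑ i ∈ J, jq (q i) k = 0 := by
  have key : ∀ x : ℤ, ∑ i ∈ J, jq (q i) x + ∑ i ∈ J, jq (q i) (x + 1) = 0 := fun x => by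
    have h1 := h (x + 1)
    rw [Finset.sum_congr rfl fun i hi => cum_succ (hq i hi) x, Finset.sum_add_distrib, h x,
      zero_add, Finset.sum_add_distrib] at h1
    exact h1
  induction k using Int.induction_on with
  | zero => exact Finset.sum_eq_zero fun i _ => jq_zero _
  | succ n ih => have := key n; rwa [ih, zero_add] at this
  | pred n ih => have := key (-n - 1); rwa [sub_add_cancel, ih, add_zero] at this

/-- the partner of an index of level at least two -/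
theorem Lag.partner (h : Lag p a I e β L L') (h2 : p ≠ 2)
    (H1 : ∀ y ∈ L, ∀ k k' : ℤ, ¬ (p : ℤ) ∣ k → ¬ (p : ℤ) ∣ k' →
      ∑ i ∈ I, cum (p ^ e i, β i) (p * y i + k) = ∑ i ∈ I, cum (p ^ e i, β i) (p * y i + k')) :
    ∃ σ : ℕ → ℕ, ∀ j ∈ I, 2 ≤ e j → σ j ∈ I ∧ σ j ≠ j ∧ e (σ j) = e j ∧ σ (σ j) = j ∧
      (p : ℤ) ^ e j ∣ β j + β (σ j) := by
  classical
  set R : ℕ → ℕ → Prop := fun i j => e i = e j ∧ ∀ y ∈ L, (p : ℤ) ^ (e j - 1) ∣ y i - y j with hR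
  have hp : Prime (p : ℤ) := Nat.prime_iff_prime_int.1 h.prime
  have pr : ∀ j, 2 ≤ e j → ∀ i ∈ I, ∀ i' ∈ I, R i j → R i' j → i ≠ i' →
      (p : ℤ) ^ (e j - 1) ∣ β i + β i' := fun j he i hi i' hi' r r' ne =>
    (h.pair hi hi' ne (by omega) (by have := r.1; omega) (by have := r'.1; omega) fun y hy => by
      have := dvd_sub (r.2 y hy) (r'.2 y hy)
      rwa [sub_sub_sub_cancel_right] at this).2
  have rf : ∀ j, R j j := fun j => ⟨rfl, fun y _ => by simp⟩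
  have three : ∀ j ∈ I, 2 ≤ e j → ∀ i ∈ I, ∀ i' ∈ I, R i j → R i' j → i ≠ j → i' ≠ j → i = i' := by
    intro j hj he i hi i' hi' r r' n n'
    by_contra ne
    have d : (p : ℤ) ∣ (p : ℤ) ^ (e j - 1) := dvd_pow_self _ (by omega)
    have a1 := d.trans (pr j he i hi j hj r (rf j) n)
    have a2 := d.trans (pr j he i' hi' j hj r' (rf j) n')
    have a3 := d.trans (pr j he i hi i' hi' r r' ne)
    have a4 : (p : ℤ) ∣ 2 * β j := by
      have := dvd_sub (dvd_add a1 a2) a3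
      rwa [show β i + β j + (β i' + β j) - (β i + β i') = 2 * β j by ring] at this
    rcases hp.dvd_or_dvd a4 with a5 | a5
    · exact h2 ((Nat.prime_dvd_prime_iff_eq h.prime Nat.prime_two).1 (by exact_mod_cast a5))
    · exact h.unit j hj a5
  have ex : ∀ j, j ∈ I → 2 ≤ e j → ∃ j', j' ∈ I ∧ j' ≠ j ∧ R j' j := by
    intro j hj he
    by_contra hn
    refine fou_single h.prime h2 he (h.unit j hj) fun k hk => ?_
    have h1 := h.per H1 hj he hk
    have h3 : I.filter (fun i => R i j) = {j} := by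
      ext i
      rw [Finset.mem_filter, Finset.mem_singleton]
      exact ⟨fun hi => by_contra fun ne => hn ⟨i, hi.1, ne, hi.2⟩,
        fun hi => by rw [hi]; exact ⟨hj, rf _⟩⟩
    have h4 : ∀ f : ℕ → ℚ, ∑ i ∈ I.filter (fun i => R i j), f i = f j := fun f => by
      rw [h3, Finset.sum_singleton]
    rw [← h4 fun i => cum (p ^ e i, β i) (k + (p : ℤ) ^ (e j - 1)),
      ← h4 fun i => cum (p ^ e i, β i) k]
    convert h1
  choose! σ hσ using ex
  refine ⟨σ, fun j hj he => ?_⟩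
  obtain ⟨s1, s2, s3⟩ := hσ j hj he
  have he' : 2 ≤ e (σ j) := by rw [s3.1]; exact he
  obtain ⟨t1, t2, t3⟩ := hσ (σ j) s1 he'
  have s4 : R j (σ j) := ⟨s3.1.symm, fun y hy => by
    rw [s3.1, ← neg_sub]; exact (s3.2 y hy).neg_right⟩
  refine ⟨s1, s2, s3.1, three _ s1 he' _ t1 _ hj t3 s4 t2 s2.symm, ?_⟩
  refine fou_pair h.prime h2 he (h.unit j hj) (h.unit _ s1) (pr j he j hj _ s1 (rf j) s3 s2.symm)
    fun k hk => ?_
  have h1 := h.per H1 hj he hk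
  have h3 : I.filter (fun i => R i j) = {j, σ j} := by
    ext i
    rw [Finset.mem_filter, Finset.mem_insert, Finset.mem_singleton]
    refine ⟨fun hi => (em (i = j)).imp_right fun ne => three j hj he i hi.1 _ s1 hi.2 s3 ne s2, ?_⟩
    rintro (rfl | rfl)
    exacts [⟨hj, rf _⟩, ⟨s1, s3⟩]
  have h4 : ∀ f : ℕ → ℚ, ∑ i ∈ I.filter (fun i => R i j), f i = f j + f (σ j) := fun f => by
    rw [h3, Finset.sum_pair s2.symm]
  have h5 := h4 fun i => cum (p ^ e i, β i) (k + (p : ℤ) ^ (e j - 1))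
  have h6 := h4 fun i => cum (p ^ e i, β i) k
  simp only [s3.1] at h5 h6
  rw [← h5, ← h6]
  convert h1

theorem Lag.main (h : Lag p a I e β L L')
    (H0 : ∀ k : ℤ, (∀ i ∈ I, ¬ (p : ℤ) ^ e i ∣ k) → ∑ i ∈ I, cum (p ^ e i, β i) k = 0)
    (H1 : ∀ y ∈ L, ∀ k k' : ℤ, ¬ (p : ℤ) ∣ k → ¬ (p : ℤ) ∣ k' →
      ∑ i ∈ I, cum (p ^ e i, β i) (p * y i + k) = ∑ i ∈ I, cum (p ^ e i, β i) (p * y i + k'))
    (k : ℤ) : ∑ i ∈ I, jq (p ^ e i, β i) k = 0 := by
  classical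
  have pos : ∀ i, 0 < ((p ^ e i, β i) : ℕ × ℤ).1 := fun i => pow_pos h.prime.pos _
  have zero : ∀ i (k : ℤ), (p : ℤ) ^ e i ∣ k → cum (p ^ e i, β i) k = 0 := fun i k hk => by
    rw [← cum_zero (p ^ e i, β i)]
    exact cum_congr (Int.modEq_zero_iff_dvd.2 (by exact_mod_cast hk))
  by_cases h2 : p = 2
  · refine jq_of_cum (q := fun i => (p ^ e i, β i)) (fun i _ => pos i) (fun k => ?_) k
    by_cases hk : ∃ i ∈ I, (p : ℤ) ^ e i ∣ k
    · obtain ⟨j, hj, hk⟩ := hk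
      refine Finset.sum_eq_zero fun i hi => zero i k ?_
      subst h2
      rwa [h.two hi hj]
    · exact H0 k fun i hi hd => hk ⟨i, hi, hd⟩
  obtain ⟨σ, hσ⟩ := h.partner h2 H1
  have inv : ∀ f : ℕ × ℤ → ℚ, (∀ (α : ℕ) (b b' : ℤ), (α : ℤ) ∣ b + b' → f (α, b) + f (α, b') = 0) →
      ∑ i ∈ I, f (p ^ e i, β i) = ∑ i ∈ I.filter (fun i => ¬ 2 ≤ e i), f (p ^ e i, β i) := by
    intro f hf
    rw [← Finset.sum_filter_add_sum_filter_not I fun i => 2 ≤ e i, add_eq_right]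
    refine Finset.sum_involution (fun i _ => σ i) (fun i hi => ?_) (fun i hi _ => ?_)
      (fun i hi => ?_) fun i hi => ?_ <;> obtain ⟨h1, h3⟩ := Finset.mem_filter.1 hi <;>
      obtain ⟨s1, s2, s3, s4, s5⟩ := hσ i h1 h3
    · rw [s3]; exact hf _ _ _ (by exact_mod_cast s5)
    · exact s2
    · exact Finset.mem_filter.2 ⟨s1, s3 ▸ h3⟩
    · exact s4
  rw [inv (fun q => jq q k) fun α b b' hb => jq_neg α hb k]
  refine jq_of_cum (q := fun i => (p ^ e i, β i)) (fun i _ => pos i) (fun k => ?_) k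
  by_cases hk : (p : ℤ) ∣ k
  · refine Finset.sum_eq_zero fun i hi => zero i k ?_
    obtain ⟨h1, h3⟩ := Finset.mem_filter.1 hi
    rwa [show e i = 1 by have := (h.lev i h1).1; omega, pow_one]
  · rw [← inv (fun q => cum q k) fun α b b' hb => cum_neg α hb k]
    exact H0 k fun i hi hd => hk ((dvd_pow_self _ (by have := (h.lev i hi).1; omega)).trans hd)

end Pool.Agent.P.MP_3d25f3_gt.G
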