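import Pool.Agent.P.MP_3d25f3_gt.TFinB
import Pool.Agent.P.MP_3d25f3_gt.TFinC
import Pool.Agent.P.MP_3d25f3_gt.TFouB
import Pool.Agent.P.MP_3d25f3_gt.Fin

set_option autoImplicit false

open Set Filter Topology

namespace Pool.Agent.P.MP_3d25f3_gt.G

variable {g : ℕ} {S : List (ℕ × ℤ)} {p a : ℕ} {I : Finset ℕ} {e : ℕ → ℕ}

lemma side_main (h : PD g S p a I e) (hS : Data S) (hE : EmbedsFlat (Seifert g S))
    (s s' : Side (Seifert g S))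
    (hs : ∀ u : Seifert g S → Seifert g S → ZMod (p ^ a), CocZ u univ →
      ∃ u₁ u₂, CocZ u₁ s.X ∧ CocZ u₂ s'.X ∧ ∀ x y, u x y = pb s u₁ x y + pb s' u₂ x y)
    {n : E4 → E4 → ℤ} (hn : CocZ n s.X) {A : Cov → ℤ} {ne : ℕ → ℤ} {c : ℤ} (hc : ¬ (p : ℤ) ∣ c)
    (hP : Per g S (pb s n) A (c * p ^ a) ne) (k : ℤ) :
    ∑ i ∈ I, jq (p ^ e i, (pr g S (2 * g + i)).2) k = 0 := by
  have hL : Lag p a I e (fun i => (pr g S (2 * g + i)).2) (LS s p a I e) (LS s' p a I e) :=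
    ⟨h.prime, h.lev, h.unit hS, LS_one h hS s hn hc hP, LS_iso h hS s, LS_iso h hS s',
      LS_spl h hS s s' hs⟩
  have hc' : ¬ p ∣ c.natAbs := fun h1 => hc (Int.natCast_dvd.2 h1)
  refine hL.main (h.H0 hS hE) ?_ k
  rcases Int.natAbs_eq c with e1 | e1
  · exact LS_H1 h hS s hn hc' (by rw [Nat.cast_mul, ← e1, Nat.cast_pow]; exact hP) (h.H0 hS hE)
  · refine LS_H1 h hS s (hn.map negAddMonoidHom) hc' ?_ (h.H0 hS hE) (A := fun y => -A y)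
      (ne := fun e => -ne e)
    have h2 : ((c.natAbs * p ^ a : ℕ) : ℤ) = -(c * p ^ a) := by
      rw [Nat.cast_mul, Nat.cast_pow, ← neg_mul, ← neg_eq_iff_eq_neg.2 e1]
    rw [h2]
    exact hP.map negAddMonoidHom

theorem prime_powers (hS : Data S) (h1 : ∀ q ∈ S, q.1 = 1 ∨ IsPrimePow q.1)
    (hE : EmbedsFlat (Seifert g S)) : Skew S := by
  refine skew_of_symm hS (symm_of_jmp hS fun k => jmp_of_primes (g := g) h1 k fun p a I e h => ?_)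
  obtain ⟨c, hc, -, hd⟩ := h.exists_c hS
  obtain ⟨f, A, ne, hf, hP⟩ := exists_class (g := g) hS hd
  obtain ⟨s₁, s₂, hs⟩ := two_sides hE
  obtain ⟨n₁, n₂, hn₁, hn₂, hn⟩ := hs ℤ f hf
  obtain ⟨A₁, N₁, ne₁, hP₁⟩ := exists_per (pb_coc s₁ hn₁)
  obtain ⟨A₂, N₂, ne₂, hP₂⟩ := exists_per (pb_coc s₂ hn₂)
  have hsum : ((c * p ^ a : ℕ) : ℤ) = N₁ + N₂ := by
    have h2 := hP₁.add hP₂
    rw [← show f = fun x y => pb s₁ n₁ x y + pb s₂ n₂ x y from funext₂ hn] at h2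
    exact ((Per.int.2 hP).uniq h2).1
  obtain ⟨i, hi, hia⟩ := h.top
  have hq : pr g S (2 * g + i) ∈ S := (rnk_mem i).resolve_right fun h0 => by
    have := ((h.mem i).1 hi).2
    rw [h0] at this
    exact h.prime.one_lt.ne' (Nat.dvd_one.1 this)
  have hdv : ∀ {n A N ne}, Per g S n A N ne → (p : ℤ) ^ a ∣ N := fun hP => by
    have := (Per.int.1 hP).dvd hS hq
    rwa [h.pow i hi, hia, Nat.cast_pow] at this
  obtain ⟨c₁, rfl⟩ := hdv hP₁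
  obtain ⟨c₂, rfl⟩ := hdv hP₂
  have hcc : (c : ℤ) = c₁ + c₂ := by
    apply mul_left_cancel₀ (pow_ne_zero a (Nat.cast_ne_zero.2 h.prime.ne_zero : (p : ℤ) ≠ 0))
    push_cast at hsum
    linear_combination hsum
  rw [mul_comm] at hP₁ hP₂
  by_cases hp1 : (p : ℤ) ∣ c₁
  · refine side_main h hS hE s₂ s₁ (fun u hu => ?_) hn₂ (fun hp2 => hc ?_) hP₂ k
    · obtain ⟨u₁, u₂, a1, a2, a3⟩ := hs _ u hu
      exact ⟨u₂, u₁, a2, a1, fun x y => by rw [a3, add_comm]⟩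
    · exact Int.natCast_dvd_natCast.1 (hcc ▸ dvd_add hp1 hp2)
  · exact side_main h hS hE s₁ s₂ (hs _) hn₁ hp1 hP₁ k

end Pool.Agent.P.MP_3d25f3_gt.G
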