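import Pool.Agent.P.MP_3d25f3_gt.Stmt

set_option autoImplicit false

open Set Filter Topology

namespace Pool.Agent.P.MP_3d25f3_gt.G

/-- two complementary isotropic subgroups of the linking pairing -/
structure Lag (p a : ℕ) (I : Finset ℕ) (e : ℕ → ℕ) (β : ℕ → ℤ) (L L' : AddSubgroup (ℕ → ℤ)) :
    Prop where
  prime : p.Prime
  lev : ∀ i ∈ I, 1 ≤ e i ∧ e i ≤ a
  unit : ∀ i ∈ I, ¬ (p : ℤ) ∣ β i
  one : (fun _ => 1) ∈ L
  iso : ∀ y ∈ L, ∀ y' ∈ L, (p : ℤ) ^ a ∣ ∑ i ∈ I, (p : ℤ) ^ (a - e i) * β i * y i * y' i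
  iso' : ∀ y ∈ L', ∀ y' ∈ L', (p : ℤ) ^ a ∣ ∑ i ∈ I, (p : ℤ) ^ (a - e i) * β i * y i * y' i
  spl : ∀ w : ℕ → ℤ, (p : ℤ) ^ a ∣ ∑ i ∈ I, (p : ℤ) ^ (a - e i) * β i * w i →
    ∃ x ∈ L, ∃ x' ∈ L', ∀ i ∈ I, (p : ℤ) ^ e i ∣ w i - x i - x' i

variable {p a : ℕ} {I : Finset ℕ} {e : ℕ → ℕ} {β : ℕ → ℤ} {L L' : AddSubgroup (ℕ → ℤ)}

theorem tlag_cong (h : Lag p a I e β L L') {w x x' : ℕ → ℤ}
    (hw : ∀ i ∈ I, (p : ℤ) ^ e i ∣ w i - x i - x' i) (y : ℕ → ℤ) :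
    (p : ℤ) ^ a ∣ ∑ k ∈ I, (p : ℤ) ^ (a - e k) * β k * (w k - x k - x' k) * y k := by
  refine Finset.dvd_sum fun k hk => ?_
  obtain ⟨c, hc⟩ := hw k hk
  refine ⟨β k * c * y k, ?_⟩
  rw [hc, ← pow_sub_mul_pow (p : ℤ) (h.lev k hk).2]
  ring

theorem tlag_key (h : Lag p a I e β L L') {i j : ℕ} (hi : i ∈ I) (hj : j ∈ I) (hij : i ≠ j)
    (hle : e i ≤ e j) :
    ∃ x ∈ L, (p : ℤ) ^ e i ∣ β j + β i * (p : ℤ) ^ (e j - e i) - 2 * (x i - x j) := by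
  have hp : Prime (p : ℤ) := Nat.prime_iff_prime_int.1 h.prime
  obtain ⟨w, wi, wj, w0⟩ : ∃ w : ℕ → ℤ, w i = β j ∧ w j = -(β i * (p : ℤ) ^ (e j - e i)) ∧
      ∀ k, k ≠ i → k ≠ j → w k = 0 :=
    ⟨fun k => if k = i then β j else if k = j then -(β i * (p : ℤ) ^ (e j - e i)) else 0,
      by simp, by simp [hij.symm], fun k h1 h2 => by simp [h1, h2]⟩
  have e1 : (p : ℤ) ^ (a - e i) = (p : ℤ) ^ (a - e j) * (p : ℤ) ^ (e j - e i) := by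
    rw [← pow_add]
    congr 1
    have := (h.lev j hj).2
    omega
  have hB : ∀ y : ℕ → ℤ, ∑ k ∈ I, (p : ℤ) ^ (a - e k) * β k * w k * y k =
      (p : ℤ) ^ (a - e i) * (β i * (β j * (y i - y j))) := fun y => by
    rw [Finset.sum_eq_add_of_mem i j hi hj hij fun k _ hk => by simp [w0 k hk.1 hk.2], wi, wj, e1]
    ring
  obtain ⟨x, hx, x', hx', hw⟩ := h.spl w (by
    have h1 := hB fun _ => 1
    simp only [mul_one, sub_self, mul_zero] at h1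
    rw [h1]
    exact dvd_zero _)
  refine ⟨x, hx, ?_⟩
  have h1 := (((tlag_cong h hw w).sub (tlag_cong h hw x)).add (tlag_cong h hw x')).sub
    ((h.iso x hx x hx).sub (h.iso' x' hx' x' hx'))
  have e2 : ∑ k ∈ I, (p : ℤ) ^ (a - e k) * β k * (w k - x k - x' k) * w k -
      ∑ k ∈ I, (p : ℤ) ^ (a - e k) * β k * (w k - x k - x' k) * x k +
      ∑ k ∈ I, (p : ℤ) ^ (a - e k) * β k * (w k - x k - x' k) * x' k -
      (∑ k ∈ I, (p : ℤ) ^ (a - e k) * β k * x k * x k -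
        ∑ k ∈ I, (p : ℤ) ^ (a - e k) * β k * x' k * x' k) =
      ∑ k ∈ I, (p : ℤ) ^ (a - e k) * β k * w k * (w k - 2 * x k) := by
    simp only [← Finset.sum_sub_distrib, ← Finset.sum_add_distrib]
    exact Finset.sum_congr rfl fun k _ => by ring
  rw [e2, hB, ← pow_sub_mul_pow (p : ℤ) (h.lev i hi).2,
    mul_dvd_mul_iff_left (pow_ne_zero _ hp.ne_zero), wi, wj] at h1
  have h2 := hp.pow_dvd_of_dvd_mul_left _ (h.unit j hj)
    (hp.pow_dvd_of_dvd_mul_left _ (h.unit i hi) h1)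
  rwa [show β j - 2 * x i - (-(β i * (p : ℤ) ^ (e j - e i)) - 2 * x j) =
    β j + β i * (p : ℤ) ^ (e j - e i) - 2 * (x i - x j) by ring] at h2

theorem tlag_pair (h : Lag p a I e β L L') {i j : ℕ} (hi : i ∈ I) (hj : j ∈ I) (hij : i ≠ j)
    {d : ℕ} (hd : 1 ≤ d) (h1 : d ≤ e i) (hle : e i ≤ e j)
    (hy : ∀ y ∈ L, (p : ℤ) ^ d ∣ y i - y j) : e i = e j ∧ (p : ℤ) ^ d ∣ β i + β j := by
  obtain ⟨x, hx, h2⟩ := tlag_key h hi hj hij hle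
  have h3 := ((pow_dvd_pow _ h1).trans h2).add ((hy x hx).mul_left 2)
  rw [sub_add_cancel] at h3
  rcases hle.eq_or_lt with h4 | h4
  · rw [h4, Nat.sub_self, pow_zero, mul_one, add_comm] at h3
    exact ⟨h4, h3⟩
  · exact absurd ((dvd_add_left ((dvd_pow_self _ (by omega)).mul_left _)).1
      ((dvd_pow_self _ (by omega)).trans h3)) (h.unit j hj)

theorem tlag_two (h : Lag 2 a I e β L L') {i j : ℕ} (hi : i ∈ I) (hj : j ∈ I) : ¬e i < e j :=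
  fun hlt => by
    obtain ⟨x, -, h2⟩ := tlag_key h hi hj (fun e' => hlt.ne (congrArg e e')) hlt.le
    have h1 := (h.lev i hi).1
    have h3 := ((dvd_pow_self _ (by omega)).trans h2).add (dvd_mul_right 2 (x i - x j))
    rw [sub_add_cancel] at h3
    exact h.unit j hj ((dvd_add_left ((dvd_pow_self _ (by omega)).mul_left _)).1 h3)

theorem Lag.pair (h : Lag p a I e β L L') {i j : ℕ} (hi : i ∈ I) (hj : j ∈ I) (hij : i ≠ j)
    {d : ℕ} (hd : 1 ≤ d) (h1 : d ≤ e i) (h2 : d ≤ e j)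
    (hy : ∀ y ∈ L, (p : ℤ) ^ d ∣ y i - y j) : e i = e j ∧ (p : ℤ) ^ d ∣ β i + β j := by
  rcases le_total (e i) (e j) with h3 | h3
  · exact tlag_pair h hi hj hij hd h1 h3 hy
  · have := tlag_pair h hj hi hij.symm hd h2 h3 fun y hy' => dvd_sub_comm.1 (hy y hy')
    exact ⟨this.1.symm, add_comm (β j) (β i) ▸ this.2⟩

theorem Lag.two (h : Lag 2 a I e β L L') {i j : ℕ} (hi : i ∈ I) (hj : j ∈ I) : e i = e j := by
  exact le_antisymm (not_lt.1 (tlag_two h hj hi)) (not_lt.1 (tlag_two h hi hj))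

end Pool.Agent.P.MP_3d25f3_gt.G
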