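import Pool.Agent.P.MP_3d25f3_gt.TIsoB
import Pool.Agent.P.MP_3d25f3_gt.TCls
import Pool.Agent.P.MP_3d25f3_gt.TLag

set_option autoImplicit false

open Set Filter Topology

namespace Pool.Agent.P.MP_3d25f3_gt.G

variable {g : ℕ} {S : List (ℕ × ℤ)} {p a : ℕ} {I : Finset ℕ} {e : ℕ → ℕ}

/-- the cone points whose order is a power of `p` -/
structure PD (g : ℕ) (S : List (ℕ × ℤ)) (p a : ℕ) (I : Finset ℕ) (e : ℕ → ℕ) : Prop where
  prime : p.Prime
  mem : ∀ i, i ∈ I ↔ i ≤ S.length ∧ p ∣ (pr g S (2 * g + i)).1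
  pow : ∀ i ∈ I, (pr g S (2 * g + i)).1 = p ^ e i
  le : ∀ i ∈ I, e i ≤ a
  top : ∃ i ∈ I, e i = a

/-- slit vectors of the classes modulo `p ^ a` that extend over a side -/
def LS (s : Side (Seifert g S)) (p a : ℕ) (I : Finset ℕ) (e : ℕ → ℕ) : AddSubgroup (ℕ → ℤ) where
  carrier := {y | ∃ (u : E4 → E4 → ZMod (p ^ a)) (A : Cov → ZMod (p ^ a)) (ne : ℕ → ZMod (p ^ a)),
    CocZ u s.X ∧ Per g S (pb s u) A 0 ne ∧ ∀ i ∈ I, ne (2 * g + i)
      = (((p : ℤ) ^ (a - e i) * (pr g S (2 * g + i)).2 * y i : ℤ) : ZMod (p ^ a))}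
  zero_mem' := by
    refine ⟨fun _ _ => 0, fun _ => 0, fun _ => 0, fun _ _ => ⟨univ, univ_mem, ?_⟩,
      ⟨fun _ => ⟨univ, univ_mem, ?_⟩, ?_, ?_⟩, ?_⟩
    all_goals simp [pb]
  add_mem' := by
    rintro y y' ⟨u, A, ne, h1, h2, h3⟩ ⟨u', A', ne', h1', h2', h3'⟩
    refine ⟨fun a b => u a b + u' a b, fun z => A z + A' z, fun k => ne k + ne' k,
      fun x hx => ?_, ?_, fun i hi => ?_⟩
    · obtain ⟨U, hU, k1⟩ := h1 x hx
      obtain ⟨V, hV, k2⟩ := h1' x hx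
      refine ⟨U ∩ V, inter_mem hU hV, fun a ha b hb c hc => ?_⟩
      linear_combination k1 a ha.1 b hb.1 c hc.1 + k2 a ha.2 b hb.2 c hc.2
    · have := h2.add h2'
      rw [add_zero] at this
      exact this
    · show ne (2 * g + i) + ne' (2 * g + i) = _
      rw [h3 i hi, h3' i hi, Pi.add_apply]
      push_cast
      ring
  neg_mem' := by
    rintro y ⟨u, A, ne, h1, h2, h3⟩
    refine ⟨fun a b => -u a b, fun z => -A z, fun k => -ne k, h1.map negAddMonoidHom, ?_,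
      fun i hi => ?_⟩
    · have := h2.map negAddMonoidHom
      rw [map_zero] at this
      exact this
    · show -ne (2 * g + i) = _
      rw [h3 i hi, Pi.neg_apply]
      push_cast
      ring

lemma tfina_cop (hp : p.Prime) {z : ℤ} (hz : ¬ (p : ℤ) ∣ z) (k : ℕ) :
    IsCoprime ((p : ℤ) ^ k) z :=
  ((Nat.prime_iff_prime_int.1 hp).coprime_iff_not_dvd.2 hz).pow_left

lemma tfina_pow (p a : ℕ) : (p : ZMod (p ^ a)) ^ a = 0 := by
  exact_mod_cast ZMod.natCast_self (p ^ a)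

lemma tfina_zero (z : ℤ) : (z : ZMod (p ^ a)) = 0 ↔ (p : ℤ) ^ a ∣ z := by
  rw [ZMod.intCast_zmod_eq_zero_iff_dvd]
  push_cast
  rfl

lemma tfina_inv (hp : p.Prime) {z : ℤ} (hz : ¬ (p : ℤ) ∣ z) (a : ℕ) :
    ∃ m : ℤ, (m : ZMod (p ^ a)) * z = 1 := by
  obtain ⟨u, v, h⟩ := tfina_cop hp hz a
  refine ⟨v, ?_⟩
  have h1 := congrArg (Int.cast : ℤ → ZMod (p ^ a)) h
  push_cast at h1
  rw [tfina_pow, mul_zero, zero_add] at h1
  exact h1

lemma tfina_split (p : ℕ) {k : ℕ} (hk : k ≤ a) : (p : ℤ) ^ a = (p : ℤ) ^ k * (p : ℤ) ^ (a - k) := by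
  rw [← pow_add, Nat.add_sub_cancel' hk]

lemma tfina_kill (hp : p.Prime) {k : ℕ} (hk : k ≤ a) {β : ℤ} (hβ : ¬ (p : ℤ) ∣ β)
    {x : ZMod (p ^ a)} (hx : (p : ZMod (p ^ a)) ^ k * x = 0) :
    ∃ y : ℤ, x = (((p : ℤ) ^ (a - k) * β * y : ℤ) : ZMod (p ^ a)) := by
  obtain ⟨z, rfl⟩ := ZMod.intCast_surjective x
  have h1 : (p : ℤ) ^ a ∣ (p : ℤ) ^ k * z := by
    rw [← tfina_zero]
    push_cast
    exact hx
  have hp0 : (p : ℤ) ^ k ≠ 0 := pow_ne_zero _ (by exact_mod_cast hp.ne_zero)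
  rw [tfina_split p hk, mul_dvd_mul_iff_left hp0] at h1
  obtain ⟨w, rfl⟩ := h1
  obtain ⟨m, hm⟩ := tfina_inv hp hβ a
  refine ⟨m * w, ?_⟩
  push_cast
  linear_combination (-(p : ZMod (p ^ a)) ^ (a - k) * w) * hm

lemma tfina_NE {i : ℕ} (hi : i ≤ S.length) : 2 * g + i < NE g S := by
  unfold NE
  omega

lemma PD.lev (h : PD g S p a I e) : ∀ i ∈ I, 1 ≤ e i ∧ e i ≤ a := by
  refine fun i hi => ⟨Nat.one_le_iff_ne_zero.2 fun h0 => ?_, h.le i hi⟩
  have h1 := ((h.mem i).1 hi).2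
  rw [h.pow i hi, h0, pow_zero] at h1
  exact h.prime.one_lt.ne' (Nat.dvd_one.1 h1)

lemma PD.unit (h : PD g S p a I e) (hS : Data S) :
    ∀ i ∈ I, ¬ (p : ℤ) ∣ (pr g S (2 * g + i)).2 := by
  intro i hi h1
  have h2 : (p : ℤ) ∣ ((pr g S (2 * g + i)).1 : ℤ) := Int.natCast_dvd_natCast.2 ((h.mem i).1 hi).2
  have h3 := Int.dvd_gcd h2 h1
  rw [(pr_data hS _).2] at h3
  exact h.prime.one_lt.ne' (Nat.dvd_one.1 h3)

lemma PD.per_zero (h : PD g S p a I e) (hS : Data S) {u : Seifert g S → Seifert g S → ZMod (p ^ a)}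
    {A : Cov → ZMod (p ^ a)} {N : ZMod (p ^ a)} {ne : ℕ → ZMod (p ^ a)} (hu : Per g S u A N ne) :
    N = 0 ∧ ∀ i ≤ S.length, i ∉ I → ne (2 * g + i) = 0 := by
  have hN : N = 0 := by
    obtain ⟨i, hi, hia⟩ := h.top
    have h1 := hu.slit hS (e := 2 * g + i) (by omega) (tfina_NE ((h.mem i).1 hi).1)
    rw [h.pow i hi, hia, ZMod.natCast_self, zero_mul] at h1
    obtain ⟨m, hm⟩ := tfina_inv h.prime (h.unit hS i hi) a
    linear_combination -N * hm - (m : ZMod (p ^ a)) * h1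
  refine ⟨hN, fun i hi hI => ?_⟩
  have h1 := hu.slit hS (e := 2 * g + i) (by omega) (tfina_NE hi)
  rw [hN, mul_zero] at h1
  have h2 : ¬ (p : ℤ) ∣ ((pr g S (2 * g + i)).1 : ℤ) := fun h3 =>
    hI ((h.mem i).2 ⟨hi, Int.natCast_dvd_natCast.1 h3⟩)
  obtain ⟨m, hm⟩ := tfina_inv h.prime h2 a
  rw [Int.cast_natCast] at hm
  linear_combination -ne (2 * g + i) * hm + (m : ZMod (p ^ a)) * h1

lemma tfina_sub (h : PD g S p a I e) : I ⊆ Finset.range (S.length + 1) := fun i hi =>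
  Finset.mem_range.2 (Nat.lt_succ_of_le ((h.mem i).1 hi).1)

theorem LS_iso (h : PD g S p a I e) (hS : Data S) (s : Side (Seifert g S)) :
    ∀ y ∈ LS s p a I e, ∀ y' ∈ LS s p a I e,
      (p : ℤ) ^ a ∣ ∑ i ∈ I, (p : ℤ) ^ (a - e i) * (pr g S (2 * g + i)).2 * y i * y' i := by
  rintro y ⟨u, A, ne, h1, h2, h3⟩ y' ⟨u', A', ne', h1', h2', h3'⟩
  have : NeZero (p ^ a) := ⟨pow_ne_zero _ h.prime.ne_zero⟩
  have key := iso_sum hS h2 h2' (tr_Bc s h.prime h1 h1')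
    (fun i => if i ∈ I then (p : ℤ) ^ (a - e i) * y' i else 0) (fun i => if i ∈ I then y' i else 0)
    (fun i hi => by
      by_cases hI : i ∈ I
      · rw [if_pos hI, h3' i hI]
        push_cast
        ring
      · rw [if_neg hI, (h.per_zero hS h2').2 i hi hI]
        simp)
    (fun i _ => by
      by_cases hI : i ∈ I
      · rw [if_pos hI, if_pos hI, h.pow i hI]
        push_cast
        rw [tfina_split p (h.le i hI), mul_assoc]
      · rw [if_neg hI, if_neg hI]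
        simp)
  rw [← Finset.sum_subset (tfina_sub h) fun i _ hI => by simp [hI]] at key
  rw [← tfina_zero, ← key, Int.cast_sum]
  refine Finset.sum_congr rfl fun i hi => ?_
  rw [if_pos hi, h3 i hi, Int.cast_mul]

theorem LS_one (h : PD g S p a I e) (hS : Data S) (s : Side (Seifert g S)) {n : E4 → E4 → ℤ}
    (hn : CocZ n s.X) {A : Cov → ℤ} {ne : ℕ → ℤ} {c : ℤ} (hc : ¬ (p : ℤ) ∣ c)
    (hP : Per g S (pb s n) A (c * p ^ a) ne) : (fun _ => 1) ∈ LS s p a I e := by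
  obtain ⟨m, hm⟩ := tfina_inv h.prime hc a
  let d : ℤ →+ ZMod (p ^ a) :=
    (AddMonoidHom.mulLeft (m : ZMod (p ^ a))).comp (Int.castAddHom (ZMod (p ^ a)))
  have hd : ∀ z : ℤ, d z = (m : ZMod (p ^ a)) * z := fun _ => rfl
  refine ⟨fun x y => d (n x y), fun z => d (A z), fun k => d (ne k), hn.map d, ?_, fun i hi => ?_⟩
  · have h1 := hP.map d
    have h2 : d (c * p ^ a) = 0 := by
      rw [hd]
      push_cast
      rw [tfina_pow, mul_zero, mul_zero]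
    rw [h2] at h1
    exact h1
  · have h1 := hP.slit hS (e := 2 * g + i) (by omega) (tfina_NE ((h.mem i).1 hi).1)
    rw [h.pow i hi, Int.cast_id, tfina_split p (h.le i hi)] at h1
    push_cast at h1
    have hp0 : (p : ℤ) ^ e i ≠ 0 := pow_ne_zero _ (by exact_mod_cast h.prime.ne_zero)
    have h2 : ne (2 * g + i) = (p : ℤ) ^ (a - e i) * (pr g S (2 * g + i)).2 * c :=
      mul_left_cancel₀ hp0 (by rw [h1]; ring)
    show d (ne (2 * g + i)) = _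
    rw [hd, h2]
    push_cast
    linear_combination ((p : ZMod (p ^ a)) ^ (a - e i) * (pr g S (2 * g + i)).2) * hm

lemma tfina_mem (h : PD g S p a I e) (hS : Data S) (s : Side (Seifert g S))
    {u : E4 → E4 → ZMod (p ^ a)} (hu : CocZ u s.X) :
    ∃ A ne, Per g S (pb s u) A 0 ne ∧ ∃ x ∈ LS s p a I e, ∀ i ∈ I, ne (2 * g + i)
      = (((p : ℤ) ^ (a - e i) * (pr g S (2 * g + i)).2 * x i : ℤ) : ZMod (p ^ a)) := by
  obtain ⟨A, N, ne, hP⟩ := exists_per (pb_coc s hu)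
  obtain rfl := (h.per_zero hS hP).1
  have h1 : ∀ i, ∃ x : ℤ, i ∈ I → ne (2 * g + i)
      = (((p : ℤ) ^ (a - e i) * (pr g S (2 * g + i)).2 * x : ℤ) : ZMod (p ^ a)) := fun i => by
    by_cases hi : i ∈ I
    · have h2 := hP.slit hS (e := 2 * g + i) (by omega) (tfina_NE ((h.mem i).1 hi).1)
      rw [h.pow i hi, mul_zero, Nat.cast_pow] at h2
      obtain ⟨x, hx⟩ := tfina_kill h.prime (h.le i hi) (h.unit hS i hi) h2
      exact ⟨x, fun _ => hx⟩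
    · exact ⟨0, fun h2 => absurd h2 hi⟩
  choose x hx using h1
  exact ⟨A, ne, hP, x, ⟨u, A, ne, hu, hP, hx⟩, hx⟩

theorem LS_spl (h : PD g S p a I e) (hS : Data S) (s s' : Side (Seifert g S))
    (hs : ∀ u : Seifert g S → Seifert g S → ZMod (p ^ a), CocZ u univ →
      ∃ u₁ u₂, CocZ u₁ s.X ∧ CocZ u₂ s'.X ∧ ∀ x y, u x y = pb s u₁ x y + pb s' u₂ x y)
    (w : ℕ → ℤ) (hw : (p : ℤ) ^ a ∣ ∑ i ∈ I, (p : ℤ) ^ (a - e i) * (pr g S (2 * g + i)).2 * w i) :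
    ∃ x ∈ LS s p a I e, ∃ x' ∈ LS s' p a I e, ∀ i ∈ I, (p : ℤ) ^ e i ∣ w i - x i - x' i := by
  have := s.t2
  obtain ⟨n, A, ne, hn, hP, hne⟩ := exists_tors (g := g) hS (Γ := ZMod (p ^ a))
    (fun i => if i ∈ I then
      (((p : ℤ) ^ (a - e i) * (pr g S (2 * g + i)).2 * w i : ℤ) : ZMod (p ^ a)) else 0)
    (fun i _ => by
      by_cases hI : i ∈ I
      · rw [if_pos hI, h.pow i hI, ← Int.cast_natCast, ← Int.cast_mul, tfina_zero]
        push_cast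
        rw [tfina_split p (h.le i hI), mul_assoc, ← mul_assoc]
        exact dvd_mul_right _ _
      · rw [if_neg hI, mul_zero])
    (by
      rw [← Finset.sum_subset (tfina_sub h) fun i _ hI => if_neg hI,
        Finset.sum_congr rfl fun i hi => if_pos hi, ← Int.cast_sum, tfina_zero]
      exact hw)
  obtain ⟨u₁, u₂, h1, h2, h3⟩ := hs n hn
  obtain ⟨A₁, ne₁, hP₁, x, hx, e₁⟩ := tfina_mem h hS s h1
  obtain ⟨A₂, ne₂, hP₂, x', hx', e₂⟩ := tfina_mem h hS s' h2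
  refine ⟨x, hx, x', hx', fun i hi => ?_⟩
  have h4 := hP₁.add hP₂
  rw [show (fun a b => pb s u₁ a b + pb s' u₂ a b) = n from
    funext fun a => funext fun b => (h3 a b).symm] at h4
  have h5 := (hP.uniq h4).2 (2 * g + i) (tfina_NE ((h.mem i).1 hi).1)
  rw [hne, if_pos hi] at h5
  rw [e₁ i hi, e₂ i hi] at h5
  have h6 : (p : ℤ) ^ a ∣ (p : ℤ) ^ (a - e i) * ((pr g S (2 * g + i)).2 * (w i - x i - x' i)) := by
    rw [← tfina_zero]
    push_cast at h5 ⊢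
    linear_combination h5
  have hp0 : (p : ℤ) ^ (a - e i) ≠ 0 := pow_ne_zero _ (by exact_mod_cast h.prime.ne_zero)
  rw [tfina_split p (h.le i hi), mul_comm ((p : ℤ) ^ e i), mul_dvd_mul_iff_left hp0] at h6
  exact (tfina_cop h.prime (h.unit hS i hi) (e i)).dvd_of_dvd_mul_left h6

end Pool.Agent.P.MP_3d25f3_gt.G
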