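import Pool.Agent.P.MP_3d25f3_gt.TFinA
import Pool.Agent.P.MP_3d25f3_gt.GCore
import Pool.Agent.P.MP_3d25f3_gt.TCum

set_option autoImplicit false

open Set Filter Topology

namespace Pool.Agent.P.MP_3d25f3_gt.G

variable {g : ℕ} {S : List (ℕ × ℤ)} {p a : ℕ} {I : Finset ℕ} {e : ℕ → ℕ}

/-- the family of characters twisted by a class modulo `Q` -/
lemma exists_fm (Q : ℕ) [NeZero Q] : ∃ f : Fm (ℤ × ZMod Q), (∀ x, f.deg x = x.1) ∧
    (∀ (x : ℤ × ZMod Q) (z : ℤ), x.2 = z → (f.ψ x : ℂ) = rt (z / Q)) ∧ ∀ x, f.ψ x ^ Q = 1 := by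
  refine ⟨⟨AddMonoidHom.fst _ _, (Circle.toUnits.compAddChar ZMod.toCircle).compAddMonoidHom
    (AddMonoidHom.snd ℤ (ZMod Q)), fun x => Circle.norm_coe _⟩, fun _ => rfl, fun x z hz => ?_,
    fun x => ?_⟩
  · change ((ZMod.toCircle x.2 : Circle) : ℂ) = _
    rw [hz, ZMod.toCircle_intCast, rt]
    push_cast
    rw [mul_div_assoc]
  · change Circle.toUnits (ZMod.toCircle x.2) ^ Q = 1
    rw [← map_pow, ← AddChar.map_nsmul_eq_pow, nsmul_eq_mul, ZMod.natCast_self, zero_mul,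
      AddChar.map_zero_eq_one, map_one]

lemma tfinb_crt {c Q : ℕ} (hc : 0 < c) (hQ : 0 < Q) (h : IsCoprime (c : ℤ) Q) (k : ℤ) :
    ∃ m : ℕ, (c : ℤ) ∣ m ∧ (m : ℤ) ≡ k [ZMOD Q] := by
  obtain ⟨u, v, huv⟩ := h
  have h0 : (c : ℤ) * Q ≠ 0 := by positivity
  obtain ⟨m, hm⟩ := Int.eq_ofNat_of_zero_le (Int.emod_nonneg (u * c * k) h0)
  have h1 := Int.mul_ediv_add_emod (u * c * k) (c * Q)
  rw [hm] at h1
  refine ⟨m, ⟨u * k - Q * (u * c * k / (c * Q)), by linear_combination h1⟩, ?_⟩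
  rw [Int.modEq_iff_dvd]
  exact ⟨v * k + c * (u * c * k / (c * Q)), by linear_combination -h1 - k * huv⟩

lemma tfinb_coc {Z Γ Γ' : Type} [TopologicalSpace Z] [CommRing Γ] [CommRing Γ'] {n : Z → Z → Γ}
    {u : Z → Z → Γ'} {F : Set Z} (hn : CocZ n F) (hu : CocZ u F) (t : Γ') :
    CocZ (fun a b => (n a b, t * u a b)) F := by
  intro x hx
  obtain ⟨U, hU, h1⟩ := hn x hx
  obtain ⟨U', hU', h2⟩ := hu x hx
  refine ⟨_, inter_mem hU hU', fun a ha b hb c hc => Prod.ext (h1 a ha.1 b hb.1 c hc.1) ?_⟩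
  change t * u a b + t * u b c = t * u a c
  rw [← mul_add, h2 a ha.2 b hb.2 c hc.2]

lemma tfinb_per {Γ Γ' : Type} [CommRing Γ] [CommRing Γ'] {n : Seifert g S → Seifert g S → Γ}
    {A : Cov → Γ} {N : Γ} {ne : ℕ → Γ} {u : Seifert g S → Seifert g S → Γ'} {A' : Cov → Γ'}
    {ne' : ℕ → Γ'} (h : Per g S n A N ne) (h' : Per g S u A' 0 ne') (t : Γ') :
    Per g S (fun a b => (n a b, t * u a b)) (fun y => (A y, t * A' y)) (N, 0)
      (fun e => (ne e, t * ne' e)) := by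
  refine ⟨fun y => ?_, fun y z => Prod.ext (h.per y z) ?_,
    fun e he s hs z => Prod.ext (h.arc e he s hs z) ?_⟩
  · obtain ⟨U, hU, hh⟩ := per_and h.prim h'.prim y
    refine ⟨U, hU, fun a ha b hb => Prod.ext (hh a ha b hb).1 ?_⟩
    change t * u _ _ = t * A' b - t * A' a
    rw [(hh a ha b hb).2, mul_sub]
  · change t * A' (y, z + 1) = t * A' (y, z) + 0
    rw [h'.per, add_zero, add_zero]
  · change t * A' _ = t * A' _ + t * ne' e
    rw [h'.arc e he s hs, mul_add]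

lemma tfinb_rt (hS : Data S) (j : ℕ) (x z : ℤ) :
    rt (x * (pr g S j).2 / (pr g S j).1 + z * (pr g S j).2 / (pr g S j).1) = 1 ↔
      ((pr g S j).1 : ℤ) ∣ x + z := by
  rw [← add_div, ← add_mul, ← Int.cast_add, ← Int.cast_mul, prm_rt _ (pr_data hS _).1]
  exact ⟨fun h1 => Int.dvd_of_dvd_mul_left_of_gcd_one h1 (pr_data hS _).2, fun h1 => h1.mul_right _⟩

lemma tfinb_off (h : PD g S p a I e) (hS : Data S) {n : Seifert g S → Seifert g S → ℤ}
    {A : Cov → ℤ} {ne : ℕ → ℤ} {c : ℕ} (hP : Per g S n A (c * p ^ a : ℕ) ne) {i : ℕ}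
    (hi : i ≤ S.length) (hI : i ∉ I) : ((pr g S (2 * g + i)).1 : ℤ) ∣ c := by
  have h1 := hP.slit hS (e := 2 * g + i) (by omega) (by unfold NE; omega)
  have h2 : ((pr g S (2 * g + i)).1 : ℤ) ∣ (c * p ^ a : ℕ) :=
    Int.dvd_of_dvd_mul_right_of_gcd_one ⟨_, h1.symm⟩ (pr_data hS _).2
  have h3 : ¬ p ∣ (pr g S (2 * g + i)).1 := fun h3 => hI ((h.mem i).2 ⟨hi, h3⟩)
  exact Int.natCast_dvd_natCast.2 (Nat.Coprime.dvd_of_dvd_mul_right
    (((Nat.Prime.coprime_iff_not_dvd h.prime).2 h3).symm.pow_right a)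
    (Int.natCast_dvd_natCast.1 h2))

theorem LS_H1 (h : PD g S p a I e) (hS : Data S) (s : Side (Seifert g S)) {n : E4 → E4 → ℤ}
    (hn : CocZ n s.X) {A : Cov → ℤ} {ne : ℕ → ℤ} {c : ℕ} (hc : ¬ p ∣ c)
    (hP : Per g S (pb s n) A (c * p ^ a : ℕ) ne)
    (H0 : ∀ k : ℤ, (∀ i ∈ I, ¬ (p : ℤ) ^ e i ∣ k) →
      ∑ i ∈ I, cum (p ^ e i, (pr g S (2 * g + i)).2) k = 0) :
    ∀ y ∈ LS s p a I e, ∀ k k' : ℤ, ¬ (p : ℤ) ∣ k → ¬ (p : ℤ) ∣ k' →
      ∑ i ∈ I, cum (p ^ e i, (pr g S (2 * g + i)).2) (p * y i + k)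
        = ∑ i ∈ I, cum (p ^ e i, (pr g S (2 * g + i)).2) (p * y i + k') := by
  intro y hy k k' hk hk'
  classical
  have hp := h.prime
  have hdv : ∀ i ∈ I, (p : ℤ) ∣ (p : ℤ) ^ e i := fun i hi =>
    dvd_pow_self _ (by have := (h.lev i hi).1; omega)
  obtain ⟨i0, hi0, -⟩ := h.top
  by_cases hc0 : ∃ k0 : ℤ, ∀ i ∈ I, (p : ℤ) ^ e i ∣ p * y i + k0
  · obtain ⟨k0, hk0⟩ := hc0
    have h1 : (p : ℤ) ∣ k0 :=
      (dvd_add_right (dvd_mul_right _ _)).1 ((hdv i0 hi0).trans (hk0 i0 hi0))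
    have key : ∀ k : ℤ, ¬ (p : ℤ) ∣ k →
        ∑ i ∈ I, cum (p ^ e i, (pr g S (2 * g + i)).2) (p * y i + k) = 0 := by
      intro k hk
      rw [← H0 (k - k0) fun i hi h2 => hk ((dvd_sub_left h1).1 ((hdv i hi).trans h2))]
      refine Finset.sum_congr rfl fun i hi => cum_congr ?_
      rw [Int.modEq_iff_dvd]
      push_cast
      rw [show k - k0 - (p * y i + k) = -(p * y i + k0) by ring, dvd_neg]
      exact hk0 i hi
    rw [key k hk, key k' hk']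
  push Not at hc0
  obtain ⟨u, Au, nu, hu, hPu, hnu⟩ := hy
  have hQ : 0 < p ^ a := pow_pos hp.pos a
  have : NeZero (p ^ a) := ⟨hQ.ne'⟩
  obtain ⟨f, f1, f2, f3⟩ := exists_fm (p ^ a)
  have hc1 : 0 < c := Nat.pos_of_ne_zero fun h0 => hc (h0 ▸ dvd_zero p)
  have hcop : IsCoprime (c : ℤ) ((p ^ a : ℕ) : ℤ) :=
    Nat.isCoprime_iff_coprime.2 (((Nat.Prime.coprime_iff_not_dvd hp).2 hc).symm.pow_right a)
  obtain ⟨K, hK1, hK2⟩ := tfinb_crt hc1 hQ hcop k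
  obtain ⟨m, hm1, hm2⟩ := tfinb_crt hc1 hQ hcop (k' - k)
  have hKm : (K : ℤ) + m ≡ k' [ZMOD (p ^ a : ℕ)] := by
    have := hK2.add hm2
    rwa [add_sub_cancel] at this
  have hpa : ∀ i ∈ I, ((p ^ e i : ℕ) : ℤ) ∣ (p ^ a : ℕ) := fun i hi =>
    Int.natCast_dvd_natCast.2 (pow_dvd_pow p (h.le i hi))
  have hnd : ∀ x z : ℤ, x ≡ z [ZMOD (p ^ a : ℕ)] → ¬ (p : ℤ) ∣ z → ¬ (p : ℤ) ∣ x := by
    intro x z h1 h2 h3
    have h4 : (p : ℤ) ∣ z - x :=
      ((hdv i0 hi0).trans (by exact_mod_cast hpa i0 hi0)).trans h1.dvd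
    exact h2 ((dvd_sub_left h3).1 h4)
  let y' : ℕ → ℤ := fun i => if i ∈ I then p * y i else 0
  have hy' : ∀ i ∈ I, y' i = p * y i := fun i hi => if_pos hi
  have hcore := core hS s (tfinb_coc hn hu p) (tfinb_per hP hPu p) f (N₀ := c * p ^ a)
    (Nat.mul_pos hc1 hQ) (f1 _) (Units.ext ((f2 _ 0 (by simp)).trans (by simp [rt])))
    (w := fun i => y' i * (pr g S (2 * g + i)).2 / (pr g S (2 * g + i)).1) (fun i hi => ?_)
    (fun j => ?_) hp f3 ?_ (k := K) (m := m) fun j hj => ⟨?_, fun i hi h1 => ?_⟩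
  · have e1 : ∀ x : ℤ, jw g S (fun i => y' i * (pr g S (2 * g + i)).2 / (pr g S (2 * g + i)).1) x
        = ∑ i ∈ Finset.range (S.length + 1), jq (pr g S (2 * g + i)) (y' i + x) := by
      intro x
      refine Finset.sum_congr rfl fun i _ => ?_
      rw [jq, ← add_div, ← add_mul, Int.cast_add, add_comm]
    simp only [e1, ← Finset.sum_add_distrib] at hcore
    rw [Finset.sum_comm] at hcore
    have e2 : ∀ i ∈ Finset.range (S.length + 1), ∑ j ∈ Finset.range m,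
        (jq (pr g S (2 * g + i)) (y' i + (K + j)) + jq (pr g S (2 * g + i)) (y' i + (K + j + 1))) =
        cum (pr g S (2 * g + i)) (y' i + K + m) - cum (pr g S (2 * g + i)) (y' i + K) := by
      intro i _
      rw [cum_add (pr_data hS _).1, add_sub_cancel_left]
      simp only [add_assoc]
    rw [Finset.sum_congr rfl e2, ← Finset.sum_subset (s₁ := I)
      (fun i hi => Finset.mem_range.2 (Nat.lt_succ_of_le ((h.mem i).1 hi).1))
      (fun i hi hI => sub_eq_zero.2 (cum_congr ?_)), Finset.sum_sub_distrib, sub_eq_zero] at hcore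
    · have e3 : ∀ i ∈ I, ∀ x z : ℤ, x ≡ z [ZMOD (p ^ a : ℕ)] →
          cum (p ^ e i, (pr g S (2 * g + i)).2) (p * y i + z) =
            cum (pr g S (2 * g + i)) (y' i + x) := by
        intro i hi x z hxz
        rw [hy' i hi, ← h.pow i hi]
        refine cum_congr (Int.ModEq.add_left _ (hxz.symm.of_dvd ?_))
        rw [h.pow i hi]
        exact hpa i hi
      rw [Finset.sum_congr rfl fun i hi => e3 i hi _ _ hK2,
        Finset.sum_congr rfl fun i hi => e3 i hi _ _ hKm, ← hcore]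
      simp only [add_assoc]
    · refine Int.ModEq.symm (Int.modEq_iff_dvd.2 ?_)
      rw [add_sub_cancel_left]
      exact (tfinb_off h hS hP (Nat.le_of_lt_succ (Finset.mem_range.1 hi)) hI).trans hm1
  · by_cases hI : i ∈ I
    · rw [f2 _ (p * ((p : ℤ) ^ (a - e i) * (pr g S (2 * g + i)).2 * y i))
        (by rw [Int.cast_mul, ← hnu i hI, Int.cast_natCast]), hy' i hI, h.pow i hI]
      have h2 : (p : ℚ) ≠ 0 := by exact_mod_cast hp.ne_zero
      have h3 : (p : ℚ) ^ a = p ^ (a - e i) * p ^ e i := by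
        rw [← pow_add, Nat.sub_add_cancel (h.le i hI)]
      congr 1
      push_cast
      rw [h3]
      field_simp
    · rw [f2 _ 0 (by
        change p * nu (2 * g + i) = _
        rw [(h.per_zero hS hPu).2 i hi hI, mul_zero, Int.cast_zero]), show y' i = 0 from if_neg hI]
      simp
  · obtain ⟨i, hi, h1⟩ := hc0 j
    refine ⟨i, ((h.mem i).1 hi).1, fun h2 => h1 ?_⟩
    have h3 := (tfinb_rt hS _ _ _).1 h2
    rw [h.pow i hi, hy' i hi, add_comm] at h3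
    exact_mod_cast h3
  · rcases rnk_mem (g := g) (S := S) i0 with h1 | h1
    · exact ⟨_, h1, ((h.mem i0).1 hi0).2⟩
    · have h2 := ((h.mem i0).1 hi0).2
      rw [h1] at h2
      exact absurd (Nat.dvd_one.1 h2) hp.ne_one
  · push_cast
    refine mul_dvd_mul_right ?_ _
    rcases hj with rfl | rfl
    · exact hK1
    · exact hK1.add hm1
  · intro h2
    have h3 := (Int.natCast_dvd_natCast.2 h1).trans ((tfinb_rt hS _ _ _).1 h2)
    rw [hy' i ((h.mem i).2 ⟨hi, h1⟩), dvd_add_left (dvd_mul_right _ _)] at h3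
    rcases hj with rfl | rfl
    · exact hnd _ _ hK2 hk h3
    · exact hnd _ _ hKm hk' h3

end Pool.Agent.P.MP_3d25f3_gt.G
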