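import Pool.Agent.P.MP_3d25f3_gt.TVan
import Pool.Agent.P.MP_3d25f3_gt.GSd

set_option autoImplicit false

open Set Filter Topology

namespace Pool.Agent.P.MP_3d25f3_gt.G

variable {Z : Type} {Q : ℕ}

/-- the integral Bockstein cochain -/
def bkz (v : Z → Z → ZMod Q) (a b c : Z) : ℤ :=
  (((v b c).val : ℤ) - (v a c).val + (v a b).val) / Q

/-- the product of `u` with the Bockstein of `v` -/
def tr (u v : Z → Z → ZMod Q) : List Z → ZMod Q
  | [a, b, c, d] => u a b * (bkz v b c d : ZMod Q)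
  | _ => 0

lemma bkz_mul [NeZero Q] {v : Z → Z → ZMod Q} {a b c : Z} (h : v a b + v b c = v a c) :
    (Q : ℤ) * bkz v a b c = ((v b c).val : ℤ) - (v a c).val + (v a b).val := by
  have hd : (Q : ℤ) ∣ ((v b c).val : ℤ) - (v a c).val + (v a b).val := by
    refine (ZMod.intCast_zmod_eq_zero_iff_dvd _ Q).1 ?_
    push_cast
    simp only [ZMod.natCast_zmod_val]
    linear_combination h
  exact Int.mul_ediv_cancel' hd

lemma bkz_coc [NeZero Q] {v : Z → Z → ZMod Q} {a b c d : Z} (h1 : v a b + v b c = v a c)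
    (h2 : v a b + v b d = v a d) (h3 : v a c + v c d = v a d) (h4 : v b c + v c d = v b d) :
    bkz v b c d - bkz v a c d + bkz v a b d - bkz v a b c = 0 := by
  have hQ : (Q : ℤ) ≠ 0 := Int.natCast_ne_zero.2 (NeZero.ne Q)
  refine mul_left_cancel₀ hQ ?_
  linear_combination bkz_mul h4 - bkz_mul h3 + bkz_mul h2 - bkz_mul h1

lemma tr_Zc [NeZero Q] [TopologicalSpace Z] {u v : Z → Z → ZMod Q} {F : Set Z} (hu : CocZ u F)
    (hv : CocZ v F) : tr u v ∈ Zc (1 : Z → Z → ZMod Q) 3 F ∅ := by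
  refine ⟨by simp, fun x hx => ?_⟩
  obtain ⟨U, hU, h1⟩ := hu x hx
  obtain ⟨V, hV, h2⟩ := hv x hx
  refine ⟨U ∩ V, inter_mem hU hV, fun l hl h => ?_⟩
  match l, hl with
  | [x0, x1, x2, x3, x4], _ =>
    have m0 := h x0 (by simp)
    have m1 := h x1 (by simp)
    have m2 := h x2 (by simp)
    have m3 := h x3 (by simp)
    have m4 := h x4 (by simp)
    have e1 := h1 x0 m0.1 x1 m1.1 x2 m2.1
    have e2 := congrArg (Int.cast : ℤ → ZMod Q) (bkz_coc (h2 x1 m1.2 x2 m2.2 x3 m3.2)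
      (h2 x1 m1.2 x2 m2.2 x4 m4.2) (h2 x1 m1.2 x3 m3.2 x4 m4.2) (h2 x2 m2.2 x3 m3.2 x4 m4.2))
    push_cast at e2
    simp only [D_cons, d0, tr, Pi.one_apply]
    linear_combination (bkz v x2 x3 x4 : ZMod Q) * e1 - u x0 x1 * e2

theorem tr_Bc {M : Type} [TopologicalSpace M] [PreconnectedSpace M] (s : Side M) {p : ℕ}
    (hp : p.Prime) {a : ℕ} {u v : E4 → E4 → ZMod (p ^ a)} (hu : CocZ u s.X) (hv : CocZ v s.X) :
    tr (pb s u) (pb s v) ∈ Bc (1 : M → M → ZMod (p ^ a)) 3 univ ∅ := by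
  have : NeZero (p ^ a) := ⟨pow_ne_zero a hp.ne_zero⟩
  have h0 := van_pp s.xy (by rw [s.inter]; exact isPreconnected_range s.cont) hp a (tr_Zc hu hv)
  have h1 := pull_Bc (Itw_comp (1 : E4 → E4 → ZMod (p ^ a)) s.e univ) (G' := ∅)
    (fun _ _ => s.cont.continuousAt) (empty_subset _)
    (fun x _ => (s.inter.ge (mem_range_self x)).1) (fun _ hx => hx.elim) h0
  have h2 : pull s.e 1 (tr u v) = tr (pb s u) (pb s v) := by
    funext l
    match l with
    | [] => rfl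
    | [_] => simp [tr]
    | [_, _] => simp [tr]
    | [_, _, _] => simp [tr]
    | [_, _, _, _] => simp [tr, pb, bkz]
    | _ :: _ :: _ :: _ :: _ :: _ => simp [tr]
  rw [h2] at h1
  exact h1

end Pool.Agent.P.MP_3d25f3_gt.G
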