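import Pool.Agent.P.MP_3d25f3_gt.GPer
import Pool.Agent.P.MP_3d25f3_gt.AnnB

set_option autoImplicit false

open Set Filter Topology

namespace Pool.Agent.P.MP_3d25f3_gt.G

variable {g : ℕ} {S : List (ℕ × ℤ)} {Q : ℕ} [NeZero Q] {u v : Seifert g S → Seifert g S → ZMod Q}
  {Au Av : Cov → ZMod Q} {nu nv : ℕ → ZMod Q}

/-- sum of the lifts of `v` along the fibre over the vertex `j` -/
noncomputable def fib (v : Seifert g S → Seifert g S → ZMod Q) (m j : ℕ) : ℤ :=
  ∑ c ∈ Finset.range m, ((v (pp g S (bp (LL g S) j, (c : ℝ) / m))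
    (pp g S (bp (LL g S) j, ((c + 1 : ℕ) : ℝ) / m))).val : ℤ)

lemma pp_vert {j : ℕ} (hj : j ≤ LL g S) (h : j ≤ 4 * g ∨ j % 2 = 0) (z : ℝ) :
    pp g S (bp (LL g S) j, z) = pp g S (bp (LL g S) (0 : ℕ), z) := by
  have h0 : (0 : ℝ) ∈ Icc (0 : ℝ) 1 := by simp
  have h1 : (1 : ℝ) ∈ Icc (0 : ℝ) 1 := by simp
  let F : ℕ → Seifert g S := fun j => pp g S (bp (LL g S) j, z)
  have a0 : ∀ e < NE g S, F (st g e + wd g e) = F (st g e) := fun e he => by
    simpa [F, ga, gb] using pp_glue he h0 z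
  have a1 : ∀ e < 2 * g, F (st g e + 2) = F (st g e + 1) := fun e he => by
    have := pp_glue (g := g) (S := S) (e := e) (by unfold NE; omega) h1 z
    have h2 : sh g S e = 0 := by simp [sh, pr, he]
    have h3 : wd g e = 3 := by simp [wd, he]
    simp only [ga, gb, h2, h3, mul_zero, add_zero] at this
    rw [show ((st g e : ℝ) + ((3 : ℕ) : ℝ) - 1) = ((st g e + 2 : ℕ) : ℝ) by push_cast; ring,
      show ((st g e : ℝ) + 1) = ((st g e + 1 : ℕ) : ℝ) by push_cast; ring] at this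
    exact this
  have b0 : ∀ k < g, F (4 * k + 1) = F (4 * k) ∧ F (4 * k + 2) = F (4 * k) ∧
      F (4 * k + 3) = F (4 * k) ∧ F (4 * k + 4) = F (4 * k) := by
    intro k hk
    have c1 := a0 (2 * k + 0) (by unfold NE; omega)
    have c2 := a0 (2 * k + 1) (by unfold NE; omega)
    have c3 := a1 (2 * k + 0) (by omega)
    have c4 := a1 (2 * k + 1) (by omega)
    rw [moda_st_lo hk (by omega), moda_wd_lo hk (by omega)] at c1 c2
    rw [moda_st_lo hk (by omega)] at c3 c4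
    simp only [add_zero, add_assoc, Nat.reduceAdd] at c1 c2 c3 c4
    exact ⟨c3.symm.trans (c4.symm.trans c1), c4.symm.trans c1, c1,
      c2.trans (c3.symm.trans (c4.symm.trans c1))⟩
  have b : ∀ k ≤ g, F (4 * k) = F 0 := by
    intro k
    induction k with
    | zero => intro _; rfl
    | succ k ih => exact fun hk => (b0 k hk).2.2.2.trans (ih (by omega))
  have c : ∀ i ≤ S.length + 1, F (4 * g + 2 * i) = F 0 := by
    intro i
    induction i with
    | zero => intro _; exact b g le_rfl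
    | succ i ih =>
      intro hi
      have c1 := a0 (2 * g + i) (by unfold NE; omega)
      rw [moda_st_hi, moda_wd_hi] at c1
      exact c1.trans (ih (by omega))
  change F j = F 0
  unfold LL at hj
  by_cases hg : j < 4 * g
  · have hk : j / 4 < g := by omega
    have e := b (j / 4) hk.le
    obtain ⟨d1, d2, d3, -⟩ := b0 (j / 4) hk
    have : j = 4 * (j / 4) ∨ j = 4 * (j / 4) + 1 ∨ j = 4 * (j / 4) + 2 ∨ j = 4 * (j / 4) + 3 := by
      omega
    rcases this with r | r | r | r <;> rw [r]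
    exacts [e, d1.trans e, d2.trans e, d3.trans e]
  · rw [show j = 4 * g + 2 * ((j - 4 * g) / 2) by omega]
    exact c _ (by omega)

lemma fib_vert (m : ℕ) {j : ℕ} (hj : j ≤ LL g S) (h : j ≤ 4 * g ∨ j % 2 = 0) :
    fib v m j = fib v m 0 := by
  simp only [fib, pp_vert hj h]

omit [NeZero Q] in
lemma tisoc_col {N : ZMod Q} (hv : Per g S v Av N nv) : ∃ m₀, ∀ m ≥ m₀, ∀ e < NE g S, ∀ a ≤ m,
    ∀ c ≤ m, v (pp g S (uA g S e m a c)) (pp g S (uA g S e m a (c + 1)))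
      = Av (uA g S e m a (c + 1)) - Av (uA g S e m a c) := by
  obtain ⟨m₀, hm₀⟩ := fine (g := g) (S := S)
    (P := fun U => ∀ a ∈ U, ∀ b ∈ U, v (pp g S a) (pp g S b) = Av b - Av a) hv.prim
  refine ⟨m₀, fun m hm e he a ha c hc => ?_⟩
  obtain ⟨⟨U, hU, hmem⟩, -⟩ := hm₀ m hm e he a ha c hc
  exact hU _ (hmem 0 (by omega) 0 (by omega)) _ (hmem 0 (by omega) 1 (by omega))

lemma tisoc_tel (y : Disc) (m k : ℕ)
    (h : ∀ c < k, v (pp g S (y, (c : ℝ) / m)) (pp g S (y, ((c + 1 : ℕ) : ℝ) / m))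
      = Av (y, ((c + 1 : ℕ) : ℝ) / m) - Av (y, (c : ℝ) / m)) :
    ((∑ c ∈ Finset.range k, ((v (pp g S (y, (c : ℝ) / m))
      (pp g S (y, ((c + 1 : ℕ) : ℝ) / m))).val : ℤ) : ℤ) : ZMod Q)
      = Av (y, (k : ℝ) / m) - Av (y, 0) := by
  have h1 := Finset.sum_range_sub (fun c : ℕ => Av (y, (c : ℝ) / m)) k
  rw [Nat.cast_zero, zero_div] at h1
  rw [← h1, Int.cast_sum]
  refine Finset.sum_congr rfl fun c hc => ?_
  rw [Int.cast_natCast, ZMod.natCast_zmod_val, h c (Finset.mem_range.1 hc)]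

lemma tisoc_iter {Γ : Type} [CommRing Γ] {f : ℝ → Γ} {s : ℝ} {n : Γ} (h : ∀ z, f (z + s) = f z + n)
    (z : ℝ) (k : ℤ) : f (z + k * s) = f z + k * n := by
  induction k using Int.induction_on with
  | zero => simp
  | succ k ih =>
    rw [show z + (((k : ℤ) + 1 : ℤ) : ℝ) * s = z + ((k : ℤ) : ℝ) * s + s by push_cast; ring, h, ih]
    push_cast
    ring
  | pred k ih =>
    have := h (z + ((-(k : ℤ) - 1 : ℤ) : ℝ) * s)
    rw [show z + ((-(k : ℤ) - 1 : ℤ) : ℝ) * s + s = z + ((-(k : ℤ) : ℤ) : ℝ) * s by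
      push_cast; ring, ih] at this
    push_cast at this ⊢
    linear_combination -this

lemma tisoc_blocks {G : ℕ → ℤ} {m : ℕ} (h : Function.Periodic G m) (k : ℕ) :
    ∑ c ∈ Finset.range (k * m), G c = k * ∑ c ∈ Finset.range m, G c := by
  induction k with
  | zero => simp
  | succ k ih =>
    rw [add_mul, one_mul, Finset.sum_range_add, ih,
      Finset.sum_congr rfl fun c _ => (add_comm (k * m) c ▸ h.nat_mul k c : G (k * m + c) = G c)]
    push_cast
    ring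

lemma fib_zero (hv : Per g S v Av 0 nv) : ∃ m₀, ∀ m ≥ m₀, 0 < m → (Q : ℤ) ∣ fib v m 0 := by
  obtain ⟨m₀, h⟩ := tisoc_col hv
  refine ⟨m₀, fun m hm hm0 => ?_⟩
  have hmR : (m : ℝ) ≠ 0 := by positivity
  have hs : st g 0 = 0 := by unfold st; split_ifs <;> omega
  have hu : ∀ c : ℕ, uA g S 0 m 0 c = (bp (LL g S) (0 : ℕ), (c : ℝ) / m) := fun c => by
    simp [uA, ga, hs]
  rw [← ZMod.intCast_zmod_eq_zero_iff_dvd, fib, tisoc_tel (Av := Av) _ m m fun c hc => by
    simpa only [hu] using h m hm 0 (by unfold NE; omega) 0 (Nat.zero_le _) c hc.le, div_self hmR]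
  have := hv.per (bp (LL g S) (0 : ℕ)) 0
  rw [zero_add] at this
  rw [this, add_zero, sub_self]

lemma fib_tip (hS : Data S) (hv : Per g S v Av 0 nv) : ∃ m₀, ∀ m ≥ m₀, 0 < m → ∀ i ≤ S.length,
    (pr g S (2 * g + i)).1 ∣ m → ∀ b : ℤ,
      ((pr g S (2 * g + i)).2 * b : ZMod Q) = nv (2 * g + i) →
      ((pr g S (2 * g + i)).1 * b : ZMod Q) = 0 →
      ((pr g S (2 * g + i)).1 * Q : ℤ) ∣ fib v m (4 * g + 2 * i + 1) - (pr g S (2 * g + i)).1 * b := by
  obtain ⟨m₀, h⟩ := tisoc_col hv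
  refine ⟨m₀, fun m hm hm0 i hi hd b hb1 hb2 => ?_⟩
  have hmR : (m : ℝ) ≠ 0 := by positivity
  have he : 2 * g + i < NE g S := by unfold NE; omega
  have h1 : (1 : ℝ) ∈ Icc (0 : ℝ) 1 := by simp
  obtain ⟨hα, hgcd⟩ := pr_data (g := g) hS (2 * g + i)
  have hsh : sh g S (2 * g + i) = (pr g S (2 * g + i)).2 / (pr g S (2 * g + i)).1 := rfl
  set y := bp (LL g S) ((4 * g + 2 * i + 1 : ℕ) : ℝ) with hy
  have ha : ∀ z, ga g S (2 * g + i) 1 z = (y, z) := fun z => by
    rw [ga, moda_st_hi, hy]; push_cast; rfl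
  have hb : ∀ z, gb g S (2 * g + i) 1 z = (y, z + sh g S (2 * g + i)) := fun z => by
    rw [gb, moda_st_hi, moda_wd_hi, hy, one_mul]
    congr 2
    push_cast; ring
  have hu : ∀ c : ℕ, uA g S (2 * g + i) m m c = (y, (c : ℝ) / m) := fun c => by
    rw [uA, div_self hmR, ha]
  have kP : Function.Periodic (fun z => pp g S (y, z)) (sh g S (2 * g + i)) := fun z => by
    have := pp_glue he h1 z
    rwa [ha, hb] at this
  have kA : ∀ z, Av (y, z + sh g S (2 * g + i)) = Av (y, z) + nv (2 * g + i) := fun z => by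
    have := hv.arc _ he 1 h1 z
    rwa [ha, hb] at this
  generalize (pr g S (2 * g + i)).1 = α at *
  generalize (pr g S (2 * g + i)).2 = β at *
  obtain ⟨m', rfl⟩ := hd
  have hαR : (α : ℝ) ≠ 0 := by positivity
  have hm' : (m' : ℝ) ≠ 0 := fun e => hmR (by push_cast; rw [e, mul_zero])
  obtain ⟨x, w, hxw⟩ : ∃ x w : ℤ, (α : ℤ) * w + β * x = 1 :=
    ⟨_, _, by rw [← Int.gcd_eq_gcd_ab, hgcd]; rfl⟩
  have hR : (m' : ℝ) / (α * m' : ℕ) = x * sh g S (2 * g + i) + w := by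
    have : (α : ℝ) * w + β * x = 1 := by exact_mod_cast hxw
    rw [hsh]
    push_cast
    field_simp
    linear_combination -this
  have kP' : ∀ z, pp g S (y, z + (m' : ℝ) / (α * m' : ℕ)) = pp g S (y, z) := fun z => by
    rw [hR, ← add_assoc, pp_per]
    exact kP.int_mul x z
  have kA' : Av (y, (m' : ℝ) / (α * m' : ℕ)) - Av (y, 0) = b := by
    have e1 := tisoc_iter (f := fun z => Av (y, z)) kA 0 x
    have e2 : (α : ZMod Q) * w + β * x = 1 := by exact_mod_cast congrArg (Int.cast (R := ZMod Q)) hxw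
    rw [zero_add] at e1
    rw [hR, hv.per_int, e1]
    linear_combination (-(x : ZMod Q)) * hb1 + (b : ZMod Q) * e2 - (w : ZMod Q) * hb2
  have hper : Function.Periodic (fun c : ℕ => ((v (pp g S (y, (c : ℝ) / (α * m' : ℕ)))
      (pp g S (y, ((c + 1 : ℕ) : ℝ) / (α * m' : ℕ)))).val : ℤ)) m' := fun c => by
    have e1 : ((c + m' : ℕ) : ℝ) / (α * m' : ℕ) = c / (α * m' : ℕ) + m' / (α * m' : ℕ) := by
      rw [Nat.cast_add, add_div]
    have e2 : ((c + m' + 1 : ℕ) : ℝ) / (α * m' : ℕ) =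
        ((c + 1 : ℕ) : ℝ) / (α * m' : ℕ) + m' / (α * m' : ℕ) := by
      rw [add_right_comm, Nat.cast_add, add_div]
    simp only [e1, e2, kP']
  have ht := tisoc_tel (g := g) (S := S) (v := v) (Av := Av) y (α * m') m' fun c hc => by
    simpa only [hu] using h _ hm _ he _ le_rfl c (hc.le.trans (Nat.le_mul_of_pos_left _ hα))
  rw [fib, ← hy, tisoc_blocks hper, ← mul_sub]
  refine mul_dvd_mul_left _ ?_
  rw [← ZMod.intCast_zmod_eq_zero_iff_dvd, Int.cast_sub, ht, kA', sub_self]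

end Pool.Agent.P.MP_3d25f3_gt.G
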