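import Pool.Agent.P.MP_3d25f3_gt.TIsoA
import Pool.Agent.P.MP_3d25f3_gt.TIsoC
import Pool.Agent.P.MP_3d25f3_gt.TAnn

set_option autoImplicit false

open Set Filter Topology

namespace Pool.Agent.P.MP_3d25f3_gt.G

variable {g : ℕ} {S : List (ℕ × ℤ)} {Q : ℕ} [NeZero Q] {u v : Seifert g S → Seifert g S → ZMod Q}
  {Au Av : Cov → ZMod Q} {nu nv : ℕ → ZMod Q}

/-- the Bockstein as a cochain -/
def tisob_bz {Z : Type} (v : Z → Z → ZMod Q) : List Z → ℤ
  | [a, b, c] => bkz v a b c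
  | _ => 0

/-- the primitive of the product -/
def tisob_B (U : Solid → ZMod Q) (v : Seifert g S → Seifert g S → ZMod Q) : List Solid → ZMod Q
  | [y0, y1, y2] => U y0 * (bkz v (pm g S y0) (pm g S y1) (pm g S y2) : ZMod Q)
  | _ => 0

lemma tisob_null (hu : Per g S u Au 0 nu) (hv : Per g S v Av 0 nv) {U : Solid → ZMod Q}
    (hU : ∀ y, U (pc y) = Au y) :
    D 1 (tisob_B U v) - pull (pm g S) 1 (tr u v) ∈ Null (ZMod Q) 3 (univ : Set Solid) := by
  intro y _
  obtain ⟨z, rfl⟩ := pc_surj y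
  obtain ⟨U1, hU1, h1⟩ := hu.prim z
  obtain ⟨U2, hU2, h2⟩ := hv.prim z
  refine ⟨pc '' (U1 ∩ U2), isOpenMap_pc.image_mem_nhds (inter_mem hU1 hU2), ?_⟩
  intro l hl hW
  match l, hl, hW with
  | [y0, y1, y2, y3], _, hW =>
    obtain ⟨a0, ha0, rfl⟩ := hW y0 (by simp)
    obtain ⟨a1, ha1, rfl⟩ := hW y1 (by simp)
    obtain ⟨a2, ha2, rfl⟩ := hW y2 (by simp)
    obtain ⟨a3, ha3, rfl⟩ := hW y3 (by simp)
    have n01 : u (pp g S a0) (pp g S a1) = Au a1 - Au a0 := h1 a0 ha0.1 a1 ha1.1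
    have co : ∀ a ∈ U2, ∀ b ∈ U2, ∀ c ∈ U2,
        v (pp g S a) (pp g S b) + v (pp g S b) (pp g S c) = v (pp g S a) (pp g S c) :=
      fun a ha b hb c hc => by
        rw [h2 a ha b hb, h2 b hb c hc, h2 a ha c hc]
        ring
    have hk := congrArg (Int.cast : ℤ → ZMod Q) (bkz_coc (co _ ha0.2 _ ha1.2 _ ha2.2)
      (co _ ha0.2 _ ha1.2 _ ha3.2) (co _ ha0.2 _ ha2.2 _ ha3.2) (co _ ha1.2 _ ha2.2 _ ha3.2))
    push_cast at hk
    have hw : pull (pm g S) 1 (tr u v) [pc a0, pc a1, pc a2, pc a3]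
        = u (pp g S a0) (pp g S a1) * (bkz v (pp g S a1) (pp g S a2) (pp g S a3) : ZMod Q) := by
      rw [pull_cons, Pi.one_apply, one_mul]
      rfl
    have hB : ∀ a b c, tisob_B U v [pc a, pc b, pc c]
        = Au a * (bkz v (pp g S a) (pp g S b) (pp g S c) : ZMod Q) := fun a b c => by
      rw [← hU]
      rfl
    rw [Pi.sub_apply, hw, D_four, hB, hB, hB, hB, n01]
    simp only [Pi.one_apply]
    linear_combination Au a0 * hk

omit [NeZero Q] in
lemma tisob_sq (hu : Per g S u Au 0 nu) {U : Solid → ZMod Q} (hU : ∀ y, U (pc y) = Au y)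
    {e m a : ℕ} (he : e < NE g S) (ha : a < m) (c : ℕ) :
    sqr (tisob_B U v) (fun a c => pc (uA g S e m a c)) a c
      - sqr (tisob_B U v) (fun a c => pc (uB g S e m a c)) a c
      = -(nu e * (sqr (tisob_bz v) (fun a c => pp g S (uA g S e m a c)) a c : ℤ)) := by
  have gl : ∀ a ≤ m, ∀ c' : ℕ, pp g S (uB g S e m a c') = pp g S (uA g S e m a c') :=
    fun a ha c' => pp_glue he (annb_mem ha) _
  have hB : ∀ a b c, tisob_B U v [pc a, pc b, pc c]
      = Au a * (bkz v (pp g S a) (pp g S b) (pp g S c) : ZMod Q) := fun a b c => by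
    rw [← hU]
    rfl
  have h1 : Au (uB g S e m a c) = Au (uA g S e m a c) + nu e := hu.arc e he _ (annb_mem ha.le) _
  simp only [sqr, hB, gl a ha.le, gl (a + 1) ha, h1, tisob_bz]
  push_cast
  ring

theorem iso_ev (hS : Data S) (hu : Per g S u Au 0 nu) (hv : Per g S v Av 0 nv)
    (hB : tr u v ∈ Bc (1 : Seifert g S → Seifert g S → ZMod Q) 3 univ ∅) :
    ∃ m₀, ∀ m ≥ m₀, 0 < m → (∀ e < NE g S, (pr g S e).1 ∣ m) → ∃ T : ℕ → ℤ,
      (∀ e < NE g S, Q * T e = fib v m (st g e + 1) - fib v m (st g e)) ∧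
      ∑ e ∈ Finset.range (NE g S), nu e * (T e : ZMod Q) = 0 := by
  obtain ⟨U, hU⟩ := desc_pc Au fun y z => by rw [hu.per, add_zero]
  obtain ⟨m₁, h1⟩ := ev_zero hS (tisob_null hu hv hU) hB
  obtain ⟨m₂, h2⟩ := fine (g := g) (S := S)
    (P := fun U => ∀ a ∈ U, ∀ b ∈ U, v (pp g S a) (pp g S b) = Av b - Av a) hv.prim
  refine ⟨max m₁ m₂, fun m hm hpos hd => ⟨fun e => ∑ a ∈ Finset.range m, ∑ c ∈ Finset.range m,
    sqr (tisob_bz v) (fun a c => pp g S (uA g S e m a c)) a c, fun e he => ?_, ?_⟩⟩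
  · have hmR : (m : ℝ) ≠ 0 := by positivity
    have h3 := sum_sqr_D (co1 fun a b => ((v a b).val : ℤ)) (fun a c => pp g S (uA g S e m a c)) m
      fun a => by
        have := per_pp (g := g) (S := S) (bp (LL g S) (st g e + (a : ℝ) / m)) 0
        simpa [uA, ga, div_self hmR] using this
    have h4 : ∀ a ∈ Finset.range m, ∀ c ∈ Finset.range m,
        (Q : ℤ) * sqr (tisob_bz v) (fun a c => pp g S (uA g S e m a c)) a c
          = sqr (D 1 (co1 fun a b => ((v a b).val : ℤ))) (fun a c => pp g S (uA g S e m a c)) a c := by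
      intro a ha c hc
      obtain ⟨⟨W, hW, hmem⟩, -⟩ := h2 m (le_of_max_le_right hm) e he a (Finset.mem_range.1 ha).le c
        (Finset.mem_range.1 hc).le
      have co : ∀ a ∈ W, ∀ b ∈ W, ∀ c ∈ W,
          v (pp g S a) (pp g S b) + v (pp g S b) (pp g S c) = v (pp g S a) (pp g S c) :=
        fun a ha b hb c hc => by
          rw [hW a ha b hb, hW b hb c hc, hW a ha c hc]
          ring
      have b1 := bkz_mul (co _ (hmem 0 zero_le_one 0 zero_le_one) _ (hmem 1 le_rfl 0 zero_le_one) _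
        (hmem 1 le_rfl 1 le_rfl))
      have b2 := bkz_mul (co _ (hmem 0 zero_le_one 0 zero_le_one) _ (hmem 0 zero_le_one 1 le_rfl) _
        (hmem 1 le_rfl 1 le_rfl))
      simp only [add_zero] at b1 b2
      simp only [sqr, tisob_bz, D_three, co1, Pi.one_apply, one_mul]
      linear_combination b1 - b2
    rw [Finset.mul_sum, Finset.sum_congr rfl fun a ha => (Finset.mul_sum _ _ _).trans
      (Finset.sum_congr rfl (h4 a ha)), h3]
    simp only [fib, co1, uA, ga, div_self hmR, Nat.cast_zero, zero_div, add_zero, Nat.cast_add,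
      Nat.cast_one]
  · have h3 := h1 m (le_of_max_le_left hm) hpos hd
    rw [evT, Finset.sum_congr rfl fun e he => Finset.sum_congr rfl fun a ha =>
      Finset.sum_congr rfl fun c _ =>
        tisob_sq hu hU (Finset.mem_range.1 he) (Finset.mem_range.1 ha) c] at h3
    simp only [Finset.sum_neg_distrib, neg_eq_zero, ← Finset.mul_sum] at h3
    simpa only [Int.cast_sum] using h3

theorem iso_sum (hS : Data S) (hu : Per g S u Au 0 nu) (hv : Per g S v Av 0 nv)
    (hB : tr u v ∈ Bc (1 : Seifert g S → Seifert g S → ZMod Q) 3 univ ∅) (b y : ℕ → ℤ)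
    (hb : ∀ i ≤ S.length, ((pr g S (2 * g + i)).2 * b i : ZMod Q) = nv (2 * g + i))
    (hy : ∀ i ≤ S.length, (pr g S (2 * g + i)).1 * b i = Q * y i) :
    ∑ i ∈ Finset.range (S.length + 1), nu (2 * g + i) * (y i : ZMod Q) = 0 := by
  obtain ⟨m₁, h1⟩ := iso_ev hS hu hv hB
  obtain ⟨m₂, h2⟩ := fib_zero hv
  obtain ⟨m₃, h3⟩ := fib_tip hS hv
  obtain ⟨m, hm, hpos, hd⟩ := annb_exists_m (g := g) hS (max m₁ (max m₂ m₃))
  obtain ⟨T, hT, hs⟩ := h1 m (le_of_max_le_left hm) hpos hd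
  obtain ⟨f, hf⟩ := h2 m (le_of_max_le_left (le_of_max_le_right hm)) hpos
  have hQ : (Q : ℤ) ≠ 0 := by exact_mod_cast NeZero.ne Q
  have h0 : ∀ k < g, ∀ e < 2, T (2 * k + e) = 0 := fun k hk e he => by
    have := hT (2 * k + e) (by unfold NE; omega)
    rw [moda_st_lo hk he, fib_vert m (by unfold LL; omega) (.inl (by omega)),
      fib_vert m (j := 4 * k + e) (by unfold LL; omega) (.inl (by omega)), sub_self] at this
    exact (mul_eq_zero.1 this).resolve_left hQ
  have h4 : ∀ i ∈ Finset.range (S.length + 1), nu (2 * g + i) * (T (2 * g + i) : ZMod Q)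
      = nu (2 * g + i) * (y i : ZMod Q) - nu (2 * g + i) * (f : ZMod Q) := fun i hi => by
    have hi' : i ≤ S.length := Nat.lt_succ_iff.1 (Finset.mem_range.1 hi)
    have he : 2 * g + i < NE g S := by unfold NE; omega
    have h5 := congrArg (Int.cast : ℤ → ZMod Q) (hy i hi')
    push_cast at h5
    rw [ZMod.natCast_self, zero_mul] at h5
    obtain ⟨t, ht⟩ := h3 m (le_of_max_le_right (le_of_max_le_right hm)) hpos i hi' (hd _ he) (b i)
      (hb i hi') h5
    have h6 := hT _ he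
    rw [moda_st_hi, fib_vert m (j := 4 * g + 2 * i) (by unfold LL; omega) (.inr (by omega)), hf] at h6
    have h7 : T (2 * g + i) = y i + (pr g S (2 * g + i)).1 * t - f :=
      mul_left_cancel₀ hQ (by linear_combination h6 + ht + hy i hi')
    have h8 := hu.slit hS (Nat.le_add_right _ _) he
    rw [h7]
    push_cast
    linear_combination (t : ZMod Q) * h8
  rw [sum_arcs, Finset.sum_eq_zero fun k hk => by
      have a0 : T (2 * k) = 0 := h0 k (Finset.mem_range.1 hk) 0 (by omega)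
      rw [a0, h0 k (Finset.mem_range.1 hk) 1 (by omega)]
      simp, zero_add, Finset.sum_congr rfl h4, Finset.sum_sub_distrib, ← Finset.sum_mul,
    hu.sum_slit, zero_mul, sub_zero] at hs
  exact hs

end Pool.Agent.P.MP_3d25f3_gt.G
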