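import Pool.Agent.P.MP_3d25f3_gt.XM

set_option autoImplicit false

open Set Filter Topology

namespace Pool.Agent.P.MP_3d25f3_gt.G

/-- integer cochains divisible by `m` on small lists near `F` -/
def tvan_N {Z : Type} [TopologicalSpace Z] (m : ℕ) (k : ℕ) (F : Set Z) (c : List Z → ℤ) : Prop :=
  ∀ x ∈ F, ∃ U ∈ 𝓝 x, ∀ l : List Z, l.length = k + 1 → (∀ y ∈ l, y ∈ U) → (m : ℤ) ∣ c l

lemma tvan_iff {Z : Type} [TopologicalSpace Z] (m : ℕ) (k : ℕ) (F : Set Z) (c : List Z → ℤ) :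
    cf (Int.castRingHom (ZMod m)) c ∈ Null (ZMod m) k F ↔ tvan_N m k F c := by
  refine forall₂_congr fun x _ => exists_congr fun U => and_congr_right fun _ =>
    forall₃_congr fun l _ _ => ?_
  rw [cf_apply, eq_intCast, ZMod.intCast_zmod_eq_zero_iff_dvd]

lemma tvan_D {Z : Type} (m : ℕ) (c : List Z → ℤ) :
    cf (Int.castRingHom (ZMod m)) (D 1 c) = D 1 (cf (Int.castRingHom (ZMod m)) c) :=
  cf_D _ (fun _ _ => by simp) c

lemma tvan_lift {Z : Type} (m : ℕ) (c : List Z → ZMod m) :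
    ∃ b : List Z → ℤ, cf (Int.castRingHom (ZMod m)) b = c := by
  choose b hb using fun l => ZMod.intCast_surjective (c l)
  exact ⟨b, funext fun l => by rw [cf_apply, eq_intCast, hb]⟩

lemma tvan_one {X Y : Set E4} (h : XY X Y) (hc : IsPreconnected (X ∩ Y)) {p : ℕ} (hp : p.Prime)
    {c : List E4 → ℤ} (h1 : tvan_N p 4 X (D 1 c)) : ∃ b, tvan_N p 3 X (c - D 1 b) := by
  have := Fact.mk hp
  have hz : cf (Int.castRingHom (ZMod p)) c ∈ Zc (1 : E4 → E4 → ZMod p) 3 X ∅ := by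
    refine ⟨by rw [Null_empty]; exact Submodule.mem_top, ?_⟩
    have := (tvan_iff p 4 X _).2 h1
    rwa [tvan_D] at this
  obtain ⟨b', -, h2⟩ := mem_Bc.1 ((cl_eq_zero hz).1 (xm_h3 h hc _))
  obtain ⟨b, rfl⟩ := tvan_lift p b'
  refine ⟨b, (tvan_iff p 3 X _).1 ?_⟩
  rw [map_sub, tvan_D]
  exact h2

lemma tvan_ind {X Y : Set E4} (h : XY X Y) (hc : IsPreconnected (X ∩ Y)) {p : ℕ} (hp : p.Prime)
    (a : ℕ) {c : List E4 → ℤ} (h1 : tvan_N (p ^ a) 4 X (D 1 c)) :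
    ∃ b, tvan_N (p ^ a) 3 X (c - D 1 b) := by
  induction a generalizing c with
  | zero => exact ⟨0, fun x _ => ⟨univ, univ_mem, fun l _ _ => by simp⟩⟩
  | succ a ih =>
    have hp0 : (p : ℤ) ≠ 0 := Int.natCast_ne_zero.2 hp.ne_zero
    obtain ⟨b0, h2⟩ := tvan_one h hc hp (c := c) fun x hx => by
      obtain ⟨U, hU, h3⟩ := h1 x hx
      refine ⟨U, hU, fun l hl hlU => dvd_trans ?_ (h3 l hl hlU)⟩
      rw [pow_succ, Nat.cast_mul]
      exact dvd_mul_left _ _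
    let c' : List E4 → ℤ := fun l => (c - D 1 b0) l / p
    have h3 : c - D 1 b0 - (p : ℤ) • c' ∈ Null ℤ 3 X := fun x hx => by
      obtain ⟨U, hU, h3⟩ := h2 x hx
      refine ⟨U, hU, fun l hl hlU => ?_⟩
      rw [Pi.sub_apply, Pi.smul_apply, smul_eq_mul, Int.mul_ediv_cancel' (h3 l hl hlU), sub_self]
    have h4 : D 1 (D 1 b0) ∈ Null ℤ 4 X :=
      DD_Null (k := 3) (F' := ∅) (Coc_one _) (by rw [Null_empty]; exact Submodule.mem_top)
    have h5 : D 1 c - (p : ℤ) • D 1 c' ∈ Null ℤ 4 X := by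
      have h6 := add_mem (D_Null (1 : E4 → E4 → ℤ) h3) h4
      have e : D 1 (c - D 1 b0 - (p : ℤ) • c') + D 1 (D 1 b0) = D 1 c - (p : ℤ) • D 1 c' := by
        simp only [map_sub, map_smul]
        abel
      rwa [e] at h6
    obtain ⟨b', h7⟩ := ih (c := c') fun x hx => by
      obtain ⟨U, hU, h6⟩ := h1 x hx
      obtain ⟨V, hV, h7⟩ := h5 x hx
      refine ⟨U ∩ V, inter_mem hU hV, fun l hl hlU => ?_⟩
      have h8 := h6 l hl fun y hy => (hlU y hy).1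
      have h9 := h7 l hl fun y hy => (hlU y hy).2
      rw [Pi.sub_apply, Pi.smul_apply, smul_eq_mul, sub_eq_zero] at h9
      rw [h9, pow_succ', Nat.cast_mul] at h8
      exact (mul_dvd_mul_iff_left hp0).1 h8
    refine ⟨b0 + (p : ℤ) • b', fun x hx => ?_⟩
    obtain ⟨U, hU, h6⟩ := h3 x hx
    obtain ⟨V, hV, h8⟩ := h7 x hx
    refine ⟨U ∩ V, inter_mem hU hV, fun l hl hlU => ?_⟩
    have h9 := h6 l hl fun y hy => (hlU y hy).1
    have h10 := h8 l hl fun y hy => (hlU y hy).2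
    have e : c - D 1 (b0 + (p : ℤ) • b')
        = (c - D 1 b0 - (p : ℤ) • c') + (p : ℤ) • (c' - D 1 b') := by
      simp only [map_add, map_smul, smul_sub]
      abel
    rw [e, Pi.add_apply, h9, zero_add, Pi.smul_apply, smul_eq_mul, pow_succ', Nat.cast_mul]
    exact mul_dvd_mul_left _ h10

theorem van_pp {X Y : Set E4} (h : XY X Y) (hc : IsPreconnected (X ∩ Y)) {p : ℕ} (hp : p.Prime)
    (a : ℕ) : Van (1 : E4 → E4 → ZMod (p ^ a)) 3 X ∅ := by
  intro c' hz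
  obtain ⟨c, rfl⟩ := tvan_lift (p ^ a) c'
  have h1 : tvan_N (p ^ a) 4 X (D 1 c) := (tvan_iff _ 4 X _).1 (by rw [tvan_D]; exact hz.2)
  obtain ⟨b, hb⟩ := tvan_ind h hc hp a h1
  refine mem_Bc.2 ⟨cf (Int.castRingHom _) b, by rw [Null_empty]; exact Submodule.mem_top, ?_⟩
  have := (tvan_iff _ 3 X _).2 hb
  rwa [map_sub, tvan_D] at this

end Pool.Agent.P.MP_3d25f3_gt.G
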