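import Pool.Agent.P.MP_3d25f3_gt.Dua

set_option autoImplicit false

open Set Filter Topology

namespace Pool.Agent.P.MP_3d25f3_gt

open Module

variable {R : Type} [CommRing R] {τ τ' : E4 → E4 → R} {X Y N : Set E4}

def jm (τ : E4 → E4 → R) (k : ℕ) (X Y : Set E4) : H τ k univ Y →ₗ[R] H τ k X ∅ :=
  res τ k (subset_univ X) (empty_subset Y)

def rm (τ : E4 → E4 → R) (k : ℕ) (X Y : Set E4) : H τ k X ∅ →ₗ[R] H τ k (X ∩ Y) ∅ :=
  res τ k inter_subset_left subset_rfl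

/-- connecting map -/
noncomputable def dl (h : XY X Y) (hτ : Coc τ X) (k : ℕ) :
    H τ k (X ∩ Y) ∅ →ₗ[R] H τ (k + 1) univ Y :=
  (LinearEquiv.ofBijective _ (exc_bij (τ := τ) (k + 1) h.cX h.cY h.cover.symm rfl (subset_univ X)
    inter_subset_right)).symm.toLinearMap ∘ₗ del k (hτ.mono sdiff_subset)

/-- integration over the hypersurface -/
noncomputable def intM (R : Type) [CommRing R] {X Y : Set E4} (h : XY X Y) :
    H (1 : E4 → E4 → R) 3 (X ∩ Y) ∅ →ₗ[R] R :=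
  (intg R).toLinearMap ∘ₗ res 1 4 subset_rfl h.out ∘ₗ dl h (Coc_one X) 3

lemma dl_eq (h : XY X Y) (hτ : Coc τ X) {k : ℕ} {v a : List E4 → R} (hv : v ∈ Zc τ k (X ∩ Y) ∅)
    (ha : a ∈ Zc τ (k + 1) univ Y) :
    dl h hτ k (cl v hv) = cl a ha ↔ a - D τ v ∈ Bc τ (k + 1) X (X ∩ Y) := by
  unfold dl
  rw [LinearMap.comp_apply, LinearEquiv.coe_coe, LinearEquiv.symm_apply_eq,
    LinearEquiv.ofBijective_apply, del_cl, res_cl, eq_comm, cl_eq]

lemma dl_rep (h : XY X Y) (hτ : Coc τ X) {k : ℕ} {v : List E4 → R} (hv : v ∈ Zc τ k (X ∩ Y) ∅) :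
    ∃ a ha, a - D τ v ∈ Null R (k + 1) X ∧ dl h hτ k (cl v hv) = cl a ha := by
  have hD : D τ v ∈ Zc τ (k + 1) X (X ∩ Y) :=
    ⟨hv.2, DD_Null (k := k + 1) (F' := ∅) (hτ.mono sdiff_subset) hv.1⟩
  obtain ⟨a, ha, hn⟩ := exc_surj (k + 1) h.cX h.cY hD
  rw [h.cover] at ha
  have hn' : a - D τ v ∈ Null R (k + 1) X := by
    have := neg_mem hn
    rwa [neg_sub] at this
  exact ⟨a, ha, hn', (dl_eq h hτ hv ha).2 (Null_le_Bc _ _ _ _ hn')⟩

lemma xl_jm_eq (k : ℕ) (z : H τ k univ Y) : jm τ k X Y z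
    = res τ k (F := X) (F' := X ∩ Y) subset_rfl (empty_subset _)
      (res τ k (F := univ) (F' := Y) (subset_univ X) inter_subset_right z) := by
  obtain ⟨c, hc, rfl⟩ := cl_surj z
  rfl

lemma exact_jm_rm (h : XY X Y) (hτ : Coc τ X) (k : ℕ) :
    Function.Exact (jm τ k X Y) (rm τ k X Y) := by
  intro y
  have h1 := exact_res_res (τ := τ) (F := X) (F' := X ∩ Y) (F'' := ∅) k (hτ.mono sdiff_subset)
    inter_subset_left (empty_subset _) y
  refine h1.trans ⟨?_, ?_⟩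
  · rintro ⟨x, rfl⟩
    obtain ⟨z, rfl⟩ := (exc_bij (τ := τ) k h.cX h.cY h.cover.symm rfl (subset_univ X)
      inter_subset_right).2 x
    exact ⟨z, xl_jm_eq k z⟩
  · rintro ⟨z, rfl⟩
    exact ⟨_, (xl_jm_eq k z).symm⟩

lemma exact_rm_dl (h : XY X Y) (hτ : Coc τ X) (k : ℕ) :
    Function.Exact (rm τ k X Y) (dl h hτ k) := by
  intro y
  have h1 := exact_res_del (τ := τ) (F := X) (F' := X ∩ Y) (F'' := ∅) k (hτ.mono sdiff_subset)
    inter_subset_left (empty_subset _) y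
  refine Iff.trans ?_ h1
  unfold dl
  rw [LinearMap.comp_apply, LinearEquiv.coe_coe, LinearEquiv.map_eq_zero_iff]

lemma exact_dl_jm (h : XY X Y) (hτ : Coc τ X) (k : ℕ) :
    Function.Exact (dl h hτ k) (jm τ (k + 1) X Y) := by
  intro y
  have h1 := exact_del_res (τ := τ) (F := X) (F' := X ∩ Y) (F'' := ∅) k (hτ.mono sdiff_subset)
    inter_subset_left (empty_subset _)
    (res τ (k + 1) (F := univ) (F' := Y) (subset_univ X) inter_subset_right y)
  rw [xl_jm_eq]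
  refine h1.trans (exists_congr fun x => ?_)
  unfold dl
  rw [LinearMap.comp_apply, LinearEquiv.coe_coe, LinearEquiv.symm_apply_eq,
    LinearEquiv.ofBijective_apply]

lemma fg_inter [IsNoetherianRing R] (h : XY X Y) (hg : Good τ τ' N) (hN : X ⊆ N) :
    FG τ (X ∩ Y) ∅ := by
  intro k
  obtain ⟨h1, h2⟩ := h.fg hg hN
  have := h1 (k + 1)
  have := h2 k
  exact finite_of_exact (exact_rm_dl h (hg.coc.mono hN) k)

lemma jm_one (h : XY X Y) (k : ℕ) : jm (1 : E4 → E4 → R) (k + 1) X Y = 0 := by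
  refine LinearMap.ext fun x => ?_
  obtain ⟨c, hc, rfl⟩ := cl_surj x
  rw [LinearMap.zero_apply, jm, res_cl, cl_eq_zero]
  have h1 := van_convex (τ := (1 : E4 → E4 → R)) k (isCompact_closedBall (0 : E4) 1)
    (convex_closedBall 0 1) (Coc_one _) (Zc_mono _ _ (subset_univ _) (empty_subset Y) hc)
  exact Bc_mono _ _ (h.ball.trans Metric.ball_subset_closedBall) subset_rfl h1

lemma pair_dl (h : XY X Y) (hg : Good τ τ' N) (hN : X ⊆ N) {i j : ℕ} (hij : i + 1 + j = 4)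
    {v b : List E4 → R} (hv : v ∈ Zc τ i (X ∩ Y) ∅) (hb : b ∈ Zc τ' j X ∅)
    (hw : cup τ' i v b ∈ Zc (1 : E4 → E4 → R) 3 (X ∩ Y) ∅) :
    pair (h.ok hg hN) hij (dl h (hg.coc.mono hN) i (cl v hv)) (cl b hb) = intM R h (cl _ hw) := by
  have hτ := hg.coc.mono hN
  have hτ' := hg.coc'.mono hN
  have hm : Mu τ τ' 1 X := fun x hx => hg.mu x (hN hx)
  obtain ⟨a, ha, hn, he⟩ := dl_rep h hτ hv
  have ok : POK τ τ' Y univ Y X ∅ := ⟨subset_rfl, by simp, by rw [union_comm, h.cover], hτ, hτ', hm⟩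
  have hz : cup τ' (i + 1) a b ∈ Zc (1 : E4 → E4 → R) (3 + 1) univ Y := cup_Zc ok hij ha hb
  have h1 := leibniz_Null hτ hτ' hm (p := i) (k := 4) (by omega) v b
  have h2 : cup τ' (i + 1) (a - D τ v) b ∈ Null R 4 X := cup_Null_left τ' (by omega) hn b
  have h3 : cup τ' i v (D τ' b) ∈ Null R 4 X := cup_Null_right τ' (by omega) v hb.2
  have h4 : cup τ' (i + 1) a b = cup τ' (i + 1) (a - D τ v) b + cup τ' (i + 1) (D τ v) b := by
    rw [← cup_add_left, sub_add_cancel]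
  have h5 : cup τ' (i + 1) a b - D 1 (cup τ' i v b) ∈ Null R 4 X := by
    have h6 := sub_mem (sub_mem h2 h1) (Submodule.smul_mem _ ((-1 : R) ^ i) h3)
    have h7 : cup τ' (i + 1) a b - D 1 (cup τ' i v b) = cup τ' (i + 1) (a - D τ v) b
        - (D 1 (cup τ' i v b) - (cup τ' (i + 1) (D τ v) b + (-1 : R) ^ i • cup τ' i v (D τ' b)))
        - (-1 : R) ^ i • cup τ' i v (D τ' b) := by
      rw [h4]
      abel
    rw [h7]
    exact h6
  have h8 := (dl_eq h (Coc_one X) hw hz).2 (Null_le_Bc _ _ _ _ h5)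
  have h9 : pair (h.ok hg hN) hij (dl h (hg.coc.mono hN) i (cl v hv)) (cl b hb)
      = pair (h.ok hg hN) hij (cl a ha) (cl b hb) := by rw [he]
  rw [h9, pair_cl]
  unfold intM
  rw [LinearMap.comp_apply, LinearMap.comp_apply, h8]
  rfl

lemma pair_comm (h : XY X Y) (hg : Good τ τ' N) (hN : X ⊆ N) (a : H τ 2 univ Y)
    (b : H τ' 2 univ Y) : pair (h.ok hg hN) (i := 2) (j := 2) rfl a (jm τ' 2 X Y b)
      = pair (h.ok hg.symm hN) (i := 2) (j := 2) rfl b (jm τ 2 X Y a) := by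
  obtain ⟨a, ha, rfl⟩ := cl_surj a
  obtain ⟨b, hb, rfl⟩ := cl_surj b
  rw [jm, jm, res_cl, res_cl, pair_cl, pair_cl]
  exact congrArg _ ((cl_eq _ _).2 (cup_comm (h.ok hg hN) ha hb))

lemma good_one : Good (1 : E4 → E4 → R) 1 univ :=
  ⟨isOpen_univ, Coc_one _, Coc_one _, fun _ _ => ⟨univ, univ_mem, fun _ _ _ _ => by simp⟩,
    fun K _ _ _ => triv_one K⟩

/-- a class that vanishes on the hypersurface vanishes -/
lemma rm_one_inj (h : XY X Y) : Function.Injective (rm (1 : E4 → E4 → R) 1 X Y) := by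
  rw [injective_iff_map_eq_zero]
  intro y hy
  obtain ⟨x, rfl⟩ := (exact_jm_rm h (Coc_one X) 1 y).1 hy
  have := jm_one (R := R) h 0
  rw [show jm (1 : E4 → E4 → R) 1 X Y = 0 from this, LinearMap.zero_apply]

end Pool.Agent.P.MP_3d25f3_gt
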