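import Pool.Agent.P.MP_3d25f3_gt.XL

set_option autoImplicit false

open Set Filter Topology

namespace Pool.Agent.P.MP_3d25f3_gt

open Module

variable {X Y N : Set E4} {k : Type} [Field k]

lemma finrank_dual {τ τ' : E4 → E4 → k} (h : XY X Y) (hg : Good τ τ' N) (hN : X ⊆ N) {i j : ℕ}
    (hij : i + j = 4) : finrank k (H τ i univ Y) = finrank k (H τ' j X ∅) := by
  have e := LinearEquiv.ofBijective _ (h.dual hg hN hij)
  rw [e.finrank_eq]
  exact Subspace.dual_finrank_eq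

theorem betti_sum (h : XY X Y) : finrank k (H (1 : E4 → E4 → k) 1 X ∅)
    + finrank k (H (1 : E4 → E4 → k) 2 X ∅) = finrank k (H (1 : E4 → E4 → k) 1 (X ∩ Y) ∅) := by
  have hN : X ⊆ univ := subset_univ X
  have hτ : Coc (1 : E4 → E4 → k) X := Coc_one X
  have := fg_inter h (good_one (R := k)) hN 1
  have h1 := LinearMap.finrank_range_add_finrank_ker (dl h hτ 1)
  have h2 : LinearMap.range (dl h hτ 1) = ⊤ := by
    rw [← (exact_dl_jm h hτ 1).linearMap_ker_eq, jm_one h 1, LinearMap.ker_zero]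
  rw [h2, finrank_top, (exact_rm_dl h hτ 1).linearMap_ker_eq,
    LinearMap.finrank_range_of_inj (rm_one_inj h),
    finrank_dual h (good_one (R := k)) hN (i := 1 + 1) (j := 2) rfl] at h1
  rw [← h1, add_comm]

theorem rank_jm {τ τ' : E4 → E4 → k} (h : XY X Y) (hg : Good τ τ' N) (hN : X ⊆ N) :
    finrank k (LinearMap.range (jm τ 2 X Y)) + finrank k (H τ 1 (X ∩ Y) ∅)
      ≤ finrank k (H τ 1 X ∅) + finrank k (H τ' 2 X ∅) := by
  have hτ : Coc τ X := hg.coc.mono hN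
  have := fg_inter h hg hN 1
  have := (h.fg hg hN).1 2
  have := (h.fg hg hN).2 1
  have h1 := LinearMap.finrank_range_add_finrank_ker (dl h hτ 1)
  have h2 := LinearMap.finrank_range_add_finrank_ker (jm τ 2 X Y)
  have h3 : LinearMap.ker (jm τ 2 X Y) = LinearMap.range (dl h hτ 1) :=
    (exact_dl_jm h hτ 1).linearMap_ker_eq
  rw [(exact_rm_dl h hτ 1).linearMap_ker_eq] at h1
  rw [h3, finrank_dual h hg hN (i := 2) (j := 2) rfl] at h2
  have h4 : finrank k (LinearMap.range (rm τ 1 X Y)) ≤ finrank k (H τ 1 X ∅) :=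
    LinearMap.finrank_range_le _
  rw [← h1, ← h2, ← add_assoc, add_comm]
  exact Nat.add_le_add_right h4 _

lemma xm_h0 {Z R : Type} [TopologicalSpace Z] [CommRing R] {K : Set Z} (hK : IsPreconnected K)
    {c : List Z → R} (hc : c ∈ Zc (1 : Z → Z → R) 0 K ∅) :
    ∃ r : R, c - (fun _ => r) ∈ Null R 0 K := by
  rcases K.eq_empty_or_nonempty with rfl | ⟨x, hx⟩
  · exact ⟨0, by rw [Null_empty]; exact Submodule.mem_top⟩
  · exact ⟨_, h0_const hK hc hx⟩

lemma xm_cup {Z R : Type} [TopologicalSpace Z] [CommRing R] {K : Set Z} {p : ℕ} (v : List Z → R)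
    {b : List Z → R} {r : R} (hr : b - (fun _ => r) ∈ Null R 0 K) :
    cup (1 : Z → Z → R) p v b - r • v ∈ Null R p K := by
  have h1 := cup_Null_right (1 : Z → Z → R) (p := p) (q := 0) (k := p) rfl v hr
  intro x hx
  obtain ⟨U, hU, h2⟩ := h1 x hx
  refine ⟨U, hU, fun l hl hlU => ?_⟩
  have h3 := h2 l hl hlU
  cases l with
  | nil => simp at hl
  | cons y l =>
    have h4 : l.take p = l := List.take_of_length_le (by simpa using hl.le)
    simp only [cup, h4, Pi.sub_apply, Pi.one_apply, one_mul, Pi.smul_apply, smul_eq_mul] at h3 ⊢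
    rw [← h3]; ring

lemma xm_h1 (h : XY X Y) (hc : IsPreconnected (X ∩ Y)) (y : H (1 : E4 → E4 → k) 1 univ Y) :
    y = 0 := by
  have hτ : Coc (1 : E4 → E4 → k) X := Coc_one X
  obtain ⟨w, rfl⟩ := (exact_dl_jm h hτ 0 y).1 (by rw [jm_one h 0, LinearMap.zero_apply])
  refine (exact_rm_dl h hτ 0 w).2 ?_
  obtain ⟨c, hc', rfl⟩ := cl_surj w
  obtain ⟨r, hr⟩ := xm_h0 hc hc'
  refine ⟨cl _ (Submodule.smul_mem _ r (one_mem_Zc X)), ?_⟩
  refine (res_cl 1 0 _ _ _ _).trans ((cl_eq _ _).2 (Null_le_Bc _ _ _ _ ?_))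
  have e : (r • fun _ : List E4 => (1 : k)) = fun _ => r := by
    funext l; simp
  have h2 := neg_mem hr
  rwa [neg_sub, ← e] at h2

lemma xm_h3 (h : XY X Y) (hc : IsPreconnected (X ∩ Y)) (y : H (1 : E4 → E4 → k) 3 X ∅) :
    y = 0 := by
  refine (Module.forall_dual_apply_eq_zero_iff k y).1 fun f => ?_
  obtain ⟨a, rfl⟩ := (h.dual (good_one (R := k)) (subset_univ X) (i := 1) (j := 3) rfl).2 f
  rw [xm_h1 h hc a, map_zero, LinearMap.zero_apply]

theorem intM_inj (h : XY X Y) (hc : IsPreconnected (X ∩ Y)) :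
    Function.Injective (intM k h) := by
  have hN : X ⊆ univ := subset_univ X
  have hτ : Coc (1 : E4 → E4 → k) X := Coc_one X
  have hg := good_one (R := k)
  rw [injective_iff_map_eq_zero]
  intro w hw0
  obtain ⟨v, hv, rfl⟩ := cl_surj w
  have hd : dl h hτ 3 (cl v hv) = 0 := by
    refine (h.dual hg hN (i := 3 + 1) (j := 0) rfl).1 ?_
    rw [map_zero]
    refine LinearMap.ext fun s => ?_
    obtain ⟨b, hb, rfl⟩ := cl_surj s
    have hb' : b ∈ Zc (1 : E4 → E4 → k) 0 (X ∩ Y) ∅ :=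
      Zc_mono 1 0 inter_subset_left subset_rfl hb
    have hm : Mu (1 : E4 → E4 → k) 1 1 (X ∩ Y) := fun x _ => hg.mu x (mem_univ x)
    have hw : cup (1 : E4 → E4 → k) 3 v b ∈ Zc (1 : E4 → E4 → k) 3 (X ∩ Y) ∅ :=
      cup_Zc_abs (Coc_one _) (Coc_one _) hm (p := 3) (q := 0) rfl hv hb'
    obtain ⟨r, hr⟩ := xm_h0 hc hb'
    have e : cl _ hw = r • cl v hv := by
      rw [← cl_smul, cl_eq]
      exact Null_le_Bc _ _ _ _ (xm_cup v hr)
    rw [LinearMap.zero_apply]
    refine (pair_dl h hg hN (i := 3) (j := 0) rfl hv hb hw).trans ?_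
    rw [e, map_smul, hw0, smul_zero]
  obtain ⟨y, hy⟩ := (exact_rm_dl h hτ 3 _).1 hd
  rw [← hy, xm_h3 h hc y, map_zero]

end Pool.Agent.P.MP_3d25f3_gt
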